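import Pool.Agent.Run7.h659.TT2

/-!
# Relations between the values at all tuples of separated points of windows
-/

set_option autoImplicit false

open PowerSeries

namespace Pool.Agent.Run7.h659.TT

open Pool.Agent.Y113 Pool.Agent.Y113.GG Pool.Agent.Y37.GF Pool.Agent.Y118.HG Pool.Agent.Y921.DB

/-- every relation of degree `≤ δ` with coefficients in `V` between the values of the functions `p` at `1 / m` is the
value of a functional relation -/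
def SpecV (V : Submodule ℚ ℂ) {k : ℕ} {τ : Type} (p : (Fin k → ℂ) → τ → ℂ) (r : ℝ) (δ : ℕ)
    (m : Fin k → ℕ) : Prop :=
  ∀ P : MvPolynomial τ ℂ, P.totalDegree ≤ δ → (∀ s, P.coeff s ∈ V) →
    MvPolynomial.aeval (p fun j => 1 / (m j : ℂ)) P = 0 →
    ∃ G : MvPolynomial τ (MvPolynomial (Fin k) ℂ),
      (∀ z : Fin k → ℂ, (∀ j, ‖z j‖ < r) → G.eval₂ (MvPolynomial.aeval z : MvPolynomial (Fin k) ℂ →ₐ[ℂ] ℂ).toRingHom
        (p z) = 0) ∧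
      G.map (MvPolynomial.eval fun j => 1 / (m j : ℂ)) = P

variable {n : ℕ}

/-- **Windows, all tuples.** -/
theorem win_all {f : Polynomial ℚ} {A : Fin n → Fin n → Polynomial ℚ} {Z W : Fin n → Fin n → ℚ⟦X⟧} (h : Dat f A Z W)
    {r₀ : ℝ} (hr₀ : 0 < r₀) {ι : Type} {p : ℂ → ι → ℂ} {c' : ι → Option (Fin n × Fin n) → ℂ}
    (hp : ∀ z : ℂ, ‖z‖ < r₀ → ∀ v, p z v = p1 c' Z z v) :
    ∃ r : ℝ, 0 < r ∧ r ≤ r₀ ∧ ∃ G₀ : ℕ, 0 < G₀ ∧ ∀ (k : ℕ) (κ : Fin k → Type) [∀ j, Fintype (κ j)]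
      (e : ∀ j, κ j → ι) (δ D : ℕ), ∃ M : ℕ, ∃ c : ℝ, 0 < c ∧
        ∀ V : Submodule ℚ ℂ, Module.Finite ℚ V → Module.finrank ℚ V ≤ D → ∀ N : ℕ, 1 ≤ N →
          ∃ S : Finset ℕ, S.card ≤ M ∧ ∀ m : Fin k → ℕ, SepN G₀ m →
            (∀ j, N ≤ m j ∧ (m j : ℝ) ≤ N + (N : ℝ) ^ c ∧ m j ∉ S) → (∀ j, 1 / (m j : ℝ) < r) ∧
              SpecV V (fun (z : Fin k → ℂ) (v : Σ j, κ j) => p (z v.1) (e v.1 v.2)) r δ m := by
  obtain ⟨C', hC', hCZ', -⟩ := h.bound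
  obtain ⟨C, hCC, hCr⟩ : ∃ C : ℝ, C' ≤ C ∧ 1 / r₀ ≤ C := ⟨max C' (1 / r₀), le_max_left _ _, le_max_right _ _⟩
  have hC : 1 ≤ C := hC'.trans hCC
  have hC0 : 0 < C := by linarith
  have hCZ : ∀ i j m, |((coeff m (Z i j) : ℚ) : ℝ)| ≤ C ^ (m + 1) := fun i j m =>
    (hCZ' i j m).trans (pow_le_pow_left₀ (by linarith) hCC _)
  have hrr : 1 / C ≤ r₀ := by
    rw [div_le_iff₀ hC0]
    rw [div_le_iff₀ hr₀] at hCr
    linarith
  obtain ⟨G₀, hG₀, hw⟩ := win_nd h hC hCZ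
  refine ⟨1 / C, by positivity, hrr, G₀, hG₀, ?_⟩
  intro k κ _ e δ D
  obtain ⟨b⟩ := exists_bas Z δ
  set lam : ∀ j, κ j → Option (Fin n × Fin n) → ℂ := fun j i => c' (e j i) with hlam
  obtain ⟨x₀, hx₀, hcore⟩ := core b lam hC hCZ
  classical
  set K := Fintype.card (∀ j : Fin k, (Fin δ → Option (κ j)) × (Fin δ → Option (Fin n × Fin n))) + 1 with hK
  obtain ⟨M, E, hME⟩ := hw δ b k (D * K)
  obtain ⟨c₁, hc₁⟩ := Pool.Agent.Y678.HG.exists_two_pow (x₀ : ℝ)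
  have hc₂ : x₀ ≤ 2 ^ c₁ := by exact_mod_cast hc₁
  obtain ⟨c, hc, hconv⟩ := conv k G₀ (E + (c₁ + 1)) M
  refine ⟨M + 3, c, hc, fun V hV hVD N hN => ?_⟩
  obtain ⟨hWf, hWr⟩ := sp_fin (fun x : ∀ j : Fin k, (Fin δ → Option (κ j)) × (Fin δ → Option (Fin n × Fin n)) =>
    ∏ j, c1 (lam j) (x j).1 (x j).2)
  have hWf' : Module.Finite ℚ (WW δ lam) := hWf
  obtain ⟨h1, h2⟩ := finrank_mul_le V (WW δ lam)
  obtain ⟨S, hS, hS'⟩ := hconv (fun m => (∀ j, x₀ ≤ m j) ∧ Nd b (V * WW δ lam) m) (fun H t ht => by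
    obtain ⟨S, hS, hS'⟩ := hME (V * WW δ lam) h1 (h2.trans (Nat.mul_le_mul hVD hWr)) H t
      ((Nat.pow_le_pow_right (by omega) (by omega)).trans ht)
    refine ⟨S, hS, fun g hg hgS => ⟨fun j => ?_, hS' g hg hgS⟩⟩
    exact hc₂.trans (sub_large (c := c₁) (by omega) ht (hgS j).1)) N hN
  refine ⟨S, hS, fun m hm hmS => ?_⟩
  obtain ⟨h3, h4⟩ := hS' m hm hmS
  have hlt : ∀ j, 1 / (m j : ℝ) < 1 / C := fun j => one_div_lt_one_div_of_lt hC0 (hx₀ _ (h3 j))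
  refine ⟨hlt, fun P hP hPV h0 => ?_⟩
  have hz : ∀ j, ‖(1 / (m j : ℂ))‖ < 1 / C := by
    intro j
    have := hlt j
    rwa [norm_div, norm_one, Complex.norm_natCast]
  have hpe : ∀ z : Fin k → ℂ, (∀ j, ‖z j‖ < 1 / C) → (fun v : Σ j, κ j => p (z v.1) (e v.1 v.2)) =
      fun v : Σ j, κ j => p1 (lam v.1) Z (z v.1) v.2 := by
    intro z hz
    funext v
    rw [hp _ ((hz v.1).trans_le hrr)]
    rfl
  obtain ⟨G, hG1, hG2⟩ := hcore V m h3 h4 P hP hPV (by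
    have h5 := hpe _ hz
    rw [← h0]
    exact congrArg (fun y => MvPolynomial.aeval y P) h5.symm)
  refine ⟨G, fun z hz' => ?_, hG2⟩
  have h5 := hG1 z hz'
  rw [← hpe z hz'] at h5
  exact h5

/-- restriction of scalars for functions at one place -/
theorem res_one {L : Type} [Field L] [NumberField L] [Algebra L ℂ] {f : Polynomial L} {A : Fin n → Fin n → Polynomial L}
    {Z W : Fin n → Fin n → L⟦X⟧} (h : DatL f A Z W) {ι : Type} (c : ι → Option (Fin n × Fin n) → ℂ) :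
    ∃ (n' : ℕ) (F : Polynomial ℚ) (B : Fin n' → Fin n' → Polynomial ℚ) (Z' W' : Fin n' → Fin n' → ℚ⟦X⟧)
      (c' : ι → Option (Fin n' × Fin n') → ℂ) (r : ℝ), Dat F B Z' W' ∧ 0 < r ∧
      ∀ z : ℂ, ‖z‖ < r → ∀ v, (∑ q, c v q * q.elim 1 fun q => VL (Z q.1 q.2) z) = p1 c' Z' z v := by
  obtain ⟨n', F, B, Z', W', lam', r, hD, hr, h1⟩ := ptL_eq h (fun _ : Fin 1 => c)
  refine ⟨n', F, B, Z', W', lam' 0, r, hD, hr, fun z hz v => ?_⟩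
  exact congrFun (h1 (fun _ => z) (fun _ => hz)) (0, v)

end Pool.Agent.Run7.h659.TT
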