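import Pool.Agent.Run7.h659.SE7

/-!
# The Lie algebra of the monoid of the matrices which preserve the relations
-/

set_option autoImplicit false
set_option linter.unusedSectionVars false

open Complex

namespace Pool.Agent.Run7.h659.CC

open Pool.Agent.Run7.h659.SE

variable {n : ℕ} {ι : Type}

/-- the variables: the points and the entries of the matrices -/
abbrev Sg (ι : Type) (n : ℕ) := Fin (n + 1) ⊕ (ι × Fin n × Fin n)

/-- two derivations over the same homomorphism which agree on the variables are equal -/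
theorem der_uniq {σ A : Type} [CommRing A] [Algebra ℂ A] (Ψ : MvPolynomial σ ℂ →ₐ[ℂ] A)
    (L L' : MvPolynomial σ ℂ →ₗ[ℂ] A) (hL : ∀ p q, L (p * q) = L p * Ψ q + Ψ p * L q)
    (hL' : ∀ p q, L' (p * q) = L' p * Ψ q + Ψ p * L' q)
    (h : ∀ i, L (MvPolynomial.X i) = L' (MvPolynomial.X i)) (p : MvPolynomial σ ℂ) : L p = L' p := by
  have h1 : ∀ L : MvPolynomial σ ℂ →ₗ[ℂ] A, (∀ p q, L (p * q) = L p * Ψ q + Ψ p * L q) →
      ∀ c : ℂ, L (MvPolynomial.C c) = 0 := by
    intro L hL c
    have h2 := hL 1 1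
    rw [mul_one, map_one Ψ, mul_one, one_mul] at h2
    have h3 : L 1 = 0 := by
      have := add_eq_left.1 h2.symm
      exact this
    have h4 : (MvPolynomial.C c : MvPolynomial σ ℂ) = c • 1 := by
      rw [MvPolynomial.smul_eq_C_mul, mul_one]
    rw [h4, map_smul, h3, smul_zero]
  induction p using MvPolynomial.induction_on with
  | C c => rw [h1 L hL, h1 L' hL']
  | add p q hp hq => rw [map_add, map_add, hp, hq]
  | mul_X p i hp => rw [hL, hL', hp, h]

/-- evaluation as a homomorphism of algebras -/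
noncomputable def eva (e : Fin (n + 1) → ℂ) (Y : ι → Matrix (Fin n) (Fin n) ℂ) : MvPolynomial (Sg ι n) ℂ →ₐ[ℂ] ℂ :=
  MvPolynomial.aeval (Sum.elim e fun x => Y x.1 x.2.1 x.2.2)

theorem eva_apply (P : MvPolynomial (Sg ι n) ℂ) (e : Fin (n + 1) → ℂ) (Y : ι → Matrix (Fin n) (Fin n) ℂ) :
    eva e Y P = ev P e Y := by
  unfold eva ev
  rw [← MvPolynomial.coe_aeval_eq_eval]
  rfl

/-- the derivation with `Y ↦ X Y` -/
noncomputable def DX (X : ι → Matrix (Fin n) (Fin n) ℂ) :
    Derivation ℂ (MvPolynomial (Sg ι n) ℂ) (MvPolynomial (Sg ι n) ℂ) :=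
  MvPolynomial.mkDerivation ℂ (Sum.elim (fun _ => 0) fun x =>
    ∑ k, MvPolynomial.C (X x.1 x.2.1 k) * MvPolynomial.X (Sum.inr (x.1, k, x.2.2)))

theorem DX_inl (X : ι → Matrix (Fin n) (Fin n) ℂ) (k : Fin (n + 1)) : DX X (MvPolynomial.X (Sum.inl k)) = 0 := by
  unfold DX
  rw [MvPolynomial.mkDerivation_X]
  rfl

theorem DX_inr (X : ι → Matrix (Fin n) (Fin n) ℂ) (x : ι × Fin n × Fin n) : DX X (MvPolynomial.X (Sum.inr x)) =
    ∑ k, MvPolynomial.C (X x.1 x.2.1 k) * MvPolynomial.X (Sum.inr (x.1, k, x.2.2)) := by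
  unfold DX
  rw [MvPolynomial.mkDerivation_X]
  rfl

theorem DX_add (X Y : ι → Matrix (Fin n) (Fin n) ℂ) : DX (X + Y) = DX X + DX Y := by
  refine MvPolynomial.derivation_ext fun i => ?_
  rcases i with k | x
  · rw [Derivation.add_apply, DX_inl, DX_inl, DX_inl, add_zero]
  · rw [Derivation.add_apply, DX_inr, DX_inr, DX_inr, ← Finset.sum_add_distrib]
    refine Finset.sum_congr rfl fun k _ => ?_
    rw [Pi.add_apply, Matrix.add_apply, MvPolynomial.C_add, add_mul]

theorem DX_smul (c : ℂ) (X : ι → Matrix (Fin n) (Fin n) ℂ) : DX (c • X) = c • DX X := by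
  refine MvPolynomial.derivation_ext fun i => ?_
  rcases i with k | x
  · rw [Derivation.smul_apply, DX_inl, DX_inl, smul_zero]
  · rw [Derivation.smul_apply, DX_inr, DX_inr, Finset.smul_sum]
    refine Finset.sum_congr rfl fun k _ => ?_
    rw [Pi.smul_apply, Matrix.smul_apply, smul_eq_mul, MvPolynomial.C_mul, MvPolynomial.smul_eq_C_mul, mul_assoc]

theorem DX_bracket (X Y : ι → Matrix (Fin n) (Fin n) ℂ) : DX (Y * X - X * Y) = ⁅DX X, DX Y⁆ := by
  refine MvPolynomial.derivation_ext fun i => ?_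
  rw [Derivation.commutator_apply]
  have key : ∀ (X Y : ι → Matrix (Fin n) (Fin n) ℂ) (x : ι × Fin n × Fin n),
      DX X (DX Y (MvPolynomial.X (Sum.inr x))) =
      ∑ k, MvPolynomial.C ((Y * X) x.1 x.2.1 k) * MvPolynomial.X (Sum.inr (x.1, k, x.2.2)) := by
    intro X Y x
    rw [DX_inr, map_sum]
    have h1 : ∀ k, DX X (MvPolynomial.C (Y x.1 x.2.1 k) * MvPolynomial.X (Sum.inr (x.1, k, x.2.2))) =
        ∑ k', MvPolynomial.C (Y x.1 x.2.1 k * X x.1 k k') * MvPolynomial.X (Sum.inr (x.1, k', x.2.2)) := by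
      intro k
      rw [← MvPolynomial.smul_eq_C_mul, Derivation.map_smul, DX_inr, Finset.smul_sum]
      refine Finset.sum_congr rfl fun k' _ => ?_
      rw [MvPolynomial.smul_eq_C_mul, MvPolynomial.C_mul, mul_assoc]
    simp only [h1]
    rw [Finset.sum_comm]
    refine Finset.sum_congr rfl fun k' _ => ?_
    rw [← Finset.sum_mul, ← map_sum, Pi.mul_apply, Matrix.mul_apply]
  rcases i with k | x
  · rw [DX_inl, DX_inl, DX_inl, map_zero, map_zero, sub_zero]
  · rw [key, key, DX_inr, ← Finset.sum_sub_distrib]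
    refine Finset.sum_congr rfl fun k _ => ?_
    rw [Pi.sub_apply, Matrix.sub_apply, MvPolynomial.C_sub, sub_mul]

theorem Rel_add {ν : ι → Fin (n + 1) → ℝ} {P Q : MvPolynomial (Sg ι n) ℂ} (hP : P ∈ Rel ν) (hQ : Q ∈ Rel ν) :
    P + Q ∈ Rel ν := by
  intro e he
  have h1 := hP e he
  have h2 := hQ e he
  rw [← eva_apply] at h1 h2 ⊢
  rw [map_add, h1, h2, add_zero]

theorem Rel_smul {ν : ι → Fin (n + 1) → ℝ} {P : MvPolynomial (Sg ι n) ℂ} (hP : P ∈ Rel ν) (c : ℂ) :
    c • P ∈ Rel ν := by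
  intro e he
  have h1 := hP e he
  rw [← eva_apply] at h1 ⊢
  rw [map_smul, h1, smul_zero]

/-- the Lie algebra -/
def LieS (ν : ι → Fin (n + 1) → ℝ) : Submodule ℂ (ι → Matrix (Fin n) (Fin n) ℂ) where
  carrier := {X | ∀ P ∈ Rel ν, DX X P ∈ Rel ν}
  zero_mem' := by
    intro P _ e _
    have h1 : DX (0 : ι → Matrix (Fin n) (Fin n) ℂ) = 0 := by
      have := DX_smul 0 (0 : ι → Matrix (Fin n) (Fin n) ℂ)
      rwa [zero_smul, zero_smul] at this
    rw [h1, ← eva_apply]
    simp
  add_mem' := by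
    intro X Y hX hY P hP
    rw [DX_add]
    exact Rel_add (hX P hP) (hY P hP)
  smul_mem' := by
    intro c X hX P hP
    rw [DX_smul]
    exact Rel_smul (hX P hP) c

theorem mem_LieS {ν : ι → Fin (n + 1) → ℝ} {X : ι → Matrix (Fin n) (Fin n) ℂ} :
    X ∈ LieS ν ↔ ∀ P ∈ Rel ν, DX X P ∈ Rel ν := Iff.rfl

theorem LieS_bracket {ν : ι → Fin (n + 1) → ℝ} {X Y : ι → Matrix (Fin n) (Fin n) ℂ} (hX : X ∈ LieS ν)
    (hY : Y ∈ LieS ν) : X * Y - Y * X ∈ LieS ν := by
  intro P hP
  rw [DX_bracket, Derivation.commutator_apply, sub_eq_add_neg, ← neg_one_smul ℂ (DX X ((DX Y) P))]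
  exact Rel_add (hY _ (hX P hP)) (Rel_smul (hX _ (hY P hP)) _)

theorem sb_mem {ν : ι → Fin (n + 1) → ℝ} {g : ι → Matrix (Fin n) (Fin n) ℂ} (hg : g ∈ Mon ν)
    {P : MvPolynomial (Sg ι n) ℂ} (hP : P ∈ Rel ν) : sb g P ∈ Rel ν := by
  intro e he
  rw [ev_sb]
  exact hg P hP e he

/-- substitution as a homomorphism of algebras -/
noncomputable def sba (g : ι → Matrix (Fin n) (Fin n) ℂ) : MvPolynomial (Sg ι n) ℂ →ₐ[ℂ] MvPolynomial (Sg ι n) ℂ :=
  MvPolynomial.bind₁ (Sum.elim (fun i => MvPolynomial.X (Sum.inl i)) fun x =>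
    ∑ k, MvPolynomial.C (g x.1 x.2.1 k) * MvPolynomial.X (Sum.inr (x.1, k, x.2.2)))

theorem sba_apply (g : ι → Matrix (Fin n) (Fin n) ℂ) (P : MvPolynomial (Sg ι n) ℂ) : sba g P = sb g P := rfl

theorem sba_inl (g : ι → Matrix (Fin n) (Fin n) ℂ) (k : Fin (n + 1)) :
    sba g (MvPolynomial.X (Sum.inl k)) = MvPolynomial.X (Sum.inl k) := by
  unfold sba
  rw [MvPolynomial.bind₁_X_right]
  rfl

theorem sba_inr (g : ι → Matrix (Fin n) (Fin n) ℂ) (x : ι × Fin n × Fin n) :
    sba g (MvPolynomial.X (Sum.inr x)) =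
      ∑ k, MvPolynomial.C (g x.1 x.2.1 k) * MvPolynomial.X (Sum.inr (x.1, k, x.2.2)) := by
  unfold sba
  rw [MvPolynomial.bind₁_X_right]
  rfl

/-- a linear form applied by a homomorphism or derivation -/
theorem lin_sum (L : MvPolynomial (Sg ι n) ℂ →ₗ[ℂ] MvPolynomial (Sg ι n) ℂ) (A B : ι → Matrix (Fin n) (Fin n) ℂ)
    (h : ∀ x : ι × Fin n × Fin n, L (MvPolynomial.X (Sum.inr x)) =
      ∑ k, MvPolynomial.C (B x.1 x.2.1 k) * MvPolynomial.X (Sum.inr (x.1, k, x.2.2))) (x : ι × Fin n × Fin n) :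
    L (∑ k, MvPolynomial.C (A x.1 x.2.1 k) * MvPolynomial.X (Sum.inr (x.1, k, x.2.2))) =
      ∑ k, MvPolynomial.C ((A * B) x.1 x.2.1 k) * MvPolynomial.X (Sum.inr (x.1, k, x.2.2)) := by
  rw [map_sum]
  have h1 : ∀ k, L (MvPolynomial.C (A x.1 x.2.1 k) * MvPolynomial.X (Sum.inr (x.1, k, x.2.2))) =
      ∑ k', MvPolynomial.C (A x.1 x.2.1 k * B x.1 k k') * MvPolynomial.X (Sum.inr (x.1, k', x.2.2)) := by
    intro k
    rw [← MvPolynomial.smul_eq_C_mul, map_smul, h, Finset.smul_sum]
    refine Finset.sum_congr rfl fun k' _ => ?_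
    rw [MvPolynomial.smul_eq_C_mul, MvPolynomial.C_mul, mul_assoc]
  simp only [h1]
  rw [Finset.sum_comm]
  refine Finset.sum_congr rfl fun k' _ => ?_
  rw [← Finset.sum_mul, ← map_sum, Pi.mul_apply, Matrix.mul_apply]

/-- conjugation by elements of the monoid -/
theorem LieS_Ad {ν : ι → Fin (n + 1) → ℝ} {g g' X : ι → Matrix (Fin n) (Fin n) ℂ} (hg : g ∈ Mon ν)
    (hg' : g' ∈ Mon ν) (h : g * g' = 1) (h' : g' * g = 1) (hX : X ∈ LieS ν) : g' * X * g ∈ LieS ν := by
  intro P hP
  have h1 := sb_mem hg (hX _ (sb_mem hg' hP))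
  have h2 : ∀ Q : MvPolynomial (Sg ι n) ℂ, DX (g' * X * g) (sba g Q) = sba g (DX X Q) := by
    intro Q
    refine der_uniq (sba g) (((DX (g' * X * g)).toLinearMap).comp (sba g).toLinearMap)
      ((sba g).toLinearMap.comp (DX X).toLinearMap) ?_ ?_ ?_ Q
    · intro p q
      change DX (g' * X * g) (sba g (p * q)) =
        DX (g' * X * g) (sba g p) * sba g q + sba g p * DX (g' * X * g) (sba g q)
      rw [map_mul, Derivation.leibniz, smul_eq_mul, smul_eq_mul]
      ring
    · intro p q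
      change sba g (DX X (p * q)) = sba g (DX X p) * sba g q + sba g p * sba g (DX X q)
      rw [Derivation.leibniz, smul_eq_mul, smul_eq_mul, map_add, map_mul, map_mul]
      ring
    · rintro (k | x)
      · change DX (g' * X * g) (sba g (MvPolynomial.X (Sum.inl k))) = sba g (DX X (MvPolynomial.X (Sum.inl k)))
        rw [sba_inl, DX_inl, DX_inl, map_zero]
      · change DX (g' * X * g) (sba g (MvPolynomial.X (Sum.inr x))) = sba g (DX X (MvPolynomial.X (Sum.inr x)))
        rw [sba_inr, DX_inr]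
        have e1 := lin_sum (DX (g' * X * g)).toLinearMap g (g' * X * g) (fun x => DX_inr _ x) x
        have e2 := lin_sum (sba g).toLinearMap X g (fun x => sba_inr _ x) x
        rw [show g * (g' * X * g) = X * g by rw [← mul_assoc, ← mul_assoc, h, one_mul]] at e1
        exact e1.trans e2.symm
  have h3 : P = sba g (sb g' P) := by
    have h4 : (sba g).comp (sba g') = AlgHom.id ℂ _ := by
      refine MvPolynomial.algHom_ext fun i => ?_
      rcases i with k | x
      · rw [AlgHom.comp_apply, sba_inl, sba_inl]; rfl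
      · rw [AlgHom.comp_apply, sba_inr]
        have e2 := lin_sum (sba g).toLinearMap g' g (fun x => sba_inr _ x) x
        refine e2.trans ?_
        rw [h', AlgHom.id_apply]
        rw [Finset.sum_eq_single x.2.1]
        · simp
        · intro k _ hk
          rw [Pi.one_apply, Matrix.one_apply_ne (Ne.symm hk)]
          simp
        · intro h; exact absurd (Finset.mem_univ _) h
    have h5 := AlgHom.congr_fun h4 P
    exact h5.symm
  have h4 := h2 (sb g' P)
  rw [← h3] at h4
  rw [h4]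
  exact h1

/-- unipotent one-parameter groups -/
theorem exp_mem {ν : ι → Fin (n + 1) → ℝ} {X : ι → Matrix (Fin n) (Fin n) ℂ} (hX : X ∈ LieS ν) (hX2 : X * X = 0)
    (s : ℂ) : 1 + s • X ∈ Mon ν := by
  intro P hP e he
  set F := FF ν e with hF
  set Ψ : MvPolynomial (Sg ι n) ℂ →ₐ[ℂ] Polynomial ℂ := MvPolynomial.aeval
    (Sum.elim (fun k => Polynomial.C (e k : ℂ)) fun x => Polynomial.C (F x.1 x.2.1 x.2.2) +
      Polynomial.X * Polynomial.C ((X * F) x.1 x.2.1 x.2.2)) with hΨ
  have hev : ∀ (s : ℂ) (P : MvPolynomial (Sg ι n) ℂ), (Ψ P).eval s = ev P (fun k => (e k : ℂ)) ((1 + s • X) * F) := by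
    intro s P
    have h1 : ((Polynomial.aeval s).comp Ψ : MvPolynomial (Sg ι n) ℂ →ₐ[ℂ] ℂ) =
        eva (fun k => (e k : ℂ)) ((1 + s • X) * F) := by
      refine MvPolynomial.algHom_ext fun i => ?_
      rw [AlgHom.comp_apply, hΨ, MvPolynomial.aeval_X, eva, MvPolynomial.aeval_X]
      rcases i with k | x
      · simp
      · simp only [Sum.elim_inr, map_add, map_mul, Polynomial.aeval_C, Polynomial.aeval_X]
        rw [add_mul, one_mul, smul_mul_assoc, Pi.add_apply, Matrix.add_apply, Pi.smul_apply, Matrix.smul_apply,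
          smul_eq_mul]
        rfl
    have h2 := AlgHom.congr_fun h1 P
    rw [eva_apply] at h2
    rw [← h2, AlgHom.comp_apply, Polynomial.coe_aeval_eq_eval]
  have hder : ∀ P, Polynomial.derivative (Ψ P) = Ψ (DX X P) := by
    intro P
    refine der_uniq Ψ (Polynomial.derivative.comp Ψ.toLinearMap) (Ψ.toLinearMap.comp (DX X).toLinearMap) ?_ ?_ ?_ P
    · intro p q
      simp only [LinearMap.comp_apply, AlgHom.toLinearMap_apply, map_mul, Polynomial.derivative_mul]
    · intro p q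
      change Ψ (DX X (p * q)) = Ψ (DX X p) * Ψ q + Ψ p * Ψ (DX X q)
      rw [Derivation.leibniz, smul_eq_mul, smul_eq_mul, map_add, map_mul, map_mul]
      ring
    · rintro (k | x)
      · change Polynomial.derivative (Ψ (MvPolynomial.X (Sum.inl k))) = Ψ (DX X (MvPolynomial.X (Sum.inl k)))
        rw [DX_inl, map_zero, hΨ, MvPolynomial.aeval_X]
        simp
      · change Polynomial.derivative (Ψ (MvPolynomial.X (Sum.inr x))) = Ψ (DX X (MvPolynomial.X (Sum.inr x)))
        rw [DX_inr, map_sum]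
        have h1 : ∀ k, Ψ (MvPolynomial.C (X x.1 x.2.1 k) * MvPolynomial.X (Sum.inr (x.1, k, x.2.2))) =
            Polynomial.C (X x.1 x.2.1 k * F x.1 k x.2.2) +
              Polynomial.X * Polynomial.C (X x.1 x.2.1 k * (X * F) x.1 k x.2.2) := by
          intro k
          rw [map_mul, hΨ, MvPolynomial.aeval_X, MvPolynomial.aeval_C]
          simp only [Sum.elim_inr, Polynomial.algebraMap_eq, Polynomial.C_mul]
          ring
        simp only [h1]
        rw [Finset.sum_add_distrib, ← Finset.mul_sum, ← map_sum, ← map_sum, hΨ, MvPolynomial.aeval_X]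
        have h2 : ∑ k, X x.1 x.2.1 k * (X * F) x.1 k x.2.2 = (X * X * F) x.1 x.2.1 x.2.2 := by
          rw [mul_assoc]
          exact (Matrix.mul_apply).symm
        have h3 : ∑ k, X x.1 x.2.1 k * F x.1 k x.2.2 = (X * F) x.1 x.2.1 x.2.2 := (Matrix.mul_apply).symm
        rw [h2, h3, hX2, zero_mul]
        simp
  have hall : ∀ (k : ℕ) (P : MvPolynomial (Sg ι n) ℂ), P ∈ Rel ν → (Polynomial.derivative^[k] (Ψ P)).eval 0 = 0 := by
    intro k
    induction k with
    | zero =>
      intro P hP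
      rw [Function.iterate_zero, id_eq, hev, zero_smul, add_zero, one_mul]
      exact hP e he
    | succ k ih =>
      intro P hP
      rw [Function.iterate_succ_apply, hder]
      exact ih _ (hX P hP)
  have h0 : Ψ P = 0 := by
    ext k
    have h1 := hall k P hP
    rw [← Polynomial.coeff_zero_eq_eval_zero, Polynomial.coeff_iterate_derivative, zero_add,
      Nat.descFactorial_self, nsmul_eq_mul] at h1
    rw [Polynomial.coeff_zero]
    exact (mul_eq_zero.1 h1).resolve_left (by exact_mod_cast Nat.factorial_ne_zero k)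
  rw [← hev, h0, Polynomial.eval_zero]

/-- relations between powers of numbers give relations between values of a logarithm -/
theorem exp_der {A τ : Type} [Field A] [Fintype τ] (j : A →+* ℂ) (c : τ → A) (hc : ∀ s, c s ≠ 0)
    (α : A → ℂ) (hα : ∀ x y, x ≠ 0 → y ≠ 0 → α (x * y) = α x + α y) (Q : MvPolynomial τ ℂ)
    (hQ : ∀ m : ℕ, MvPolynomial.eval (fun s => j (c s) ^ m) Q = 0) :
    ∑ s, α (c s) * MvPolynomial.eval (fun _ => 1) (MvPolynomial.pderiv s Q) = 0 := by
  classical
  set θ : (τ →₀ ℕ) → A := fun d => ∏ s, c s ^ d s with hθ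
  have hθ0 : ∀ d, θ d ≠ 0 := fun d => Finset.prod_ne_zero_iff.2 fun s _ => pow_ne_zero _ (hc s)
  have hα1 : α 1 = 0 := by
    have := hα 1 1 one_ne_zero one_ne_zero
    rw [mul_one] at this
    exact add_eq_left.1 this.symm
  have hαpow : ∀ x, x ≠ 0 → ∀ m : ℕ, α (x ^ m) = m * α x := by
    intro x hx m
    induction m with
    | zero => rw [pow_zero, hα1]; simp
    | succ m ih => rw [pow_succ, hα _ _ (pow_ne_zero _ hx) hx, ih]; push_cast; ring
  have hαθ : ∀ d, α (θ d) = ∑ s, (d s : ℂ) * α (c s) := by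
    intro d
    have : ∀ t : Finset τ, α (∏ s ∈ t, c s ^ d s) = ∑ s ∈ t, (d s : ℂ) * α (c s) := by
      intro t
      induction t using Finset.induction_on with
      | empty => simp [hα1]
      | insert a t ha ih =>
        rw [Finset.prod_insert ha, Finset.sum_insert ha,
          hα _ _ (pow_ne_zero _ (hc a)) (Finset.prod_ne_zero_iff.2 fun s _ => pow_ne_zero _ (hc s)), ih,
          hαpow _ (hc a)]
    exact this Finset.univ
  have h1 : ∀ m : ℕ, ∑ d ∈ Q.support, Q.coeff d * j (θ d) ^ m = 0 := by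
    intro m
    rw [← hQ m, MvPolynomial.eval_eq']
    refine Finset.sum_congr rfl fun d _ => ?_
    rw [hθ]
    simp only []
    rw [map_prod, ← Finset.prod_pow]
    congr 1
    refine Finset.prod_congr rfl fun i _ => ?_
    rw [map_pow, ← pow_mul, ← pow_mul, mul_comm]
  have h2 : ∀ g : Polynomial ℂ, ∑ d ∈ Q.support, Q.coeff d * g.eval (j (θ d)) = 0 := by
    intro g
    have : ∀ d, Q.coeff d * g.eval (j (θ d)) =
        ∑ i ∈ Finset.range (g.natDegree + 1), g.coeff i * (Q.coeff d * j (θ d) ^ i) := by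
      intro d
      rw [Polynomial.eval_eq_sum_range, Finset.mul_sum]
      refine Finset.sum_congr rfl fun j _ => by ring
    simp only [this]
    rw [Finset.sum_comm]
    refine Finset.sum_eq_zero fun i _ => ?_
    rw [← Finset.mul_sum, h1, mul_zero]
  have h3 := h2 (Lagrange.interpolate (Q.support.image fun d => j (θ d)) id fun y => α (Function.invFun j y))
  have h4 : ∀ d ∈ Q.support, (Lagrange.interpolate (Q.support.image fun d => j (θ d)) id
      fun y => α (Function.invFun j y)).eval (j (θ d)) = α (θ d) := by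
    intro d hd
    have h5 := Lagrange.eval_interpolate_at_node (s := Q.support.image fun d => j (θ d)) (v := id)
      (fun y => α (Function.invFun j y)) (Set.injOn_id _) (Finset.mem_image_of_mem _ hd)
    simp only [id_eq] at h5
    rw [h5, Function.leftInverse_invFun j.injective]
  rw [Finset.sum_congr rfl fun d hd => by rw [h4 d hd, hαθ]] at h3
  rw [← h3]
  have h5 : ∀ s, MvPolynomial.eval (fun _ => (1 : ℂ)) (MvPolynomial.pderiv s Q) =
      ∑ d ∈ Q.support, Q.coeff d * (d s : ℂ) := by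
    intro s
    conv_lhs => rw [← Q.support_sum_monomial_coeff]
    rw [map_sum, map_sum]
    refine Finset.sum_congr rfl fun d _ => ?_
    rw [MvPolynomial.pderiv_monomial, MvPolynomial.eval_monomial]
    simp [Finsupp.prod]
  simp only [h5, Finset.mul_sum]
  rw [Finset.sum_comm]
  refine Finset.sum_congr rfl fun d _ => Finset.sum_congr rfl fun s _ => by ring

end Pool.Agent.Run7.h659.CC
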