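import Pool.Agent.Run7.h659.SE7
import Pool.Agent.Y890.HE.Dom
import Pool.Agent.N207.AX.Few

/-!
# Integrals between consecutive points: algebraic independence over the field of rational functions
-/

set_option autoImplicit false
set_option linter.unusedSectionVars false

open Complex Filter Topology

namespace Pool.Agent.Run7.h659.SE

open Pool.Agent.Y118.HP (seg)
open Pool.Agent.Y890.HE (Ord Ord_open Ord_convex Ord_real)

variable {n : ℕ} {ι : Type}

/-- coordinates: the exponents and the points -/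
abbrev XX (ι : Type) (n : ℕ) := (ι × Fin (n + 1)) ⊕ Fin (n + 1)

/-- the domain: the exponents have real parts less than one, the points have increasing real parts -/
def Dom (ι : Type) (n : ℕ) : Set (XX ι n → ℂ) :=
  {z | (∀ x : ι × Fin (n + 1), (z (Sum.inl x)).re < 1) ∧ (fun k => z (Sum.inr k)) ∈ Ord n}

/-- the functions -/
noncomputable def pf (x : ι × Fin n × Fin n) (z : XX ι n → ℂ) : ℂ :=
  per (fun k => z (Sum.inl (x.1, k))) (fun k => z (Sum.inr k)) x.2.1 (x.2.2 : ℕ)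

theorem Dom_open [Finite ι] : IsOpen (Dom ι n) := by
  have h1 : Dom ι n = (⋂ x : ι × Fin (n + 1), {z : XX ι n → ℂ | (z (Sum.inl x)).re < 1}) ∩
      (fun z k => z (Sum.inr k)) ⁻¹' Ord n := by
    ext z
    simp [Dom]
  rw [h1]
  refine (isOpen_iInter_of_finite fun x => isOpen_lt (by fun_prop) continuous_const).inter
    ((Ord_open n).preimage (by fun_prop))

theorem Dom_convex : Convex ℝ (Dom ι n) := by
  intro x hx y hy a b ha hb hab
  refine ⟨fun i => ?_, ?_⟩
  · have h1 := hx.1 i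
    have h2 := hy.1 i
    simp only [Pi.add_apply, Pi.smul_apply, Complex.add_re, Complex.smul_re, smul_eq_mul]
    rcases eq_or_lt_of_le ha with h | h
    · rw [← h] at hab ⊢
      have : b = 1 := by linarith
      rw [this]
      linarith
    · nlinarith [mul_lt_mul_of_pos_left h1 h, mul_le_mul_of_nonneg_left h2.le hb]
  · have h1 := Ord_convex n hx.2 hy.2 ha hb hab
    exact h1

/-- the real point -/
def rpt (ν : ι → Fin (n + 1) → ℝ) (e : Fin (n + 1) → ℝ) : XX ι n → ℂ :=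
  Sum.elim (fun x => (ν x.1 x.2 : ℂ)) fun k => (e k : ℂ)

theorem rpt_mem {ν : ι → Fin (n + 1) → ℝ} (hν : ∀ i k, ν i k < 1) {e : Fin (n + 1) → ℝ} (he : StrictMono e) :
    rpt ν e ∈ Dom ι n :=
  ⟨fun x => by simpa [rpt] using hν x.1 x.2, Ord_real he⟩

theorem Dom_nonempty : (Dom ι n).Nonempty :=
  ⟨_, rpt_mem (ν := fun _ _ => 0) (fun _ _ => zero_lt_one) (e := fun i => ((i : ℕ) : ℝ)) (fun i k h => by
    show ((i : ℕ) : ℝ) < ((k : ℕ) : ℝ)
    exact_mod_cast h)⟩

theorem pf_an [Fintype ι] (x : ι × Fin n × Fin n) : AnalyticOnNhd ℂ (pf x) (Dom ι n) := by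
  refine Pool.Agent.Y785.MV.Osg.t _ _ Dom_open _ ?_
  unfold pf
  refine diff_per (E := XX ι n → ℂ) (O := Dom ι n) Dom_open (fun (z : XX ι n → ℂ) k => z (Sum.inl (x.1, k)))
    (fun (z : XX ι n → ℂ) k => z (Sum.inr k))
    (fun i => Differentiable.differentiableOn (by fun_prop)) (fun i => Differentiable.differentiableOn (by fun_prop))
    x.2.1 (x.2.2 : ℕ) (fun z hz => hz.1 _) (fun z hz => hz.1 _)
    (fun z hz => ?_) (fun z hz i hi u h0 h1 => Pool.Agent.Y890.HE.seg_lt hz.2 hi h0 h1)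
    (fun z hz i hi u h0 h1 => Pool.Agent.Y890.HE.seg_gt hz.2 hi h0 h1)
  refine Pool.Agent.Y890.HE.slit_of_re ?_
  rw [sub_re]
  exact sub_pos.2 (hz.2 _ _ Fin.castSucc_lt_succ)

theorem pf_real (ν : ι → Fin (n + 1) → ℝ) (e : Fin (n + 1) → ℝ) (x : ι × Fin n × Fin n) :
    pf x (rpt ν e) = FF ν e x.1 x.2.1 x.2.2 := rfl

/-! ## density of good exponents -/

/-- the complement of an affine hyperplane is open and dense -/
theorem dense_ne {V : Type} [Fintype V] (c : V → ℝ) (hc : c ≠ 0) (b : ℝ) :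
    Dense {v : V → ℝ | ∑ i, c i * v i ≠ b} ∧ IsOpen {v : V → ℝ | ∑ i, c i * v i ≠ b} := by
  classical
  have hcont : Continuous fun v : V → ℝ => ∑ i, c i * v i := by fun_prop
  refine ⟨?_, isOpen_ne_fun hcont continuous_const⟩
  obtain ⟨i0, hi0⟩ := Function.ne_iff.1 hc
  intro v
  rw [mem_closure_iff_nhds]
  intro s hs
  have h1 : Tendsto (fun t : ℝ => v + t • (Pi.single i0 1 : V → ℝ)) (𝓝[≠] 0) (𝓝 v) := by
    have h2 : Tendsto (fun t : ℝ => v + t • (Pi.single i0 1 : V → ℝ)) (𝓝 0) (𝓝 (v + (0 : ℝ) • (Pi.single i0 1 : V → ℝ))) := by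
      refine Continuous.tendsto ?_ 0
      fun_prop
    rw [zero_smul, add_zero] at h2
    exact h2.mono_left nhdsWithin_le_nhds
  have h3 : ∀ t : ℝ, ∑ i, c i * (v + t • (Pi.single i0 1 : V → ℝ)) i = (∑ i, c i * v i) + t * c i0 := by
    intro t
    have : ∀ i, c i * (v + t • (Pi.single i0 1 : V → ℝ)) i = c i * v i + (if i = i0 then t * c i0 else 0) := by
      intro i
      simp only [Pi.add_apply, Pi.smul_apply, Pi.single_apply, smul_eq_mul]
      split_ifs with h
      · rw [h]; ring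
      · ring
    simp only [this, Finset.sum_add_distrib, Finset.sum_ite_eq', Finset.mem_univ, if_true]
  have h4 : ∀ᶠ t : ℝ in 𝓝[≠] 0, ∑ i, c i * (v + t • (Pi.single i0 1 : V → ℝ)) i ≠ b := by
    have h5 : {t : ℝ | ∑ i, c i * (v + t • (Pi.single i0 1 : V → ℝ)) i = b}.Subsingleton := by
      intro t ht t' ht'
      simp only [Set.mem_setOf_eq, h3] at ht ht'
      have : t * c i0 = t' * c i0 := by linarith
      exact mul_right_cancel₀ hi0 this
    have h6 := h5.finite
    by_cases h0 : (0 : ℝ) ∈ {t : ℝ | ∑ i, c i * (v + t • (Pi.single i0 1 : V → ℝ)) i = b}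
    · filter_upwards [self_mem_nhdsWithin] with t ht h7
      exact ht (h5 h7 h0)
    · have h7 : {t : ℝ | ∑ i, c i * (v + t • (Pi.single i0 1 : V → ℝ)) i = b}ᶜ ∈ 𝓝 (0 : ℝ) :=
        h6.isClosed.isOpen_compl.mem_nhds h0
      filter_upwards [nhdsWithin_le_nhds h7] with t ht using ht
  obtain ⟨t, ht1, ht2⟩ := (h4.and (h1 hs)).exists
  exact ⟨_, ht2, ht1⟩

/-- the index set of the conditions -/
abbrev CI (ι : Type) (n : ℕ) := (ι × ℤ) ⊕ (Fin n × {α : ι → ℤ // α ≠ 0} × ℤ)

/-- the coefficients of the conditions -/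
noncomputable def cf [DecidableEq ι] : CI ι n → (ι × Fin (n + 1)) → ℝ
  | Sum.inl y => fun x => if x.1 = y.1 then 1 else 0
  | Sum.inr y => fun x => (y.2.1.1 x.1 : ℝ) * ((if x.2 = y.1.castSucc then 1 else 0) + (if x.2 = y.1.succ then 1 else 0))

def cb : CI ι n → ℝ
  | Sum.inl y => y.2
  | Sum.inr y => y.2.2

theorem cf_ne [DecidableEq ι] (c : CI ι n) : cf c ≠ 0 := by
  rcases c with y | y
  · intro h
    have := congrFun h (y.1, 0)
    simp [cf] at this
  · obtain ⟨i, hi⟩ := Function.ne_iff.1 y.2.1.2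
    intro h
    have h1 := congrFun h (i, y.1.castSucc)
    simp only [cf, Pi.zero_apply] at h1
    rw [if_pos trivial, if_neg Fin.castSucc_lt_succ.ne, add_zero, mul_one] at h1
    exact hi (by exact_mod_cast h1)

theorem dense_good [Fintype ι] [DecidableEq ι] :
    Dense {v : ι × Fin (n + 1) → ℝ | ∀ c : CI ι n, ∑ x, cf c x * v x ≠ cb c} := by
  have h1 := dense_iInter_of_isOpen (f := fun c : CI ι n => {v : ι × Fin (n + 1) → ℝ | ∑ x, cf c x * v x ≠ cb c})
    (fun c => (dense_ne _ (cf_ne c) _).2) (fun c => (dense_ne _ (cf_ne c) _).1)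
  have h2 : (⋂ c : CI ι n, {v : ι × Fin (n + 1) → ℝ | ∑ x, cf c x * v x ≠ cb c}) =
      {v : ι × Fin (n + 1) → ℝ | ∀ c : CI ι n, ∑ x, cf c x * v x ≠ cb c} := by
    ext v; simp
  rwa [h2] at h1

theorem good_of [Fintype ι] [DecidableEq ι] {v : ι × Fin (n + 1) → ℝ} (h1 : ∀ x, v x ∈ Set.Ioo (0 : ℝ) 1)
    (h2 : ∀ c : CI ι n, ∑ x, cf c x * v x ≠ cb c) : Good fun i k => v (i, k) where
  mem := fun i k => h1 (i, k)
  sum := by
    intro i b h
    apply h2 (Sum.inl (i, b))
    simp only [cf, cb]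
    rw [← h, Fintype.sum_prod_type]
    simp
  ind := by
    intro k α hα b h
    apply h2 (Sum.inr (k, ⟨α, hα⟩, b))
    simp only [cf, cb]
    rw [← h, Fintype.sum_prod_type]
    refine Finset.sum_congr rfl fun i _ => ?_
    have : ∀ y : Fin (n + 1), (α i : ℝ) * ((if y = k.castSucc then 1 else 0) + (if y = k.succ then 1 else 0)) * v (i, y) =
        (if y = k.castSucc then (α i : ℝ) * v (i, y) else 0) + (if y = k.succ then (α i : ℝ) * v (i, y) else 0) := by
      intro y
      split_ifs <;> ring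
    simp only [this, Finset.sum_add_distrib, Finset.sum_ite_eq', Finset.mem_univ, if_true]
    ring

/-! ## independence -/

/-- the value of a polynomial -/
noncomputable def vl (p : MvPolynomial (ι × Fin n × Fin n) (MvPolynomial (XX ι n) ℂ)) (z : XX ι n → ℂ)
    (Y : ι × Fin n × Fin n → ℂ) : ℂ := p.eval₂ (MvPolynomial.eval z) Y

theorem vl_good [Fintype ι] [DecidableEq ι] {p : MvPolynomial (ι × Fin n × Fin n) (MvPolynomial (XX ι n) ℂ)}
    (hp : ∀ z ∈ Dom ι n, p.eval₂ (MvPolynomial.eval z) (fun i => pf i z) = 0)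
    {ν : ι → Fin (n + 1) → ℝ} (hν : Good ν) {e : Fin (n + 1) → ℝ} (he : StrictMono e)
    (Y : ι × Fin n × Fin n → ℂ) : vl p (rpt ν e) Y = 0 := by
  -- specialise the exponents
  set sp : MvPolynomial (XX ι n) ℂ →+* MvPolynomial (Fin (n + 1) ⊕ (ι × Fin n × Fin n)) ℂ :=
    (MvPolynomial.bind₁ (Sum.elim (fun x : ι × Fin (n + 1) => MvPolynomial.C (ν x.1 x.2 : ℂ))
      fun k => MvPolynomial.X (Sum.inl k))).toRingHom with hsp
  set P : MvPolynomial (Fin (n + 1) ⊕ (ι × Fin n × Fin n)) ℂ :=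
    p.eval₂ sp (fun x => MvPolynomial.X (Sum.inr x)) with hP
  have hev : ∀ (e : Fin (n + 1) → ℝ) (X : ι → Matrix (Fin n) (Fin n) ℂ),
      ev P (fun k => (e k : ℂ)) X = p.eval₂ (MvPolynomial.eval (rpt ν e)) (fun x => X x.1 x.2.1 x.2.2) := by
    intro e X
    unfold ev
    rw [hP]
    have h1 := MvPolynomial.eval₂_comp_left
      (MvPolynomial.eval (Sum.elim (fun k => (e k : ℂ)) fun x : ι × Fin n × Fin n => X x.1 x.2.1 x.2.2)) sp
      (fun x => MvPolynomial.X (Sum.inr x)) p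
    rw [h1]
    congr 1
    · refine MvPolynomial.ringHom_ext (fun r => ?_) fun x => ?_
      · simp [hsp]
      · rcases x with x | k
        · simp [hsp, rpt]
        · simp [hsp, rpt]
    · funext x
      simp
  have hrel : P ∈ Rel ν := by
    intro e' he'
    rw [hev]
    exact hp _ (rpt_mem (fun i k => (hν.mem i k).2) he')
  have hmem := mem_Mon.1 (Mon_top hν fun i => (Matrix.of fun l j => Y (i, l, j)) * (FF ν e i)⁻¹) P hrel e he
  rw [hev] at hmem
  unfold vl
  rw [← hmem]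
  congr 1
  funext x
  rw [Pi.mul_apply, mul_assoc, Matrix.nonsing_inv_mul _ (isUnit_iff_ne_zero.2
    (det_FF (fun i k => ⟨(hν.mem i k).1.le, (hν.mem i k).2⟩) he x.1)), mul_one]
  rfl

theorem vl_zero [Fintype ι] [DecidableEq ι] {p : MvPolynomial (ι × Fin n × Fin n) (MvPolynomial (XX ι n) ℂ)}
    (hp : ∀ z ∈ Dom ι n, p.eval₂ (MvPolynomial.eval z) (fun i => pf i z) = 0)
    {v : ι × Fin (n + 1) → ℝ} (hv : ∀ x, v x ∈ Set.Ioo (0 : ℝ) 1) {e : Fin (n + 1) → ℝ} (he : StrictMono e)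
    (Y : ι × Fin n × Fin n → ℂ) : vl p (rpt (fun i k => v (i, k)) e) Y = 0 := by
  have hcont : Continuous fun v : ι × Fin (n + 1) → ℝ => vl p (rpt (fun i k => v (i, k)) e) Y := by
    unfold vl
    simp only [MvPolynomial.eval₂_eq']
    refine continuous_finsetSum _ fun d _ => Continuous.mul ?_ continuous_const
    have h1 : Continuous fun z : XX ι n → ℂ => MvPolynomial.eval z (MvPolynomial.coeff d p) :=
      MvPolynomial.continuous_eval _
    refine h1.comp ?_
    refine continuous_pi fun x => ?_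
    rcases x with x | k
    · show Continuous fun v : ι × Fin (n + 1) → ℝ => ((v (x.1, x.2) : ℝ) : ℂ)
      fun_prop
    · show Continuous fun v : ι × Fin (n + 1) → ℝ => ((e k : ℝ) : ℂ)
      fun_prop
  -- the open box
  have hbox : IsOpen {v : ι × Fin (n + 1) → ℝ | ∀ x, v x ∈ Set.Ioo (0 : ℝ) 1} := by
    have : {v : ι × Fin (n + 1) → ℝ | ∀ x, v x ∈ Set.Ioo (0 : ℝ) 1} =
        ⋂ x, {v : ι × Fin (n + 1) → ℝ | v x ∈ Set.Ioo (0 : ℝ) 1} := by ext v; simp
    rw [this]
    exact isOpen_iInter_of_finite fun x => isOpen_Ioo.preimage (continuous_apply x)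
  by_contra hne
  have h2 : IsOpen ({v : ι × Fin (n + 1) → ℝ | ∀ x, v x ∈ Set.Ioo (0 : ℝ) 1} ∩
      {v | vl p (rpt (fun i k => v (i, k)) e) Y ≠ 0}) := hbox.inter (isOpen_ne_fun hcont continuous_const)
  obtain ⟨w, ⟨hw1, hw2⟩, hw3⟩ := dense_good.inter_open_nonempty _ h2 ⟨v, hv, hne⟩
  exact hw2 (vl_good hp (good_of hw1 hw3) he Y)

/-- **the integrals are algebraically independent over the field of rational functions in the exponents and points** -/
theorem ind_pf [Fintype ι] : Pool.Agent.N207.AX.Ind (Dom ι n) (pf (ι := ι) (n := n)) := by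
  classical
  intro p hp
  ext1 d
  rw [MvPolynomial.coeff_zero]
  -- the box
  set s : XX ι n → Set ℂ := Sum.elim (fun _ => Complex.ofReal '' Set.Ioo (0 : ℝ) 1)
    (fun k => Complex.ofReal '' Set.Ioo ((k : ℕ) : ℝ) ((k : ℕ) + 1)) with hs
  have hinf : ∀ x, (s x).Infinite := by
    rintro (x | k)
    · exact (Set.Ioo_infinite one_pos).image ofReal_injective.injOn
    · exact (Set.Ioo_infinite (by linarith)).image ofReal_injective.injOn
  refine MvPolynomial.funext_set s hinf fun z hz => ?_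
  rw [map_zero]
  -- real coordinates
  have hz1 : ∀ x : ι × Fin (n + 1), ∃ r ∈ Set.Ioo (0 : ℝ) 1, (r : ℂ) = z (Sum.inl x) := fun x => hz (Sum.inl x) trivial
  have hz2 : ∀ k : Fin (n + 1), ∃ r ∈ Set.Ioo (((k : ℕ) : ℝ)) ((k : ℕ) + 1), (r : ℂ) = z (Sum.inr k) :=
    fun k => hz (Sum.inr k) trivial
  choose v hv1 hv2 using hz1
  choose e he1 he2 using hz2
  have he : StrictMono e := by
    intro i k hik
    have h1 := (he1 i).2
    have h2 := (he1 k).1
    have h3 : ((i : ℕ) : ℝ) + 1 ≤ ((k : ℕ) : ℝ) := by exact_mod_cast hik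
    linarith
  have hzr : z = rpt (fun i k => v (i, k)) e := by
    funext x
    rcases x with x | k
    · exact (hv2 x).symm
    · exact (he2 k).symm
  have h1 : p.map (MvPolynomial.eval z) = 0 := by
    refine MvPolynomial.funext fun Y => ?_
    rw [map_zero, MvPolynomial.eval_map, hzr]
    exact vl_zero hp hv1 he Y
  have h2 := congrArg (MvPolynomial.coeff d) h1
  rw [MvPolynomial.coeff_map, MvPolynomial.coeff_zero] at h2
  exact h2

end Pool.Agent.Run7.h659.SE
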