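import Pool.Agent.Run7.h659.CC9
import Pool.Agent.Run7.h659.SE8
import Pool.Agent.Y890.HE.Rz
import Pool.Agent.N207.GS.Om
import Pool.Agent.Y119.PLM.Main

/-!
# Constant rational exponents: orbits of the product of the special linear groups
-/

set_option autoImplicit false
set_option linter.unusedSectionVars false

open Complex

namespace Pool.Agent.Run7.h659.CC

open Pool.Agent.Run7.h659.SE
open Pool.Agent.Y890.HE (Ord Ord_open Ord_convex Ord_real Ord_nonempty real_zero)
open Pool.Agent.Y890.MV (evM evX evM_an evM_eq)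
open Pool.Agent.N207.GS (Irr Fib)

variable {n : ℕ} {ι : Type}

/-! ## irreducibility -/

/-- the elements joined to the identity by a polynomial curve in the product of the special linear groups -/
def Cur (ι : Type) (n : ℕ) : Submonoid (ι → Matrix (Fin n) (Fin n) ℂ) where
  carrier := {g | ∃ A : ι → Matrix (Fin n) (Fin n) (Polynomial ℂ), (∀ s, (A s).det = 1) ∧
    (∀ s, (A s).map (Polynomial.eval 0) = 1) ∧ ∀ s, (A s).map (Polynomial.eval 1) = g s}
  one_mem' := by
    refine ⟨1, fun s => by simp, fun s => ?_, fun s => ?_⟩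
    · ext i j
      simp only [Pi.one_apply, Matrix.map_apply, Matrix.one_apply]
      split_ifs <;> simp
    · ext i j
      simp only [Pi.one_apply, Matrix.map_apply, Matrix.one_apply]
      split_ifs <;> simp
  mul_mem' := by
    rintro g g' ⟨A, h1, h2, h3⟩ ⟨A', h1', h2', h3'⟩
    refine ⟨A * A', fun s => ?_, fun s => ?_, fun s => ?_⟩
    · rw [Pi.mul_apply, Matrix.det_mul, h1, h1', one_mul]
    · rw [Pi.mul_apply]
      have := Matrix.map_mul (L := A s) (M := A' s) (f := Polynomial.evalRingHom (0 : ℂ))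
      refine this.trans ?_
      have e1 : (A s).map (Polynomial.evalRingHom (0 : ℂ)) = 1 := h2 s
      have e2 : (A' s).map (Polynomial.evalRingHom (0 : ℂ)) = 1 := h2' s
      rw [e1, e2, one_mul]
    · rw [Pi.mul_apply]
      have := Matrix.map_mul (L := A s) (M := A' s) (f := Polynomial.evalRingHom (1 : ℂ))
      refine this.trans ?_
      have e1 : (A s).map (Polynomial.evalRingHom (1 : ℂ)) = g s := h3 s
      have e2 : (A' s).map (Polynomial.evalRingHom (1 : ℂ)) = g' s := h3' s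
      rw [e1, e2, Pi.mul_apply]

theorem cur_top [Fintype ι] [DecidableEq ι] (g : ι → Matrix (Fin n) (Fin n) ℂ) (hg : ∀ s, (g s).det = 1) :
    g ∈ Cur ι n := by
  refine sl_pi _ (fun s g hg => single_sl _ s (fun i j hij c => ?_) g hg) g hg
  refine ⟨Pi.mulSingle s (Matrix.transvection i j (Polynomial.C c * Polynomial.X)), fun t => ?_, fun t => ?_,
    fun t => ?_⟩
  · by_cases ht : t = s
    · subst ht
      rw [Pi.mulSingle_eq_same, Matrix.det_transvection_of_ne _ _ hij]
    · rw [Pi.mulSingle_eq_of_ne ht, Matrix.det_one]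
  · by_cases ht : t = s
    · subst ht
      rw [Pi.mulSingle_eq_same]
      ext a b
      simp only [Matrix.transvection, Matrix.map_apply, Matrix.add_apply, Matrix.one_apply, Matrix.single_apply]
      split_ifs <;> simp
    · rw [Pi.mulSingle_eq_of_ne ht]
      ext a b
      simp only [Matrix.map_apply, Matrix.one_apply]
      split_ifs <;> simp
  · by_cases ht : t = s
    · subst ht
      rw [Pi.mulSingle_eq_same, Pi.mulSingle_eq_same]
      ext a b
      simp only [Matrix.transvection, Matrix.map_apply, Matrix.add_apply, Matrix.one_apply, Matrix.single_apply,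
        Matrix.smul_apply, smul_eq_mul]
      split_ifs <;> simp
    · rw [Pi.mulSingle_eq_of_ne ht, Pi.mulSingle_eq_of_ne ht]
      ext a b
      simp only [Matrix.map_apply, Matrix.one_apply]
      split_ifs <;> simp

/-- the orbit -/
def Orb (F : ι → Matrix (Fin n) (Fin n) ℂ) : Set (ι × Fin n × Fin n → ℂ) :=
  {a | ∃ g : ι → Matrix (Fin n) (Fin n) ℂ, (∀ s, (g s).det = 1) ∧ a = fun x => (g x.1 * F x.1) x.2.1 x.2.2}

theorem irr_orb [Fintype ι] [DecidableEq ι] (F : ι → Matrix (Fin n) (Fin n) ℂ) : Irr (Orb F) := by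
  intro P Q h
  by_contra hcon
  rw [not_or] at hcon
  push Not at hcon
  obtain ⟨⟨a, ⟨g, hg, rfl⟩, ha⟩, ⟨b, ⟨g', hg', rfl⟩, hb⟩⟩ := hcon
  obtain ⟨A, h1, h2, h3⟩ := cur_top (fun s => g' s * (g s)⁻¹) (fun s => by
    rw [Matrix.det_mul, hg', Matrix.det_nonsing_inv, hg]
    simp)
  set Ψ : MvPolynomial (ι × Fin n × Fin n) ℂ →ₐ[ℂ] Polynomial ℂ := MvPolynomial.aeval fun x =>
    (A x.1 * (g x.1 * F x.1).map Polynomial.C) x.2.1 x.2.2 with hΨ
  have hev : ∀ (t : ℂ) (P : MvPolynomial (ι × Fin n × Fin n) ℂ), (Ψ P).eval t =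
      MvPolynomial.eval (fun x => ((A x.1).map (Polynomial.eval t) * g x.1 * F x.1) x.2.1 x.2.2) P := by
    intro t P
    have e1 : ((Polynomial.aeval t).comp Ψ : MvPolynomial (ι × Fin n × Fin n) ℂ →ₐ[ℂ] ℂ) =
        MvPolynomial.aeval (fun x => ((A x.1).map (Polynomial.eval t) * g x.1 * F x.1) x.2.1 x.2.2) := by
      refine MvPolynomial.algHom_ext fun x => ?_
      rw [AlgHom.comp_apply, hΨ, MvPolynomial.aeval_X, MvPolynomial.aeval_X, Matrix.mul_apply, mul_assoc,
        Matrix.mul_apply, map_sum]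
      refine Finset.sum_congr rfl fun k _ => ?_
      rw [map_mul, Matrix.map_apply, Matrix.map_apply, Polynomial.aeval_C, Polynomial.coe_aeval_eq_eval]
      rfl
    have e2 := AlgHom.congr_fun e1 P
    rw [AlgHom.comp_apply, Polynomial.coe_aeval_eq_eval] at e2
    rw [e2, ← MvPolynomial.coe_aeval_eq_eval]
    rfl
  have hdet : ∀ (t : ℂ) s, ((A s).map (Polynomial.eval t)).det = 1 := by
    intro t s
    have e1 := RingHom.map_det (Polynomial.evalRingHom t) (A s)
    rw [h1, map_one] at e1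
    exact e1.symm
  have h0 : Ψ P * Ψ Q = 0 := by
    refine Polynomial.funext fun t => ?_
    rw [Polynomial.eval_mul, hev, hev, Polynomial.eval_zero]
    exact h _ ⟨fun s => (A s).map (Polynomial.eval t) * g s, fun s => by
      rw [Matrix.det_mul, hdet, hg, one_mul], rfl⟩
  rcases mul_eq_zero.1 h0 with h4 | h4
  · apply ha
    have e1 := hev 0 P
    rw [h4, Polynomial.eval_zero] at e1
    simp only [h2, one_mul] at e1
    exact e1.symm
  · apply hb
    have e1 := hev 1 Q
    rw [h4, Polynomial.eval_zero] at e1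
    have e2 : ∀ s, (A s).map (Polynomial.eval 1) * g s = g' s := by
      intro s
      rw [h3, mul_assoc, Matrix.nonsing_inv_mul _ (by rw [hg]; exact isUnit_one), mul_one]
    simp only [e2] at e1
    exact e1.symm

/-! ## the functions -/

/-- the functions -/
noncomputable def fn (ρ : ι → ℚ) (x : ι × Fin n × Fin n) (e : Fin (n + 1) → ℂ) : ℂ :=
  per (fun _ => (ρ x.1 : ℂ)) e x.2.1 (x.2.2 : ℕ)

/-- the matrices -/
noncomputable def FM (ρ : ι → ℚ) (e : Fin (n + 1) → ℂ) : ι → Matrix (Fin n) (Fin n) ℂ :=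
  fun s => Matrix.of fun l j => fn ρ (s, l, j) e

theorem per_an {ρ : ℚ} (hρ : ρ < 1) (l : Fin n) (j : ℕ) :
    AnalyticOnNhd ℂ (fun e => per (fun _ => (ρ : ℂ)) e l j) (Ord n) := by
  refine Pool.Agent.Y785.MV.Osg.t _ _ (Ord_open n) _ ?_
  have hlt : ((ρ : ℂ)).re < 1 := by
    have h1 : ((ρ : ℚ) : ℂ) = ((ρ : ℝ) : ℂ) := by push_cast; rfl
    rw [h1, ofReal_re]
    exact_mod_cast hρ
  refine diff_per (E := Fin (n + 1) → ℂ) (O := Ord n) (Ord_open n) (fun _ _ => (ρ : ℂ)) (fun z k => z k)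
    (fun i => Differentiable.differentiableOn (by fun_prop)) (fun i => Differentiable.differentiableOn (by fun_prop))
    l j (fun z hz => hlt) (fun z hz => hlt)
    (fun z hz => ?_) (fun z hz i hi u h0 h1 => Pool.Agent.Y890.HE.seg_lt hz hi h0 h1)
    (fun z hz i hi u h0 h1 => Pool.Agent.Y890.HE.seg_gt hz hi h0 h1)
  refine Pool.Agent.Y890.HE.slit_of_re ?_
  rw [sub_re]
  exact sub_pos.2 (hz _ _ Fin.castSucc_lt_succ)

theorem fn_an {ρ : ι → ℚ} (hρ : ∀ i, ρ i < 1) (x : ι × Fin n × Fin n) : AnalyticOnNhd ℂ (fn ρ x) (Ord n) :=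
  per_an (hρ x.1) x.2.1 (x.2.2 : ℕ)

theorem FM_real (ρ : ι → ℚ) (e : Fin (n + 1) → ℝ) : FM ρ (fun k => (e k : ℂ)) = FF (nu n ρ) e := by
  funext s
  ext l j
  unfold FM FF fn PM nu
  simp only [Matrix.of_apply]
  congr 1

/-- **the orbit lies in the fibre** -/
theorem orb_fib [Fintype ι] [DecidableEq ι] {ρ : ι → ℚ} (h : Adm n ρ) {x : Fin (n + 1) → ℂ} (hx : x ∈ Ord n) :
    Orb (FM ρ x) ⊆ Fib (Ord n) (fn (n := n) ρ) x := by
  rintro _ ⟨g, hg, rfl⟩ p hp
  have hmem := sl_mem h g hg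
  have hρ : ∀ i, ρ i < 1 := fun i => by have := h.lt i; linarith
  -- the flat polynomial
  set P : MvPolynomial (Fin (n + 1) ⊕ (ι × Fin n × Fin n)) ℂ :=
    p.eval₂ (MvPolynomial.rename Sum.inl : MvPolynomial (Fin (n + 1)) ℂ →ₐ[ℂ] _).toRingHom
      (fun x => MvPolynomial.X (Sum.inr x)) with hP
  have hev : ∀ (e : Fin (n + 1) → ℂ) (X : ι → Matrix (Fin n) (Fin n) ℂ),
      ev P e X = evX e (fun x => X x.1 x.2.1 x.2.2) p := by
    intro e X
    unfold ev evX
    rw [hP]
    have h1 := MvPolynomial.eval₂_comp_left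
      (MvPolynomial.eval (Sum.elim e fun x : ι × Fin n × Fin n => X x.1 x.2.1 x.2.2))
      (MvPolynomial.rename Sum.inl : MvPolynomial (Fin (n + 1)) ℂ →ₐ[ℂ] _).toRingHom
      (fun x => MvPolynomial.X (Sum.inr x)) p
    rw [h1]
    congr 1
    · refine MvPolynomial.ringHom_ext (fun r => ?_) fun x => ?_
      · simp
      · simp
    · funext x
      simp
  have hrel : P ∈ Rel (nu n ρ) := by
    intro e he
    rw [hev, ← FM_real]
    exact hp _ (Ord_real he)
  have han : AnalyticOnNhd ℂ (fun z => evX z (fun x => (g x.1 * FM ρ z x.1) x.2.1 x.2.2) p) (Ord n) := by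
    have h1 : ∀ x : ι × Fin n × Fin n, AnalyticOnNhd ℂ (fun z => (g x.1 * FM ρ z x.1) x.2.1 x.2.2) (Ord n) := by
      intro x
      simp only [Matrix.mul_apply]
      apply Finset.analyticOnNhd_fun_sum
      intro c _
      exact analyticOnNhd_const.mul (fn_an hρ (x.1, c, x.2.2))
    exact evM_an h1 p
  obtain ⟨x0, hx0⟩ : ∃ x0 : Fin (n + 1) → ℝ, (fun i => (x0 i : ℂ)) ∈ Ord n :=
    ⟨fun i => ((i : ℕ) : ℝ), Ord_real fun i k h => by
      show ((i : ℕ) : ℝ) < ((k : ℕ) : ℝ)
      exact_mod_cast h⟩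
  refine real_zero (Ord_open n) (Ord_convex n).isPreconnected hx0 han (fun e he => ?_) x hx
  have he' : StrictMono e := by
    intro i k hik
    have := he i k hik
    simpa using this
  have h2 := mem_Mon.1 hmem P hrel e he'
  rw [← FM_real, hev] at h2
  exact h2

end Pool.Agent.Run7.h659.CC
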