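import Pool.Agent.Run7.h659.CC1

/-!
# Elements of the Lie algebra: logarithms of semisimple elements, parts with respect to reflections
-/

set_option autoImplicit false
set_option linter.unusedSectionVars false

open Complex

namespace Pool.Agent.Run7.h659.CC

open Pool.Agent.Run7.h659.SE

variable {n : ℕ} {ι : Type}

/-- logarithms of semisimple elements -/
theorem torus_mem [Fintype ι] [DecidableEq ι] {ν : ι → Fin (n + 1) → ℝ} {A : Type} [Field A] (j : A →+* ℂ)
    (c : ι → A) (hc : ∀ i, c i ≠ 0) (α : A → ℂ) (hα : ∀ x y, x ≠ 0 → y ≠ 0 → α (x * y) = α x + α y)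
    (Ap Am A0 : ι → Matrix (Fin n) (Fin n) ℂ) (h1 : ∀ i, Ap i + Am i + A0 i = 1)
    (h : ∀ m : ℕ, (fun i => j (c i) ^ m • Ap i + (j (c i))⁻¹ ^ m • Am i + A0 i) ∈ Mon ν) :
    (fun i => α (c i) • (Ap i - Am i)) ∈ LieS ν := by
  intro P hP e he
  set F := FF ν e with hF
  set X : ι → Matrix (Fin n) (Fin n) ℂ := fun i => α (c i) • (Ap i - Am i) with hX
  set c' : ι × Bool → A := fun s => if s.2 then c s.1 else (c s.1)⁻¹ with hc'
  have hc'0 : ∀ s, c' s ≠ 0 := by
    intro s
    simp only [hc']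
    split_ifs
    · exact hc _
    · exact inv_ne_zero (hc _)
  have hα1 : α 1 = 0 := by
    have := hα 1 1 one_ne_zero one_ne_zero
    rw [mul_one] at this
    exact add_eq_left.1 this.symm
  have hαinv : ∀ i, α (c i)⁻¹ = -α (c i) := by
    intro i
    have h2 := hα (c i) (c i)⁻¹ (hc i) (inv_ne_zero (hc i))
    rw [mul_inv_cancel₀ (hc i), hα1] at h2
    linear_combination -h2
  set Ψ : MvPolynomial (Sg ι n) ℂ →ₐ[ℂ] MvPolynomial (ι × Bool) ℂ := MvPolynomial.aeval
    (Sum.elim (fun k => MvPolynomial.C (e k : ℂ)) fun x =>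
      MvPolynomial.C ((Ap x.1 * F x.1) x.2.1 x.2.2) * MvPolynomial.X (x.1, true) +
      MvPolynomial.C ((Am x.1 * F x.1) x.2.1 x.2.2) * MvPolynomial.X (x.1, false) +
      MvPolynomial.C ((A0 x.1 * F x.1) x.2.1 x.2.2)) with hΨ
  have hev : ∀ (m : ℕ) (P : MvPolynomial (Sg ι n) ℂ), MvPolynomial.eval (fun s => j (c' s) ^ m) (Ψ P) =
      ev P (fun k => (e k : ℂ)) ((fun i => j (c i) ^ m • Ap i + (j (c i))⁻¹ ^ m • Am i + A0 i) * F) := by
    intro m P
    have h2 : ((MvPolynomial.aeval (fun s => j (c' s) ^ m)).comp Ψ : MvPolynomial (Sg ι n) ℂ →ₐ[ℂ] ℂ) =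
        eva (fun k => (e k : ℂ)) ((fun i => j (c i) ^ m • Ap i + (j (c i))⁻¹ ^ m • Am i + A0 i) * F) := by
      refine MvPolynomial.algHom_ext fun i => ?_
      rw [AlgHom.comp_apply, hΨ, MvPolynomial.aeval_X, eva, MvPolynomial.aeval_X]
      rcases i with k | x
      · simp
      · simp only [Sum.elim_inr, map_add, map_mul, MvPolynomial.aeval_C, MvPolynomial.aeval_X]
        rw [Pi.mul_apply, add_mul, add_mul, smul_mul_assoc, smul_mul_assoc]
        simp only [Matrix.add_apply, Matrix.smul_apply, smul_eq_mul, hc', if_true, Bool.false_eq_true,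
          if_false, map_inv₀]
        simp only [Algebra.algebraMap_self, RingHom.id_apply]
        ring
    have h3 := AlgHom.congr_fun h2 P
    rw [eva_apply] at h3
    rw [← h3, AlgHom.comp_apply, ← MvPolynomial.coe_aeval_eq_eval]
    rfl
  have hQ := exp_der j c' hc'0 α hα (Ψ P) fun m => by
    rw [hev]
    exact h m P hP e he
  set L : MvPolynomial (Sg ι n) ℂ →ₗ[ℂ] ℂ := ∑ s, α (c' s) •
    ((MvPolynomial.aeval (fun _ => (1 : ℂ))).toLinearMap.comp
      ((MvPolynomial.pderiv s).toLinearMap.comp Ψ.toLinearMap)) with hL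
  have hLa : ∀ P, L P = ∑ s, α (c' s) * MvPolynomial.eval (fun _ => 1) (MvPolynomial.pderiv s (Ψ P)) := by
    intro P
    rw [hL, LinearMap.sum_apply]
    rfl
  have h1F : ((1 : ι → Matrix (Fin n) (Fin n) ℂ)) * F = F := one_mul F
  have hev1 : ∀ P, MvPolynomial.eval (fun _ => (1 : ℂ)) (Ψ P) = eva (fun k => (e k : ℂ)) F P := by
    intro P
    have h2 := hev 0 P
    simp only [pow_zero, one_smul] at h2
    rw [h2, eva_apply]
    congr 1
    funext i
    rw [Pi.mul_apply, h1, one_mul]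
  have key := der_uniq (eva (fun k => (e k : ℂ)) F) L
    ((eva (fun k => (e k : ℂ)) F).toLinearMap.comp (DX X).toLinearMap) (by
      intro p q
      rw [hLa, hLa, hLa, ← hev1, ← hev1, Finset.sum_mul, Finset.mul_sum, ← Finset.sum_add_distrib]
      refine Finset.sum_congr rfl fun s _ => ?_
      rw [map_mul, Derivation.leibniz, smul_eq_mul, smul_eq_mul, map_add, map_mul, map_mul]
      ring) (by
      intro p q
      change eva _ F (DX X (p * q)) = eva _ F (DX X p) * eva _ F q + eva _ F p * eva _ F (DX X q)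
      rw [Derivation.leibniz, smul_eq_mul, smul_eq_mul, map_add, map_mul, map_mul]
      ring) (by
      rintro (k | x)
      · change L _ = eva _ F (DX X (MvPolynomial.X (Sum.inl k)))
        rw [hLa, DX_inl, map_zero]
        refine Finset.sum_eq_zero fun s _ => ?_
        rw [hΨ, MvPolynomial.aeval_X]
        simp
      · change L _ = eva _ F (DX X (MvPolynomial.X (Sum.inr x)))
        rw [hLa, DX_inr, map_sum]
        have e1 : ∀ s : ι × Bool, MvPolynomial.eval (fun _ => (1 : ℂ)) (MvPolynomial.pderiv s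
            (Ψ (MvPolynomial.X (Sum.inr x)))) =
            (if (x.1, true) = s then (Ap x.1 * F x.1) x.2.1 x.2.2 else 0) +
            (if (x.1, false) = s then (Am x.1 * F x.1) x.2.1 x.2.2 else 0) := by
          intro s
          rw [hΨ, MvPolynomial.aeval_X]
          simp only [Sum.elim_inr, map_add, MvPolynomial.pderiv_C, MvPolynomial.pderiv_C_mul,
            MvPolynomial.pderiv_X, add_zero]
          congr 1
          · by_cases h2 : (x.1, true) = s
            · rw [if_pos h2, h2]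
              simp
            · rw [if_neg h2, Pi.single_eq_of_ne h2]
              simp
          · by_cases h2 : (x.1, false) = s
            · rw [if_pos h2, h2]
              simp
            · rw [if_neg h2, Pi.single_eq_of_ne h2]
              simp
        simp only [e1, mul_add, mul_ite, mul_zero, Finset.sum_add_distrib, Finset.sum_ite_eq, Finset.mem_univ,
          if_true]
        simp only [hc', if_true, Bool.false_eq_true, if_false]
        rw [hαinv]
        have e2 : ∀ k, eva (fun k => (e k : ℂ)) F (MvPolynomial.C (X x.1 x.2.1 k) *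
            MvPolynomial.X (Sum.inr (x.1, k, x.2.2))) = X x.1 x.2.1 k * F x.1 k x.2.2 := by
          intro k
          rw [map_mul, eva, MvPolynomial.aeval_X, MvPolynomial.aeval_C]
          rfl
        simp only [e2]
        rw [← Matrix.mul_apply, hX]
        simp only []
        rw [smul_mul_assoc, sub_mul, Matrix.smul_apply, Matrix.sub_apply, smul_eq_mul]
        ring) P
  rw [hLa, hQ] at key
  have h5 : eva (fun k => (e k : ℂ)) F (DX X P) = 0 := key.symm
  rwa [eva_apply] at h5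

/-- decomposition of an element with three eigenvalues `1, μ, μ⁻¹` -/
theorem spec {R : Type} [Ring R] [Algebra ℂ R] {h h' : R} (hh : h * h' = 1) {μ : ℂ}
    (h0 : μ ≠ 0) (h2 : μ ^ 2 ≠ 1) (cub : (h - 1) * (h + h' - (μ + μ⁻¹) • (1 : R)) = 0) :
    ∃ Ap Am A0 : R, Ap + Am + A0 = 1 ∧ (∀ m : ℕ, h ^ m = μ ^ m • Ap + μ⁻¹ ^ m • Am + A0) ∧
      Ap - Am = (μ - μ⁻¹)⁻¹ • (h - h') := by
  have hμ1 : μ - 1 ≠ 0 := by
    intro h3
    apply h2
    rw [sub_eq_zero.1 h3, one_pow]
  have hμ2 : μ + 1 ≠ 0 := by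
    intro h3
    apply h2
    rw [eq_neg_of_add_eq_zero_left h3]
    ring
  have hμ3 : μ ^ 2 - 1 ≠ 0 := sub_ne_zero.2 h2
  have n1 : μ - μ⁻¹ ≠ 0 := by
    have : μ - μ⁻¹ = (μ ^ 2 - 1) / μ := by field_simp
    rw [this]; exact div_ne_zero hμ3 h0
  have n2 : 2 - (μ + μ⁻¹) ≠ 0 := by
    have : 2 - (μ + μ⁻¹) = -(μ - 1) ^ 2 / μ := by field_simp; ring
    rw [this]; exact div_ne_zero (neg_ne_zero.2 (pow_ne_zero _ hμ1)) h0
  have hsq : h * h = (1 + (μ + μ⁻¹)) • h + h' - (1 + (μ + μ⁻¹)) • (1 : R) := by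
    have e2 : (h - 1) * (h + h' - (μ + μ⁻¹) • (1 : R)) =
        h * h + 1 - (μ + μ⁻¹) • h - h - h' + (μ + μ⁻¹) • (1 : R) := by
      rw [sub_mul, one_mul, mul_sub, mul_add, hh, mul_smul_comm, mul_one]
      module
    rw [e2] at cub
    have e3 : h * h = (h * h + 1 - (μ + μ⁻¹) • h - h - h' + (μ + μ⁻¹) • (1 : R)) +
        ((1 + (μ + μ⁻¹)) • h + h' - (1 + (μ + μ⁻¹)) • (1 : R)) := by module
    rw [e3, cub, zero_add]
  have hmul : ∀ a b d : ℂ, h * (a • h + b • h' + d • 1) =
      (a * (1 + (μ + μ⁻¹)) + d) • h + a • h' + (b - a * (1 + (μ + μ⁻¹))) • 1 := by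
    intro a b d
    rw [mul_add, mul_add, mul_smul_comm, mul_smul_comm, mul_smul_comm, hsq, hh, mul_one]
    module
  set a : ℂ := (2 - (μ + μ⁻¹))⁻¹ with ha
  set b : ℂ := (μ - μ⁻¹)⁻¹ with hb
  have a1 : a * (2 - (μ + μ⁻¹)) = 1 := inv_mul_cancel₀ n2
  have a2 : a = -μ / (μ - 1) ^ 2 := by
    have : 2 - (μ + μ⁻¹) = -(μ - 1) ^ 2 / μ := by field_simp; ring
    rw [ha, this]
    field_simp
  have b2 : b = μ / (μ ^ 2 - 1) := by
    have : μ - μ⁻¹ = (μ ^ 2 - 1) / μ := by field_simp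
    rw [hb, this, inv_div]
  have f : μ ^ 2 - 1 = (μ - 1) * (μ + 1) := by ring
  have g1 : h * ((1 / 2 * (b - a)) • h + (-(1 / 2) * (b + a)) • h' + a • (1 : R)) =
      μ • ((1 / 2 * (b - a)) • h + (-(1 / 2) * (b + a)) • h' + a • (1 : R)) := by
    rw [hmul]
    have c1 : (1 / 2 * (b - a)) * (1 + (μ + μ⁻¹)) + a = μ * (1 / 2 * (b - a)) := by
      rw [a2, b2, f]
      field_simp
      ring
    have c2 : (1 / 2 * (b - a)) = μ * (-(1 / 2) * (b + a)) := by
      rw [a2, b2, f]
      field_simp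
      ring
    have c3 : -(1 / 2) * (b + a) - (1 / 2 * (b - a)) * (1 + (μ + μ⁻¹)) = μ * a := by
      rw [a2, b2, f]
      field_simp
      ring
    rw [c3, c1, smul_add, smul_add, smul_smul, smul_smul, smul_smul, ← c2]
  have g2 : h * ((-(1 / 2) * (b + a)) • h + (1 / 2 * (b - a)) • h' + a • (1 : R)) =
      μ⁻¹ • ((-(1 / 2) * (b + a)) • h + (1 / 2 * (b - a)) • h' + a • (1 : R)) := by
    rw [hmul]
    have c1 : (-(1 / 2) * (b + a)) * (1 + (μ + μ⁻¹)) + a = μ⁻¹ * (-(1 / 2) * (b + a)) := by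
      rw [a2, b2, f]
      field_simp
      ring
    have c2 : -(1 / 2) * (b + a) = μ⁻¹ * (1 / 2 * (b - a)) := by
      rw [a2, b2, f]
      field_simp
      ring
    have c3 : (1 / 2 * (b - a)) - (-(1 / 2) * (b + a)) * (1 + (μ + μ⁻¹)) = μ⁻¹ * a := by
      rw [a2, b2, f]
      field_simp
      ring
    rw [c3, c1, smul_add, smul_add, smul_smul, smul_smul, smul_smul, ← c2]
  have g3 : h * (a • h + a • h' + (-(a * (μ + μ⁻¹))) • (1 : R)) =
      a • h + a • h' + (-(a * (μ + μ⁻¹))) • (1 : R) := by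
    rw [hmul]
    congr 1
    · congr 1
      congr 1
      ring
    · congr 1
      ring
  refine ⟨(1 / 2 * (b - a)) • h + (-(1 / 2) * (b + a)) • h' + a • (1 : R),
    (-(1 / 2) * (b + a)) • h + (1 / 2 * (b - a)) • h' + a • (1 : R),
    a • h + a • h' + (-(a * (μ + μ⁻¹))) • (1 : R), ?_, ?_, ?_⟩
  · have e : ((1 / 2 * (b - a)) • h + (-(1 / 2) * (b + a)) • h' + a • (1 : R)) +
      ((-(1 / 2) * (b + a)) • h + (1 / 2 * (b - a)) • h' + a • (1 : R)) +
      (a • h + a • h' + (-(a * (μ + μ⁻¹))) • (1 : R)) = (a * (2 - (μ + μ⁻¹))) • (1 : R) := by module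
    rw [e, a1, one_smul]
  · intro m
    induction m with
    | zero =>
      rw [pow_zero, pow_zero, pow_zero, one_smul, one_smul]
      have e : ((1 / 2 * (b - a)) • h + (-(1 / 2) * (b + a)) • h' + a • (1 : R)) +
        ((-(1 / 2) * (b + a)) • h + (1 / 2 * (b - a)) • h' + a • (1 : R)) +
        (a • h + a • h' + (-(a * (μ + μ⁻¹))) • (1 : R)) = (a * (2 - (μ + μ⁻¹))) • (1 : R) := by module
      rw [e, a1, one_smul]
    | succ m ih =>
      rw [pow_succ' h m, ih, mul_add, mul_add, mul_smul_comm, mul_smul_comm, g1, g2, g3, smul_smul, smul_smul,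
        ← pow_succ, ← pow_succ]
  · module

end Pool.Agent.Run7.h659.CC
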