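import Pool.Agent.Run7.h659.CC2

/-!
# Components of elements of the Lie algebra
-/

set_option autoImplicit false
set_option linter.unusedSectionVars false

open Complex

namespace Pool.Agent.Run7.h659.CC

open Pool.Agent.Run7.h659.SE

variable {n : ℕ} {ι : Type}

theorem geom_zero {z : ℂ} {L : ℕ} (hz : z ^ L = 1) (h1 : z ≠ 1) : ∑ m ∈ Finset.range L, z ^ m = 0 := by
  have h2 := geom_sum_mul z L
  rw [hz, sub_self] at h2
  exact (mul_eq_zero.1 h2).resolve_right (sub_ne_zero.2 h1)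

theorem idem_pow {R : Type} [Ring R] [Algebra ℂ R] {P : R} (hP : P * P = P) (q : ℂ) (m : ℕ) :
    (1 + (q - 1) • P) ^ m = 1 + (q ^ m - 1) • P := by
  induction m with
  | zero => simp
  | succ m ih =>
    rw [pow_succ, ih, mul_add, mul_one, add_mul, one_mul, smul_mul_smul_comm, hP, pow_succ]
    module

theorem conj_expand {R : Type} [Ring R] [Algebra ℂ R] {P : R} (X : R) {p p' : ℂ} (hp : p' * p = 1) :
    (1 + (p' - 1) • P) * X * (1 + (p - 1) • P) =
      (X - P * X - X * P + (2 : ℂ) • (P * X * P)) + p' • (P * X - P * X * P) + p • (X * P - P * X * P) := by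
  have e1 : (1 + (p' - 1) • P) * X * (1 + (p - 1) • P) =
      X + (p' - 1) • (P * X) + (p - 1) • (X * P) + ((p' - 1) * (p - 1)) • (P * X * P) := by
    rw [add_mul, one_mul, mul_add, mul_one, add_mul, smul_mul_assoc, mul_smul_comm, smul_mul_assoc, mul_smul_comm,
      smul_smul]
    module
  rw [e1, show (p' - 1) * (p - 1) = 2 - p' - p by linear_combination hp]
  module

section

variable [Fintype ι] [DecidableEq ι]

theorem avg_mem {ν : ι → Fin (n + 1) → ℝ} {P : ι → Matrix (Fin n) (Fin n) ℂ} (hP : ∀ i, P i * P i = P i)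
    {q : ι → ℂ} {L : ℕ} (hL : 0 < L) (hq : ∀ i, q i ^ L = 1)
    (hM : (fun i => 1 + (q i - 1) • P i) ∈ Mon ν) {X : ι → Matrix (Fin n) (Fin n) ℂ} (hX : X ∈ LieS ν) (ω : ℂ) :
    (fun i => (∑ m ∈ Finset.range L, ω ^ m) • (X i - P i * X i - X i * P i + (2 : ℂ) • (P i * X i * P i)) +
      (∑ m ∈ Finset.range L, (ω * q i ^ (L - 1)) ^ m) • (P i * X i - P i * X i * P i) +
      (∑ m ∈ Finset.range L, (ω * q i) ^ m) • (X i * P i - P i * X i * P i)) ∈ LieS ν := by
  have hpow : ∀ m : ℕ, (fun i => 1 + (q i ^ m - 1) • P i) ∈ Mon ν := by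
    intro m
    have h1 := (Mon ν).pow_mem hM m
    have h2 : (fun i => 1 + (q i - 1) • P i) ^ m = fun i => 1 + (q i ^ m - 1) • P i := by
      funext i
      rw [Pi.pow_apply]
      exact idem_pow (hP i) (q i) m
    rwa [h2] at h1
  have hinv : ∀ i m, (q i ^ (L - 1)) ^ m * q i ^ m = 1 := by
    intro i m
    rw [← mul_pow, ← pow_succ, Nat.sub_add_cancel hL, hq, one_pow]
  have hmul : ∀ (p p' : ι → ℂ), (∀ i, p' i * p i = 1) →
      (fun i => 1 + (p i - 1) • P i) * (fun i => 1 + (p' i - 1) • P i) = 1 := by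
    intro p p' hp
    funext i
    rw [Pi.mul_apply, mul_add, mul_one, add_mul, one_mul, smul_mul_smul_comm, hP, Pi.one_apply]
    have h3 : (p i - 1) * (p' i - 1) = 2 - p i - p' i := by linear_combination hp i
    rw [h3]
    module
  have h1 : ∀ m : ℕ, (fun i => (X i - P i * X i - X i * P i + (2 : ℂ) • (P i * X i * P i)) +
      (q i ^ (L - 1)) ^ m • (P i * X i - P i * X i * P i) + q i ^ m • (X i * P i - P i * X i * P i)) ∈ LieS ν := by
    intro m
    have h2 : (fun i => 1 + ((q i ^ (L - 1)) ^ m - 1) • P i) ∈ Mon ν := by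
      have h3 := hpow ((L - 1) * m)
      simpa only [pow_mul] using h3
    have h3 := LieS_Ad (hpow m) h2 (hmul _ _ fun i => hinv i m) (hmul _ _ fun i => by
      rw [mul_comm]; exact hinv i m) hX
    convert h3 using 1
    funext i
    rw [Pi.mul_apply, Pi.mul_apply]
    exact (conj_expand (X i) (hinv i m)).symm
  have h2 := Submodule.sum_mem (LieS ν) (fun m (_ : m ∈ Finset.range L) => (LieS ν).smul_mem (ω ^ m) (h1 m))
  convert h2 using 1
  funext i
  rw [Finset.sum_apply]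
  simp only [Pi.smul_apply, smul_add, smul_smul, Finset.sum_add_distrib, ← Finset.sum_smul, mul_pow, Finset.sum_mul]

/-- the elements with one component -/
theorem ext_PQ {ν : ι → Fin (n + 1) → ℝ} {P : ι → Matrix (Fin n) (Fin n) ℂ} (hP : ∀ i, P i * P i = P i)
    {q : ι → ℂ} {L : ℕ} (hL : 0 < L) (hq : ∀ i, q i ^ L = 1) (hq1 : ∀ i, q i ≠ 1)
    (hq3 : ∀ i j, i ≠ j → q i ≠ q j)
    (hM : (fun i => 1 + (q i - 1) • P i) ∈ Mon ν) {X : ι → Matrix (Fin n) (Fin n) ℂ} (hX : X ∈ LieS ν) (s : ι)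
    (h0 : ∀ i, q s * q i = 1 → X i = 0) :
    (Pi.single s (P s * X s - P s * X s * P s) : ι → Matrix (Fin n) (Fin n) ℂ) ∈ LieS ν := by
  have h1 := avg_mem hP hL hq hM hX (q s)
  have h2 := (LieS ν).smul_mem ((L : ℂ)⁻¹) h1
  have hL0 : (L : ℂ) ≠ 0 := by exact_mod_cast hL.ne'
  convert h2 using 1
  funext i
  have h5 : (∑ m ∈ Finset.range L, (q s * q i) ^ m) • (X i * P i - P i * X i * P i) = 0 := by
    by_cases h6 : q s * q i = 1
    · rw [h0 i h6]
      simp
    · rw [geom_zero (by rw [mul_pow, hq, hq, one_mul]) h6, zero_smul]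
  rw [Pi.smul_apply, geom_zero (hq s) (hq1 s), h5]
  by_cases h : i = s
  · subst h
    rw [Pi.single_eq_same, ← pow_succ', Nat.sub_add_cancel hL, hq]
    simp only [one_pow, Finset.sum_const, Finset.card_range, nsmul_eq_mul, mul_one, zero_smul, zero_add, add_zero,
      smul_smul]
    rw [inv_mul_cancel₀ hL0, one_smul]
  · rw [Pi.single_eq_of_ne h, geom_zero (z := q s * q i ^ (L - 1)), zero_smul, zero_smul]
    · simp
    · rw [mul_pow, hq, one_mul, ← pow_mul, mul_comm, pow_mul, hq, one_pow]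
    · intro h3
      apply hq3 i s h
      have h4 : q i ^ (L - 1) * q i = 1 := by rw [← pow_succ, Nat.sub_add_cancel hL, hq]
      calc q i = (q s * q i ^ (L - 1)) * q i := by rw [h3, one_mul]
        _ = q s := by rw [mul_assoc, h4, mul_one]

theorem ext_QP {ν : ι → Fin (n + 1) → ℝ} {P : ι → Matrix (Fin n) (Fin n) ℂ} (hP : ∀ i, P i * P i = P i)
    {q : ι → ℂ} {L : ℕ} (hL : 0 < L) (hq : ∀ i, q i ^ L = 1) (hq1 : ∀ i, q i ≠ 1)
    (hq3 : ∀ i j, i ≠ j → q i ≠ q j)
    (hM : (fun i => 1 + (q i - 1) • P i) ∈ Mon ν) {X : ι → Matrix (Fin n) (Fin n) ℂ} (hX : X ∈ LieS ν) (s : ι)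
    (h0 : ∀ i, q s * q i = 1 → X i = 0) :
    (Pi.single s (X s * P s - P s * X s * P s) : ι → Matrix (Fin n) (Fin n) ℂ) ∈ LieS ν := by
  have hinv : ∀ i, q i ^ (L - 1) * q i = 1 := fun i => by rw [← pow_succ, Nat.sub_add_cancel hL, hq]
  have hqL : ∀ i, (q i ^ (L - 1)) ^ L = 1 := fun i => by rw [← pow_mul, mul_comm, pow_mul, hq, one_pow]
  have h1 := avg_mem hP hL hq hM hX (q s ^ (L - 1))
  have h2 := (LieS ν).smul_mem ((L : ℂ)⁻¹) h1
  have hL0 : (L : ℂ) ≠ 0 := by exact_mod_cast hL.ne'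
  convert h2 using 1
  funext i
  have h5 : (∑ m ∈ Finset.range L, (q s ^ (L - 1) * q i ^ (L - 1)) ^ m) • (P i * X i - P i * X i * P i) = 0 := by
    by_cases h6 : q s * q i = 1
    · rw [h0 i h6]
      simp
    · rw [geom_zero (by rw [mul_pow, hqL, hqL, one_mul]) (by
        intro h3
        apply h6
        have h4 := hinv s
        have h5 := hinv i
        calc q s * q i = (q s ^ (L - 1) * q i ^ (L - 1)) * (q s * q i) := by rw [h3, one_mul]
          _ = (q s ^ (L - 1) * q s) * (q i ^ (L - 1) * q i) := by ring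
          _ = 1 := by rw [h4, h5, one_mul]), zero_smul]
  rw [Pi.smul_apply, geom_zero (hqL s) (by
      intro h3
      have h4 := hinv s
      rw [h3, one_mul] at h4
      exact hq1 s h4), h5]
  by_cases h : i = s
  · subst h
    rw [Pi.single_eq_same, hinv]
    simp only [one_pow, Finset.sum_const, Finset.card_range, nsmul_eq_mul, mul_one, zero_smul, zero_add, add_zero,
      smul_smul]
    rw [inv_mul_cancel₀ hL0, one_smul]
  · rw [Pi.single_eq_of_ne h, geom_zero (z := q s ^ (L - 1) * q i), zero_smul, zero_smul]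
    · simp
    · rw [mul_pow, hq, mul_one, hqL]
    · intro h3
      apply hq3 i s h
      have h4 := hinv s
      calc q i = (q s ^ (L - 1) * q s) * q i := by rw [h4, one_mul]
        _ = (q s ^ (L - 1) * q i) * q s := by ring
        _ = q s := by rw [h3, one_mul]

/-- the component of the Lie algebra -/
def Gs (ν : ι → Fin (n + 1) → ℝ) (s : ι) : Submodule ℂ (Matrix (Fin n) (Fin n) ℂ) where
  carrier := {Y | (Pi.single s Y : ι → Matrix (Fin n) (Fin n) ℂ) ∈ LieS ν}
  zero_mem' := by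
    show (Pi.single s 0 : ι → Matrix (Fin n) (Fin n) ℂ) ∈ LieS ν
    rw [Pi.single_zero]
    exact (LieS ν).zero_mem
  add_mem' := by
    intro X Y hX hY
    show (Pi.single s (X + Y) : ι → Matrix (Fin n) (Fin n) ℂ) ∈ LieS ν
    rw [Pi.single_add]
    exact (LieS ν).add_mem hX hY
  smul_mem' := by
    intro c X hX
    show (Pi.single s (c • X) : ι → Matrix (Fin n) (Fin n) ℂ) ∈ LieS ν
    rw [Pi.single_smul]
    exact (LieS ν).smul_mem c hX

theorem mem_Gs {ν : ι → Fin (n + 1) → ℝ} {s : ι} {Y : Matrix (Fin n) (Fin n) ℂ} :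
    Y ∈ Gs ν s ↔ (Pi.single s Y : ι → Matrix (Fin n) (Fin n) ℂ) ∈ LieS ν := Iff.rfl

theorem Gs_bracket {ν : ι → Fin (n + 1) → ℝ} {s : ι} {X Y : Matrix (Fin n) (Fin n) ℂ} (hX : X ∈ Gs ν s)
    (hY : Y ∈ Gs ν s) : X * Y - Y * X ∈ Gs ν s := by
  rw [mem_Gs] at *
  have h1 := LieS_bracket hX hY
  convert h1 using 1
  funext i
  by_cases h : i = s
  · subst h
    simp
  · simp [Pi.single_eq_of_ne h]

end

end Pool.Agent.Run7.h659.CC
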