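import Pool.Agent.Run7.h659.CC3

/-!
# Two reflections; the Lie algebra generated by the differences of reflections
-/

set_option autoImplicit false
set_option linter.unusedSectionVars false

open Complex

namespace Pool.Agent.Run7.h659.CC

open Pool.Agent.Run7.h659.SE

/-! ## two idempotents -/

section two

variable {R : Type} [Ring R] [Algebra ℂ R] {P Q : R} {γ a b : ℂ}

theorem two_inv (hP : P * P = P) (hab : a * b = -(a + b)) : (1 + a • P) * (1 + b • P) = 1 := by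
  rw [mul_add, mul_one, add_mul, one_mul, smul_mul_smul_comm, hP, hab]
  module

theorem two_mul_inv (hP : P * P = P) (hQ : Q * Q = Q) (hab : a * b = -(a + b)) :
    ((1 + a • P) * (1 + b • Q)) * ((1 + a • Q) * (1 + b • P)) = 1 := by
  have h1 : (1 + b • Q) * (1 + a • Q) = 1 := two_inv hQ (by rw [mul_comm, hab]; ring)
  calc ((1 + a • P) * (1 + b • Q)) * ((1 + a • Q) * (1 + b • P)) =
      (1 + a • P) * ((1 + b • Q) * (1 + a • Q)) * (1 + b • P) := by simp only [mul_assoc]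
    _ = 1 := by rw [h1, mul_one, two_inv hP hab]

theorem two_expand (hab : a * b = -(a + b)) :
    (1 + a • P) * (1 + b • Q) = 1 + a • P + b • Q - (a + b) • (P * Q) := by
  rw [mul_add, mul_one, add_mul, one_mul, smul_mul_smul_comm, hab]
  module

theorem two_cub (hP : P * P = P) (hQ : Q * Q = Q) (hPQ : P * Q * P = γ • P) (hQP : Q * P * Q = γ • Q)
    (hab : a * b = -(a + b)) :
    ((1 + a • P) * (1 + b • Q) - 1) * ((1 + a • P) * (1 + b • Q) + (1 + a • Q) * (1 + b • P) -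
      (2 + (a + b) * (1 - γ)) • (1 : R)) = 0 := by
  have e1 : (1 + a • P) * (1 + b • Q) + (1 + a • Q) * (1 + b • P) - (2 + (a + b) * (1 - γ)) • (1 : R) =
      (a + b) • (P + Q - P * Q - Q * P - (1 - γ) • (1 : R)) := by
    rw [two_expand hab, two_expand hab]
    module
  have hPV : P * (P + Q - P * Q - Q * P - (1 - γ) • (1 : R)) = 0 := by
    rw [mul_sub, mul_sub, mul_sub, mul_add, hP, ← mul_assoc, ← mul_assoc, hP, hPQ, mul_smul_comm, mul_one]
    module
  have hQV : Q * (P + Q - P * Q - Q * P - (1 - γ) • (1 : R)) = 0 := by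
    rw [mul_sub, mul_sub, mul_sub, mul_add, hQ, ← mul_assoc, ← mul_assoc, hQ, hQP, mul_smul_comm, mul_one]
    module
  rw [e1, mul_smul_comm, two_expand hab, show 1 + a • P + b • Q - (a + b) • (P * Q) - 1 =
      a • P + b • Q - (a + b) • (P * Q) by abel, sub_mul, add_mul, smul_mul_assoc, smul_mul_assoc, smul_mul_assoc,
    mul_assoc, hPV, hQV, mul_zero]
  simp

theorem two_diff (hab : a * b = -(a + b)) :
    (1 + a • P) * (1 + b • Q) - (1 + a • Q) * (1 + b • P) = (a - b) • (P - Q) - (a + b) • (P * Q - Q * P) := by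
  rw [two_expand hab, two_expand hab]
  module

/-- part of the difference -/
theorem two_PQ (hP : P * P = P) (hPQ : P * Q * P = γ • P) (hab : a * b = -(a + b)) :
    P * ((1 + a • P) * (1 + b • Q) - (1 + a • Q) * (1 + b • P)) -
      P * ((1 + a • P) * (1 + b • Q) - (1 + a • Q) * (1 + b • P)) * P = (-(2 * a)) • (P * Q - γ • P) := by
  rw [two_diff hab]
  have e1 : P * ((a - b) • (P - Q) - (a + b) • (P * Q - Q * P)) =
      (a - b) • (P - P * Q) - (a + b) • (P * Q - γ • P) := by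
    rw [mul_sub, mul_smul_comm, mul_smul_comm, mul_sub, mul_sub, hP, ← mul_assoc, ← mul_assoc, hP, hPQ]
  rw [e1, sub_mul, smul_mul_assoc, smul_mul_assoc, sub_mul, sub_mul, hPQ, smul_mul_assoc, hP]
  module

theorem two_QP (hQ : Q * Q = Q) (hQP : Q * P * Q = γ • Q) (hab : a * b = -(a + b)) :
    ((1 + a • P) * (1 + b • Q) - (1 + a • Q) * (1 + b • P)) * Q -
      Q * ((1 + a • P) * (1 + b • Q) - (1 + a • Q) * (1 + b • P)) * Q = (-(2 * b)) • (P * Q - γ • Q) := by
  rw [two_diff hab]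
  have e1 : ((a - b) • (P - Q) - (a + b) • (P * Q - Q * P)) * Q =
      (a - b) • (P * Q - Q) - (a + b) • (P * Q - γ • Q) := by
    rw [sub_mul, smul_mul_assoc, smul_mul_assoc, sub_mul, sub_mul, hQ, mul_assoc P Q Q, hQ, hQP]
  rw [mul_assoc, e1, mul_sub, mul_smul_comm, mul_smul_comm, mul_sub, mul_sub, ← mul_assoc, hQ, hQP, mul_smul_comm, hQ]
  module

end two

/-! ## the vectors -/

variable {n : ℕ}

/-- the vectors of the reflections -/
noncomputable def aV (τ : ℂ) (k l : Fin n) : ℂ :=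
  if (l : ℕ) + 1 = k then 1 else if l = k then -τ else if (l : ℕ) = k + 1 then 1 else 0

theorem aV_self (τ : ℂ) (k : Fin n) : aV τ k k = -τ := by
  unfold aV
  rw [if_neg (by omega), if_pos rfl]

theorem aV_adj {τ : ℂ} {k l : Fin n} (h : (l : ℕ) + 1 = k ∨ (k : ℕ) + 1 = l) : aV τ k l = 1 := by
  unfold aV
  rcases h with h | h
  · rw [if_pos h]
  · have h2 : ¬ (l = k) := by
      intro h'; rw [h'] at h; omega
    rw [if_neg (by omega), if_neg h2, if_pos h.symm]

theorem vv_eq {x : ℂ} (hx : x ≠ 0) (k : Fin n) : vv x x k = (x * (1 - x ^ 2)) • aV (x + x⁻¹) k := by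
  funext l
  rw [Pi.smul_apply, smul_eq_mul]
  unfold vv aV
  split_ifs
  · ring
  · field_simp
    ring
  · ring
  · ring

/-- the elementary products -/
noncomputable def Rr (τ : ℂ) (i j : Fin n) : Matrix (Fin n) (Fin n) ℂ := Rk (aV τ i) (Pi.single j 1)

theorem Rr_mul (τ : ℂ) (i j k l : Fin n) : Rr τ i j * Rr τ k l = aV τ k j • Rr τ i l := by
  unfold Rr
  rw [Rk_mul, Rk_smul_left]
  congr 1
  simp [dt, Pi.single_apply]

/-- the projections -/
noncomputable def Pk (τ : ℂ) (k : Fin n) : Matrix (Fin n) (Fin n) ℂ := (-τ⁻¹) • Rr τ k k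

theorem Pk_idem {τ : ℂ} (hτ : τ ≠ 0) (k : Fin n) : Pk τ k * Pk τ k = Pk τ k := by
  unfold Pk
  rw [smul_mul_smul_comm, Rr_mul, aV_self, smul_smul]
  congr 1
  field_simp

theorem Pk_mul {τ : ℂ} {k l : Fin n} (h : (l : ℕ) + 1 = k ∨ (k : ℕ) + 1 = l) :
    Pk τ k * Pk τ l = (τ⁻¹) ^ 2 • Rr τ k l := by
  unfold Pk
  rw [smul_mul_smul_comm, Rr_mul, aV_adj (h.symm), one_smul]
  congr 1
  ring

theorem Pk_mul_mul {τ : ℂ} {k l : Fin n} (h : (l : ℕ) + 1 = k ∨ (k : ℕ) + 1 = l) :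
    Pk τ k * Pk τ l * Pk τ k = (τ⁻¹) ^ 2 • Pk τ k := by
  rw [Pk_mul h]
  unfold Pk
  rw [smul_mul_smul_comm, Rr_mul, aV_adj h, one_smul, smul_smul]

theorem Tk_Pk {x : ℂ} (hx : x ≠ 0) (hτ : x + x⁻¹ ≠ 0) (k : Fin n) :
    Tk k (vv x x k) = 1 + (x ^ 4 - 1) • Pk (x + x⁻¹) k := by
  unfold Tk Pk Rr
  rw [Ek_eq, vv_eq hx, Rk_smul_left, smul_smul]
  congr 2
  have h1 : (x ^ 4 - 1) * -(x + x⁻¹)⁻¹ = x * (1 - x ^ 2) := by
    have h2 : x ^ 4 - 1 = -(x * (1 - x ^ 2)) * (x + x⁻¹) := by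
      field_simp
      ring
    rw [h2, mul_assoc, mul_neg, mul_inv_cancel₀ hτ]
    ring
  exact h1.symm

/-! ## generation -/

/-- a Lie algebra which contains the differences of the projections and is normalised by the first of them -/
theorem all_single {τ : ℂ} (hτ : τ ≠ 0) (hspan : Submodule.span ℂ (Set.range (aV (n := n) τ)) = ⊤)
    (G : Submodule ℂ (Matrix (Fin n) (Fin n) ℂ)) (hG : ∀ X ∈ G, ∀ Y ∈ G, X * Y - Y * X ∈ G) (z : Fin n)
    (hz : (z : ℕ) = 0) (hnorm : ∀ X ∈ G, Pk τ z * X - X * Pk τ z ∈ G)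
    (hadj : ∀ k l : Fin n, (k : ℕ) + 1 = l → Pk τ k - Pk τ l ∈ G ∧ Pk τ k * Pk τ l - (τ⁻¹) ^ 2 • Pk τ k ∈ G)
    (i j : Fin n) (hij : i ≠ j) : Matrix.single i j (1 : ℂ) ∈ G := by
  classical
  set H : Submodule ℂ (Matrix (Fin n) (Fin n) ℂ) := G ⊔ Submodule.span ℂ {Pk τ z} with hH
  have hGH : ∀ X ∈ G, X ∈ H := fun X hX => Submodule.mem_sup_left hX
  have hzH : Pk τ z ∈ H := Submodule.mem_sup_right (Submodule.mem_span_singleton_self _)
  -- brackets
  have hbr : ∀ X ∈ H, ∀ Y ∈ H, X * Y - Y * X ∈ G := by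
    intro X hX Y hY
    rw [hH, Submodule.mem_sup] at hX hY
    obtain ⟨X1, hX1, X2, hX2, rfl⟩ := hX
    obtain ⟨Y1, hY1, Y2, hY2, rfl⟩ := hY
    rw [Submodule.mem_span_singleton] at hX2 hY2
    obtain ⟨c, rfl⟩ := hX2
    obtain ⟨d, rfl⟩ := hY2
    have e1 : (X1 + c • Pk τ z) * (Y1 + d • Pk τ z) - (Y1 + d • Pk τ z) * (X1 + c • Pk τ z) =
        (X1 * Y1 - Y1 * X1) + c • (Pk τ z * Y1 - Y1 * Pk τ z) - d • (Pk τ z * X1 - X1 * Pk τ z) := by
      rw [add_mul, add_mul, mul_add, mul_add, mul_add, mul_add, smul_mul_smul_comm, smul_mul_smul_comm,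
        smul_mul_assoc, smul_mul_assoc, mul_smul_comm, mul_smul_comm, mul_comm d c]
      module
    rw [e1]
    exact G.sub_mem (G.add_mem (hG _ hX1 _ hY1) (G.smul_mem _ (hnorm _ hY1))) (G.smul_mem _ (hnorm _ hX1))
  -- the projections
  have hPH : ∀ (m : ℕ) (hm : m < n), Pk τ ⟨m, hm⟩ ∈ H := by
    intro m
    induction m with
    | zero =>
      intro hm
      have : z = ⟨0, hm⟩ := Fin.ext hz
      rw [← this]
      exact hzH
    | succ m ih =>
      intro hm
      have h1 := hGH _ (hadj ⟨m, by omega⟩ ⟨m + 1, hm⟩ rfl).1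
      have h2 := H.sub_mem (ih (by omega)) h1
      rwa [sub_sub_cancel] at h2
  have hRd : ∀ k : Fin n, Rr τ k k ∈ H := by
    intro k
    have h1 := H.smul_mem (-τ) (hPH k k.2)
    have h2 : (-τ) • Pk τ ⟨(k : ℕ), k.2⟩ = Rr τ k k := by
      unfold Pk
      rw [smul_smul, show -τ * -τ⁻¹ = 1 by field_simp, one_smul]
    rwa [h2] at h1
  have hτ2 : (τ⁻¹) ^ 2 ≠ 0 := pow_ne_zero _ (inv_ne_zero hτ)
  have hup : ∀ k l : Fin n, (k : ℕ) + 1 = l → Rr τ k l ∈ H ∧ Rr τ l k ∈ H := by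
    intro k l h
    have h1 : Pk τ k * Pk τ l ∈ H := by
      have h2 := H.add_mem (hGH _ (hadj k l h).2) (H.smul_mem ((τ⁻¹) ^ 2) (hPH k k.2))
      rwa [sub_add_cancel] at h2
    have h3 : Pk τ l * Pk τ k ∈ H := by
      have h4 := H.sub_mem h1 (hGH _ (hbr _ (hPH k k.2) _ (hPH l l.2)))
      rwa [sub_sub_cancel] at h4
    constructor
    · have h4 := H.smul_mem ((τ⁻¹) ^ 2)⁻¹ h1
      rwa [Pk_mul (Or.inr h), smul_smul, inv_mul_cancel₀ hτ2, one_smul] at h4
    · have h4 := H.smul_mem ((τ⁻¹) ^ 2)⁻¹ h3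
      rwa [Pk_mul (Or.inl h), smul_smul, inv_mul_cancel₀ hτ2, one_smul] at h4
  have hall : ∀ (d : ℕ) (i j : Fin n), (i : ℕ) + d = j → Rr τ i j ∈ H ∧ Rr τ j i ∈ H := by
    intro d
    induction d with
    | zero =>
      intro i j h
      have : i = j := Fin.ext (by omega)
      subst this
      exact ⟨hRd i, hRd i⟩
    | succ d ih =>
      intro i j h
      have hjlt := j.2
      set m : Fin n := ⟨(i : ℕ) + d, by omega⟩ with hm
      have h1 := ih i m rfl
      have h2 := hup m j (by rw [hm]; simp only; omega)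
      have h3 := hGH _ (hbr _ h1.1 _ h2.1)
      have h4 := hGH _ (hbr _ h2.2 _ h1.2)
      rw [Rr_mul, Rr_mul, aV_self] at h3 h4
      constructor
      · have h5 := H.smul_mem (-τ⁻¹) (H.add_mem h3 (H.smul_mem (aV τ i j) (hRd m)))
        rwa [sub_add_cancel, smul_smul, show -τ⁻¹ * -τ = 1 by field_simp, one_smul] at h5
      · have h5 := H.smul_mem (-τ⁻¹) (H.add_mem h4 (H.smul_mem (aV τ j i) (hRd m)))
        rwa [sub_add_cancel, smul_smul, show -τ⁻¹ * -τ = 1 by field_simp, one_smul] at h5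
  have hR : ∀ i j : Fin n, Rr τ i j ∈ H := by
    intro i j
    rcases le_total (i : ℕ) j with h | h
    · exact (hall ((j : ℕ) - i) i j (by omega)).1
    · exact (hall ((i : ℕ) - j) j i (by omega)).2
  -- everything
  have hRk : ∀ (c : Fin n → ℂ) (j : Fin n), Rk c (Pi.single j 1) ∈ H := by
    intro c j
    have hc : c ∈ Submodule.span ℂ (Set.range (aV (n := n) τ)) := by rw [hspan]; trivial
    induction hc using Submodule.span_induction with
    | mem x hx =>
      obtain ⟨k, rfl⟩ := hx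
      exact hR k j
    | zero =>
      have : Rk (0 : Fin n → ℂ) (Pi.single j 1) = 0 := by
        ext a b; simp [Rk]
      rw [this]
      exact H.zero_mem
    | add x y _ _ hx hy =>
      rw [Rk_add_left]
      exact H.add_mem hx hy
    | smul a x _ hx =>
      rw [Rk_smul_left]
      exact H.smul_mem a hx
  have hs : ∀ i j : Fin n, Matrix.single i j (1 : ℂ) ∈ H := by
    intro i j
    rw [← Rk_single]
    exact hRk _ _
  have h1 := hbr _ (hs i i) _ (hs i j)
  rw [Matrix.single_mul_single_same, Matrix.single_mul_single_of_ne i j i (c := (1 : ℂ)) (h := hij.symm), mul_one,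
    sub_zero] at h1
  exact h1

end Pool.Agent.Run7.h659.CC
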