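import Mathlib

/-!
# Embeddings of the field of algebraic numbers and traces
-/

set_option autoImplicit false
set_option linter.unusedSectionVars false

open Complex

namespace Pool.Agent.Run7.h659.CC

/-- a conjugate in the middle third -/
theorem exists_r {N : ℕ} (hN : 5 ≤ N) (h6 : N ≠ 6) (h10 : N ≠ 10) :
    ∃ r : ℕ, r.Coprime N ∧ N < 3 * r ∧ 2 * r < N := by
  rcases Nat.even_or_odd N with h | h
  · obtain ⟨m, hm⟩ := h
    rcases Nat.even_or_odd m with h' | h'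
    · obtain ⟨l, hl⟩ := h'
      refine ⟨m - 1, ?_, by omega, by omega⟩
      have h1 : Nat.Coprime (m - 1) 2 := by
        rw [Nat.coprime_two_right]
        exact ⟨l - 1, by omega⟩
      have h2 : N = 2 + 2 * (m - 1) := by omega
      rw [h2]
      exact (Nat.coprime_add_mul_right_right _ _ _).2 h1
    · obtain ⟨l, hl⟩ := h'
      refine ⟨m - 2, ?_, by omega, by omega⟩
      have h1 : Nat.Coprime (m - 2) (2 ^ 2) := by
        apply Nat.Coprime.pow_right
        rw [Nat.coprime_two_right]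
        exact ⟨l - 1, by omega⟩
      have h2 : N = 2 ^ 2 + 2 * (m - 2) := by omega
      rw [h2]
      exact (Nat.coprime_add_mul_right_right _ _ _).2 h1
  · obtain ⟨m, hm⟩ := h
    refine ⟨m, ?_, by omega, by omega⟩
    rw [hm]
    have h1 : Nat.Coprime m (1 + 2 * m) := (Nat.coprime_add_mul_right_right m 1 2).2 (Nat.coprime_one_right m)
    rwa [add_comm] at h1

/-- the field of algebraic numbers -/
abbrev QA := AlgebraicClosure ℚ

theorem alg_QA : Algebra.IsAlgebraic ℚ QA := by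
  have h := AlgebraicClosure.isAlgebraic ℚ
  convert! h

theorem exists_emb {ι : Type} (ρ : ι → ℚ) (s : ι) {r : ℕ} (hr : r.Coprime (ρ s).den) :
    ∃ (j j' : QA →+* ℂ) (y : ι → QA), (∀ i, j (y i) = exp (2 * Real.pi * I * (ρ i : ℂ))) ∧
      j' (y s) = exp (2 * Real.pi * I * ((r : ℂ) / ((ρ s).den : ℂ))) := by
  have := alg_QA
  set j : QA →+* ℂ := (IsAlgClosed.lift : QA →ₐ[ℚ] ℂ).toRingHom with hj
  have hy : ∀ i, ∃ y : QA, j y = exp (2 * Real.pi * I * (ρ i : ℂ)) := by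
    intro i
    have : NeZero (ρ i).den := ⟨(ρ i).den_nz⟩
    obtain ⟨ζ, hζ⟩ := HasEnoughRootsOfUnity.exists_primitiveRoot QA (ρ i).den
    have h1 := hζ.map_of_injective j.injective
    have h2 : exp (2 * Real.pi * I * (ρ i : ℂ)) ^ (ρ i).den = 1 := (isPrimitiveRoot_exp_rat (ρ i)).pow_eq_one
    obtain ⟨m, _, hm⟩ := h1.eq_pow_of_pow_eq_one h2
    exact ⟨ζ ^ m, by rw [map_pow, hm]⟩
  choose y hy using hy
  have hys : IsPrimitiveRoot (y s) (ρ s).den := by
    refine IsPrimitiveRoot.of_map_of_injective (f := j) ?_ j.injective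
    rw [hy]
    exact isPrimitiveRoot_exp_rat (ρ s)
  have hd : 0 < (ρ s).den := (ρ s).den_pos
  have h3 : exp (2 * Real.pi * I * ((r : ℂ) / ((ρ s).den : ℂ))) ∈ (minpoly ℚ (y s)).rootSet ℂ := by
    rw [← Polynomial.cyclotomic_eq_minpoly_rat hys hd, Polynomial.mem_rootSet]
    refine ⟨Polynomial.cyclotomic_ne_zero _ _, ?_⟩
    rw [Polynomial.aeval_def, ← Polynomial.eval_map, Polynomial.map_cyclotomic, ← Polynomial.IsRoot.def,
      Polynomial.isRoot_cyclotomic_iff_charZero hd]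
    exact isPrimitiveRoot_exp_of_coprime r _ hd.ne' hr
  rw [← Algebra.IsAlgebraic.range_eval_eq_rootSet_minpoly ℂ (y s)] at h3
  obtain ⟨ψ, hψ⟩ := h3
  exact ⟨j, ψ.toRingHom, y, hy, hψ⟩

/-- the trace polynomial -/
noncomputable def tt {R : Type} [CommRing R] (u : R) : R := 2 + (u - 2) * (u + 1) ^ 3 * (u - 1) ^ 2

theorem tt_map {R S : Type} [CommRing R] [CommRing S] (f : R →+* S) (u : R) : f (tt u) = tt (f u) := by
  unfold tt
  simp only [map_add, map_mul, map_sub, map_pow, map_one, map_ofNat]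

theorem tt_eq {y τ : ℂ} (hy : y ≠ 0) (hτ : τ ≠ 0) (h : τ ^ 2 = y + y⁻¹ + 2) :
    2 + ((y ^ 6 - 1) + ((y⁻¹) ^ 6 - 1)) * (1 - (τ⁻¹) ^ 2) = tt (y + y⁻¹) := by
  have hτ2 : τ ^ 2 ≠ 0 := pow_ne_zero _ hτ
  have h1 : (1 - (τ⁻¹) ^ 2) * τ ^ 2 = y + y⁻¹ + 1 := by
    rw [sub_mul, one_mul, ← mul_pow, inv_mul_cancel₀ hτ, one_pow, h]
    ring
  have h2 : ((y ^ 6 - 1) + ((y⁻¹) ^ 6 - 1)) = (y + y⁻¹ - 2) * (y + y⁻¹ + 1) ^ 2 * (y + y⁻¹ - 1) ^ 2 * τ ^ 2 := by
    rw [h]
    field_simp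
    ring
  unfold tt
  rw [h2]
  linear_combination ((y + y⁻¹ - 2) * (y + y⁻¹ + 1) ^ 2 * (y + y⁻¹ - 1) ^ 2) * h1

/-- values of the trace polynomial -/
theorem tt_gt {u : ℝ} (h2 : u < -1) : 2 < tt u := by
  unfold tt
  have h3 : 0 < (2 - u) * (-(u + 1)) ^ 3 * (u - 1) ^ 2 := by
    refine mul_pos (mul_pos (by linarith) (pow_pos (by linarith) 3)) ?_
    have : u - 1 ≠ 0 := by linarith
    positivity
  nlinarith [h3]

theorem tt_lt {u : ℝ} (h1 : -1 < u) (h2 : u < 2) : -2 < tt u := by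
  unfold tt
  have e : (u + 2) * ((2 - u) * (u + 1) ^ 2 * (u - 1) ^ 2) = 4 - (u ^ 3 - 3 * u) ^ 2 := by ring
  have h3 : (u + 2) * ((2 - u) * (u + 1) ^ 2 * (u - 1) ^ 2) ≤ 4 := by
    rw [e]
    nlinarith [sq_nonneg (u ^ 3 - 3 * u)]
  have h4 : 0 ≤ (2 - u) * (u + 1) ^ 2 * (u - 1) ^ 2 := by
    refine mul_nonneg (mul_nonneg (by linarith) (sq_nonneg _)) (sq_nonneg _)
  have h5 : (2 - u) * (u + 1) ^ 2 * (u - 1) ^ 2 * (u + 1) < 4 := by
    rcases h4.eq_or_lt with h | h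
    · rw [← h]; norm_num
    · have : (2 - u) * (u + 1) ^ 2 * (u - 1) ^ 2 * (u + 1) < (2 - u) * (u + 1) ^ 2 * (u - 1) ^ 2 * (u + 2) :=
        mul_lt_mul_of_pos_left (by linarith) h
      linarith
  nlinarith [h5]

theorem tt_lt2 {u : ℝ} (h1 : -1 < u) (h2 : u < 2) (h3 : u ≠ 1) : tt u < 2 := by
  unfold tt
  have h4 : 0 < (2 - u) * (u + 1) ^ 3 * (u - 1) ^ 2 := by
    refine mul_pos (mul_pos (by linarith) (pow_pos (by linarith) 3)) ?_
    have : u - 1 ≠ 0 := sub_ne_zero.2 h3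
    positivity
  nlinarith [h4]

/-- norms -/
theorem norm_of_lt {z : ℂ} (hz : z ≠ 0) {t : ℝ} (h : z + z⁻¹ = t) (h1 : -2 < t) (h2 : t < 2) : ‖z‖ = 1 := by
  have hn : normSq z ≠ 0 := by simpa using hz
  have hre := congrArg Complex.re h
  have him := congrArg Complex.im h
  simp only [add_re, add_im, inv_re, inv_im, ofReal_re, ofReal_im] at hre him
  by_contra hne
  have hn1 : normSq z ≠ 1 := by
    intro h3
    apply hne
    rw [normSq_eq_norm_sq] at h3
    nlinarith [norm_nonneg z]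
  have hzim : z.im = 0 := by
    have h3 : z.im * (normSq z - 1) = 0 := by
      field_simp at him
      linarith
    rcases mul_eq_zero.1 h3 with h4 | h4
    · exact h4
    · exact absurd (sub_eq_zero.1 h4) hn1
  have h4 : normSq z = z.re ^ 2 := by
    rw [normSq_apply, hzim]
    ring
  have hzre : z.re ≠ 0 := by
    intro h5
    apply hn
    rw [h4, h5]
    norm_num
  rw [h4] at hre
  have h5 : z.re ^ 2 + 1 = t * z.re := by
    field_simp at hre
    nlinarith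
  nlinarith [sq_nonneg (z.re - t / 2)]

theorem norm_of_gt {z : ℂ} {t : ℝ} (h : z + z⁻¹ = t) (h1 : 2 < t) : ‖z‖ ≠ 1 := by
  intro h2
  have h3 : z⁻¹ = (starRingEnd ℂ) z := by
    rw [Complex.inv_def, normSq_eq_norm_sq, h2]
    simp
  rw [h3, add_conj] at h
  have h4 : 2 * z.re = t := by exact_mod_cast h
  have h5 := Complex.re_le_norm z
  rw [h2] at h5
  linarith

end Pool.Agent.Run7.h659.CC
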