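import Pool.Agent.Run7.h659.CC4
import Pool.Agent.Run7.h659.CC5

/-!
# Constant exponents: elements of the Lie algebra
-/

set_option autoImplicit false
set_option linter.unusedSectionVars false

open Complex

namespace Pool.Agent.Run7.h659.CC

open Pool.Agent.Run7.h659.SE

variable {n : ℕ} {ι : Type}

/-- tangent vectors of polynomial families -/
theorem unip_mem {ν : ι → Fin (n + 1) → ℝ} (B C : ι → Matrix (Fin n) (Fin n) ℂ)
    (h : ∀ m : ℕ, (fun i => 1 + (m : ℂ) • B i + (m : ℂ) ^ 2 • C i) ∈ Mon ν) : B ∈ LieS ν := by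
  intro P hP e he
  set F := FF ν e with hF
  set Ψ : MvPolynomial (Sg ι n) ℂ →ₐ[ℂ] Polynomial ℂ := MvPolynomial.aeval
    (Sum.elim (fun k => Polynomial.C (e k : ℂ)) fun x => Polynomial.C (F x.1 x.2.1 x.2.2) +
      Polynomial.X * Polynomial.C ((B * F) x.1 x.2.1 x.2.2) +
      Polynomial.X ^ 2 * Polynomial.C ((C * F) x.1 x.2.1 x.2.2)) with hΨ
  have hev : ∀ (s : ℂ) (P : MvPolynomial (Sg ι n) ℂ), (Ψ P).eval s =
      eva (fun k => (e k : ℂ)) ((fun i => 1 + s • B i + s ^ 2 • C i) * F) P := by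
    intro s P
    have h1 : ((Polynomial.aeval s).comp Ψ : MvPolynomial (Sg ι n) ℂ →ₐ[ℂ] ℂ) =
        eva (fun k => (e k : ℂ)) ((fun i => 1 + s • B i + s ^ 2 • C i) * F) := by
      refine MvPolynomial.algHom_ext fun i => ?_
      rw [AlgHom.comp_apply, hΨ, MvPolynomial.aeval_X, eva, MvPolynomial.aeval_X]
      rcases i with k | x
      · simp
      · simp only [Sum.elim_inr, map_add, map_mul, map_pow, Polynomial.aeval_C, Polynomial.aeval_X]
        change _ = ((1 + s • B x.1 + s ^ 2 • C x.1) * F x.1) x.2.1 x.2.2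
        rw [add_mul, add_mul, one_mul, smul_mul_assoc, smul_mul_assoc, Matrix.add_apply,
          Matrix.add_apply, Matrix.smul_apply, Matrix.smul_apply, smul_eq_mul, smul_eq_mul]
        rfl
    have h2 := AlgHom.congr_fun h1 P
    rw [← h2, AlgHom.comp_apply, Polynomial.coe_aeval_eq_eval]
  have h0 : Ψ P = 0 := by
    refine Polynomial.eq_zero_of_infinite_isRoot _ (Set.Infinite.mono (s := Set.range fun m : ℕ => (m : ℂ)) ?_
      (Set.infinite_range_of_injective Nat.cast_injective))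
    rintro _ ⟨m, rfl⟩
    rw [Set.mem_ofPred_eq, Polynomial.IsRoot.def, hev, eva_apply]
    exact h m P hP e he
  have hev0 : ∀ P, (Ψ P).eval 0 = eva (fun k => (e k : ℂ)) F P := by
    intro P
    rw [hev]
    congr 2
    funext i
    rw [Pi.mul_apply]
    simp
  set L : MvPolynomial (Sg ι n) ℂ →ₗ[ℂ] ℂ := (Polynomial.aeval (0 : ℂ)).toLinearMap.comp
    (Polynomial.derivative.comp Ψ.toLinearMap) with hL
  have hLa : ∀ P, L P = (Polynomial.derivative (Ψ P)).eval 0 := by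
    intro P
    rw [hL, ← Polynomial.coe_aeval_eq_eval]
    rfl
  have key := der_uniq (eva (fun k => (e k : ℂ)) F) L
    ((eva (fun k => (e k : ℂ)) F).toLinearMap.comp (DX B).toLinearMap) (by
      intro p q
      rw [hLa, hLa, hLa, ← hev0, ← hev0, map_mul, Polynomial.derivative_mul, Polynomial.eval_add,
        Polynomial.eval_mul, Polynomial.eval_mul]) (by
      intro p q
      change eva _ F (DX B (p * q)) = eva _ F (DX B p) * eva _ F q + eva _ F p * eva _ F (DX B q)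
      rw [Derivation.leibniz, smul_eq_mul, smul_eq_mul, map_add, map_mul, map_mul]
      ring) (by
      rintro (k | x)
      · change L _ = eva _ F (DX B (MvPolynomial.X (Sum.inl k)))
        rw [hLa, DX_inl, map_zero, hΨ, MvPolynomial.aeval_X]
        simp
      · change L _ = eva _ F (DX B (MvPolynomial.X (Sum.inr x)))
        rw [hLa, DX_inr, map_sum, hΨ, MvPolynomial.aeval_X]
        have e2 : ∀ k, eva (fun k => (e k : ℂ)) F (MvPolynomial.C (B x.1 x.2.1 k) *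
            MvPolynomial.X (Sum.inr (x.1, k, x.2.2))) = B x.1 x.2.1 k * F x.1 k x.2.2 := by
          intro k
          rw [map_mul, eva, MvPolynomial.aeval_X, MvPolynomial.aeval_C]
          rfl
        simp only [e2, Sum.elim_inr]
        rw [← Matrix.mul_apply]
        simp) P
  rw [hLa, h0] at key
  have h5 : eva (fun k => (e k : ℂ)) F (DX B P) = 0 := by
    rw [Polynomial.derivative_zero, Polynomial.eval_zero] at key
    exact key.symm
  rwa [eva_apply] at h5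

/-- powers of a unipotent element -/
theorem unip_pow {R : Type} [Ring R] [Algebra ℂ R] {h h' : R} (hh : h * h' = 1)
    (cub : (h - 1) * (h + h' - (2 : ℂ) • (1 : R)) = 0) (m : ℕ) :
    h ^ m = 1 + (m : ℂ) • ((1 / 2 : ℂ) • (h - h')) + (m : ℂ) ^ 2 • ((1 / 2 : ℂ) • (h + h' - (2 : ℂ) • (1 : R))) := by
  have hsq : h * h = (3 : ℂ) • h + h' - (3 : ℂ) • (1 : R) := by
    have e2 : (h - 1) * (h + h' - (2 : ℂ) • (1 : R)) = h * h + 1 - (3 : ℂ) • h - h' + (2 : ℂ) • (1 : R) := by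
      rw [sub_mul, one_mul, mul_sub, mul_add, hh, mul_smul_comm, mul_one]
      module
    rw [e2] at cub
    have e3 : h * h = (h * h + 1 - (3 : ℂ) • h - h' + (2 : ℂ) • (1 : R)) +
        ((3 : ℂ) • h + h' - (3 : ℂ) • (1 : R)) := by module
    rw [e3, cub, zero_add]
  induction m with
  | zero => simp
  | succ m ih =>
    rw [pow_succ', ih, mul_add, mul_add, mul_one, mul_smul_comm, mul_smul_comm, mul_smul_comm, mul_smul_comm, mul_sub,
      mul_sub, mul_add, mul_smul_comm, mul_one, hh, hsq]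
    push_cast
    module

section

variable [Fintype ι] [DecidableEq ι]

/-- from one element to the differences of the projections -/
theorem adj_of {ν : ι → Fin (n + 1) → ℝ} {τ : ι → ℂ} (hτ : ∀ i, τ i ≠ 0)
    {q : ι → ℂ} {L : ℕ} (hL : 0 < L) (hq : ∀ i, q i ^ L = 1) (hq1 : ∀ i, q i ≠ 1)
    (hq3 : ∀ i j, i ≠ j → q i ≠ q j)
    (hM : ∀ k, (fun i => 1 + (q i - 1) • Pk (τ i) k) ∈ Mon ν) {X : ι → Matrix (Fin n) (Fin n) ℂ}
    (hX : X ∈ LieS ν) (s : ι) (h0 : ∀ i, q s * q i = 1 → X i = 0) {k l : Fin n} (hkl : (k : ℕ) + 1 = l)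
    {a b c : ℂ} (ha : a ≠ 0) (hc : c ≠ 0) (hab : a * b = -(a + b))
    (hXs : X s = c • ((1 + a • Pk (τ s) k) * (1 + b • Pk (τ s) l) - (1 + a • Pk (τ s) l) * (1 + b • Pk (τ s) k))) :
    Pk (τ s) k - Pk (τ s) l ∈ Gs ν s ∧ Pk (τ s) k * Pk (τ s) l - ((τ s)⁻¹) ^ 2 • Pk (τ s) k ∈ Gs ν s := by
  have hb : b ≠ 0 := by
    intro hb
    rw [hb] at hab
    apply ha
    linear_combination hab
  have h1 := ext_PQ (P := fun i => Pk (τ i) k) (fun i => Pk_idem (hτ i) k) hL hq hq1 hq3 (hM k) hX s h0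
  have h2 := ext_QP (P := fun i => Pk (τ i) l) (fun i => Pk_idem (hτ i) l) hL hq hq1 hq3 (hM l) hX s h0
  have hPQP := Pk_mul_mul (τ := τ s) (k := k) (l := l) (Or.inr hkl)
  have hQPQ := Pk_mul_mul (τ := τ s) (k := l) (l := k) (Or.inl hkl)
  have e1 := two_PQ (Pk_idem (hτ s) k) hPQP hab
  have e2 := two_QP (Pk_idem (hτ s) l) hQPQ hab
  have h3 : Pk (τ s) k * Pk (τ s) l - ((τ s)⁻¹) ^ 2 • Pk (τ s) k ∈ Gs ν s := by
    have h4 : Pk (τ s) k * X s - Pk (τ s) k * X s * Pk (τ s) k ∈ Gs ν s := h1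
    rw [hXs, mul_smul_comm, smul_mul_assoc, ← smul_sub, e1, smul_smul] at h4
    have h5 := (Gs ν s).smul_mem (c * -(2 * a))⁻¹ h4
    rwa [smul_smul, inv_mul_cancel₀ (mul_ne_zero hc (neg_ne_zero.2 (mul_ne_zero two_ne_zero ha))), one_smul] at h5
  have h4 : Pk (τ s) k * Pk (τ s) l - ((τ s)⁻¹) ^ 2 • Pk (τ s) l ∈ Gs ν s := by
    have h4 : X s * Pk (τ s) l - Pk (τ s) l * X s * Pk (τ s) l ∈ Gs ν s := h2
    rw [hXs, mul_smul_comm, smul_mul_assoc, smul_mul_assoc, ← smul_sub, e2, smul_smul] at h4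
    have h5 := (Gs ν s).smul_mem (c * -(2 * b))⁻¹ h4
    rwa [smul_smul, inv_mul_cancel₀ (mul_ne_zero hc (neg_ne_zero.2 (mul_ne_zero two_ne_zero hb))), one_smul] at h5
  refine ⟨?_, h3⟩
  have hγ : ((τ s)⁻¹) ^ 2 ≠ 0 := pow_ne_zero _ (inv_ne_zero (hτ s))
  have h5 := (Gs ν s).smul_mem (((τ s)⁻¹) ^ 2)⁻¹ ((Gs ν s).sub_mem h4 h3)
  have e3 : Pk (τ s) k * Pk (τ s) l - ((τ s)⁻¹) ^ 2 • Pk (τ s) l -
      (Pk (τ s) k * Pk (τ s) l - ((τ s)⁻¹) ^ 2 • Pk (τ s) k) = ((τ s)⁻¹) ^ 2 • (Pk (τ s) k - Pk (τ s) l) := by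
    module
  rwa [e3, smul_smul, inv_mul_cancel₀ hγ, one_smul] at h5

/-- the matrix units off the diagonal -/
theorem single_mem {ν : ι → Fin (n + 1) → ℝ} {τ : ι → ℂ} (hτ : ∀ i, τ i ≠ 0)
    {q : ι → ℂ} {L : ℕ} (hL : 0 < L) (hq : ∀ i, q i ^ L = 1) (hq1 : ∀ i, q i ≠ 1)
    (hq3 : ∀ i j, i ≠ j → q i ≠ q j)
    (hM : ∀ k, (fun i => 1 + (q i - 1) • Pk (τ i) k) ∈ Mon ν) (s : ι) (hs : q s * q s ≠ 1)
    (hspan : Submodule.span ℂ (Set.range (aV (n := n) (τ s))) = ⊤)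
    (hadj : ∀ k l : Fin n, (k : ℕ) + 1 = l → Pk (τ s) k - Pk (τ s) l ∈ Gs ν s ∧
      Pk (τ s) k * Pk (τ s) l - ((τ s)⁻¹) ^ 2 • Pk (τ s) k ∈ Gs ν s)
    (i j : Fin n) (hij : i ≠ j) : Matrix.single i j (1 : ℂ) ∈ Gs ν s := by
  have hn : 0 < n := lt_of_le_of_lt (Nat.zero_le _) i.2
  refine all_single (hτ s) hspan (Gs ν s) (fun X hX Y hY => Gs_bracket hX hY) ⟨0, hn⟩ rfl ?_ hadj i j hij
  intro X hX
  have h0 : ∀ i, q s * q i = 1 → (Pi.single s X : ι → Matrix (Fin n) (Fin n) ℂ) i = 0 := by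
    intro i hi
    by_cases h : i = s
    · subst h
      exact absurd hi hs
    · rw [Pi.single_eq_of_ne h]
  have h1 := ext_PQ (P := fun i => Pk (τ i) ⟨0, hn⟩) (fun i => Pk_idem (hτ i) _) hL hq hq1 hq3 (hM _)
    (mem_Gs.1 hX) s h0
  have h2 := ext_QP (P := fun i => Pk (τ i) ⟨0, hn⟩) (fun i => Pk_idem (hτ i) _) hL hq hq1 hq3 (hM _)
    (mem_Gs.1 hX) s h0
  rw [Pi.single_eq_same] at h1 h2
  have h3 := (Gs ν s).sub_mem h1 h2
  rwa [sub_sub_sub_cancel_right] at h3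

end

end Pool.Agent.Run7.h659.CC
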