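import Pool.Agent.Run7.h659.CC6

/-!
# Constant rational exponents: orders different from three
-/

set_option autoImplicit false
set_option linter.unusedSectionVars false

open Complex

namespace Pool.Agent.Run7.h659.CC

open Pool.Agent.Run7.h659.SE

variable {n : ℕ} {ι : Type}

/-- admissible exponents -/
structure Adm (n : ℕ) (ρ : ι → ℚ) : Prop where
  inj : Function.Injective ρ
  pos : ∀ i, 0 < ρ i
  lt : ∀ i, ρ i < 1 / 2
  den : ∀ i, (ρ i).den ≠ 4 ∧ (ρ i).den ≠ 6 ∧ (ρ i).den ≠ 10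
  int : ∀ i (b : ℤ), ((n : ℚ) + 1) * ρ i ≠ b

/-- the exponents -/
noncomputable def nu (n : ℕ) (ρ : ι → ℚ) : ι → Fin (n + 1) → ℝ := fun i _ => (ρ i : ℝ)

noncomputable def xx (ρ : ι → ℚ) (i : ι) : ℂ := exp (Real.pi * ((ρ i : ℝ) : ℂ) * I)

noncomputable def tu (ρ : ι → ℚ) (i : ι) : ℂ := xx ρ i + (xx ρ i)⁻¹

noncomputable def qu (ρ : ι → ℚ) (i : ι) : ℂ := xx ρ i ^ 4

theorem xx_ne (ρ : ι → ℚ) (i : ι) : xx ρ i ≠ 0 := exp_ne_zero _

theorem xx_sq (ρ : ι → ℚ) (i : ι) : xx ρ i ^ 2 = exp (2 * Real.pi * ((ρ i : ℝ) : ℂ) * I) := by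
  unfold xx
  exact sq_exI _

theorem xx_pow (ρ : ι → ℚ) (i : ι) (m : ℕ) : xx ρ i ^ (2 * m) = exp (2 * Real.pi * (((m : ℝ) * (ρ i : ℝ) : ℝ) : ℂ) * I) := by
  rw [pow_mul, xx_sq, ← exp_nat_mul]
  congr 1
  push_cast
  ring

theorem qu_ne_one {ρ : ι → ℚ} (h : Adm n ρ) (i : ι) : qu ρ i ≠ 1 := by
  intro h1
  unfold qu at h1
  rw [show 4 = 2 * 2 by norm_num, xx_pow] at h1
  obtain ⟨b, hb⟩ := exp_eq_one_real h1
  have h2 : (2 : ℚ) * ρ i = b := by exact_mod_cast hb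
  have h3 := h.pos i
  have h4 := h.lt i
  have h5 : (0 : ℚ) < b := by linarith
  have h6 : (b : ℚ) < 1 := by linarith
  have h7 : 0 < b := by exact_mod_cast h5
  have h8 : b < 1 := by exact_mod_cast h6
  omega

theorem tu_ne {ρ : ι → ℚ} (h : Adm n ρ) (i : ι) : tu ρ i ≠ 0 := by
  intro h1
  apply qu_ne_one h i
  unfold tu at h1
  have h2 := xx_ne ρ i
  have h3 : xx ρ i ^ 2 = -1 := by
    field_simp at h1
    linear_combination h1
  unfold qu
  rw [show 4 = 2 * 2 by norm_num, pow_mul, h3]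
  norm_num

theorem qu_inj {ρ : ι → ℚ} (h : Adm n ρ) (i j : ι) (hij : i ≠ j) : qu ρ i ≠ qu ρ j := by
  intro h1
  apply hij
  apply h.inj
  unfold qu at h1
  rw [show 4 = 2 * 2 by norm_num, xx_pow, xx_pow] at h1
  have h2 : exp (2 * Real.pi * ((((2 : ℕ) : ℝ) * (ρ i : ℝ) - ((2 : ℕ) : ℝ) * (ρ j : ℝ) : ℝ) : ℂ) * I) = 1 := by
    rw [show (2 * Real.pi * ((((2 : ℕ) : ℝ) * (ρ i : ℝ) - ((2 : ℕ) : ℝ) * (ρ j : ℝ) : ℝ) : ℂ) * I : ℂ) =
      2 * Real.pi * ((((2 : ℕ) : ℝ) * (ρ i : ℝ) : ℝ) : ℂ) * I - 2 * Real.pi * ((((2 : ℕ) : ℝ) * (ρ j : ℝ) : ℝ) : ℂ) * I by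
        push_cast; ring, exp_sub, h1, div_self (exp_ne_zero _)]
  obtain ⟨b, hb⟩ := exp_eq_one_real h2
  have h3 : (2 : ℚ) * ρ i - 2 * ρ j = b := by exact_mod_cast hb
  have a1 := h.pos i
  have a2 := h.lt i
  have a3 := h.pos j
  have a4 := h.lt j
  have h5 : (-1 : ℚ) < b := by linarith
  have h6 : (b : ℚ) < 1 := by linarith
  have h7 : -1 < b := by exact_mod_cast h5
  have h8 : b < 1 := by exact_mod_cast h6
  have h9 : b = 0 := by omega
  rw [h9] at h3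
  push_cast at h3
  linarith

theorem qu_mul {ρ : ι → ℚ} (h : Adm n ρ) (i j : ι) (hij : qu ρ i * qu ρ j = 1) : ρ i + ρ j = 1 / 2 := by
  unfold qu at hij
  rw [show 4 = 2 * 2 by norm_num, xx_pow, xx_pow, ← exp_add] at hij
  have h2 : exp (2 * Real.pi * ((((2 : ℕ) : ℝ) * (ρ i : ℝ) + ((2 : ℕ) : ℝ) * (ρ j : ℝ) : ℝ) : ℂ) * I) = 1 := by
    rw [← hij]
    congr 1
    push_cast; ring
  obtain ⟨b, hb⟩ := exp_eq_one_real h2
  have h3 : (2 : ℚ) * ρ i + 2 * ρ j = b := by exact_mod_cast hb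
  have a1 := h.pos i
  have a2 := h.lt i
  have a3 := h.pos j
  have a4 := h.lt j
  have h5 : (0 : ℚ) < b := by linarith
  have h6 : (b : ℚ) < 2 := by linarith
  have h7 : 0 < b := by exact_mod_cast h5
  have h8 : b < 2 := by exact_mod_cast h6
  have h9 : b = 1 := by omega
  rw [h9] at h3
  push_cast at h3
  linarith

theorem qu_self {ρ : ι → ℚ} (h : Adm n ρ) (i : ι) : qu ρ i * qu ρ i ≠ 1 := by
  intro h1
  have h2 := qu_mul h i i h1
  have h3 : ρ i = 1 / 4 := by linarith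
  apply (h.den i).1
  rw [h3]
  norm_num

/-- the common order -/
noncomputable def LL [Fintype ι] (ρ : ι → ℚ) : ℕ := ∏ i, (ρ i).den

theorem LL_pos [Fintype ι] (ρ : ι → ℚ) : 0 < LL ρ := Finset.prod_pos fun i _ => (ρ i).den_pos

theorem qu_pow [Fintype ι] (ρ : ι → ℚ) (i : ι) : qu ρ i ^ LL ρ = 1 := by
  obtain ⟨m, hm⟩ : (ρ i).den ∣ LL ρ := Finset.dvd_prod_of_mem _ (Finset.mem_univ i)
  have h1 : (LL ρ : ℚ) * ρ i = (m : ℤ) * (ρ i).num := by
    have h2 := Rat.mul_den_eq_num (ρ i)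
    rw [hm]
    push_cast
    linear_combination (m : ℚ) * h2
  unfold qu
  rw [← pow_mul, show 4 * LL ρ = 2 * (2 * LL ρ) by ring, xx_pow, exp_eq_one_iff]
  refine ⟨2 * (m * (ρ i).num), ?_⟩
  have h3 : ((LL ρ : ℝ) * (ρ i : ℝ) : ℝ) = (m : ℝ) * (ρ i).num := by exact_mod_cast h1
  have h4 : (((2 * LL ρ : ℕ) : ℝ) * (ρ i : ℝ) : ℝ) = 2 * ((m : ℝ) * (ρ i).num) := by
    rw [← h3]
    push_cast; ring
  rw [h4]
  push_cast
  ring

theorem mem_refl [Fintype ι] {ρ : ι → ℚ} (h : Adm n ρ) (k : Fin n) :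
    (fun i => 1 + (qu ρ i - 1) • Pk (tu ρ i) k) ∈ Mon (nu n ρ) := by
  have h1 := mono_mem (ν := nu n ρ) (fun i k => ⟨by
    have := h.pos i
    have h2 : (0 : ℝ) < ρ i := by exact_mod_cast this
    exact h2.le, by
    have := h.lt i
    have h2 : (ρ i : ℝ) < ((1 / 2 : ℚ) : ℝ) := by exact_mod_cast this
    push_cast at h2
    show (ρ i : ℝ) < 1
    linarith⟩) k
  convert h1 using 1
  funext i
  exact (Tk_Pk (xx_ne ρ i) (tu_ne h i) k).symm

/-- the real trace -/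
theorem ureal (ρ : ι → ℚ) (i : ι) : xx ρ i ^ 2 + (xx ρ i ^ 2)⁻¹ = ((2 * Real.cos (2 * Real.pi * (ρ i : ℝ)) : ℝ) : ℂ) := by
  rw [xx_sq, ← exp_neg]
  push_cast
  rw [Complex.cos]
  have e1 : (-(2 * (Real.pi : ℂ) * (ρ i : ℂ) * I)) = -(2 * Real.pi * (ρ i : ℂ)) * I := by ring
  rw [← e1]
  ring

theorem u_bounds {ρ : ι → ℚ} (h : Adm n ρ) (i : ι) : -2 < 2 * Real.cos (2 * Real.pi * (ρ i : ℝ)) ∧
    2 * Real.cos (2 * Real.pi * (ρ i : ℝ)) < 2 := by
  have h1 : (0 : ℝ) < ρ i := by exact_mod_cast h.pos i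
  have h2 : (ρ i : ℝ) < 1 / 2 := by
    have h3 : (ρ i : ℝ) < ((1 / 2 : ℚ) : ℝ) := by exact_mod_cast h.lt i
    push_cast at h3
    exact h3
  have hπ := Real.pi_pos
  constructor
  · have h3 := Real.cos_lt_cos_of_nonneg_of_le_pi (x := 2 * Real.pi * (ρ i : ℝ)) (y := Real.pi) (by positivity)
      le_rfl (by nlinarith)
    rw [Real.cos_pi] at h3
    linarith
  · have h3 := Real.cos_lt_cos_of_nonneg_of_le_pi (x := 0) (y := 2 * Real.pi * (ρ i : ℝ)) le_rfl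
      (by nlinarith) (by positivity)
    rw [Real.cos_zero] at h3
    linarith

theorem u_ne {ρ : ι → ℚ} (h : Adm n ρ) (i : ι) (h3 : (ρ i).den ≠ 3) :
    2 * Real.cos (2 * Real.pi * (ρ i : ℝ)) ≠ -1 ∧ 2 * Real.cos (2 * Real.pi * (ρ i : ℝ)) ≠ 1 := by
  have key : (xx ρ i ^ 2) ^ 6 ≠ 1 := by
    intro h1
    rw [← pow_mul, xx_pow] at h1
    obtain ⟨b, hb⟩ := exp_eq_one_real h1
    have h2 : (6 : ℚ) * ρ i = b := by exact_mod_cast hb
    have a1 := h.pos i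
    have a2 := h.lt i
    have h5 : (0 : ℚ) < b := by linarith
    have h6 : (b : ℚ) < 3 := by linarith
    have h7 : 0 < b := by exact_mod_cast h5
    have h8 : b < 3 := by exact_mod_cast h6
    have h9 : b = 1 ∨ b = 2 := by omega
    rcases h9 with h9 | h9
    · rw [h9] at h2
      push_cast at h2
      have h10 : ρ i = 1 / 6 := by linarith
      apply (h.den i).2.1
      rw [h10]; norm_num
    · rw [h9] at h2
      push_cast at h2
      have h10 : ρ i = 1 / 3 := by linarith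
      apply h3
      rw [h10]; norm_num
  have hy : xx ρ i ^ 2 ≠ 0 := pow_ne_zero _ (xx_ne ρ i)
  constructor
  · intro h1
    have h2 := ureal ρ i
    rw [h1] at h2
    apply key
    push_cast at h2
    set y := xx ρ i ^ 2
    have h4 : y ^ 2 + y + 1 = 0 := by
      field_simp at h2
      linear_combination h2
    linear_combination (y ^ 4 - y ^ 3 + y - 1) * h4
  · intro h1
    have h2 := ureal ρ i
    rw [h1] at h2
    apply key
    push_cast at h2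
    set y := xx ρ i ^ 2
    have h4 : y ^ 2 - y + 1 = 0 := by
      field_simp at h2
      linear_combination h2
    linear_combination (y ^ 4 + y ^ 3 - y - 1) * h4

theorem sq_one {z : ℂ} (h : z ^ 2 = 1) : z = 1 ∨ z = -1 := by
  have h1 : (z - 1) * (z + 1) = 0 := by linear_combination h
  rcases mul_eq_zero.1 h1 with h2 | h2
  · left; linear_combination h2
  · right; linear_combination h2

/-- the trace is not plus or minus two -/
theorem tt_ne {ρ : ι → ℚ} (h : Adm n ρ) (i : ι) (h3 : (ρ i).den ≠ 3) {z : ℂ} (hz0 : z ≠ 0)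
    (hz : z + z⁻¹ = tt (xx ρ i ^ 2 + (xx ρ i ^ 2)⁻¹)) : z ^ 2 ≠ 1 := by
  intro h1
  have hu := u_bounds h i
  have hn := u_ne h i h3
  set u := 2 * Real.cos (2 * Real.pi * (ρ i : ℝ)) with hudef
  rw [ureal, ← hudef] at hz
  have e1 : tt ((u : ℝ) : ℂ) = ((tt u : ℝ) : ℂ) := (tt_map Complex.ofRealHom u).symm
  rw [e1] at hz
  have h4 : (((tt u : ℝ) : ℂ)) = 2 ∨ (((tt u : ℝ) : ℂ)) = -2 := by
    rcases sq_one h1 with h5 | h5
    · left
      rw [← hz, h5]; norm_num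
    · right
      rw [← hz, h5]; norm_num
  have h5 : tt u = 2 ∨ tt u = -2 := by
    rcases h4 with h5 | h5
    · left; exact_mod_cast h5
    · right; exact_mod_cast h5
  rcases lt_trichotomy u (-1) with h6 | h6 | h6
  · have := tt_gt h6
    rcases h5 with h7 | h7 <;> linarith
  · exact hn.1 h6
  · have a1 := tt_lt h6 hu.2
    have a2 := tt_lt2 h6 hu.2 hn.2
    rcases h5 with h7 | h7 <;> linarith

end Pool.Agent.Run7.h659.CC
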