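import Pool.Agent.Run7.h659.CC7

/-!
# Constant rational exponents: the elements of the Lie algebra given by a conjugate embedding
-/

set_option autoImplicit false
set_option linter.unusedSectionVars false

open Complex

namespace Pool.Agent.Run7.h659.CC

open Pool.Agent.Run7.h659.SE

variable {n : ℕ} {ι : Type}

/-- the product of a power of a reflection and the inverse power of another one -/
noncomputable def hh (ρ : ι → ℚ) (e : ℕ) (k l : Fin n) (i : ι) : Matrix (Fin n) (Fin n) ℂ :=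
  (1 + (qu ρ i ^ e - 1) • Pk (tu ρ i) k) * (1 + ((qu ρ i)⁻¹ ^ e - 1) • Pk (tu ρ i) l)

theorem qu_ne (ρ : ι → ℚ) (i : ι) : qu ρ i ≠ 0 := pow_ne_zero _ (xx_ne ρ i)

theorem ab_rel (ρ : ι → ℚ) (e : ℕ) (i : ι) : (qu ρ i ^ e - 1) * ((qu ρ i)⁻¹ ^ e - 1) =
    -((qu ρ i ^ e - 1) + ((qu ρ i)⁻¹ ^ e - 1)) := by
  have h : qu ρ i ^ e * (qu ρ i)⁻¹ ^ e = 1 := by
    rw [← mul_pow, mul_inv_cancel₀ (qu_ne ρ i), one_pow]
  linear_combination h

theorem hh_inv {ρ : ι → ℚ} (h : Adm n ρ) (e : ℕ) {k l : Fin n} (i : ι) : hh ρ e k l i * hh ρ e l k i = 1 :=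
  two_mul_inv (Pk_idem (tu_ne h i) k) (Pk_idem (tu_ne h i) l) (ab_rel ρ e i)

theorem hh_cub {ρ : ι → ℚ} (h : Adm n ρ) (e : ℕ) {k l : Fin n} (hkl : (k : ℕ) + 1 = l) (i : ι) :
    (hh ρ e k l i - 1) * (hh ρ e k l i + hh ρ e l k i -
      (2 + ((qu ρ i ^ e - 1) + ((qu ρ i)⁻¹ ^ e - 1)) * (1 - ((tu ρ i)⁻¹) ^ 2)) • (1 : Matrix (Fin n) (Fin n) ℂ)) = 0 :=
  two_cub (Pk_idem (tu_ne h i) k) (Pk_idem (tu_ne h i) l) (Pk_mul_mul (Or.inr hkl)) (Pk_mul_mul (Or.inl hkl))
    (ab_rel ρ e i)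

theorem hh_mem [Fintype ι] {ρ : ι → ℚ} (h : Adm n ρ) (e : ℕ) (k l : Fin n) : hh ρ e k l ∈ Mon (nu n ρ) := by
  have h1 := (Mon (nu n ρ)).pow_mem (mem_refl h k) e
  have h2 := (Mon (nu n ρ)).pow_mem (mem_refl h l) ((LL ρ - 1) * e)
  have h3 := (Mon (nu n ρ)).mul_mem h1 h2
  convert h3 using 1
  funext i
  rw [Pi.mul_apply, Pi.pow_apply, Pi.pow_apply, idem_pow (Pk_idem (tu_ne h i) k), idem_pow (Pk_idem (tu_ne h i) l)]
  unfold hh
  have h4 : qu ρ i ^ (LL ρ - 1) = (qu ρ i)⁻¹ := by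
    apply eq_inv_of_mul_eq_one_left
    rw [← pow_succ, Nat.sub_add_cancel (LL_pos ρ), qu_pow]
  rw [pow_mul, h4]

theorem tr_eq {ρ : ι → ℚ} (h : Adm n ρ) (i : ι) :
    2 + ((qu ρ i ^ 3 - 1) + ((qu ρ i)⁻¹ ^ 3 - 1)) * (1 - ((tu ρ i)⁻¹) ^ 2) =
      tt (xx ρ i ^ 2 + (xx ρ i ^ 2)⁻¹) := by
  have hx := xx_ne ρ i
  rw [← tt_eq (y := xx ρ i ^ 2) (τ := tu ρ i) (pow_ne_zero _ hx) (tu_ne h i)]
  · unfold qu
    congr 2
    congr 1
    · ring
    · field_simp
  · unfold tu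
    field_simp
    ring

/-- **The elements of the Lie algebra.** -/
theorem hyp_elem [Fintype ι] [DecidableEq ι] {ρ : ι → ℚ} (h : Adm n ρ) (s : ι) (h3 : (ρ s).den ≠ 3) {k l : Fin n}
    (hkl : (k : ℕ) + 1 = l) :
    ∃ X ∈ LieS (nu n ρ), (∀ i, qu ρ s * qu ρ i = 1 → X i = 0) ∧ ∃ c : ℂ, c ≠ 0 ∧
      X s = c • (hh ρ 3 k l s - hh ρ 3 l k s) := by
  -- the conjugate
  have hN5 : 5 ≤ (ρ s).den := by
    have h1 := (ρ s).den_pos
    have h2 := h.den s
    have hne1 : (ρ s).den ≠ 1 := by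
      intro h4
      have h5 := Rat.mul_den_eq_num (ρ s)
      rw [h4] at h5
      have a1 := h.pos s
      have a2 := h.lt s
      have a3 : (0 : ℚ) < (ρ s).num := by rw [← h5]; push_cast; linarith
      have a4 : (((ρ s).num : ℤ) : ℚ) < 1 := by rw [← h5]; push_cast; linarith
      have a5 : 0 < (ρ s).num := by exact_mod_cast a3
      have a6 : (ρ s).num < 1 := by exact_mod_cast a4
      omega
    have hne2 : (ρ s).den ≠ 2 := by
      intro h4
      have h5 := Rat.mul_den_eq_num (ρ s)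
      rw [h4] at h5
      have a1 := h.pos s
      have a2 := h.lt s
      have a3 : (0 : ℚ) < (ρ s).num := by rw [← h5]; push_cast; linarith
      have a4 : (((ρ s).num : ℤ) : ℚ) < 1 := by rw [← h5]; push_cast; linarith
      have a5 : 0 < (ρ s).num := by exact_mod_cast a3
      have a6 : (ρ s).num < 1 := by exact_mod_cast a4
      omega
    omega
  obtain ⟨r, hr, hr1, hr2⟩ := exists_r hN5 (h.den s).2.1 (h.den s).2.2
  obtain ⟨j, j', y, hy, hys⟩ := exists_emb ρ s hr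
  have hyx : ∀ i, j (y i) = xx ρ i ^ 2 := by
    intro i
    rw [hy, xx_sq]
    congr 1
    push_cast; ring
  have hy0 : ∀ i, y i ≠ 0 := by
    intro i h0
    have h1 := hyx i
    rw [h0, map_zero] at h1
    exact pow_ne_zero 2 (xx_ne ρ i) h1.symm
  -- the conjugate trace
  set U : ℝ := 2 * Real.cos (2 * Real.pi * ((r : ℝ) / ((ρ s).den : ℝ))) with hU
  have hUe : j' (y s) + (j' (y s))⁻¹ = ((U : ℝ) : ℂ) := by
    rw [hys, ← exp_neg, hU]
    push_cast
    rw [Complex.cos]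
    have e1 : (-(2 * (Real.pi : ℂ) * I * ((r : ℂ) / ((ρ s).den : ℂ)))) =
      -(2 * Real.pi * ((r : ℂ) / ((ρ s).den : ℂ))) * I := by ring
    have e2 : (2 * (Real.pi : ℂ) * I * ((r : ℂ) / ((ρ s).den : ℂ))) =
      (2 * Real.pi * ((r : ℂ) / ((ρ s).den : ℂ))) * I := by ring
    rw [e1, e2]
    ring
  have hden0 : (0 : ℝ) < (ρ s).den := by exact_mod_cast (ρ s).den_pos
  have hx1 : (1 / 3 : ℝ) < (r : ℝ) / ((ρ s).den : ℝ) := by
    rw [lt_div_iff₀ hden0]
    have : ((ρ s).den : ℝ) < 3 * r := by exact_mod_cast hr1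
    linarith
  have hx2 : (r : ℝ) / ((ρ s).den : ℝ) < 1 / 2 := by
    rw [div_lt_iff₀ hden0]
    have : 2 * (r : ℝ) < (ρ s).den := by exact_mod_cast hr2
    linarith
  have hπ := Real.pi_pos
  have hU1 : -2 < U := by
    have h4 := Real.cos_lt_cos_of_nonneg_of_le_pi (x := 2 * Real.pi * ((r : ℝ) / ((ρ s).den : ℝ))) (y := Real.pi)
      (by positivity) le_rfl (by nlinarith)
    rw [Real.cos_pi] at h4
    rw [hU]; linarith
  have hU2 : U < -1 := by
    have h4 := Real.cos_lt_cos_of_nonneg_of_le_pi (x := Real.pi - Real.pi / 3)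
      (y := 2 * Real.pi * ((r : ℝ) / ((ρ s).den : ℝ)))
      (by linarith) (by nlinarith) (by nlinarith)
    rw [Real.cos_pi_sub, Real.cos_pi_div_three] at h4
    rw [hU]; linarith
  -- the eigenvalues
  have hc : ∀ i, ∃ c : QA, c ≠ 0 ∧ c + c⁻¹ = tt (y i + (y i)⁻¹) := by
    intro i
    have hdeg : (Polynomial.X ^ 2 - Polynomial.C (tt (y i + (y i)⁻¹)) * Polynomial.X + 1 : Polynomial QA).degree ≠ 0 := by
      have : (Polynomial.X ^ 2 - Polynomial.C (tt (y i + (y i)⁻¹)) * Polynomial.X + 1 : Polynomial QA).degree = 2 := by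
        compute_degree!
      rw [this]; norm_num
    obtain ⟨c, hc⟩ := IsAlgClosed.exists_root _ hdeg
    rw [Polynomial.IsRoot.def] at hc
    simp only [Polynomial.eval_add, Polynomial.eval_sub, Polynomial.eval_pow, Polynomial.eval_X, Polynomial.eval_mul,
      Polynomial.eval_C, Polynomial.eval_one] at hc
    have hc0 : c ≠ 0 := by
      intro h0
      rw [h0] at hc
      norm_num at hc
    refine ⟨c, hc0, ?_⟩
    have h4 : c * (c + c⁻¹) = c * tt (y i + (y i)⁻¹) := by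
      rw [mul_add, mul_inv_cancel₀ hc0]
      linear_combination hc
    exact mul_left_cancel₀ hc0 h4
  choose c hc0 hc using hc
  have hjc : ∀ i, j (c i) + (j (c i))⁻¹ = tt (xx ρ i ^ 2 + (xx ρ i ^ 2)⁻¹) := by
    intro i
    rw [← map_inv₀, ← map_add, hc, tt_map, map_add, map_inv₀, hyx]
  -- the decompositions
  have hdec : ∀ i, ∃ Ap Am A0 : Matrix (Fin n) (Fin n) ℂ, Ap + Am + A0 = 1 ∧
      (∀ m : ℕ, hh ρ 3 k l i ^ m = j (c i) ^ m • Ap + (j (c i))⁻¹ ^ m • Am + A0) ∧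
      ∃ d : ℂ, d ≠ 0 ∧ Ap - Am = d • (hh ρ 3 k l i - hh ρ 3 l k i) := by
    intro i
    by_cases hi : (ρ i).den = 3
    · have hq3 : qu ρ i ^ 3 = 1 := by
        unfold qu
        rw [← pow_mul, show 4 * 3 = 2 * 6 by norm_num, xx_pow, exp_eq_one_iff]
        refine ⟨2 * (ρ i).num, ?_⟩
        have h4 := Rat.mul_den_eq_num (ρ i)
        rw [hi] at h4
        have h5 : ((ρ i : ℝ)) * 3 = ((ρ i).num : ℝ) := by exact_mod_cast h4
        have h6 : (((6 : ℕ) : ℝ) * (ρ i : ℝ) : ℝ) = 2 * ((ρ i).num : ℝ) := by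
          rw [← h5]; push_cast; ring
        rw [h6]
        push_cast
        ring
      have h1 : ∀ k l : Fin n, hh ρ 3 k l i = 1 := by
        intro k l
        unfold hh
        rw [inv_pow, hq3]
        simp
      refine ⟨0, 0, 1, by simp, fun m => by rw [h1]; simp, 1, one_ne_zero, by rw [h1, h1]; simp⟩
    · have h4 : j (c i) ≠ 0 := (map_ne_zero j).2 (hc0 i)
      have h5 := tt_ne h i hi h4 (hjc i)
      obtain ⟨Ap, Am, A0, e1, e2, e3⟩ := spec (hh_inv h 3 i) h4 h5 (by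
        have h6 := hh_cub h 3 hkl i
        rw [tr_eq h, ← hjc] at h6
        exact h6)
      refine ⟨Ap, Am, A0, e1, e2, _, ?_, e3⟩
      apply inv_ne_zero
      intro h6
      apply h5
      rw [sub_eq_zero] at h6
      rw [pow_two]
      nth_rewrite 2 [h6]
      exact mul_inv_cancel₀ h4
  choose Ap Am A0 e1 e2 d hd e3 using hdec
  set α : QA → ℂ := fun z => ((Real.log ‖j' z‖ : ℝ) : ℂ) with hα
  have hαm : ∀ x y : QA, x ≠ 0 → y ≠ 0 → α (x * y) = α x + α y := by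
    intro x y hx hy
    simp only [hα]
    rw [map_mul, norm_mul, Real.log_mul]
    · push_cast; rfl
    · rw [norm_ne_zero_iff]; exact (map_ne_zero j').2 hx
    · rw [norm_ne_zero_iff]; exact (map_ne_zero j').2 hy
  have hX := torus_mem (ν := nu n ρ) j c hc0 α hαm Ap Am A0 e1 (by
    intro m
    have h4 := (Mon (nu n ρ)).pow_mem (hh_mem h 3 k l) m
    convert h4 using 1
    funext i
    exact (e2 i m).symm)
  have hj'c : ∀ i, j' (c i) + (j' (c i))⁻¹ = tt (j' (y i) + (j' (y i))⁻¹) := by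
    intro i
    rw [← map_inv₀, ← map_add, hc, tt_map, map_add, map_inv₀]
  refine ⟨_, hX, ?_, α (c s) * d s, ?_, ?_⟩
  · intro i hi
    have h4 := qu_mul h s i hi
    have h5 : y i = -(y s)⁻¹ := by
      apply j.injective
      rw [map_neg, map_inv₀, hy, hy, ← exp_neg]
      have h6 : (ρ i : ℂ) = 1 / 2 - (ρ s : ℂ) := by
        have h7 : ρ i = 1 / 2 - ρ s := by linarith
        rw [h7]
        push_cast; ring
      rw [h6, show (2 * Real.pi * I * (1 / 2 - (ρ s : ℂ)) : ℂ) = Real.pi * I + -(2 * Real.pi * I * (ρ s : ℂ)) by ring,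
        exp_add, exp_pi_mul_I]
      ring
    have h6 : j' (y i) + (j' (y i))⁻¹ = ((-U : ℝ) : ℂ) := by
      rw [h5, map_neg, map_inv₀]
      push_cast
      rw [← hUe, inv_neg, inv_inv]
      ring
    have h7 := hj'c i
    rw [h6] at h7
    have e5 : tt (((-U : ℝ) : ℂ)) = ((tt (-U) : ℝ) : ℂ) := (tt_map Complex.ofRealHom (-U)).symm
    rw [e5] at h7
    have h8 := norm_of_lt ((map_ne_zero j').2 (hc0 i)) h7 (tt_lt (by linarith) (by linarith))
      (tt_lt2 (by linarith) (by linarith) (by linarith))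
    simp only [hα]
    rw [h8, Real.log_one]
    simp
  · refine mul_ne_zero ?_ (hd s)
    simp only [hα]
    have h7 := hj'c s
    rw [hUe] at h7
    have e5 : tt (((U : ℝ) : ℂ)) = ((tt U : ℝ) : ℂ) := (tt_map Complex.ofRealHom U).symm
    rw [e5] at h7
    have h8 := norm_of_gt h7 (tt_gt hU2)
    have h9 : 0 < ‖j' (c s)‖ := norm_pos_iff.2 ((map_ne_zero j').2 (hc0 s))
    have h10 : Real.log ‖j' (c s)‖ ≠ 0 := by
      intro h11
      rcases Real.log_eq_zero.1 h11 with h12 | h12 | h12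
      · linarith
      · exact h8 h12
      · linarith
    exact_mod_cast h10
  · change α (c s) • (Ap s - Am s) = _
    rw [e3, smul_smul]

end Pool.Agent.Run7.h659.CC
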