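import Pool.Agent.Run7.h659.CC8

/-!
# Constant rational exponents: the product of the special linear groups
-/

set_option autoImplicit false
set_option linter.unusedSectionVars false

open Complex

namespace Pool.Agent.Run7.h659.CC

open Pool.Agent.Run7.h659.SE

variable {n : ℕ} {ι : Type}

/-! ## special linear groups -/

section ring

variable {R : Type} [Ring R] [Algebra ℂ R] {E F : R}

theorem weyl (hE : E * E = 0) (hEFE : E * F * E = E) {a b : ℂ} (hab : a * b = 1) :
    (1 + a • E) * (1 + (-b) • F) * (1 + a • E) = 1 + a • E - b • F - E * F - F * E := by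
  have h1 : (1 + a • E) * (1 + (-b) • F) = 1 + a • E - b • F - E * F := by
    rw [mul_add, mul_one, add_mul, one_mul, smul_mul_smul_comm, mul_neg, hab]
    module
  rw [h1, mul_add, mul_one, mul_smul_comm, sub_mul, sub_mul, add_mul, one_mul, smul_mul_assoc, smul_mul_assoc, hE,
    hEFE]
  have h2 : a • (E + a • 0 - b • (F * E) - E) = -((a * b) • (F * E)) := by module
  rw [h2, hab]
  module

theorem torus_prod (hE : E * E = 0) (hF : F * F = 0) (hEFE : E * F * E = E) (hFEF : F * E * F = F) {a b : ℂ}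
    (hab : a * b = 1) :
    ((1 + a • E) * (1 + (-b) • F) * (1 + a • E)) * ((1 + (-1 : ℂ) • E) * (1 + (-(-1 : ℂ)) • F) * (1 + (-1 : ℂ) • E)) =
      1 + (a - 1) • (E * F) + (b - 1) • (F * E) := by
  rw [weyl hE hEFE hab, weyl hE hEFE (show (-1 : ℂ) * (-1) = 1 by norm_num)]
  have k1 : E * (E * F) = 0 := by rw [← mul_assoc, hE, zero_mul]
  have k2 : E * (F * E) = E := by rw [← mul_assoc, hEFE]
  have k3 : F * (E * F) = F := by rw [← mul_assoc, hFEF]
  have k4 : F * (F * E) = 0 := by rw [← mul_assoc, hF, zero_mul]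
  have k5 : E * F * E = E := hEFE
  have k6 : E * F * F = 0 := by rw [mul_assoc, hF, mul_zero]
  have k7 : F * E * E = 0 := by rw [mul_assoc, hE, mul_zero]
  have k8 : F * E * F = F := hFEF
  have k9 : E * F * (E * F) = E * F := by rw [← mul_assoc, hEFE]
  have k10 : E * F * (F * E) = 0 := by rw [← mul_assoc, k6, zero_mul]
  have k11 : F * E * (E * F) = 0 := by rw [← mul_assoc, k7, zero_mul]
  have k12 : F * E * (F * E) = F * E := by rw [← mul_assoc, hFEF]
  simp only [mul_add, mul_sub, add_mul, sub_mul, mul_one, one_mul, smul_mul_assoc, mul_smul_comm, hE, hF, k1, k2, k3,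
    k4, k5, k6, k7, k8, k9, k10, k11, k12]
  module

end ring

/-- the special linear group is generated by the transvections -/
theorem sl_ind (p : Matrix (Fin n) (Fin n) ℂ → Prop) (h1 : p 1) (hmul : ∀ A B, p A → p B → p (A * B))
    (htr : ∀ i j : Fin n, i ≠ j → ∀ c : ℂ, p (1 + c • Matrix.single i j (1 : ℂ))) (g : Matrix (Fin n) (Fin n) ℂ)
    (hg : g.det = 1) : p g := by
  rcases Nat.lt_or_ge n 2 with hn | hn
  · have : g = 1 := by
      interval_cases n
      · ext i j; exact i.elim0
      · rw [Matrix.det_fin_one] at hg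
        ext i j
        have hi : i = 0 := Subsingleton.elim _ _
        have hj : j = 0 := Subsingleton.elim _ _
        rw [hi, hj, hg]; simp
    rw [this]; exact h1
  · have : Nontrivial (Fin n) := Fin.nontrivial_iff_two_le.2 hn
    have hsingle : ∀ (i j : Fin n) (c : ℂ), Matrix.single i j c = c • Matrix.single i j (1 : ℂ) := by
      intro i j c
      rw [Matrix.smul_single, smul_eq_mul, mul_one]
    refine Matrix.SpecialLinearGroup.diagonal_transvection_induction' (F := ℂ) (fun g => p g.1) ⟨g, hg⟩ ?_ ?_ ?_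
    · intro i j hij c hc
      change p (Matrix.SpecialLinearGroup.diag2n hij c hc).1
      rw [Matrix.SpecialLinearGroup.diag2n_coe]
      have e1 : Matrix.single i j (1 : ℂ) * Matrix.single j i (1 : ℂ) = Matrix.single i i (1 : ℂ) := by
        rw [Matrix.single_mul_single_same, mul_one]
      have e2 : Matrix.single j i (1 : ℂ) * Matrix.single i j (1 : ℂ) = Matrix.single j j (1 : ℂ) := by
        rw [Matrix.single_mul_single_same, mul_one]
      have h2 := torus_prod (E := Matrix.single i j (1 : ℂ)) (F := Matrix.single j i (1 : ℂ)) (a := c) (b := c⁻¹)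
        (Matrix.single_mul_single_of_ne _ _ _ _ hij.symm _) (Matrix.single_mul_single_of_ne _ _ _ _ hij _)
        (by rw [e1, Matrix.single_mul_single_same, mul_one]) (by rw [e2, Matrix.single_mul_single_same, mul_one])
        (mul_inv_cancel₀ hc)
      have h3 : Matrix.diagonal (fun k => if k = i then c else if k = j then c⁻¹ else 1) =
          1 + (c - 1) • Matrix.single i i (1 : ℂ) + (c⁻¹ - 1) • Matrix.single j j (1 : ℂ) := by
        ext a b
        simp only [Matrix.diagonal_apply, Matrix.add_apply, Matrix.one_apply, Matrix.smul_apply, Matrix.single_apply,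
          smul_eq_mul]
        by_cases hab : a = b
        · subst hab
          by_cases hai : a = i
          · subst hai
            simp [hij.symm]
          · by_cases haj : a = j
            · subst haj
              simp [hij, hai]
            · simp [hai, haj, Ne.symm hai, Ne.symm haj]
        · have h4 : ¬ (i = a ∧ i = b) := by
            rintro ⟨h5, h6⟩
            exact hab (h5.symm.trans h6)
          have h5 : ¬ (j = a ∧ j = b) := by
            rintro ⟨h5, h6⟩
            exact hab (h5.symm.trans h6)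
          simp [hab, h4, h5]
      rw [h3, ← e1, ← e2, ← h2]
      exact hmul _ _ (hmul _ _ (hmul _ _ (htr _ _ hij _) (htr _ _ hij.symm _)) (htr _ _ hij _))
        (hmul _ _ (hmul _ _ (htr _ _ hij _) (htr _ _ hij.symm _)) (htr _ _ hij _))
    · intro i j hij a
      change p (Matrix.SpecialLinearGroup.transvection hij a).1
      rw [Matrix.SpecialLinearGroup.transvection_coe, hsingle]
      exact htr i j hij a
    · intro A B hA hB
      exact hmul _ _ hA hB

/-- products of special linear groups are generated by the transvections in the components -/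
theorem sl_pi [Fintype ι] [DecidableEq ι] (M : Submonoid (ι → Matrix (Fin n) (Fin n) ℂ))
    (h : ∀ s (g : Matrix (Fin n) (Fin n) ℂ), g.det = 1 → (Pi.mulSingle s g : ι → Matrix (Fin n) (Fin n) ℂ) ∈ M)
    (g : ι → Matrix (Fin n) (Fin n) ℂ) (hg : ∀ s, (g s).det = 1) : g ∈ M := by
  have h1 : ∀ t : Finset ι, (fun i => if i ∈ t then g i else 1) ∈ M := by
    intro t
    induction t using Finset.induction_on with
    | empty =>
      simp only [Finset.notMem_empty, if_false]
      exact M.one_mem
    | insert a t ha ih =>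
      have h2 := M.mul_mem (h a (g a) (hg a)) ih
      have h3 : ((Pi.mulSingle a (g a) : ι → Matrix (Fin n) (Fin n) ℂ) * fun i => if i ∈ t then g i else 1) =
          fun i => if i ∈ insert a t then g i else 1 := by
        funext i
        rw [Pi.mul_apply]
        by_cases h4 : i = a
        · subst h4
          simp [ha]
        · rw [Pi.mulSingle_eq_of_ne h4, one_mul]
          simp [h4]
      rw [← h3]
      exact h2
  have h2 := h1 Finset.univ
  simpa using h2

theorem single_sl [DecidableEq ι] (M : Submonoid (ι → Matrix (Fin n) (Fin n) ℂ)) (s : ι)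
    (h : ∀ i j : Fin n, i ≠ j → ∀ c : ℂ, (Pi.mulSingle s (1 + c • Matrix.single i j (1 : ℂ)) :
      ι → Matrix (Fin n) (Fin n) ℂ) ∈ M) (g : Matrix (Fin n) (Fin n) ℂ) (hg : g.det = 1) :
    (Pi.mulSingle s g : ι → Matrix (Fin n) (Fin n) ℂ) ∈ M := by
  refine sl_ind (fun g => (Pi.mulSingle s g : ι → Matrix (Fin n) (Fin n) ℂ) ∈ M) ?_ ?_ h g hg
  · rw [Pi.mulSingle_one]; exact M.one_mem
  · intro A B hA hB
    rw [Pi.mulSingle_mul]
    exact M.mul_mem hA hB

theorem tr_of_single [Fintype ι] [DecidableEq ι] {ν : ι → Fin (n + 1) → ℝ} (s : ι) {i j : Fin n} (hij : i ≠ j)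
    (h : Matrix.single i j (1 : ℂ) ∈ Gs ν s) (c : ℂ) :
    (Pi.mulSingle s (1 + c • Matrix.single i j (1 : ℂ)) : ι → Matrix (Fin n) (Fin n) ℂ) ∈ Mon ν := by
  have h1 := exp_mem (mem_Gs.1 h) (by
    funext t
    rw [Pi.mul_apply]
    by_cases ht : t = s
    · subst ht
      rw [Pi.single_eq_same, Matrix.single_mul_single_of_ne _ _ _ _ hij.symm]
      rfl
    · rw [Pi.single_eq_of_ne ht, zero_mul]
      rfl) c
  convert h1 using 1
  funext t
  by_cases ht : t = s
  · subst ht
    rw [Pi.mulSingle_eq_same, Pi.add_apply, Pi.one_apply, Pi.smul_apply, Pi.single_eq_same]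
  · rw [Pi.mulSingle_eq_of_ne ht, Pi.add_apply, Pi.one_apply, Pi.smul_apply, Pi.single_eq_of_ne ht, smul_zero,
      add_zero]

/-! ## the span and the determinants -/

theorem aV_span {ρ : ι → ℚ} (h : Adm n ρ) (s : ι) :
    Submodule.span ℂ (Set.range (aV (n := n) (tu ρ s))) = ⊤ := by
  have hx1 : xx ρ s ^ 2 ≠ 1 := by
    intro h1
    apply qu_ne_one h s
    unfold qu
    rw [show 4 = 2 * 2 by norm_num, pow_mul, h1, one_pow]
  have h1 := ck_span (n := n) (fun _ => xx ρ s) (fun _ => hx1) (fun _ => xx_ne ρ s) (by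
    rw [Finset.prod_const, Finset.card_univ, Fintype.card_fin, ← pow_mul, xx_pow]
    intro h2
    obtain ⟨b, hb⟩ := exp_eq_one_real h2
    apply h.int s b
    have h3 : (((n + 1 : ℕ) : ℚ)) * ρ s = b := by exact_mod_cast hb
    push_cast at h3
    exact h3)
  rw [eq_top_iff, ← h1, Submodule.span_le]
  rintro _ ⟨k, rfl⟩
  unfold ck
  rw [vv_eq (xx_ne ρ s)]
  exact Submodule.smul_mem _ _ (Submodule.subset_span ⟨k, rfl⟩)

theorem det_Rk (c φ : Fin n → ℂ) : (1 + Rk c φ).det = 1 + dt φ c := by
  have h1 : Rk c φ = Matrix.replicateCol Unit c * Matrix.replicateRow Unit φ := by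
    ext i j
    simp [Rk, Matrix.mul_apply]
  rw [h1, Matrix.det_one_add_replicateCol_mul_replicateRow]
  rfl

theorem det_Pk {τ : ℂ} (hτ : τ ≠ 0) (k : Fin n) (z : ℂ) : (1 + z • Pk τ k).det = 1 + z := by
  unfold Pk Rr
  rw [smul_smul, ← Rk_smul_left, det_Rk]
  congr 1
  simp [dt, Pi.single_apply, aV_self]
  field_simp

theorem det_hh {ρ : ι → ℚ} (h : Adm n ρ) (e : ℕ) (k l : Fin n) (i : ι) : (hh ρ e k l i).det = 1 := by
  unfold hh
  rw [Matrix.det_mul, det_Pk (tu_ne h i), det_Pk (tu_ne h i), add_sub_cancel, add_sub_cancel, ← mul_pow,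
    mul_inv_cancel₀ (qu_ne ρ i), one_pow]

section

variable [Fintype ι] [DecidableEq ι]

/-- orders different from three -/
theorem sl_ne_three {ρ : ι → ℚ} (h : Adm n ρ) (s : ι) (h3 : (ρ s).den ≠ 3) (g : Matrix (Fin n) (Fin n) ℂ)
    (hg : g.det = 1) : (Pi.mulSingle s g : ι → Matrix (Fin n) (Fin n) ℂ) ∈ Mon (nu n ρ) := by
  refine single_sl _ s (fun i j hij c => tr_of_single s hij ?_ c) g hg
  refine single_mem (tu_ne h) (LL_pos ρ) (qu_pow ρ) (qu_ne_one h) (qu_inj h) (mem_refl h) s (qu_self h s)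
    (aV_span h s) ?_ i j hij
  intro k l hkl
  obtain ⟨X, hX, h0, c, hc, hXs⟩ := hyp_elem h s h3 hkl
  refine adj_of (tu_ne h) (LL_pos ρ) (qu_pow ρ) (qu_ne_one h) (qu_inj h) (mem_refl h) hX s h0 hkl
    (a := qu ρ s ^ 3 - 1) (b := (qu ρ s)⁻¹ ^ 3 - 1) ?_ hc (ab_rel ρ 3 s) hXs
  -- the cube is not one
  intro h4
  have h5 : xx ρ s ^ (2 * 6) = 1 := by
    have h6 : qu ρ s ^ 3 = 1 := by linear_combination h4
    unfold qu at h6
    rw [← pow_mul] at h6
    exact h6
  have hy := xx_ne ρ s
  rw [xx_pow] at h5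
  obtain ⟨b, hb⟩ := exp_eq_one_real h5
  have h2 : (6 : ℚ) * ρ s = b := by exact_mod_cast hb
  have a1 := h.pos s
  have a2 := h.lt s
  have h5 : (0 : ℚ) < b := by linarith
  have h6 : (b : ℚ) < 3 := by linarith
  have h7 : 0 < b := by exact_mod_cast h5
  have h8 : b < 3 := by exact_mod_cast h6
  have h9 : b = 1 ∨ b = 2 := by omega
  rcases h9 with h9 | h9
  · rw [h9] at h2
    push_cast at h2
    have h10 : ρ s = 1 / 6 := by linarith
    apply (h.den s).2.1
    rw [h10]; norm_num
  · rw [h9] at h2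
    push_cast at h2
    have h10 : ρ s = 1 / 3 := by linarith
    apply h3
    rw [h10]; norm_num

theorem third {ρ : ι → ℚ} (h : Adm n ρ) (s : ι) (h3 : (ρ s).den = 3) : ρ s = 1 / 3 := by
  have h4 := Rat.mul_den_eq_num (ρ s)
  rw [h3] at h4
  have a1 := h.pos s
  have a2 := h.lt s
  have a3 : (0 : ℚ) < (ρ s).num := by rw [← h4]; push_cast; linarith
  have a4 : (((ρ s).num : ℤ) : ℚ) < 2 := by rw [← h4]; push_cast; linarith
  have a5 : 0 < (ρ s).num := by exact_mod_cast a3
  have a6 : (ρ s).num < 2 := by exact_mod_cast a4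
  have a7 : (ρ s).num = 1 := by omega
  rw [a7] at h4
  push_cast at h4
  linarith

/-- order three -/
theorem sl_three {ρ : ι → ℚ} (h : Adm n ρ) (s : ι) (h3 : (ρ s).den = 3) (g : Matrix (Fin n) (Fin n) ℂ)
    (hg : g.det = 1) : (Pi.mulSingle s g : ι → Matrix (Fin n) (Fin n) ℂ) ∈ Mon (nu n ρ) := by
  have hρ := third h s h3
  have hother : ∀ i, i ≠ s → (ρ i).den ≠ 3 := by
    intro i hi h4
    exact hi (h.inj ((third h i h4).trans hρ.symm))
  refine single_sl _ s (fun i j hij c => tr_of_single s hij ?_ c) g hg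
  refine single_mem (tu_ne h) (LL_pos ρ) (qu_pow ρ) (qu_ne_one h) (qu_inj h) (mem_refl h) s (qu_self h s)
    (aV_span h s) ?_ i j hij
  intro k l hkl
  -- the other components
  have hsing : (Pi.mulSingle s (hh ρ 1 k l s) : ι → Matrix (Fin n) (Fin n) ℂ) ∈ Mon (nu n ρ) := by
    have h4 : (fun i => if i = s then 1 else hh ρ 1 l k i) ∈ Mon (nu n ρ) := by
      have h5 : ∀ t : Finset ι, s ∉ t → (fun i => if i ∈ t then hh ρ 1 l k i else 1) ∈ Mon (nu n ρ) := by
        intro t
        induction t using Finset.induction_on with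
        | empty =>
          intro _
          simp only [Finset.notMem_empty, if_false]
          exact (Mon (nu n ρ)).one_mem
        | insert a t ha ih =>
          intro hs
          rw [Finset.mem_insert, not_or] at hs
          have h2 := (Mon (nu n ρ)).mul_mem (sl_ne_three h a (hother a (Ne.symm hs.1)) (hh ρ 1 l k a)
            (det_hh h 1 l k a)) (ih hs.2)
          have h3 : ((Pi.mulSingle a (hh ρ 1 l k a) : ι → Matrix (Fin n) (Fin n) ℂ) *
              fun i => if i ∈ t then hh ρ 1 l k i else 1) =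
              fun i => if i ∈ insert a t then hh ρ 1 l k i else 1 := by
            funext i
            rw [Pi.mul_apply]
            by_cases h4 : i = a
            · subst h4
              simp [ha]
            · rw [Pi.mulSingle_eq_of_ne h4, one_mul]
              simp [h4]
          rw [← h3]
          exact h2
      have h6 := h5 (Finset.univ.erase s) (Finset.notMem_erase s _)
      convert h6 using 1
      funext i
      by_cases hi : i = s
      · simp [hi]
      · simp [hi]
    have h7 := (Mon (nu n ρ)).mul_mem (hh_mem h 1 k l) h4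
    convert h7 using 1
    funext i
    rw [Pi.mul_apply]
    by_cases hi : i = s
    · subst hi
      rw [Pi.mulSingle_eq_same]
      simp
    · rw [Pi.mulSingle_eq_of_ne hi, if_neg hi, hh_inv h]
  have htr : 2 + ((qu ρ s ^ 1 - 1) + ((qu ρ s)⁻¹ ^ 1 - 1)) * (1 - ((tu ρ s)⁻¹) ^ 2) = (2 : ℂ) := by
    have h4 : (tu ρ s) ^ 2 = 1 := by
      have hx := xx_ne ρ s
      have h5 : (xx ρ s ^ 2) ^ 3 = 1 := by
        rw [← pow_mul, xx_pow, hρ, exp_eq_one_iff]
        refine ⟨1, ?_⟩
        push_cast
        ring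
      have h6 : xx ρ s ^ 2 ≠ 1 := by
        intro h1
        apply qu_ne_one h s
        unfold qu
        rw [show 4 = 2 * 2 by norm_num, pow_mul, h1, one_pow]
      have h7 : (xx ρ s ^ 2 - 1) * ((xx ρ s ^ 2) ^ 2 + xx ρ s ^ 2 + 1) = 0 := by linear_combination h5
      have h8 := (mul_eq_zero.1 h7).resolve_left (sub_ne_zero.2 h6)
      unfold tu
      field_simp
      linear_combination h8
    have h5 : ((tu ρ s)⁻¹) ^ 2 = 1 := by rw [inv_pow, h4, inv_one]
    rw [h5, sub_self, mul_zero, add_zero]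
  have hcub := hh_cub h 1 hkl s
  rw [htr] at hcub
  have hpow := unip_pow (hh_inv h 1 s) hcub
  have hB := unip_mem (ν := nu n ρ) (Pi.single s ((1 / 2 : ℂ) • (hh ρ 1 k l s - hh ρ 1 l k s)))
    (Pi.single s ((1 / 2 : ℂ) • (hh ρ 1 k l s + hh ρ 1 l k s - (2 : ℂ) • 1))) (by
      intro m
      have h4 := (Mon (nu n ρ)).pow_mem hsing m
      convert h4 using 1
      funext i
      rw [Pi.pow_apply]
      by_cases hi : i = s
      · subst hi
        rw [Pi.mulSingle_eq_same, Pi.single_eq_same, Pi.single_eq_same, hpow]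
      · rw [Pi.mulSingle_eq_of_ne hi, Pi.single_eq_of_ne hi, Pi.single_eq_of_ne hi, one_pow]
        simp)
  refine adj_of (tu_ne h) (LL_pos ρ) (qu_pow ρ) (qu_ne_one h) (qu_inj h) (mem_refl h) hB s ?_ hkl
    (a := qu ρ s ^ 1 - 1) (b := (qu ρ s)⁻¹ ^ 1 - 1) (c := 1 / 2) ?_ (by norm_num) (ab_rel ρ 1 s) ?_
  · intro i hi
    have hne : i ≠ s := by
      intro h4
      rw [h4] at hi
      exact qu_self h s hi
    rw [Pi.single_eq_of_ne hne]
  · rw [pow_one]
    exact sub_ne_zero.2 (qu_ne_one h s)
  · rw [Pi.single_eq_same]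
    rfl

/-- **The product of the special linear groups preserves the relations.** -/
theorem sl_mem {ρ : ι → ℚ} (h : Adm n ρ) (g : ι → Matrix (Fin n) (Fin n) ℂ) (hg : ∀ s, (g s).det = 1) :
    g ∈ Mon (nu n ρ) := by
  refine sl_pi _ (fun s g hg => ?_) g hg
  by_cases h3 : (ρ s).den = 3
  · exact sl_three h s h3 g hg
  · exact sl_ne_three h s h3 g hg

end

end Pool.Agent.Run7.h659.CC
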