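import Pool.Agent.Run7.h659.CC10
import Pool.Agent.N121.BF.Fin

/-!
# Periods of cyclic covers in terms of the coefficients of the polynomial
-/

set_option autoImplicit false
set_option linter.unusedSectionVars false

open Complex

namespace Pool.Agent.Run7.h659.CD

open Pool.Agent.Run7.h659.SE (per full)
open Pool.Agent.Run7.h659.CC
open Pool.Agent.Y118.HP (seg)
open Pool.Agent.N121.OH (rt rt_mem rt_eq rt_diff)
open Pool.Agent.N121.AH (u0 u0_ne U2 U2_open bq bq_diffAt va va_mem va_rt va_surj va_last vaP vaP_eval lead_ne er)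
open Pool.Agent.Y890.HE (Ord)
open Pool.Agent.Y890.MV (evX evM)

variable {n : ℕ} {κ : Type}

/-- the constants of the rows -/
noncomputable def dv (n : ℕ) (ρ : ℚ) (l : ℕ) : ℂ := exp (Real.pi * I * ((ρ : ℂ) * ((n : ℂ) - (l : ℂ))))

theorem dv_ne (n : ℕ) (ρ : ℚ) (l : ℕ) : dv n ρ l ≠ 0 := exp_ne_zero _

/-- the constants -/
noncomputable def sv (n : ℕ) (ρ : ℚ) (l i : ℕ) : ℂ :=
  (u0 ^ (-(ρ : ℂ))) ^ (n + 2) * dv n ρ l * u0 ^ (i + 1)

/-- the periods as functions of the coefficients -/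
noncomputable def gn (ρ : κ → ℚ) (x : κ × Fin n × Fin n) (a : Fin (n + 2) → ℂ) : ℂ :=
  (a (Fin.last (n + 1)) / u0) ^ (-(ρ x.1 : ℂ)) * sv n (ρ x.1) x.2.1 x.2.2 * fn ρ x (rt u0 (bq a))

/-! ## analyticity -/

theorem gn_an {ρ : κ → ℚ} (hρ : ∀ i, ρ i < 1) (x : κ × Fin n × Fin n) : AnalyticOnNhd ℂ (gn ρ x) (U2 n) := by
  refine Pool.Agent.Y785.MV.Osg.t _ _ (U2_open n) _ ?_
  have h1 : DifferentiableOn ℂ (fun a : Fin (n + 2) → ℂ => (a (Fin.last (n + 1)) / u0) ^ (-(ρ x.1 : ℂ))) (U2 n) := by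
    intro a ha
    have h1 : DifferentiableAt ℂ (fun a : Fin (n + 2) → ℂ => a (Fin.last (n + 1)) / u0) a := by fun_prop
    exact (h1.cpow (differentiableAt_const _) ha.1).differentiableWithinAt
  have h2 : DifferentiableOn ℂ (fn ρ x) (Ord n) := (fn_an hρ x).differentiableOn
  have h3 : DifferentiableOn ℂ (fun b => fn ρ x (rt u0 b)) (Pool.Agent.N121.OH.Un u0 n) :=
    h2.comp (rt_diff u0_ne n) fun a ha => rt_mem ha
  have h4 : DifferentiableOn ℂ (bq (n := n)) (U2 n) := fun a ha => (bq_diffAt (lead_ne ha)).differentiableWithinAt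
  have h5 : DifferentiableOn ℂ (fun a : Fin (n + 2) → ℂ => fn ρ x (rt u0 (bq a))) (U2 n) :=
    h3.comp h4 fun a ha => ha.2
  exact (h1.mul_const _).mul h5

/-! ## invariance -/

/-- substitution -/
noncomputable def tr (c : ℂ) (s : κ × Fin n × Fin n → ℂ) :
    MvPolynomial (κ × Fin n × Fin n) (MvPolynomial (Fin (n + 2)) ℂ) →+*
    MvPolynomial (κ × Fin n × Fin n) (MvPolynomial (Fin (n + 1)) ℂ) :=
  MvPolynomial.eval₂Hom (MvPolynomial.C.comp (MvPolynomial.eval₂Hom MvPolynomial.C fun k : Fin (n + 2) => vaP c k))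
    (fun x => MvPolynomial.C (MvPolynomial.C (s x)) * MvPolynomial.X x)

theorem tr_ev (c : ℂ) (s : κ × Fin n × Fin n → ℂ) (e : Fin (n + 1) → ℂ) (Z : κ × Fin n × Fin n → ℂ)
    (p : MvPolynomial (κ × Fin n × Fin n) (MvPolynomial (Fin (n + 2)) ℂ)) :
    evX e Z (tr c s p) = evX (va c e) (fun x => s x * Z x) p := by
  have h1 : (MvPolynomial.eval₂Hom (MvPolynomial.eval e) Z).comp (tr c s) =
      MvPolynomial.eval₂Hom (MvPolynomial.eval (va c e)) (fun x => s x * Z x) := by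
    refine MvPolynomial.ringHom_ext (fun b => ?_) (fun x => ?_)
    · have h2 : ((MvPolynomial.eval₂Hom (MvPolynomial.eval e) Z).comp (tr c s)).comp MvPolynomial.C =
          MvPolynomial.eval (va c e) := by
        refine MvPolynomial.ringHom_ext (fun d => ?_) (fun k => ?_)
        · simp [tr]
        · simp only [RingHom.comp_apply, tr, MvPolynomial.eval₂Hom_C, MvPolynomial.eval₂Hom_X', MvPolynomial.eval_X,
            vaP_eval]
          rfl
      have h3 := congrArg (fun g => g b) h2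
      simp only [RingHom.comp_apply] at h3
      rw [RingHom.comp_apply, h3]
      exact (MvPolynomial.eval₂Hom_C _ _ _).symm
    · simp only [RingHom.comp_apply, tr, MvPolynomial.eval₂Hom_X', map_mul, MvPolynomial.eval₂Hom_C,
        MvPolynomial.eval_C]
  exact congrArg (fun g => g p) h1

/-- the action -/
noncomputable def act (g : κ → Matrix (Fin n) (Fin n) ℂ) (Z : κ × Fin n × Fin n → ℂ) (x : κ × Fin n × Fin n) : ℂ :=
  ∑ k, g x.1 x.2.1 k * Z (x.1, k, x.2.2)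

theorem inv_one [Fintype κ] [DecidableEq κ] {ρ : κ → ℚ} (h : Adm n ρ) {g : κ → Matrix (Fin n) (Fin n) ℂ}
    (hg : ∀ s, (g s).det = 1) (p : MvPolynomial (κ × Fin n × Fin n) (MvPolynomial (Fin (n + 2)) ℂ))
    (hp : ∀ a ∈ U2 n, evX a (fun x => gn ρ x a) p = 0) :
    ∀ a ∈ U2 n, evX a (act g fun x => gn ρ x a) p = 0 := by
  intro a ha
  set c := a (Fin.last (n + 1)) with hc
  set e0 := rt u0 (bq a) with he0
  have hcs : c / u0 ∈ Complex.slitPlane := ha.1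
  have hc0 : c ≠ 0 := lead_ne ha
  have he0U : e0 ∈ Ord n := rt_mem ha.2
  have hva : va c e0 = a := va_surj ha
  set s : κ × Fin n × Fin n → ℂ := fun x => (c / u0) ^ (-(ρ x.1 : ℂ)) * sv n (ρ x.1) x.2.1 x.2.2 with hs
  have h1 : ∀ e ∈ Ord n, evM (fn ρ) e (tr c s p) = 0 := by
    intro e he
    show evX e (fun x => fn ρ x e) (tr c s p) = 0
    rw [tr_ev]
    have h2 : (fun x => s x * fn ρ x e) = fun x => gn ρ x (va c e) := by
      funext x
      unfold gn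
      rw [va_last, va_rt hc0 he]
    rw [h2]
    exact hp _ (va_mem hcs he)
  set g' : κ → Matrix (Fin n) (Fin n) ℂ := fun i => Matrix.diagonal (fun l : Fin n => (dv n (ρ i) l)⁻¹) * g i *
    Matrix.diagonal (fun l : Fin n => dv n (ρ i) l) with hg'
  have hdet : ∀ i, (g' i).det = 1 := by
    intro i
    rw [hg']
    simp only [Matrix.det_mul, Matrix.det_diagonal, hg, mul_one]
    rw [← Finset.prod_mul_distrib]
    exact Finset.prod_eq_one fun l _ => inv_mul_cancel₀ (dv_ne _ _ _)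
  have h2 := orb_fib h he0U ⟨g', hdet, rfl⟩ (tr c s p) h1
  rw [tr_ev, hva] at h2
  rw [← h2]
  congr 1
  funext x
  unfold act
  rw [Matrix.mul_apply, Finset.mul_sum]
  refine Finset.sum_congr rfl fun k _ => ?_
  rw [hg']
  simp only [Matrix.mul_diagonal, Matrix.diagonal_mul]
  unfold gn
  rw [← hc, ← he0, hs]
  simp only [sv]
  show _ = _ * ((dv n (ρ x.1) x.2.1)⁻¹ * g x.1 x.2.1 k * dv n (ρ x.1) k * fn ρ (x.1, k, x.2.2) e0)
  have h3 := dv_ne n (ρ x.1) x.2.1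
  field_simp

/-! ## the integrals -/

/-- a branch of `(c ∏ (x - e i)) ^ (- ρ)` along the segment from `e l` to `e (l + 1)` -/
noncomputable def br (ρ : ℚ) (c : ℂ) (e : Fin (n + 1) → ℂ) (l : Fin n) (x : ℂ) : ℂ :=
  (u0 ^ (-(ρ : ℂ))) ^ (n + 2) * (c / u0) ^ (-(ρ : ℂ)) * dv n ρ l *
    ∏ i, ((if i ≤ l.castSucc then x - e i else e i - x) / u0) ^ (-(ρ : ℂ))

/-- the period -/
noncomputable def pd (ρ : ℚ) (c : ℂ) (e : Fin (n + 1) → ℂ) (l : Fin n) (i : ℕ) : ℂ :=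
  ∫ t in (0 : ℝ)..1, (seg (e l.castSucc) (e l.succ) t) ^ i * br ρ c e l (seg (e l.castSucc) (e l.succ) t) *
    (e l.succ - e l.castSucc)

theorem pow_den (ρ : ℚ) {z : ℂ} (hz : z ≠ 0) : (z ^ (-(ρ : ℂ))) ^ ρ.den = z ^ (-ρ.num) := by
  rw [← cpow_nat_mul]
  have h1 : ((ρ.den : ℂ)) * -(ρ : ℂ) = ((-ρ.num : ℤ) : ℂ) := by
    have h2 : (ρ.den : ℚ) * ρ = ρ.num := by rw [mul_comm]; exact Rat.mul_den_eq_num ρ
    have h3 : ((ρ.den : ℂ)) * (ρ : ℂ) = (ρ.num : ℂ) := by exact_mod_cast h2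
    push_cast
    linear_combination -h3
  rw [h1, cpow_intCast]

/-- the branch -/
theorem br_pow (ρ : ℚ) {c : ℂ} (hc : c ≠ 0) (e : Fin (n + 1) → ℂ) (l : Fin n) (x : ℂ) (hx : ∀ i, x ≠ e i) :
    br ρ c e l x ^ ρ.den = (c * ∏ i, (x - e i)) ^ (-ρ.num) := by
  have h0 : ∀ i, (if i ≤ l.castSucc then x - e i else e i - x) / u0 ≠ 0 := by
    intro i
    refine div_ne_zero ?_ u0_ne
    split_ifs
    · exact sub_ne_zero.2 (hx i)
    · exact sub_ne_zero.2 (hx i).symm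
  unfold br
  rw [mul_pow, mul_pow, mul_pow, ← pow_mul, mul_comm (n + 2), pow_mul, pow_den ρ u0_ne,
    pow_den ρ (div_ne_zero hc u0_ne), ← Finset.prod_pow]
  simp only [pow_den ρ (h0 _)]
  rw [Finset.prod_zpow, Finset.prod_div_distrib, Finset.prod_const, Finset.card_univ, Fintype.card_fin]
  have h1 : ∏ i : Fin (n + 1), (if i ≤ l.castSucc then x - e i else e i - x) = (-1) ^ (n - (l : ℕ)) *
      ∏ i, (x - e i) := by
    have e1 : ∏ i : Fin (n + 1), (if i ≤ l.castSucc then x - e i else e i - x) =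
        (∏ i : Fin (n + 1), (if i ≤ l.castSucc then (1 : ℂ) else -1)) * ∏ i, (x - e i) := by
      rw [← Finset.prod_mul_distrib]
      refine Finset.prod_congr rfl fun i _ => ?_
      split_ifs <;> ring
    rw [e1]
    congr 1
    rw [Finset.prod_ite, Finset.prod_const_one, one_mul, Finset.prod_const]
    congr 1
    have h3 : (Finset.univ.filter fun i : Fin (n + 1) => ¬ i ≤ l.castSucc) = Finset.Ioi (l.castSucc) := by
      ext i
      simp
    rw [h3, Fin.card_Ioi]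
    simp
  have h2 : dv n ρ l ^ ρ.den = ((-1 : ℂ) ^ (n - (l : ℕ))) ^ ρ.num := by
    unfold dv
    rw [← exp_nat_mul]
    have h3 : ((ρ.den : ℂ)) * (ρ : ℂ) = (ρ.num : ℂ) := by
      have h2 : (ρ.den : ℚ) * ρ = ρ.num := by rw [mul_comm]; exact Rat.mul_den_eq_num ρ
      exact_mod_cast h2
    have h4 : (ρ.den : ℂ) * (Real.pi * I * ((ρ : ℂ) * ((n : ℂ) - ((l : ℕ) : ℂ)))) =
        (ρ.num : ℂ) * (((n - (l : ℕ) : ℕ) : ℂ) * (Real.pi * I)) := by
      rw [Nat.cast_sub l.2.le]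
      linear_combination (Real.pi * I * ((n : ℂ) - ((l : ℕ) : ℂ))) * h3
    rw [h4, exp_int_mul, exp_nat_mul, exp_pi_mul_I]
  rw [h1, h2]
  have h5 : ((-1 : ℂ) ^ (n - (l : ℕ))) ≠ 0 := pow_ne_zero _ (by norm_num)
  have h6 : ∏ i, (x - e i) ≠ 0 := Finset.prod_ne_zero_iff.2 fun i _ => sub_ne_zero.2 (hx i)
  have h7 : ((-1 : ℂ) ^ (n - (l : ℕ))) ^ ρ.num = ((-1 : ℂ) ^ (n - (l : ℕ))) ^ (-ρ.num) := by
    rcases neg_one_pow_eq_or ℂ (n - (l : ℕ)) with h8 | h8
    · rw [h8, one_zpow, one_zpow]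
    · rw [h8, zpow_neg, ← inv_zpow, inv_neg_one]
  rw [h7, ← zpow_natCast, ← zpow_mul, mul_comm (-ρ.num), zpow_mul, zpow_natCast, ← mul_zpow, ← mul_zpow, ← mul_zpow]
  congr 1
  have h9 := u0_ne
  have h10 : ((-1 : ℂ) ^ (n - (l : ℕ))) * ((-1 : ℂ) ^ (n - (l : ℕ))) = 1 := by
    rw [← mul_pow]
    norm_num
  field_simp
  linear_combination (u0 ^ (n + 2)) * h10

theorem seg_mul (u a b : ℂ) (t : ℝ) : seg (u * a) (u * b) t = u * seg a b t := by
  unfold seg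
  ring

theorem pd_eq (ρ : ℚ) (c : ℂ) (e : Fin (n + 1) → ℂ) (l : Fin n) (i : ℕ) :
    pd ρ c (fun k => u0 * e k) l i = (c / u0) ^ (-(ρ : ℂ)) * sv n ρ l i * per (fun _ => (ρ : ℂ)) e l i := by
  unfold pd per
  rw [← intervalIntegral.integral_const_mul]
  refine intervalIntegral.integral_congr fun t _ => ?_
  simp only [seg_mul]
  unfold br full sv
  have h1 : ∀ k : Fin (n + 1), (if k ≤ l.castSucc then u0 * seg (e l.castSucc) (e l.succ) t - u0 * e k else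
      u0 * e k - u0 * seg (e l.castSucc) (e l.succ) t) / u0 =
      if k ≤ l.castSucc then seg (e l.castSucc) (e l.succ) t - e k else e k - seg (e l.castSucc) (e l.succ) t := by
    intro k
    split_ifs
    · rw [← mul_sub, mul_div_cancel_left₀ _ u0_ne]
    · rw [← mul_sub, mul_div_cancel_left₀ _ u0_ne]
  simp only [h1]
  rw [mul_pow, pow_succ u0 i]
  ring

theorem gn_eq (ρ : κ → ℚ) (x : κ × Fin n × Fin n) (a : Fin (n + 2) → ℂ) :
    gn ρ x a = pd (ρ x.1) (a (Fin.last (n + 1))) (er a) x.2.1 x.2.2 := by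
  have h1 := pd_eq (ρ x.1) (a (Fin.last (n + 1))) (rt u0 (bq a)) x.2.1 x.2.2
  exact h1.symm

/-- scaling of the coefficients -/
theorem gn_scale (ρ : κ → ℚ) (x : κ × Fin n × Fin n) {s : ℝ} (hs : 0 < s) (a : Fin (n + 2) → ℂ) (ha : a ∈ U2 n) :
    gn ρ x (fun k => (s : ℂ) * a k) = (s : ℂ) ^ (-(ρ x.1 : ℂ)) * gn ρ x a := by
  unfold gn
  have h0 : (s : ℂ) ≠ 0 := by exact_mod_cast hs.ne'
  have h1 : bq (fun k => (s : ℂ) * a k) = bq a := by
    funext k
    unfold bq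
    rw [mul_div_mul_left _ _ h0]
  have h2 : ((s : ℂ) * a (Fin.last (n + 1)) / u0) ^ (-(ρ x.1 : ℂ)) =
      (s : ℂ) ^ (-(ρ x.1 : ℂ)) * (a (Fin.last (n + 1)) / u0) ^ (-(ρ x.1 : ℂ)) := by
    rw [mul_div_assoc, Pool.Agent.N121.OH.mul_cpow_pos hs (div_ne_zero (lead_ne ha) u0_ne)]
  rw [h1, h2]
  ring

end Pool.Agent.Run7.h659.CD
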