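import Pool.Agent.Run7.h659.CD1

/-!
# Tuples of polynomials: invariance of the relations
-/

set_option autoImplicit false
set_option linter.unusedSectionVars false

open Complex

namespace Pool.Agent.Run7.h659.CD

open Pool.Agent.Run7.h659.CC
open Pool.Agent.N121.AH (u0 u0_ne U2 U2_open UU USig_U2_conn UU_nonempty inv_sig)
open Pool.Agent.N121.BF (Lm LmC LmC_apply Lm_cont Lm_sm Lm_sh sh sh_self sm sbl evX_sbl pre_conn)
open Pool.Agent.Y890.MV (evX evM evM_eq pj USig USig_open fSig_an)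
open Pool.Agent.N207.GS (Irr Fib)

/-! ## irreducibility -/

theorem irr_of_curves {σ : Type} {S : Set (σ → ℂ)}
    (h : ∀ a ∈ S, ∀ b ∈ S, ∃ γ : σ → Polynomial ℂ, (∀ i, (γ i).eval 0 = a i) ∧ (∀ i, (γ i).eval 1 = b i) ∧
      ∀ t, (fun i => (γ i).eval t) ∈ S) : Irr S := by
  intro P Q hPQ
  by_contra hcon
  rw [not_or] at hcon
  push Not at hcon
  obtain ⟨⟨a, haS, ha⟩, ⟨b, hbS, hb⟩⟩ := hcon
  obtain ⟨γ, h0, h1, ht⟩ := h a haS b hbS
  set Ψ : MvPolynomial σ ℂ →ₐ[ℂ] Polynomial ℂ := MvPolynomial.aeval γ with hΨ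
  have hev : ∀ (t : ℂ) (P : MvPolynomial σ ℂ), (Ψ P).eval t = MvPolynomial.eval (fun i => (γ i).eval t) P := by
    intro t P
    have e1 : ((Polynomial.aeval t).comp Ψ : MvPolynomial σ ℂ →ₐ[ℂ] ℂ) =
        MvPolynomial.aeval (fun i => (γ i).eval t) := by
      refine MvPolynomial.algHom_ext fun i => ?_
      rw [AlgHom.comp_apply, hΨ, MvPolynomial.aeval_X, MvPolynomial.aeval_X, Polynomial.coe_aeval_eq_eval]
    have e2 := AlgHom.congr_fun e1 P
    rw [AlgHom.comp_apply, Polynomial.coe_aeval_eq_eval] at e2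
    rw [e2, ← MvPolynomial.coe_aeval_eq_eval]
    rfl
  have h2 : Ψ P * Ψ Q = 0 := by
    refine Polynomial.funext fun t => ?_
    rw [Polynomial.eval_mul, hev, hev, Polynomial.eval_zero]
    exact hPQ _ (ht t)
  rcases mul_eq_zero.1 h2 with h4 | h4
  · apply ha
    have e1 := hev 0 P
    rw [h4, Polynomial.eval_zero] at e1
    simp only [h0] at e1
    exact e1.symm
  · apply hb
    have e1 := hev 1 Q
    rw [h4, Polynomial.eval_zero] at e1
    simp only [h1] at e1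
    exact e1.symm

variable {ι : Type} {n : ι → ℕ} {κ : ι → Type} {q : ℕ}

/-- the indices of the functions -/
abbrev Sx (n : ι → ℕ) (κ : ι → Type) : Type := Σ j, κ j × Fin (n j) × Fin (n j)

/-- the indices of the coordinates -/
abbrev XB (n : ι → ℕ) (q : ℕ) : Type := (Σ i, Fin (n i + 2)) × Fin (q + 1)

/-- the action -/
noncomputable def actS (g : ∀ j, κ j → Matrix (Fin (n j)) (Fin (n j)) ℂ) (Z : Sx n κ → ℂ) (s : Sx n κ) : ℂ :=
  act (g s.1) (fun x => Z ⟨s.1, x⟩) s.2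

theorem actS_apply (g : ∀ j, κ j → Matrix (Fin (n j)) (Fin (n j)) ℂ) (Z : Sx n κ → ℂ) (j : ι)
    (x : κ j × Fin (n j) × Fin (n j)) : actS g Z ⟨j, x⟩ = ∑ k, g j x.1 x.2.1 k * Z ⟨j, (x.1, k, x.2.2)⟩ := rfl

theorem actS_mul (g h : ∀ j, κ j → Matrix (Fin (n j)) (Fin (n j)) ℂ) (Z : Sx n κ → ℂ) :
    actS g (actS h Z) = actS (fun j s => g j s * h j s) Z := by
  funext ⟨j, x⟩
  rw [actS_apply, actS_apply]
  simp only [actS_apply, Finset.mul_sum, Matrix.mul_apply, Finset.sum_mul]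
  rw [Finset.sum_comm]
  refine Finset.sum_congr rfl fun a _ => Finset.sum_congr rfl fun b _ => ?_
  ring

theorem actS_one (Z : Sx n κ → ℂ) : actS (fun _ _ => 1) Z = Z := by
  funext ⟨j, x⟩
  rw [actS_apply, Finset.sum_eq_single x.2.1]
  · rw [Matrix.one_apply_eq, one_mul]
  · intro b _ hb
    rw [Matrix.one_apply_ne hb.symm, zero_mul]
  · intro h
    exact absurd (Finset.mem_univ _) h

/-- the orbit -/
def OrbS (F : Sx n κ → ℂ) : Set (Sx n κ → ℂ) :=
  {a | ∃ g : ∀ j, κ j → Matrix (Fin (n j)) (Fin (n j)) ℂ, (∀ j s, (g j s).det = 1) ∧ a = actS g F}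

theorem irr_orbS [∀ j, Fintype (κ j)] [∀ j, DecidableEq (κ j)] (F : Sx n κ → ℂ) : Irr (OrbS F) := by
  refine irr_of_curves ?_
  rintro _ ⟨g, hg, rfl⟩ _ ⟨g', hg', rfl⟩
  have h1 : ∀ j, ∃ A : κ j → Matrix (Fin (n j)) (Fin (n j)) (Polynomial ℂ), (∀ s, (A s).det = 1) ∧
      (∀ s, (A s).map (Polynomial.eval 0) = 1) ∧ ∀ s, (A s).map (Polynomial.eval 1) = g' j s * (g j s)⁻¹ := fun j =>
    cur_top (fun s => g' j s * (g j s)⁻¹) (fun s => by
      rw [Matrix.det_mul, hg', Matrix.det_nonsing_inv, hg]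
      simp)
  choose A h1 h2 h3 using h1
  have hdet : ∀ (t : ℂ) j s, ((A j s).map (Polynomial.eval t)).det = 1 := by
    intro t j s
    have e1 := RingHom.map_det (Polynomial.evalRingHom t) (A j s)
    rw [h1, map_one] at e1
    exact e1.symm
  have hev : ∀ (t : ℂ) (s : Sx n κ), (∑ k, A s.1 s.2.1 s.2.2.1 k * Polynomial.C (actS g F ⟨s.1, (s.2.1, k, s.2.2.2)⟩)).eval t =
      actS (fun j s => (A j s).map (Polynomial.eval t)) (actS g F) s := by
    rintro t ⟨j, x⟩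
    rw [actS_apply, Polynomial.eval_finsetSum]
    refine Finset.sum_congr rfl fun k _ => ?_
    rw [Polynomial.eval_mul, Polynomial.eval_C, Matrix.map_apply]
  refine ⟨fun s => ∑ k, A s.1 s.2.1 s.2.2.1 k * Polynomial.C (actS g F ⟨s.1, (s.2.1, k, s.2.2.2)⟩), ?_, ?_, ?_⟩
  · intro s
    rw [hev]
    simp only [h2]
    rw [actS_one]
  · intro s
    rw [hev]
    simp only [h3]
    rw [actS_mul]
    congr 1
    funext j s
    rw [mul_assoc, Matrix.nonsing_inv_mul _ (by rw [hg]; exact isUnit_one), mul_one]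
  · intro t
    simp only [hev]
    refine ⟨fun j s => (A j s).map (Polynomial.eval t) * g j s, fun j s => ?_, ?_⟩
    · rw [Matrix.det_mul, hdet, hg, one_mul]
    · rw [actS_mul]

/-! ## the functions -/

/-- the functions -/
noncomputable def hn (ρ : ∀ j, κ j → ℚ) (w : Fin (q + 1) → ℂ) (s : Sx n κ) (y : XB n q → ℂ) : ℂ :=
  gn (ρ s.1) s.2 (pj (Lm w y) s.1)

/-- the domain -/
def DM (n : ι → ℕ) (w : Fin (q + 1) → ℂ) : Set (XB n q → ℂ) := Lm w ⁻¹' UU n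

section

variable [Fintype ι] [DecidableEq ι]

theorem DM_open (n : ι → ℕ) (w : Fin (q + 1) → ℂ) : IsOpen (DM n w) :=
  (USig_open fun i => U2_open (n i)).preimage (Lm_cont w)

theorem DM_conn (n : ι → ℕ) {w : Fin (q + 1) → ℂ} (hw : w 0 = 1) : IsPreconnected (DM n w) :=
  pre_conn hw (USig_U2_conn n)

theorem DM_nonempty (n : ι → ℕ) {w : Fin (q + 1) → ℂ} (hw : w 0 = 1) : (DM n w).Nonempty := by
  obtain ⟨x, hx⟩ := UU_nonempty n
  refine ⟨sm x, ?_⟩
  show Lm w (sm x) ∈ UU n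
  rw [Lm_sm hw]
  exact hx

theorem hn_an [∀ j, Fintype (κ j)] {ρ : ∀ j, κ j → ℚ} (hρ : ∀ j i, ρ j i < 1) (w : Fin (q + 1) → ℂ) (s : Sx n κ) :
    AnalyticOnNhd ℂ (hn ρ w s) (DM n w) := by
  intro y hy
  have h1 := fSig_an (f' := fun j (x : κ j × Fin (n j) × Fin (n j)) a => gn (ρ j) x a)
    (U' := fun i => U2 (n i)) (fun j x => gn_an (hρ j) x) s (Lm w y) hy
  have h2 : AnalyticAt ℂ (fun y => Lm w y) y := by
    have h3 : (fun y : XB n q → ℂ => Lm w y) = fun y => LmC w y := by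
      funext y
      rw [LmC_apply]
    rw [h3]
    exact (LmC w).analyticAt y
  exact AnalyticAt.fun_comp (g := fun x : (Σ i, Fin (n i + 2)) → ℂ => gn (ρ s.1) s.2 (pj x s.1)) h1 h2

/-- **invariance** -/
theorem inv_all [∀ j, Fintype (κ j)] [∀ j, DecidableEq (κ j)] {ρ : ∀ j, κ j → ℚ} (hA : ∀ j, Adm (n j) (ρ j))
    {w : Fin (q + 1) → ℂ} (hw : w 0 = 1) {g : ∀ j, κ j → Matrix (Fin (n j)) (Fin (n j)) ℂ}
    (hg : ∀ j s, (g j s).det = 1) (p : MvPolynomial (Sx n κ) (MvPolynomial (XB n q) ℂ))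
    (hp : ∀ y ∈ DM n w, evM (hn ρ w) y p = 0) : ∀ y ∈ DM n w, evX y (actS g fun s => hn ρ w s y) p = 0 := by
  intro y hy
  have h1 : ∀ x ∈ USig (fun i => U2 (n i)), evX x (fun s : Sx n κ => gn (ρ s.1) s.2 (pj x s.1))
      (MvPolynomial.map (sbl w y) p) = 0 := by
    intro x hx
    rw [evX_sbl]
    have h1 : sh w y x ∈ DM n w := by
      show Lm w (sh w y x) ∈ UU n
      rw [Lm_sh hw]
      exact hx
    have h2 := hp _ h1
    rw [evM_eq] at h2
    unfold hn at h2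
    rw [Lm_sh hw] at h2
    exact h2
  have h2 := inv_sig (U' := fun i => U2 (n i)) (f' := fun j a (x : κ j × Fin (n j) × Fin (n j)) => gn (ρ j) x a)
    (A := fun j => act (g j)) (fun j p hp a ha => inv_one (hA j) (hg j) p hp a ha) (MvPolynomial.map (sbl w y) p) h1
    (Lm w y) hy
  rw [evX_sbl, sh_self] at h2
  exact h2

theorem orb_fibS [∀ j, Fintype (κ j)] [∀ j, DecidableEq (κ j)] {ρ : ∀ j, κ j → ℚ} (hA : ∀ j, Adm (n j) (ρ j))
    {w : Fin (q + 1) → ℂ} (hw : w 0 = 1) {y : XB n q → ℂ} (hy : y ∈ DM n w) :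
    OrbS (fun s => hn ρ w s y) ⊆ Fib (DM n w) (hn (n := n) ρ w) y := by
  rintro _ ⟨g, hg, rfl⟩ p hp
  exact inv_all hA hw hg p hp y hy

end

end Pool.Agent.Run7.h659.CD
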