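import Pool.Agent.Run7.h659.CD2

/-!
# Integral points: general families
-/

set_option autoImplicit false
set_option linter.unusedSectionVars false

open Complex Set Filter Topology NumberField MeasureTheory

namespace Pool.Agent.Run7.h659.CD

open Pool.Agent.Y890.MV (InnerM innerM_compact innerM_sub)
open Pool.Agent.Y124 (Cov)
open Pool.Agent.N121.OH (BX sc cx sd sd_pos sd_one sd2_one lt_sd' sd_le few_cov few_near mem_BX)
open Pool.Agent.N121.AH (Tp growth)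
open Pool.Agent.N207.GS (Irr Fib ExcI comp)

variable {X : Type}

/-- the weights -/
def on (X : Type) : X → ℕ := fun _ => 1

/-- the scaled point -/
noncomputable def sK (K : Type) [Field K] (T : ℕ) (a : X → ℤ) (i : X) : K := (a i : K) / (sd T : K) ^ 2

theorem sK_cx {K : Type} [Field K] (io : K →+* ℂ) (T : ℕ) (a : X → ℤ) :
    (fun i => io (sK K T a i)) = cx (sc (on X) T a) := by
  funext i
  unfold sK cx sc on
  simp

theorem sK_ht {K : Type} [Field K] [NumberField K] [Fintype X] [DecidableEq X] {T : ℕ} {a : X → ℤ}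
    (ha : a ∈ BX (on X) T) (i : X) : Y120.HtLe K (Tp T) (sK K T a i) := by
  have h1 : |(a i : ℝ)| ≤ (T : ℝ) ^ 1 := by exact_mod_cast mem_BX.1 ha i
  rw [pow_one] at h1
  have hhouse : ∀ (z : ℤ) (B : ℝ), |(z : ℝ)| ≤ B → house (((z : 𝓞 K) : K)) ≤ B := by
    intro z B hz
    refine Y120.house_le K ((abs_nonneg _).trans hz) fun φ => ?_
    have h1 : φ (((z : 𝓞 K) : K)) = (z : ℂ) := by simp
    rw [h1, ← Complex.ofReal_intCast, Complex.norm_real, Real.norm_eq_abs]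
    exact hz
  refine ⟨((a i : ℤ) : 𝓞 K), ((((sd T : ℤ) ^ 2 : ℤ)) : 𝓞 K), ?_, ?_, ?_, ?_⟩
  · have h4 : ((sd T : ℤ) ^ 2 : ℤ) ≠ 0 := by
      have h5 := sd_pos T
      positivity
    exact_mod_cast h4
  · exact hhouse _ _ (h1.trans (lt_sd' T).le)
  · refine hhouse _ _ ?_
    rw [abs_of_nonneg (by positivity)]
    push_cast
    exact le_rfl
  · unfold sK
    simp

/-- **few integral points with exceptional relations** -/
theorem few_int [Fintype X] [DecidableEq X] [Nonempty X] {σ : Type} [Fintype σ] [DecidableEq σ] {U : Set (X → ℂ)}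
    {f : σ → (X → ℂ) → ℂ} (hU : IsPreconnected U) (hUo : IsOpen U) (hne : U.Nonempty)
    (hf : ∀ i, AnalyticOnNhd ℂ (f i) U) (hnull : volume {x : X → ℝ | cx x ∉ U} = 0) (δ : ℕ) (h : Type) [Fintype h]
    [DecidableEq h] (m : ℕ) (A : ℝ) {ε : ℝ} (hε : 0 < ε) :
    ∃ T₀ : ℕ, ∀ T : ℕ, T₀ ≤ T → ∀ (K : Type) [Field K] [NumberField K], Module.finrank ℚ K ≤ m →
      ∀ (io : K →+* ℂ) (ξ : h → ℂ), ∃ E ⊆ BX (on X) T, (E.card : ℝ) ≤ ε * (BX (on X) T).card ∧
        ∀ a ∈ BX (on X) T, a ∉ E → cx (sc (on X) T a) ∈ U ∧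
          ∀ (c : (σ → Fin (δ + 1)) → h → 𝓞 K), (∀ l i (φ : K →+* ℂ), ‖φ (c l i : K)‖ ≤ (Tp T) ^ A) →
            ∑ l, (∑ i, ξ i * io (c l i : K)) * ∏ y, f y (cx (sc (on X) T a)) ^ (l y : ℕ) = 0 →
            ∀ S : Set (σ → ℂ), Irr S → (fun y => f y (cx (sc (on X) T a))) ∈ S →
              S ⊆ Fib U f (cx (sc (on X) T a)) →
              ∀ b ∈ S, ∑ l, (∑ i, ξ i * io (c l i : K)) * ∏ y, b y ^ (l y : ℕ) = 0 := by
  classical
  have hw1 : ∀ i : X, 1 ≤ on X i := fun _ => le_rfl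
  obtain ⟨μ, hμ0, hμ⟩ := few_near (U := U) hUo hnull (w := on X) hw1 (ε := ε / 2) (by positivity)
  set Lc := InnerM U μ with hLc
  have hLc1 : IsCompact Lc := innerM_compact _ _
  have hLc2 : Lc ⊆ U := innerM_sub _ hμ0
  have hη : 0 < ((2 : ℝ)⁻¹) := by positivity
  obtain ⟨D, C, T1, hC, -, H⟩ := comp hU hUo hne hf Lc hLc1 hLc2 δ h m A _ hη
  obtain ⟨T3, h3⟩ := growth C hC D (ε := ε / 2) (by positivity)
  refine ⟨max 1 (max μ (max ⌈T1⌉₊ T3)), fun T hT K _ _ hK io ξ => ?_⟩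
  simp only [max_le_iff] at hT
  obtain ⟨hT1, hTm, hT2, hT3⟩ := hT
  have hTT : (T : ℝ) ≤ Tp T := (lt_sd' T).le
  have hc1 := H K hK io ξ (Tp T) (((Nat.le_ceil T1).trans (by exact_mod_cast hT2)).trans hTT)
  set E1 := (BX (on X) T).filter fun a => cx (sc (on X) T a) ∈
    ((fun (s : X → K) i => io (s i)) '' ExcI δ U f Lc K io ξ A (Tp T)) with hE1
  set E0 := (BX (on X) T).filter fun a => cx (sc (on X) T a) ∉ Lc with hE0
  have hb0 : (E0.card : ℝ) ≤ ε / 2 * (BX (on X) T).card :=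
    hμ T hTm E0 (Finset.filter_subset _ _) (fun a ha => (Finset.mem_filter.1 ha).2)
  have hb1 : (E1.card : ℝ) ≤ ε / 2 * (BX (on X) T).card :=
    (few_cov (on X) hw1 hc1 hT1).trans (mul_le_mul_of_nonneg_right (h3 T hT3) (Nat.cast_nonneg _))
  refine ⟨E0 ∪ E1, Finset.union_subset (Finset.filter_subset _ _) (Finset.filter_subset _ _), ?_, ?_⟩
  · have h6 : ((E0 ∪ E1).card : ℝ) ≤ E0.card + E1.card := by exact_mod_cast Finset.card_union_le _ _
    calc ((E0 ∪ E1).card : ℝ) ≤ E0.card + E1.card := h6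
      _ ≤ ε / 2 * (BX (on X) T).card + ε / 2 * (BX (on X) T).card := by gcongr
      _ = ε * (BX (on X) T).card := by ring
  · intro a ha hnot
    rw [Finset.mem_union, not_or] at hnot
    obtain ⟨hn0, hn1⟩ := hnot
    have haL : cx (sc (on X) T a) ∈ Lc := by
      by_contra hcon
      exact hn0 (Finset.mem_filter.2 ⟨ha, hcon⟩)
    refine ⟨hLc2 haL, fun c hc h0 S hS hpS hSF b hb => ?_⟩
    by_contra hcon
    apply hn1
    refine Finset.mem_filter.2 ⟨ha, sK K T a, ⟨fun i => sK_ht ha i, ?_, c, hc, ?_, S, hS, ?_, ?_, b, hb, hcon⟩, ?_⟩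
    · rw [sK_cx]; exact haL
    · rw [sK_cx]; exact h0
    · rw [sK_cx]; exact hpS
    · rw [sK_cx]; exact hSF
    · exact sK_cx io T a

end Pool.Agent.Run7.h659.CD
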