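import Pool.Agent.Run7.h659.CD3
import Pool.Agent.Y890.SP.Omega

/-!
# Almost all tuples of polynomials
-/

set_option autoImplicit false
set_option linter.unusedSectionVars false

open Complex Set Filter Topology NumberField MeasureTheory

namespace Pool.Agent.Run7.h659.CD

open Pool.Agent.Run7.h659.CC
open Pool.Agent.Y890.MV (pj)
open Pool.Agent.N121.OH (BX sc cx sd sd_pos sd_one sd2_one lt_sd' sd_le mem_BX)
open Pool.Agent.N121.AH (Tp UU U2 er sc_mem)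
open Pool.Agent.N121.BF (Lm Lm_smul null_B)

variable {ι : Type} {n : ι → ℕ} {κ : ι → Type} {q : ℕ}

/-- the values of the functions at the coefficients -/
noncomputable def vn (ρ : ∀ j, κ j → ℚ) (a : (Σ i, Fin (n i + 2)) → ℂ) (s : Sx n κ) : ℂ := gn (ρ s.1) s.2 (pj a s.1)

theorem conv {σ : Type} [Fintype σ] [DecidableEq σ] {K : Type} [Field K] [NumberField K] (io : K →+* ℂ) {k : ℕ}
    (ξ : Fin k → ℂ) (μ : σ → ℂ) (c : (σ → Fin (k + 1)) → Fin k → 𝓞 K) (Z : σ → ℂ) :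
    ∑ l : σ → Fin (k + 1), (∑ i : Fin k × (σ → Fin (k + 1)), (ξ i.1 * ∏ s, μ s ^ (i.2 s : ℕ)) *
      io (((if i.2 = l then c l i.1 else 0 : 𝓞 K)) : K)) * ∏ s, Z s ^ (l s : ℕ) =
      ∑ l : σ → Fin (k + 1), (∑ i, ξ i * io (c l i : K)) * ∏ s, (μ s * Z s) ^ (l s : ℕ) := by
  refine Finset.sum_congr rfl fun l _ => ?_
  have h1 : ∏ s, (μ s * Z s) ^ (l s : ℕ) = (∏ s, μ s ^ (l s : ℕ)) * ∏ s, Z s ^ (l s : ℕ) := by
    rw [← Finset.prod_mul_distrib]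
    exact Finset.prod_congr rfl fun s _ => mul_pow _ _ _
  rw [h1, ← mul_assoc]
  congr 1
  rw [Fintype.sum_prod_type, Finset.sum_mul]
  refine Finset.sum_congr rfl fun i _ => ?_
  rw [Finset.sum_eq_single l]
  · rw [if_pos rfl]
    ring
  · intro l' _ hl'
    rw [if_neg hl']
    simp
  · intro h
    exact absurd (Finset.mem_univ _) h

/-- the theorem for fixed parameters -/
theorem stepC [Fintype ι] [DecidableEq ι] [Nonempty ι] [∀ j, Fintype (κ j)] [∀ j, DecidableEq (κ j)]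
    {ρ : ∀ j, κ j → ℚ} (hA : ∀ j, Adm (n j) (ρ j)) {w : Fin (q + 1) → ℂ} (hw : w 0 = 1) (k : ℕ) {ε : ℝ}
    (hε : 0 < ε) :
    ∃ T₀ : ℕ, ∀ T : ℕ, T₀ ≤ T → ∀ (K : Type) [Field K] [NumberField K], Module.finrank ℚ K ≤ k →
      ∀ (io : K →+* ℂ) (ξ : Fin k → ℂ), ∃ E ⊆ BX (on (XB n q)) T, (E.card : ℝ) ≤ ε * (BX (on (XB n q)) T).card ∧
        ∀ a ∈ BX (on (XB n q)) T, a ∉ E → (Lm w fun p => ((a p : ℤ) : ℂ)) ∈ UU n ∧
          ∀ (c : (Sx n κ → Fin (k + 1)) → Fin k → 𝓞 K), (∀ l i (φ : K →+* ℂ), ‖φ (c l i : K)‖ ≤ (T : ℝ) ^ k) →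
            ∑ l, (∑ i, ξ i * io (c l i : K)) * ∏ s, vn ρ (Lm w fun p => ((a p : ℤ) : ℂ)) s ^ (l s : ℕ) = 0 →
            ∀ g : ∀ j, κ j → Matrix (Fin (n j)) (Fin (n j)) ℂ, (∀ j s, (g j s).det = 1) →
              ∑ l, (∑ i, ξ i * io (c l i : K)) *
                ∏ s, actS g (vn ρ (Lm w fun p => ((a p : ℤ) : ℂ))) s ^ (l s : ℕ) = 0 := by
  classical
  obtain ⟨i0⟩ := ‹Nonempty ι›
  have : Nonempty ι := ⟨i0⟩
  have : Nonempty (XB n q) := ⟨(⟨i0, 0⟩, 0)⟩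
  have hρ : ∀ j i, ρ j i < 1 := fun j i => by have := (hA j).lt i; linarith
  obtain ⟨T₀, hT₀⟩ := few_int (DM_conn n hw) (DM_open n w) (DM_nonempty n hw) (hn_an (κ := κ) hρ w) (null_B n hw) k
    (Fin k × (Sx n κ → Fin (k + 1))) k (k : ℝ) hε
  refine ⟨T₀, fun T hT K _ _ hK io ξ => ?_⟩
  have hS : (0 : ℝ) < (sd T : ℝ) := by exact_mod_cast sd_pos T
  have hS2 : (0 : ℝ) < (sd T : ℝ) ^ 2 := by positivity
  set lam : ℝ := (sd T : ℝ) ^ 2 with hlam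
  set μ : Sx n κ → ℂ := fun s => (lam : ℂ) ^ (-(ρ s.1 s.2.1 : ℂ)) with hμ
  obtain ⟨E, hE1, hE2, hE3⟩ := hT₀ T hT K hK io (fun i => ξ i.1 * ∏ s, μ s ^ (i.2 s : ℕ))
  refine ⟨E, hE1, hE2, fun a ha haE => ?_⟩
  obtain ⟨hy, hrel⟩ := hE3 a ha haE
  set y : XB n q → ℂ := cx (sc (on (XB n q)) T a) with hydef
  have hyU : Lm w y ∈ UU n := hy
  have hay : (fun p => ((a p : ℤ) : ℂ)) = fun p => (lam : ℂ) * y p := by
    funext p
    rw [hydef]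
    unfold cx sc on
    rw [pow_one, hlam]
    push_cast
    have h1 : ((sd T : ℕ) : ℂ) ≠ 0 := by exact_mod_cast (sd_pos T).ne'
    field_simp
  have hL : (Lm w fun p => ((a p : ℤ) : ℂ)) = fun x => (lam : ℂ) * Lm w y x := by
    rw [hay, Lm_smul]
  have hmem : ∀ j, pj (Lm w fun p => ((a p : ℤ) : ℂ)) j = fun x => (lam : ℂ) * pj (Lm w y) j x := by
    intro j
    rw [hL]
    rfl
  have hV : ∀ s, vn ρ (Lm w fun p => ((a p : ℤ) : ℂ)) s = μ s * hn ρ w s y := by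
    intro s
    unfold vn hn
    rw [hmem, gn_scale _ _ hS2 _ (hyU s.1)]
  have hVg : ∀ g : ∀ j, κ j → Matrix (Fin (n j)) (Fin (n j)) ℂ, ∀ s,
      actS g (vn ρ (Lm w fun p => ((a p : ℤ) : ℂ))) s = μ s * actS g (fun s => hn ρ w s y) s := by
    rintro g ⟨j, x⟩
    rw [actS_apply, actS_apply, Finset.mul_sum]
    refine Finset.sum_congr rfl fun b _ => ?_
    rw [hV]
    have : μ ⟨j, (x.1, b, x.2.2)⟩ = μ ⟨j, x⟩ := rfl
    rw [this]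
    ring
  refine ⟨fun j => ?_, fun c hc h0 g hg => ?_⟩
  · rw [hmem]
    exact (sc_mem hS (hyU j)).1
  · simp only [hV] at h0
    simp only [hVg]
    rw [← conv io ξ μ c] at h0 ⊢
    refine hrel _ ?_ h0 (OrbS fun s => hn ρ w s y) (irr_orbS _) ⟨fun _ _ => 1, fun _ _ => Matrix.det_one, ?_⟩
      (orb_fibS hA hw hy) _ ⟨g, hg, rfl⟩
    · intro l i φ
      have hTT : (T : ℝ) ^ k ≤ (Tp T) ^ (k : ℝ) := by
        rw [Real.rpow_natCast]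
        exact pow_le_pow_left₀ (Nat.cast_nonneg _) (lt_sd' T).le _
      split_ifs
      · exact (hc _ _ _).trans hTT
      · simp only [map_zero, norm_zero]
        exact le_trans (by positivity) hTT
    · rw [actS_one]

/-! ## matrices and polynomials -/

/-- the exponents -/
def Ex (n k : ℕ) : Set ℚ :=
  {ρ | 0 < ρ ∧ ρ < 1 / 2 ∧ ρ.den ≤ k ∧ ρ.den ≠ 4 ∧ ρ.den ≠ 6 ∧ ρ.den ≠ 10 ∧ ∀ b : ℤ, ((n : ℚ) + 1) * ρ ≠ b}

theorem finite_ex (n k : ℕ) : (Ex n k).Finite := by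
  refine Set.Finite.subset ((Finset.range (k + 1) ×ˢ Finset.range (k + 1)).image
    (fun p : ℕ × ℕ => (p.1 : ℚ) / (p.2 : ℚ))).finite_toSet ?_
  rintro ρ ⟨h1, h2, h3, -⟩
  rw [Finset.mem_coe, Finset.mem_image]
  have hnum : 0 < ρ.num := Rat.num_pos.2 h1
  have hden : (0 : ℚ) < ρ.den := by exact_mod_cast ρ.den_pos
  have h4 := Rat.mul_den_eq_num ρ
  have hle : ρ.num < ρ.den := by
    have h5 : (ρ.num : ℚ) < ρ.den := by
      rw [← h4]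
      nlinarith
    exact_mod_cast h5
  refine ⟨(ρ.num.toNat, ρ.den), ?_, ?_⟩
  · rw [Finset.mem_product, Finset.mem_range, Finset.mem_range]
    constructor
    · show ρ.num.toNat < k + 1
      omega
    · show ρ.den < k + 1
      omega
  · show ((ρ.num.toNat : ℕ) : ℚ) / (ρ.den : ℚ) = ρ
    have h5 : ((ρ.num.toNat : ℕ) : ℚ) = (ρ.num : ℚ) := by
      have : ((ρ.num.toNat : ℕ) : ℤ) = ρ.num := Int.toNat_of_nonneg hnum.le
      exact_mod_cast this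
    rw [h5, ← h4]
    field_simp

theorem adm_ex (n k : ℕ) : Adm n (fun ρ : Ex n k => (ρ : ℚ)) where
  inj := Subtype.val_injective
  pos := fun ρ => ρ.2.1
  lt := fun ρ => ρ.2.2.1
  den := fun ρ => ⟨ρ.2.2.2.2.1, ρ.2.2.2.2.2.1, ρ.2.2.2.2.2.2.1⟩
  int := fun ρ => ρ.2.2.2.2.2.2.2

/-- the period matrices -/
noncomputable def PX (n : ι → ℕ) (k : ℕ) (a : (Σ i, Fin (n i + 2)) → ℂ) (e : ∀ j, Fin (n j + 1) → ℂ) (j : ι)
    (ρ : Ex (n j) k) : Matrix (Fin (n j)) (Fin (n j)) ℂ :=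
  Matrix.of fun l i => pd (ρ : ℚ) (a ⟨j, Fin.last (n j + 1)⟩) (e j) l (i : ℕ)

/-- the value of a polynomial at a system of matrices -/
noncomputable def vl {n : ι → ℕ} {k : ℕ} (P : MvPolynomial (Sx n fun j => Ex (n j) k) ℂ)
    (Y : ∀ j, Ex (n j) k → Matrix (Fin (n j)) (Fin (n j)) ℂ) : ℂ :=
  MvPolynomial.eval (fun s => Y s.1 s.2.1 s.2.2.1 s.2.2.2) P

/-- the relations -/
def GoodC (n : ι → ℕ) (k : ℕ) (K : Type) [Field K] [NumberField K] (io : K →+* ℂ) (ξ : Fin k → ℂ) (H : ℝ)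
    (a : (Σ i, Fin (n i + 2)) → ℂ) : Prop :=
  ∃ e : ∀ j, Fin (n j + 1) → ℂ,
    (∀ j, a ⟨j, Fin.last (n j + 1)⟩ ≠ 0 ∧
      Pool.Agent.N121.AH.fp (pj a j) = Polynomial.C (a ⟨j, Fin.last (n j + 1)⟩) * Pool.Agent.N121.OH.rp (e j) ∧
      ∀ r s, r < s → (e j r).re + (e j r).im < (e j s).re + (e j s).im) ∧
    ∀ P : MvPolynomial (Sx n fun j => Ex (n j) k) ℂ, (∀ s, P.degreeOf s ≤ k) →
      (∀ m, ∃ c : Fin k → 𝓞 K, (∀ i (φ : K →+* ℂ), ‖φ (c i : K)‖ ≤ H) ∧ P.coeff m = ∑ i, ξ i * io (c i : K)) →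
      vl P (PX n k a e) = 0 → ∀ g : ∀ j, Ex (n j) k → Matrix (Fin (n j)) (Fin (n j)) ℂ, (∀ j ρ, (g j ρ).det = 1) →
        vl P (fun j ρ => g j ρ * PX n k a e j ρ) = 0

theorem good_of [Fintype ι] [DecidableEq ι] {k : ℕ} {K : Type} [Field K] [NumberField K] {io : K →+* ℂ}
    {ξ : Fin k → ℂ} {H : ℝ} {a : (Σ i, Fin (n i + 2)) → ℂ} (ha : a ∈ UU n) [∀ j, Fintype (Ex (n j) k)]
    [∀ j, DecidableEq (Ex (n j) k)]
    (h : ∀ (c : ((Sx n fun j => Ex (n j) k) → Fin (k + 1)) → Fin k → 𝓞 K),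
      (∀ l i (φ : K →+* ℂ), ‖φ (c l i : K)‖ ≤ H) →
            ∑ l, (∑ i, ξ i * io (c l i : K)) * ∏ s, vn (fun j (ρ : Ex (n j) k) => (ρ : ℚ)) a s ^ (l s : ℕ) = 0 →
            ∀ g : ∀ j, Ex (n j) k → Matrix (Fin (n j)) (Fin (n j)) ℂ, (∀ j s, (g j s).det = 1) →
              ∑ l, (∑ i, ξ i * io (c l i : K)) *
                ∏ s, actS g (vn (fun j (ρ : Ex (n j) k) => (ρ : ℚ)) a) s ^ (l s : ℕ) = 0) :
    GoodC n k K io ξ H a := by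
  refine ⟨fun j => er (pj a j), fun j => ⟨Pool.Agent.N121.AH.lead_ne (ha j), Pool.Agent.N121.AH.fp_er (ha j),
    Pool.Agent.N121.AH.er_order (ha j)⟩, fun P hP hc h0 g hg => ?_⟩
  have hv : ∀ s : (Sx n fun j => Ex (n j) k), vn (fun j (ρ : Ex (n j) k) => (ρ : ℚ)) a s =
      PX n k a (fun j => er (pj a j)) s.1 s.2.1 s.2.2.1 s.2.2.2 := by
    intro s
    unfold vn
    rw [gn_eq]
    rfl
  choose c hc1 hc2 using hc
  have key : ∀ Z : (Sx n fun j => Ex (n j) k) → ℂ, MvPolynomial.eval Z P = ∑ l : (Sx n fun j => Ex (n j) k) → Fin (k + 1),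
      (∑ i, ξ i * io (c (Finsupp.equivFunOnFinite.symm fun y => (l y : ℕ)) i : K)) * ∏ s, Z s ^ (l s : ℕ) := by
    intro Z
    rw [← Y119.PLM.sum_expM hP]
    refine Finset.sum_congr rfl fun l _ => ?_
    rw [hc2]
  have h1 := h (fun l => c (Finsupp.equivFunOnFinite.symm fun y => (l y : ℕ))) (fun l i φ => hc1 _ i φ) (by
    rw [← key, ← h0]
    unfold vl
    exact congrArg (fun z => MvPolynomial.eval z P) (funext hv)) g hg
  rw [← key] at h1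
  rw [← h1]
  unfold vl
  refine congrArg (fun z => MvPolynomial.eval z P) (funext ?_)
  rintro ⟨j, x⟩
  rw [actS_apply]
  show (g j x.1 * PX n k a (fun j => er (pj a j)) j x.1) x.2.1 x.2.2 = _
  rw [Matrix.mul_apply]
  refine Finset.sum_congr rfl fun b _ => ?_
  rw [hv]

/-- **Main theorem.** -/
theorem main [Fintype ι] [DecidableEq ι] [Nonempty ι] (n : ι → ℕ) {w : Fin (q + 1) → ℂ} (hw : w 0 = 1) :
    ∃ ω : ℕ → ℕ, Tendsto ω atTop atTop ∧ ∀ ε : ℝ, 0 < ε → ∃ T₀ : ℕ, ∀ T : ℕ, T₀ ≤ T →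
      ∀ (K : Type) [Field K] [NumberField K], Module.finrank ℚ K ≤ ω T → ∀ (io : K →+* ℂ) (ξ : Fin (ω T) → ℂ),
      ∃ E ⊆ BX (on (XB n q)) T, (E.card : ℝ) ≤ ε * (BX (on (XB n q)) T).card ∧
      ∀ a ∈ BX (on (XB n q)) T, a ∉ E →
        GoodC n (ω T) K io ξ ((T : ℝ) ^ ω T) (Lm w fun p => ((a p : ℤ) : ℂ)) := by
  classical
  obtain ⟨ω, T₀, hω, -, H⟩ := Pool.Agent.Y890.SP.exists_omega
    (fun k (T : ℝ) => ∀ (K : Type) [Field K] [NumberField K], Module.finrank ℚ K ≤ k →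
      ∀ (io : K →+* ℂ) (ξ : Fin k → ℂ), ∃ E ⊆ BX (on (XB n q)) ⌊T⌋₊,
      (E.card : ℝ) ≤ ((k : ℝ) + 1)⁻¹ * (BX (on (XB n q)) ⌊T⌋₊).card ∧
      ∀ a ∈ BX (on (XB n q)) ⌊T⌋₊, a ∉ E →
        GoodC n k K io ξ ((⌊T⌋₊ : ℝ) ^ k) (Lm w fun p => ((a p : ℤ) : ℂ))) (fun k => by
    have hft : ∀ j, Fintype (Ex (n j) (k + 1)) := fun j => (finite_ex (n j) (k + 1)).fintype
    obtain ⟨T₀, hT₀⟩ := stepC (n := n) (κ := fun j => Ex (n j) (k + 1)) (ρ := fun j ρ => (ρ : ℚ))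
      (fun j => adm_ex (n j) (k + 1)) hw (k + 1) (ε := (((k + 1 : ℕ) : ℝ) + 1)⁻¹) (by positivity)
    refine ⟨T₀, fun T hT K _ _ hK io ξ => ?_⟩
    obtain ⟨E, hE1, hE2, hE3⟩ := hT₀ ⌊T⌋₊ (Nat.le_floor hT) K hK io ξ
    exact ⟨E, hE1, hE2, fun a ha haE => good_of (hE3 a ha haE).1 (hE3 a ha haE).2⟩)
  refine ⟨fun T => ω (T : ℝ), hω.comp tendsto_natCast_atTop_atTop, fun ε hε => ?_⟩
  obtain ⟨k, hk⟩ := exists_nat_gt ε⁻¹
  have h1 : ∀ᶠ T : ℕ in atTop, k ≤ ω (T : ℝ) := (hω.comp tendsto_natCast_atTop_atTop).eventually_ge_atTop k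
  obtain ⟨T₁, hT₁⟩ := eventually_atTop.1 h1
  refine ⟨max T₁ ⌈T₀⌉₊, fun T hT K _ _ hK io ξ => ?_⟩
  have hT1 : T₁ ≤ T := (le_max_left _ _).trans hT
  have hT0 : T₀ ≤ (T : ℝ) := (Nat.le_ceil T₀).trans (by exact_mod_cast (le_max_right _ _).trans hT)
  obtain ⟨-, h2⟩ := H (T : ℝ) hT0
  obtain ⟨E, hE1, hE2, hE3⟩ := h2 K hK io ξ
  rw [Nat.floor_natCast] at hE1 hE2 hE3
  refine ⟨E, hE1, hE2.trans (mul_le_mul_of_nonneg_right ?_ (Nat.cast_nonneg _)), hE3⟩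
  have h3 : (k : ℝ) ≤ ω (T : ℝ) := by exact_mod_cast hT₁ T hT1
  rw [inv_le_comm₀ (by positivity) hε]
  linarith

end Pool.Agent.Run7.h659.CD
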