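import Mathlib

/-!
# Tensor powers of matrices and Hodge bases
-/

set_option autoImplicit false

open Matrix

namespace Pool.Agent.Run7.h659.HG

/-- the indices of the tensors of type `(p, q)` -/
abbrev TI (M : Type) (p q : ℕ) : Type := (Fin p → M) × (Fin q → M)

section ring

variable {M : Type} [Fintype M] [DecidableEq M] {p q : ℕ} {R : Type} [CommRing R]

/-- tensor products of matrices -/
def tp (A : Fin p → Matrix M M R) (B : Fin q → Matrix M M R) : Matrix (TI M p q) (TI M p q) R :=
  Matrix.of fun I J => (∏ s, A s (I.1 s) (J.1 s)) * ∏ t, B t (J.2 t) (I.2 t)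

theorem tp_mul (A A' : Fin p → Matrix M M R) (B B' : Fin q → Matrix M M R) :
    tp A B * tp A' B' = tp (fun s => A s * A' s) (fun t => B' t * B t) := by
  ext I J
  unfold tp
  rw [Matrix.of_apply, Matrix.mul_apply]
  simp only [Matrix.mul_apply, Matrix.of_apply]
  rw [Finset.prod_univ_sum, Finset.prod_univ_sum, Finset.sum_mul_sum, Fintype.sum_prod_type]
  simp only [Fintype.piFinset_univ]
  refine Finset.sum_congr rfl fun a _ => Finset.sum_congr rfl fun b _ => ?_
  rw [Finset.prod_mul_distrib, Finset.prod_mul_distrib]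
  ring

theorem tp_diag (d : Fin p → M → R) (e : Fin q → M → R) :
    tp (fun s => diagonal (d s)) (fun t => diagonal (e t)) =
      diagonal fun I : TI M p q => (∏ s, d s (I.1 s)) * ∏ t, e t (I.2 t) := by
  ext I J
  unfold tp
  rw [Matrix.of_apply]
  by_cases h : I = J
  · subst h
    simp
  · rw [diagonal_apply_ne _ h]
    by_cases h1 : I.1 = J.1
    · have h2 : I.2 ≠ J.2 := fun h3 => h (Prod.ext h1 h3)
      obtain ⟨a, ha⟩ := Function.ne_iff.1 h2
      rw [Finset.prod_eq_zero (s := Finset.univ) (f := fun t => diagonal (e t) (J.2 t) (I.2 t)) (Finset.mem_univ a)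
        (diagonal_apply_ne _ (Ne.symm ha)), mul_zero]
    · obtain ⟨a, ha⟩ := Function.ne_iff.1 h1
      rw [Finset.prod_eq_zero (s := Finset.univ) (f := fun s => diagonal (d s) (I.1 s) (J.1 s)) (Finset.mem_univ a)
        (diagonal_apply_ne _ ha), zero_mul]

theorem tp_one : tp (fun _ : Fin p => (1 : Matrix M M R)) (fun _ : Fin q => (1 : Matrix M M R)) = 1 := by
  have h := tp_diag (M := M) (R := R) (p := p) (q := q) (fun _ _ => 1) (fun _ _ => 1)
  simp only [Finset.prod_const_one, mul_one] at h
  rw [← diagonal_one, ← diagonal_one]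
  exact h

/-- the derivation of the tensors defined by `Y` -/
def dt (p q : ℕ) (Y : Matrix M M R) : Matrix (TI M p q) (TI M p q) R :=
  ∑ s : Fin p, tp (Function.update (fun _ => 1) s Y) (fun _ => 1) -
    ∑ t : Fin q, tp (fun _ => 1) (Function.update (fun _ => 1) t Y)

end ring

section field

variable {M : Type} [Fintype M] [DecidableEq M] {p q : ℕ} {K : Type} [Field K]

/-- the action on the tensors of type `(p, q)` -/
noncomputable def tn (p q : ℕ) (x : Matrix M M K) : Matrix (TI M p q) (TI M p q) K :=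
  tp (fun _ => x) (fun _ => x⁻¹)

theorem tn_mul (x y : Matrix M M K) : tn p q (x * y) = tn p q x * tn p q y := by
  unfold tn
  rw [tp_mul]
  congr 1
  funext t
  exact Matrix.mul_inv_rev x y

theorem tn_one : tn p q (1 : Matrix M M K) = 1 := by
  unfold tn
  rw [inv_one]
  exact tp_one

theorem tn_unit {x : Matrix M M K} (hx : IsUnit x) : IsUnit (tn p q x) := by
  have h1 : x * x⁻¹ = 1 := mul_nonsing_inv _ ((isUnit_iff_isUnit_det _).1 hx)
  have h2 : tn p q x * tn p q x⁻¹ = 1 := by rw [← tn_mul, h1, tn_one]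
  exact IsUnit.of_mul_eq_one _ h2

theorem tn_inv {x : Matrix M M K} (hx : IsUnit x) : (tn p q x)⁻¹ = tn p q x⁻¹ := by
  have h1 : x * x⁻¹ = 1 := mul_nonsing_inv _ ((isUnit_iff_isUnit_det _).1 hx)
  exact inv_eq_right_inv (by rw [← tn_mul, h1, tn_one])

theorem tn_transpose (x : Matrix M M K) : (tn p q x)ᵀ = tn p q xᵀ := by
  ext I J
  unfold tn tp
  rw [transpose_apply, Matrix.of_apply, Matrix.of_apply, ← transpose_nonsing_inv]
  rfl

theorem inv_diag {d : M → K} (hd : ∀ i, d i ≠ 0) : (diagonal d)⁻¹ = diagonal fun i => (d i)⁻¹ := by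
  refine inv_eq_right_inv ?_
  rw [diagonal_mul_diagonal, ← diagonal_one]
  congr 1
  funext i
  exact mul_inv_cancel₀ (hd i)

theorem tn_diag {d : M → K} (hd : ∀ i, d i ≠ 0) : tn p q (diagonal d) =
    diagonal fun I : TI M p q => (∏ s, d (I.1 s)) * ∏ t, (d (I.2 t))⁻¹ := by
  unfold tn
  rw [inv_diag hd]
  exact tp_diag (fun _ => d) (fun _ i => (d i)⁻¹)

/-- equivariance of the derivations -/
theorem dt_conj {g : Matrix M M K} (hg : IsUnit g) (Y : Matrix M M K) :
    dt p q (g * Y * g⁻¹) * tn p q g = tn p q g * dt p q Y := by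
  have h1 : g⁻¹ * g = 1 := nonsing_inv_mul _ ((isUnit_iff_isUnit_det _).1 hg)
  have h2 : g * g⁻¹ = 1 := mul_nonsing_inv _ ((isUnit_iff_isUnit_det _).1 hg)
  unfold dt tn
  rw [sub_mul, mul_sub, Finset.sum_mul, Finset.sum_mul, Finset.mul_sum, Finset.mul_sum]
  congr 1
  · refine Finset.sum_congr rfl fun s _ => ?_
    rw [tp_mul, tp_mul]
    congr 1
    · funext a
      by_cases ha : a = s
      · subst ha
        rw [Function.update_self, Function.update_self, Matrix.mul_assoc, h1, Matrix.mul_one]
      · rw [Function.update_of_ne ha, Function.update_of_ne ha, Matrix.one_mul, Matrix.mul_one]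
    · funext a
      rw [Matrix.one_mul, Matrix.mul_one]
  · refine Finset.sum_congr rfl fun t _ => ?_
    rw [tp_mul, tp_mul]
    congr 1
    · funext a
      rw [Matrix.one_mul, Matrix.mul_one]
    · funext a
      by_cases ha : a = t
      · subst ha
        rw [Function.update_self, Function.update_self, Matrix.mul_assoc, ← Matrix.mul_assoc g⁻¹, h1, Matrix.one_mul]
      · rw [Function.update_of_ne ha, Function.update_of_ne ha, Matrix.one_mul, Matrix.mul_one]

end field

end Pool.Agent.Run7.h659.HG
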