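import Pool.Agent.Run7.h659.HG1

/-!
# Hodge bases: tensors, the circle action, finiteness of integral Hodge classes of given norm
-/

set_option autoImplicit false
set_option linter.unusedSectionVars false

open Matrix

namespace Pool.Agent.Run7.h659.HG

variable {M : Type} [Fintype M] [DecidableEq M] {p q : ℕ}

/-- complex conjugation -/
noncomputable def cj (x : Matrix M M ℂ) : Matrix M M ℂ := x.map (starRingEnd ℂ)

theorem cj_mul (x y : Matrix M M ℂ) : cj (x * y) = cj x * cj y := by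
  unfold cj
  exact Matrix.map_mul

theorem cj_one : cj (1 : Matrix M M ℂ) = 1 := by
  unfold cj
  exact Matrix.map_one _ (map_zero _) (map_one _)

theorem cj_cj (x : Matrix M M ℂ) : cj (cj x) = x := by
  ext i j
  unfold cj
  simp

theorem cj_unit {x : Matrix M M ℂ} (hx : IsUnit x) : IsUnit (cj x) := by
  have h1 : x * x⁻¹ = 1 := mul_nonsing_inv _ ((isUnit_iff_isUnit_det _).1 hx)
  exact IsUnit.of_mul_eq_one (cj x⁻¹) (by rw [← cj_mul, h1, cj_one])

theorem cj_inv {x : Matrix M M ℂ} (hx : IsUnit x) : cj x⁻¹ = (cj x)⁻¹ := by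
  have h1 : x * x⁻¹ = 1 := mul_nonsing_inv _ ((isUnit_iff_isUnit_det _).1 hx)
  exact (inv_eq_right_inv (by rw [← cj_mul, h1, cj_one])).symm

theorem cj_tn {x : Matrix M M ℂ} (hx : IsUnit x) : cj (tn p q x) = tn p q (cj x) := by
  unfold tn
  rw [← cj_inv hx]
  ext I J
  unfold cj tp
  simp [map_prod]

/-- `Q` is a Hodge basis: `l = p - q` on its columns, the form `S` satisfies the Hodge-Riemann relations. -/
structure HD (Q S : Matrix M M ℂ) (l : M → ℤ) : Prop where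
  form : Qᵀ * S * cj Q = diagonal fun j => Complex.I ^ (-(l j))
  conj : ∃ U : Matrix M M ℂ, cj Q = Q * U ∧ ∀ i j, l i + l j ≠ 0 → U i j = 0

theorem HD.unitQ {Q S : Matrix M M ℂ} {l : M → ℤ} (h : HD Q S l) : IsUnit Q := by
  have h1 := congrArg det h.form
  rw [det_mul, det_mul, det_transpose, det_diagonal] at h1
  rw [isUnit_iff_isUnit_det, isUnit_iff_ne_zero]
  intro h0
  rw [h0, zero_mul, zero_mul] at h1
  exact (Finset.prod_ne_zero_iff.2 fun j _ => zpow_ne_zero _ Complex.I_ne_zero) h1.symm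

theorem HD.unitS {Q S : Matrix M M ℂ} {l : M → ℤ} (h : HD Q S l) : IsUnit S := by
  have h1 := congrArg det h.form
  rw [det_mul, det_mul, det_transpose, det_diagonal] at h1
  rw [isUnit_iff_isUnit_det, isUnit_iff_ne_zero]
  intro h0
  rw [h0, mul_zero, zero_mul] at h1
  exact (Finset.prod_ne_zero_iff.2 fun j _ => zpow_ne_zero _ Complex.I_ne_zero) h1.symm

/-- the weights of tensors -/
def tl (p q : ℕ) (l : M → ℤ) (I : TI M p q) : ℤ := ∑ s, l (I.1 s) - ∑ t, l (I.2 t)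

theorem prod_zp {z : ℂ} (hz : z ≠ 0) {ι : Type} (s : Finset ι) (f : ι → ℤ) : ∏ i ∈ s, z ^ f i = z ^ ∑ i ∈ s, f i := by
  classical
  induction s using Finset.induction_on with
  | empty => simp
  | insert a s ha ih => rw [Finset.prod_insert ha, Finset.sum_insert ha, zpow_add₀ hz, ih]

theorem tn_zp (l : M → ℤ) {z : ℂ} (hz : z ≠ 0) : tn p q (diagonal fun j => z ^ l j) =
    diagonal fun I : TI M p q => z ^ tl p q l I := by
  rw [tn_diag fun i => zpow_ne_zero _ hz]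
  congr 1
  funext I
  unfold tl
  rw [zpow_sub₀ hz, prod_zp hz, Finset.prod_inv_distrib, prod_zp hz]
  rfl

theorem HD.tn {Q S : Matrix M M ℂ} {l : M → ℤ} (h : HD Q S l) : HD (tn p q Q) (tn p q S) (tl p q l) := by
  refine ⟨?_, ?_⟩
  · rw [tn_transpose, cj_tn h.unitQ, ← tn_mul, ← tn_mul, h.form]
    have h1 : (fun j => Complex.I ^ (-(l j))) = fun j => (Complex.I⁻¹) ^ l j := by
      funext j
      rw [_root_.inv_zpow, _root_.zpow_neg]
    rw [h1, tn_zp l (inv_ne_zero Complex.I_ne_zero)]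
    congr 1
    funext I
    rw [_root_.inv_zpow, _root_.zpow_neg]
  · obtain ⟨U, hU, hU2⟩ := h.conj
    have hU3 : U * cj U = 1 := by
      have h1 := congrArg cj hU
      rw [cj_cj, cj_mul, hU, Matrix.mul_assoc] at h1
      have h2 : Q⁻¹ * Q = Q⁻¹ * (Q * (U * cj U)) := congrArg (fun x => Q⁻¹ * x) h1
      rw [← Matrix.mul_assoc Q⁻¹ Q, nonsing_inv_mul _ ((isUnit_iff_isUnit_det _).1 h.unitQ), Matrix.one_mul] at h2
      exact h2.symm
    refine ⟨HG.tn p q U, ?_, ?_⟩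
    · rw [cj_tn h.unitQ, hU, tn_mul]
    · intro I J hIJ
      unfold HG.tn tp
      rw [Matrix.of_apply, inv_eq_right_inv hU3]
      by_contra hne
      obtain ⟨h4, h5⟩ := mul_ne_zero_iff.1 hne
      rw [Finset.prod_ne_zero_iff] at h4 h5
      apply hIJ
      have h6 : ∀ s, l (I.1 s) + l (J.1 s) = 0 := fun s => by
        by_contra h7
        exact h4 s (Finset.mem_univ s) (hU2 _ _ h7)
      have h8 : ∀ t, l (I.2 t) + l (J.2 t) = 0 := fun t => by
        by_contra h7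
        apply h5 t (Finset.mem_univ t)
        change (starRingEnd ℂ) (U (J.2 t) (I.2 t)) = 0
        rw [hU2 _ _ (by rwa [add_comm]), map_zero]
      unfold tl
      have h9 : ∑ s, l (I.1 s) + ∑ s, l (J.1 s) = 0 := by
        rw [← Finset.sum_add_distrib]
        exact Finset.sum_eq_zero fun s _ => h6 s
      have h10 : ∑ s, l (I.2 s) + ∑ s, l (J.2 s) = 0 := by
        rw [← Finset.sum_add_distrib]
        exact Finset.sum_eq_zero fun s _ => h8 s
      linarith

/-- the circle action -/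
noncomputable def ch (Q : Matrix M M ℂ) (l : M → ℤ) (z : ℂ) : Matrix M M ℂ := Q * diagonal (fun j => z ^ l j) * Q⁻¹

theorem ch_tn {Q : Matrix M M ℂ} (hQ : IsUnit Q) (l : M → ℤ) {z : ℂ} (hz : z ≠ 0) :
    tn p q (ch Q l z) = ch (tn p q Q) (tl p q l) z := by
  unfold ch
  rw [tn_mul, tn_mul, tn_zp l hz, tn_inv hQ]

theorem ch_mul_inv {Q : Matrix M M ℂ} (hQ : IsUnit Q) (l : M → ℤ) {z : ℂ} (hz : z ≠ 0) : ch Q l z * ch Q l z⁻¹ = 1 := by
  have h1 : Q * Q⁻¹ = 1 := mul_nonsing_inv _ ((isUnit_iff_isUnit_det _).1 hQ)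
  have h2 : Q⁻¹ * Q = 1 := nonsing_inv_mul _ ((isUnit_iff_isUnit_det _).1 hQ)
  unfold ch
  calc Q * diagonal (fun j => z ^ l j) * Q⁻¹ * (Q * diagonal (fun j => z⁻¹ ^ l j) * Q⁻¹) =
      Q * (diagonal (fun j => z ^ l j) * (Q⁻¹ * Q) * diagonal (fun j => z⁻¹ ^ l j)) * Q⁻¹ := by
        simp only [Matrix.mul_assoc]
    _ = 1 := by
      rw [h2, Matrix.mul_one, diagonal_mul_diagonal]
      have h3 : (fun i => z ^ l i * z⁻¹ ^ l i) = fun _ => (1 : ℂ) := by
        funext i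
        rw [← _root_.mul_zpow, mul_inv_cancel₀ hz, _root_.one_zpow]
      rw [h3, diagonal_one, Matrix.mul_one, h1]

/-- `b` is a Hodge class -/
def Hd (Q : Matrix M M ℂ) (l : M → ℤ) (b : M → ℂ) : Prop := ∀ j, l j ≠ 0 → (Q⁻¹ *ᵥ b) j = 0

theorem ch_mulVec (Q : Matrix M M ℂ) (l : M → ℤ) (z : ℂ) (b : M → ℂ) :
    ch Q l z *ᵥ b = Q *ᵥ fun j => z ^ l j * (Q⁻¹ *ᵥ b) j := by
  unfold ch
  rw [← mulVec_mulVec, ← mulVec_mulVec]
  congr 1
  funext j
  rw [mulVec_diagonal]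

theorem Q_inv {Q : Matrix M M ℂ} (hQ : IsUnit Q) (b : M → ℂ) : Q *ᵥ (Q⁻¹ *ᵥ b) = b := by
  rw [mulVec_mulVec, mul_nonsing_inv _ ((isUnit_iff_isUnit_det _).1 hQ), one_mulVec]

theorem inv_Q {Q : Matrix M M ℂ} (hQ : IsUnit Q) (b : M → ℂ) : Q⁻¹ *ᵥ (Q *ᵥ b) = b := by
  rw [mulVec_mulVec, nonsing_inv_mul _ ((isUnit_iff_isUnit_det _).1 hQ), one_mulVec]

theorem Hd.ch {Q : Matrix M M ℂ} (hQ : IsUnit Q) {l : M → ℤ} {b : M → ℂ} (h : Hd Q l b) (z : ℂ) :
    HG.ch Q l z *ᵥ b = b := by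
  rw [ch_mulVec]
  conv_rhs => rw [← Q_inv hQ b]
  congr 1
  funext j
  by_cases hj : l j = 0
  · rw [hj, zpow_zero, one_mul]
  · rw [h j hj, mul_zero]

theorem Hd.of_ch {Q : Matrix M M ℂ} (hQ : IsUnit Q) {l : M → ℤ} {b : M → ℂ} (h : HG.ch Q l 2 *ᵥ b = b) : Hd Q l b := by
  intro j hj
  have h1 : Q⁻¹ *ᵥ (HG.ch Q l 2 *ᵥ b) = Q⁻¹ *ᵥ b := congrArg (fun x => Q⁻¹ *ᵥ x) h
  rw [ch_mulVec, inv_Q hQ] at h1
  have h2 := congrFun h1 j
  by_contra h3
  have h4 : (2 : ℂ) ^ l j = 1 := mul_right_cancel₀ h3 (by rw [one_mul]; exact h2)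
  have h5 : (2 : ℝ) ^ l j = 1 := by
    have h6 := congrArg norm h4
    have h7 : ‖(2 : ℂ)‖ = 2 := by simp
    rwa [norm_zpow, norm_one, h7] at h6
  rcases lt_or_gt_of_ne hj with h6 | h6
  · have := zpow_lt_one_of_neg₀ (by norm_num : (1 : ℝ) < 2) h6
    linarith
  · have := one_lt_zpow₀ (by norm_num : (1 : ℝ) < 2) h6
    linarith

/-- the derivation of a diagonal matrix -/
theorem dt_diag (d : M → ℂ) : dt p q (diagonal d) =
    diagonal fun I : TI M p q => ∑ s, d (I.1 s) - ∑ t, d (I.2 t) := by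
  unfold dt
  have h1 : ∀ s : Fin p, tp (Function.update (fun _ => 1) s (diagonal d)) (fun _ : Fin q => 1) =
      diagonal fun I : TI M p q => d (I.1 s) := by
    intro s
    have h2 := tp_diag (M := M) (R := ℂ) (p := p) (q := q) (Function.update (fun _ _ => 1) s d) (fun _ _ => 1)
    have h3 : (fun a => diagonal (Function.update (fun _ _ => (1 : ℂ)) s d a)) =
        Function.update (fun _ : Fin p => (1 : Matrix M M ℂ)) s (diagonal d) := by
      funext a
      by_cases ha : a = s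
      · subst ha; rw [Function.update_self, Function.update_self]
      · rw [Function.update_of_ne ha, Function.update_of_ne ha, ← diagonal_one]
    have h4 : (fun _ : Fin q => diagonal fun _ : M => (1 : ℂ)) = fun _ => (1 : Matrix M M ℂ) := by
      funext a; rw [← diagonal_one]
    rw [h3, h4] at h2
    rw [h2]
    congr 1
    funext I
    rw [Finset.prod_const_one, mul_one, Finset.prod_eq_single s]
    · rw [Function.update_self]
    · intro a _ ha
      rw [Function.update_of_ne ha]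
    · intro h; exact absurd (Finset.mem_univ _) h
  have h1' : ∀ t : Fin q, tp (fun _ : Fin p => 1) (Function.update (fun _ => 1) t (diagonal d)) =
      diagonal fun I : TI M p q => d (I.2 t) := by
    intro s
    have h2 := tp_diag (M := M) (R := ℂ) (p := p) (q := q) (fun _ _ => 1) (Function.update (fun _ _ => 1) s d)
    have h3 : (fun a => diagonal (Function.update (fun _ _ => (1 : ℂ)) s d a)) =
        Function.update (fun _ : Fin q => (1 : Matrix M M ℂ)) s (diagonal d) := by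
      funext a
      by_cases ha : a = s
      · subst ha; rw [Function.update_self, Function.update_self]
      · rw [Function.update_of_ne ha, Function.update_of_ne ha, ← diagonal_one]
    have h4 : (fun _ : Fin p => diagonal fun _ : M => (1 : ℂ)) = fun _ => (1 : Matrix M M ℂ) := by
      funext a; rw [← diagonal_one]
    rw [h3, h4] at h2
    rw [h2]
    congr 1
    funext I
    rw [Finset.prod_const_one, one_mul, Finset.prod_eq_single s]
    · rw [Function.update_self]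
    · intro a _ ha
      rw [Function.update_of_ne ha]
    · intro h; exact absurd (Finset.mem_univ _) h
  simp only [h1, h1']
  ext I J
  rw [Matrix.sub_apply, Matrix.sum_apply, Matrix.sum_apply]
  by_cases h : I = J
  · subst h
    simp only [diagonal_apply_eq]
  · simp only [diagonal_apply_ne _ h]
    simp

/-- the Hodge operator -/
noncomputable def XO (Q : Matrix M M ℂ) (l : M → ℤ) : Matrix M M ℂ := Q * diagonal (fun j => (l j : ℂ)) * Q⁻¹

theorem dt_XO {Q : Matrix M M ℂ} (hQ : IsUnit Q) (l : M → ℤ) (b : TI M p q → ℂ) :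
    Hd (tn p q Q) (tl p q l) b ↔ dt p q (XO Q l) *ᵥ b = 0 := by
  have h0 : dt p q (XO Q l) = tn p q Q * diagonal (fun I => (tl p q l I : ℂ)) * (tn p q Q)⁻¹ := by
    have h1 := dt_conj (p := p) (q := q) hQ (diagonal fun j => (l j : ℂ))
    have h2 : dt p q (diagonal fun j => (l j : ℂ)) = diagonal fun I : TI M p q => (tl p q l I : ℂ) := by
      rw [dt_diag]
      congr 1
      funext I
      unfold tl
      push_cast
      rfl
    rw [h2] at h1
    unfold XO
    rw [← h1, Matrix.mul_assoc (dt p q _), mul_nonsing_inv _ ((isUnit_iff_isUnit_det _).1 (tn_unit hQ)), Matrix.mul_one]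
  have hT := tn_unit (p := p) (q := q) hQ
  rw [h0, ← mulVec_mulVec, ← mulVec_mulVec]
  constructor
  · intro h
    have h1 : diagonal (fun I => (tl p q l I : ℂ)) *ᵥ ((tn p q Q)⁻¹ *ᵥ b) = 0 := by
      funext I
      rw [mulVec_diagonal]
      by_cases hI : tl p q l I = 0
      · rw [hI]; simp
      · rw [h I hI]; simp
    rw [h1, mulVec_zero]
  · intro h I hI
    have h1 : (tn p q Q)⁻¹ *ᵥ (tn p q Q *ᵥ (diagonal (fun I => (tl p q l I : ℂ)) *ᵥ ((tn p q Q)⁻¹ *ᵥ b))) =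
      (tn p q Q)⁻¹ *ᵥ 0 := congrArg (fun x => (tn p q Q)⁻¹ *ᵥ x) h
    rw [inv_Q hT, mulVec_zero] at h1
    have h2 := congrFun h1 I
    rw [mulVec_diagonal, Pi.zero_apply] at h2
    rcases mul_eq_zero.1 h2 with h3 | h3
    · exact absurd (by exact_mod_cast h3) hI
    · exact h3

/-- the norm of a real Hodge class -/
theorem HD.norm {Q S : Matrix M M ℂ} {l : M → ℤ} (h : HD Q S l) {b : M → ℂ} (hb : ∀ i, (starRingEnd ℂ) (b i) = b i)
    (hH : Hd Q l b) : b ⬝ᵥ (S *ᵥ b) = ((∑ j, ‖(Q⁻¹ *ᵥ b) j‖ ^ 2 : ℝ) : ℂ) := by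
  set u := Q⁻¹ *ᵥ b with hu
  have h1 : b = Q *ᵥ u := (Q_inv h.unitQ b).symm
  have h2 : b = cj Q *ᵥ fun j => (starRingEnd ℂ) (u j) := by
    funext i
    rw [← hb i]
    conv_lhs => rw [h1]
    unfold cj
    change (starRingEnd ℂ) (∑ j, Q i j * u j) = ∑ j, _ * _
    rw [map_sum]
    refine Finset.sum_congr rfl fun j _ => ?_
    rw [map_mul, map_apply]
  have h3 : b ⬝ᵥ (S *ᵥ b) = u ⬝ᵥ ((Qᵀ * S * cj Q) *ᵥ fun j => (starRingEnd ℂ) (u j)) := by
    have e1 : S *ᵥ b = S *ᵥ (cj Q *ᵥ fun j => (starRingEnd ℂ) (u j)) := by rw [← h2]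
    rw [e1]
    conv_lhs => rw [h1]
    rw [← mulVec_mulVec, ← mulVec_mulVec, dotProduct_mulVec u, vecMul_transpose]
  rw [h3, h.form]
  unfold dotProduct
  rw [Complex.ofReal_sum]
  refine Finset.sum_congr rfl fun j _ => ?_
  rw [mulVec_diagonal]
  by_cases hj : l j = 0
  · rw [hj, neg_zero, zpow_zero, one_mul, Complex.mul_conj, Complex.normSq_eq_norm_sq]
  · have h4 : u j = 0 := hH j hj
    rw [h4]
    simp

/-- integral Hodge classes of given norm are finite in number -/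
theorem HD.finite {Q S : Matrix M M ℂ} {l : M → ℤ} (h : HD Q S l) (κ : ℂ) :
    {x : M → ℂ | (∀ i, ∃ a : ℤ, x i = a) ∧ Hd Q l x ∧ x ⬝ᵥ (S *ᵥ x) = κ}.Finite := by
  classical
  set γ : M → ℝ := fun i => ∑ k, ‖Q i k‖ * (‖κ‖ + 1) with hγ
  have hfin : {a : M → ℤ | ∀ i, |(a i : ℝ)| ≤ γ i}.Finite := by
    have h1 : ∀ i, {a : ℤ | |(a : ℝ)| ≤ γ i}.Finite := by
      intro i
      refine (Set.finite_Icc (-⌈γ i⌉) ⌈γ i⌉).subset fun a ha => ?_
      have h2 := abs_le.1 (show |(a : ℝ)| ≤ γ i from ha)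
      have h3 := Int.le_ceil (γ i)
      constructor
      · have : (-(⌈γ i⌉ : ℝ)) ≤ a := by linarith
        exact_mod_cast this
      · have : (a : ℝ) ≤ ⌈γ i⌉ := by linarith
        exact_mod_cast this
    exact Set.Finite.pi' fun i => h1 i
  refine Set.Finite.subset (hfin.image fun a i => ((a i : ℤ) : ℂ)) ?_
  rintro x ⟨hx, hH, hκ⟩
  choose a ha using hx
  refine ⟨a, fun i => ?_, funext fun i => (ha i).symm⟩
  have hreal : ∀ i, (starRingEnd ℂ) (x i) = x i := fun i => by rw [ha i, map_intCast]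
  have h1 := h.norm hreal hH
  rw [hκ] at h1
  have h2 : ‖κ‖ = ∑ j, ‖(Q⁻¹ *ᵥ x) j‖ ^ 2 := by
    rw [h1, Complex.norm_real, Real.norm_eq_abs, abs_of_nonneg (Finset.sum_nonneg fun i _ => by positivity)]
  have h3 : ∀ k, ‖(Q⁻¹ *ᵥ x) k‖ ≤ ‖κ‖ + 1 := by
    intro k
    have h4 : ‖(Q⁻¹ *ᵥ x) k‖ ^ 2 ≤ ‖κ‖ := by
      rw [h2]
      exact Finset.single_le_sum (f := fun i => ‖(Q⁻¹ *ᵥ x) i‖ ^ 2) (fun i _ => by positivity) (Finset.mem_univ k)
    nlinarith [norm_nonneg ((Q⁻¹ *ᵥ x) k), norm_nonneg κ]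
  have h5 : |((a i : ℤ) : ℝ)| = ‖x i‖ := by rw [ha i, Complex.norm_intCast]
  rw [h5, ← Q_inv h.unitQ x]
  change ‖∑ k, Q i k * (Q⁻¹ *ᵥ x) k‖ ≤ _
  refine (norm_sum_le _ _).trans (Finset.sum_le_sum fun k _ => ?_)
  rw [norm_mul]
  exact mul_le_mul_of_nonneg_left (h3 k) (norm_nonneg _)

end Pool.Agent.Run7.h659.HG
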