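import Pool.Agent.Run7.h659.HG2

/-!
# Rational subspaces and orthogonal projectors
-/

set_option autoImplicit false
set_option linter.unusedSectionVars false

open Matrix

namespace Pool.Agent.Run7.h659.HG

variable {N : Type} [Fintype N] [DecidableEq N]

/-- rational vectors as complex vectors -/
noncomputable def rc (x : N → ℚ) : N → ℂ := fun i => (x i : ℂ)

/-- rational matrices as complex matrices -/
noncomputable def rm (x : Matrix N N ℚ) : Matrix N N ℂ := x.map (algebraMap ℚ ℂ)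

theorem rm_mul (x y : Matrix N N ℚ) : rm (x * y) = rm x * rm y := by
  unfold rm
  exact Matrix.map_mul

theorem rm_mulVec (x : Matrix N N ℚ) (y : N → ℚ) : rm x *ᵥ rc y = rc (x *ᵥ y) := by
  funext i
  change ∑ j, (algebraMap ℚ ℂ (x i j)) * (y j : ℂ) = ((∑ j, x i j * y j : ℚ) : ℂ)
  push_cast
  rfl

theorem rc_dot (x y : N → ℚ) : rc x ⬝ᵥ rc y = ((x ⬝ᵥ y : ℚ) : ℂ) := by
  unfold dotProduct rc
  push_cast
  rfl

theorem mem_span_rc {E : Set (N → ℚ)} {y : N → ℂ} (h : ∀ c : ℂ →ₗ[ℚ] ℚ, (fun n => c (y n)) ∈ E) :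
    y ∈ Submodule.span ℂ (rc '' E) := by
  classical
  set B := Module.Free.chooseBasis ℚ ℂ with hB
  set T := Finset.univ.biUnion fun n => (B.repr (y n)).support with hT
  have h1 : y = ∑ i ∈ T, B i • rc (fun n => B.coord i (y n)) := by
    funext n
    rw [Finset.sum_apply]
    have h2 := B.linearCombination_repr (y n)
    rw [Finsupp.linearCombination_apply, Finsupp.sum_of_support_subset (s := T) _ (by
      rw [hT]
      exact Finset.subset_biUnion_of_mem (fun n => (B.repr (y n)).support) (Finset.mem_univ n)) _ (by simp)] at h2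
    conv_lhs => rw [← h2]
    refine Finset.sum_congr rfl fun i _ => ?_
    rw [Rat.smul_def, Pi.smul_apply, smul_eq_mul, mul_comm]
    rfl
  rw [h1]
  refine Submodule.sum_mem _ fun i _ => Submodule.smul_mem _ _ (Submodule.subset_span ⟨_, h (B.coord i), rfl⟩)

variable {Q S : Matrix N N ℂ} {l : N → ℤ}

theorem HD.pair (h : HD Q S l) {b : N → ℂ} (hb : ∀ i, (starRingEnd ℂ) (b i) = b i) (v : N → ℂ) :
    (Q *ᵥ v) ⬝ᵥ (S *ᵥ b) = ∑ j, v j * (Complex.I ^ (-(l j)) * (starRingEnd ℂ) ((Q⁻¹ *ᵥ b) j)) := by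
  set u := Q⁻¹ *ᵥ b with hu
  have h1 : b = Q *ᵥ u := (Q_inv h.unitQ b).symm
  have h2 : b = cj Q *ᵥ fun j => (starRingEnd ℂ) (u j) := by
    funext i
    rw [← hb i]
    conv_lhs => rw [h1]
    unfold cj
    change (starRingEnd ℂ) (∑ j, Q i j * u j) = ∑ j, _ * _
    rw [map_sum]
    refine Finset.sum_congr rfl fun j _ => ?_
    rw [map_mul, map_apply]
  have h3 : (Q *ᵥ v) ⬝ᵥ (S *ᵥ b) = v ⬝ᵥ ((Qᵀ * S * cj Q) *ᵥ fun j => (starRingEnd ℂ) (u j)) := by
    have e1 : S *ᵥ b = S *ᵥ (cj Q *ᵥ fun j => (starRingEnd ℂ) (u j)) := by rw [← h2]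
    rw [e1, ← mulVec_mulVec, ← mulVec_mulVec, dotProduct_mulVec v, vecMul_transpose]
  rw [h3, h.form]
  unfold dotProduct
  refine Finset.sum_congr rfl fun j _ => ?_
  rw [mulVec_diagonal]

/-- the circle action preserves the form -/
theorem HD.isom (h : HD Q S l) {z : ℂ} (hz : z ≠ 0) : S * ch Q l z = (ch Q l z⁻¹)ᵀ * S := by
  obtain ⟨U, hU, hU2⟩ := h.conj
  have hQ := h.unitQ
  have hc := cj_unit hQ
  have hi1 : Q⁻¹ * Q = 1 := nonsing_inv_mul _ ((isUnit_iff_isUnit_det _).1 hQ)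
  have hi2 : Q * Q⁻¹ = 1 := mul_nonsing_inv _ ((isUnit_iff_isUnit_det _).1 hQ)
  have key : Qᵀ * (S * ch Q l z) * cj Q = Qᵀ * ((ch Q l z⁻¹)ᵀ * S) * cj Q := by
    have hΛ : diagonal (fun j => z ^ l j) * U = U * diagonal fun j => z⁻¹ ^ l j := by
      ext i j
      rw [diagonal_mul, mul_diagonal]
      by_cases hij : l i + l j = 0
      · have h5 : l i = -l j := by linarith
        rw [h5, _root_.inv_zpow, _root_.zpow_neg, mul_comm]
      · rw [hU2 _ _ hij, mul_zero, zero_mul]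
    have e1 : Qᵀ * (S * ch Q l z) * cj Q = diagonal (fun j => Complex.I ^ (-(l j))) * diagonal fun j => z⁻¹ ^ l j := by
      unfold ch
      conv_lhs => rw [hU]
      calc Qᵀ * (S * (Q * diagonal (fun j => z ^ l j) * Q⁻¹)) * (Q * U) =
          Qᵀ * S * Q * (diagonal (fun j => z ^ l j) * ((Q⁻¹ * Q) * U)) := by simp only [Matrix.mul_assoc]
        _ = Qᵀ * S * (Q * U) * diagonal (fun j => z⁻¹ ^ l j) := by
            rw [hi1, Matrix.one_mul, hΛ]
            simp only [Matrix.mul_assoc]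
        _ = _ := by rw [← hU, h.form]
    have e2 : Qᵀ * ((ch Q l z⁻¹)ᵀ * S) * cj Q = diagonal (fun j => z⁻¹ ^ l j) *
        diagonal fun j => Complex.I ^ (-(l j)) := by
      unfold ch
      rw [transpose_mul, transpose_mul, diagonal_transpose]
      calc Qᵀ * ((Q⁻¹)ᵀ * (diagonal (fun j => z⁻¹ ^ l j) * Qᵀ) * S) * cj Q =
          (Q⁻¹ * Q)ᵀ * (diagonal (fun j => z⁻¹ ^ l j) * (Qᵀ * S * cj Q)) := by
            rw [transpose_mul]
            simp only [Matrix.mul_assoc]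
        _ = _ := by rw [hi1, transpose_one, Matrix.one_mul, h.form]
    rw [e1, e2, diagonal_mul_diagonal, diagonal_mul_diagonal]
    congr 1
    funext j
    exact mul_comm _ _
  have hQt : IsUnit Qᵀ := by
    rw [isUnit_iff_isUnit_det, det_transpose]
    exact (isUnit_iff_isUnit_det _).1 hQ
  have k1 := hc.mul_right_cancel key
  exact hQt.mul_left_cancel k1

/-- **the orthogonal projector to a Hodge subspace is a Hodge endomorphism** -/
theorem exists_proj (h : HD Q S l) {S₀ : Matrix N N ℚ} (hS : S = rm S₀) (W : Submodule ℚ (N → ℚ))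
    (hW : ∀ z : ℂ, z ≠ 0 → ∀ x ∈ W, ch Q l z *ᵥ rc x ∈ Submodule.span ℂ (rc '' (W : Set (N → ℚ)))) :
    ∃ π : Matrix N N ℚ, (∀ x ∈ W, π *ᵥ x = x) ∧ (∀ x, π *ᵥ x ∈ W) ∧
      ∀ z : ℂ, z ≠ 0 → rm π * ch Q l z = ch Q l z * rm π := by
  classical
  set Bf : (N → ℚ) →ₗ[ℚ] (N → ℚ) →ₗ[ℚ] ℚ := Matrix.toLinearMap₂' ℚ S₀ with hBf
  have hB : ∀ x y, Bf x y = x ⬝ᵥ (S₀ *ᵥ y) := fun x y => Matrix.toLinearMap₂'_apply' _ _ _
  set Φ : (N → ℚ) →ₗ[ℚ] (W →ₗ[ℚ] ℚ) := (LinearMap.lcomp ℚ ℚ W.subtype) ∘ₗ Bf.flip with hΦ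
  set W' : Submodule ℚ (N → ℚ) := LinearMap.ker Φ with hW'
  have memW' : ∀ y, y ∈ W' ↔ ∀ w ∈ W, w ⬝ᵥ (S₀ *ᵥ y) = 0 := by
    intro y
    rw [hW', LinearMap.mem_ker]
    constructor
    · intro h0 w hw
      have h1 := LinearMap.congr_fun h0 ⟨w, hw⟩
      rw [← hB]
      exact h1
    · intro h0
      refine LinearMap.ext fun w => ?_
      have h1 := h0 w w.2
      rw [← hB] at h1
      exact h1
  have hcast : ∀ x y : N → ℚ, rc x ⬝ᵥ (S *ᵥ rc y) = ((x ⬝ᵥ (S₀ *ᵥ y) : ℚ) : ℂ) := by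
    intro x y
    rw [hS, rm_mulVec, rc_dot]
  have hspan0 : ∀ y ∈ W', ∀ v ∈ Submodule.span ℂ (rc '' (W : Set (N → ℚ))), v ⬝ᵥ (S *ᵥ rc y) = 0 := by
    intro y hy v hv
    induction hv using Submodule.span_induction with
    | mem x hx =>
      obtain ⟨w, hw, rfl⟩ := hx
      rw [hcast, (memW' y).1 hy w hw, Rat.cast_zero]
    | zero => exact zero_dotProduct _
    | add a b _ _ ha hb => rw [add_dotProduct, ha, hb, add_zero]
    | smul a x _ hx => rw [smul_dotProduct, hx, smul_zero]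
  have hdis : Disjoint W W' := by
    rw [Submodule.disjoint_def]
    intro x hx hx'
    have h1 := hspan0 x hx' _ (hW Complex.I Complex.I_ne_zero x hx)
    have hr : ∀ i, (starRingEnd ℂ) (rc x i) = rc x i := fun i => by
      unfold rc
      rw [map_ratCast]
    rw [ch_mulVec, h.pair hr] at h1
    have h2 : ∀ j, Complex.I ^ l j * (Q⁻¹ *ᵥ rc x) j * (Complex.I ^ (-(l j)) * (starRingEnd ℂ) ((Q⁻¹ *ᵥ rc x) j)) =
        ((‖(Q⁻¹ *ᵥ rc x) j‖ ^ 2 : ℝ) : ℂ) := by
      intro j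
      have h3 : Complex.I ^ l j * Complex.I ^ (-(l j)) = 1 := by
        rw [← zpow_add₀ Complex.I_ne_zero, add_neg_cancel, zpow_zero]
      calc _ = (Complex.I ^ l j * Complex.I ^ (-(l j))) * ((Q⁻¹ *ᵥ rc x) j * (starRingEnd ℂ) ((Q⁻¹ *ᵥ rc x) j)) := by ring
        _ = _ := by rw [h3, one_mul, Complex.mul_conj, Complex.normSq_eq_norm_sq]
    rw [Finset.sum_congr rfl fun j _ => h2 j, ← Complex.ofReal_sum] at h1
    have h4 : ∑ j, ‖(Q⁻¹ *ᵥ rc x) j‖ ^ 2 = 0 := by exact_mod_cast h1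
    have h5 : Q⁻¹ *ᵥ rc x = 0 := by
      funext j
      have h6 := (Finset.sum_eq_zero_iff_of_nonneg fun i _ => by positivity).1 h4 j (Finset.mem_univ j)
      exact norm_eq_zero.1 (pow_eq_zero_iff (two_ne_zero)|>.1 h6)
    have h6 : rc x = 0 := by rw [← Q_inv h.unitQ (rc x), h5, mulVec_zero]
    funext i
    have h7 : ((x i : ℚ) : ℂ) = 0 := congrFun h6 i
    change x i = 0
    exact_mod_cast h7
  have hdim : Module.finrank ℚ (N → ℚ) ≤ Module.finrank ℚ W + Module.finrank ℚ W' := by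
    have h1 := LinearMap.finrank_range_add_finrank_ker Φ
    have h2 : Module.finrank ℚ (LinearMap.range Φ) ≤ Module.finrank ℚ W := by
      refine (Submodule.finrank_le _).trans (le_of_eq ?_)
      exact Subspace.dual_finrank_eq
    rw [hW']
    omega
  have hcomp : IsCompl W W' := ⟨hdis, codisjoint_iff.2 (Submodule.eq_top_of_disjoint _ _ hdim hdis)⟩
  set pr : (N → ℚ) →ₗ[ℚ] (N → ℚ) := W.subtype ∘ₗ Submodule.projectionOnto W W' hcomp with hpr
  have hπ : ∀ x, LinearMap.toMatrix' pr *ᵥ x = pr x := fun x => LinearMap.toMatrix'_mulVec pr x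
  have hp1 : ∀ x ∈ W, pr x = x := fun x hx => by
    have h1 := Submodule.projectionOnto_apply_left hcomp ⟨x, hx⟩
    exact congrArg Subtype.val h1
  have hp2 : ∀ x ∈ W', pr x = 0 := fun x hx => by
    have h1 := (Submodule.projectionOnto_apply_eq_zero_iff hcomp).2 hx
    exact congrArg Subtype.val h1
  have hp3 : ∀ x, pr x ∈ W := fun x => (Submodule.projectionOnto W W' hcomp x).2
  refine ⟨LinearMap.toMatrix' pr, fun x hx => by rw [hπ, hp1 x hx], fun x => by rw [hπ]; exact hp3 x, fun z hz => ?_⟩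
  set π := LinearMap.toMatrix' pr with hπd
  have a1 : ∀ v ∈ Submodule.span ℂ (rc '' (W : Set (N → ℚ))), rm π *ᵥ v = v := by
    intro v hv
    induction hv using Submodule.span_induction with
    | mem x hx =>
      obtain ⟨w, hw, rfl⟩ := hx
      rw [rm_mulVec, hπ, hp1 w hw]
    | zero => exact mulVec_zero _
    | add a b _ _ ha hb => rw [mulVec_add, ha, hb]
    | smul a x _ hx => rw [mulVec_smul, hx]
  have a2 : ∀ v ∈ Submodule.span ℂ (rc '' (W' : Set (N → ℚ))), rm π *ᵥ v = 0 := by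
    intro v hv
    induction hv using Submodule.span_induction with
    | mem x hx =>
      obtain ⟨w, hw, rfl⟩ := hx
      rw [rm_mulVec, hπ, hp2 w hw]
      funext i
      simp [rc]
    | zero => exact mulVec_zero _
    | add a b _ _ ha hb => rw [mulVec_add, ha, hb, add_zero]
    | smul a x _ hx => rw [mulVec_smul, hx, smul_zero]
  have a3 : ∀ y ∈ W', ch Q l z *ᵥ rc y ∈ Submodule.span ℂ (rc '' (W' : Set (N → ℚ))) := by
    intro y hy
    refine mem_span_rc fun c => ?_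
    refine (memW' _).2 fun w hw => ?_
    have h1 : rc w ⬝ᵥ (S *ᵥ (ch Q l z *ᵥ rc y)) = 0 := by
      rw [mulVec_mulVec, h.isom hz, ← mulVec_mulVec, dotProduct_mulVec, vecMul_transpose]
      exact hspan0 y hy _ (hW z⁻¹ (inv_ne_zero hz) w hw)
    have h2 : c (rc w ⬝ᵥ (S *ᵥ (ch Q l z *ᵥ rc y))) = w ⬝ᵥ (S₀ *ᵥ fun n => c ((ch Q l z *ᵥ rc y) n)) := by
      rw [hS]
      unfold dotProduct
      rw [map_sum]
      refine Finset.sum_congr rfl fun i _ => ?_
      change c ((w i : ℂ) * ∑ j, algebraMap ℚ ℂ (S₀ i j) * (ch Q l z *ᵥ rc y) j) = w i * ∑ j, S₀ i j * _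
      have e1 : ∀ (r : ℚ) (t : ℂ), c ((r : ℂ) * t) = r * c t := fun r t => by
        rw [← Rat.smul_def, map_smul, smul_eq_mul]
      rw [e1, map_sum]
      congr 1
      exact Finset.sum_congr rfl fun j _ => e1 _ _
    rw [← h2, h1, map_zero]
  have a4 : ∀ x : N → ℚ, (rm π * ch Q l z) *ᵥ rc x = (ch Q l z * rm π) *ᵥ rc x := by
    intro x
    obtain ⟨w, hw, w', hw', rfl⟩ := Submodule.mem_sup.1 ((Submodule.eq_top_of_disjoint _ _ hdim hdis).symm ▸
      Submodule.mem_top : x ∈ W ⊔ W')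
    have e0 : rc (w + w') = rc w + rc w' := by
      funext i
      simp [rc]
    rw [e0, mulVec_add, mulVec_add, ← mulVec_mulVec, ← mulVec_mulVec, ← mulVec_mulVec, ← mulVec_mulVec,
      a1 _ (hW z hz w hw), a2 _ (a3 w' hw'), rm_mulVec, rm_mulVec, hπ, hπ, hp1 w hw, hp2 w' hw']
    congr 1
    have e1 : rc (0 : N → ℚ) = 0 := by
      funext i
      simp [rc]
    rw [e1, mulVec_zero]
  refine Matrix.ext_of_mulVec_single fun i => ?_
  have h1 := a4 (Pi.single i 1)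
  have h2 : rc (Pi.single i 1 : N → ℚ) = Pi.single i 1 := by
    funext j
    unfold rc
    by_cases hj : j = i
    · subst hj; simp
    · simp [Pi.single_eq_of_ne hj]
  rwa [h2] at h1

end Pool.Agent.Run7.h659.HG
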