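import Pool.Agent.Run7.h659.HG3

/-!
# The orbits of the Hodge tensors under the monodromy are finite
-/

set_option autoImplicit false
set_option linter.unusedSectionVars false

open Matrix

namespace Pool.Agent.Run7.h659.HG

variable {M : Type} [Fintype M] [DecidableEq M] {p q : ℕ}

section entries

variable {R : Type} [CommRing R]

/-- the coefficients of the derivations -/
def eL (s : Fin p) (I J : TI M p q) : ℤ :=
  (∏ a ∈ Finset.univ.erase s, if I.1 a = J.1 a then 1 else 0) * ∏ t, if J.2 t = I.2 t then 1 else 0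

/-- the coefficients of the derivations -/
def eR (t : Fin q) (I J : TI M p q) : ℤ :=
  (∏ s, if I.1 s = J.1 s then 1 else 0) * ∏ a ∈ Finset.univ.erase t, if J.2 a = I.2 a then 1 else 0

theorem dt_entry (Y : Matrix M M R) (I J : TI M p q) : dt p q Y I J =
    ∑ s, Y (I.1 s) (J.1 s) * (eL s I J : R) - ∑ t, Y (J.2 t) (I.2 t) * (eR t I J : R) := by
  unfold dt
  rw [Matrix.sub_apply, Matrix.sum_apply, Matrix.sum_apply]
  congr 1
  · refine Finset.sum_congr rfl fun s _ => ?_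
    unfold tp eL
    rw [Matrix.of_apply, ← Finset.mul_prod_erase Finset.univ _ (Finset.mem_univ s), Function.update_self, mul_assoc]
    congr 1
    push_cast
    refine congrArg₂ (· * ·) ?_ ?_
    · refine Finset.prod_congr rfl fun a ha => ?_
      rw [Function.update_of_ne (Finset.ne_of_mem_erase ha), one_apply]
    · refine Finset.prod_congr rfl fun a _ => ?_
      rw [one_apply]
  · refine Finset.sum_congr rfl fun t _ => ?_
    unfold tp eR
    have h1 := Finset.mul_prod_erase Finset.univ (fun a => (Function.update (fun _ : Fin q => (1 : Matrix M M R)) t Y a)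
      (J.2 a) (I.2 a)) (Finset.mem_univ t)
    rw [Matrix.of_apply, ← h1, Function.update_self, mul_left_comm]
    congr 1
    push_cast
    refine congrArg₂ (· * ·) ?_ ?_
    · refine Finset.prod_congr rfl fun a _ => ?_
      rw [one_apply]
    · refine Finset.prod_congr rfl fun a ha => ?_
      rw [Function.update_of_ne (Finset.ne_of_mem_erase ha), one_apply]

theorem dt_add (Y Y' : Matrix M M R) : dt p q (Y + Y') = dt p q Y + dt p q Y' := by
  ext I J
  rw [Matrix.add_apply, dt_entry, dt_entry, dt_entry]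
  simp only [Matrix.add_apply, add_mul, Finset.sum_add_distrib]
  ring

theorem dt_smul (a : R) (Y : Matrix M M R) : dt p q (a • Y) = a • dt p q Y := by
  ext I J
  rw [Matrix.smul_apply, dt_entry, dt_entry]
  simp only [Matrix.smul_apply, smul_eq_mul, mul_assoc, ← Finset.mul_sum, ← mul_sub]

end entries

theorem dt_rm (Y : Matrix M M ℚ) : dt p q (rm Y) = rm (dt p q Y) := by
  ext I J
  unfold rm
  rw [map_apply, dt_entry, dt_entry, map_sub, map_sum, map_sum]
  simp only [map_mul, map_intCast, map_apply]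

theorem dt_c (c : ℂ →ₗ[ℚ] ℚ) (Y : Matrix M M ℂ) (b : TI M p q → ℚ) (I : TI M p q) :
    (dt p q (Y.map c) *ᵥ b) I = c ((dt p q Y *ᵥ rc b) I) := by
  have e1 : ∀ (t : ℂ) (r : ℚ), c (t * (r : ℂ)) = c t * r := fun t r => by
    rw [mul_comm, ← Rat.smul_def, map_smul, smul_eq_mul, mul_comm]
  change ∑ J, dt p q (Y.map c) I J * b J = c (∑ J, dt p q Y I J * (b J : ℂ))
  rw [map_sum]
  refine Finset.sum_congr rfl fun J _ => ?_
  rw [e1]
  congr 1
  rw [dt_entry, dt_entry, map_sub, map_sum, map_sum]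
  congr 1
  · refine Finset.sum_congr rfl fun s _ => ?_
    have h1 : ((eL s I J : ℤ) : ℂ) = (((eL s I J : ℤ) : ℚ) : ℂ) := by push_cast; rfl
    rw [h1, e1, map_apply]
  · refine Finset.sum_congr rfl fun s _ => ?_
    have h1 : ((eR s I J : ℤ) : ℂ) = (((eR s I J : ℤ) : ℚ) : ℂ) := by push_cast; rfl
    rw [h1, e1, map_apply]

/-- a tensor of type `(1, 1)` as a matrix -/
def mt {R : Type} (y : TI M 1 1 → R) : Matrix M M R := Matrix.of fun i j => y (fun _ => i, fun _ => j)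

/-- a matrix as a tensor of type `(1, 1)` -/
def vc {R : Type} (Y : Matrix M M R) : TI M 1 1 → R := fun x => Y (x.1 0) (x.2 0)

theorem mt_vc {R : Type} (Y : Matrix M M R) : mt (vc Y) = Y := rfl

theorem vc_mt {R : Type} (y : TI M 1 1 → R) : vc (mt y) = y := by
  funext x
  unfold vc mt
  rw [Matrix.of_apply]
  congr 1
  refine Prod.ext (funext fun i => ?_) (funext fun i => ?_)
  · rw [Subsingleton.elim i 0]
  · rw [Subsingleton.elim i 0]

/-- the constant functions on `Fin 1` -/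
def e0 (M : Type) : M ≃ (Fin 1 → M) where
  toFun i _ := i
  invFun f := f 0
  left_inv _ := rfl
  right_inv f := funext fun i => by rw [Subsingleton.elim i 0]

theorem tn11_vc {K : Type} [Field K] (x Y : Matrix M M K) : tn 1 1 x *ᵥ vc Y = vc (x * Y * x⁻¹) := by
  funext I
  change ∑ J : TI M 1 1, tn 1 1 x I J * vc Y J = (x * Y * x⁻¹) (I.1 0) (I.2 0)
  rw [Fintype.sum_prod_type, ← (e0 M).sum_comp, Matrix.mul_apply]
  have h1 : ∀ a : M, ∑ b : Fin 1 → M, tn 1 1 x I ((e0 M) a, b) * vc Y ((e0 M) a, b) =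
      ∑ b : M, x (I.1 0) a * x⁻¹ b (I.2 0) * Y a b := by
    intro a
    rw [← (e0 M).sum_comp]
    refine Finset.sum_congr rfl fun b _ => ?_
    unfold tn tp
    rw [Matrix.of_apply, Fin.prod_univ_one, Fin.prod_univ_one]
    rfl
  rw [Finset.sum_congr rfl fun a _ => h1 a, Finset.sum_comm]
  refine Finset.sum_congr rfl fun b _ => ?_
  rw [Matrix.mul_apply, Finset.sum_mul]
  refine Finset.sum_congr rfl fun a _ => ?_
  ring

/-- commuting with the circle action means to be a Hodge class -/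
theorem comm_iff {Q : Matrix M M ℂ} (hQ : IsUnit Q) (l : M → ℤ) (Φ : Matrix M M ℂ) :
    (∀ z : ℂ, z ≠ 0 → Φ * ch Q l z = ch Q l z * Φ) ↔ Hd (tn 1 1 Q) (tl 1 1 l) (vc Φ) := by
  have h1 : ∀ z : ℂ, z ≠ 0 → IsUnit (ch Q l z) := fun z hz => IsUnit.of_mul_eq_one _ (ch_mul_inv hQ l hz)
  have h2 : ∀ z : ℂ, z ≠ 0 → ch (tn 1 1 Q) (tl 1 1 l) z *ᵥ vc Φ = vc (ch Q l z * Φ * (ch Q l z)⁻¹) := fun z hz => by
    rw [← ch_tn hQ l hz, tn11_vc]
  constructor
  · intro h
    refine Hd.of_ch (tn_unit hQ) ?_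
    rw [h2 2 two_ne_zero, ← h 2 two_ne_zero, Matrix.mul_assoc,
      mul_nonsing_inv _ ((isUnit_iff_isUnit_det _).1 (h1 2 two_ne_zero)), Matrix.mul_one]
  · intro h z hz
    have h3 := h.ch (tn_unit hQ) z
    rw [h2 z hz] at h3
    have h4 : ch Q l z * Φ * (ch Q l z)⁻¹ = Φ := by rw [← mt_vc (ch Q l z * Φ * (ch Q l z)⁻¹), h3, mt_vc]
    conv_lhs => rw [← h4]
    rw [Matrix.mul_assoc, nonsing_inv_mul _ ((isUnit_iff_isUnit_det _).1 (h1 z hz)), Matrix.mul_one]

/-- integral entries -/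
def IsInt {N : Type} (x : Matrix N N ℂ) : Prop := ∀ i j, ∃ a : ℤ, x i j = a

theorem tn_int {x : Matrix M M ℂ} (hx : IsInt x) (hx' : IsInt x⁻¹) : IsInt (tn p q x) := by
  intro I J
  choose a ha using hx
  choose a' ha' using hx'
  refine ⟨(∏ s, a (I.1 s) (J.1 s)) * ∏ t, a' (J.2 t) (I.2 t), ?_⟩
  unfold tn tp
  rw [Matrix.of_apply]
  simp only [ha, ha']
  push_cast
  rfl

/-- finiteness of orbits of Hodge classes -/
theorem orbit_fin {N : Type} [Fintype N] [DecidableEq N] {Q S : Matrix N N ℂ} {l : N → ℤ} (h : HD Q S l) {G : Type}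
    (σ : G → Matrix N N ℂ) (hint : ∀ g, IsInt (σ g)) (hS : ∀ g, (σ g)ᵀ * S * σ g = S) (b : N → ℚ) {T : Set G}
    (hT : ∀ g ∈ T, Hd Q l (σ g *ᵥ rc b)) : ((fun g => σ g *ᵥ rc b) '' T).Finite := by
  classical
  obtain ⟨d, hd, hdb⟩ : ∃ d : ℤ, d ≠ 0 ∧ ∀ i, ∃ a : ℤ, (d : ℚ) * b i = a := by
    refine ⟨∏ i, (b i).den, ?_, fun i => ?_⟩
    · exact_mod_cast Finset.prod_ne_zero_iff.2 fun i _ => (b i).den_nz
    · refine ⟨(∏ j ∈ Finset.univ.erase i, ((b j).den : ℤ)) * (b i).num, ?_⟩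
      push_cast
      rw [← Finset.mul_prod_erase Finset.univ _ (Finset.mem_univ i), mul_comm ((b i).den : ℚ), mul_assoc,
        Rat.den_mul_eq_num]
  have hd' : (d : ℂ) ≠ 0 := by exact_mod_cast hd
  have hfin := h.finite ((d : ℂ) ^ 2 * (rc b ⬝ᵥ (S *ᵥ rc b)))
  refine Set.Finite.of_finite_image (f := fun x => (d : ℂ) • x) ?_ (fun x _ y _ hxy => smul_right_injective _ hd' hxy)
  refine hfin.subset ?_
  rintro _ ⟨_, ⟨g, hg, rfl⟩, rfl⟩
  refine ⟨fun i => ?_, ?_, ?_⟩
  · choose a ha using hdb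
    choose s hs using hint g i
    refine ⟨∑ j, s j * a j, ?_⟩
    change (d : ℂ) * ∑ j, σ g i j * (b j : ℂ) = _
    rw [Finset.mul_sum]
    push_cast
    refine Finset.sum_congr rfl fun j _ => ?_
    have h1 : (d : ℂ) * (b j : ℂ) = (a j : ℂ) := by exact_mod_cast congrArg (fun x : ℚ => (x : ℂ)) (ha j)
    rw [hs j, ← h1]
    ring
  · intro j hj
    have h1 := hT g hg j hj
    change (Q⁻¹ *ᵥ ((d : ℂ) • (σ g *ᵥ rc b))) j = 0
    rw [mulVec_smul, Pi.smul_apply, h1, smul_zero]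
  · change ((d : ℂ) • (σ g *ᵥ rc b)) ⬝ᵥ (S *ᵥ ((d : ℂ) • (σ g *ᵥ rc b))) = _
    rw [mulVec_smul, smul_dotProduct, dotProduct_smul, smul_smul, smul_eq_mul, ← sq]
    congr 1
    conv_rhs => rw [← hS g]
    rw [← mulVec_mulVec, ← mulVec_mulVec, dotProduct_mulVec (rc b) (σ g)ᵀ, vecMul_transpose]

end Pool.Agent.Run7.h659.HG
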