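import Pool.Agent.Run7.h659.HG4

/-!
# Hodge tensors of all degrees have finite orbits if the Hodge tensors of bounded degree are stable
-/

set_option autoImplicit false
set_option linter.unusedSectionVars false

open Matrix

namespace Pool.Agent.Run7.h659.HG

variable {M : Type} [Fintype M] [DecidableEq M] {p q : ℕ}

/-- integral matrices as complex matrices -/
noncomputable def zc (x : Matrix M M ℤ) : Matrix M M ℂ := x.map (Int.castRingHom ℂ)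

theorem zc_mul (x y : Matrix M M ℤ) : zc (x * y) = zc x * zc y := by
  unfold zc
  exact Matrix.map_mul

theorem zc_one : zc (1 : Matrix M M ℤ) = 1 := by
  unfold zc
  exact Matrix.map_one _ (map_zero _) (map_one _)

/-- the rational operators which kill all Hodge tensors -/
def WW (Q : Matrix M M ℂ) (l : M → ℤ) : Submodule ℚ (TI M 1 1 → ℚ) where
  carrier := {y | ∀ (p q : ℕ) (b : TI M p q → ℚ), Hd (tn p q Q) (tl p q l) (rc b) → dt p q (mt y) *ᵥ b = 0}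
  zero_mem' := by
    intro p q b _
    have h1 : mt (0 : TI M 1 1 → ℚ) = (0 : ℚ) • (0 : Matrix M M ℚ) := by
      rw [zero_smul]
      rfl
    rw [h1, dt_smul, zero_smul, zero_mulVec]
  add_mem' := by
    intro y y' hy hy' p q b hb
    have h1 : mt (y + y') = mt y + mt y' := rfl
    rw [h1, dt_add, add_mulVec, hy p q b hb, hy' p q b hb, add_zero]
  smul_mem' := by
    intro a y hy p q b hb
    have h1 : mt (a • y) = a • mt y := rfl
    rw [h1, dt_smul, smul_mulVec, hy p q b hb, smul_zero]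

theorem rc_zero {N : Type} : rc (0 : N → ℚ) = 0 := by
  funext i
  unfold rc
  simp

theorem mt_rc (y : TI M 1 1 → ℚ) : mt (rc y) = rm (mt y) := by
  ext i j
  unfold mt rc rm
  rw [Matrix.of_apply, map_apply, Matrix.of_apply, eq_ratCast]

theorem rc_vc {N : Type} [Fintype N] [DecidableEq N] (π : Matrix N N ℚ) : rc (vc π) = vc (rm π) := by
  funext x
  unfold vc rc rm
  rw [map_apply, eq_ratCast]

theorem WW_kill {Q : Matrix M M ℂ} {l : M → ℤ} {y : TI M 1 1 → ℂ}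
    (hy : y ∈ Submodule.span ℂ (rc '' (WW Q l : Set (TI M 1 1 → ℚ)))) {b : TI M p q → ℚ}
    (hb : Hd (tn p q Q) (tl p q l) (rc b)) : dt p q (mt y) *ᵥ rc b = 0 := by
  induction hy using Submodule.span_induction with
  | mem x hx =>
    obtain ⟨w, hw, rfl⟩ := hx
    rw [mt_rc, dt_rm, rm_mulVec, hw p q b hb, rc_zero]
  | zero =>
    have h1 : mt (0 : TI M 1 1 → ℂ) = (0 : ℂ) • (0 : Matrix M M ℂ) := by
      rw [zero_smul]
      rfl
    rw [h1, dt_smul, zero_smul, zero_mulVec]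
  | add x x' _ _ hx hx' =>
    have h1 : mt (x + x') = mt x + mt x' := rfl
    rw [h1, dt_add, add_mulVec, hx, hx', add_zero]
  | smul a x _ hx =>
    have h1 : mt (a • x) = a • mt x := rfl
    rw [h1, dt_smul, smul_mulVec, hx, smul_zero]

theorem mem_WW {Q : Matrix M M ℂ} {l : M → ℤ} {y : TI M 1 1 → ℂ}
    (hy : ∀ (p q : ℕ) (b : TI M p q → ℚ), Hd (tn p q Q) (tl p q l) (rc b) → dt p q (mt y) *ᵥ rc b = 0) :
    y ∈ Submodule.span ℂ (rc '' (WW Q l : Set (TI M 1 1 → ℚ))) := by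
  refine mem_span_rc fun c => ?_
  intro p q b hb
  have h1 : mt (fun n => c (y n)) = (mt y).map c := rfl
  rw [h1]
  funext I
  rw [dt_c, hy p q b hb, Pi.zero_apply, map_zero]
  rfl

theorem kill_conj {g Y : Matrix M M ℂ} (hg : IsUnit g) {b : TI M p q → ℂ} (h : dt p q Y *ᵥ b = 0) :
    dt p q (g * Y * g⁻¹) *ᵥ (tn p q g *ᵥ b) = 0 := by
  rw [mulVec_mulVec, dt_conj hg, ← mulVec_mulVec, h, mulVec_zero]

theorem WW_stable {Q : Matrix M M ℂ} (hQ : IsUnit Q) (l : M → ℤ) (z : ℂ) (hz : z ≠ 0) (y : TI M 1 1 → ℚ)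
    (hy : y ∈ WW Q l) : ch (tn 1 1 Q) (tl 1 1 l) z *ᵥ rc y ∈
      Submodule.span ℂ (rc '' (WW Q l : Set (TI M 1 1 → ℚ))) := by
  refine mem_WW fun p q b hb => ?_
  have hg : IsUnit (ch Q l z) := IsUnit.of_mul_eq_one _ (ch_mul_inv hQ l hz)
  rw [← ch_tn hQ l hz, ← vc_mt (rc y), tn11_vc, mt_vc]
  have h1 : tn p q (ch Q l z) *ᵥ rc b = rc b := by
    rw [ch_tn hQ l hz]
    exact hb.ch (tn_unit hQ) z
  have h2 := kill_conj (p := p) (q := q) hg (Y := mt (rc y)) (b := rc b)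
    (WW_kill (Submodule.subset_span ⟨y, hy, rfl⟩) hb)
  rwa [h1] at h2

theorem rm_unit {N : Type} [Fintype N] [DecidableEq N] {x : Matrix N N ℚ} (hx : IsUnit (rm x)) : IsUnit x := by
  rw [isUnit_iff_isUnit_det] at hx ⊢
  have h1 : (rm x).det = algebraMap ℚ ℂ x.det := (RingHom.map_det (algebraMap ℚ ℂ) x).symm
  rw [h1] at hx
  rw [isUnit_iff_ne_zero] at hx ⊢
  intro h0
  rw [h0, map_zero] at hx
  exact hx rfl

theorem rm_tn {x : Matrix M M ℚ} (hx : IsUnit x) : rm (tn p q x) = tn p q (rm x) := by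
  have h1 : rm x⁻¹ = (rm x)⁻¹ := by
    refine (inv_eq_right_inv ?_).symm
    rw [← rm_mul, mul_nonsing_inv _ ((isUnit_iff_isUnit_det _).1 hx)]
    unfold rm
    exact Matrix.map_one _ (map_zero _) (map_one _)
  unfold tn
  rw [← h1]
  ext I J
  unfold rm tp
  simp [map_prod]

theorem ch_conj {N : Type} [Fintype N] [DecidableEq N] {X Q : Matrix N N ℂ} (l : N → ℤ) (z : ℂ) :
    ch (X * Q) l z = X * ch Q l z * X⁻¹ := by
  unfold ch
  rw [Matrix.mul_inv_rev]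
  simp only [Matrix.mul_assoc]

theorem span_fix {N : Type} [Fintype N] [DecidableEq N] {W : Submodule ℚ (N → ℚ)} {π : Matrix N N ℚ}
    (h : ∀ x ∈ W, π *ᵥ x = x) {v : N → ℂ} (hv : v ∈ Submodule.span ℂ (rc '' (W : Set (N → ℚ)))) : rm π *ᵥ v = v := by
  induction hv using Submodule.span_induction with
  | mem x hx =>
    obtain ⟨w, hw, rfl⟩ := hx
    rw [rm_mulVec, h w hw]
  | zero => exact mulVec_zero _
  | add a b _ _ ha hb => rw [mulVec_add, ha, hb]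
  | smul a x _ hx => rw [mulVec_smul, hx]

theorem span_range {N : Type} [Fintype N] [DecidableEq N] {W : Submodule ℚ (N → ℚ)} {π : Matrix N N ℚ}
    (h : ∀ x, π *ᵥ x ∈ W) (v : N → ℂ) : rm π *ᵥ v ∈ Submodule.span ℂ (rc '' (W : Set (N → ℚ))) := by
  have h1 : rm π *ᵥ v = ∑ j, v j • rc (π *ᵥ Pi.single j 1) := by
    funext i
    rw [Finset.sum_apply]
    change ∑ j, rm π i j * v j = _
    refine Finset.sum_congr rfl fun j _ => ?_
    rw [Pi.smul_apply, smul_eq_mul, mul_comm]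
    congr 1
    unfold rc rm
    rw [map_apply, mulVec_single_one, eq_ratCast]
    rfl
  rw [h1]
  exact Submodule.sum_mem _ fun j _ => Submodule.smul_mem _ _ (Submodule.subset_span ⟨_, h _, rfl⟩)

theorem exists_reps {G V : Type} [Nonempty G] (f : G → V) (h : (f '' Set.univ).Finite) :
    ∃ F : Set G, F.Finite ∧ ∀ g, ∃ g' ∈ F, f g' = f g := by
  classical
  refine ⟨(fun v => if hv : ∃ g, f g = v then hv.choose else Classical.arbitrary G) '' (f '' Set.univ), h.image _,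
    fun g => ?_⟩
  have hv : ∃ g', f g' = f g := ⟨g, rfl⟩
  refine ⟨hv.choose, ⟨f g, ⟨g, trivial, rfl⟩, ?_⟩, hv.choose_spec⟩
  simp only
  rw [dif_pos hv]

/-- **Finite orbits of all Hodge tensors.** -/
theorem hodge_orbits {Q S : Matrix M M ℂ} {l : M → ℤ} (h : HD Q S l) {S₀ : Matrix M M ℚ} (hS : S = rm S₀)
    {G : Type} [Group G] (ρ : G →* Matrix M M ℤ) (hρ : ∀ g, (zc (ρ g))ᵀ * S * zc (ρ g) = S)
    (hrel : ∀ Φ : Matrix (TI M 1 1) (TI M 1 1) ℚ,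
      (∀ z : ℂ, z ≠ 0 → rm Φ * ch (tn 1 1 Q) (tl 1 1 l) z = ch (tn 1 1 Q) (tl 1 1 l) z * rm Φ) →
      ∀ g, ∀ z : ℂ, z ≠ 0 → rm Φ * ch (tn 1 1 (zc (ρ g) * Q)) (tl 1 1 l) z =
        ch (tn 1 1 (zc (ρ g) * Q)) (tl 1 1 l) z * rm Φ)
    (p q : ℕ) (b : TI M p q → ℚ) (hb : Hd (tn p q Q) (tl p q l) (rc b)) :
    (Set.range fun g => tn p q (zc (ρ g)) *ᵥ rc b).Finite := by
  classical
  have hmul : ∀ g g', zc (ρ (g * g')) = zc (ρ g) * zc (ρ g') := fun g g' => by rw [map_mul, zc_mul]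
  have hinvm : ∀ g, zc (ρ g) * zc (ρ g⁻¹) = 1 := fun g => by rw [← hmul, mul_inv_cancel, map_one, zc_one]
  have hu : ∀ g, IsUnit (zc (ρ g)) := fun g => IsUnit.of_mul_eq_one _ (hinvm g)
  have hinv : ∀ g, (zc (ρ g))⁻¹ = zc (ρ g⁻¹) := fun g => inv_eq_right_inv (hinvm g)
  have hint : ∀ g, IsInt (zc (ρ g)) := fun g i j => ⟨ρ g i j, rfl⟩
  have hint' : ∀ g, IsInt (zc (ρ g))⁻¹ := fun g => by rw [hinv]; exact hint _
  have hS₀ : IsUnit S₀ := rm_unit (by rw [← hS]; exact h.unitS)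
  obtain ⟨π, hπ1, hπ2, hπ3⟩ := exists_proj (h.tn (p := 1) (q := 1)) (S₀ := tn 1 1 S₀)
    (by rw [rm_tn hS₀, ← hS]) (WW Q l) (fun z hz y hy => WW_stable h.unitQ l z hz y hy)
  have hcomm := hrel π hπ3
  -- all translates of the projector are Hodge classes
  have hY : ∀ g, IsUnit (tn 1 1 (zc (ρ g))) := fun g => tn_unit (hu g)
  have q1 : ∀ g, Hd (tn 1 1 (tn 1 1 Q)) (tl 1 1 (tl 1 1 l)) (tn 1 1 (tn 1 1 (zc (ρ g))) *ᵥ rc (vc π)) := by
    intro g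
    rw [rc_vc, tn11_vc]
    refine (comm_iff (tn_unit h.unitQ) _ _).1 fun z hz => ?_
    have h1 := hcomm g⁻¹ z hz
    rw [tn_mul, ch_conj] at h1
    set Y := tn 1 1 (zc (ρ g)) with hYd
    have h2 : tn 1 1 (zc (ρ g⁻¹)) = Y⁻¹ := by rw [hYd, tn_inv (hu g), hinv]
    have h3 : Y⁻¹⁻¹ = Y := nonsing_inv_nonsing_inv _ ((isUnit_iff_isUnit_det _).1 (hY g))
    have h4 : Y * Y⁻¹ = 1 := mul_nonsing_inv _ ((isUnit_iff_isUnit_det _).1 (hY g))
    rw [h2, h3] at h1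
    set c := ch (tn 1 1 Q) (tl 1 1 l) z
    calc Y * rm π * Y⁻¹ * c = Y * (rm π * (Y⁻¹ * c * Y)) * Y⁻¹ := by
          have e1 : Y * (rm π * (Y⁻¹ * c * Y)) * Y⁻¹ = Y * rm π * Y⁻¹ * c * (Y * Y⁻¹) := by
            simp only [Matrix.mul_assoc]
          rw [e1, h4, Matrix.mul_one]
      _ = Y * (Y⁻¹ * c * Y * rm π) * Y⁻¹ := by rw [h1]
      _ = (Y * Y⁻¹) * c * (Y * rm π * Y⁻¹) := by simp only [Matrix.mul_assoc]
      _ = c * (Y * rm π * Y⁻¹) := by rw [h4, Matrix.one_mul]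
  have q2 := orbit_fin ((h.tn (p := 1) (q := 1)).tn (p := 1) (q := 1)) (fun g => tn 1 1 (tn 1 1 (zc (ρ g))))
    (fun g => tn_int (tn_int (hint g) (hint' g)) (by
      rw [tn_inv (hu g)]
      exact tn_int (hint' g) (by rw [hinv, hinv]; exact hint _)))
    (fun g => by rw [tn_transpose, tn_transpose, ← tn_mul, ← tn_mul, ← tn_mul, ← tn_mul, hρ]) (vc π)
    (T := Set.univ) fun g _ => q1 g
  obtain ⟨F, hF, hF'⟩ := exists_reps _ q2
  -- the stabiliser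
  set T : Set G := {g | tn 1 1 (tn 1 1 (zc (ρ g))) *ᵥ rc (vc π) = rc (vc π)} with hT
  have q3 : ∀ g ∈ T, Hd (tn p q Q) (tl p q l) (tn p q (zc (ρ g)) *ᵥ rc b) := by
    intro g hg
    change tn 1 1 (tn 1 1 (zc (ρ g))) *ᵥ rc (vc π) = rc (vc π) at hg
    rw [rc_vc, tn11_vc] at hg
    set Y := tn 1 1 (zc (ρ g)) with hYd
    have h4 : Y * Y⁻¹ = 1 := mul_nonsing_inv _ ((isUnit_iff_isUnit_det _).1 (hY g))
    have h5 : Y⁻¹ * Y = 1 := nonsing_inv_mul _ ((isUnit_iff_isUnit_det _).1 (hY g))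
    have h6 : Y * rm π * Y⁻¹ = rm π := by rw [← mt_vc (Y * rm π * Y⁻¹), hg, mt_vc]
    have h7 : rm π * Y⁻¹ = Y⁻¹ * rm π := by
      calc rm π * Y⁻¹ = (Y⁻¹ * Y) * rm π * Y⁻¹ := by rw [h5, Matrix.one_mul]
        _ = Y⁻¹ * (Y * rm π * Y⁻¹) := by simp only [Matrix.mul_assoc]
        _ = _ := by rw [h6]
    have h8 : vc (XO Q l) ∈ Submodule.span ℂ (rc '' (WW Q l : Set (TI M 1 1 → ℚ))) :=
      mem_WW fun p q b hb => (dt_XO h.unitQ l _).1 hb
    have h9 : Y⁻¹ *ᵥ vc (XO Q l) ∈ Submodule.span ℂ (rc '' (WW Q l : Set (TI M 1 1 → ℚ))) := by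
      have h10 : rm π *ᵥ (Y⁻¹ *ᵥ vc (XO Q l)) = Y⁻¹ *ᵥ vc (XO Q l) := by
        rw [mulVec_mulVec, h7, ← mulVec_mulVec, span_fix hπ1 h8]
      rw [← h10]
      exact span_range hπ2 _
    have h11 : Y⁻¹ *ᵥ vc (XO Q l) = vc (zc (ρ g⁻¹) * XO Q l * (zc (ρ g⁻¹))⁻¹) := by
      rw [hYd, tn_inv (hu g), hinv, tn11_vc]
    rw [h11] at h9
    have h12 := WW_kill (p := p) (q := q) h9 hb
    rw [mt_vc] at h12
    have h13 := kill_conj (hu g) h12
    have h14 : zc (ρ g) * (zc (ρ g⁻¹) * XO Q l * (zc (ρ g⁻¹))⁻¹) * (zc (ρ g))⁻¹ = XO Q l := by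
      rw [hinv, hinv, inv_inv]
      have e1 := hinvm g
      calc zc (ρ g) * (zc (ρ g⁻¹) * XO Q l * zc (ρ g)) * zc (ρ g⁻¹) =
          (zc (ρ g) * zc (ρ g⁻¹)) * XO Q l * (zc (ρ g) * zc (ρ g⁻¹)) := by simp only [Matrix.mul_assoc]
        _ = _ := by rw [e1, Matrix.one_mul, Matrix.mul_one]
    rw [h14] at h13
    exact (dt_XO h.unitQ l _).2 h13
  have q4 := orbit_fin (h.tn (p := p) (q := q)) (fun g => tn p q (zc (ρ g)))
    (fun g => tn_int (hint g) (hint' g)) (fun g => by rw [tn_transpose, ← tn_mul, ← tn_mul, hρ]) b (T := T) q3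
  refine (hF.biUnion fun g' _ => q4.image fun v => tn p q (zc (ρ g')) *ᵥ v).subset ?_
  rintro _ ⟨g, rfl⟩
  obtain ⟨g', hg', he⟩ := hF' g
  rw [Set.mem_iUnion₂]
  refine ⟨g', hg', ?_⟩
  refine ⟨tn p q (zc (ρ (g'⁻¹ * g))) *ᵥ rc b, ⟨g'⁻¹ * g, ?_, rfl⟩, ?_⟩
  · change tn 1 1 (tn 1 1 (zc (ρ (g'⁻¹ * g)))) *ᵥ rc (vc π) = rc (vc π)
    have he' : tn 1 1 (tn 1 1 (zc (ρ g'))) *ᵥ rc (vc π) = tn 1 1 (tn 1 1 (zc (ρ g))) *ᵥ rc (vc π) := he
    rw [hmul, tn_mul, tn_mul, ← mulVec_mulVec, ← he', mulVec_mulVec, ← tn_mul, ← tn_mul, ← hmul, inv_mul_cancel,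
      map_one, zc_one, tn_one, tn_one, one_mulVec]
  · change tn p q (zc (ρ g')) *ᵥ (tn p q (zc (ρ (g'⁻¹ * g))) *ᵥ rc b) = tn p q (zc (ρ g)) *ᵥ rc b
    rw [mulVec_mulVec, ← tn_mul, ← hmul, mul_inv_cancel_left]

end Pool.Agent.Run7.h659.HG
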