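import Pool.Agent.Run7.h659.HO2
import Pool.Agent.Y921.DB.Fin

/-!
# Relations between the entries of period matrices at the points of windows
-/

set_option autoImplicit false

open PowerSeries

namespace Pool.Agent.Run7.h659.HO

open Pool.Agent.Y921.DB (DatL VL)

variable {n : ℕ}

/-- the entry `i` of `adj(X_l) v` -/
noncomputable def relv {k : ℕ} (v : Fin n → ℂ) (l : Fin k) (i : Fin n) : MvPolynomial (Vn k n) ℂ :=
  ∑ a, MvPolynomial.C (v a) * MvPolynomial.map (algebraMap ℚ ℂ) ((XM l).adjugate i a)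

theorem aeval_relv {k : ℕ} (v : Fin n → ℂ) (l : Fin k) (i : Fin n) (Y : Fin k → Matrix (Fin n) (Fin n) ℂ) :
    MvPolynomial.aeval (vals Y) (relv v l i) = (Y l).adjugate.mulVec v i := by
  unfold relv
  rw [map_sum]
  change _ = ∑ a, (Y l).adjugate i a * v a
  refine Finset.sum_congr rfl fun a _ => ?_
  rw [map_mul, MvPolynomial.aeval_C, MvPolynomial.aeval_map_algebraMap, aeval_adj, Algebra.algebraMap_self,
    RingHom.id_apply]
  ring

theorem deg_relv {k : ℕ} (v : Fin n → ℂ) (l : Fin k) (i : Fin n) : (relv v l i).totalDegree ≤ n := by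
  unfold relv
  refine MvPolynomial.totalDegree_finsetSum_le fun a _ => ?_
  refine (MvPolynomial.totalDegree_mul _ _).trans ?_
  rw [MvPolynomial.totalDegree_C, zero_add]
  have h0 : (MvPolynomial.map (algebraMap ℚ ℂ) ((XM l).adjugate i a)).totalDegree ≤
      ((XM l : Matrix (Fin n) (Fin n) (MvPolynomial (Vn k n) ℚ)).adjugate i a).totalDegree := by
    refine Finset.sup_mono (fun s hs => ?_)
    exact MvPolynomial.support_map_subset _ _ hs
  exact h0.trans (deg_adj l i a)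

theorem coeff_relv (V : Submodule ℚ ℂ) {k : ℕ} {v : Fin n → ℂ} (hv : ∀ a, v a ∈ V) (l : Fin k)
    (i : Fin n) (s : Vn k n →₀ ℕ) : (relv v l i).coeff s ∈ V := by
  unfold relv
  rw [MvPolynomial.coeff_sum]
  refine Submodule.sum_mem _ fun a _ => ?_
  rw [MvPolynomial.coeff_C_mul, MvPolynomial.coeff_map, mul_comm, ← Algebra.smul_def]
  exact V.smul_mem _ (hv a)

/-- **Relations at all tuples of separated points of windows are invariant.** -/
theorem win_inv {L : Type} [Field L] [NumberField L] [Algebra L ℂ] {f : Polynomial L}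
    {A : Fin n → Fin n → Polynomial L} {Z W : Fin n → Fin n → L⟦X⟧} (hD : DatL f A Z W)
    {C : Matrix (Fin n) (Fin n) ℂ} (hC : C.det ≠ 0) {R : ℝ} (hR : 0 < R) {P : ℂ → Matrix (Fin n) (Fin n) ℂ}
    (hP : ∀ z, P z = C * Matrix.of fun i j => ∑' m : ℕ, algebraMap L ℂ (coeff m (Z i j)) * z ^ m) :
    ∃ r : ℝ, 0 < r ∧ r ≤ R ∧ (∀ z : ℂ, ‖z‖ < r → (P z).det ≠ 0) ∧ ∃ G : ℕ, ∀ k δ D : ℕ, ∃ M : ℕ, ∃ c : ℝ, 0 < c ∧
      ∀ V : Submodule ℚ ℂ, Module.Finite ℚ V → Module.finrank ℚ V ≤ D → ∀ N : ℕ, 1 ≤ N →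
        ∃ S : Finset ℕ, S.card ≤ M ∧ ∀ m : Fin k → ℕ, (∀ i j, i ≠ j → (G : ℤ) ≤ |(m i : ℤ) - m j|) →
          (∀ j, N ≤ m j ∧ (m j : ℝ) ≤ N + (N : ℝ) ^ c ∧ m j ∉ S) → (∀ j, 1 / (m j : ℝ) < r) ∧
            ∀ F : MvPolynomial (Vn k n) ℂ, F.totalDegree ≤ δ → (∀ s, F.coeff s ∈ V) →
              MvPolynomial.aeval (vals fun j => P (1 / (m j : ℂ))) F = 0 →
              ∀ g : Fin k → Matrix (Fin n) (Fin n) ℂ, (∀ j, Pres P R (g j)) →
                MvPolynomial.aeval (vals fun j => g j * P (1 / (m j : ℂ))) F = 0 := by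
  obtain ⟨r₁, hr₁, hdet⟩ : ∃ r₁ : ℝ, 0 < r₁ ∧ ∀ z : ℂ, ‖z‖ < r₁ → (P z).det ≠ 0 := by
    obtain ⟨r₁, hr₁, h1⟩ := det_near (a := fun i j m => algebraMap L ℂ (coeff m (Z i j))) (fun i j => by
      obtain ⟨C', hC', -⟩ := hD.gZ i j
      exact ⟨C', fun m => hC' (algebraMap L ℂ) m⟩) (by
      intro h0
      have h2 : (Matrix.of fun i j => algebraMap L ℂ (constantCoeff (W i j))) *
          (Matrix.of fun i j => algebraMap L ℂ (coeff 0 (Z i j))) = 1 := by
        ext i j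
        rw [Matrix.mul_apply]
        have h3 := congrArg ((algebraMap L ℂ).comp (constantCoeff (R := L))) (hD.inv i j)
        rw [map_sum] at h3
        simp only [Matrix.of_apply]
        have h4 : ∑ k, algebraMap L ℂ (constantCoeff (W i k)) * algebraMap L ℂ (coeff 0 (Z k j)) =
            ∑ k, ((algebraMap L ℂ).comp (constantCoeff (R := L))) (W i k * Z k j) := by
          refine Finset.sum_congr rfl fun k _ => ?_
          rw [map_mul]
          simp
        rw [h4, h3, Matrix.one_apply]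
        split_ifs
        · exact map_one _
        · exact map_zero _
      have h4 := congrArg Matrix.det h2
      rw [Matrix.det_mul, h0, mul_zero, Matrix.det_one] at h4
      exact zero_ne_one h4)
    refine ⟨r₁, hr₁, fun z hz => ?_⟩
    rw [hP, Matrix.det_mul]
    exact mul_ne_zero hC (h1 z hz)
  obtain ⟨n', F', B, Z', W', c', r₂, hD', hr₂, hc'⟩ := Pool.Agent.Run7.h659.TT.res_one hD
    (fun (v : Fin n × Fin n) q => q.elim 0 fun q => if q.2 = v.2 then C v.1 q.1 else 0)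
  have hrep : ∀ z : ℂ, ‖z‖ < r₂ → ∀ v : Fin n × Fin n, P z v.1 v.2 = Pool.Agent.Run7.h659.TT.p1 c' Z' z v := by
    intro z hz v
    rw [← hc' z hz v, Fintype.sum_option]
    simp only [Option.elim_none, Option.elim_some, zero_mul, zero_add]
    rw [Fintype.sum_prod_type]
    simp only [ite_mul, zero_mul, Finset.sum_ite_eq', Finset.mem_univ, if_true]
    rw [hP, Matrix.mul_apply]
    rfl
  obtain ⟨r, hr, hrr, G, -, hwin⟩ := Pool.Agent.Run7.h659.TT.win_all hD' (r₀ := min R (min r₁ r₂))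
    (lt_min hR (lt_min hr₁ hr₂)) (p := fun (z : ℂ) (v : Fin n × Fin n) => P z v.1 v.2) (c' := c')
    (fun z hz v => hrep z (hz.trans_le ((min_le_right _ _).trans (min_le_right _ _))) v)
  have hrR : r ≤ R := hrr.trans (min_le_left _ _)
  have hrr₁ : r ≤ r₁ := hrr.trans ((min_le_right _ _).trans (min_le_left _ _))
  refine ⟨r, hr, hrR, fun z hz => hdet z (hz.trans_le hrr₁), G, fun k δ D => ?_⟩
  obtain ⟨M, c, hc, hM⟩ := hwin k (fun _ => Fin n × Fin n) (fun _ v => v) δ D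
  refine ⟨M, c, hc, fun V hV hVD N hN => ?_⟩
  obtain ⟨S, hS, hS'⟩ := hM V hV hVD N hN
  refine ⟨S, hS, fun m hm hmS => ?_⟩
  obtain ⟨h1, h2⟩ := hS' m hm hmS
  refine ⟨h1, fun F hF hFV h0 g hg => ?_⟩
  exact inv_of_spec (P := P) hr hrR h1 h2 F hF hFV h0 g hg

end Pool.Agent.Run7.h659.HO
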