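import Pool.Agent.Run7.h659.HG5
import Pool.Agent.Run7.h659.HO3

/-!
# Hodge endomorphisms of the space of endomorphisms and relations between periods
-/

set_option autoImplicit false
set_option linter.unusedSectionVars false

open Matrix

namespace Pool.Agent.Run7.h659.HG

open Pool.Agent.Run7.h659.HO (Vn vals XM)

section tri

variable {M : Type} [Fintype M] [DecidableEq M] {p q : ℕ}

/-- the entries below the blocks vanish -/
def Tri (B : Matrix M M ℂ) (l : M → ℤ) : Prop := ∀ i j, l i < l j → B i j = 0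

theorem Tri.inv {B : Matrix M M ℂ} {l : M → ℤ} (hB : IsUnit B) (h : Tri B l) : Tri B⁻¹ l := by
  have h1 : BlockTriangular B (fun i => -l i) := fun i j hij => h i j (neg_lt_neg_iff.1 hij)
  have := hB.invertible
  have h2 := Matrix.blockTriangular_inv_of_blockTriangular h1
  intro i j hij
  exact h2 (neg_lt_neg_iff.2 hij)

theorem Tri.mul {A B : Matrix M M ℂ} {l : M → ℤ} (hA : Tri A l) (hB : Tri B l) : Tri (A * B) l := by
  intro i j hij
  rw [Matrix.mul_apply]
  refine Finset.sum_eq_zero fun k _ => ?_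
  by_cases h1 : l i < l k
  · rw [hA i k h1, zero_mul]
  · rw [hB k j (by linarith), mul_zero]

theorem Tri.tn {B : Matrix M M ℂ} {l : M → ℤ} (h : Tri B l) (h' : Tri B⁻¹ l) : Tri (tn p q B) (tl p q l) := by
  intro I J hIJ
  unfold HG.tn tp
  rw [Matrix.of_apply]
  by_contra hne
  obtain ⟨h4, h5⟩ := mul_ne_zero_iff.1 hne
  rw [Finset.prod_ne_zero_iff] at h4 h5
  have h6 : ∀ s, l (J.1 s) ≤ l (I.1 s) := fun s => by
    by_contra h7
    exact h4 s (Finset.mem_univ s) (h _ _ (not_le.1 h7))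
  have h8 : ∀ t, l (I.2 t) ≤ l (J.2 t) := fun t => by
    by_contra h7
    exact h5 t (Finset.mem_univ t) (h' _ _ (not_le.1 h7))
  have h9 : ∑ s, l (J.1 s) ≤ ∑ s, l (I.1 s) := Finset.sum_le_sum fun s _ => h6 s
  have h10 : ∑ s, l (I.2 s) ≤ ∑ s, l (J.2 s) := Finset.sum_le_sum fun s _ => h8 s
  unfold tl at hIJ
  linarith

theorem comm_entry {Q : Matrix M M ℂ} (hQ : IsUnit Q) (l : M → ℤ) (Φ : Matrix M M ℂ) :
    (∀ z : ℂ, z ≠ 0 → Φ * ch Q l z = ch Q l z * Φ) ↔ ∀ i j, l i ≠ l j → (Q⁻¹ * Φ * Q) i j = 0 := by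
  have h1 : (tn 1 1 Q)⁻¹ *ᵥ vc Φ = vc (Q⁻¹ * Φ * Q) := by
    rw [tn_inv hQ, tn11_vc, nonsing_inv_nonsing_inv _ ((isUnit_iff_isUnit_det _).1 hQ)]
  rw [comm_iff hQ]
  unfold Hd
  rw [h1]
  have h2 : ∀ x : TI M 1 1, tl 1 1 l x = l (x.1 0) - l (x.2 0) := fun x => by
    unfold tl
    rw [Fin.sum_univ_one, Fin.sum_univ_one]
  constructor
  · intro h i j hij
    have h3 := h (fun _ => i, fun _ => j) (by rw [h2]; exact sub_ne_zero.2 hij)
    exact h3
  · intro h x hx
    rw [h2] at hx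
    exact h _ _ (sub_ne_zero.1 hx)

theorem comm_flag {Q S : Matrix M M ℂ} {l : M → ℤ} (h : HD Q S l) {B : Matrix M M ℂ} (hB : IsUnit B) (hT : Tri B l)
    {Φ : Matrix M M ℂ} (hΦ : cj Φ = Φ) : (∀ z : ℂ, z ≠ 0 → Φ * ch Q l z = ch Q l z * Φ) ↔
      ∀ i j, l i < l j → ((Q * B)⁻¹ * Φ * (Q * B)) i j = 0 := by
  have hQ := h.unitQ
  have hi1 : Q⁻¹ * Q = 1 := nonsing_inv_mul _ ((isUnit_iff_isUnit_det _).1 hQ)
  have hi2 : Q * Q⁻¹ = 1 := mul_nonsing_inv _ ((isUnit_iff_isUnit_det _).1 hQ)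
  have hb1 : B * B⁻¹ = 1 := mul_nonsing_inv _ ((isUnit_iff_isUnit_det _).1 hB)
  set Y := Q⁻¹ * Φ * Q with hY
  have e1 : (Q * B)⁻¹ * Φ * (Q * B) = B⁻¹ * Y * B := by
    rw [Matrix.mul_inv_rev, hY]
    simp only [Matrix.mul_assoc]
  rw [comm_entry hQ, e1]
  constructor
  · intro h1
    have h2 : Tri Y l := fun i j hij => h1 i j hij.ne
    exact ((hT.inv hB).mul h2).mul hT
  · intro h1
    have h2 : Tri Y l := by
      have h3 : Tri (B * (B⁻¹ * Y * B) * B⁻¹) l := (hT.mul h1).mul (hT.inv hB)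
      have h4 : B * (B⁻¹ * Y * B) * B⁻¹ = (B * B⁻¹) * Y * (B * B⁻¹) := by simp only [Matrix.mul_assoc]
      rwa [h4, hb1, Matrix.one_mul, Matrix.mul_one] at h3
    obtain ⟨U, hU, hU2⟩ := h.conj
    have hU3 : U * cj U = 1 := by
      have h1 := congrArg cj hU
      rw [cj_cj, cj_mul, hU, Matrix.mul_assoc] at h1
      have h2 : Q⁻¹ * Q = Q⁻¹ * (Q * (U * cj U)) := congrArg (fun x => Q⁻¹ * x) h1
      rw [← Matrix.mul_assoc Q⁻¹ Q, hi1, Matrix.one_mul] at h2
      exact h2.symm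
    have hU4 : U⁻¹ = cj U := inv_eq_right_inv hU3
    have h5 : cj Y = U⁻¹ * Y * U := by
      rw [hY, cj_mul, cj_mul, hΦ, cj_inv hQ, hU, Matrix.mul_inv_rev]
      simp only [Matrix.mul_assoc]
    have h6 : Y = U * cj Y * cj U := by
      rw [h5, hU4]
      calc Y = (U * cj U) * Y * (U * cj U) := by rw [hU3, Matrix.one_mul, Matrix.mul_one]
        _ = _ := by simp only [Matrix.mul_assoc]
    intro i j hij
    rcases lt_or_gt_of_ne hij with h7 | h7
    · exact h2 i j h7
    · have h60 : Y i j = (U * cj Y * cj U) i j := congrFun (congrFun h6 i) j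
      change Y i j = 0
      rw [h60, Matrix.mul_apply]
      refine Finset.sum_eq_zero fun b _ => ?_
      rw [Matrix.mul_apply, Finset.sum_mul]
      refine Finset.sum_eq_zero fun a _ => ?_
      by_cases ha : l i + l a = 0
      · by_cases hb : l b + l j = 0
        · have h8 : cj Y a b = 0 := by
            unfold cj
            rw [map_apply, h2 a b (by linarith), map_zero]
          rw [h8, mul_zero, zero_mul]
        · have h8 : cj U b j = 0 := by
            unfold cj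
            rw [map_apply, hU2 b j hb, map_zero]
          rw [h8, mul_zero]
      · rw [hU2 i a ha, zero_mul, zero_mul]

/-- the numerators of the entries of the conjugates by `tn 1 1 P` -/
def num {R : Type} [CommRing R] (P : Matrix M M R) (Φ : Matrix (TI M 1 1) (TI M 1 1) R) (x y : TI M 1 1) : R :=
  ∑ u, ∑ v, P.adjugate (x.1 0) (u.1 0) * P (u.2 0) (x.2 0) * Φ u v * (P (v.1 0) (y.1 0) * P.adjugate (y.2 0) (v.2 0))

theorem num_eq {P : Matrix M M ℂ} (hP : IsUnit P) (Φ : Matrix (TI M 1 1) (TI M 1 1) ℂ) (x y : TI M 1 1) :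
    num P Φ x y = P.det ^ 2 * ((tn 1 1 P)⁻¹ * Φ * tn 1 1 P) x y := by
  have hd := (isUnit_iff_isUnit_det _).1 hP
  have hadj : ∀ i j, P.adjugate i j = P.det * P⁻¹ i j := by
    intro i j
    rw [Matrix.inv_def, Matrix.smul_apply, smul_eq_mul, ← mul_assoc, Ring.mul_inverse_cancel _ hd, one_mul]
  rw [tn_inv hP, Matrix.mul_apply, Finset.mul_sum]
  unfold num
  rw [Finset.sum_comm]
  refine Finset.sum_congr rfl fun v _ => ?_
  rw [Matrix.mul_apply, Finset.sum_mul, Finset.mul_sum]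
  refine Finset.sum_congr rfl fun u _ => ?_
  have h1 : tn 1 1 P⁻¹ x u = P⁻¹ (x.1 0) (u.1 0) * P (u.2 0) (x.2 0) := by
    unfold HG.tn tp
    rw [Matrix.of_apply, Fin.prod_univ_one, Fin.prod_univ_one, nonsing_inv_nonsing_inv _ hd]
  have h2 : tn 1 1 P v y = P (v.1 0) (y.1 0) * P⁻¹ (y.2 0) (v.2 0) := by
    unfold HG.tn tp
    rw [Matrix.of_apply, Fin.prod_univ_one, Fin.prod_univ_one]
  rw [h1, h2, hadj, hadj]
  ring

theorem map_num {R R' : Type} [CommRing R] [CommRing R'] (φ : R →+* R') (P : Matrix M M R)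
    (Φ : Matrix (TI M 1 1) (TI M 1 1) R) (x y : TI M 1 1) : φ (num P Φ x y) = num (P.map φ) (Φ.map φ) x y := by
  unfold num
  have h1 : ∀ i j, φ (P.adjugate i j) = (P.map φ).adjugate i j := by
    intro i j
    have h := RingHom.map_adjugate φ P
    exact congrFun (congrFun h i) j
  simp only [map_sum, map_mul, h1, map_apply]

theorem deg_det' {σ : Type} (X : Matrix M M (MvPolynomial σ ℂ)) (h : ∀ i j, (X i j).totalDegree ≤ 1) :
    X.det.totalDegree ≤ Fintype.card M := by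
  rw [Matrix.det_apply]
  refine MvPolynomial.totalDegree_finsetSum_le fun s _ => ?_
  have h1 : (∏ i, X (s i) i).totalDegree ≤ Fintype.card M := by
    refine (MvPolynomial.totalDegree_finsetProd _ _).trans ?_
    refine (Finset.sum_le_sum fun i _ => h (s i) i).trans ?_
    simp
  rcases Int.units_eq_one_or (Equiv.Perm.sign s) with h2 | h2
  · rw [h2, one_smul]
    exact h1
  · rw [h2]
    have h3 : (-1 : ℤˣ) • (∏ i, X (s i) i) = -∏ i, X (s i) i := by
      rw [Units.smul_def]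
      simp
    rw [h3, MvPolynomial.totalDegree_neg]
    exact h1

theorem deg_adj' {σ : Type} (X : Matrix M M (MvPolynomial σ ℂ)) (h : ∀ i j, (X i j).totalDegree ≤ 1) (i a : M) :
    (X.adjugate i a).totalDegree ≤ Fintype.card M := by
  rw [Matrix.adjugate_apply]
  refine deg_det' _ fun x y => ?_
  rw [Matrix.updateRow_apply]
  split_ifs with hx
  · by_cases hy : y = i
    · subst hy
      rw [Pi.single_eq_same, MvPolynomial.totalDegree_one]
      exact zero_le_one
    · rw [Pi.single_eq_of_ne hy, MvPolynomial.totalDegree_zero]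
      exact zero_le_one
  · exact h x y

theorem deg_num {σ : Type} (X : Matrix M M (MvPolynomial σ ℂ)) (h : ∀ i j, (X i j).totalDegree ≤ 1)
    (Φ : Matrix (TI M 1 1) (TI M 1 1) ℂ) (x y : TI M 1 1) :
    (num X (Φ.map MvPolynomial.C) x y).totalDegree ≤ 2 * Fintype.card M + 2 := by
  unfold num
  refine MvPolynomial.totalDegree_finsetSum_le fun u _ => MvPolynomial.totalDegree_finsetSum_le fun v _ => ?_
  have h1 := deg_adj' X h (x.1 0) (u.1 0)
  have h2 := deg_adj' X h (y.2 0) (v.2 0)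
  have h3 := h (u.2 0) (x.2 0)
  have h4 := h (v.1 0) (y.1 0)
  have h5 : ((Φ.map MvPolynomial.C) u v : MvPolynomial σ ℂ).totalDegree = 0 := by
    rw [map_apply, MvPolynomial.totalDegree_C]
  refine (MvPolynomial.totalDegree_mul _ _).trans ?_
  refine (add_le_add ((MvPolynomial.totalDegree_mul _ _).trans (add_le_add (MvPolynomial.totalDegree_mul _ _) le_rfl))
    (MvPolynomial.totalDegree_mul _ _)).trans ?_
  omega

end tri

section block

variable {k n : ℕ}

/-- the generic block diagonal matrix -/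
noncomputable def XT : Matrix (Fin n × Fin k) (Fin n × Fin k) (MvPolynomial (Vn k n) ℚ) := blockDiagonal fun l => XM l

theorem XT_deg (i j : Fin n × Fin k) :
    ((XT : Matrix (Fin n × Fin k) (Fin n × Fin k) (MvPolynomial (Vn k n) ℚ)).map
      (MvPolynomial.map (algebraMap ℚ ℂ)) i j).totalDegree ≤ 1 := by
  rw [map_apply]
  unfold XT
  rw [blockDiagonal_apply]
  split_ifs
  · unfold XM
    rw [Matrix.of_apply, MvPolynomial.map_X, MvPolynomial.totalDegree_X]
  · rw [map_zero, MvPolynomial.totalDegree_zero]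
    exact zero_le_one

/-- the relation -/
noncomputable def rl (Φ : Matrix (TI (Fin n × Fin k) 1 1) (TI (Fin n × Fin k) 1 1) ℚ) (x y : TI (Fin n × Fin k) 1 1) :
    MvPolynomial (Vn k n) ℂ :=
  MvPolynomial.map (algebraMap ℚ ℂ) (num XT (Φ.map MvPolynomial.C) x y)

theorem rl_deg (Φ : Matrix (TI (Fin n × Fin k) 1 1) (TI (Fin n × Fin k) 1 1) ℚ) (x y : TI (Fin n × Fin k) 1 1) :
    (rl Φ x y).totalDegree ≤ 2 * (n * k) + 2 := by
  have h1 : rl Φ x y = num (XT.map (MvPolynomial.map (algebraMap ℚ ℂ))) ((rm Φ).map MvPolynomial.C) x y := by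
    unfold rl
    rw [map_num]
    congr 1
    ext u v
    unfold rm
    rw [map_apply, map_apply, map_apply, map_apply, MvPolynomial.map_C]
  rw [h1]
  have h2 := deg_num (XT.map (MvPolynomial.map (algebraMap ℚ ℂ))) XT_deg (rm Φ) x y
  rwa [Fintype.card_prod, Fintype.card_fin, Fintype.card_fin] at h2

theorem rl_coeff (Φ : Matrix (TI (Fin n × Fin k) 1 1) (TI (Fin n × Fin k) 1 1) ℚ) (x y : TI (Fin n × Fin k) 1 1)
    (s : Vn k n →₀ ℕ) : ∃ r : ℚ, (rl Φ x y).coeff s = algebraMap ℚ ℂ r := by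
  unfold rl
  rw [MvPolynomial.coeff_map]
  exact ⟨_, rfl⟩

theorem aeval_rl (Φ : Matrix (TI (Fin n × Fin k) 1 1) (TI (Fin n × Fin k) 1 1) ℚ) (x y : TI (Fin n × Fin k) 1 1)
    (Y : Fin k → Matrix (Fin n) (Fin n) ℂ) :
    MvPolynomial.aeval (vals Y) (rl Φ x y) = num (blockDiagonal Y) (rm Φ) x y := by
  unfold rl
  rw [MvPolynomial.aeval_map_algebraMap]
  have h1 := map_num (MvPolynomial.aeval (vals Y) : MvPolynomial (Vn k n) ℚ →ₐ[ℚ] ℂ).toRingHom XT
    (Φ.map MvPolynomial.C) x y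
  refine h1.trans ?_
  congr 1
  · unfold XT
    rw [blockDiagonal_map _ _ (map_zero _)]
    congr 1
    funext l
    ext a b
    rw [map_apply]
    unfold XM
    rw [Matrix.of_apply]
    exact MvPolynomial.aeval_X _ _
  · ext u v
    rw [map_apply, map_apply]
    unfold rm
    rw [map_apply]
    exact MvPolynomial.aeval_C _ _

end block

end Pool.Agent.Run7.h659.HG
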