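import Pool.Agent.Run7.h659.HG6

/-!
# Hodge tensors at the points of windows
-/

set_option autoImplicit false
set_option linter.unusedSectionVars false

open Matrix PowerSeries

namespace Pool.Agent.Run7.h659.HG

open Pool.Agent.Run7.h659.HO (Vn vals XM Pres win_inv)
open Pool.Agent.Y921.DB (DatL VL)

section mul

variable {M : Type} [Fintype M] [DecidableEq M]

theorem HD.mul {Q S : Matrix M M ℂ} {l : M → ℤ} (h : HD Q S l) {g : Matrix M M ℂ} (hg : gᵀ * S * g = S)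
    (hr : cj g = g) : HD (g * Q) S l := by
  refine ⟨?_, ?_⟩
  · rw [cj_mul, hr, transpose_mul]
    calc Qᵀ * gᵀ * S * (g * cj Q) = Qᵀ * (gᵀ * S * g) * cj Q := by simp only [Matrix.mul_assoc]
      _ = _ := by rw [hg, h.form]
  · obtain ⟨U, hU, hU2⟩ := h.conj
    exact ⟨U, by rw [cj_mul, hr, hU, Matrix.mul_assoc], hU2⟩

theorem cj_zc (x : Matrix M M ℤ) : cj (zc x) = zc x := by
  ext i j
  unfold cj zc
  simp

theorem cj_rm (x : Matrix M M ℚ) : cj (rm x) = rm x := by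
  ext i j
  unfold cj rm
  rw [map_apply, map_apply, eq_ratCast, map_ratCast]

end mul

variable {k n : ℕ}

theorem HD.block {Q : Fin k → Matrix (Fin n) (Fin n) ℂ} {S : Matrix (Fin n) (Fin n) ℂ} {l : Fin n → ℤ}
    (h : ∀ j, HD (Q j) S l) : HD (blockDiagonal Q) (blockDiagonal fun _ : Fin k => S) (fun x => l x.1) := by
  refine ⟨?_, ?_⟩
  · have h1 : cj (blockDiagonal Q) = blockDiagonal fun j => cj (Q j) := by
      unfold cj
      rw [blockDiagonal_map _ _ (map_zero _)]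
    rw [h1, blockDiagonal_transpose, ← blockDiagonal_mul, ← blockDiagonal_mul]
    have h2 : (fun j => (Q j)ᵀ * S * cj (Q j)) = fun _ : Fin k => diagonal fun i => Complex.I ^ (-(l i)) :=
      funext fun j => (h j).form
    rw [h2, blockDiagonal_diagonal]
  · choose U hU hU2 using fun j => (h j).conj
    refine ⟨blockDiagonal U, ?_, ?_⟩
    · rw [← blockDiagonal_mul]
      unfold cj
      rw [blockDiagonal_map _ _ (map_zero _)]
      congr 1
      exact funext hU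
    · rintro ⟨i, a⟩ ⟨j, b⟩ hij
      rw [blockDiagonal_apply]
      split_ifs with hab
      · exact hU2 a i j hij
      · rfl

/-- the action of tuples of integral matrices -/
noncomputable def rh (Γ : Subgroup (GL (Fin n) ℤ)) (k : ℕ) : (Fin k → Γ) →* Matrix (Fin n × Fin k) (Fin n × Fin k) ℤ where
  toFun g := blockDiagonal fun j => ((g j : GL (Fin n) ℤ) : Matrix (Fin n) (Fin n) ℤ)
  map_one' := by
    have h1 : (fun j : Fin k => (((1 : Fin k → Γ) j : GL (Fin n) ℤ) : Matrix (Fin n) (Fin n) ℤ)) = 1 := by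
      funext j
      simp
    rw [h1, blockDiagonal_one]
  map_mul' g g' := by
    rw [← blockDiagonal_mul]
    congr 1

theorem zc_rh (Γ : Subgroup (GL (Fin n) ℤ)) (g : Fin k → Γ) :
    zc (rh Γ k g) = blockDiagonal fun j => zc ((g j : GL (Fin n) ℤ) : Matrix (Fin n) (Fin n) ℤ) := by
  have h1 := blockDiagonal_map (fun j : Fin k => ((g j : GL (Fin n) ℤ) : Matrix (Fin n) (Fin n) ℤ))
    (Int.castRingHom ℂ) (map_zero (Int.castRingHom ℂ))
  exact h1

/-- **The orbits of the Hodge tensors at the points of windows are finite.** -/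
theorem hodge_win {L : Type} [Field L] [NumberField L] [Algebra L ℂ] {f : Polynomial L}
    {A : Fin n → Fin n → Polynomial L} {Z W : Fin n → Fin n → L⟦X⟧} (hD : DatL f A Z W)
    {C : Matrix (Fin n) (Fin n) ℂ} (hC : C.det ≠ 0) {R : ℝ} (hR : 0 < R) {P : ℂ → Matrix (Fin n) (Fin n) ℂ}
    (hP : ∀ z, P z = C * Matrix.of fun i j => ∑' m : ℕ, algebraMap L ℂ (coeff m (Z i j)) * z ^ m)
    (Γ : Subgroup (GL (Fin n) ℤ)) (hΓ : ∀ g ∈ Γ, Pres P R (zc (g : Matrix (Fin n) (Fin n) ℤ)))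
    {S : Matrix (Fin n) (Fin n) ℚ} (hS : ∀ g ∈ Γ, (zc (g : Matrix (Fin n) (Fin n) ℤ))ᵀ * rm S *
      zc (g : Matrix (Fin n) (Fin n) ℤ) = rm S) (l : Fin n → ℤ) :
    ∃ r : ℝ, 0 < r ∧ r ≤ R ∧ ∃ G : ℕ, ∀ k : ℕ, ∃ M : ℕ, ∃ c : ℝ, 0 < c ∧
      ∀ N : ℕ, 1 ≤ N → ∃ X : Finset ℕ, X.card ≤ M ∧ ∀ m : Fin k → ℕ, (∀ i j, i ≠ j → (G : ℤ) ≤ |(m i : ℤ) - m j|) →
        (∀ j, N ≤ m j ∧ (m j : ℝ) ≤ N + (N : ℝ) ^ c ∧ m j ∉ X) → (∀ j, 1 / (m j : ℝ) < r) ∧
          ∀ (Q B : Fin k → Matrix (Fin n) (Fin n) ℂ), (∀ j, HD (Q j) (rm S) l) → (∀ j, Tri (B j) l) →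
            (∀ j, P (1 / (m j : ℂ)) = Q j * B j) →
            ∀ (p q : ℕ) (b : TI (Fin n × Fin k) p q → ℚ),
              Hd (tn p q (blockDiagonal Q)) (tl p q fun x => l x.1) (rc b) →
              (Set.range fun g : Fin k → Γ => tn p q (zc (rh Γ k g)) *ᵥ rc b).Finite := by
  obtain ⟨r, hr, hrR, hdet, G, hwin⟩ := win_inv hD hC hR hP
  refine ⟨r, hr, hrR, G, fun k => ?_⟩
  obtain ⟨M, c, hc, hM⟩ := hwin k (2 * (n * k) + 2) 1
  refine ⟨M, c, hc, fun N hN => ?_⟩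
  set V : Submodule ℚ ℂ := Submodule.span ℚ {1} with hV
  have hVf : Module.Finite ℚ V := Module.Finite.span_of_finite ℚ (Set.finite_singleton _)
  have hVr : Module.finrank ℚ V ≤ 1 := (finrank_span_le_card ({1} : Set ℂ)).trans (by simp)
  have hVm : ∀ a : ℚ, algebraMap ℚ ℂ a ∈ V := fun a => by
    rw [Algebra.algebraMap_eq_smul_one]
    exact V.smul_mem a (Submodule.subset_span rfl)
  obtain ⟨X, hX, hX'⟩ := hM V hVf hVr N hN
  refine ⟨X, hX, fun m hm hmX => ?_⟩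
  obtain ⟨h1, h2⟩ := hX' m hm hmX
  refine ⟨h1, fun Q B hQ hB hPQ p q b hb => ?_⟩
  have hPd : ∀ j, IsUnit (P (1 / (m j : ℂ))) := fun j => by
    rw [isUnit_iff_isUnit_det, isUnit_iff_ne_zero]
    refine hdet _ ?_
    have := h1 j
    rwa [norm_div, norm_one, Complex.norm_natCast]
  have hBu : ∀ j, IsUnit (B j) := fun j => by
    have h3 := hPd j
    rw [hPQ j] at h3
    rw [isUnit_iff_isUnit_det] at h3 ⊢
    rw [det_mul] at h3
    exact isUnit_of_mul_isUnit_right h3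
  have hblock : ∀ Y : Fin k → Matrix (Fin n) (Fin n) ℂ, (∀ j, IsUnit (Y j)) → IsUnit (blockDiagonal Y) := by
    intro Y hY
    refine IsUnit.of_mul_eq_one (blockDiagonal fun j => (Y j)⁻¹) ?_
    rw [← blockDiagonal_mul]
    have h3 : (fun j => Y j * (Y j)⁻¹) = 1 := funext fun j => mul_nonsing_inv _ ((isUnit_iff_isUnit_det _).1 (hY j))
    rw [h3, blockDiagonal_one]
  set QT := blockDiagonal Q with hQT
  set BT := blockDiagonal B with hBT
  set lT : Fin n × Fin k → ℤ := fun x => l x.1 with hlT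
  have hST : (blockDiagonal fun _ : Fin k => rm S) = rm (blockDiagonal fun _ : Fin k => S) := by
    unfold rm
    rw [blockDiagonal_map _ _ (map_zero _)]
  have hHD : HD QT (rm (blockDiagonal fun _ : Fin k => S)) lT := by
    rw [← hST]
    exact HD.block hQ
  have hBTu : IsUnit BT := hblock B hBu
  have hBTt : Tri BT lT := by
    rintro ⟨i, a⟩ ⟨j, b⟩ hij
    rw [hBT, blockDiagonal_apply]
    split_ifs with hab
    · exact hB a i j hij
    · rfl
  have hPT : (blockDiagonal fun j => P (1 / (m j : ℂ))) = QT * BT := by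
    rw [hQT, hBT, ← blockDiagonal_mul]
    congr 1
    exact funext hPQ
  have hiso : ∀ g : Fin k → Γ, (zc (rh Γ k g))ᵀ * rm (blockDiagonal fun _ : Fin k => S) * zc (rh Γ k g) =
      rm (blockDiagonal fun _ : Fin k => S) := by
    intro g
    rw [zc_rh, ← hST, blockDiagonal_transpose, ← blockDiagonal_mul, ← blockDiagonal_mul]
    congr 1
    exact funext fun j => hS _ (g j).2
  have hBi : Tri BT⁻¹ lT := hBTt.inv hBTu
  refine hodge_orbits hHD rfl (rh Γ k) hiso (fun Φ hΦ g => ?_) p q b hb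
  -- stability of the Hodge endomorphisms
  have hcjΦ : cj (rm Φ) = rm Φ := cj_rm Φ
  have hgu : IsUnit (zc (rh Γ k g)) := by
    refine IsUnit.of_mul_eq_one (zc (rh Γ k g⁻¹)) ?_
    rw [← zc_mul, ← map_mul, mul_inv_cancel, map_one, zc_one]
  have hHD1 := hHD.tn (p := 1) (q := 1)
  have hHDg : HD (zc (rh Γ k g) * QT) (rm (blockDiagonal fun _ : Fin k => S)) lT := hHD.mul (hiso g) (cj_zc _)
  have hHD2 := hHDg.tn (p := 1) (q := 1)
  have hBT1 : Tri (tn 1 1 BT) (tl 1 1 lT) := hBTt.tn hBi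
  have hBu1 : IsUnit (tn 1 1 BT) := tn_unit hBTu
  have a1 := (comm_flag hHD1 hBu1 hBT1 hcjΦ).1 hΦ
  refine (comm_flag hHD2 hBu1 hBT1 hcjΦ).2 fun x y hxy => ?_
  have a2 := a1 x y hxy
  have hPTu : IsUnit (QT * BT) := (hHD.unitQ).mul hBTu
  have hgPu : IsUnit (zc (rh Γ k g) * QT * BT) := (hgu.mul hHD.unitQ).mul hBTu
  rw [← tn_mul] at a2 ⊢
  have a3 : num (QT * BT) (rm Φ) x y = 0 := by rw [num_eq hPTu, a2, mul_zero]
  rw [← hPT, ← aeval_rl] at a3
  have a4 := h2 (rl Φ x y) (rl_deg Φ x y) (fun s => by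
    obtain ⟨r', hr'⟩ := rl_coeff Φ x y s
    rw [hr']
    exact hVm r') a3 (fun j => zc ((g j : GL (Fin n) ℤ) : Matrix (Fin n) (Fin n) ℤ)) (fun j => hΓ _ (g j).2)
  rw [aeval_rl] at a4
  have a5 : (blockDiagonal fun j => zc ((g j : GL (Fin n) ℤ) : Matrix (Fin n) (Fin n) ℤ) * P (1 / (m j : ℂ))) =
      zc (rh Γ k g) * QT * BT := by
    rw [Matrix.mul_assoc, ← hPT, zc_rh, ← blockDiagonal_mul]
  rw [a5, num_eq hgPu] at a4
  exact (mul_eq_zero.1 a4).resolve_left (pow_ne_zero _ ((isUnit_iff_isUnit_det _).1 hgPu).ne_zero)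

end Pool.Agent.Run7.h659.HG
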