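import Pool.Agent.Run7.h659.HG7

/-!
# Spans of columns
-/

set_option autoImplicit false

open Matrix

namespace Pool.Agent.Run7.h659.HG

theorem mem_cols {N : Type} [Fintype N] [DecidableEq N] {Q : Matrix N N ℂ} {J : Set N} {v : N → ℂ}
    (h : v ∈ Submodule.span ℂ ((fun j i => Q i j) '' J)) : ∃ c : N → ℂ, (∀ i, i ∉ J → c i = 0) ∧ v = Q *ᵥ c := by
  induction h using Submodule.span_induction with
  | mem x hx =>
    obtain ⟨j, hj, rfl⟩ := hx
    refine ⟨Pi.single j 1, fun i hi => ?_, ?_⟩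
    · refine Pi.single_eq_of_ne (fun h : i = j => hi ?_) _
      rw [h]
      exact hj
    · rw [mulVec_single_one]
      rfl
  | zero => exact ⟨0, fun _ _ => rfl, (mulVec_zero _).symm⟩
  | add x y _ _ hx hy =>
    obtain ⟨c, hc, rfl⟩ := hx
    obtain ⟨d, hd, rfl⟩ := hy
    exact ⟨c + d, fun i hi => by rw [Pi.add_apply, hc i hi, hd i hi, add_zero], (mulVec_add _ _ _).symm⟩
  | smul a x _ hx =>
    obtain ⟨c, hc, rfl⟩ := hx
    exact ⟨a • c, fun i hi => by rw [Pi.smul_apply, hc i hi, smul_zero], (mulVec_smul _ _ _).symm⟩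

theorem col_mem {N : Type} {Q : Matrix N N ℂ} {J : Set N} {j : N} (hj : j ∈ J) :
    (fun i => Q i j) ∈ Submodule.span ℂ ((fun j i => Q i j) '' J) :=
  Submodule.subset_span ⟨j, hj, rfl⟩

/-- Hodge bases -/
theorem hd_of {N : Type} [Fintype N] [DecidableEq N] {S Q : Matrix N N ℂ} {w : ℤ} {a : N → ℤ}
    (h1 : ∀ j, (fun i => (starRingEnd ℂ) (Q i j)) ∈ Submodule.span ℂ ((fun j i => Q i j) '' {i | a i = w - a j}))
    (h2 : Qᵀ * S * Q.map (starRingEnd ℂ) = diagonal fun j => Complex.I ^ (w - 2 * a j)) :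
    HD Q S (fun j => 2 * a j - w) := by
  choose c hc hv using fun j => mem_cols (h1 j)
  refine ⟨?_, Matrix.of fun i j => c j i, ?_, fun i j hij => ?_⟩
  · have h3 : (fun j => Complex.I ^ (-(2 * a j - w))) = fun j => Complex.I ^ (w - 2 * a j) := by
      funext j
      congr 1
      ring
    rw [h3]
    exact h2
  · ext i j
    exact congrFun (hv j) i
  · refine hc j i fun h4 => hij ?_
    have h5 : a i = w - a j := h4
    rw [h5]
    ring

/-- change of basis compatible with filtrations -/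
theorem tri_of {N : Type} [Fintype N] [DecidableEq N] {P Q : Matrix N N ℂ} {w : ℤ} {a : N → ℤ}
    (h : ∀ p : ℤ, Submodule.span ℂ ((fun j i => Q i j) '' {i | p ≤ a i}) =
      Submodule.span ℂ ((fun j i => P i j) '' {i | p ≤ a i})) :
    ∃ B : Matrix N N ℂ, Tri B (fun j => 2 * a j - w) ∧ P = Q * B := by
  have h1 : ∀ j, (fun i => P i j) ∈ Submodule.span ℂ ((fun j i => Q i j) '' {i | a j ≤ a i}) := by
    intro j
    rw [h]
    exact col_mem (le_refl (a j))
  choose c hc hv using fun j => mem_cols (h1 j)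
  refine ⟨Matrix.of fun i j => c j i, fun i j hij => ?_, ?_⟩
  · refine hc j i fun h4 => ?_
    have h5 : a j ≤ a i := h4
    have h6 : 2 * a i - w < 2 * a j - w := hij
    clear hij
    omega
  · ext i j
    exact congrFun (hv j) i

/-- Hodge tensors -/
theorem Hd_of {N : Type} [Fintype N] [DecidableEq N] {Q : Matrix N N ℂ} {p q : ℕ} (hQ : IsUnit (tn p q Q)) {l : N → ℤ}
    {b : TI N p q → ℂ} (h : b ∈ Submodule.span ℂ ((fun J I => tn p q Q I J) '' {J | ∑ s, l (J.1 s) = ∑ t, l (J.2 t)})) :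
    Hd (tn p q Q) (tl p q l) b := by
  obtain ⟨c, hc, rfl⟩ := mem_cols h
  intro J hJ
  rw [inv_Q hQ]
  refine hc J fun h1 => hJ ?_
  unfold tl
  exact sub_eq_zero.2 h1

end Pool.Agent.Run7.h659.HG
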