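import Pool.Agent.Run7.h659.HG8

/-!
# Tensors with finite orbits are fixed by the connected monodromy group
-/

set_option autoImplicit false

open Matrix

namespace Pool.Agent.Run7.h659.HG

/-- the complex points of the intersection of the Zariski closures of the subgroups of finite index of `Γ` -/
def Conn {n : ℕ} (Γ : Subgroup (GL (Fin n) ℤ)) : Set (Matrix (Fin n) (Fin n) ℂ) :=
  {h | ∀ Δ : Subgroup Γ, Δ.FiniteIndex → ∀ F : MvPolynomial (Fin n × Fin n) ℂ,
    (∀ g ∈ Δ, MvPolynomial.eval (fun v => (((g : GL (Fin n) ℤ) : Matrix (Fin n) (Fin n) ℤ).map (Int.castRingHom ℂ)) v.1 v.2) F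
      = 0) → MvPolynomial.eval (fun v => h v.1 v.2) F = 0}

section ring

variable {n k p q : ℕ} {R : Type} [CommRing R]

/-- the matrix `x` in the factor `a` -/
def EE (a : Fin k) (x : Matrix (Fin n) (Fin n) R) : Matrix (Fin n × Fin k) (Fin n × Fin k) R :=
  blockDiagonal (Function.update (fun _ => 1) a x)

theorem EE_mul (a : Fin k) (x y : Matrix (Fin n) (Fin n) R) : EE a x * EE a y = EE a (x * y) := by
  unfold EE
  rw [← blockDiagonal_mul]
  congr 1
  funext j
  by_cases h : j = a
  · subst h
    simp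
  · rw [Function.update_of_ne h, Function.update_of_ne h, Function.update_of_ne h, Matrix.one_mul]

theorem EE_one (a : Fin k) : EE a (1 : Matrix (Fin n) (Fin n) R) = 1 := by
  unfold EE
  have h1 : Function.update (fun _ : Fin k => (1 : Matrix (Fin n) (Fin n) R)) a 1 = 1 := by
    funext j
    by_cases h : j = a
    · subst h
      simp
    · rw [Function.update_of_ne h]
      rfl
  rw [h1, blockDiagonal_one]

theorem EE_map {R' : Type} [CommRing R'] (φ : R →+* R') (a : Fin k) (x : Matrix (Fin n) (Fin n) R) :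
    (EE a x).map φ = EE a (x.map φ) := by
  unfold EE
  rw [blockDiagonal_map _ _ (map_zero φ)]
  congr 1
  funext j
  by_cases h : j = a
  · subst h
    simp
  · rw [Function.update_of_ne h, Function.update_of_ne h]
    exact Matrix.map_one _ (map_zero φ) (map_one φ)

/-- the action of `x` in the factor `a`, as a polynomial in the entries of `x` -/
def TT (p q : ℕ) (a : Fin k) (x : Matrix (Fin n) (Fin n) R) : Matrix (TI (Fin n × Fin k) p q) (TI (Fin n × Fin k) p q) R :=
  tp (fun _ => EE a x) (fun _ => EE a (x.det • x.adjugate))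

theorem TT_map {R' : Type} [CommRing R'] (φ : R →+* R') (a : Fin k) (x : Matrix (Fin n) (Fin n) R)
    (I J : TI (Fin n × Fin k) p q) : φ (TT p q a x I J) = TT p q a (x.map φ) I J := by
  unfold TT tp
  rw [Matrix.of_apply, Matrix.of_apply, map_mul, map_prod, map_prod]
  have h1 : (x.det • x.adjugate).map φ = (x.map φ).det • (x.map φ).adjugate := by
    ext i j
    have h2 : (x.map φ).det = φ x.det := (RingHom.map_det φ x).symm
    have h3 : (x.map φ).adjugate = x.adjugate.map φ := (RingHom.map_adjugate φ x).symm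
    rw [h2, h3, map_apply, Matrix.smul_apply, Matrix.smul_apply, map_apply, smul_eq_mul, smul_eq_mul, map_mul]
  rw [← h1, ← EE_map, ← EE_map]
  rfl

end ring

variable {n k p q : ℕ}

theorem TT_tn (a : Fin k) {x : Matrix (Fin n) (Fin n) ℂ} (hx : x.det * x.det = 1) : TT p q a x = tn p q (EE a x) := by
  unfold TT tn
  congr 1
  funext t
  refine (inv_eq_right_inv ?_).symm
  rw [EE_mul, Matrix.mul_smul, mul_adjugate, smul_smul, hx, one_smul, EE_one]

theorem det_int (g : GL (Fin n) ℤ) : (zc (g : Matrix (Fin n) (Fin n) ℤ)).det * (zc (g : Matrix (Fin n) (Fin n) ℤ)).det = 1 := by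
  have h1 : (zc (g : Matrix (Fin n) (Fin n) ℤ)).det = ((g : Matrix (Fin n) (Fin n) ℤ).det : ℂ) :=
    (RingHom.map_det (Int.castRingHom ℂ) (g : Matrix (Fin n) (Fin n) ℤ)).symm
  have h2 : IsUnit (g : Matrix (Fin n) (Fin n) ℤ).det := (Matrix.isUnit_iff_isUnit_det _).1 g.isUnit
  rw [h1, ← Int.cast_mul]
  rcases Int.isUnit_iff.1 h2 with h3 | h3 <;> rw [h3] <;> norm_num

/-- the determinants of the elements of the connected monodromy group -/
theorem conn_det {Γ : Subgroup (GL (Fin n) ℤ)} {h : Matrix (Fin n) (Fin n) ℂ} (hh : h ∈ Conn Γ) : h.det * h.det = 1 := by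
  have h1 := hh ⊤ inferInstance ((Matrix.mvPolynomialX (Fin n) (Fin n) ℂ).det * (Matrix.mvPolynomialX (Fin n) (Fin n) ℂ).det - 1)
    (fun g _ => by
      have h2 := det_int (g : GL (Fin n) ℤ)
      rw [map_sub, map_mul, map_one, RingHom.map_det]
      have h3 : (MvPolynomial.eval fun v : Fin n × Fin n => (((g : GL (Fin n) ℤ) : Matrix (Fin n) (Fin n) ℤ).map
          (Int.castRingHom ℂ)) v.1 v.2).mapMatrix (Matrix.mvPolynomialX (Fin n) (Fin n) ℂ) =
          zc ((g : GL (Fin n) ℤ) : Matrix (Fin n) (Fin n) ℤ) := by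
        ext i j
        simp [zc]
      rw [h3, h2, sub_self])
  rw [map_sub, map_mul, map_one, RingHom.map_det] at h1
  have h3 : (MvPolynomial.eval fun v : Fin n × Fin n => h v.1 v.2).mapMatrix (Matrix.mvPolynomialX (Fin n) (Fin n) ℂ) = h := by
    ext i j
    simp
  rw [h3] at h1
  exact sub_eq_zero.1 h1

theorem fixed_one {Γ : Subgroup (GL (Fin n) ℤ)} (a : Fin k) {b : TI (Fin n × Fin k) p q → ℂ}
    (hb : (Set.range fun g : Fin k → Γ => tn p q (zc (rh Γ k g)) *ᵥ b).Finite) {h : Matrix (Fin n) (Fin n) ℂ}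
    (hh : h ∈ Conn Γ) : h.det * h.det = 1 ∧ tn p q (EE a h) *ᵥ b = b := by
  -- the orbit under the factor `a`
  set f : Γ → TI (Fin n × Fin k) p q → ℂ := fun g => tn p q (EE a (zc ((g : GL (Fin n) ℤ) : Matrix (Fin n) (Fin n) ℤ))) *ᵥ b
    with hf
  have hff : (Set.range f).Finite := by
    refine hb.subset ?_
    rintro _ ⟨g, rfl⟩
    refine ⟨Function.update 1 a g, ?_⟩
    change tn p q (zc (rh Γ k (Function.update 1 a g))) *ᵥ b = _
    rw [zc_rh, hf]
    have h1 : (fun j => zc ((Function.update (1 : Fin k → Γ) a g j : GL (Fin n) ℤ) : Matrix (Fin n) (Fin n) ℤ)) =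
        Function.update (fun _ => 1) a (zc ((g : GL (Fin n) ℤ) : Matrix (Fin n) (Fin n) ℤ)) := by
      funext j
      by_cases hj : j = a
      · subst hj
        rw [Function.update_self, Function.update_self]
      · rw [Function.update_of_ne hj, Function.update_of_ne hj]
        exact zc_one
    rw [h1]
    rfl
  have hzu : ∀ g : Γ, IsUnit (EE a (zc ((g : GL (Fin n) ℤ) : Matrix (Fin n) (Fin n) ℤ))) := by
    intro g
    refine IsUnit.of_mul_eq_one (EE a (zc (((g⁻¹ : Γ) : GL (Fin n) ℤ) : Matrix (Fin n) (Fin n) ℤ))) ?_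
    rw [EE_mul, ← zc_mul]
    have h1 : ((g : GL (Fin n) ℤ) : Matrix (Fin n) (Fin n) ℤ) * (((g⁻¹ : Γ) : GL (Fin n) ℤ) : Matrix (Fin n) (Fin n) ℤ) = 1 := by
      rw [← Units.val_mul, ← Subgroup.coe_mul, mul_inv_cancel]
      rfl
    rw [h1, zc_one, EE_one]
  have hmul : ∀ g g' : Γ, f (g * g') = tn p q (EE a (zc ((g : GL (Fin n) ℤ) : Matrix (Fin n) (Fin n) ℤ))) *ᵥ f g' := by
    intro g g'
    rw [hf]
    simp only
    rw [mulVec_mulVec, ← tn_mul, EE_mul, ← zc_mul]
    rfl
  have hone : f 1 = b := by
    rw [hf]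
    simp only
    have h1 : zc (((1 : Γ) : GL (Fin n) ℤ) : Matrix (Fin n) (Fin n) ℤ) = 1 := zc_one
    rw [h1, EE_one, tn_one, one_mulVec]
  let Δ : Subgroup Γ :=
    { carrier := {g | f g = b}
      mul_mem' := by
        intro g g' h1 h2
        have h1' : f g = b := h1
        have h2' : f g' = b := h2
        change f (g * g') = b
        rw [hmul, h2']
        exact h1'
      one_mem' := hone
      inv_mem' := by
        intro g h1
        have h1' : f g = b := h1
        change f g⁻¹ = b
        have h2 := hmul g⁻¹ g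
        rw [inv_mul_cancel, hone, h1'] at h2
        exact h2.symm }
  have hΔ : Δ.FiniteIndex := by
    have : Finite (Set.range f) := hff
    let φ : (Γ ⧸ Δ) → Set.range f := Quotient.lift (fun g : Γ => (⟨f g, g, rfl⟩ : Set.range f)) (by
      intro g g' hg
      have h1 : g⁻¹ * g' ∈ Δ := QuotientGroup.leftRel_apply.1 hg
      have h2 : f (g⁻¹ * g') = b := h1
      apply Subtype.ext
      change f g = f g'
      have h3 : f g' = f (g * (g⁻¹ * g')) := by rw [mul_inv_cancel_left]
      rw [h3, hmul, h2])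
    have hφ : Function.Injective φ := by
      intro x y
      refine Quotient.inductionOn₂ x y fun g g' hgg => ?_
      have h1 : f g = f g' := congrArg Subtype.val hgg
      refine Quotient.sound (QuotientGroup.leftRel_apply.2 ?_)
      change f (g⁻¹ * g') = b
      rw [hmul, ← h1, ← hmul, inv_mul_cancel, hone]
    have : Finite (Γ ⧸ Δ) := Finite.of_injective φ hφ
    exact Subgroup.finiteIndex_of_finite_quotient
  have hdet : h.det * h.det = 1 := conn_det hh
  refine ⟨hdet, ?_⟩
  rw [← TT_tn a hdet]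
  funext I
  have key : ∀ x : Matrix (Fin n) (Fin n) ℂ, MvPolynomial.eval (fun v : Fin n × Fin n => x v.1 v.2)
      (∑ J, TT p q a (Matrix.mvPolynomialX (Fin n) (Fin n) ℂ) I J * MvPolynomial.C (b J) - MvPolynomial.C (b I)) =
      (TT p q a x *ᵥ b) I - b I := by
    intro x
    rw [map_sub, map_sum, MvPolynomial.eval_C]
    congr 1
    refine Finset.sum_congr rfl fun J _ => ?_
    rw [map_mul, MvPolynomial.eval_C, TT_map]
    congr 2
    ext i j
    simp
  have h1 := hh Δ hΔ _ (fun g hg => by
    rw [key, sub_eq_zero]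
    have h2 : f g = b := hg
    have h3 := TT_tn (p := p) (q := q) a (det_int (g : GL (Fin n) ℤ))
    have h4 := congrFun h2 I
    rw [hf] at h4
    simp only at h4
    rw [← h3] at h4
    exact h4)
  rw [key] at h1
  exact sub_eq_zero.1 h1

/-- **Tensors with finite orbits are fixed by the connected monodromy groups.** -/
theorem fixed_all {Γ : Subgroup (GL (Fin n) ℤ)} {b : TI (Fin n × Fin k) p q → ℂ}
    (hb : (Set.range fun g : Fin k → Γ => tn p q (zc (rh Γ k g)) *ᵥ b).Finite) {h : Fin k → Matrix (Fin n) (Fin n) ℂ}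
    (hh : ∀ j, h j ∈ Conn Γ) : tn p q (blockDiagonal h) *ᵥ b = b := by
  have h1 : ∀ s : Finset (Fin k), tn p q (blockDiagonal fun j => if j ∈ s then h j else 1) *ᵥ b = b := by
    intro s
    induction s using Finset.induction_on with
    | empty =>
      have h2 : (fun j : Fin k => if j ∈ (∅ : Finset (Fin k)) then h j else 1) = 1 := by
        funext j
        rw [if_neg (Finset.notMem_empty j)]
        rfl
      rw [h2, blockDiagonal_one, tn_one, one_mulVec]
    | insert a s ha ih =>
      have h2 : (blockDiagonal fun j => if j ∈ insert a s then h j else 1) =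
          EE a (h a) * blockDiagonal fun j => if j ∈ s then h j else 1 := by
        unfold EE
        rw [← blockDiagonal_mul]
        congr 1
        funext j
        by_cases hj : j = a
        · subst hj
          rw [Function.update_self, if_pos (Finset.mem_insert_self _ _), if_neg ha, Matrix.mul_one]
        · rw [Function.update_of_ne hj, Matrix.one_mul]
          by_cases hs : j ∈ s
          · rw [if_pos (Finset.mem_insert_of_mem hs), if_pos hs]
          · rw [if_neg hs, if_neg fun h3 => (Finset.mem_insert.1 h3).elim hj hs]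
      rw [h2, tn_mul, ← mulVec_mulVec, ih]
      exact (fixed_one a hb (hh a)).2
  have h2 := h1 Finset.univ
  simpa using h2

end Pool.Agent.Run7.h659.HG
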