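import Mathlib

/-!
# Invariant subspaces of matrices with distinct eigenvalues, and the spans of the columns of a matrix
-/

set_option autoImplicit false

namespace Pool.Agent.Run7.h659.HO

variable {n : ℕ}

/-- the span of the columns `j ∈ J` -/
def cs (P : Matrix (Fin n) (Fin n) ℂ) (J : Set (Fin n)) : Submodule ℂ (Fin n → ℂ) :=
  Submodule.span ℂ ((fun j i => P i j) '' J)

theorem mem_cs {Q : Matrix (Fin n) (Fin n) ℂ} (hQ : Q.det ≠ 0) (J : Set (Fin n)) (v : Fin n → ℂ) :
    v ∈ cs Q J ↔ ∀ i, i ∉ J → Q.adjugate.mulVec v i = 0 := by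
  constructor
  · intro hv i hi
    induction hv using Submodule.span_induction with
    | mem x hx =>
      obtain ⟨j, hj, rfl⟩ := hx
      have h1 : Q.adjugate.mulVec (fun i => Q i j) i = (Q.adjugate * Q) i j := by
        rw [Matrix.mul_apply]
        rfl
      rw [h1, Matrix.adjugate_mul, Matrix.smul_apply, Matrix.one_apply_ne (fun h : i = j => hi (h.symm ▸ hj)), smul_zero]
    | zero => simp
    | add x y _ _ hx hy => rw [Matrix.mulVec_add, Pi.add_apply, hx, hy, add_zero]
    | smul a x _ hx => rw [Matrix.mulVec_smul, Pi.smul_apply, hx, smul_zero]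
  · intro h
    have h1 : v = (Q.det)⁻¹ • ∑ l, Q.adjugate.mulVec v l • fun i => Q i l := by
      have h2 : Q.mulVec (Q.adjugate.mulVec v) = Q.det • v := by
        rw [Matrix.mulVec_mulVec, Matrix.mul_adjugate, Matrix.smul_mulVec, Matrix.one_mulVec]
      have h3 : ∑ l, Q.adjugate.mulVec v l • (fun i => Q i l) = Q.mulVec (Q.adjugate.mulVec v) := by
        funext i
        rw [Finset.sum_apply]
        change _ = ∑ l, Q i l * Q.adjugate.mulVec v l
        refine Finset.sum_congr rfl fun l _ => ?_
        rw [Pi.smul_apply, smul_eq_mul, mul_comm]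
      rw [h3, h2, smul_smul, inv_mul_cancel₀ hQ, one_smul]
    rw [h1]
    refine Submodule.smul_mem _ _ (Submodule.sum_mem _ fun l _ => ?_)
    by_cases hl : l ∈ J
    · exact Submodule.smul_mem _ _ (Submodule.subset_span ⟨l, hl, rfl⟩)
    · rw [h l hl, zero_smul]
      exact Submodule.zero_mem _

/-- a matrix maps the span of columns of one matrix to the span of columns of another one -/
theorem maps_iff (φ P : Matrix (Fin n) (Fin n) ℂ) {Q : Matrix (Fin n) (Fin n) ℂ} (hQ : Q.det ≠ 0) (J : Set (Fin n)) :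
    (∀ v ∈ cs P J, φ.mulVec v ∈ cs Q J) ↔ ∀ j ∈ J, ∀ i, i ∉ J → (Q.adjugate * φ * P) i j = 0 := by
  have key : ∀ i j, (Q.adjugate * φ * P) i j = Q.adjugate.mulVec (φ.mulVec fun i => P i j) i := by
    intro i j
    rw [Matrix.mulVec_mulVec, Matrix.mul_apply]
    rfl
  constructor
  · intro h j hj i hi
    rw [key]
    exact (mem_cs hQ J _).1 (h _ (Submodule.subset_span ⟨j, hj, rfl⟩)) i hi
  · intro h v hv
    induction hv using Submodule.span_induction with
    | mem x hx =>
      obtain ⟨j, hj, rfl⟩ := hx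
      refine (mem_cs hQ J _).2 fun i hi => ?_
      have := h j hj i hi
      rwa [key] at this
    | zero => rw [Matrix.mulVec_zero]; exact Submodule.zero_mem _
    | add x y _ _ hx hy => rw [Matrix.mulVec_add]; exact Submodule.add_mem _ hx hy
    | smul a x _ hx => rw [Matrix.mulVec_smul]; exact Submodule.smul_mem _ _ hx

theorem cs_mul (g P : Matrix (Fin n) (Fin n) ℂ) (J : Set (Fin n)) :
    cs (g * P) J = (cs P J).map (Matrix.mulVecLin g) := by
  unfold cs
  rw [Submodule.map_span, ← Set.image_comp]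
  congr 1

/-- a matrix with distinct eigenvalues has only finitely many invariant subspaces -/
theorem finite_inv (φ : Matrix (Fin n) (Fin n) ℂ) (h : φ.charpoly.Separable) :
    {W : Submodule ℂ (Fin n → ℂ) | ∀ v ∈ W, φ.mulVec v ∈ W}.Finite := by
  classical
  rcases Nat.eq_zero_or_pos n with rfl | hn
  · have : Subsingleton (Submodule ℂ (Fin 0 → ℂ)) := inferInstance
    exact Set.Subsingleton.finite fun x _ y _ => Subsingleton.elim x y
  have : Nonempty (Fin n) := ⟨⟨0, hn⟩⟩
  set T : Module.End ℂ (Fin n → ℂ) := Matrix.toLin' φ with hT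
  have hcard : φ.charpoly.roots.toFinset.card = n := by
    rw [Multiset.toFinset_card_of_nodup (Polynomial.nodup_roots h),
      ← (IsAlgClosed.splits φ.charpoly).natDegree_eq_card_roots, Matrix.charpoly_natDegree_eq_dim, Fintype.card_fin]
  set μ : Fin n → ℂ := fun i => ((Finset.equivFinOfCardEq hcard).symm i : ℂ) with hμ
  have hinj : Function.Injective μ := fun i j hij =>
    (Finset.equivFinOfCardEq hcard).symm.injective (Subtype.ext hij)
  have hroot : ∀ i, φ.charpoly.IsRoot (μ i) := fun i =>
    Polynomial.isRoot_of_mem_roots (Multiset.mem_toFinset.1 ((Finset.equivFinOfCardEq hcard).symm i).2)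
  have hev : ∀ i, ∃ v, T.HasEigenvector (μ i) v := by
    intro i
    have h1 : T.HasEigenvalue (μ i) := by
      rw [Module.End.hasEigenvalue_iff_isRoot_charpoly, hT, Matrix.charpoly_toLin']
      exact hroot i
    exact h1.exists_hasEigenvector
  choose v hv using hev
  have hli : LinearIndependent ℂ v := Module.End.eigenvectors_linearIndependent' T μ hinj v hv
  set b := basisOfLinearIndependentOfCardEqFinrank hli (by simp) with hb
  have hbv : ∀ i, b i = v i := fun i => by rw [hb, coe_basisOfLinearIndependentOfCardEqFinrank]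
  refine Set.Finite.subset (Set.finite_range fun s : Finset (Fin n) => Submodule.span ℂ (v '' (s : Set (Fin n)))) ?_
  intro W hW
  refine ⟨Finset.univ.filter fun i => v i ∈ W, le_antisymm ?_ ?_⟩
  · refine Submodule.span_le.2 ?_
    rintro x ⟨i, hi, rfl⟩
    exact (Finset.mem_filter.1 (Finset.mem_coe.1 hi)).2
  · intro w hw
    have hTW : ∀ p : Polynomial ℂ, ∀ u ∈ W, Polynomial.aeval T p u ∈ W := by
      intro p
      induction p using Polynomial.induction_on' with
      | add p q hp hq =>
        intro u hu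
        rw [map_add, LinearMap.add_apply]
        exact W.add_mem (hp u hu) (hq u hu)
      | monomial k a =>
        intro u hu
        rw [Polynomial.aeval_monomial]
        change algebraMap ℂ (Module.End ℂ (Fin n → ℂ)) a ((T ^ k) u) ∈ W
        rw [Module.algebraMap_end_apply]
        refine W.smul_mem _ ?_
        clear a
        induction k with
        | zero => exact hu
        | succ k ih =>
          rw [pow_succ']
          exact hW _ ih
    have hmem : ∀ i, b.repr w i ≠ 0 → v i ∈ W := by
      intro i hi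
      set p : Polynomial ℂ := ∏ j ∈ Finset.univ.erase i, (Polynomial.X - Polynomial.C (μ j)) with hp
      have h1 := hTW p w hw
      have h2 : Polynomial.aeval T p w = (b.repr w i * p.eval (μ i)) • v i := by
        conv_lhs => rw [← b.sum_repr w]
        rw [map_sum, Finset.sum_eq_single i]
        · rw [map_smul, hbv, Module.End.aeval_apply_of_hasEigenvector (hv i), smul_smul]
        · intro j _ hj
          have h3 : p.eval (μ j) = 0 := by
            rw [hp, Polynomial.eval_prod]
            exact Finset.prod_eq_zero (Finset.mem_erase.2 ⟨hj, Finset.mem_univ j⟩) (by simp)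
          rw [map_smul, hbv, Module.End.aeval_apply_of_hasEigenvector (hv j), h3, zero_smul, smul_zero]
        · intro h; exact absurd (Finset.mem_univ _) h
      have h3 : p.eval (μ i) ≠ 0 := by
        rw [hp, Polynomial.eval_prod]
        refine Finset.prod_ne_zero_iff.2 fun j hj => ?_
        rw [Polynomial.eval_sub, Polynomial.eval_X, Polynomial.eval_C]
        exact sub_ne_zero.2 fun h => (Finset.mem_erase.1 hj).1 (hinj h).symm
      rw [h2] at h1
      have h4 := W.smul_mem (b.repr w i * p.eval (μ i))⁻¹ h1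
      rwa [smul_smul, inv_mul_cancel₀ (mul_ne_zero hi h3), one_smul] at h4
    rw [← b.sum_repr w]
    refine Submodule.sum_mem _ fun i _ => ?_
    by_cases hi : b.repr w i = 0
    · rw [hi, zero_smul]
      exact Submodule.zero_mem _
    · rw [hbv]
      exact Submodule.smul_mem _ _ (Submodule.subset_span ⟨i, by
        rw [Finset.mem_coe, Finset.mem_filter]; exact ⟨Finset.mem_univ i, hmem i hi⟩, rfl⟩)

theorem inj_of_det {M : Matrix (Fin n) (Fin n) ℂ} (h : M.det ≠ 0) : Function.Injective (Matrix.mulVecLin M) := by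
  intro v w hvw
  rw [Matrix.mulVecLin_apply, Matrix.mulVecLin_apply] at hvw
  have h1 := congrArg (Matrix.mulVec M.adjugate) hvw
  rw [Matrix.mulVec_mulVec, Matrix.mulVec_mulVec, Matrix.adjugate_mul, Matrix.smul_mulVec, Matrix.smul_mulVec,
    Matrix.one_mulVec, Matrix.one_mulVec] at h1
  exact smul_right_injective _ h h1

theorem finrank_cs {P : Matrix (Fin n) (Fin n) ℂ} (hP : P.det ≠ 0) (J : Set (Fin n)) :
    Module.finrank ℂ (cs P J) = Module.finrank ℂ (cs (1 : Matrix (Fin n) (Fin n) ℂ) J) := by
  have h1 := cs_mul P 1 J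
  rw [mul_one] at h1
  rw [h1]
  exact (Submodule.equivMapOfInjective _ (inj_of_det hP) _).finrank_eq.symm

theorem map_eq_of_le {φ P Q : Matrix (Fin n) (Fin n) ℂ} (hφ : φ.det ≠ 0) (hP : P.det ≠ 0) (hQ : Q.det ≠ 0)
    {J : Set (Fin n)} (h : ∀ v ∈ cs P J, φ.mulVec v ∈ cs Q J) : (cs P J).map (Matrix.mulVecLin φ) = cs Q J := by
  refine Submodule.eq_of_le_of_finrank_eq ?_ ?_
  · rintro x ⟨v, hv, rfl⟩
    exact h v hv
  · rw [← (Submodule.equivMapOfInjective _ (inj_of_det hφ) (cs P J)).finrank_eq, finrank_cs hP, finrank_cs hQ]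

/-- the entries of a power series of geometric growth are continuous at `0` -/
theorem cont_zero {a : ℕ → ℂ} {C : ℝ} (h : ∀ m, ‖a m‖ ≤ C ^ (m + 1)) :
    ContinuousAt (fun z : ℂ => ∑' m : ℕ, a m * z ^ m) 0 := by
  have hC : 0 ≤ C := by
    have := (norm_nonneg _).trans (h 0)
    simpa using this
  set s : ℝ := 1 / (2 * (C + 1)) with hs
  have hs0 : 0 < s := by positivity
  have h1 : ContinuousOn (fun z : ℂ => ∑' m : ℕ, a m * z ^ m) (Metric.closedBall 0 s) := by
    refine continuousOn_tsum (u := fun m => (C + 1) * (1 / 2 : ℝ) ^ m) (fun m => by fun_prop) ?_ ?_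
    · exact (summable_geometric_of_lt_one (by norm_num) (by norm_num)).mul_left _
    · intro m z hz
      rw [mem_closedBall_zero_iff] at hz
      rw [norm_mul, norm_pow]
      calc ‖a m‖ * ‖z‖ ^ m ≤ (C + 1) ^ (m + 1) * s ^ m := by
            refine mul_le_mul ((h m).trans (pow_le_pow_left₀ hC (by linarith) _))
              (pow_le_pow_left₀ (norm_nonneg _) hz m) (by positivity) (by positivity)
        _ = (C + 1) * (1 / 2 : ℝ) ^ m := by
            rw [pow_succ, mul_comm ((C + 1) ^ m), mul_assoc, ← mul_pow]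
            congr 2
            rw [hs]
            field_simp
  exact h1.continuousAt (Metric.closedBall_mem_nhds 0 hs0)

theorem tsum_zero (a : ℕ → ℂ) : ∑' m : ℕ, a m * (0 : ℂ) ^ m = a 0 := by
  rw [tsum_eq_single 0 fun m hm => by rw [zero_pow hm, mul_zero], pow_zero, mul_one]

/-- a matrix of power series with invertible constant term is invertible near `0` -/
theorem det_near {a : Fin n → Fin n → ℕ → ℂ} (h : ∀ i j, ∃ C : ℝ, ∀ m, ‖a i j m‖ ≤ C ^ (m + 1))
    (h0 : (Matrix.of fun i j => a i j 0).det ≠ 0) :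
    ∃ r : ℝ, 0 < r ∧ ∀ z : ℂ, ‖z‖ < r → (Matrix.of fun i j => ∑' m : ℕ, a i j m * z ^ m).det ≠ 0 := by
  have h1 : ContinuousAt (fun z : ℂ => (Matrix.of fun i j => ∑' m : ℕ, a i j m * z ^ m)) 0 := by
    refine continuousAt_pi.2 fun i => continuousAt_pi.2 fun j => ?_
    obtain ⟨C, hC⟩ := h i j
    exact cont_zero hC
  have h2 : ContinuousAt (fun z : ℂ => (Matrix.of fun i j => ∑' m : ℕ, a i j m * z ^ m).det) 0 :=
    (Continuous.matrix_det continuous_id).continuousAt.comp h1
  have h3 : (Matrix.of fun i j => ∑' m : ℕ, a i j m * (0 : ℂ) ^ m).det ≠ 0 := by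
    simp only [tsum_zero]
    exact h0
  have h4 := h2.eventually_ne h3
  rw [Metric.eventually_nhds_iff] at h4
  obtain ⟨r, hr, h5⟩ := h4
  refine ⟨r, hr, fun z hz => h5 ?_⟩
  rwa [dist_zero_right]

/-- integral matrices which are unitary for a positive definite form -/
theorem finite_unitary {B : Matrix (Fin n) (Fin n) ℂ} (hB : B.det ≠ 0) :
    {g : Matrix (Fin n) (Fin n) ℂ | (∀ i j, ∃ a : ℤ, g i j = a) ∧
      (B * g).conjTranspose * (B * g) = B.conjTranspose * B}.Finite := by
  classical
  set β : Fin n → ℝ := fun j => ‖(B.conjTranspose * B) j j‖ with hβ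
  set γ : Fin n → Fin n → ℝ := fun i j => ∑ k, ‖(B⁻¹) i k‖ * (β j + 1) with hγ
  have hfin : {a : Fin n → Fin n → ℤ | ∀ i j, |(a i j : ℝ)| ≤ γ i j}.Finite := by
    have h1 : ∀ i j, {a : ℤ | |(a : ℝ)| ≤ γ i j}.Finite := by
      intro i j
      refine (Set.finite_Icc (-⌈γ i j⌉) ⌈γ i j⌉).subset fun a ha => ?_
      have h2 := abs_le.1 (show |(a : ℝ)| ≤ γ i j from ha)
      have h3 := Int.le_ceil (γ i j)
      constructor
      · have : (-(⌈γ i j⌉ : ℝ)) ≤ a := by linarith
        exact_mod_cast this
      · have : (a : ℝ) ≤ ⌈γ i j⌉ := by linarith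
        exact_mod_cast this
    exact Set.Finite.pi' fun i => Set.Finite.pi' fun j => h1 i j
  refine Set.Finite.subset (hfin.image fun a => Matrix.of fun i j => ((a i j : ℤ) : ℂ)) ?_
  rintro g ⟨hg, hu⟩
  choose a ha using hg
  refine ⟨a, fun i j => ?_, ?_⟩
  · -- the entries of B g
    have h1 : ∀ k, ‖(B * g) k j‖ ≤ β j + 1 := by
      intro k
      have h2 : ((B * g).conjTranspose * (B * g)) j j = ((∑ i, ‖(B * g) i j‖ ^ 2 : ℝ) : ℂ) := by
        rw [Matrix.mul_apply]
        push_cast
        refine Finset.sum_congr rfl fun i _ => ?_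
        rw [Matrix.conjTranspose_apply, Complex.star_def, ← Complex.normSq_eq_conj_mul_self, Complex.normSq_eq_norm_sq]
        push_cast
        rfl
      have h3 : ∑ i, ‖(B * g) i j‖ ^ 2 = β j := by
        rw [hβ]
        simp only
        rw [← hu, h2, Complex.norm_real, Real.norm_eq_abs, abs_of_nonneg (Finset.sum_nonneg fun i _ => by positivity)]
      have h4 : ‖(B * g) k j‖ ^ 2 ≤ β j := by
        rw [← h3]
        exact Finset.single_le_sum (f := fun i => ‖(B * g) i j‖ ^ 2) (fun i _ => by positivity) (Finset.mem_univ k)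
      have h5 : 0 ≤ β j := norm_nonneg _
      nlinarith [norm_nonneg ((B * g) k j)]
    have h6 : g = B⁻¹ * (B * g) := by
      rw [← mul_assoc, Matrix.nonsing_inv_mul _ (Ne.isUnit hB), one_mul]
    have h7 : g i j = ∑ k, (B⁻¹) i k * (B * g) k j := by
      conv_lhs => rw [h6]
      rw [Matrix.mul_apply]
    have h8 : |((a i j : ℤ) : ℝ)| = ‖g i j‖ := by
      rw [ha i j, Complex.norm_intCast]
    rw [h8, h7]
    refine (norm_sum_le _ _).trans (Finset.sum_le_sum fun k _ => ?_)
    rw [norm_mul]
    exact mul_le_mul_of_nonneg_left (h1 k) (norm_nonneg _)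
  · ext i j
    exact (ha i j).symm

end Pool.Agent.Run7.h659.HO
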