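import Pool.Agent.Run7.h659.TT3
import Pool.Agent.Run7.h659.HO1

/-!
# Relations between the entries of period matrices: morphisms of filtered spaces, and invariance under monodromy
-/

set_option autoImplicit false

namespace Pool.Agent.Run7.h659.HO

open Pool.Agent.Run7.h659.TT (SpecV)

variable {k n : ℕ}

/-- the names of the entries of the matrices at `k` points -/
abbrev Vn (k n : ℕ) : Type := Σ _ : Fin k, Fin n × Fin n

/-- their values -/
def vals {R : Type} (Y : Fin k → Matrix (Fin n) (Fin n) R) (v : Vn k n) : R := Y v.1 v.2.1 v.2.2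

/-- generic matrices -/
noncomputable def XM (l : Fin k) : Matrix (Fin n) (Fin n) (MvPolynomial (Vn k n) ℚ) :=
  Matrix.of fun a b => MvPolynomial.X ⟨l, (a, b)⟩

/-- the entry `(i, j)` of `adj(X_l') φ X_l` -/
noncomputable def rel (φ : Matrix (Fin n) (Fin n) ℂ) (l l' : Fin k) (i j : Fin n) : MvPolynomial (Vn k n) ℂ :=
  ∑ a, ∑ b, MvPolynomial.C (φ a b) * MvPolynomial.map (algebraMap ℚ ℂ) ((XM l').adjugate i a * XM l b j)

theorem aeval_adj (Y : Fin k → Matrix (Fin n) (Fin n) ℂ) (l : Fin k) (i a : Fin n) :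
    MvPolynomial.aeval (vals Y) ((XM l : Matrix (Fin n) (Fin n) (MvPolynomial (Vn k n) ℚ)).adjugate i a) =
      (Y l).adjugate i a := by
  have h := (MvPolynomial.aeval (vals Y) : MvPolynomial (Vn k n) ℚ →ₐ[ℚ] ℂ).map_adjugate (XM l)
  have h2 : AlgHom.mapMatrix (MvPolynomial.aeval (vals Y) : MvPolynomial (Vn k n) ℚ →ₐ[ℚ] ℂ) (XM l) = Y l := by
    ext a b
    rw [AlgHom.mapMatrix_apply, Matrix.map_apply]
    unfold XM
    rw [Matrix.of_apply, MvPolynomial.aeval_X]
    rfl
  rw [h2] at h
  exact congrFun (congrFun h i) a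

theorem aeval_rel (φ : Matrix (Fin n) (Fin n) ℂ) (l l' : Fin k) (i j : Fin n)
    (Y : Fin k → Matrix (Fin n) (Fin n) ℂ) :
    MvPolynomial.aeval (vals Y) (rel φ l l' i j) = ((Y l').adjugate * φ * Y l) i j := by
  unfold rel
  rw [map_sum, Matrix.mul_apply]
  simp only [Matrix.mul_apply, Finset.sum_mul]
  rw [Finset.sum_comm]
  refine Finset.sum_congr rfl fun a _ => ?_
  rw [map_sum]
  refine Finset.sum_congr rfl fun b _ => ?_
  rw [map_mul, MvPolynomial.aeval_C, MvPolynomial.aeval_map_algebraMap, map_mul, aeval_adj]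
  have h1 : MvPolynomial.aeval (vals Y) ((XM l : Matrix (Fin n) (Fin n) (MvPolynomial (Vn k n) ℚ)) b j) = Y l b j := by
    unfold XM
    rw [Matrix.of_apply, MvPolynomial.aeval_X]
    rfl
  rw [h1, Algebra.algebraMap_self, RingHom.id_apply]
  ring

theorem deg_det {σ : Type} {m : ℕ} (M : Matrix (Fin m) (Fin m) (MvPolynomial σ ℚ))
    (h : ∀ i j, (M i j).totalDegree ≤ 1) : M.det.totalDegree ≤ m := by
  rw [Matrix.det_apply]
  refine MvPolynomial.totalDegree_finsetSum_le fun s _ => ?_
  have h1 : (∏ i, M (s i) i).totalDegree ≤ m := by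
    refine (MvPolynomial.totalDegree_finsetProd _ _).trans ?_
    refine (Finset.sum_le_sum fun i _ => h (s i) i).trans ?_
    simp
  rcases Int.units_eq_one_or (Equiv.Perm.sign s) with h2 | h2
  · rw [h2, one_smul]
    exact h1
  · rw [h2]
    have h3 : (-1 : ℤˣ) • (∏ i, M (s i) i) = -∏ i, M (s i) i := by
      rw [Units.smul_def]
      simp
    rw [h3, MvPolynomial.totalDegree_neg]
    exact h1

theorem deg_adj (l : Fin k) (i a : Fin n) :
    ((XM l : Matrix (Fin n) (Fin n) (MvPolynomial (Vn k n) ℚ)).adjugate i a).totalDegree ≤ n := by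
  rw [Matrix.adjugate_apply]
  refine deg_det _ fun x y => ?_
  rw [Matrix.updateRow_apply]
  split_ifs with h
  · by_cases hy : y = i
    · subst hy
      rw [Pi.single_eq_same, MvPolynomial.totalDegree_one]
      exact zero_le_one
    · rw [Pi.single_eq_of_ne hy, MvPolynomial.totalDegree_zero]
      exact zero_le_one
  · unfold XM
    rw [Matrix.of_apply, MvPolynomial.totalDegree_X]

theorem deg_rel (φ : Matrix (Fin n) (Fin n) ℂ) (l l' : Fin k) (i j : Fin n) :
    (rel φ l l' i j).totalDegree ≤ n + 1 := by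
  unfold rel
  refine MvPolynomial.totalDegree_finsetSum_le fun a _ => MvPolynomial.totalDegree_finsetSum_le fun b _ => ?_
  refine (MvPolynomial.totalDegree_mul _ _).trans ?_
  rw [MvPolynomial.totalDegree_C, zero_add]
  have h0 : (MvPolynomial.map (algebraMap ℚ ℂ) ((XM l').adjugate i a * XM l b j)).totalDegree ≤
      ((XM l' : Matrix (Fin n) (Fin n) (MvPolynomial (Vn k n) ℚ)).adjugate i a * XM l b j).totalDegree := by
    refine Finset.sup_mono (fun s hs => ?_)
    exact MvPolynomial.support_map_subset _ _ hs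
  refine h0.trans ((MvPolynomial.totalDegree_mul _ _).trans (add_le_add (deg_adj l' i a) ?_))
  unfold XM
  rw [Matrix.of_apply, MvPolynomial.totalDegree_X]

theorem coeff_rel (V : Submodule ℚ ℂ) {φ : Matrix (Fin n) (Fin n) ℂ} (hφ : ∀ a b, φ a b ∈ V) (l l' : Fin k)
    (i j : Fin n) (s : Vn k n →₀ ℕ) : (rel φ l l' i j).coeff s ∈ V := by
  unfold rel
  rw [MvPolynomial.coeff_sum]
  refine Submodule.sum_mem _ fun a _ => ?_
  rw [MvPolynomial.coeff_sum]
  refine Submodule.sum_mem _ fun b _ => ?_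
  rw [MvPolynomial.coeff_C_mul, MvPolynomial.coeff_map, mul_comm, ← Algebra.smul_def]
  exact V.smul_mem _ (hφ a b)

/-- `g` preserves the relations over `ℂ[z]` between the entries of `P(z)` -/
def Pres (P : ℂ → Matrix (Fin n) (Fin n) ℂ) (R : ℝ) (g : Matrix (Fin n) (Fin n) ℂ) : Prop :=
  ∀ r : ℝ, 0 < r → r ≤ R → ∀ F : MvPolynomial (Fin n × Fin n) (Polynomial ℂ),
    (∀ z : ℂ, ‖z‖ < r → F.eval₂ (Polynomial.evalRingHom z) (fun v => P z v.1 v.2) = 0) →
    ∀ z : ℂ, ‖z‖ < r → F.eval₂ (Polynomial.evalRingHom z) (fun v => (g * P z) v.1 v.2) = 0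

/-- the value of a polynomial over `ℂ[z_1, …, z_k]` -/
noncomputable def EV (G : MvPolynomial (Vn k n) (MvPolynomial (Fin k) ℂ)) (z : Fin k → ℂ)
    (Y : Fin k → Matrix (Fin n) (Fin n) ℂ) : ℂ :=
  G.eval₂ (MvPolynomial.aeval z : MvPolynomial (Fin k) ℂ →ₐ[ℂ] ℂ).toRingHom (vals Y)

/-- all variables but those with index `j₀` are replaced by constants -/
noncomputable def red (j₀ : Fin k) (z : Fin k → ℂ) (Y : Fin k → Matrix (Fin n) (Fin n) ℂ)
    (G : MvPolynomial (Vn k n) (MvPolynomial (Fin k) ℂ)) : MvPolynomial (Fin n × Fin n) (Polynomial ℂ) :=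
  G.eval₂ ((MvPolynomial.C).comp (MvPolynomial.aeval (fun j => if j = j₀ then (Polynomial.X : Polynomial ℂ) else
      Polynomial.C (z j)) : MvPolynomial (Fin k) ℂ →ₐ[ℂ] Polynomial ℂ).toRingHom)
    (fun v => if v.1 = j₀ then MvPolynomial.X v.2 else MvPolynomial.C (Polynomial.C (vals Y v)))

theorem eval_red (j₀ : Fin k) (z : Fin k → ℂ) (Y : Fin k → Matrix (Fin n) (Fin n) ℂ)
    (G : MvPolynomial (Vn k n) (MvPolynomial (Fin k) ℂ)) (w : ℂ) (U : Matrix (Fin n) (Fin n) ℂ) :
    (red j₀ z Y G).eval₂ (Polynomial.evalRingHom w) (fun v => U v.1 v.2) =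
      EV G (Function.update z j₀ w) (Function.update Y j₀ U) := by
  unfold red EV
  have h1 := MvPolynomial.eval₂_comp_left (MvPolynomial.eval₂Hom (Polynomial.evalRingHom w)
    (fun v : Fin n × Fin n => U v.1 v.2)) ((MvPolynomial.C).comp (MvPolynomial.aeval (fun j => if j = j₀ then
      (Polynomial.X : Polynomial ℂ) else Polynomial.C (z j)) : MvPolynomial (Fin k) ℂ →ₐ[ℂ] Polynomial ℂ).toRingHom)
    (fun v => if v.1 = j₀ then MvPolynomial.X v.2 else MvPolynomial.C (Polynomial.C (vals Y v))) G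
  refine h1.trans ?_
  congr 1
  · refine MvPolynomial.ringHom_ext (fun a => ?_) fun j => ?_
    · simp
    · by_cases hj : j = j₀
      · subst hj
        simp
      · simp [hj]
  · funext v
    rw [Function.comp_apply]
    unfold vals
    by_cases hv : v.1 = j₀
    · rw [if_pos hv, hv, Function.update_self]
      simp
    · rw [if_neg hv, Function.update_of_ne hv]
      simp

/-- **Invariance for `k` points.** -/
theorem inv_tuple {P : ℂ → Matrix (Fin n) (Fin n) ℂ} {R r : ℝ} (hr : 0 < r) (hrR : r ≤ R)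
    (G : MvPolynomial (Vn k n) (MvPolynomial (Fin k) ℂ))
    (hG : ∀ z : Fin k → ℂ, (∀ j, ‖z j‖ < r) → EV G z (fun j => P (z j)) = 0)
    (g : Fin k → Matrix (Fin n) (Fin n) ℂ) (hg : ∀ j, Pres P R (g j)) (z : Fin k → ℂ) (hz : ∀ j, ‖z j‖ < r) :
    EV G z (fun j => g j * P (z j)) = 0 := by
  classical
  have key : ∀ T : Finset (Fin k), ∀ z : Fin k → ℂ, (∀ j, ‖z j‖ < r) →
      EV G z (fun j => if j ∈ T then g j * P (z j) else P (z j)) = 0 := by
    intro T
    induction T using Finset.induction_on with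
    | empty =>
      intro z hz
      simpa using hG z hz
    | insert j₀ T hj₀ ih =>
      intro z hz
      set Y : Fin k → Matrix (Fin n) (Fin n) ℂ := fun j => if j ∈ T then g j * P (z j) else P (z j) with hY
      have h1 : ∀ w : ℂ, ‖w‖ < r → (red j₀ z Y G).eval₂ (Polynomial.evalRingHom w)
          (fun v => P w v.1 v.2) = 0 := by
        intro w hw
        rw [eval_red]
        have h2 := ih (Function.update z j₀ w) (fun j => by
          by_cases hj : j = j₀
          · subst hj; rwa [Function.update_self]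
          · rw [Function.update_of_ne hj]; exact hz j)
        convert h2 using 2
        funext j
        by_cases hj : j = j₀
        · subst hj
          rw [Function.update_self, if_neg hj₀, Function.update_self]
        · rw [Function.update_of_ne hj, hY, Function.update_of_ne hj]
      have h3 := hg j₀ r hr hrR _ h1 (z j₀) (hz j₀)
      rw [eval_red, Function.update_eq_self] at h3
      convert h3 using 2
      funext j
      by_cases hj : j = j₀
      · subst hj
        rw [Function.update_self, if_pos (Finset.mem_insert_self _ _)]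
      · rw [Function.update_of_ne hj, hY]
        simp [Finset.mem_insert, hj]
  have h := key Finset.univ z hz
  simpa using h

/-- from functional relations to invariance -/
theorem inv_of_spec {P : ℂ → Matrix (Fin n) (Fin n) ℂ} {R r : ℝ} (hr : 0 < r) (hrR : r ≤ R) {V : Submodule ℚ ℂ} {δ : ℕ}
    {m : Fin k → ℕ} (hm : ∀ j, 1 / (m j : ℝ) < r)
    (hs : SpecV V (fun (z : Fin k → ℂ) (v : Vn k n) => P (z v.1) v.2.1 v.2.2) r δ m)
    (F : MvPolynomial (Vn k n) ℂ) (hF : F.totalDegree ≤ δ) (hFV : ∀ s, F.coeff s ∈ V)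
    (h0 : MvPolynomial.aeval (vals fun j => P (1 / (m j : ℂ))) F = 0)
    (g : Fin k → Matrix (Fin n) (Fin n) ℂ) (hg : ∀ j, Pres P R (g j)) :
    MvPolynomial.aeval (vals fun j => g j * P (1 / (m j : ℂ))) F = 0 := by
  obtain ⟨G, hG1, hG2⟩ := hs F hF hFV h0
  have hz : ∀ j, ‖(1 / (m j : ℂ))‖ < r := by
    intro l
    have := hm l
    rwa [norm_div, norm_one, Complex.norm_natCast]
  have h1 := inv_tuple hr hrR G (fun z hz => hG1 z hz) g hg (fun j => 1 / (m j : ℂ)) hz
  rw [← hG2, MvPolynomial.aeval_def, MvPolynomial.eval₂_map, ← h1]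
  unfold EV
  congr 1

end Pool.Agent.Run7.h659.HO
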