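import Pool.Agent.Run7.h659.HO3

/-!
# Isogenies between the fibres at the points of windows
-/

set_option autoImplicit false

open PowerSeries

namespace Pool.Agent.Run7.h659.HO

open Pool.Agent.Y921.DB (DatL VL)

variable {n : ℕ}

/-- morphisms at two points -/
theorem maps_inv {k : ℕ} {V : Submodule ℚ ℂ} {Y Y' : Fin k → Matrix (Fin n) (Fin n) ℂ}
    (h : ∀ F : MvPolynomial (Vn k n) ℂ, F.totalDegree ≤ n + 1 → (∀ s, F.coeff s ∈ V) →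
      MvPolynomial.aeval (vals Y) F = 0 → MvPolynomial.aeval (vals Y') F = 0)
    {φ : Matrix (Fin n) (Fin n) ℂ} (hφ : ∀ i j, φ i j ∈ V) (l l' : Fin k) (hY : (Y l').det ≠ 0)
    (hY' : (Y' l').det ≠ 0) {J : Set (Fin n)} (hm : ∀ v ∈ cs (Y l) J, φ.mulVec v ∈ cs (Y l') J) :
    ∀ v ∈ cs (Y' l) J, φ.mulVec v ∈ cs (Y' l') J := by
  rw [maps_iff φ _ hY] at hm
  rw [maps_iff φ _ hY']
  intro j hj i hi
  have h1 := h (rel φ l l' i j) (deg_rel φ l l' i j) (coeff_rel V hφ l l' i j) (by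
    rw [aeval_rel]
    exact hm j hj i hi)
  rwa [aeval_rel] at h1

/-- **Endomorphisms and isogenies in windows.** -/
theorem iso_win {L : Type} [Field L] [NumberField L] [Algebra L ℂ] {f : Polynomial L}
    {A : Fin n → Fin n → Polynomial L} {Z W : Fin n → Fin n → L⟦X⟧} (hD : DatL f A Z W)
    {C : Matrix (Fin n) (Fin n) ℂ} (hC : C.det ≠ 0) {R : ℝ} (hR : 0 < R) {P : ℂ → Matrix (Fin n) (Fin n) ℂ}
    (hP : ∀ z, P z = C * Matrix.of fun i j => ∑' m : ℕ, algebraMap L ℂ (coeff m (Z i j)) * z ^ m)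
    (Γ : Subgroup (GL (Fin n) ℂ)) (hΓ : ∀ g ∈ Γ, Pres P R (g : Matrix (Fin n) (Fin n) ℂ)) :
    ∃ r : ℝ, 0 < r ∧ r ≤ R ∧ (∀ z : ℂ, ‖z‖ < r → (P z).det ≠ 0) ∧ ∃ G : ℕ, ∀ D : ℕ, ∃ M : ℕ, ∃ c : ℝ, 0 < c ∧
      ∀ V : Submodule ℚ ℂ, Module.Finite ℚ V → Module.finrank ℚ V ≤ D → ∀ N : ℕ, 1 ≤ N →
        ∃ S : Finset ℕ, S.card ≤ M ∧
          (∀ t : ℕ, N ≤ t → (t : ℝ) ≤ N + (N : ℝ) ^ c → t ∉ S → 1 / (t : ℝ) < r ∧
            ∀ (φ : Matrix (Fin n) (Fin n) ℂ), (∀ i j, φ i j ∈ V) → ∀ J : Set (Fin n),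
              (∀ v ∈ cs (P (1 / (t : ℂ))) J, φ.mulVec v ∈ cs (P (1 / (t : ℂ))) J) →
              ∀ g ∈ Γ, ∀ v ∈ cs ((g : Matrix (Fin n) (Fin n) ℂ) * P (1 / (t : ℂ))) J,
                φ.mulVec v ∈ cs ((g : Matrix (Fin n) (Fin n) ℂ) * P (1 / (t : ℂ))) J) ∧
          ∀ t t' : ℕ, N ≤ t → (t : ℝ) ≤ N + (N : ℝ) ^ c → t ∉ S → N ≤ t' → (t' : ℝ) ≤ N + (N : ℝ) ^ c → t' ∉ S →
            (G : ℤ) ≤ |(t : ℤ) - t'| → ∀ (φ : Matrix (Fin n) (Fin n) ℂ), (∀ i j, φ i j ∈ V) → ∀ J : Set (Fin n),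
              (∀ v ∈ cs (P (1 / (t : ℂ))) J, φ.mulVec v ∈ cs (P (1 / (t' : ℂ))) J) →
              ∀ g ∈ Γ, ∀ g' ∈ Γ, ∀ v ∈ cs ((g : Matrix (Fin n) (Fin n) ℂ) * P (1 / (t : ℂ))) J,
                φ.mulVec v ∈ cs ((g' : Matrix (Fin n) (Fin n) ℂ) * P (1 / (t' : ℂ))) J := by
  obtain ⟨r, hr, hrR, hdet, G, hwin⟩ := win_inv hD hC hR hP
  refine ⟨r, hr, hrR, hdet, G, fun D => ?_⟩
  obtain ⟨M₁, c₁, hc₁, hM₁⟩ := hwin 1 (n + 1) D
  obtain ⟨M₂, c₂, hc₂, hM₂⟩ := hwin 2 (n + 1) D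
  refine ⟨M₁ + M₂, min c₁ c₂, lt_min hc₁ hc₂, fun V hV hVD N hN => ?_⟩
  obtain ⟨S₁, hS₁, hS₁'⟩ := hM₁ V hV hVD N hN
  obtain ⟨S₂, hS₂, hS₂'⟩ := hM₂ V hV hVD N hN
  classical
  have hN1 : (1 : ℝ) ≤ N := by exact_mod_cast hN
  have hw₁ : ∀ t : ℕ, (t : ℝ) ≤ N + (N : ℝ) ^ (min c₁ c₂) → (t : ℝ) ≤ N + (N : ℝ) ^ c₁ := fun t ht =>
    ht.trans (add_le_add le_rfl (Real.rpow_le_rpow_of_exponent_le hN1 (min_le_left _ _)))
  have hw₂ : ∀ t : ℕ, (t : ℝ) ≤ N + (N : ℝ) ^ (min c₁ c₂) → (t : ℝ) ≤ N + (N : ℝ) ^ c₂ := fun t ht =>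
    ht.trans (add_le_add le_rfl (Real.rpow_le_rpow_of_exponent_le hN1 (min_le_right _ _)))
  have hpt : ∀ t : ℕ, 1 / (t : ℝ) < r → (P (1 / (t : ℂ))).det ≠ 0 := by
    intro t ht
    refine hdet _ ?_
    rwa [norm_div, norm_one, Complex.norm_natCast]
  have hgd : ∀ g : GL (Fin n) ℂ, ∀ Q : Matrix (Fin n) (Fin n) ℂ, Q.det ≠ 0 →
      ((g : Matrix (Fin n) (Fin n) ℂ) * Q).det ≠ 0 := by
    intro g Q hQ
    rw [Matrix.det_mul]
    exact mul_ne_zero ((Matrix.isUnit_iff_isUnit_det _).1 g.isUnit).ne_zero hQ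
  refine ⟨S₁ ∪ S₂, (Finset.card_union_le _ _).trans (add_le_add hS₁ hS₂), ?_, ?_⟩
  · intro t h1 h2 h3
    obtain ⟨h4, h5⟩ := hS₁' (fun _ => t) (fun i j hij => absurd (Subsingleton.elim i j) hij)
      fun _ => ⟨h1, hw₁ t h2, fun h => h3 (Finset.mem_union_left _ h)⟩
    have h4 : 1 / (t : ℝ) < r := h4 0
    refine ⟨h4, fun φ hφ J hm g hg => ?_⟩
    exact maps_inv (Y := fun _ : Fin 1 => P (1 / (t : ℂ)))
      (Y' := fun _ : Fin 1 => (g : Matrix (Fin n) (Fin n) ℂ) * P (1 / (t : ℂ)))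
      (fun F hF hFV h0 => h5 F hF hFV h0 (fun _ => (g : Matrix (Fin n) (Fin n) ℂ)) fun _ => hΓ g hg) hφ 0 0
      (hpt t h4) (hgd g _ (hpt t h4)) hm
  · intro t t' h1 h2 h3 h1' h2' h3' hG φ hφ J hm g hg g' hg'
    obtain ⟨h4, h5⟩ := hS₂' ![t, t'] (by
      intro i j hij
      fin_cases i <;> fin_cases j
      · exact absurd rfl hij
      · exact hG
      · change (G : ℤ) ≤ |(t' : ℤ) - t|
        rw [abs_sub_comm]
        exact hG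
      · exact absurd rfl hij) (by
      intro j
      fin_cases j
      · exact ⟨h1, hw₂ t h2, fun h => h3 (Finset.mem_union_right _ h)⟩
      · exact ⟨h1', hw₂ t' h2', fun h => h3' (Finset.mem_union_right _ h)⟩)
    have ht2 : 1 / (t' : ℝ) < r := h4 1
    exact maps_inv (Y := fun j : Fin 2 => P (1 / ((![t, t'] j : ℕ) : ℂ)))
      (Y' := fun j : Fin 2 => ((![g, g'] j : GL (Fin n) ℂ) : Matrix (Fin n) (Fin n) ℂ) *
        P (1 / ((![t, t'] j : ℕ) : ℂ)))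
      (fun F hF hFV h0 => h5 F hF hFV h0 (fun j => ((![g, g'] j : GL (Fin n) ℂ) : Matrix (Fin n) (Fin n) ℂ)) (by
        intro j
        fin_cases j
        · exact hΓ g hg
        · exact hΓ g' hg')) hφ 0 1 (hpt t' ht2) (hgd g' _ (hpt t' ht2)) hm

/-- the set of the integers of a set outside `S` with distances less than `G` is small -/
theorem card_close {T S : Finset ℕ} {G : ℕ} (h : ∀ t ∈ T, t ∉ S → ∀ t' ∈ T, t' ∉ S → |(t : ℤ) - t'| < G) :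
    T.card ≤ S.card + G := by
  classical
  have h1 : T ⊆ S ∪ (T \ S) := by
    intro x hx
    by_cases hS : x ∈ S
    · exact Finset.mem_union_left _ hS
    · exact Finset.mem_union_right _ (Finset.mem_sdiff.2 ⟨hx, hS⟩)
  refine (Finset.card_le_card h1).trans ((Finset.card_union_le _ _).trans (add_le_add le_rfl ?_))
  rcases (T \ S).eq_empty_or_nonempty with h2 | h2
  · rw [h2]
    simp
  · set a := (T \ S).min' h2 with ha
    have haT := Finset.mem_sdiff.1 ((T \ S).min'_mem h2)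
    have h3 : T \ S ⊆ Finset.Ico a (a + G) := by
      intro x hx
      have hxT := Finset.mem_sdiff.1 hx
      have h4 : a ≤ x := Finset.min'_le _ _ hx
      have h5 := h x hxT.1 hxT.2 _ haT.1 haT.2
      rw [Finset.mem_Ico]
      refine ⟨h4, ?_⟩
      have h6 := (abs_lt.1 h5).2
      have h7 : ((T \ S).min' h2 : ℤ) = (a : ℤ) := by rw [ha]
      omega
    refine (Finset.card_le_card h3).trans ?_
    rw [Nat.card_Ico]
    omega

end Pool.Agent.Run7.h659.HO
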