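import Mathlib

/-!
# Exact forms on abelian covers of the line: polynomial identities
-/

set_option autoImplicit false
set_option linter.unusedSectionVars false

open Polynomial

namespace Pool.Agent.Run7.h659.KA

variable {n N : ℕ}

/-- local expansion -/
theorem loc {P : ℂ[X]} (hP : P ≠ 0) (c : ℂ) : ∃ (s : ℕ) (P1 : ℂ[X]), P = (X - C c) ^ s * P1 ∧ P1.eval c ≠ 0 ∧
    (X - C c) * derivative P = (X - C c) ^ s * (C (s : ℂ) * P1 + (X - C c) * derivative P1) ∧ (P.eval c = 0 → 1 ≤ s) := by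
  obtain ⟨P1, h1, h2⟩ := exists_eq_pow_rootMultiplicity_mul_and_not_dvd P hP c
  set s := rootMultiplicity c P with hs
  have h3 : P1.eval c ≠ 0 := fun h => h2 (dvd_iff_isRoot.2 h)
  refine ⟨s, P1, h1, h3, ?_, ?_⟩
  · nth_rewrite 1 [h1]
    rw [derivative_mul, derivative_X_sub_C_pow]
    rcases Nat.eq_zero_or_pos s with h0 | h0
    · rw [h0]; simp
    · have : (X - C c) ^ s = (X - C c) ^ (s - 1) * (X - C c) := by
        rw [← pow_succ, Nat.sub_add_cancel h0]
      rw [this, map_natCast]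
      ring
  · intro h
    by_contra h0
    have h4 : s = 0 := by omega
    rw [h1, h4, pow_zero, one_mul] at h
    exact h3 h

/-- the product of all linear factors -/
noncomputable def AA (e : Fin (n + 1) → ℂ) : ℂ[X] := ∏ i, (X - C (e i))

/-- the product of all but one -/
noncomputable def Ai (e : Fin (n + 1) → ℂ) (i : Fin (n + 1)) : ℂ[X] := ∏ k ∈ Finset.univ.erase i, (X - C (e k))

theorem AA_eq (e : Fin (n + 1) → ℂ) (i : Fin (n + 1)) : AA e = (X - C (e i)) * Ai e i :=
  (Finset.mul_prod_erase _ _ (Finset.mem_univ i)).symm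

theorem Ai_ne {e : Fin (n + 1) → ℂ} (he : Function.Injective e) (i : Fin (n + 1)) : (Ai e i).eval (e i) ≠ 0 := by
  unfold Ai
  rw [eval_prod, Finset.prod_ne_zero_iff]
  intro k hk
  rw [eval_sub, eval_X, eval_C, sub_ne_zero]
  exact fun h => (Finset.ne_of_mem_erase hk) (he h).symm

theorem Ai_zero (e : Fin (n + 1) → ℂ) {i k : Fin (n + 1)} (h : i ≠ k) : (Ai e k).eval (e i) = 0 := by
  unfold Ai
  rw [eval_prod]
  exact Finset.prod_eq_zero (Finset.mem_erase.2 ⟨h, Finset.mem_univ i⟩) (by simp)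

/-- a combination -/
noncomputable def SS (e : Fin (n + 1) → ℂ) (c : Fin (n + 1) → ℂ) : ℂ[X] := ∑ i, C (c i) * Ai e i

theorem SS_eval (e : Fin (n + 1) → ℂ) (c : Fin (n + 1) → ℂ) (i : Fin (n + 1)) :
    (SS e c).eval (e i) = c i * (Ai e i).eval (e i) := by
  unfold SS
  rw [eval_finsetSum, Finset.sum_eq_single i]
  · rw [eval_mul, eval_C]
  · intro k _ hk
    rw [eval_mul, Ai_zero e (Ne.symm hk), mul_zero]
  · intro h; exact absurd (Finset.mem_univ _) h

/-- **Logarithmic derivatives of rational functions.** -/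
theorem dlog {e : Fin (n + 1) → ℂ} (he : Function.Injective e) (hN : 0 < N) {P Q : ℂ[X]} (hP : P ≠ 0) (hQ : Q ≠ 0)
    {b b' : Fin (n + 1) → Fin N}
    (h : C (N : ℂ) * ((derivative P * Q - P * derivative Q) * AA e) =
      P * Q * SS e (fun i => ((b i : ℕ) : ℂ) - ((b' i : ℕ) : ℂ))) : b = b' := by
  funext i
  obtain ⟨s, P1, hP1, hP1c, hPd, -⟩ := loc hP (e i)
  obtain ⟨t, Q1, hQ1, hQ1c, hQd, -⟩ := loc hQ (e i)
  have hX : (X - C (e i) : ℂ[X]) ≠ 0 := X_sub_C_ne_zero _
  have h1 : (X - C (e i)) ^ (s + t) * (C (N : ℂ) * (((C (s : ℂ) * P1 + (X - C (e i)) * derivative P1) * Q1 -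
      P1 * (C (t : ℂ) * Q1 + (X - C (e i)) * derivative Q1)) * Ai e i)) =
      (X - C (e i)) ^ (s + t) * (P1 * Q1 * SS e (fun i => ((b i : ℕ) : ℂ) - ((b' i : ℕ) : ℂ))) := by
    have e1 : C (N : ℂ) * ((derivative P * Q - P * derivative Q) * AA e) =
        C (N : ℂ) * ((((X - C (e i)) * derivative P) * Q - P * ((X - C (e i)) * derivative Q)) * Ai e i) := by
      rw [AA_eq e i]; ring
    have e2 : C (N : ℂ) * ((((X - C (e i)) * derivative P) * Q - P * ((X - C (e i)) * derivative Q)) * Ai e i) =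
        (X - C (e i)) ^ (s + t) * (C (N : ℂ) * (((C (s : ℂ) * P1 + (X - C (e i)) * derivative P1) * Q1 -
      P1 * (C (t : ℂ) * Q1 + (X - C (e i)) * derivative Q1)) * Ai e i)) := by
      rw [hPd, hQd]
      nth_rewrite 1 [hQ1]
      nth_rewrite 1 [hP1]
      ring
    rw [← e2, ← e1, h]
    nth_rewrite 1 [hP1]
    nth_rewrite 1 [hQ1]
    ring
  have h2 := mul_left_cancel₀ (pow_ne_zero _ hX) h1
  have h3 := congrArg (fun p => eval (e i) p) h2
  simp only [eval_mul, eval_sub, eval_add, eval_X, eval_C, sub_self, zero_mul, add_zero, SS_eval] at h3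
  have h4 := Ai_ne he i
  have h5 : (N : ℂ) * ((s : ℂ) - t) = ((b i : ℕ) : ℂ) - ((b' i : ℕ) : ℂ) := by
    have h6 : P1.eval (e i) * Q1.eval (e i) * (Ai e i).eval (e i) ≠ 0 := mul_ne_zero (mul_ne_zero hP1c hQ1c) h4
    apply mul_left_cancel₀ h6
    linear_combination h3
  have h6 : (N : ℤ) * ((s : ℤ) - t) = ((b i : ℕ) : ℤ) - ((b' i : ℕ) : ℤ) := by exact_mod_cast h5
  have hb := (b i).2
  have hb' := (b' i).2
  have h7 : (s : ℤ) - t = 0 := by
    by_contra h8
    rcases lt_or_gt_of_ne h8 with h9 | h9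
    · have : (s : ℤ) - t ≤ -1 := by omega
      nlinarith
    · have : 1 ≤ (s : ℤ) - t := by omega
      nlinarith
  rw [h7, mul_zero] at h6
  exact Fin.ext (by omega)

/-- the product of the factors with `b i ≠ 0` -/
noncomputable def MM (e : Fin (n + 1) → ℂ) (b : Fin (n + 1) → Fin N) : ℂ[X] :=
  ∏ i, if (b i : ℕ) = 0 then 1 else X - C (e i)

/-- the product of the factors with `b i = 0` -/
noncomputable def RR (e : Fin (n + 1) → ℂ) (b : Fin (n + 1) → Fin N) : ℂ[X] :=
  ∏ i, if (b i : ℕ) = 0 then X - C (e i) else 1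

theorem RR_mul_MM (e : Fin (n + 1) → ℂ) (b : Fin (n + 1) → Fin N) : RR e b * MM e b = AA e := by
  unfold RR MM AA
  rw [← Finset.prod_mul_distrib]
  refine Finset.prod_congr rfl fun i _ => ?_
  split_ifs <;> simp

theorem RR_ne (e : Fin (n + 1) → ℂ) (b : Fin (n + 1) → Fin N) : RR e b ≠ 0 := by
  unfold RR
  rw [Finset.prod_ne_zero_iff]
  intro i _
  split_ifs
  · exact X_sub_C_ne_zero _
  · exact one_ne_zero

theorem MM_ne (e : Fin (n + 1) → ℂ) (b : Fin (n + 1) → Fin N) : MM e b ≠ 0 := by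
  unfold MM
  rw [Finset.prod_ne_zero_iff]
  intro i _
  split_ifs
  · exact one_ne_zero
  · exact X_sub_C_ne_zero _

theorem MM_deg (e : Fin (n + 1) → ℂ) (b : Fin (n + 1) → Fin N) :
    (MM e b).natDegree ≤ (Finset.univ.filter fun i => (b i : ℕ) ≠ 0).card := by
  unfold MM
  refine (natDegree_prod_le _ _).trans ?_
  rw [Finset.card_filter]
  refine Finset.sum_le_sum fun i _ => ?_
  by_cases h : (b i : ℕ) = 0
  · simp [h]
  · simp [h]

theorem AA_natDegree (e : Fin (n + 1) → ℂ) : (AA e).natDegree = n + 1 := by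
  unfold AA
  rw [natDegree_prod_of_monic _ _ fun i _ => monic_X_sub_C _]
  simp

theorem AA_monic (e : Fin (n + 1) → ℂ) : (AA e).Monic := monic_prod_of_monic _ _ fun i _ => monic_X_sub_C _

theorem Ai_monic (e : Fin (n + 1) → ℂ) (i : Fin (n + 1)) : (Ai e i).Monic :=
  monic_prod_of_monic _ _ fun i _ => monic_X_sub_C _

theorem Ai_natDegree (e : Fin (n + 1) → ℂ) (i : Fin (n + 1)) : (Ai e i).natDegree = n := by
  unfold Ai
  rw [natDegree_prod_of_monic _ _ fun i _ => monic_X_sub_C _]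
  simp

theorem SS_coeff (e : Fin (n + 1) → ℂ) (c : Fin (n + 1) → ℂ) : (SS e c).coeff n = ∑ i, c i := by
  unfold SS
  rw [finset_sum_coeff]
  refine Finset.sum_congr rfl fun i _ => ?_
  have h := (Ai_monic e i).coeff_natDegree
  rw [Ai_natDegree] at h
  rw [coeff_C_mul, h, mul_one]

theorem SS_deg (e : Fin (n + 1) → ℂ) (c : Fin (n + 1) → ℂ) : (SS e c).natDegree ≤ n := by
  unfold SS
  refine natDegree_sum_le_of_forall_le _ _ fun i _ => ?_
  refine (natDegree_C_mul_le _ _).trans ?_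
  rw [Ai_natDegree]

/-- the coefficient of highest degree -/
theorem top_coeff (e c : Fin (n + 1) → ℂ) (P : ℂ[X]) :
    (derivative P * AA e - P * SS e c).coeff (P.natDegree + n) =
      ((P.natDegree : ℂ) - ∑ i, c i) * P.leadingCoeff := by
  have h2 : (P * SS e c).coeff (P.natDegree + n) = P.leadingCoeff * ∑ i, c i := by
    rw [coeff_mul_add_eq_of_natDegree_le le_rfl (SS_deg e c), SS_coeff]
    rfl
  have h1 : (derivative P * AA e).coeff (P.natDegree + n) = P.natDegree * P.leadingCoeff := by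
    rcases Nat.eq_zero_or_pos P.natDegree with h0 | h0
    · rw [natDegree_eq_zero.1 h0 |>.choose_spec.symm]
      simp
    · have h3 : (derivative P).natDegree ≤ P.natDegree - 1 := natDegree_derivative_le P
      have h4 : P.natDegree + n = (P.natDegree - 1) + (n + 1) := by omega
      rw [h4, coeff_mul_add_eq_of_natDegree_le h3 (AA_natDegree e).le]
      have h5 := (AA_monic e).coeff_natDegree
      rw [AA_natDegree] at h5
      rw [h5, mul_one, coeff_derivative, Nat.sub_add_cancel h0]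
      have h6 : ((P.natDegree - 1 : ℕ) : ℂ) + 1 = (P.natDegree : ℂ) := by
        rw [← Nat.cast_succ, Nat.succ_eq_add_one, Nat.sub_add_cancel h0]
      rw [h6, mul_comm]
      rfl
  rw [coeff_sub, h1, h2]
  ring

end Pool.Agent.Run7.h659.KA
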