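import Pool.Agent.Run7.h659.KA1

/-!
# Exact forms on abelian covers of the line: no exact forms of small degree
-/

set_option autoImplicit false
set_option linter.unusedSectionVars false

open Polynomial

namespace Pool.Agent.Run7.h659.KA

variable {n N : ℕ}

/-- the exponents as complex numbers -/
noncomputable def bN (b : Fin (n + 1) → Fin N) (i : Fin (n + 1)) : ℂ := ((b i : ℕ) : ℂ) / N

theorem MM_zero (e : Fin (n + 1) → ℂ) {b : Fin (n + 1) → Fin N} {i : Fin (n + 1)} (h : (b i : ℕ) ≠ 0) :
    (MM e b).eval (e i) = 0 := by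
  unfold MM
  rw [eval_prod]
  refine Finset.prod_eq_zero (Finset.mem_univ i) ?_
  rw [if_neg h]
  simp

/-- the denominator has no zeros -/
theorem no_root {e : Fin (n + 1) → ℂ} (he : Function.Injective e) (hN : 0 < N) (b : Fin (n + 1) → Fin N)
    {P Q q : ℂ[X]} (hQ : Q ≠ 0) (hPQ : IsCoprime P Q)
    (h : (derivative P * Q - P * derivative Q) * AA e - P * Q * SS e (bN b) = q * MM e b * Q ^ 2) (c : ℂ) :
    Q.eval c ≠ 0 := by
  intro hc
  have hPc : P.eval c ≠ 0 := by
    intro h0
    obtain ⟨u, v, huv⟩ := hPQ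
    have h1 := congrArg (fun p => eval c p) huv
    simp only [eval_add, eval_mul, h0, hc, mul_zero, add_zero, eval_one] at h1
    exact zero_ne_one h1
  obtain ⟨t, Q1, hQ1, hQ1c, hQd, ht⟩ := loc hQ c
  have ht1 := ht hc
  have hX : (X - C c : ℂ[X]) ≠ 0 := X_sub_C_ne_zero _
  have hN0 : (N : ℂ) ≠ 0 := by exact_mod_cast hN.ne'
  by_cases hcS : ∃ i, e i = c
  · obtain ⟨i, rfl⟩ := hcS
    have h1 : (X - C (e i)) ^ t * (derivative P * Q1 * ((X - C (e i)) * Ai e i) -
        P * (C (t : ℂ) * Q1 + (X - C (e i)) * derivative Q1) * Ai e i - P * Q1 * SS e (bN b)) =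
        (X - C (e i)) ^ t * ((X - C (e i)) ^ t * (q * MM e b * Q1 ^ 2)) := by
      have e1 : (derivative P * Q - P * derivative Q) * AA e - P * Q * SS e (bN b) =
          derivative P * Q * ((X - C (e i)) * Ai e i) - P * ((X - C (e i)) * derivative Q) * Ai e i -
            P * Q * SS e (bN b) := by
        rw [AA_eq e i]; ring
      rw [e1, hQd] at h
      have e2 : q * MM e b * Q ^ 2 = (X - C (e i)) ^ t * ((X - C (e i)) ^ t * (q * MM e b * Q1 ^ 2)) := by
        rw [hQ1]; ring
      rw [← e2, ← h]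
      rw [hQ1]
      ring
    have h2 := mul_left_cancel₀ (pow_ne_zero _ hX) h1
    have h3 := congrArg (fun p => eval (e i) p) h2
    have ht0 : t ≠ 0 := by omega
    simp only [eval_mul, eval_sub, eval_add, eval_X, eval_C, sub_self, zero_mul, add_zero, SS_eval, mul_zero,
      eval_pow, zero_pow ht0, zero_sub] at h3
    have h4 := Ai_ne he i
    have h5 : P.eval (e i) * Q1.eval (e i) * (Ai e i).eval (e i) ≠ 0 := mul_ne_zero (mul_ne_zero hPc hQ1c) h4
    have h6 : (t : ℂ) + bN b i = 0 := by
      apply mul_left_cancel₀ h5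
      linear_combination -h3
    unfold bN at h6
    have h7 : (t : ℂ) * N + ((b i : ℕ) : ℂ) = 0 := by
      field_simp at h6
      linear_combination h6
    have h8 : t * N + (b i : ℕ) = 0 := by exact_mod_cast h7
    have h9 : 0 < t * N := Nat.mul_pos (by omega) hN
    omega
  · have h1 : (X - C c) ^ t * ((X - C c) * derivative P * Q1 * AA e -
        P * (C (t : ℂ) * Q1 + (X - C c) * derivative Q1) * AA e - (X - C c) * P * Q1 * SS e (bN b)) =
        (X - C c) ^ t * ((X - C c) ^ t * (X - C c) * (q * MM e b * Q1 ^ 2)) := by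
      have e1 : (X - C c) * ((derivative P * Q - P * derivative Q) * AA e - P * Q * SS e (bN b)) =
          (X - C c) * derivative P * Q * AA e - P * ((X - C c) * derivative Q) * AA e -
            (X - C c) * P * Q * SS e (bN b) := by
        ring
      rw [h, hQd] at e1
      have e2 : (X - C c) * (q * MM e b * Q ^ 2) =
          (X - C c) ^ t * ((X - C c) ^ t * (X - C c) * (q * MM e b * Q1 ^ 2)) := by
        rw [hQ1]; ring
      rw [← e2, e1]
      rw [hQ1]
      ring
    have h2 := mul_left_cancel₀ (pow_ne_zero _ hX) h1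
    have h3 := congrArg (fun p => eval c p) h2
    simp only [eval_mul, eval_sub, eval_add, eval_X, eval_C, sub_self, zero_mul, add_zero, mul_zero,
      eval_pow, zero_sub, sub_zero] at h3
    have hA : (AA e).eval c ≠ 0 := by
      unfold AA
      rw [eval_prod, Finset.prod_ne_zero_iff]
      intro i _
      rw [eval_sub, eval_X, eval_C, sub_ne_zero]
      exact fun h => hcS ⟨i, h.symm⟩
    have h5 : P.eval c * Q1.eval c * (AA e).eval c ≠ 0 := mul_ne_zero (mul_ne_zero hPc hQ1c) hA
    have h6 : (t : ℂ) = 0 := by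
      apply mul_left_cancel₀ h5
      linear_combination -h3
    have h7 : t = 0 := by exact_mod_cast h6
    omega

/-- **No exact forms.** -/
theorem exact {e : Fin (n + 1) → ℂ} (he : Function.Injective e) (hN : 0 < N) (b : Fin (n + 1) → Fin N)
    {P Q q : ℂ[X]} (hQ : Q ≠ 0) (hPQ : IsCoprime P Q)
    (h : (derivative P * Q - P * derivative Q) * AA e - P * Q * SS e (bN b) = q * MM e b * Q ^ 2)
    (hq : q.degree < ((n + 1 : ℕ) : WithBot ℕ)) (hq' : (∃ i, (b i : ℕ) ≠ 0) → q.degree < ((n : ℕ) : WithBot ℕ)) :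
    q = 0 := by
  classical
  have hN0 : (N : ℂ) ≠ 0 := by exact_mod_cast hN.ne'
  -- the denominator is constant
  have hdeg : Q.degree = 0 := by
    by_contra h0
    obtain ⟨c, hc⟩ := IsAlgClosed.exists_root Q h0
    exact no_root he hN b hQ hPQ h c hc
  obtain ⟨a, ha⟩ : ∃ a, Q = C a := ⟨_, eq_C_of_degree_eq_zero hdeg⟩
  have ha0 : a ≠ 0 := by
    rintro rfl
    apply hQ
    rw [ha, C_0]
  have hCa : (C a : ℂ[X]) ≠ 0 := by rwa [Ne, C_eq_zero]
  have h1 : derivative P * AA e - P * SS e (bN b) = C a * q * MM e b := by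
    apply mul_left_cancel₀ hCa
    rw [ha, derivative_C] at h
    linear_combination h
  by_contra hq0
  have hP0 : P ≠ 0 := by
    rintro rfl
    rw [derivative_zero, zero_mul, zero_mul, sub_zero] at h1
    have : C a * q * MM e b ≠ 0 := mul_ne_zero (mul_ne_zero hCa hq0) (MM_ne e b)
    exact this h1.symm
  -- the zeros of `P`
  have hz : ∀ i, (b i : ℕ) ≠ 0 → P.eval (e i) = 0 := by
    intro i hi
    have h2 := congrArg (fun p => eval (e i) p) h1
    simp only [eval_mul, eval_sub, SS_eval, MM_zero e hi, mul_zero, AA_eq e i, eval_X, eval_C, sub_self, zero_mul,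
      zero_sub] at h2
    have h3 := Ai_ne he i
    have h4 : bN b i ≠ 0 := by
      unfold bN
      refine div_ne_zero ?_ hN0
      exact_mod_cast hi
    have h5 : P.eval (e i) * (bN b i * (Ai e i).eval (e i)) = 0 := by linear_combination -h2
    exact (mul_eq_zero.1 h5).resolve_right (mul_ne_zero h4 h3)
  set S := Finset.univ.filter fun i => (b i : ℕ) ≠ 0 with hS
  have hcard : S.card ≤ P.natDegree := by
    by_contra hlt
    rw [not_le] at hlt
    apply hP0
    refine eq_zero_of_natDegree_lt_card_of_eval_eq_zero' P (S.image e) (fun c hc => ?_) ?_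
    · obtain ⟨i, hi, rfl⟩ := Finset.mem_image.1 hc
      exact hz i (Finset.mem_filter.1 hi).2
    · rw [Finset.card_image_of_injective _ he]
      exact hlt
  have htop := top_coeff e (bN b) P
  have hsum : ∑ i, bN b i = ((∑ i ∈ S, (b i : ℕ) : ℕ) : ℂ) / N := by
    unfold bN
    rw [← Finset.sum_div]
    congr 1
    rw [hS, Finset.sum_filter]
    push_cast
    refine Finset.sum_congr rfl fun i _ => ?_
    by_cases hi : (b i : ℕ) = 0
    · simp [hi]
    · simp [hi]
  have hle : ∑ i ∈ S, (b i : ℕ) ≤ S.card * (N - 1) := by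
    rw [← smul_eq_mul, ← Finset.sum_const]
    refine Finset.sum_le_sum fun i _ => ?_
    have := (b i).2
    omega
  have hdegR : (C a * q * MM e b).natDegree ≤ q.natDegree + S.card := by
    refine (natDegree_mul_le).trans (add_le_add ?_ (MM_deg e b))
    exact natDegree_C_mul_le _ _
  have hqn : q.natDegree < n + 1 := (natDegree_lt_iff_degree_lt hq0).2 hq
  by_cases hb : ∃ i, (b i : ℕ) ≠ 0
  · have hqn' : q.natDegree < n := (natDegree_lt_iff_degree_lt hq0).2 (hq' hb)
    have hS1 : 1 ≤ S.card := by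
      obtain ⟨i, hi⟩ := hb
      exact Finset.card_pos.2 ⟨i, Finset.mem_filter.2 ⟨Finset.mem_univ i, hi⟩⟩
    have hcoef : ((P.natDegree : ℂ) - ∑ i, bN b i) * P.leadingCoeff = 0 := by
      rw [← htop, h1]
      exact coeff_eq_zero_of_natDegree_lt (by omega)
    have h5 := (mul_eq_zero.1 hcoef).resolve_right (leadingCoeff_ne_zero.2 hP0)
    rw [hsum] at h5
    have h6 : (P.natDegree : ℂ) * N = ((∑ i ∈ S, (b i : ℕ) : ℕ) : ℂ) := by
      field_simp at h5
      linear_combination h5
    have h7 : P.natDegree * N = ∑ i ∈ S, (b i : ℕ) := by exact_mod_cast h6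
    have h8 : S.card * N ≤ P.natDegree * N := Nat.mul_le_mul_right _ hcard
    have h9 : S.card * (N - 1) < S.card * N := Nat.mul_lt_mul_of_pos_left (by omega) (by omega)
    omega
  · push Not at hb
    have hS0 : S = ∅ := by
      rw [hS, Finset.filter_eq_empty_iff]
      intro i _ h
      exact h (hb i)
    rw [hS0, Finset.sum_empty, Nat.cast_zero, zero_div] at hsum
    rw [hS0, Finset.card_empty, add_zero] at hdegR
    rcases Nat.eq_zero_or_pos P.natDegree with h0 | h0
    · obtain ⟨a', ha'⟩ := natDegree_eq_zero.1 h0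
      have hSS : SS e (bN b) = 0 := by
        unfold SS bN
        refine Finset.sum_eq_zero fun i _ => ?_
        rw [hb i]
        simp
      rw [← ha', derivative_C, hSS, zero_mul, mul_zero, sub_zero] at h1
      exact (mul_ne_zero (mul_ne_zero hCa hq0) (MM_ne e b)) h1.symm
    · have hcoef : ((P.natDegree : ℂ) - ∑ i, bN b i) * P.leadingCoeff = 0 := by
        rw [← htop, h1]
        exact coeff_eq_zero_of_natDegree_lt (by omega)
      rw [hsum, sub_zero] at hcoef
      have h5 := (mul_eq_zero.1 hcoef).resolve_right (leadingCoeff_ne_zero.2 hP0)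
      have h6 : P.natDegree = 0 := by exact_mod_cast h5
      omega

end Pool.Agent.Run7.h659.KA
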