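import Pool.Agent.Run7.h659.KA2
import Pool.Agent.X255.RH.Prim

/-!
# The differential field of the functions on abelian covers of the line
-/

set_option autoImplicit false
set_option linter.unusedSectionVars false

open Polynomial

namespace Pool.Agent.Run7.h659.KA

variable {E : Type} [Field E] [CharZero E] [Algebra ℂ E] [Algebra ℂ[X] E] [IsScalarTower ℂ ℂ[X] E] [FaithfulSMul ℂ[X] E]

/-- the embedding of the polynomials -/
noncomputable abbrev al (E : Type) [Field E] [Algebra ℂ[X] E] : ℂ[X] →+* E := algebraMap ℂ[X] E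

theorem al_ne {P : ℂ[X]} (hP : P ≠ 0) : al E P ≠ 0 := by
  intro h
  exact hP (FaithfulSMul.algebraMap_injective ℂ[X] E (by rw [map_zero]; exact h))

theorem al_inj {P Q : ℂ[X]} (h : al E P = al E Q) : P = Q := FaithfulSMul.algebraMap_injective ℂ[X] E h

variable (E) in
/-- the rational functions -/
def K0 : IntermediateField ℂ E where
  carrier := {x | ∃ P Q : ℂ[X], Q ≠ 0 ∧ x * al E Q = al E P}
  mul_mem' := by
    rintro x y ⟨P, Q, hQ, h⟩ ⟨P', Q', hQ', h'⟩
    exact ⟨P * P', Q * Q', mul_ne_zero hQ hQ', by rw [map_mul, map_mul, ← h, ← h']; ring⟩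
  add_mem' := by
    rintro x y ⟨P, Q, hQ, h⟩ ⟨P', Q', hQ', h'⟩
    exact ⟨P * Q' + P' * Q, Q * Q', mul_ne_zero hQ hQ', by
      rw [map_mul, map_add, map_mul, map_mul, ← h, ← h']; ring⟩
  algebraMap_mem' := fun c => ⟨C c, 1, one_ne_zero, by
    rw [map_one, mul_one]
    exact IsScalarTower.algebraMap_apply ℂ ℂ[X] E c⟩
  inv_mem' := by
    rintro x ⟨P, Q, hQ, h⟩
    by_cases hx : x = 0
    · exact ⟨0, 1, one_ne_zero, by simp [hx]⟩
    · refine ⟨Q, P, ?_, ?_⟩
      · rintro rfl
        rw [map_zero] at h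
        exact (mul_ne_zero hx (al_ne hQ)) h
      · rw [← h, inv_mul_cancel_left₀ hx]

theorem mem_K0 {x : E} : x ∈ K0 E ↔ ∃ P Q : ℂ[X], Q ≠ 0 ∧ x * al E Q = al E P := Iff.rfl

theorem al_mem (P : ℂ[X]) : al E P ∈ K0 E := ⟨P, 1, one_ne_zero, by simp⟩

/-- common factors of polynomials -/
theorem poly_coprime (P Q : ℂ[X]) (hQ : Q ≠ 0) : ∃ g P' Q' : ℂ[X], g ≠ 0 ∧ P = g * P' ∧ Q = g * Q' ∧ IsCoprime P' Q' := by
  obtain ⟨g, hg⟩ : ∃ g, g = EuclideanDomain.gcd P Q := ⟨_, rfl⟩
  have h1 := EuclideanDomain.gcd_dvd_left P Q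
  have h2 := EuclideanDomain.gcd_dvd_right P Q
  have h3 := EuclideanDomain.gcd_eq_gcd_ab P Q
  rw [← hg] at h1 h2 h3
  obtain ⟨P', hP'⟩ := h1
  obtain ⟨Q', hQ'⟩ := h2
  have hg0 : g ≠ 0 := by
    rintro rfl
    rw [zero_mul] at hQ'
    exact hQ hQ'
  refine ⟨g, P', Q', hg0, hP', hQ', ?_⟩
  generalize EuclideanDomain.gcdA P Q = A at h3
  generalize EuclideanDomain.gcdB P Q = B at h3
  refine ⟨A, B, ?_⟩
  apply mul_left_cancel₀ hg0
  rw [mul_one]
  have h4 : g = g * P' * A + g * Q' * B := by rw [← hP', ← hQ']; exact h3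
  linear_combination -h4

/-- reduced fractions -/
theorem K0_coprime {x : E} (hx : x ∈ K0 E) : ∃ P Q : ℂ[X], Q ≠ 0 ∧ IsCoprime P Q ∧ x * al E Q = al E P := by
  obtain ⟨P, Q, hQ, h⟩ := hx
  obtain ⟨g, P', Q', hg, hP, hQ', hc⟩ := poly_coprime P Q hQ
  refine ⟨P', Q', ?_, hc, ?_⟩
  · rintro rfl
    rw [mul_zero] at hQ'
    exact hQ hQ'
  · apply mul_left_cancel₀ (al_ne (E := E) hg)
    rw [hP, hQ', map_mul, map_mul] at h
    linear_combination h

variable (D : Derivation ℂ E E) (hX : D (algebraMap ℂ[X] E X) = 1)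

include hX in
/-- the derivative of a fraction -/
theorem D_frac {x : E} {P Q : ℂ[X]} (h : x * al E Q = al E P) :
    D x * al E (Q ^ 2) = al E (derivative P * Q - P * derivative Q) := by
  have h1 := congrArg D h
  rw [Derivation.leibniz, Pool.Agent.X255.RH.D_algebraMap D hX, Pool.Agent.X255.RH.D_algebraMap D hX, smul_eq_mul,
    smul_eq_mul] at h1
  rw [map_sub, map_mul, map_mul, map_pow, ← h1, ← h]
  ring

include hX in
theorem D_mem_K0 {x : E} (hx : x ∈ K0 E) : D x ∈ K0 E := by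
  obtain ⟨P, Q, hQ, h⟩ := hx
  exact ⟨_, Q ^ 2, pow_ne_zero 2 hQ, D_frac D hX h⟩

include hX in
/-- **Independence of solutions of equations of the first order.** -/
theorem art {β : Type} (v lam : β → E) (hv : ∀ b, v b ≠ 0) (hl : ∀ b, lam b ∈ K0 E) (hD : ∀ b, D (v b) = lam b * v b)
    (hne : ∀ b b', b ≠ b' → ∀ h ∈ K0 E, h ≠ 0 → D h ≠ h * (lam b - lam b')) (s : Finset β) :
    ∀ h : β → E, (∀ b, h b ∈ K0 E) → ∑ b ∈ s, h b * v b = 0 → ∀ b ∈ s, h b = 0 := by
  classical
  induction s using Finset.induction_on with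
  | empty => intro h _ _ b hb; exact absurd hb (Finset.notMem_empty b)
  | insert b0 s hb0 ih =>
    intro h hK hsum
    rw [Finset.sum_insert hb0] at hsum
    by_cases h0 : h b0 = 0
    · rw [h0, zero_mul, zero_add] at hsum
      intro b hb
      rcases Finset.mem_insert.1 hb with rfl | hb
      · exact h0
      · exact ih h hK hsum b hb
    · exfalso
      -- normalise
      have hsum' : v b0 + ∑ b ∈ s, (h b / h b0) * v b = 0 := by
        have : (h b0)⁻¹ * (h b0 * v b0 + ∑ b ∈ s, h b * v b) = v b0 + ∑ b ∈ s, (h b / h b0) * v b := by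
          rw [mul_add, inv_mul_cancel_left₀ h0, Finset.mul_sum]
          congr 1
          refine Finset.sum_congr rfl fun b _ => ?_
          rw [div_eq_mul_inv]; ring
        rw [← this, hsum, mul_zero]
      have h1 := congrArg D hsum'
      rw [map_add, map_sum, map_zero, hD] at h1
      have h2 : ∀ b, D ((h b / h b0) * v b) = (D (h b / h b0) + (h b / h b0) * lam b) * v b := by
        intro b
        rw [Derivation.leibniz, hD, smul_eq_mul, smul_eq_mul]
        ring
      simp only [h2] at h1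
      have h3 : ∑ b ∈ s, (D (h b / h b0) + (h b / h b0) * lam b - lam b0 * (h b / h b0)) * v b = 0 := by
        have e1 : ∑ b ∈ s, (D (h b / h b0) + (h b / h b0) * lam b - lam b0 * (h b / h b0)) * v b =
            ∑ b ∈ s, (D (h b / h b0) + (h b / h b0) * lam b) * v b - lam b0 * ∑ b ∈ s, (h b / h b0) * v b := by
          rw [Finset.mul_sum, ← Finset.sum_sub_distrib]
          refine Finset.sum_congr rfl fun b _ => by ring
        rw [e1]
        linear_combination h1 - lam b0 * hsum'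
      have hK' : ∀ b, h b / h b0 ∈ K0 E := fun b => div_mem (hK b) (hK b0)
      have h4 := ih (fun b => D (h b / h b0) + (h b / h b0) * lam b - lam b0 * (h b / h b0))
        (fun b => sub_mem (add_mem (D_mem_K0 D hX (hK' b)) (mul_mem (hK' b) (hl b))) (mul_mem (hl b0) (hK' b))) h3
      have h5 : ∀ b ∈ s, h b / h b0 = 0 := by
        intro b hb
        by_contra hne0
        have h6 := h4 b hb
        refine hne b0 b (fun hh => hb0 (hh ▸ hb)) _ (hK' b) hne0 ?_
        linear_combination h6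
      have h6 : ∑ b ∈ s, (h b / h b0) * v b = 0 := Finset.sum_eq_zero fun b hb => by rw [h5 b hb, zero_mul]
      rw [h6, add_zero] at hsum'
      exact hv b0 hsum'

/-! ## the roots -/

variable {n N : ℕ} (e : Fin (n + 1) → ℂ) (u : Fin (n + 1) → E)

/-- the monomials -/
noncomputable def vv (u : Fin (n + 1) → E) (b : Fin (n + 1) → Fin N) : E := ∏ i, u i ^ (b i : ℕ)

/-- the logarithmic derivatives -/
noncomputable def ll (E : Type) [Field E] [Algebra ℂ[X] E] (e : Fin (n + 1) → ℂ) (b : Fin (n + 1) → Fin N) : E :=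
  -(al E (SS e (bN b)) / al E (AA e))

theorem ll_mem (b : Fin (n + 1) → Fin N) : ll E e b ∈ K0 E := neg_mem (div_mem (al_mem _) (al_mem _))

variable (hN : 0 < N) (hu : ∀ i, u i ^ N * al E (X - C (e i)) = 1)

include hN hu in
theorem u_ne (i : Fin (n + 1)) : u i ≠ 0 := by
  intro h
  have h1 := hu i
  rw [h, zero_pow hN.ne', zero_mul] at h1
  exact zero_ne_one h1

include hN hu in
theorem vv_ne (b : Fin (n + 1) → Fin N) : vv u b ≠ 0 :=
  Finset.prod_ne_zero_iff.2 fun i _ => pow_ne_zero _ (u_ne e u hN hu i)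

include hX hN hu in
theorem D_u (i : Fin (n + 1)) : D (u i) = u i * -((N : E) * al E (X - C (e i)))⁻¹ := by
  have hu0 := u_ne e u hN hu i
  have hN0 : (N : E) ≠ 0 := by exact_mod_cast hN.ne'
  have hx0 : al E (X - C (e i)) ≠ 0 := al_ne (X_sub_C_ne_zero _)
  have h1 := congrArg D (hu i)
  rw [Derivation.leibniz, Derivation.leibniz_pow, Pool.Agent.X255.RH.D_algebraMap D hX, Derivation.map_one_eq_zero] at h1
  simp only [derivative_sub, derivative_X, derivative_C, sub_zero, map_one, smul_eq_mul, nsmul_eq_mul, mul_one] at h1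
  have h2 : u i ^ N = u i ^ (N - 1) * u i := by rw [← pow_succ, Nat.sub_add_cancel hN]
  have h3 : u i ^ (N - 1) ≠ 0 := pow_ne_zero _ hu0
  rw [h2] at h1
  have h4 : u i ^ (N - 1) * (u i + al E (X - C (e i)) * ((N : E) * D (u i))) = 0 := by linear_combination h1
  have h5 := (mul_eq_zero.1 h4).resolve_left h3
  field_simp
  linear_combination h5

include hX hN hu in
theorem D_vv (b : Fin (n + 1) → Fin N) : D (vv u b) = ll E e b * vv u b := by
  have hN0 : (N : E) ≠ 0 := by exact_mod_cast hN.ne'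
  have hpow : ∀ i (m : ℕ), D (u i ^ m) = u i ^ m * (m * -((N : E) * al E (X - C (e i)))⁻¹) := by
    intro i m
    induction m with
    | zero => simp
    | succ m ih =>
      rw [pow_succ, Derivation.leibniz, ih, D_u D hX e u hN hu i, smul_eq_mul, smul_eq_mul]
      push_cast
      ring
  have h1 : ∀ s : Finset (Fin (n + 1)), D (∏ i ∈ s, u i ^ (b i : ℕ)) =
      (∑ i ∈ s, ((b i : ℕ) : E) * -((N : E) * al E (X - C (e i)))⁻¹) * ∏ i ∈ s, u i ^ (b i : ℕ) := by
    intro s
    induction s using Finset.induction_on with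
    | empty => simp
    | insert i s hi ih =>
      rw [Finset.prod_insert hi, Finset.sum_insert hi, Derivation.leibniz, ih, hpow, smul_eq_mul, smul_eq_mul]
      ring
  unfold vv
  rw [h1]
  congr 1
  unfold ll SS
  rw [map_sum, Finset.sum_div, ← Finset.sum_neg_distrib]
  refine Finset.sum_congr rfl fun i _ => ?_
  have h2 : al E (AA e) = al E (X - C (e i)) * al E (Ai e i) := by rw [← map_mul, ← AA_eq]
  have h3 : al E (Ai e i) ≠ 0 := al_ne (Ai_monic e i).ne_zero
  have h4 : al E (X - C (e i)) ≠ 0 := al_ne (X_sub_C_ne_zero _)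
  have h5 : al E (C (bN b i)) = ((b i : ℕ) : E) / (N : E) := by
    have e1 : al E (C (bN b i)) = algebraMap ℂ E (bN b i) := (IsScalarTower.algebraMap_apply ℂ ℂ[X] E _).symm
    rw [e1]
    unfold bN
    rw [map_div₀, map_natCast, map_natCast]
  rw [h2, map_mul, h5]
  field_simp

include hX hN in
theorem ll_ne (he : Function.Injective e) (b b' : Fin (n + 1) → Fin N) (hb : b ≠ b') (h : E) (hh : h ∈ K0 E)
    (h0 : h ≠ 0) : D h ≠ h * (ll E e b - ll E e b') := by
  intro hD
  apply hb
  obtain ⟨P, Q, hQ, hPQ⟩ := hh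
  have hP : P ≠ 0 := by
    rintro rfl
    rw [map_zero] at hPQ
    exact (mul_ne_zero h0 (al_ne hQ)) hPQ
  have hN0 : (N : ℂ) ≠ 0 := by exact_mod_cast hN.ne'
  have hA : al E (AA e) ≠ 0 := al_ne (AA_monic e).ne_zero
  have hQ0 : al E Q ≠ 0 := al_ne hQ
  have h1 := D_frac D hX hPQ
  rw [hD, map_pow] at h1
  have h2 : ll E e b - ll E e b' = (al E (SS e (bN b')) - al E (SS e (bN b))) / al E (AA e) := by
    unfold ll
    field_simp
    ring
  rw [h2] at h1
  have h3 : al E P * al E Q * (al E (SS e (bN b')) - al E (SS e (bN b))) =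
      al E (derivative P * Q - P * derivative Q) * al E (AA e) := by
    rw [← h1, ← hPQ]
    field_simp
  rw [← map_sub, ← map_mul, ← map_mul, ← map_mul] at h3
  have h4 := al_inj h3
  refine (dlog he hN hP hQ (b := b') (b' := b) ?_).symm
  rw [← h4]
  have h5 : C (N : ℂ) * (SS e (bN b') - SS e (bN b)) = SS e (fun i => ((b' i : ℕ) : ℂ) - ((b i : ℕ) : ℂ)) := by
    unfold SS
    rw [← Finset.sum_sub_distrib, Finset.mul_sum]
    refine Finset.sum_congr rfl fun i _ => ?_
    rw [← sub_mul, ← mul_assoc, ← C_sub, ← C_mul]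
    congr 2
    unfold bN
    field_simp
  linear_combination (P * Q) * h5

end Pool.Agent.Run7.h659.KA
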