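import Pool.Agent.Run7.h659.KA3

/-!
# Algebraic independence of the primitives on abelian covers of the line
-/

set_option autoImplicit false
set_option linter.unusedSectionVars false

open Polynomial

namespace Pool.Agent.Run7.h659.KA

variable {E : Type} [Field E] [CharZero E] [Algebra ℂ E] [Algebra ℂ[X] E] [IsScalarTower ℂ ℂ[X] E] [FaithfulSMul ℂ[X] E]

variable {n N : ℕ} (e : Fin (n + 1) → ℂ) (u : Fin (n + 1) → E)

/-- the field of the functions on the cover -/
noncomputable def FF (u : Fin (n + 1) → E) : IntermediateField ℂ E :=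
  (IntermediateField.adjoin (K0 E) (Set.range u)).restrictScalars ℂ

theorem mem_FF {u : Fin (n + 1) → E} {x : E} : x ∈ FF u ↔ x ∈ IntermediateField.adjoin (K0 E) (Set.range u) := Iff.rfl

theorem K0_FF {x : E} (hx : x ∈ K0 E) : x ∈ FF u :=
  (IntermediateField.adjoin (K0 E) (Set.range u)).algebraMap_mem ⟨x, hx⟩

theorem u_FF (i : Fin (n + 1)) : u i ∈ FF u := IntermediateField.subset_adjoin _ _ ⟨i, rfl⟩

theorem vv_FF (b : Fin (n + 1) → Fin N) : vv u b ∈ FF u := prod_mem fun i _ => pow_mem (u_FF u i) _

variable (hN : 0 < N) (hu : ∀ i, u i ^ N * al E (X - C (e i)) = 1)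

include hN hu in
theorem u_pow (i : Fin (n + 1)) : u i ^ N = (al E (X - C (e i)))⁻¹ := eq_inv_of_mul_eq_one_left (hu i)

include hN hu in
theorem u_alg (i : Fin (n + 1)) : IsAlgebraic (K0 E) (u i) := by
  refine ⟨X ^ N - C ⟨(al E (X - C (e i)))⁻¹, inv_mem (al_mem _)⟩, ?_, ?_⟩
  · exact (monic_X_pow_sub_C _ hN.ne').ne_zero
  · rw [map_sub, map_pow, aeval_X, aeval_C, u_pow e u hN hu i]
    exact sub_self _

include hN hu in
/-- every monomial is a multiple of a reduced one -/
theorem mono_red (a : Fin (n + 1) → ℕ) : ∃ k ∈ K0 E, ∏ i, u i ^ a i =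
    k * vv u (fun i => (⟨a i % N, Nat.mod_lt _ hN⟩ : Fin N)) := by
  refine ⟨∏ i, (u i ^ N) ^ (a i / N), prod_mem fun i _ => ?_, ?_⟩
  · rw [u_pow e u hN hu i]
    exact pow_mem (inv_mem (al_mem _)) _
  · unfold vv
    rw [← Finset.prod_mul_distrib]
    refine Finset.prod_congr rfl fun i _ => ?_
    rw [← pow_mul, ← pow_add, Nat.div_add_mod]

include hN hu in
/-- the elements of the field are combinations of the monomials -/
theorem FF_rep {x : E} (hx : x ∈ FF u) : ∃ h : (Fin (n + 1) → Fin N) → E, (∀ b, h b ∈ K0 E) ∧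
    x = ∑ b, h b * vv u b := by
  classical
  have h1 : x ∈ (IntermediateField.adjoin (K0 E) (Set.range u)).toSubalgebra := hx
  rw [IntermediateField.adjoin_toSubalgebra_of_isAlgebraic (by rintro _ ⟨i, rfl⟩; exact u_alg e u hN hu i)] at h1
  have h2 : x ∈ Subalgebra.toSubmodule (Algebra.adjoin (K0 E) (Set.range u)) := h1
  rw [Algebra.adjoin_eq_span] at h2
  have h3 : Submodule.span (K0 E) ((Submonoid.closure (Set.range u) : Submonoid E) : Set E) ≤
      Submodule.span (K0 E) (Set.range (fun b : Fin (n + 1) → Fin N => vv u b)) := by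
    rw [Submodule.span_le]
    intro y hy
    have h4 : ∃ a : Fin (n + 1) → ℕ, y = ∏ i, u i ^ a i := by
      refine Submonoid.closure_induction (motive := fun y _ => ∃ a : Fin (n + 1) → ℕ, y = ∏ i, u i ^ a i) ?_ ?_ ?_ hy
      · rintro _ ⟨i, rfl⟩
        refine ⟨Pi.single i 1, ?_⟩
        rw [Finset.prod_eq_single i]
        · rw [Pi.single_eq_same, pow_one]
        · intro k _ hk
          rw [Pi.single_eq_of_ne hk, pow_zero]
        · intro h; exact absurd (Finset.mem_univ _) h
      · exact ⟨0, by simp⟩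
      · rintro y z _ _ ⟨a, rfl⟩ ⟨b, rfl⟩
        refine ⟨fun i => a i + b i, ?_⟩
        rw [← Finset.prod_mul_distrib]
        exact Finset.prod_congr rfl fun i _ => (pow_add _ _ _).symm
    obtain ⟨a, rfl⟩ := h4
    obtain ⟨k, hk, hk2⟩ := mono_red e u hN hu a
    rw [hk2]
    have h5 : k * vv u (fun i => (⟨a i % N, Nat.mod_lt _ hN⟩ : Fin N)) =
        (⟨k, hk⟩ : K0 E) • vv u (fun i => (⟨a i % N, Nat.mod_lt _ hN⟩ : Fin N)) := rfl
    rw [h5]
    exact Submodule.smul_mem _ _ (Submodule.subset_span ⟨_, rfl⟩)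
  obtain ⟨c, hc⟩ := (Submodule.mem_span_range_iff_exists_fun (K0 E)).1 (h3 h2)
  exact ⟨fun b => (c b : E), fun b => (c b).2, hc.symm⟩

variable (D : Derivation ℂ E E) (hX : D (algebraMap ℂ[X] E X) = 1)

include hX hN hu in
theorem D_rep (h : (Fin (n + 1) → Fin N) → E) : D (∑ b, h b * vv u b) =
    ∑ b, (D (h b) + h b * ll E e b) * vv u b := by
  rw [map_sum]
  refine Finset.sum_congr rfl fun b _ => ?_
  rw [Derivation.leibniz, D_vv D hX e u hN hu b, smul_eq_mul, smul_eq_mul]
  ring

include hX hN hu in
theorem D_FF {x : E} (hx : x ∈ FF u) : D x ∈ FF u := by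
  obtain ⟨h, hK, rfl⟩ := FF_rep e u hN hu hx
  rw [D_rep e u hN hu D hX]
  exact sum_mem fun b _ => mul_mem (add_mem (K0_FF u (D_mem_K0 D hX (hK b))) (mul_mem (K0_FF u (hK b))
    (K0_FF u (ll_mem e b)))) (vv_FF u b)

/-- the derivation of the field -/
noncomputable def DFF : Derivation ℂ (FF u) (FF u) :=
  Derivation.mk' { toFun := fun x => ⟨D x, D_FF e u hN hu D hX x.2⟩
                   map_add' := fun a b => Subtype.ext (by simp)
                   map_smul' := fun c x => Subtype.ext (by simp) }
    (fun a b => Subtype.ext (by simp [Derivation.leibniz]))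

include hX hN in
/-- the monomials are linearly independent -/
theorem vv_ind (hu : ∀ i, u i ^ N * al E (X - C (e i)) = 1) (he : Function.Injective e)
    (h : (Fin (n + 1) → Fin N) → E) (hK : ∀ b, h b ∈ K0 E)
    (h0 : ∑ b, h b * vv u b = 0) (b : Fin (n + 1) → Fin N) : h b = 0 :=
  art D hX (vv u) (ll E e) (vv_ne e u hN hu) (ll_mem e) (D_vv D hX e u hN hu)
    (fun b b' hb h hh h0 => ll_ne D hX e hN he b b' hb h hh h0) Finset.univ h hK h0 b (Finset.mem_univ b)

/-- **Primitives on abelian covers are algebraically independent.** -/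
theorem indep (hu : ∀ i, u i ^ N * al E (X - C (e i)) = 1) (he : Function.Injective e)
    (hN : 0 < N) (hX : D (algebraMap ℂ[X] E X) = 1)
    (hconst : ∀ x : E, D x = 0 → ∃ c : ℂ, algebraMap ℂ E c = x) {Y : Type} [Fintype Y] (b : Y → Fin (n + 1) → Fin N)
    (j : Y → ℕ) (hinj : ∀ s t, b s = b t → j s = j t → s = t)
    (hj : ∀ s, j s < n + 1) (hj' : ∀ s, (∃ i, (b s i : ℕ) ≠ 0) → j s < n) (y : Y → E)
    (hy : ∀ s, D (y s) * al E (RR e (b s)) = al E (X ^ j s) * vv u (b s)) (P : MvPolynomial Y ℂ[X])
    (hP : MvPolynomial.eval₂ (al E) y P = 0) : P = 0 := by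
  classical
  have hR : ∀ b : Fin (n + 1) → Fin N, al E (RR e b) ≠ 0 := fun b => al_ne (RR_ne e b)
  have hDy : ∀ s, D (y s) = al E (X ^ j s) / al E (RR e (b s)) * vv u (b s) := by
    intro s
    rw [div_mul_eq_mul_div, eq_div_iff (hR _)]
    exact hy s
  have hw : ∀ s, D (y s) ∈ FF u := fun s => by
    rw [hDy]
    exact mul_mem (div_mem (K0_FF u (al_mem _)) (K0_FF u (al_mem _))) (vv_FF u _)
  have hind : AlgebraicIndependent (FF u) y := by
    refine Pool.Agent.W253.LF.t_OST ℂ (FF u) E (DFF e u hN hu D hX) D (fun x => rfl) hconst Y y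
      (fun s => ⟨D (y s), hw s⟩) (fun s => rfl) ?_
    intro c g hg
    obtain ⟨h, hK, hrep⟩ := FF_rep e u hN hu g.2
    set q : (Fin (n + 1) → Fin N) → ℂ[X] := fun b' => ∑ s, if b s = b' then C (c s) * X ^ j s else 0 with hq
    -- the derivative
    have h1 : D (g : E) = ∑ b', (al E (q b') / al E (RR e b')) * vv u b' := by
      have e1 : (g : E) = ∑ s, algebraMap ℂ E (c s) * y s := hg.symm
      rw [e1, map_sum]
      have e2 : ∀ s, D (algebraMap ℂ E (c s) * y s) =
          ∑ b', (al E (if b s = b' then C (c s) * X ^ j s else 0) / al E (RR e b')) * vv u b' := by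
        intro s
        rw [Finset.sum_eq_single (b s)]
        · rw [if_pos rfl, Derivation.leibniz, Derivation.map_algebraMap, hDy, smul_eq_mul, smul_eq_mul, mul_zero,
            add_zero, map_mul]
          have e3 : al E (C (c s)) = algebraMap ℂ E (c s) := (IsScalarTower.algebraMap_apply ℂ ℂ[X] E _).symm
          rw [e3]
          ring
        · intro b' _ hb'
          rw [if_neg (Ne.symm hb'), map_zero, zero_div, zero_mul]
        · intro h; exact absurd (Finset.mem_univ _) h
      rw [Finset.sum_congr rfl fun s _ => e2 s, Finset.sum_comm]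
      refine Finset.sum_congr rfl fun b' _ => ?_
      rw [hq, map_sum, Finset.sum_div, Finset.sum_mul]
    have h2 : ∑ b', ((D (h b') + h b' * ll E e b') - al E (q b') / al E (RR e b')) * vv u b' = 0 := by
      have e1 := D_rep e u hN hu D hX h
      rw [← hrep, h1] at e1
      simp only [sub_mul]
      rw [Finset.sum_sub_distrib, ← e1, sub_self]
    have h3 : ∀ b', D (h b') + h b' * ll E e b' = al E (q b') / al E (RR e b') := by
      intro b'
      have h4 := vv_ind e u hN D hX hu he (fun b' => (D (h b') + h b' * ll E e b') - al E (q b') / al E (RR e b'))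
        (fun b' => sub_mem (add_mem (D_mem_K0 D hX (hK b')) (mul_mem (hK b') (ll_mem e b')))
          (div_mem (al_mem _) (al_mem _))) h2 b'
      exact sub_eq_zero.1 h4
    -- the polynomials vanish
    have h4 : ∀ b', q b' = 0 := by
      intro b'
      obtain ⟨P, Q, hQ, hPQ, hPQ'⟩ := K0_coprime (hK b')
      have hQ0 := al_ne (E := E) hQ
      have hA : al E (AA e) ≠ 0 := al_ne (AA_monic e).ne_zero
      have e1 := D_frac D hX hPQ'
      have e2 : al E (RR e b') * al E (MM e b') = al E (AA e) := by rw [← map_mul, RR_mul_MM]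
      have e3 := h3 b'
      have e4 : al E (derivative P * Q - P * derivative Q) * al E (AA e) -
          al E P * al E Q * al E (SS e (bN b')) = al E (q b') * al E (MM e b') * al E Q ^ 2 := by
        rw [← e1, ← hPQ', map_pow]
        have e5 : D (h b') = al E (q b') / al E (RR e b') - h b' * ll E e b' := by linear_combination e3
        rw [e5]
        unfold ll
        have e6 : al E (q b') / al E (RR e b') = al E (q b') * al E (MM e b') / al E (AA e) := by
          rw [div_eq_div_iff (hR b') hA, ← e2]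
          ring
        rw [e6]
        field_simp
        ring
      rw [← map_mul, ← map_mul, ← map_mul, ← map_sub, ← map_pow, ← map_mul, ← map_mul] at e4
      refine exact he hN b' hQ hPQ (al_inj e4) ?_ ?_
      · refine (degree_sum_le _ _).trans_lt ?_
        rw [Finset.sup_lt_iff (WithBot.bot_lt_coe _)]
        intro s _
        split_ifs
        · refine (degree_C_mul_X_pow_le _ _).trans_lt ?_
          exact_mod_cast hj s
        · rw [degree_zero]; exact WithBot.bot_lt_coe _
      · intro hb
        refine (degree_sum_le _ _).trans_lt ?_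
        rw [Finset.sup_lt_iff (WithBot.bot_lt_coe _)]
        intro s _
        by_cases hs : b s = b'
        · rw [if_pos hs]
          refine (degree_C_mul_X_pow_le _ _).trans_lt ?_
          have := hj' s (by rw [hs]; exact hb)
          exact_mod_cast this
        · rw [if_neg hs, degree_zero]; exact WithBot.bot_lt_coe _
    funext s
    have h5 := congrArg (fun p => coeff p (j s)) (h4 (b s))
    simp only [hq, finsetSum_coeff, coeff_zero] at h5
    rw [Finset.sum_eq_single s] at h5
    · rw [if_pos rfl, coeff_C_mul_X_pow, if_pos rfl] at h5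
      exact h5
    · intro t _ ht
      split_ifs with hb
      · rw [coeff_C_mul_X_pow, if_neg]
        intro hjj
        exact ht (hinj t s hb hjj.symm)
      · exact coeff_zero _
    · intro h; exact absurd (Finset.mem_univ _) h
  let φ : ℂ[X] →+* FF u := (algebraMap ℂ[X] E).codRestrict (FF u).toSubfield.toSubring fun q => K0_FF u (al_mem q)
  have hφ : Function.Injective φ := by
    intro a b hab
    exact FaithfulSMul.algebraMap_injective ℂ[X] E (congrArg Subtype.val hab)
  have h1 : MvPolynomial.aeval y (MvPolynomial.map φ P) = 0 := by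
    rw [MvPolynomial.aeval_def, MvPolynomial.eval₂_map]
    exact hP
  exact MvPolynomial.map_injective φ hφ (by rw [hind.eq_zero_of_aeval_eq_zero _ h1, map_zero])

end Pool.Agent.Run7.h659.KA
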