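import Pool.Agent.Run7.h659.KA4

/-!
# Algebraic independence of the primitives on abelian covers of the line: analytic functions
-/

set_option autoImplicit false
set_option linter.unusedSectionVars false

open Polynomial Filter Topology

namespace Pool.Agent.Run7.h659.KA

open Pool.Agent.X255.RH (Indep)
open Pool.Agent.Y890.SP (evF evF_an)

variable {n N : ℕ}

/-- **Primitives on abelian covers are algebraically independent functions.** -/
theorem prim {V : Set ℂ} (hVo : IsOpen V) (hne : V.Nonempty) {e : Fin (n + 1) → ℂ} (he : Function.Injective e)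
    (hN : 0 < N) {L : Fin (n + 1) → ℂ → ℂ} (hL : ∀ i, AnalyticOnNhd ℂ (L i) V)
    (hexp : ∀ i, ∀ x ∈ V, Complex.exp (L i x) = x - e i) {Y : Type} [Fintype Y] (b : Y → Fin (n + 1) → Fin N)
    (j : Y → ℕ) (hinj : ∀ s t, b s = b t → j s = j t → s = t)
    (hj : ∀ s, j s < n + 1) (hj' : ∀ s, (∃ i, (b s i : ℕ) ≠ 0) → j s < n) {f : Y → ℂ → ℂ}
    (hf : ∀ s, AnalyticOnNhd ℂ (f s) V)
    (hd : ∀ s, ∀ x ∈ V, deriv (f s) x * (RR e (b s)).eval x =
      x ^ j s * Complex.exp (-∑ i, ((b s i : ℕ) : ℂ) / N * L i x)) : Indep V f := by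
  classical
  obtain ⟨x0, hx0⟩ := hne
  obtain ⟨E, _, _, D, T, hconst, hTc, hTa, hTm, hTd, hTz, hTe⟩ := Pool.Agent.W924.LF.t_GERM ℂ
  haveI : CharZero E := charZero_of_injective_algebraMap (algebraMap ℂ E).injective
  have hN0 : (N : ℂ) ≠ 0 := by exact_mod_cast hN.ne'
  -- shifted functions
  have hsh : ∀ g : ℂ → ℂ, AnalyticAt ℂ g x0 → AnalyticAt ℂ (fun s => g (x0 + s)) 0 := by
    intro g hg
    have h1 : AnalyticAt ℂ (fun s : ℂ => x0 + s) 0 := analyticAt_const.add analyticAt_id
    refine AnalyticAt.comp' ?_ h1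
    rw [add_zero]
    exact hg
  set τ : E := T (fun s => x0 + s) with hτ
  have hpow : ∀ (g : ℂ → ℂ), AnalyticAt ℂ g 0 → ∀ n : ℕ, T (fun s => g s ^ n) = T g ^ n := by
    intro g hg n
    induction n with
    | zero =>
      simp only [pow_zero]
      rw [hTc 1, map_one]
    | succ n ih =>
      simp only [pow_succ]
      rw [hTm (fun s => g s ^ n) g (hg.pow n) hg, ih]
  have hid : AnalyticAt ℂ (fun s : ℂ => x0 + s) 0 := analyticAt_const.add analyticAt_id
  have halg0 : ∀ p : ℂ[X], aeval τ p = T (fun s => p.eval (x0 + s)) := by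
    intro p
    induction p using Polynomial.induction_on' with
    | add p q hp hq =>
      simp only [eval_add]
      rw [hTa _ _ (hsh _ (p.differentiable.analyticAt x0)) (hsh _ (q.differentiable.analyticAt x0)), map_add, hp, hq]
    | monomial n a =>
      simp only [eval_monomial]
      rw [hTm (fun _ => a) (fun s => (x0 + s) ^ n) analyticAt_const (hid.pow n), hTc, hpow _ hid, aeval_monomial]
  letI : Algebra ℂ[X] E := (aeval τ : ℂ[X] →ₐ[ℂ] E).toRingHom.toAlgebra
  have halg : ∀ p : ℂ[X], algebraMap ℂ[X] E p = T (fun s => p.eval (x0 + s)) := halg0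
  haveI : IsScalarTower ℂ ℂ[X] E := IsScalarTower.of_algebraMap_eq fun c => by
    show _ = aeval τ (C c)
    rw [aeval_C]
  have hnear : ∀ {g : ℂ → ℂ}, (∀ᶠ s in 𝓝 (0 : ℂ), g s = 0) → ∀ᶠ x in 𝓝 x0, g (x - x0) = 0 := by
    intro g hg
    have h3 : Tendsto (fun x => x - x0) (𝓝 x0) (𝓝 0) := by
      have : Tendsto (fun x => x - x0) (𝓝 x0) (𝓝 (x0 - x0)) := tendsto_id.sub tendsto_const_nhds
      rwa [sub_self] at this
    exact h3.eventually hg
  haveI : FaithfulSMul ℂ[X] E := by
    refine (faithfulSMul_iff_algebraMap_injective ℂ[X] E).2 ?_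
    rw [injective_iff_map_eq_zero]
    intro p hp
    rw [halg] at hp
    have h1 := hTz _ (hsh _ (p.differentiable.analyticAt x0)) hp
    have h2 : ∀ᶠ x in 𝓝 x0, p.eval x = 0 := by
      filter_upwards [hnear h1] with x hx
      rwa [add_sub_cancel] at hx
    have h4 := (show AnalyticOnNhd ℂ (fun x => p.eval x) Set.univ from fun x _ => p.differentiable.analyticAt x).eqOn_zero_of_preconnected_of_eventuallyEq_zero
      isPreconnected_univ (Set.mem_univ x0) h2
    exact Polynomial.funext fun x => by rw [eval_zero]; exact h4 (Set.mem_univ x)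
  have hX : D (algebraMap ℂ[X] E X) = 1 := by
    rw [halg]
    simp only [eval_X]
    rw [← hTd _ hid]
    have h1 : deriv (fun s : ℂ => x0 + s) = fun _ => 1 := by
      funext s
      simp
    rw [h1, hTc, map_one]
  have hV0 : ∀ᶠ s in 𝓝 (0 : ℂ), x0 + s ∈ V := by
    have h4 : Tendsto (fun s => x0 + s) (𝓝 (0 : ℂ)) (𝓝 x0) := by
      have : Tendsto (fun s => x0 + s) (𝓝 (0 : ℂ)) (𝓝 (x0 + 0)) := tendsto_const_nhds.add tendsto_id
      rwa [add_zero] at this
    exact h4.eventually (hVo.mem_nhds hx0)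
  set y : Y → E := fun i => T (fun s => f i (x0 + s)) with hy
  have hev : ∀ P : MvPolynomial Y ℂ[X], MvPolynomial.eval₂ (algebraMap ℂ[X] E) y P = T (fun s => evF f (x0 + s) P) := by
    intro P
    induction P using MvPolynomial.induction_on with
    | C a =>
      rw [MvPolynomial.eval₂_C, halg]
      congr 1
      funext s
      simp [evF]
    | add p q hp hq =>
      have h1 : (fun s => evF f (x0 + s) (p + q)) = fun s => evF f (x0 + s) p + evF f (x0 + s) q := by
        funext s
        simp [evF]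
      rw [MvPolynomial.eval₂_add, hp, hq, h1, hTa _ _ (hsh _ (evF_an hf p x0 hx0)) (hsh _ (evF_an hf q x0 hx0))]
    | mul_X p i hp =>
      have h1 : (fun s => evF f (x0 + s) (p * MvPolynomial.X i)) = fun s => evF f (x0 + s) p * f i (x0 + s) := by
        funext s
        simp [evF]
      rw [MvPolynomial.eval₂_mul, MvPolynomial.eval₂_X, hp, h1, hTm _ _ (hsh _ (evF_an hf p x0 hx0)) (hsh _ (hf i x0 hx0))]
  -- the roots
  set w : Fin (n + 1) → ℂ → ℂ := fun i x => Complex.exp (-(L i x / N)) with hw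
  have hwan : ∀ i, AnalyticAt ℂ (w i) x0 := fun i => (((hL i x0 hx0).div_const).neg).cexp
  set u : Fin (n + 1) → E := fun i => T (fun s => w i (x0 + s)) with hu'
  have hu : ∀ i, u i ^ N * al E (X - C (e i)) = 1 := by
    intro i
    have h1 : u i ^ N * al E (X - C (e i)) = T (fun s => w i (x0 + s) ^ N * (X - C (e i)).eval (x0 + s)) := by
      rw [hTm (fun s => w i (x0 + s) ^ N) (fun s => (X - C (e i) : ℂ[X]).eval (x0 + s))
        ((hsh _ (hwan i)).pow N) (hsh _ ((X - C (e i) : ℂ[X]).differentiable.analyticAt x0)), hpow _ (hsh _ (hwan i)), halg]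
    rw [h1]
    have h2 : T (fun s => w i (x0 + s) ^ N * (X - C (e i)).eval (x0 + s)) = T (fun _ => 1) := by
      refine hTe _ _ ?_
      filter_upwards [hV0] with s hs
      rw [hw]
      simp only [eval_sub, eval_X, eval_C]
      rw [← hexp i _ hs, ← Complex.exp_nat_mul, ← Complex.exp_add, ← Complex.exp_zero]
      congr 1
      field_simp
      ring
    rw [h2, hTc, map_one]
  have hvv : ∀ c : Fin (n + 1) → Fin N, vv u c = T (fun s => ∏ i, w i (x0 + s) ^ (c i : ℕ)) := by
    intro c
    have h1 : ∀ S : Finset (Fin (n + 1)), ∏ i ∈ S, u i ^ (c i : ℕ) = T (fun s => ∏ i ∈ S, w i (x0 + s) ^ (c i : ℕ)) := by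
      intro S
      induction S using Finset.induction_on with
      | empty =>
        simp only [Finset.prod_empty]
        rw [hTc, map_one]
      | insert i S hi ih =>
        simp only [Finset.prod_insert hi]
        have h2 : AnalyticAt ℂ (fun s => ∏ i ∈ S, w i (x0 + s) ^ (c i : ℕ)) 0 :=
          Finset.analyticAt_fun_prod S fun i _ => (hsh _ (hwan i)).pow _
        rw [hTm (fun s => w i (x0 + s) ^ (c i : ℕ)) (fun s => ∏ i ∈ S, w i (x0 + s) ^ (c i : ℕ)) ((hsh _ (hwan i)).pow _) h2,
          hpow _ (hsh _ (hwan i)), ih]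
    exact h1 Finset.univ
  intro P hP
  refine indep e u D hu he hN hX hconst b j hinj hj hj' y (fun s => ?_) P ?_
  · have h1 : D (y s) = T (fun t => deriv (f s) (x0 + t)) := by
      rw [hy, ← hTd _ (hsh _ (hf s x0 hx0))]
      congr 1
      funext t
      exact deriv_comp_const_add (f s) x0 t
    have hprod : AnalyticAt ℂ (fun t => ∏ i, w i (x0 + t) ^ (b s i : ℕ)) 0 :=
      Finset.analyticAt_fun_prod _ fun i _ => (hsh _ (hwan i)).pow _
    rw [h1, hvv, halg, halg, ← hTm (fun t => deriv (f s) (x0 + t)) (fun t => (RR e (b s)).eval (x0 + t))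
      (hsh _ (hf s x0 hx0).deriv) (hsh _ ((RR e (b s)).differentiable.analyticAt x0)),
      ← hTm (fun t => (X ^ j s : ℂ[X]).eval (x0 + t)) (fun t => ∏ i, w i (x0 + t) ^ (b s i : ℕ))
      (hsh _ ((X ^ j s : ℂ[X]).differentiable.analyticAt x0)) hprod]
    refine hTe _ _ ?_
    filter_upwards [hV0] with t ht
    rw [hd s _ ht]
    simp only [eval_pow, eval_X]
    congr 1
    rw [← Finset.sum_neg_distrib, Complex.exp_sum]
    refine Finset.prod_congr rfl fun i _ => ?_
    rw [hw]
    simp only []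
    rw [← Complex.exp_nat_mul]
    congr 1
    ring
  · rw [hev]
    have h2 : T (fun s => evF f (x0 + s) P) = T (fun _ => 0) := by
      refine hTe _ _ ?_
      filter_upwards [hV0] with s hs
      exact hP _ hs
    rw [h2, hTc, map_zero]

end Pool.Agent.Run7.h659.KA
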