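import Pool.Agent.Run7.h659.KA5
import Pool.Agent.N207.GS.Om
import Pool.Agent.Y119.PLM.Main

/-!
# Independent functions of several variables
-/

set_option autoImplicit false
set_option linter.unusedSectionVars false

open Polynomial

namespace Pool.Agent.Run7.h659.KA

open Pool.Agent.X255.RH (Indep)
open Pool.Agent.Y890.SP (evF)
open Pool.Agent.Y890.MV (evM evX evM_eq)
open Pool.Agent.N207.GS (Irr Fib)

variable {r : ℕ} {κ : Fin r → Type}

/-- the polynomial in one of the variables -/
noncomputable def q1 (t0 : Fin r) (x : Fin r → ℂ) (Y : (Σ t, κ t) → ℂ)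
    (p : MvPolynomial (Σ t, κ t) (MvPolynomial (Fin r) ℂ)) : MvPolynomial (κ t0) ℂ[X] :=
  p.eval₂ (MvPolynomial.eval₂Hom ((MvPolynomial.C : ℂ[X] →+* MvPolynomial (κ t0) ℂ[X]).comp Polynomial.C)
      fun t => if t = t0 then MvPolynomial.C Polynomial.X else MvPolynomial.C (Polynomial.C (x t)))
    fun s => if h : s.1 = t0 then MvPolynomial.X (h ▸ s.2) else MvPolynomial.C (Polynomial.C (Y s))

/-- replacement of the coordinates of one variable -/
def rp (t0 : Fin r) (Y : (Σ t, κ t) → ℂ) (Z : κ t0 → ℂ) : (Σ t, κ t) → ℂ :=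
  fun s => if h : s.1 = t0 then Z (h ▸ s.2) else Y s

theorem ev_q1 (t0 : Fin r) (x : Fin r → ℂ) (Y : (Σ t, κ t) → ℂ)
    (p : MvPolynomial (Σ t, κ t) (MvPolynomial (Fin r) ℂ)) (w : ℂ) (Z : κ t0 → ℂ) :
    (q1 t0 x Y p).eval₂ (Polynomial.evalRingHom w) Z = evX (Function.update x t0 w) (rp t0 Y Z) p := by
  unfold q1 evX
  have h1 := MvPolynomial.eval₂_comp_left (MvPolynomial.eval₂Hom (Polynomial.evalRingHom w) Z)
    (MvPolynomial.eval₂Hom ((MvPolynomial.C : ℂ[X] →+* MvPolynomial (κ t0) ℂ[X]).comp Polynomial.C)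
      fun t : Fin r => if t = t0 then MvPolynomial.C Polynomial.X else MvPolynomial.C (Polynomial.C (x t)))
    (fun s : Σ t, κ t => if h : s.1 = t0 then MvPolynomial.X (h ▸ s.2) else MvPolynomial.C (Polynomial.C (Y s))) p
  refine Eq.trans h1 ?_
  congr 1
  · refine MvPolynomial.ringHom_ext (fun c => ?_) fun t => ?_
    · simp
    · by_cases h : t = t0
      · subst h
        simp
      · simp [h]
  · funext s
    obtain ⟨t, s⟩ := s
    by_cases h : t = t0
    · subst h
      simp [rp]
    · simp [rp, h]

/-- **Functions of different variables.** -/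
theorem multi {V : Fin r → Set ℂ} {f : ∀ t, κ t → ℂ → ℂ} (hf : ∀ t, Indep (V t) (f t))
    (p : MvPolynomial (Σ t, κ t) (MvPolynomial (Fin r) ℂ))
    (hp : ∀ x : Fin r → ℂ, (∀ t, x t ∈ V t) → evX x (fun s => f s.1 s.2 (x s.1)) p = 0) (x : Fin r → ℂ)
    (Y : (Σ t, κ t) → ℂ) : evX x Y p = 0 := by
  have key : ∀ S : Finset (Fin r), ∀ x : Fin r → ℂ, (∀ t ∉ S, x t ∈ V t) → ∀ Y : (Σ t, κ t) → ℂ,
      (∀ s, s.1 ∉ S → Y s = f s.1 s.2 (x s.1)) → evX x Y p = 0 := by
    intro S
    induction S using Finset.induction_on with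
    | empty =>
      intro x hx Y hY
      rw [← hp x fun t => hx t (Finset.notMem_empty t)]
      congr 1
      funext s
      exact hY s (Finset.notMem_empty _)
    | insert t0 S ht0 ih =>
      intro x hx Y hY
      have h0 : q1 t0 x Y p = 0 := by
        refine hf t0 _ fun w hw => ?_
        show (q1 t0 x Y p).eval₂ (Polynomial.evalRingHom w) (fun i => f t0 i w) = 0
        rw [ev_q1]
        refine ih _ (fun t ht => ?_) _ fun s hs => ?_
        · by_cases h : t = t0
          · subst h
            rw [Function.update_self]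
            exact hw
          · rw [Function.update_of_ne h]
            exact hx t fun h2 => (Finset.mem_insert.1 h2).elim h ht
        · obtain ⟨t, s⟩ := s
          by_cases h : t = t0
          · subst h
            simp [rp]
          · unfold rp
            simp only [h, dif_neg, not_false_eq_true, Function.update_of_ne h]
            exact hY ⟨t, s⟩ fun h2 => (Finset.mem_insert.1 h2).elim h hs
      have h1 := ev_q1 t0 x Y p (x t0) (fun i => Y ⟨t0, i⟩)
      rw [h0, MvPolynomial.eval₂_zero, Function.update_eq_self] at h1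
      have h2 : rp t0 Y (fun i => Y ⟨t0, i⟩) = Y := by
        funext s
        obtain ⟨t, s⟩ := s
        by_cases h : t = t0
        · subst h
          simp [rp]
        · simp [rp, h]
      rw [h2] at h1
      exact h1.symm
  exact key Finset.univ x (fun t ht => absurd (Finset.mem_univ t) ht) Y fun s hs => absurd (Finset.mem_univ _) hs

/-- a polynomial all of whose values are zero -/
theorem eq_zero_of_ev {X σ : Type} (p : MvPolynomial σ (MvPolynomial X ℂ)) (h : ∀ x Y, evX x Y p = 0) : p = 0 := by
  ext1 m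
  rw [MvPolynomial.coeff_zero]
  refine MvPolynomial.funext fun x => ?_
  rw [map_zero]
  have h1 : MvPolynomial.map (MvPolynomial.eval x) p = 0 := by
    refine MvPolynomial.funext fun Y => ?_
    rw [map_zero, MvPolynomial.eval_map]
    exact h x Y
  have h2 := congrArg (fun q => MvPolynomial.coeff m q) h1
  simp only [MvPolynomial.coeff_map, MvPolynomial.coeff_zero] at h2
  exact h2

theorem irr_univ {σ : Type} : Irr (Set.univ : Set (σ → ℂ)) := by
  intro P Q h
  have h1 : P * Q = 0 := MvPolynomial.funext fun x => by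
    rw [map_mul, map_zero]
    exact h x (Set.mem_univ x)
  rcases mul_eq_zero.1 h1 with h2 | h2
  · left; intro a _; rw [h2, map_zero]
  · right; intro a _; rw [h2, map_zero]

end Pool.Agent.Run7.h659.KA
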