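import Pool.Agent.Run7.h659.SE5

/-!
# Incomplete integrals: a moving end point

The integrals of `x ^ j ∏ (x - a_i) ^ (- μ_i)` from `a_k` to a variable point `z` in the gap after `a_k`.
-/

set_option autoImplicit false
set_option linter.unusedSectionVars false

open Complex Set MeasureTheory Filter Topology

namespace Pool.Agent.Run7.h659.MX

open Pool.Agent.Run7.h659.SE
open Pool.Agent.Y118.HP (seg ee Dm isOpen_Dm InGap mem_Dm_of_im ee_self ee_succAbove ee_castSucc_castSucc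
  ee_castSucc_succ ee_succ_castSucc ee_succ_succ ee_other eq_zero_of_open differentiableOn_eval)

variable {n : ℕ} {ι : Type}

/-! ## polynomials in `z` and the vectors -/

/-- the value -/
noncomputable def vl (p : MvPolynomial (Option (ι × Fin n)) ℂ) (z : ℂ) (Y : ι → Fin n → ℂ) : ℂ :=
  MvPolynomial.eval (fun o => o.elim z fun x => Y x.1 x.2) p

/-- substitution of an affine map -/
noncomputable def af (l : ι → ℂ) (v : ι → Fin n → ℂ) (p : MvPolynomial (Option (ι × Fin n)) ℂ) :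
    MvPolynomial (Option (ι × Fin n)) ℂ :=
  MvPolynomial.bind₁ (fun o => o.elim (MvPolynomial.X none) fun x =>
    MvPolynomial.C (l x.1) * MvPolynomial.X (some x) + MvPolynomial.C (v x.1 x.2)) p

theorem vl_af (l : ι → ℂ) (v : ι → Fin n → ℂ) (p : MvPolynomial (Option (ι × Fin n)) ℂ) (z : ℂ) (Y : ι → Fin n → ℂ) :
    vl (af l v p) z Y = vl p z (fun i j => l i * Y i j + v i j) := by
  unfold vl af
  rw [← MvPolynomial.coe_aeval_eq_eval, ← MvPolynomial.coe_aeval_eq_eval]
  simp only [RingHom.coe_coe, MvPolynomial.aeval_bind₁]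
  congr 2
  funext o
  rcases o with _ | x
  · simp
  · simp

theorem diff_vl {O : Set ℂ} (p : MvPolynomial (Option (ι × Fin n)) ℂ) {F : ℂ → ι → Fin n → ℂ}
    (hF : ∀ i j, DifferentiableOn ℂ (fun z => F z i j) O) : DifferentiableOn ℂ (fun z => vl p z (F z)) O := by
  unfold vl
  refine differentiableOn_eval (fun (o : Option (ι × Fin n)) z => o.elim z fun x => F z x.1 x.2) ?_ p
  rintro (_ | x)
  · exact differentiableOn_id
  · exact hF _ _

/-- the relations of a family -/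
def Rl (O : Set ℂ) (F : ℂ → ι → Fin n → ℂ) : Set (MvPolynomial (Option (ι × Fin n)) ℂ) :=
  {p | ∀ z ∈ O, vl p z (F z) = 0}

/-- transfer of relations -/
theorem transfer {a : Fin (n + 1) → ℝ} (ha : StrictMono a) {m m' : Fin (n + 2)} {F F' : ℂ → ι → Fin n → ℂ}
    (hF : ∀ i j, DifferentiableOn ℂ (fun z => F' z i j) (Dm a m')) {V : Set ℂ} (hV : IsOpen V) {z0 : ℂ} (h0 : z0 ∈ V)
    (him : ∀ z ∈ V, z.im ≠ 0) {l : ι → ℂ} {v : ι → Fin n → ℂ}
    (h : ∀ z ∈ V, ∀ i j, F z i j = l i * F' z i j + v i j) {p : MvPolynomial (Option (ι × Fin n)) ℂ}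
    (hp : p ∈ Rl (Dm a m) F) : af l v p ∈ Rl (Dm a m') F' := by
  refine eq_zero_of_open ha m' (diff_vl _ hF) hV h0 (mem_Dm_of_im a m' (him _ h0)) ?_
  intro z hz
  rw [vl_af]
  have h1 := hp z (mem_Dm_of_im a m (him z hz))
  rw [← h1]
  congr 1
  funext i j
  exact (h z hz i j).symm

def UH : Set ℂ := {z | 0 < z.im}

def LH : Set ℂ := {z | z.im < 0}

theorem transfer_up {a : Fin (n + 1) → ℝ} (ha : StrictMono a) {m m' : Fin (n + 2)} {F F' : ℂ → ι → Fin n → ℂ}
    (hF : ∀ i j, DifferentiableOn ℂ (fun z => F' z i j) (Dm a m')) {l : ι → ℂ} {v : ι → Fin n → ℂ}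
    (h : ∀ z ∈ UH, ∀ i j, F z i j = l i * F' z i j + v i j) {p : MvPolynomial (Option (ι × Fin n)) ℂ}
    (hp : p ∈ Rl (Dm a m) F) : af l v p ∈ Rl (Dm a m') F' :=
  transfer ha hF (isOpen_lt continuous_const continuous_im) (z0 := I) (show (0 : ℝ) < I.im by simp)
    (fun z (hz : 0 < z.im) => hz.ne') h hp

theorem transfer_low {a : Fin (n + 1) → ℝ} (ha : StrictMono a) {m m' : Fin (n + 2)} {F F' : ℂ → ι → Fin n → ℂ}
    (hF : ∀ i j, DifferentiableOn ℂ (fun z => F' z i j) (Dm a m')) {l : ι → ℂ} {v : ι → Fin n → ℂ}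
    (h : ∀ z ∈ LH, ∀ i j, F z i j = l i * F' z i j + v i j) {p : MvPolynomial (Option (ι × Fin n)) ℂ}
    (hp : p ∈ Rl (Dm a m) F) : af l v p ∈ Rl (Dm a m') F' :=
  transfer ha hF (isOpen_lt continuous_im continuous_const) (z0 := -I) (show (-I).im < (0 : ℝ) by simp)
    (fun z (hz : z.im < 0) => hz.ne) h hp

/-! ## translations -/

/-- a polynomial in one variable which vanishes at the natural numbers -/
theorem vl_line (p : MvPolynomial (Option (ι × Fin n)) ℂ) (z : ℂ) (Y v : ι → Fin n → ℂ)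
    (h : ∀ m : ℕ, vl p z (fun i j => Y i j + m * v i j) = 0) (s : ℂ) : vl p z (fun i j => Y i j + s * v i j) = 0 := by
  set Ψ : MvPolynomial (Option (ι × Fin n)) ℂ →ₐ[ℂ] Polynomial ℂ := MvPolynomial.aeval
    (fun o : Option (ι × Fin n) => o.elim (Polynomial.C z) fun x => Polynomial.C (Y x.1 x.2) +
      Polynomial.X * Polynomial.C (v x.1 x.2)) with hΨ
  have hev : ∀ s : ℂ, (Ψ p).eval s = vl p z (fun i j => Y i j + s * v i j) := by
    intro s
    have h1 : ((Polynomial.aeval s).comp Ψ : MvPolynomial (Option (ι × Fin n)) ℂ →ₐ[ℂ] ℂ) =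
        MvPolynomial.aeval (fun o : Option (ι × Fin n) => o.elim z fun x => Y x.1 x.2 + s * v x.1 x.2) := by
      refine MvPolynomial.algHom_ext fun i => ?_
      rw [AlgHom.comp_apply, hΨ, MvPolynomial.aeval_X, MvPolynomial.aeval_X]
      rcases i with _ | x
      · simp
      · simp only [Option.elim_some, map_add, map_mul, Polynomial.aeval_C, Polynomial.aeval_X]
        rfl
    have h2 := AlgHom.congr_fun h1 p
    unfold vl
    rw [← MvPolynomial.coe_aeval_eq_eval]
    refine Eq.trans ?_ h2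
    rw [AlgHom.comp_apply, Polynomial.coe_aeval_eq_eval]
  have h0 : Ψ p = 0 := by
    apply Polynomial.eq_zero_of_infinite_isRoot
    refine Set.Infinite.mono (s := Set.range fun m : ℕ => (m : ℂ)) ?_ (Set.infinite_range_of_injective Nat.cast_injective)
    rintro _ ⟨m, rfl⟩
    show (Ψ p).IsRoot (m : ℂ)
    rw [Polynomial.IsRoot.def, hev]
    exact h m
  rw [← hev, h0, Polynomial.eval_zero]

/-- the translations which preserve the relations -/
def Tr (O : Set ℂ) (F : ℂ → ι → Fin n → ℂ) : Submodule ℂ (ι → Fin n → ℂ) where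
  carrier := {v | ∀ p ∈ Rl O F, af 1 v p ∈ Rl O F}
  zero_mem' := by
    intro p hp z hz
    rw [vl_af]
    simpa using hp z hz
  add_mem' := by
    intro v w hv hw p hp z hz
    have h1 := hw _ (hv _ hp) z hz
    rw [vl_af, vl_af] at h1
    rw [vl_af, ← h1]
    congr 1
    funext i j
    simp only [Pi.one_apply, one_mul, Pi.add_apply]
    ring
  smul_mem' := by
    intro c v hv p hp z hz
    have hall : ∀ m : ℕ, ∀ p ∈ Rl O F, vl p z (fun i j => F z i j + m * v i j) = 0 := by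
      intro m
      induction m with
      | zero =>
        intro p hp
        simpa using hp z hz
      | succ m ih =>
        intro p hp
        have h1 := ih _ (hv _ hp)
        rw [vl_af] at h1
        rw [← h1]
        congr 1
        funext i j
        simp only [Pi.one_apply, one_mul]
        push_cast
        ring
    rw [vl_af]
    have h1 := vl_line p z (F z) v (fun m => hall m p hp) c
    rw [← h1]
    congr 1
    funext i j
    simp

theorem mem_Tr {O : Set ℂ} {F : ℂ → ι → Fin n → ℂ} {v : ι → Fin n → ℂ} :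
    v ∈ Tr O F ↔ ∀ p ∈ Rl O F, af 1 v p ∈ Rl O F := Iff.rfl

theorem Rl_congr {O : Set ℂ} {F : ℂ → ι → Fin n → ℂ} {p q : MvPolynomial (Option (ι × Fin n)) ℂ}
    (h : ∀ z Y, vl p z Y = vl q z Y) (hp : p ∈ Rl O F) : q ∈ Rl O F := by
  intro z hz
  rw [← h]
  exact hp z hz

theorem Tr_scale {O : Set ℂ} {F : ℂ → ι → Fin n → ℂ} {l : ι → ℂ} (hl : ∀ i, l i ≠ 0)
    (h1 : ∀ p ∈ Rl O F, af l 0 p ∈ Rl O F) (h2 : ∀ p ∈ Rl O F, af (fun i => (l i)⁻¹) 0 p ∈ Rl O F)
    {v : ι → Fin n → ℂ} (hv : v ∈ Tr O F) : (fun i j => l i * v i j) ∈ Tr O F := by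
  intro p hp
  refine Rl_congr (fun z Y => ?_) (h2 _ (hv _ (h1 _ hp)))
  rw [vl_af, vl_af, vl_af, vl_af]
  congr 1
  funext i j
  simp only [Pi.one_apply, one_mul, Pi.zero_apply, add_zero]
  rw [mul_add, mul_inv_cancel_left₀ (hl i)]

theorem Tr_split [Fintype ι] [DecidableEq ι] {O : Set ℂ} {F : ℂ → ι → Fin n → ℂ} {l : ι → ℂ}
    (hinj : Function.Injective l) (h : ∀ v ∈ Tr O F, (fun i j => l i * v i j) ∈ Tr O F)
    {v : ι → Fin n → ℂ} (hv : v ∈ Tr O F) (i : ι) : Pi.single i (v i) ∈ Tr O F := by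
  have h1 : ∀ s : Finset ι, (fun i' j => (∏ k ∈ s, (l i' - l k)) * v i' j) ∈ Tr O F := by
    intro s
    induction s using Finset.induction_on with
    | empty => simpa using hv
    | insert k s hk ih =>
      have h2 := (Tr O F).sub_mem (h _ ih) ((Tr O F).smul_mem (l k) ih)
      convert h2 using 1
      funext i' j
      rw [Finset.prod_insert hk]
      simp only [Pi.sub_apply, Pi.smul_apply, smul_eq_mul]
      ring
  have h2 := h1 (Finset.univ.erase i)
  have hc : ∏ k ∈ Finset.univ.erase i, (l i - l k) ≠ 0 := by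
    rw [Finset.prod_ne_zero_iff]
    intro k hk
    rw [sub_ne_zero]
    exact fun h => (Finset.ne_of_mem_erase hk) (hinj h).symm
  have h3 := (Tr O F).smul_mem (∏ k ∈ Finset.univ.erase i, (l i - l k))⁻¹ h2
  convert h3 using 1
  funext i' j
  simp only [Pi.smul_apply, smul_eq_mul]
  by_cases hi : i' = i
  · subst hi
    rw [Pi.single_eq_same, inv_mul_cancel_left₀ hc]
  · have h4 : ∏ k ∈ Finset.univ.erase i, (l i' - l k) = 0 :=
      Finset.prod_eq_zero (Finset.mem_erase.2 ⟨hi, Finset.mem_univ i'⟩) (sub_self _)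
    rw [Pi.single_eq_of_ne hi, h4]
    simp

/-- transport of translations -/
theorem Tr_transport {O O' : Set ℂ} {F F' : ℂ → ι → Fin n → ℂ} {l : ι → ℂ} (hl : ∀ i, l i ≠ 0) {c : ι → Fin n → ℂ}
    (h1 : ∀ p ∈ Rl O F, af l c p ∈ Rl O' F')
    (h2 : ∀ p ∈ Rl O' F', af (fun i => (l i)⁻¹) (fun i j => -((l i)⁻¹ * c i j)) p ∈ Rl O F)
    {v : ι → Fin n → ℂ} (hv : v ∈ Tr O F) : (fun i j => (l i)⁻¹ * v i j) ∈ Tr O' F' := by
  intro p hp
  refine Rl_congr (fun z Y => ?_) (h1 _ (hv _ (h2 _ hp)))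
  rw [vl_af, vl_af, vl_af, vl_af]
  congr 1
  funext i j
  simp only [Pi.one_apply, one_mul]
  field_simp [hl i]
  ring

/-- if all translations preserve the relations, the polynomials vanish identically -/
theorem eq_zero_of_top {O : Set ℂ} {F : ℂ → ι → Fin n → ℂ} (h : ∀ v, v ∈ Tr O F)
    {p : MvPolynomial (Option (ι × Fin n)) ℂ} (hp : p ∈ Rl O F) {z : ℂ} (hz : z ∈ O) (Y : ι → Fin n → ℂ) :
    vl p z Y = 0 := by
  have h1 := h (fun i j => Y i j - F z i j) p hp z hz
  rw [vl_af] at h1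
  rw [← h1]
  congr 1
  funext i j
  simp

end Pool.Agent.Run7.h659.MX
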