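import Mathlib

/-!
# Closed monoids of matrices which contain many rank one perturbations of the identity
-/

set_option autoImplicit false
set_option linter.unusedSectionVars false

namespace Pool.Agent.Run7.h659.SE

variable {n : ℕ}

/-- rank one matrices -/
def Rk (c φ : Fin n → ℂ) : Matrix (Fin n) (Fin n) ℂ := Matrix.of fun l j => c l * φ j

/-- the pairing -/
def dt (φ c : Fin n → ℂ) : ℂ := ∑ l, φ l * c l

theorem Rk_mul (c φ b ψ : Fin n → ℂ) : Rk c φ * Rk b ψ = Rk (dt φ b • c) ψ := by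
  ext l j
  rw [Matrix.mul_apply]
  simp only [Rk, Matrix.of_apply, Pi.smul_apply, smul_eq_mul, dt]
  rw [Finset.sum_mul, Finset.sum_mul]
  refine Finset.sum_congr rfl fun i _ => by ring

theorem Rk_add_left (c c' φ : Fin n → ℂ) : Rk (c + c') φ = Rk c φ + Rk c' φ := by
  ext l j; simp [Rk, add_mul]

theorem Rk_add_right (c φ φ' : Fin n → ℂ) : Rk c (φ + φ') = Rk c φ + Rk c φ' := by
  ext l j; simp [Rk, mul_add]

theorem Rk_smul_left (a : ℂ) (c φ : Fin n → ℂ) : Rk (a • c) φ = a • Rk c φ := by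
  ext l j; simp [Rk, mul_assoc]

theorem Rk_smul_right (a : ℂ) (c φ : Fin n → ℂ) : Rk c (a • φ) = a • Rk c φ := by
  ext l j; simp [Rk]; ring

/-- closedness under polynomial families -/
def Fam (M : Set (Matrix (Fin n) (Fin n) ℂ)) : Prop :=
  ∀ (A : Matrix (Fin n) (Fin n) (Polynomial ℂ)) (D : Set ℂ), D.Infinite → (∀ s ∈ D, A.map (Polynomial.eval s) ∈ M) →
    ∀ s, A.map (Polynomial.eval s) ∈ M

theorem Fam.quad {M : Set (Matrix (Fin n) (Fin n) ℂ)} (hM : Fam M) (A B C : Matrix (Fin n) (Fin n) ℂ) {D : Set ℂ}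
    (hD : D.Infinite) (h : ∀ s ∈ D, A + s • B + s ^ 2 • C ∈ M) (s : ℂ) : A + s • B + s ^ 2 • C ∈ M := by
  have e : ∀ s : ℂ, (A.map Polynomial.C + (Polynomial.X : Polynomial ℂ) • B.map Polynomial.C +
      (Polynomial.X ^ 2 : Polynomial ℂ) • C.map Polynomial.C).map (Polynomial.eval s) = A + s • B + s ^ 2 • C := by
    intro s
    ext l j
    simp
    ring
  rw [← e]
  exact hM _ D hD (fun s hs => by rw [e]; exact h s hs) s

theorem Fam.lin {M : Set (Matrix (Fin n) (Fin n) ℂ)} (hM : Fam M) (A B : Matrix (Fin n) (Fin n) ℂ) {D : Set ℂ}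
    (hD : D.Infinite) (h : ∀ s ∈ D, A + s • B ∈ M) (s : ℂ) : A + s • B ∈ M := by
  have h1 := hM.quad A B 0 hD (fun s hs => by rw [smul_zero, add_zero]; exact h s hs) s
  rwa [smul_zero, add_zero] at h1

/-- the set of `s` with `r + s a ≠ 0` is infinite -/
theorem infinite_ne (b a : ℂ) (hab : b ≠ 0 ∨ a ≠ 0) : {s : ℂ | b + s * a ≠ 0}.Infinite := by
  have h : {s : ℂ | b + s * a = 0}.Finite := by
    by_cases ha : a = 0
    · have : {s : ℂ | b + s * a = 0} = ∅ := by
        ext s
        simp [ha]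
        rcases hab with h | h
        · exact h
        · exact absurd ha h
      rw [this]; exact Set.finite_empty
    · refine (Set.finite_singleton (-b / a)).subset fun s hs => ?_
      rw [Set.mem_singleton_iff, eq_div_iff ha]
      have : b + s * a = 0 := hs
      linear_combination this
  have h2 : {s : ℂ | b + s * a ≠ 0} = {s : ℂ | b + s * a = 0}ᶜ := by ext s; simp
  rw [h2]
  exact h.infinite_compl

variable {M : Submonoid (Matrix (Fin n) (Fin n) ℂ)}

/-- the functionals which belong to `c` -/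
def Ph (M : Submonoid (Matrix (Fin n) (Fin n) ℂ)) (c : Fin n → ℂ) : Set (Fin n → ℂ) :=
  {φ | ∀ s : ℂ, 1 + s • Rk c φ ∈ M}

theorem Ph_smul {c φ : Fin n → ℂ} (h : φ ∈ Ph M c) (a : ℂ) : a • φ ∈ Ph M c := by
  intro s
  rw [Rk_smul_right, smul_smul]
  exact h _

theorem Ph_add (hM : Fam (M : Set (Matrix (Fin n) (Fin n) ℂ))) {c φ ψ : Fin n → ℂ} (h1 : φ ∈ Ph M c)
    (h2 : ψ ∈ Ph M c) : φ + ψ ∈ Ph M c := by
  intro s
  refine hM.lin 1 (Rk c (φ + ψ)) (infinite_ne 1 (dt φ c) (Or.inl one_ne_zero)) (fun s hs => ?_) s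
  have hs' : 1 + s * dt φ c ≠ 0 := hs
  have h3 := M.mul_mem (h1 s) (h2 (s / (1 + s * dt φ c)))
  have h4 : (1 + s • Rk c φ) * (1 + (s / (1 + s * dt φ c)) • Rk c ψ) = 1 + s • Rk c (φ + ψ) := by
    rw [mul_add, add_mul, add_mul, mul_one, one_mul, mul_one, smul_mul_smul_comm, Rk_mul, Rk_add_right, smul_add,
      Rk_smul_left, smul_smul]
    have h5 : (s / (1 + s * dt φ c)) • Rk c ψ + (s * (s / (1 + s * dt φ c)) * dt φ c) • Rk c ψ = s • Rk c ψ := by
      rw [← add_smul]
      congr 1
      field_simp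
    rw [← h5]
    abel
  rw [h4] at h3
  exact h3

theorem conj_eq (c φ b ψ : Fin n → ℂ) {a a' t : ℂ} (h : a + a' + a * a' * dt φ c = 0) :
    (1 + a • Rk c φ) * (1 + t • Rk b ψ) * (1 + a' • Rk c φ) =
      1 + t • Rk (b + (a * dt φ b) • c) (ψ + (a' * dt ψ c) • φ) := by
  have h1 : (1 + a • Rk c φ) * (1 + a' • Rk c φ) = 1 := by
    rw [mul_add, add_mul, add_mul, mul_one, one_mul, mul_one, smul_mul_smul_comm, Rk_mul, Rk_smul_left, smul_smul]
    have h5 : a • Rk c φ + a' • Rk c φ + (a * a' * dt φ c) • Rk c φ = 0 := by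
      rw [← add_smul, ← add_smul, h, zero_smul]
    have h6 : a • Rk c φ + (a' • Rk c φ + (a * a' * dt φ c) • Rk c φ) = 0 := by rw [← add_assoc]; exact h5
    calc _ = 1 + (a • Rk c φ + (a' • Rk c φ + (a * a' * dt φ c) • Rk c φ)) := by abel
      _ = 1 := by rw [h6, add_zero]
  have h2 : (1 + a • Rk c φ) * (t • Rk b ψ) * (1 + a' • Rk c φ) =
      t • Rk (b + (a * dt φ b) • c) (ψ + (a' * dt ψ c) • φ) := by
    rw [mul_smul_comm, smul_mul_assoc]
    congr 1
    rw [add_mul, one_mul, smul_mul_assoc, Rk_mul, ← Rk_smul_left, smul_smul, ← Rk_add_left, mul_add, mul_one,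
      mul_smul_comm, Rk_mul, Rk_add_right, Rk_smul_right, Rk_smul_left, smul_smul]
  rw [mul_add (1 + a • Rk c φ), add_mul, mul_one, h1, h2]

theorem Ph_conj (hM : Fam (M : Set (Matrix (Fin n) (Fin n) ℂ))) {c φ b ψ : Fin n → ℂ} (h1 : φ ∈ Ph M c)
    (h2 : ψ ∈ Ph M b) (hb : dt φ b ≠ 0) (hc : dt φ c ≠ 0) : ψ ∈ Ph M c := by
  set β := dt φ b with hβ
  set γ := dt φ c with hγ
  set δ := dt ψ c with hδ
  have h3 : (γ • ψ - δ • φ) ∈ Ph M c := by
    intro τ'
    -- apply the quadratic family at `0`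
    set τ := τ' / β with hτ
    have key := hM.quad (1 + τ • Rk (β • c) (γ • ψ - δ • φ))
      (τ • (Rk b (γ • ψ - δ • φ) + Rk (β • c) ψ)) (τ • Rk b ψ)
      (D := {r : ℂ | r ≠ 0 ∧ r + γ ≠ 0}) (by
        have h4 : {r : ℂ | r ≠ 0 ∧ r + γ ≠ 0} = ({0, -γ} : Set ℂ)ᶜ := by
          ext r
          simp [add_eq_zero_iff_eq_neg]
        rw [h4]
        exact (Set.toFinite _).infinite_compl) (fun r hr => ?_) 0
    · have h5 : (0 : ℂ) • (τ • (Rk b (γ • ψ - δ • φ) + Rk (β • c) ψ)) = 0 := zero_smul _ _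
      have h6 : (0 : ℂ) ^ 2 • (τ • Rk b ψ) = 0 := by rw [zero_pow two_ne_zero, zero_smul]
      rw [h5, h6, add_zero, add_zero, Rk_smul_left, smul_smul, hτ, div_mul_cancel₀ _ hb] at key
      exact key
    · obtain ⟨hr0, hr1⟩ := hr
      have h5 : (1 / r) + (-(1 / (r + γ))) + (1 / r) * (-(1 / (r + γ))) * dt φ c = 0 := by
        rw [← hγ]
        field_simp
        ring
      have h6 := M.mul_mem (M.mul_mem (h1 (1 / r)) (h2 (τ * (r * (r + γ))))) (h1 (-(1 / (r + γ))))
      rw [conj_eq c φ b ψ h5] at h6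
      have h7 : (τ * (r * (r + γ))) • Rk (b + (1 / r * dt φ b) • c) (ψ + (-(1 / (r + γ)) * dt ψ c) • φ) =
          τ • Rk (r • b + β • c) ((r + γ) • ψ - δ • φ) := by
        have e1 : r • b + β • c = r • (b + (1 / r * dt φ b) • c) := by
          rw [smul_add, smul_smul, ← hβ]
          congr 2
          field_simp
        have e2 : (r + γ) • ψ - δ • φ = (r + γ) • (ψ + (-(1 / (r + γ)) * dt ψ c) • φ) := by
          rw [smul_add, smul_smul, ← hδ, sub_eq_add_neg, ← neg_smul]
          congr 2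
          field_simp
        rw [e1, e2, Rk_smul_left, Rk_smul_right, smul_smul, smul_smul, mul_assoc]
      rw [h7] at h6
      have h8 : 1 + τ • Rk (β • c) (γ • ψ - δ • φ) + r • (τ • (Rk b (γ • ψ - δ • φ) + Rk (β • c) ψ)) +
          r ^ 2 • (τ • Rk b ψ) = 1 + τ • Rk (r • b + β • c) ((r + γ) • ψ - δ • φ) := by
        ext l j
        simp only [Matrix.add_apply, Matrix.smul_apply, Rk, Matrix.of_apply, Pi.add_apply, Pi.smul_apply,
          Pi.sub_apply, smul_eq_mul]
        ring
      rw [h8]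
      exact h6
  have h4 := Ph_add hM h3 (Ph_smul h1 δ)
  rw [sub_add_cancel] at h4
  have h5 := Ph_smul h4 γ⁻¹
  rw [smul_smul, inv_mul_cancel₀ hc, one_smul] at h5
  exact h5

/-- the vectors to which all functionals belong -/
def Cv (M : Submonoid (Matrix (Fin n) (Fin n) ℂ)) (hM : Fam (M : Set (Matrix (Fin n) (Fin n) ℂ))) :
    Submodule ℂ (Fin n → ℂ) where
  carrier := {c | ∀ φ, φ ∈ Ph M c}
  zero_mem' := by
    intro φ s
    have : Rk (0 : Fin n → ℂ) φ = 0 := by ext l j; simp [Rk]
    rw [this, smul_zero, add_zero]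
    exact M.one_mem
  smul_mem' := by
    intro a c hc φ s
    rw [Rk_smul_left, smul_smul]
    exact hc φ _
  add_mem' := by
    intro c c' hc hc' φ s
    refine hM.lin 1 (Rk (c + c') φ) (infinite_ne 1 (dt φ c') (Or.inl one_ne_zero)) (fun s hs => ?_) s
    have hs' : 1 + s * dt φ c' ≠ 0 := hs
    have h3 := M.mul_mem (hc φ (s / (1 + s * dt φ c'))) (hc' φ s)
    have h4 : (1 + (s / (1 + s * dt φ c')) • Rk c φ) * (1 + s • Rk c' φ) = 1 + s • Rk (c + c') φ := by
      rw [mul_add, add_mul, add_mul, mul_one, one_mul, mul_one, smul_mul_smul_comm, Rk_mul, Rk_add_left, smul_add,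
        Rk_smul_left, smul_smul]
      have h5 : (s / (1 + s * dt φ c')) • Rk c φ + (s / (1 + s * dt φ c') * s * dt φ c') • Rk c φ = s • Rk c φ := by
        rw [← add_smul]
        congr 1
        field_simp
      rw [← h5]
      abel
    rw [h4] at h3
    exact h3

theorem Rk_single (i j : Fin n) : Rk (Pi.single i 1) (Pi.single j 1) = Matrix.single i j (1 : ℂ) := by
  ext l m
  simp only [Rk, Matrix.of_apply, Matrix.single_apply, Pi.single_apply]
  by_cases h1 : l = i
  · by_cases h2 : m = j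
    · simp [h1, h2]
    · have h3 : ¬ (i = l ∧ j = m) := fun h => h2 h.2.symm
      simp [h2, h3]
  · have h3 : ¬ (i = l ∧ j = m) := fun h => h1 h.1.symm
    simp [h1, h3]

theorem mem_of_all (h : ∀ c φ : Fin n → ℂ, φ ∈ Ph M c) (g : Matrix (Fin n) (Fin n) ℂ) : g ∈ M := by
  refine Matrix.diagonal_transvection_induction (fun g => g ∈ M) g (fun D _ => ?_) (fun t => ?_)
    (fun A B hA hB => M.mul_mem hA hB)
  · have h1 : ∀ s : Finset (Fin n), Matrix.diagonal (fun i => if i ∈ s then D i else 1) ∈ M := by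
      intro s
      induction s using Finset.induction_on with
      | empty => simp only [Finset.notMem_empty, if_false]; rw [Matrix.diagonal_one]; exact M.one_mem
      | insert a s ha ih =>
        have h2 := M.mul_mem (h (Pi.single a 1) (Pi.single a 1) (D a - 1)) ih
        have h3 : (1 + (D a - 1) • Rk (Pi.single a 1) (Pi.single a 1)) *
            Matrix.diagonal (fun i => if i ∈ s then D i else 1) =
            Matrix.diagonal (fun i => if i ∈ insert a s then D i else 1) := by
          have h4 : (1 + (D a - 1) • Rk (Pi.single a 1) (Pi.single a 1) : Matrix (Fin n) (Fin n) ℂ) =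
              Matrix.diagonal (fun i => if i = a then D a else 1) := by
            ext l m
            simp only [Matrix.add_apply, Matrix.smul_apply, Rk, Matrix.of_apply, Pi.single_apply, smul_eq_mul,
              Matrix.one_apply, Matrix.diagonal_apply]
            by_cases h5 : l = m
            · subst h5
              by_cases h6 : l = a
              · simp [h6]
              · simp [h6]
            · by_cases h6 : l = a
              · have h7 : m ≠ a := fun h => h5 (h6.trans h.symm)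
                simp [h5, h7]
              · simp [h5, h6]
          rw [h4, Matrix.diagonal_mul_diagonal]
          congr 1
          funext i
          by_cases h5 : i = a
          · subst h5
            simp [ha]
          · simp [h5]
        rw [← h3]
        exact h2
    have h2 := h1 Finset.univ
    simpa using h2
  · have h2 := h (Pi.single t.i 1) (Pi.single t.j 1) t.c
    rw [Rk_single] at h2
    have h3 : t.toMatrix = 1 + t.c • Matrix.single t.i t.j (1 : ℂ) := by
      rw [Matrix.TransvectionStruct.toMatrix, Matrix.transvection, Matrix.smul_single, smul_eq_mul, mul_one]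
    rw [h3]
    exact h2

/-- a closed monoid which contains enough rank one perturbations of the identity -/
theorem all_of (hM : Fam (M : Set (Matrix (Fin n) (Fin n) ℂ))) (c : Fin n → Fin n → ℂ)
    (hspan : Submodule.span ℂ (Set.range c) = ⊤) (h : ∀ k, Pi.single k 1 ∈ Ph M (c k))
    (hd : ∀ k, c k k ≠ 0) (hadj : ∀ k k' : Fin n, (k' : ℕ) = k + 1 → c k' k ≠ 0 ∧ c k k' ≠ 0)
    (g : Matrix (Fin n) (Fin n) ℂ) : g ∈ M := by
  have hdt : ∀ (k : Fin n) (c : Fin n → ℂ), dt (Pi.single k 1) c = c k := by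
    intro k c
    simp [dt, Pi.single_apply]
  have hstep : ∀ k k' : Fin n, (k' : ℕ) = k + 1 → Ph M (c k) = Ph M (c k') := by
    intro k k' hk
    obtain ⟨h1, h2⟩ := hadj k k' hk
    apply Set.Subset.antisymm
    · intro ψ hψ
      exact Ph_conj hM (h k') hψ (by rw [hdt]; exact h2) (by rw [hdt]; exact hd k')
    · intro ψ hψ
      exact Ph_conj hM (h k) hψ (by rw [hdt]; exact h1) (by rw [hdt]; exact hd k)
  have hall : ∀ (m : ℕ) (k k' : Fin n), (k' : ℕ) = k + m → Ph M (c k) = Ph M (c k') := by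
    intro m
    induction m with
    | zero => intro k k' hk; rw [show k' = k from Fin.ext (by simpa using hk)]
    | succ m ih =>
      intro k k' hk
      have h1 : (k : ℕ) + m < n := by have := k'.2; omega
      rw [ih k ⟨k + m, h1⟩ rfl]
      exact hstep _ _ (by simp; omega)
  have heq : ∀ k k' : Fin n, Ph M (c k) = Ph M (c k') := by
    intro k k'
    rcases le_total k k' with h1 | h1
    · exact hall (k' - k : ℕ) k k' (by have : (k : ℕ) ≤ k' := h1; omega)
    · exact (hall (k - k' : ℕ) k' k (by have : (k' : ℕ) ≤ k := h1; omega)).symm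
  have hPh : ∀ k φ, φ ∈ Ph M (c k) := by
    intro k φ
    have h1 : φ = ∑ k', φ k' • (Pi.single k' 1 : Fin n → ℂ) := by
      funext j
      simp [Finset.sum_apply, Pi.single_apply]
    rw [h1]
    refine Finset.sum_induction _ (fun x => x ∈ Ph M (c k)) (fun a b ha hb => Ph_add hM ha hb) ?_ fun k' _ => ?_
    · have h2 := Ph_smul (h k) 0
      rw [zero_smul, heq k k] at h2
      exact h2
    · rw [heq k k']
      exact Ph_smul (h k') _
  have hC : Cv M hM = ⊤ := by
    rw [eq_top_iff, ← hspan, Submodule.span_le]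
    rintro _ ⟨k, rfl⟩
    exact hPh k
  refine mem_of_all (fun c φ => ?_) g
  have : c ∈ Cv M hM := by rw [hC]; trivial
  exact this φ

end Pool.Agent.Run7.h659.SE
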