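import Pool.Agent.Run7.h659.SE5
import Pool.Agent.Run7.h659.SE6

/-!
# Integrals between consecutive points: for good exponents the relations are preserved by all matrices
-/

set_option autoImplicit false
set_option linter.unusedSectionVars false

open Complex

namespace Pool.Agent.Run7.h659.SE

variable {n : ℕ} {ι : Type}

/-- the vectors of the monodromy -/
noncomputable def ck (x : Fin (n + 1) → ℂ) (k : Fin n) : Fin n → ℂ := vv (x k.castSucc) (x k.succ) k

/-- the recursion has only the zero solution -/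
theorem rec_zero {x W : ℕ → ℂ} {n : ℕ} (h0 : W 0 = 0) (hn : W (n + 1) = 0) (hx : ∀ i ≤ n, x i ^ 2 ≠ 1)
    (hx0 : ∀ i ≤ n, x i ≠ 0) (hp : ∏ i ∈ Finset.range (n + 1), x i ^ 2 ≠ 1)
    (h : ∀ k < n, W k * (x k * (1 - x (k + 1) ^ 2)) + W (k + 1) * ((x k * x (k + 1)) ^ 2 - 1) +
      W (k + 2) * (x (k + 1) * (1 - x k ^ 2)) = 0) : ∀ m ≤ n, W (m + 1) = 0 := by
  have hB : ∀ k ≤ n, (W k * x k - W (k + 1)) * (∏ i ∈ Finset.range k, x (i + 1)) * (1 - x 0 ^ 2) =
      -(W 1 * (1 - x k ^ 2)) := by
    intro k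
    induction k with
    | zero => intro _; rw [h0]; simp
    | succ k ih =>
      intro hk
      have h1 := ih (by omega)
      have h2 := h k (by omega)
      have h3 : 1 - x k ^ 2 ≠ 0 := sub_ne_zero.2 (hx k (by omega)).symm
      apply mul_right_cancel₀ h3
      rw [Finset.prod_range_succ]
      linear_combination (1 - x (k + 1) ^ 2) * h1 -
        (∏ i ∈ Finset.range k, x (i + 1)) * (1 - x 0 ^ 2) * h2
  have hA : ∀ k ≤ n, W (k + 1) * (∏ i ∈ Finset.range k, x (i + 1)) * (1 - x 0 ^ 2) =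
      W 1 * (1 - ∏ i ∈ Finset.range (k + 1), x i ^ 2) := by
    intro k
    induction k with
    | zero => intro _; simp
    | succ k ih =>
      intro hk
      have h1 := ih (by omega)
      have h2 := hB (k + 1) hk
      rw [Finset.prod_range_succ _ (k + 1)]
      rw [Finset.prod_range_succ] at h2 ⊢
      linear_combination x (k + 1) ^ 2 * h1 - h2
  have h1 : W 1 = 0 := by
    have h2 := hA n le_rfl
    rw [hn, zero_mul, zero_mul] at h2
    rcases mul_eq_zero.1 h2.symm with h3 | h3
    · exact h3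
    · exact absurd (sub_eq_zero.1 h3).symm hp
  intro m hm
  have h2 := hA m hm
  rw [h1, zero_mul] at h2
  rcases mul_eq_zero.1 h2 with h3 | h3
  · rcases mul_eq_zero.1 h3 with h4 | h4
    · exact h4
    · exfalso
      rw [Finset.prod_eq_zero_iff] at h4
      obtain ⟨i, hi, h5⟩ := h4
      exact hx0 (i + 1) (by have := Finset.mem_range.1 hi; omega) h5
  · exact absurd (sub_eq_zero.1 h3).symm (hx 0 (Nat.zero_le _))

theorem sum_three (W : ℕ → ℂ) (n k : ℕ) (hk : k < n) (a b c : ℂ) (h0 : W 0 = 0) (hn : W (n + 1) = 0) :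
    ∑ l ∈ Finset.range n, W (l + 1) * (if l + 1 = k then a else if l = k then b else if l = k + 1 then c else 0) =
      W k * a + W (k + 1) * b + W (k + 2) * c := by
  have h1 : ∀ l, W (l + 1) * (if l + 1 = k then a else if l = k then b else if l = k + 1 then c else 0) =
      (if l + 1 = k then W (l + 1) * a else 0) + (if l = k then W (l + 1) * b else 0) +
        (if l = k + 1 then W (l + 1) * c else 0) := by
    intro l
    by_cases c1 : l + 1 = k
    · have c2 : ¬ l = k := by omega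
      have c3 : ¬ l = k + 1 := by omega
      simp [c1, c2, c3]
    · by_cases c2 : l = k
      · simp [c2]
      · by_cases c3 : l = k + 1
        · have c4 : ¬ k + 1 + 1 = k := by omega
          simp [c3, c4]
        · simp [c1, c2, c3]
  simp only [h1, Finset.sum_add_distrib]
  have s2 : ∑ l ∈ Finset.range n, (if l = k then W (l + 1) * b else 0) = W (k + 1) * b := by
    rw [Finset.sum_ite_eq' (Finset.range n) k (fun l => W (l + 1) * b), if_pos (Finset.mem_range.2 hk)]
  have s3 : ∑ l ∈ Finset.range n, (if l = k + 1 then W (l + 1) * c else 0) = W (k + 2) * c := by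
    rw [Finset.sum_ite_eq' (Finset.range n) (k + 1) (fun l => W (l + 1) * c)]
    split_ifs with h
    · rfl
    · have : k + 1 = n := by
        have : ¬ k + 1 < n := fun h' => h (Finset.mem_range.2 h')
        omega
      rw [show k + 2 = n + 1 by omega, hn, zero_mul]
  have s1 : ∑ l ∈ Finset.range n, (if l + 1 = k then W (l + 1) * a else 0) = W k * a := by
    rcases k with _ | k
    · rw [h0, zero_mul]
      refine Finset.sum_eq_zero fun l _ => ?_
      rw [if_neg (by omega)]
    · have h2 : ∀ l, (if l + 1 = k + 1 then W (l + 1) * a else 0) = if l = k then W (l + 1) * a else 0 := by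
        intro l
        simp
      simp only [h2]
      rw [Finset.sum_ite_eq' (Finset.range n) k (fun l => W (l + 1) * a), if_pos (Finset.mem_range.2 (by omega))]
  rw [s1, s2, s3]

/-- the vectors span -/
theorem ck_span (x : Fin (n + 1) → ℂ) (hx : ∀ i, x i ^ 2 ≠ 1) (hx0 : ∀ i, x i ≠ 0) (hp : ∏ i, x i ^ 2 ≠ 1) :
    Submodule.span ℂ (Set.range (ck x)) = ⊤ := by
  have hdet : (Matrix.of (ck x)).det ≠ 0 := by
    intro hdet
    obtain ⟨w, hw0, hw⟩ := Matrix.exists_mulVec_eq_zero_iff.2 hdet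
    apply hw0
    set W : ℕ → ℂ := fun m => if h : 1 ≤ m ∧ m ≤ n then w ⟨m - 1, by omega⟩ else 0 with hW
    set x' : ℕ → ℂ := fun m => if h : m < n + 1 then x ⟨m, h⟩ else 0 with hx'
    have hW0 : W 0 = 0 := by simp [hW]
    have hWn : W (n + 1) = 0 := by simp [hW]
    have hWl : ∀ l : Fin n, W ((l : ℕ) + 1) = w l := by
      intro l
      have : 1 ≤ (l : ℕ) + 1 ∧ (l : ℕ) + 1 ≤ n := ⟨by omega, l.2⟩
      simp only [hW, this, and_self, dif_pos]
      rfl
    have hxl : ∀ l : Fin (n + 1), x' (l : ℕ) = x l := by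
      intro l
      simp only [hx']
      rw [dif_pos l.2]
    have hprod : ∏ i ∈ Finset.range (n + 1), x' i ^ 2 = ∏ i, x i ^ 2 := by
      rw [← Fin.prod_univ_eq_prod_range (fun i => x' i ^ 2) (n + 1)]
      refine Finset.prod_congr rfl fun i _ => by rw [hxl]
    have h1 := rec_zero (x := x') (W := W) (n := n) hW0 hWn
      (fun i hi => by rw [show x' i = x ⟨i, by omega⟩ from hxl ⟨i, by omega⟩]; exact hx _)
      (fun i hi => by rw [show x' i = x ⟨i, by omega⟩ from hxl ⟨i, by omega⟩]; exact hx0 _)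
      (by rw [hprod]; exact hp)
      (by
        intro k hk
        have h2 := congrFun hw ⟨k, hk⟩
        simp only [Matrix.mulVec, dotProduct, Matrix.of_apply, Pi.zero_apply] at h2
        rw [← sum_three W n k hk _ _ _ hW0 hWn]
        refine Eq.trans ?_ h2
        rw [← Fin.sum_univ_eq_sum_range (fun l => W (l + 1) * (if l + 1 = k then x' k * (1 - x' (k + 1) ^ 2) else
            if l = k then (x' k * x' (k + 1)) ^ 2 - 1 else if l = k + 1 then x' (k + 1) * (1 - x' k ^ 2) else 0)) n]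
        refine Finset.sum_congr rfl fun l _ => ?_
        rw [hWl, mul_comm]
        congr 1
        unfold ck vv
        have e1 : x (Fin.castSucc ⟨k, hk⟩) = x' k := (hxl (Fin.castSucc ⟨k, hk⟩)).symm
        have e2 : x (Fin.succ ⟨k, hk⟩) = x' (k + 1) := (hxl (Fin.succ ⟨k, hk⟩)).symm
        rw [e1, e2]
        simp only [Fin.ext_iff])
    funext l
    rw [← hWl]
    exact h1 l (by omega)
  have h1 : LinearIndependent ℂ (Matrix.of (ck x)).row :=
    Matrix.linearIndependent_rows_iff_isUnit.2 ((Matrix.isUnit_iff_isUnit_det _).2 (isUnit_iff_ne_zero.2 hdet))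
  have h2 : (Matrix.of (ck x)).row = ck x := rfl
  rw [h2] at h1
  exact h1.span_eq_top_of_card_eq_finrank' (by simp)

theorem Ek_eq (k : Fin n) (U : Fin n → ℂ) : Ek k U = Rk U (Pi.single k 1) := by
  ext l c
  simp [Ek, Rk, Pi.single_apply]

theorem Tk_eq (k : Fin n) (s : ℂ) (U : Fin n → ℂ) : Tk k (fun l => s * U l) = 1 + s • Rk U (Pi.single k 1) := by
  unfold Tk
  rw [Ek_eq, ← Rk_smul_left]
  rfl

theorem Tk_pow (k : Fin n) (q : ℂ) (hq : q ≠ 1) (v : Fin n → ℂ) (hv : v k = q - 1) (m : ℕ) :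
    Tk k v ^ m = Tk k fun l => (q ^ m - 1) / (q - 1) * v l := by
  have hq' : q - 1 ≠ 0 := sub_ne_zero.2 hq
  induction m with
  | zero =>
    rw [pow_zero, ← Tk_zero k]
    congr 1
    funext l
    simp
  | succ m ih =>
    rw [pow_succ, ih, Tk_mul]
    congr 1
    funext l
    rw [hv]
    field_simp
    ring

/-- powers of multiplicatively independent numbers are Zariski dense -/
theorem dense_pow [Fintype ι] (q : ι → ℂ) (hq : ∀ α β : ι →₀ ℕ, ∏ i, q i ^ α i = ∏ i, q i ^ β i → α = β)
    (p : MvPolynomial ι ℂ) (hp : ∀ s ∈ Set.range (fun (m : ℕ) (i : ι) => q i ^ m), MvPolynomial.eval s p = 0) :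
    p = 0 := by
  classical
  set θ : (ι →₀ ℕ) → ℂ := fun α => ∏ i, q i ^ α i with hθ
  have h1 : ∀ m : ℕ, ∑ α ∈ p.support, p.coeff α * θ α ^ m = 0 := by
    intro m
    rw [← hp _ ⟨m, rfl⟩, MvPolynomial.eval_eq']
    refine Finset.sum_congr rfl fun α _ => ?_
    rw [hθ]
    simp only []
    rw [← Finset.prod_pow]
    congr 1
    refine Finset.prod_congr rfl fun i _ => ?_
    rw [← pow_mul, ← pow_mul, mul_comm]
  have h2 : ∀ g : Polynomial ℂ, ∑ α ∈ p.support, p.coeff α * g.eval (θ α) = 0 := by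
    intro g
    have : ∀ α, p.coeff α * g.eval (θ α) = ∑ j ∈ Finset.range (g.natDegree + 1), g.coeff j * (p.coeff α * θ α ^ j) := by
      intro α
      rw [Polynomial.eval_eq_sum_range, Finset.mul_sum]
      refine Finset.sum_congr rfl fun j _ => by ring
    simp only [this]
    rw [Finset.sum_comm]
    refine Finset.sum_eq_zero fun j _ => ?_
    rw [← Finset.mul_sum, h1, mul_zero]
  ext α
  rw [MvPolynomial.coeff_zero]
  by_contra hα
  have hα' : α ∈ p.support := MvPolynomial.mem_support_iff.2 hα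
  have h3 := h2 (∏ β ∈ p.support.erase α, (Polynomial.X - Polynomial.C (θ β)))
  rw [Finset.sum_eq_single α] at h3
  · rcases mul_eq_zero.1 h3 with h4 | h4
    · exact hα h4
    · rw [Polynomial.eval_prod, Finset.prod_eq_zero_iff] at h4
      obtain ⟨β, hβ, h5⟩ := h4
      rw [Polynomial.eval_sub, Polynomial.eval_X, Polynomial.eval_C, sub_eq_zero] at h5
      exact (Finset.mem_erase.1 hβ).1 (hq α β h5).symm
  · intro β hβ hne
    rw [Polynomial.eval_prod, Finset.prod_eq_zero (Finset.mem_erase.2 ⟨hne, hβ⟩), mul_zero]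
    simp
  · intro h; exact absurd hα' h

/-- good exponents -/
structure Good [Fintype ι] (ν : ι → Fin (n + 1) → ℝ) : Prop where
  mem : ∀ i k, ν i k ∈ Set.Ioo (0 : ℝ) 1
  sum : ∀ i (b : ℤ), ∑ k, ν i k ≠ b
  ind : ∀ (k : Fin n) (α : ι → ℤ), α ≠ 0 → ∀ b : ℤ, ∑ i, (α i : ℝ) * (ν i k.castSucc + ν i k.succ) ≠ b

theorem exp_eq_one_real {r : ℝ} (h : exp (2 * Real.pi * r * I) = 1) : ∃ b : ℤ, r = b := by
  rw [exp_eq_one_iff] at h
  obtain ⟨b, hb⟩ := h
  refine ⟨b, ?_⟩
  have h1 : (2 * Real.pi * I : ℂ) ≠ 0 := by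
    simp [Real.pi_ne_zero]
  have h2 : (r : ℂ) = b := by
    apply mul_right_cancel₀ h1
    rw [← hb]; ring
  exact_mod_cast h2

theorem sq_exI (r : ℝ) : exp (Real.pi * r * I) ^ 2 = exp (2 * Real.pi * r * I) := by
  rw [← exp_nat_mul]
  congr 1
  push_cast; ring

section

variable [Fintype ι] [DecidableEq ι]

/-- the part of the monoid in one place -/
noncomputable def Mi (ν : ι → Fin (n + 1) → ℝ) (i : ι) : Submonoid (Matrix (Fin n) (Fin n) ℂ) :=
  (Mon ν).comap (MonoidHom.mulSingle (fun _ => Matrix (Fin n) (Fin n) ℂ) i)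

theorem mem_Mi {ν : ι → Fin (n + 1) → ℝ} {i : ι} {g : Matrix (Fin n) (Fin n) ℂ} :
    g ∈ Mi ν i ↔ (Pi.mulSingle i g : ι → Matrix (Fin n) (Fin n) ℂ) ∈ Mon ν := Iff.rfl

theorem fam_Mi (ν : ι → Fin (n + 1) → ℝ) (i : ι) : Fam (Mi ν i : Set (Matrix (Fin n) (Fin n) ℂ)) := by
  intro A D hD h s
  show (Pi.mulSingle i (A.map (Polynomial.eval s)) : ι → Matrix (Fin n) (Fin n) ℂ) ∈ Mon ν
  have e : ∀ s, (Pi.mulSingle i (A.map (Polynomial.eval s)) : ι → Matrix (Fin n) (Fin n) ℂ) =
      fun i' => ((Pi.mulSingle i A : ι → Matrix (Fin n) (Fin n) (Polynomial ℂ)) i').map (Polynomial.eval s) := by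
    intro s
    funext i'
    by_cases h1 : i' = i
    · subst h1
      simp
    · rw [Pi.mulSingle_eq_of_ne h1, Pi.mulSingle_eq_of_ne h1]
      ext l j
      simp only [Matrix.map_apply, Matrix.one_apply]
      split_ifs <;> simp
  rw [e]
  refine Zcl.family1 (zcl_Mon ν) _ hD (fun s hs => ?_) s
  rw [← e]
  exact h s hs

theorem pseudo_mem {ν : ι → Fin (n + 1) → ℝ} (hν : Good ν) (i : ι) (k : Fin n) (s : ℂ) :
    1 + s • Rk (ck (fun k' => exp (Real.pi * ν i k' * I)) k) (Pi.single k 1) ∈ Mi ν i := by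
  set x : ι → Fin (n + 1) → ℂ := fun i k' => exp (Real.pi * ν i k' * I) with hx
  set q : ι → ℂ := fun i => (x i k.castSucc * x i k.succ) ^ 2 with hq
  have hqe : ∀ i, q i = exp (2 * Real.pi * ((ν i k.castSucc + ν i k.succ : ℝ) : ℂ) * I) := by
    intro i
    simp only [hq, hx]
    rw [mul_pow, sq_exI, sq_exI, ← exp_add]
    congr 1
    push_cast; ring
  have hq1 : ∀ i, q i ≠ 1 := by
    intro i h
    rw [hqe] at h
    obtain ⟨b, hb⟩ := exp_eq_one_real h
    have h2 := hν.ind k (Pi.single i 1) (by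
      intro h3
      have := congrFun h3 i
      simp at this) b
    apply h2
    rw [Finset.sum_eq_single i]
    · simp [hb]
    · intro i' _ hne
      simp [Pi.single_eq_of_ne hne]
    · intro h; exact absurd (Finset.mem_univ i) h
  have hqi : ∀ α β : ι →₀ ℕ, ∏ i, q i ^ α i = ∏ i, q i ^ β i → α = β := by
    intro α β h
    by_contra hne
    have h1 : ∀ γ : ι →₀ ℕ, ∏ i, q i ^ γ i =
        exp (2 * Real.pi * ((∑ i, (γ i : ℝ) * (ν i k.castSucc + ν i k.succ) : ℝ) : ℂ) * I) := by
      intro γ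
      have : ∀ i, q i ^ γ i = exp ((γ i : ℂ) * (2 * Real.pi * ((ν i k.castSucc + ν i k.succ : ℝ) : ℂ) * I)) := by
        intro i
        rw [hqe, exp_nat_mul]
      simp only [this]
      rw [← exp_sum]
      congr 1
      push_cast
      rw [Finset.mul_sum, Finset.sum_mul]
      refine Finset.sum_congr rfl fun i _ => by ring
    have h2 : exp (2 * Real.pi * ((∑ i, (((α i : ℤ) - (β i : ℤ) : ℤ) : ℝ) * (ν i k.castSucc + ν i k.succ) : ℝ) : ℂ) * I) = 1 := by
      have h3 : (2 * Real.pi * ((∑ i, (((α i : ℤ) - (β i : ℤ) : ℤ) : ℝ) * (ν i k.castSucc + ν i k.succ) : ℝ) : ℂ) * I : ℂ) =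
          2 * Real.pi * ((∑ i, (α i : ℝ) * (ν i k.castSucc + ν i k.succ) : ℝ) : ℂ) * I -
          2 * Real.pi * ((∑ i, (β i : ℝ) * (ν i k.castSucc + ν i k.succ) : ℝ) : ℂ) * I := by
        have h4 : (∑ i, (((α i : ℤ) - (β i : ℤ) : ℤ) : ℝ) * (ν i k.castSucc + ν i k.succ)) =
            (∑ i, (α i : ℝ) * (ν i k.castSucc + ν i k.succ)) - ∑ i, (β i : ℝ) * (ν i k.castSucc + ν i k.succ) := by
          rw [← Finset.sum_sub_distrib]
          refine Finset.sum_congr rfl fun i _ => ?_
          push_cast; ring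
        rw [h4, ofReal_sub]
        ring
      rw [h3, exp_sub, ← h1, ← h1, h, div_self]
      rw [h1]
      exact exp_ne_zero _
    obtain ⟨b, hb⟩ := exp_eq_one_real h2
    refine hν.ind k (fun i => (α i : ℤ) - (β i : ℤ)) ?_ b hb
    intro h3
    apply hne
    ext i
    have h4 := congrFun h3 i
    simp only [Pi.zero_apply] at h4
    omega
  rw [mem_Mi]
  have hv : ∀ i, vv (x i k.castSucc) (x i k.succ) k k = q i - 1 := fun i => vv_self _ _ _
  have hpow : ∀ m : ℕ, (fun i => Tk k (fun l => (q i ^ m - 1) / (q i - 1) * vv (x i k.castSucc) (x i k.succ) k l)) ∈ Mon ν := by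
    intro m
    have h1 := (Mon ν).pow_mem (mono_mem (fun i k => ⟨(hν.mem i k).1.le, (hν.mem i k).2⟩) k) m
    have h2 : (fun i => Tk k (vv (exp (Real.pi * ν i k.castSucc * I)) (exp (Real.pi * ν i k.succ * I)) k)) ^ m =
        fun i => Tk k (fun l => (q i ^ m - 1) / (q i - 1) * vv (x i k.castSucc) (x i k.succ) k l) := by
      funext i
      rw [Pi.pow_apply]
      exact Tk_pow k (q i) (hq1 i) _ (hv i) m
    rw [h2] at h1
    exact h1
  set A : ι → Matrix (Fin n) (Fin n) (MvPolynomial ι ℂ) := fun i => Matrix.of fun l c =>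
    (if l = c then 1 else 0) + (if c = k then (MvPolynomial.X i - 1) *
      MvPolynomial.C ((q i - 1)⁻¹ * vv (x i k.castSucc) (x i k.succ) k l) else 0) with hA
  have hAe : ∀ s : ι → ℂ, (fun i => (A i).map (MvPolynomial.eval s)) =
      fun i => Tk k (fun l => (s i - 1) / (q i - 1) * vv (x i k.castSucc) (x i k.succ) k l) := by
    intro s
    funext i
    ext l c
    simp only [hA, Matrix.map_apply, Matrix.of_apply, map_add, Tk, Ek, Matrix.add_apply, Matrix.one_apply]
    congr 1
    · split_ifs <;> simp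
    · split_ifs
      · simp only [map_mul, map_sub, MvPolynomial.eval_X, map_one, MvPolynomial.eval_C]
        rw [div_eq_mul_inv]
        ring
      · simp
  have key := Zcl.family (zcl_Mon ν) A (D := Set.range (fun (m : ℕ) (i : ι) => q i ^ m)) (dense_pow q hqi)
    (by
      rintro _ ⟨m, rfl⟩
      rw [hAe]
      exact hpow m) (fun i' => if i' = i then 1 + s * (q i - 1) else 1)
  rw [hAe] at key
  have h3 : (Pi.mulSingle i (1 + s • Rk (ck (x i) k) (Pi.single k 1)) : ι → Matrix (Fin n) (Fin n) ℂ) =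
      fun i' => Tk k (fun l => ((if i' = i then 1 + s * (q i - 1) else 1) - 1) / (q i' - 1) *
        vv (x i' k.castSucc) (x i' k.succ) k l) := by
    funext i'
    by_cases h1 : i' = i
    · subst h1
      have hq' : q i' - 1 ≠ 0 := sub_ne_zero.2 (hq1 i')
      rw [Pi.mulSingle_eq_same, ← Tk_eq]
      congr 1
      funext l
      rw [if_pos rfl, add_sub_cancel_left, mul_div_assoc, div_self hq', mul_one]
      rfl
    · rw [Pi.mulSingle_eq_of_ne h1, ← Tk_zero k]
      congr 1
      funext l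
      rw [if_neg h1]
      simp
  rw [h3]
  exact key

theorem Mi_top {ν : ι → Fin (n + 1) → ℝ} (hν : Good ν) (i : ι) (g : Matrix (Fin n) (Fin n) ℂ) : g ∈ Mi ν i := by
  set x : Fin (n + 1) → ℂ := fun k' => exp (Real.pi * ν i k' * I) with hx
  have hx0 : ∀ k, x k ≠ 0 := fun k => exp_ne_zero _
  have hx1 : ∀ k, x k ^ 2 ≠ 1 := by
    intro k h
    simp only [hx] at h
    rw [sq_exI] at h
    obtain ⟨b, hb⟩ := exp_eq_one_real h
    have h1 := hν.mem i k
    rw [hb] at h1
    have h2 : (0 : ℤ) < b := by exact_mod_cast h1.1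
    have h3 : b < (1 : ℤ) := by exact_mod_cast h1.2
    omega
  have hp : ∏ k, x k ^ 2 ≠ 1 := by
    intro h
    simp only [hx, sq_exI] at h
    rw [← exp_sum] at h
    have h1 : (∑ k, (2 * Real.pi * (ν i k : ℂ) * I)) = 2 * Real.pi * ((∑ k, ν i k : ℝ) : ℂ) * I := by
      push_cast
      rw [Finset.mul_sum, Finset.sum_mul]
    rw [h1] at h
    obtain ⟨b, hb⟩ := exp_eq_one_real h
    exact hν.sum i b hb
  have hsq : ∀ k, 1 - x k ^ 2 ≠ 0 := fun k => sub_ne_zero.2 (hx1 k).symm
  refine all_of (fam_Mi ν i) (ck x) (ck_span x hx1 hx0 hp) (fun k s => pseudo_mem hν i k s) ?_ ?_ g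
  · intro k
    unfold ck
    rw [vv_self, sub_ne_zero]
    intro h
    have h1 : (x k.castSucc * x k.succ) ^ 2 = exp (2 * Real.pi * ((ν i k.castSucc + ν i k.succ : ℝ) : ℂ) * I) := by
      simp only [hx]
      rw [mul_pow, sq_exI, sq_exI, ← exp_add]
      congr 1
      push_cast; ring
    rw [h1] at h
    obtain ⟨b, hb⟩ := exp_eq_one_real h
    have h2 := hν.ind k (Pi.single i 1) (by
      intro h3
      have := congrFun h3 i
      simp at this) b
    apply h2
    rw [Finset.sum_eq_single i]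
    · simp [hb]
    · intro i' _ hne
      simp [Pi.single_eq_of_ne hne]
    · intro h; exact absurd (Finset.mem_univ i) h
  · intro k k' hk
    constructor
    · unfold ck vv
      rw [if_pos hk.symm]
      exact mul_ne_zero (hx0 _) (hsq _)
    · unfold ck vv
      have h1 : ¬ ((k' : ℕ) + 1 = k) := by omega
      have h2 : ¬ (k' = k) := by
        intro h; rw [h] at hk; omega
      rw [if_neg h1, if_neg h2, if_pos hk]
      exact mul_ne_zero (hx0 _) (hsq _)

/-- for good exponents all matrices preserve the relations -/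
theorem Mon_top {ν : ι → Fin (n + 1) → ℝ} (hν : Good ν) (g : ι → Matrix (Fin n) (Fin n) ℂ) : g ∈ Mon ν := by
  have h1 : ∀ s : Finset ι, (fun i => if i ∈ s then g i else 1) ∈ Mon ν := by
    intro s
    induction s using Finset.induction_on with
    | empty =>
      simp only [Finset.notMem_empty, if_false]
      exact (Mon ν).one_mem
    | insert a s ha ih =>
      have h2 := (Mon ν).mul_mem (mem_Mi.1 (Mi_top hν a (g a))) ih
      have h3 : ((Pi.mulSingle a (g a) : ι → Matrix (Fin n) (Fin n) ℂ) * fun i => if i ∈ s then g i else 1) =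
          fun i => if i ∈ insert a s then g i else 1 := by
        funext i
        rw [Pi.mul_apply]
        by_cases h4 : i = a
        · subst h4
          simp [ha]
        · rw [Pi.mulSingle_eq_of_ne h4, one_mul]
          simp [h4]
      rw [← h3]
      exact h2
  have h2 := h1 Finset.univ
  simpa using h2

end

end Pool.Agent.Run7.h659.SE
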