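import Pool.Agent.Run7.h659.MX1
import Pool.Agent.Run7.h659.SE7

/-!
# Incomplete integrals: all translations preserve the relations
-/

set_option autoImplicit false
set_option linter.unusedSectionVars false

open Complex Set MeasureTheory Filter Topology

namespace Pool.Agent.Run7.h659.MX

open Pool.Agent.Run7.h659.SE
open Pool.Agent.Y118.HP (seg ee Dm isOpen_Dm InGap mem_Dm_of_im ee_self ee_succAbove ee_castSucc_castSucc
  ee_castSucc_succ ee_succ_castSucc ee_succ_succ ee_other eq_zero_of_open differentiableOn_eval)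

variable {n : ℕ} {ι : Type}

/-- the integrals from `a k` to `z` -/
noncomputable def Av (μ : ι → Fin (n + 1) → ℝ) (a : Fin (n + 1) → ℝ) (k : Fin (n + 1)) (z : ℂ) (i : ι) (j : Fin n) : ℂ :=
  per (ee (μ i) k.succ ((0 : ℝ) : ℂ)) (ee a k.succ z) k (j : ℕ)

/-- the integrals from `z` to `a k` -/
noncomputable def Zv (μ : ι → Fin (n + 1) → ℝ) (a : Fin (n + 1) → ℝ) (k : Fin (n + 1)) (z : ℂ) (i : ι) (j : Fin n) : ℂ :=
  per (ee (μ i) k.castSucc ((0 : ℝ) : ℂ)) (ee a k.castSucc z) k (j : ℕ)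

/-- the integrals from `a l` to `a (l + 1)` -/
noncomputable def Cv (μ : ι → Fin (n + 1) → ℝ) (a : Fin (n + 1) → ℝ) (l : Fin n) (i : ι) (j : Fin n) : ℂ :=
  per (fun k => ((μ i k : ℝ) : ℂ)) (fun k => ((a k : ℝ) : ℂ)) l (j : ℕ)

/-- the multipliers -/
noncomputable def ws (μ : ι → Fin (n + 1) → ℝ) (k : Fin (n + 1)) (i : ι) : ℂ := exp (Real.pi * μ i k * I)

theorem ws_ne (μ : ι → Fin (n + 1) → ℝ) (k : Fin (n + 1)) (i : ι) : ws μ k i ≠ 0 := exp_ne_zero _

theorem ws_inv (μ : ι → Fin (n + 1) → ℝ) (k : Fin (n + 1)) (i : ι) : exp (-(Real.pi * μ i k * I)) = (ws μ k i)⁻¹ :=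
  exp_neg _

variable {μ : ι → Fin (n + 1) → ℝ} {a : Fin (n + 1) → ℝ}

theorem zero_mem_Ico : (0 : ℝ) ∈ Ico (0 : ℝ) 1 := ⟨le_rfl, one_pos⟩

theorem diff_Av (ha : StrictMono a) (hμ : ∀ i k, μ i k ∈ Ico (0 : ℝ) 1) (k : Fin (n + 1)) (i : ι) (j : Fin n) :
    DifferentiableOn ℂ (fun z => Av μ a k z i j) (Dm a k.succ) :=
  diff_move ha k.succ _ (fun i' => by
    rw [er_coe, ofReal_re]
    exact (er_mem (hμ i) zero_mem_Ico k.succ i').2) k j

theorem diff_Zv (ha : StrictMono a) (hμ : ∀ i k, μ i k ∈ Ico (0 : ℝ) 1) (k : Fin (n + 1)) (i : ι) (j : Fin n) :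
    DifferentiableOn ℂ (fun z => Zv μ a k z i j) (Dm a k.castSucc) :=
  diff_move ha k.castSucc _ (fun i' => by
    rw [er_coe, ofReal_re]
    exact (er_mem (hμ i) zero_mem_Ico k.castSucc i').2) k j

theorem Av_up (ha : StrictMono a) (hμ : ∀ i k, μ i k ∈ Ico (0 : ℝ) 1) (k : Fin (n + 1)) (z : ℂ) (hz : z ∈ UH)
    (i : ι) (j : Fin n) : Av μ a k z i j = -(ws μ k i)⁻¹ * Zv μ a k z i j := by
  have h := conn_upper ha (hμ i) zero_mem_Ico k hz (j : ℕ) k
  rw [ws_inv] at h
  unfold Av Zv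
  rw [h]
  unfold Uv
  rw [if_neg (by omega), if_pos rfl]
  simp only [ofReal_zero, mul_zero, zero_mul, neg_zero, exp_zero]
  ring

theorem Av_low (ha : StrictMono a) (hμ : ∀ i k, μ i k ∈ Ico (0 : ℝ) 1) (k : Fin (n + 1)) (z : ℂ) (hz : z ∈ LH)
    (i : ι) (j : Fin n) : Av μ a k z i j = -(ws μ k i) * Zv μ a k z i j := by
  have h := conn_lower ha (hμ i) zero_mem_Ico k hz (j : ℕ) k
  unfold Av Zv
  rw [h]
  unfold Uv
  rw [if_neg (by omega), if_pos rfl]
  simp only [ofReal_zero, mul_zero, zero_mul, neg_zero, exp_zero]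
  unfold ws
  ring

/-- a gap which does not contain the marked point -/
theorem closed_row (ν : Fin (n + 1) → ℝ) (z : ℂ) (l : Fin n) (j : ℕ) :
    per (ee ν l.succ.succ ((0 : ℝ) : ℂ)) (ee a l.succ.succ z) l.castSucc j =
      per (fun k => ((ν k : ℝ) : ℂ)) (fun k => ((a k : ℝ) : ℂ)) l j := by
  have e1 : ee a l.succ.succ z l.castSucc.castSucc = a l.castSucc := by
    have : l.castSucc.castSucc = l.succ.succ.succAbove l.castSucc := by
      rw [Fin.succAbove_of_castSucc_lt]
      rw [Fin.lt_def]; simp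
    rw [this, ee_succAbove]
  have e2 : ee a l.succ.succ z l.castSucc.succ = a l.succ := by
    have : l.castSucc.succ = l.succ.succ.succAbove l.succ := by
      rw [Fin.succAbove_of_castSucc_lt]
      · rfl
      · rw [Fin.lt_def]; simp
    rw [this, ee_succAbove]
  unfold per
  refine intervalIntegral.integral_congr fun u _ => ?_
  simp only [e1, e2]
  congr 1
  unfold full
  congr 1
  rw [Fin.prod_univ_succAbove _ l.succ.succ]
  simp only [ee_self, ee_succAbove, ofReal_zero, neg_zero, cpow_zero, one_mul]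
  refine Finset.prod_congr rfl fun i _ => ?_
  have h1 : (l.succ.succ.succAbove i ≤ l.castSucc.castSucc) ↔ (i ≤ l.castSucc) := by
    constructor
    · intro h
      by_contra h2
      rw [not_le, Fin.lt_def, Fin.val_castSucc] at h2
      rw [Fin.le_def, Fin.val_castSucc, Fin.val_castSucc] at h
      have h3 : (i : ℕ) ≤ (l.succ.succ.succAbove i : ℕ) := by
        unfold Fin.succAbove
        split_ifs <;> simp
      omega
    · intro h
      rw [Fin.succAbove_of_castSucc_lt]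
      · rw [Fin.le_def] at h ⊢
        simpa using h
      · rw [Fin.le_def] at h
        rw [Fin.lt_def]
        simp at h ⊢
        omega
  simp only [h1]

theorem split (ha : StrictMono a) (hμ : ∀ i k, μ i k ∈ Ico (0 : ℝ) 1) (l : Fin n) (z : ℂ) (hz : z ∈ UH ∨ z ∈ LH)
    (i : ι) (j : Fin n) : Av μ a l.castSucc z i j = (-1) * Zv μ a l.succ z i j + Cv μ a l i j := by
  have e : l.castSucc.succ = l.succ.castSucc := (Fin.succ_castSucc l).symm ▸ rfl
  have hc : per (ee (μ i) l.succ.succ ((0 : ℝ) : ℂ)) (ee a l.succ.succ z) l.castSucc (j : ℕ) = Cv μ a l i j :=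
    closed_row (a := a) (μ i) z l j
  have hA : Av μ a l.castSucc z i j =
      per (ee (μ i) l.succ.castSucc ((0 : ℝ) : ℂ)) (ee a l.succ.castSucc z) l.castSucc (j : ℕ) := by
    unfold Av
    rw [Fin.succ_castSucc]
  rw [hA, ← hc]
  unfold Zv
  rcases hz with hz | hz
  · have h := conn_upper ha (hμ i) zero_mem_Ico l.succ hz (j : ℕ) l.castSucc
    rw [h]
    unfold Uv
    rw [if_pos (by simp)]
    simp only [ofReal_zero, mul_zero, zero_mul, neg_zero, exp_zero]
    ring
  · have h := conn_lower ha (hμ i) zero_mem_Ico l.succ hz (j : ℕ) l.castSucc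
    rw [h]
    unfold Uv
    rw [if_pos (by simp)]
    simp only [ofReal_zero, mul_zero, zero_mul, neg_zero, exp_zero]
    ring

/-! ## rotations -/

theorem rot_A (ha : StrictMono a) (hμ : ∀ i k, μ i k ∈ Ico (0 : ℝ) 1) (k : Fin (n + 1))
    {p : MvPolynomial (Option (ι × Fin n)) ℂ} (hp : p ∈ Rl (Dm a k.succ) (Av μ a k)) :
    af (fun i => ws μ k i ^ 2) 0 p ∈ Rl (Dm a k.succ) (Av μ a k) ∧
    af (fun i => (ws μ k i ^ 2)⁻¹) 0 p ∈ Rl (Dm a k.succ) (Av μ a k) := by
  have hw := ws_ne μ k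
  constructor
  · have h1 := transfer_low ha (m' := k.castSucc) (F' := Zv μ a k) (diff_Zv ha hμ k) (l := fun i => -(ws μ k i)) (v := 0)
      (fun z hz i j => by rw [Av_low ha hμ k z hz]; simp) hp
    have h2 := transfer_up ha (m' := k.succ) (F' := Av μ a k) (diff_Av ha hμ k) (l := fun i => -(ws μ k i)) (v := 0)
      (fun z hz i j => by
        rw [Av_up ha hμ k z hz]
        have := hw i
        simp only [Pi.zero_apply, add_zero]
        field_simp) h1
    refine Rl_congr (fun z Y => ?_) h2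
    rw [vl_af, vl_af, vl_af]
    congr 1
    funext i j
    simp only [Pi.zero_apply, add_zero]
    ring
  · have h1 := transfer_up ha (m' := k.castSucc) (F' := Zv μ a k) (diff_Zv ha hμ k) (l := fun i => -(ws μ k i)⁻¹) (v := 0)
      (fun z hz i j => by rw [Av_up ha hμ k z hz]; simp) hp
    have h2 := transfer_low ha (m' := k.succ) (F' := Av μ a k) (diff_Av ha hμ k) (l := fun i => -(ws μ k i)⁻¹) (v := 0)
      (fun z hz i j => by
        rw [Av_low ha hμ k z hz]
        have := hw i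
        simp only [Pi.zero_apply, add_zero]
        field_simp) h1
    refine Rl_congr (fun z Y => ?_) h2
    rw [vl_af, vl_af, vl_af]
    congr 1
    funext i j
    simp only [Pi.zero_apply, add_zero]
    have := hw i
    field_simp

theorem rot_Z (ha : StrictMono a) (hμ : ∀ i k, μ i k ∈ Ico (0 : ℝ) 1) (k : Fin (n + 1))
    {p : MvPolynomial (Option (ι × Fin n)) ℂ} (hp : p ∈ Rl (Dm a k.castSucc) (Zv μ a k)) :
    af (fun i => ws μ k i ^ 2) 0 p ∈ Rl (Dm a k.castSucc) (Zv μ a k) ∧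
    af (fun i => (ws μ k i ^ 2)⁻¹) 0 p ∈ Rl (Dm a k.castSucc) (Zv μ a k) := by
  have hw := ws_ne μ k
  constructor
  · have h1 := transfer_up ha (m' := k.succ) (F' := Av μ a k) (diff_Av ha hμ k) (l := fun i => -(ws μ k i)) (v := 0)
      (fun z hz i j => by
        rw [Av_up ha hμ k z hz]
        have := hw i
        simp only [Pi.zero_apply, add_zero]
        field_simp) hp
    have h2 := transfer_low ha (m' := k.castSucc) (F' := Zv μ a k) (diff_Zv ha hμ k) (l := fun i => -(ws μ k i)) (v := 0)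
      (fun z hz i j => by rw [Av_low ha hμ k z hz]; simp) h1
    refine Rl_congr (fun z Y => ?_) h2
    rw [vl_af, vl_af, vl_af]
    congr 1
    funext i j
    simp only [Pi.zero_apply, add_zero]
    ring
  · have h1 := transfer_low ha (m' := k.succ) (F' := Av μ a k) (diff_Av ha hμ k) (l := fun i => -(ws μ k i)⁻¹) (v := 0)
      (fun z hz i j => by
        rw [Av_low ha hμ k z hz]
        have := hw i
        simp only [Pi.zero_apply, add_zero]
        field_simp) hp
    have h2 := transfer_up ha (m' := k.castSucc) (F' := Zv μ a k) (diff_Zv ha hμ k) (l := fun i => -(ws μ k i)⁻¹) (v := 0)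
      (fun z hz i j => by rw [Av_up ha hμ k z hz]; simp) h1
    refine Rl_congr (fun z Y => ?_) h2
    rw [vl_af, vl_af, vl_af]
    congr 1
    funext i j
    simp only [Pi.zero_apply, add_zero]
    have := hw i
    field_simp

/-- the passage from the gap before `a (l + 1)`, both descriptions -/
theorem A_to_Z (ha : StrictMono a) (hμ : ∀ i k, μ i k ∈ Ico (0 : ℝ) 1) (l : Fin n)
    {p : MvPolynomial (Option (ι × Fin n)) ℂ} (hp : p ∈ Rl (Dm a l.castSucc.succ) (Av μ a l.castSucc)) :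
    af (-1) (Cv μ a l) p ∈ Rl (Dm a l.succ.castSucc) (Zv μ a l.succ) :=
  transfer_up ha (diff_Zv ha hμ l.succ) (fun z hz i j => by rw [split ha hμ l z (Or.inl hz)]; simp) hp

theorem Z_to_A (ha : StrictMono a) (hμ : ∀ i k, μ i k ∈ Ico (0 : ℝ) 1) (l : Fin n)
    {p : MvPolynomial (Option (ι × Fin n)) ℂ} (hp : p ∈ Rl (Dm a l.succ.castSucc) (Zv μ a l.succ)) :
    af (-1) (Cv μ a l) p ∈ Rl (Dm a l.castSucc.succ) (Av μ a l.castSucc) :=
  transfer_up ha (diff_Av ha hμ l.castSucc) (fun z hz i j => by rw [split ha hμ l z (Or.inl hz)]; simp) hp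

theorem A_to_Zs (ha : StrictMono a) (hμ : ∀ i k, μ i k ∈ Ico (0 : ℝ) 1) (k : Fin (n + 1))
    {p : MvPolynomial (Option (ι × Fin n)) ℂ} (hp : p ∈ Rl (Dm a k.succ) (Av μ a k)) :
    af (fun i => -(ws μ k i)⁻¹) 0 p ∈ Rl (Dm a k.castSucc) (Zv μ a k) :=
  transfer_up ha (diff_Zv ha hμ k) (fun z hz i j => by rw [Av_up ha hμ k z hz]; simp) hp

theorem Z_to_As (ha : StrictMono a) (hμ : ∀ i k, μ i k ∈ Ico (0 : ℝ) 1) (k : Fin (n + 1))
    {p : MvPolynomial (Option (ι × Fin n)) ℂ} (hp : p ∈ Rl (Dm a k.castSucc) (Zv μ a k)) :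
    af (fun i => -(ws μ k i)) 0 p ∈ Rl (Dm a k.succ) (Av μ a k) :=
  transfer_up ha (diff_Av ha hμ k) (fun z hz i j => by
    rw [Av_up ha hμ k z hz]
    have := ws_ne μ k i
    simp only [Pi.zero_apply, add_zero]
    field_simp) hp

/-- the translation by the commutator of two rotations -/
theorem comm_mem (ha : StrictMono a) (hμ : ∀ i k, μ i k ∈ Ico (0 : ℝ) 1) (l : Fin n) :
    (fun i j => (ws μ l.castSucc i ^ 2 - 1) * (1 - ws μ l.succ i ^ 2) * Cv μ a l i j) ∈
      Tr (Dm a l.castSucc.succ) (Av μ a l.castSucc) := by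
  intro p hp
  have hw1 := ws_ne μ l.castSucc
  have hw2 := ws_ne μ l.succ
  have h1 := (rot_A ha hμ l.castSucc hp).1
  have h2 := A_to_Z ha hμ l h1
  have h3 := (rot_Z ha hμ l.succ h2).1
  have h4 := Z_to_A ha hμ l h3
  have h5 := (rot_A ha hμ l.castSucc h4).2
  have h6 := A_to_Z ha hμ l h5
  have h7 := (rot_Z ha hμ l.succ h6).2
  have h8 := Z_to_A ha hμ l h7
  refine Rl_congr (fun z Y => ?_) h8
  simp only [vl_af]
  congr 1
  funext i j
  simp only [Pi.zero_apply, add_zero, Pi.neg_apply, Pi.one_apply]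
  have b1 := hw1 i
  have b2 := hw2 i
  field_simp
  ring

/-- the exponents at every point are distinct and not zero -/
def Dist (μ : ι → Fin (n + 1) → ℝ) : Prop :=
  ∀ k, Function.Injective (fun i => ws μ k i ^ 2) ∧ ∀ i, ws μ k i ^ 2 ≠ 1

theorem single_A [Fintype ι] [DecidableEq ι] (ha : StrictMono a) (hμ : ∀ i k, μ i k ∈ Ico (0 : ℝ) 1)
    (hd : Dist μ) (l : Fin n) (i : ι) :
    Pi.single i (Cv μ a l i) ∈ Tr (Dm a l.castSucc.succ) (Av μ a l.castSucc) := by
  have h1 := Tr_split (hd l.castSucc).1 (fun v hv => Tr_scale (fun i => pow_ne_zero 2 (ws_ne μ l.castSucc i))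
    (fun p hp => (rot_A ha hμ l.castSucc hp).1) (fun p hp => (rot_A ha hμ l.castSucc hp).2) hv)
    (comm_mem ha hμ l) i
  have hc : (ws μ l.castSucc i ^ 2 - 1) * (1 - ws μ l.succ i ^ 2) ≠ 0 :=
    mul_ne_zero (sub_ne_zero.2 ((hd l.castSucc).2 i)) (sub_ne_zero.2 (Ne.symm ((hd l.succ).2 i)))
  have h2 := (Tr (Dm a l.castSucc.succ) (Av μ a l.castSucc)).smul_mem
    ((ws μ l.castSucc i ^ 2 - 1) * (1 - ws μ l.succ i ^ 2))⁻¹ h1
  convert h2 using 1
  rw [← Pi.single_smul]
  congr 1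
  funext j
  simp only [Pi.smul_apply, smul_eq_mul]
  rw [inv_mul_cancel_left₀ hc]

/-- transport to the next gap -/
theorem single_next [DecidableEq ι] (ha : StrictMono a) (hμ : ∀ i k, μ i k ∈ Ico (0 : ℝ) 1) (l : Fin n) (i : ι)
    (v : Fin n → ℂ) (h : Pi.single i v ∈ Tr (Dm a l.castSucc.succ) (Av μ a l.castSucc)) :
    Pi.single i v ∈ Tr (Dm a l.succ.succ) (Av μ a l.succ) := by
  have h1 : (fun i' j => ((-1 : ι → ℂ) i')⁻¹ * (Pi.single i v : ι → Fin n → ℂ) i' j) ∈
      Tr (Dm a l.succ.castSucc) (Zv μ a l.succ) := by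
    refine Tr_transport (l := -1) (c := Cv μ a l) (fun i => by simp) (fun p hp => A_to_Z ha hμ l hp)
      (fun p hp => ?_) h
    refine Rl_congr (fun z Y => ?_) (Z_to_A ha hμ l hp)
    rw [vl_af, vl_af]
    congr 1
    funext i' j
    simp
  have h2 : (fun i' j => (-(ws μ l.succ i')⁻¹) * ((((-1 : ι → ℂ) i')⁻¹ * (Pi.single i v : ι → Fin n → ℂ) i' j))) ∈
      Tr (Dm a l.succ.succ) (Av μ a l.succ) := by
    have h3 := Tr_transport (l := fun i' => -(ws μ l.succ i')) (c := 0)
      (fun i => neg_ne_zero.2 (ws_ne μ l.succ i)) (fun p hp => Z_to_As ha hμ l.succ hp)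
      (fun p hp => by
        refine Rl_congr (fun z Y => ?_) (A_to_Zs ha hμ l.succ hp)
        rw [vl_af, vl_af]
        congr 1
        funext i' j
        have := ws_ne μ l.succ i'
        simp only [Pi.zero_apply, add_zero, mul_zero, neg_zero]
        rw [inv_neg]) h1
    convert h3 using 1
    funext i' j
    rw [inv_neg]
  have h3 := (Tr (Dm a l.succ.succ) (Av μ a l.succ)).smul_mem (ws μ l.succ i) h2
  convert h3 using 1
  funext i' j
  simp only [Pi.smul_apply, smul_eq_mul]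
  by_cases hi : i' = i
  · subst hi
    have := ws_ne μ l.succ i'
    rw [Pi.single_eq_same, Pi.neg_apply, Pi.one_apply]
    field_simp
  · rw [Pi.single_eq_of_ne hi]
    simp

theorem single_last [Fintype ι] [DecidableEq ι] (ha : StrictMono a) (hμ : ∀ i k, μ i k ∈ Ico (0 : ℝ) 1)
    (hd : Dist μ) (l : Fin n) (i : ι) :
    Pi.single i (Cv μ a l i) ∈ Tr (Dm a (Fin.last n).succ) (Av μ a (Fin.last n)) := by
  have h1 : ∀ d : ℕ, ∀ k : Fin (n + 1), (k : ℕ) = l + d →
      Pi.single i (Cv μ a l i) ∈ Tr (Dm a k.succ) (Av μ a k) := by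
    intro d
    induction d with
    | zero =>
      intro k hk
      have : k = l.castSucc := Fin.ext (by simpa using hk)
      rw [this]
      exact single_A ha hμ hd l i
    | succ d ih =>
      intro k hk
      have hk1 : (k : ℕ) - 1 < n := by have := k.2; omega
      have hk2 : k = (⟨(k : ℕ) - 1, hk1⟩ : Fin n).succ := Fin.ext (by simp; omega)
      rw [hk2]
      exact single_next ha hμ _ i _ (ih _ (by simp; omega))
  exact h1 (n - l) (Fin.last n) (by simp)

/-- **All translations preserve the relations.** -/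
theorem all_Tr [Fintype ι] [DecidableEq ι] (ha : StrictMono a) (hμ : ∀ i k, μ i k ∈ Ico (0 : ℝ) 1)
    (hd : Dist μ) (v : ι → Fin n → ℂ) : v ∈ Tr (Dm a (Fin.last n).succ) (Av μ a (Fin.last n)) := by
  have h1 : ∀ i (w : Fin n → ℂ), Pi.single i w ∈ Tr (Dm a (Fin.last n).succ) (Av μ a (Fin.last n)) := by
    intro i w
    set F : Matrix (Fin n) (Fin n) ℂ := FF μ a i with hF
    have hdet : F.det ≠ 0 := det_FF hμ ha i
    have h2 : w = ∑ l, (Matrix.vecMul w F⁻¹) l • (Cv μ a l i) := by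
      have h3 : Matrix.vecMul (Matrix.vecMul w F⁻¹) F = w := by
        rw [Matrix.vecMul_vecMul, Matrix.nonsing_inv_mul _ (Ne.isUnit hdet), Matrix.vecMul_one]
      conv_lhs => rw [← h3]
      funext j
      rw [Finset.sum_apply]
      simp only [Matrix.vecMul, dotProduct, Pi.smul_apply, smul_eq_mul]
      rfl
    have h4 : (Pi.single i w : ι → Fin n → ℂ) = LinearMap.single ℂ (fun _ : ι => Fin n → ℂ) i w := rfl
    rw [h4, h2, map_sum]
    refine Submodule.sum_mem _ fun l _ => ?_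
    rw [map_smul]
    exact Submodule.smul_mem _ _ (single_last ha hμ hd l i)
  rw [← Finset.univ_sum_single v]
  exact Submodule.sum_mem _ fun i _ => h1 i _

/-- **Incomplete integrals are algebraically independent over the constants.** -/
theorem inc_ind [Fintype ι] [DecidableEq ι] (ha : StrictMono a) (hμ : ∀ i k, μ i k ∈ Ico (0 : ℝ) 1)
    (hd : Dist μ) {p : MvPolynomial (Option (ι × Fin n)) ℂ}
    (hp : ∀ z ∈ Dm a (Fin.last n).succ, vl p z (Av μ a (Fin.last n) z) = 0) {z : ℂ}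
    (hz : z ∈ Dm a (Fin.last n).succ) (Y : ι → Fin n → ℂ) : vl p z Y = 0 :=
  eq_zero_of_top (all_Tr ha hμ hd) hp hz Y

end Pool.Agent.Run7.h659.MX

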