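import Pool.Agent.Run7.h659.MX2
import Pool.Agent.Run7.h659.CD2

/-!
# Incomplete integrals up to several marked points
-/

set_option autoImplicit false
set_option linter.unusedSectionVars false

open Complex

namespace Pool.Agent.Run7.h659.MX

open Pool.Agent.Run7.h659.SE
open Pool.Agent.Run7.h659.CC (fn FM fn_an Adm orb_fib Orb cur_top)
open Pool.Agent.Run7.h659.CD (irr_of_curves)
open Pool.Agent.Y118.HP (seg ee Dm isOpen_Dm InGap mem_Dm_of_im ee_self ee_succAbove eq_zero_of_open)
open Pool.Agent.Y890.HE (Ord Ord_open Ord_convex Ord_real Ord_nonempty real_zero)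
open Pool.Agent.Y890.MV (evM evX evM_an evM_eq)
open Pool.Agent.N207.GS (Irr Fib)

variable {n r : ℕ} {ι ι' J : Type}

/-- the points and the marked points -/
abbrev XX (n r : ℕ) := Fin (n + 1) ⊕ Fin r

/-- the domain -/
def DD (n r : ℕ) : Set (XX n r → ℂ) :=
  {z | (fun i => z (Sum.inl i)) ∈ Ord n ∧ ∀ t, (z (Sum.inl (Fin.last n))).re < (z (Sum.inr t)).re}

theorem DD_open (n r : ℕ) : IsOpen (DD n r) := by
  have h1 : IsOpen {z : XX n r → ℂ | (fun i => z (Sum.inl i)) ∈ Ord n} :=
    (Ord_open n).preimage (by fun_prop)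
  have h2 : IsOpen {z : XX n r → ℂ | ∀ t, (z (Sum.inl (Fin.last n))).re < (z (Sum.inr t)).re} := by
    have : {z : XX n r → ℂ | ∀ t, (z (Sum.inl (Fin.last n))).re < (z (Sum.inr t)).re} =
        ⋂ t, {z : XX n r → ℂ | (z (Sum.inl (Fin.last n))).re < (z (Sum.inr t)).re} := by
      ext z; simp
    rw [this]
    exact isOpen_iInter_of_finite fun t => isOpen_lt (continuous_re.comp (continuous_apply _))
      (continuous_re.comp (continuous_apply _))
  exact h1.inter h2

theorem DD_convex (n r : ℕ) : Convex ℝ (DD n r) := by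
  intro x hx y hy a b ha hb hab
  refine ⟨Ord_convex n hx.1 hy.1 ha hb hab, fun t => ?_⟩
  have h1 := hx.2 t
  have h2 := hy.2 t
  simp only [Pi.add_apply, Pi.smul_apply, Complex.add_re, Complex.smul_re, smul_eq_mul]
  rcases eq_or_lt_of_le ha with h | h
  · rw [← h] at hab ⊢
    rw [zero_add] at hab
    rw [hab]
    linarith
  · nlinarith [mul_lt_mul_of_pos_left h1 h, mul_le_mul_of_nonneg_left h2.le hb]

theorem DD_nonempty (n r : ℕ) : (DD n r).Nonempty := by
  refine ⟨Sum.elim (fun i => (((i : ℕ) : ℝ) : ℂ)) (fun _ => ((n + 1 : ℝ) : ℂ)), ?_, fun t => ?_⟩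
  · exact Ord_real (e := fun i => ((i : ℕ) : ℝ)) fun i k h => by
      show ((i : ℕ) : ℝ) < ((k : ℕ) : ℝ)
      exact_mod_cast h
  · simp only [Sum.elim_inl, Sum.elim_inr, ofReal_re, Fin.val_last]
    linarith

/-- the incomplete integral -/
noncomputable def inc (ρ : ℂ) (e : Fin (n + 1) → ℂ) (b : ℂ) (j : ℕ) : ℂ :=
  ∫ u in (0 : ℝ)..1, (b - e (Fin.last n)) *
    (fun x : ℂ => x ^ j * ∏ i, (x - e i) ^ (-ρ)) (seg (e (Fin.last n)) b u)

theorem inc_eq (ρ : ℂ) (e : Fin (n + 1) → ℂ) (b : ℂ) (j : ℕ) :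
    inc ρ e b j = per (Fin.snoc (α := fun _ => ℂ) (fun _ => ρ) 0) (Fin.snoc (α := fun _ => ℂ) e b) (Fin.last n) j := by
  unfold inc per
  refine intervalIntegral.integral_congr fun u _ => ?_
  simp only [Fin.succ_last, Fin.snoc_last, Fin.snoc_castSucc]
  congr 1
  unfold full
  congr 1
  rw [Fin.prod_univ_castSucc (n := n + 1)]
  simp only [Fin.snoc_last, Fin.snoc_castSucc, neg_zero, cpow_zero, mul_one]
  refine Finset.prod_congr rfl fun i _ => ?_
  rw [if_pos (Fin.castSucc_le_castSucc_iff.2 (Fin.le_last i))]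

theorem snoc_Ord {e : Fin (n + 1) → ℂ} (he : e ∈ Ord n) {b : ℂ} (hb : (e (Fin.last n)).re < b.re) :
    (Fin.snoc (α := fun _ => ℂ) e b : Fin (n + 2) → ℂ) ∈ Pool.Agent.Y890.HE.Ord (n + 1) := by
  intro i k hik
  induction k using Fin.lastCases with
  | last =>
    induction i using Fin.lastCases with
    | last => exact absurd hik (lt_irrefl _)
    | cast i =>
      simp only [Fin.snoc_last, Fin.snoc_castSucc]
      rcases eq_or_lt_of_le (Fin.le_last i) with h | h
      · rw [h]; exact hb
      · exact (he _ _ h).trans hb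
  | cast k =>
    induction i using Fin.lastCases with
    | last => exact absurd hik (not_lt.2 (Fin.le_last _))
    | cast i =>
      simp only [Fin.snoc_castSucc]
      exact he _ _ (by simpa using hik)

theorem inc_an {ρ : ℚ} (hρ : ρ < 1) (t : Fin r) (j : ℕ) :
    AnalyticOnNhd ℂ (fun z : XX n r → ℂ => inc (ρ : ℂ) (fun i => z (Sum.inl i)) (z (Sum.inr t)) j) (DD n r) := by
  refine Pool.Agent.Y785.MV.Osg.t _ _ (DD_open n r) _ ?_
  have hlt : ((ρ : ℂ)).re < 1 := by
    have h1 : ((ρ : ℚ) : ℂ) = ((ρ : ℝ) : ℂ) := by push_cast; rfl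
    rw [h1, ofReal_re]
    exact_mod_cast hρ
  simp only [inc_eq]
  have hd : ∀ i : Fin (n + 2), DifferentiableOn ℂ (fun z : XX n r → ℂ =>
      (Fin.snoc (α := fun _ => ℂ) (fun i => z (Sum.inl i)) (z (Sum.inr t)) : Fin (n + 2) → ℂ) i) (DD n r) := by
    intro i
    induction i using Fin.lastCases with
    | last => simp only [Fin.snoc_last]; exact Differentiable.differentiableOn (by fun_prop)
    | cast i => simp only [Fin.snoc_castSucc]; exact Differentiable.differentiableOn (by fun_prop)
  have hO : ∀ z ∈ DD n r, (Fin.snoc (α := fun _ => ℂ) (fun i => z (Sum.inl i)) (z (Sum.inr t)) : Fin (n + 2) → ℂ) ∈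
      Pool.Agent.Y890.HE.Ord (n + 1) := fun z hz => snoc_Ord hz.1 (hz.2 t)
  refine diff_per (n := n + 1) (E := XX n r → ℂ) (O := DD n r) (DD_open n r) (fun _ => Fin.snoc (α := fun _ => ℂ) (fun _ => (ρ : ℂ)) 0)
    (fun z => Fin.snoc (α := fun _ => ℂ) (fun i => z (Sum.inl i)) (z (Sum.inr t)))
    (fun i => differentiableOn_const _) hd (Fin.last n) j (fun z hz => ?_) (fun z hz => ?_)
    (fun z hz => ?_) (fun z hz i hi u h0 h1 => Pool.Agent.Y890.HE.seg_lt (hO z hz) hi h0 h1)
    (fun z hz i hi u h0 h1 => Pool.Agent.Y890.HE.seg_gt (hO z hz) hi h0 h1)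
  · simp only [Fin.snoc_castSucc]
    exact hlt
  · simp only [Fin.succ_last, Fin.snoc_last, zero_re]
    exact one_pos
  · refine Pool.Agent.Y890.HE.slit_of_re ?_
    rw [sub_re]
    exact sub_pos.2 (hO z hz _ _ Fin.castSucc_lt_succ)

/-- the constant exponents -/
noncomputable def cst (n : ℕ) (σ : ι' → ℚ) : ι' → Fin (n + 1) → ℝ := fun i _ => (σ i : ℝ)

theorem inc_Av (σ : ι' → ℚ) (a : Fin (n + 1) → ℝ) (z : ℂ) (i : ι') (j : Fin n) :
    Av (cst n σ) a (Fin.last n) z i j = inc (σ i : ℂ) (fun k => (a k : ℂ)) z j := by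
  rw [inc_eq]
  unfold Av
  have e1 : ee a (Fin.last n).succ z = Fin.snoc (α := fun _ => ℂ) (fun k => (a k : ℂ)) z := by
    unfold ee
    rw [Fin.succ_last, Fin.insertNth_last']
  have e2 : ee (cst n σ i) (Fin.last n).succ ((0 : ℝ) : ℂ) = Fin.snoc (α := fun _ => ℂ) (fun _ => (σ i : ℂ)) 0 := by
    unfold ee
    rw [Fin.succ_last, Fin.insertNth_last', ofReal_zero]
    congr 1
  rw [e1, e2]

theorem dist_cst {σ : ι' → ℚ} (hσ : Function.Injective σ) (h0 : ∀ i, 0 < σ i) (h1 : ∀ i, σ i < 1) :
    Dist (cst n σ) := by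
  have hw : ∀ k i, ws (cst n σ) k i ^ 2 = exp (2 * Real.pi * ((σ i : ℝ) : ℂ) * I) := by
    intro k i
    unfold ws cst
    exact sq_exI _
  intro k
  refine ⟨fun i i' h => ?_, fun i h => ?_⟩
  · simp only [hw] at h
    apply hσ
    have h2 : exp (2 * Real.pi * (((σ i : ℝ) - (σ i' : ℝ) : ℝ) : ℂ) * I) = 1 := by
      rw [show (2 * Real.pi * (((σ i : ℝ) - (σ i' : ℝ) : ℝ) : ℂ) * I : ℂ) =
        2 * Real.pi * ((σ i : ℝ) : ℂ) * I - 2 * Real.pi * ((σ i' : ℝ) : ℂ) * I by push_cast; ring, exp_sub, h,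
        div_self (exp_ne_zero _)]
    obtain ⟨b, hb⟩ := exp_eq_one_real h2
    have h3 : σ i - σ i' = b := by exact_mod_cast hb
    have a1 := h0 i
    have a2 := h1 i
    have a3 := h0 i'
    have a4 := h1 i'
    have h5 : (-1 : ℚ) < b := by linarith
    have h6 : (b : ℚ) < 1 := by linarith
    have h7 : -1 < b := by exact_mod_cast h5
    have h8 : b < 1 := by exact_mod_cast h6
    have h9 : b = 0 := by omega
    rw [h9] at h3
    push_cast at h3
    linarith
  · rw [hw] at h
    obtain ⟨b, hb⟩ := exp_eq_one_real h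
    have h3 : σ i = b := by exact_mod_cast hb
    have a1 := h0 i
    have a2 := h1 i
    have h5 : (0 : ℚ) < b := by linarith
    have h6 : (b : ℚ) < 1 := by linarith
    have h7 : 0 < b := by exact_mod_cast h5
    have h8 : b < 1 := by exact_mod_cast h6
    omega

/-! ## one marked point -/

/-- the polynomial in one marked point and its integrals -/
noncomputable def qq [DecidableEq (Fin r)] (t0 : Fin r) (z : XX n r → ℂ) (A : J → ℂ) (B : ι' × Fin r × Fin n → ℂ)
    (p : MvPolynomial (J ⊕ (ι' × Fin r × Fin n)) (MvPolynomial (XX n r) ℂ)) : MvPolynomial (Option (ι' × Fin n)) ℂ :=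
  p.eval₂ (MvPolynomial.aeval (fun x : XX n r => if x = Sum.inr t0 then MvPolynomial.X none else
      MvPolynomial.C (z x)) : MvPolynomial (XX n r) ℂ →ₐ[ℂ] _).toRingHom
    (Sum.elim (fun x => MvPolynomial.C (A x)) fun y =>
      if y.2.1 = t0 then MvPolynomial.X (some (y.1, y.2.2)) else MvPolynomial.C (B y))

theorem vl_qq (t0 : Fin r) (z : XX n r → ℂ) (A : J → ℂ) (B : ι' × Fin r × Fin n → ℂ)
    (p : MvPolynomial (J ⊕ (ι' × Fin r × Fin n)) (MvPolynomial (XX n r) ℂ)) (w : ℂ) (Y : ι' → Fin n → ℂ) :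
    vl (qq t0 z A B p) w Y = evX (Function.update z (Sum.inr t0) w)
      (Sum.elim A fun y => if y.2.1 = t0 then Y y.1 y.2.2 else B y) p := by
  unfold vl qq evX
  have h1 := MvPolynomial.eval₂_comp_left
    (MvPolynomial.eval (fun o : Option (ι' × Fin n) => o.elim w fun x => Y x.1 x.2))
    (MvPolynomial.aeval (fun x : XX n r => if x = Sum.inr t0 then MvPolynomial.X none else
      MvPolynomial.C (z x)) : MvPolynomial (XX n r) ℂ →ₐ[ℂ] MvPolynomial (Option (ι' × Fin n)) ℂ).toRingHom
    (Sum.elim (fun x => MvPolynomial.C (A x)) fun y : ι' × Fin r × Fin n =>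
      if y.2.1 = t0 then MvPolynomial.X (some (y.1, y.2.2)) else MvPolynomial.C (B y)) p
  rw [h1]
  congr 1
  · refine MvPolynomial.ringHom_ext (fun r => ?_) fun x => ?_
    · simp
    · by_cases hx : x = Sum.inr t0
      · subst hx
        simp
      · simp [hx]
  · funext x
    rcases x with x | y
    · simp
    · by_cases hy : y.2.1 = t0
      · simp [hy]
      · simp [hy]

/-- **Several marked points.** -/
theorem marked [Fintype ι'] [DecidableEq ι'] {σ : ι' → ℚ} (hσ : Function.Injective σ) (h0 : ∀ i, 0 < σ i)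
    (h1 : ∀ i, σ i < 1) {a : Fin (n + 1) → ℝ} (ha : StrictMono a) (A : J → ℂ)
    (p : MvPolynomial (J ⊕ (ι' × Fin r × Fin n)) (MvPolynomial (XX n r) ℂ))
    (hp : ∀ b : Fin r → ℂ, (∀ t, a (Fin.last n) < (b t).re) →
      evX (Sum.elim (fun k => (a k : ℂ)) b) (Sum.elim A fun y => inc (σ y.1 : ℂ) (fun k => (a k : ℂ)) (b y.2.1) y.2.2) p = 0)
    (b : Fin r → ℂ) (B : ι' × Fin r × Fin n → ℂ) :
    evX (Sum.elim (fun k => (a k : ℂ)) b) (Sum.elim A B) p = 0 := by
  have hμ : ∀ i k, cst n σ i k ∈ Set.Ico (0 : ℝ) 1 := fun i k => by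
    refine ⟨?_, ?_⟩
    · have : (0 : ℝ) < σ i := by exact_mod_cast h0 i
      exact this.le
    · have : (σ i : ℝ) < 1 := by exact_mod_cast h1 i
      exact this
  have key : ∀ S : Finset (Fin r), ∀ (b : Fin r → ℂ), (∀ t ∉ S, a (Fin.last n) < (b t).re) →
      ∀ B : ι' × Fin r × Fin n → ℂ,
      (∀ y, y.2.1 ∉ S → B y = inc (σ y.1 : ℂ) (fun k => (a k : ℂ)) (b y.2.1) y.2.2) →
      evX (Sum.elim (fun k => (a k : ℂ)) b) (Sum.elim A B) p = 0 := by
    intro S
    induction S using Finset.induction_on with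
    | empty =>
      intro b hb B hB
      rw [← hp b fun t => hb t (Finset.notMem_empty t)]
      congr 1
      funext x
      rcases x with x | y
      · rfl
      · exact hB y (Finset.notMem_empty _)
    | insert t0 S ht0 ih =>
      intro b hb B hB
      set q := qq t0 (Sum.elim (fun k => (a k : ℂ)) b) A B p with hq
      have hup : ∀ w, Function.update (Sum.elim (fun k => (a k : ℂ)) b : XX n r → ℂ) (Sum.inr t0) w =
          Sum.elim (fun k => (a k : ℂ)) (Function.update b t0 w) := fun w => Sum.update_elim_inr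
      have hv : ∀ w : ℂ, a (Fin.last n) < w.re → vl q w (Av (cst n σ) a (Fin.last n) w) = 0 := by
        intro w hw
        rw [hq, vl_qq, hup]
        refine ih _ (fun t ht => ?_) _ fun y hy => ?_
        · by_cases h : t = t0
          · subst h
            rw [Function.update_self]
            exact hw
          · rw [Function.update_of_ne h]
            exact hb t fun h2 => (Finset.mem_insert.1 h2).elim h ht
        · by_cases h : y.2.1 = t0
          · rw [if_pos h, h, Function.update_self, inc_Av]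
          · rw [if_neg h, Function.update_of_ne h]
            exact hB y fun h2 => (Finset.mem_insert.1 h2).elim h hy
      have hdm : ∀ w : ℂ, a (Fin.last n) < w.re → w ∈ Dm a (Fin.last n).succ := by
        intro w hw i
        refine ⟨fun _ => ?_, fun h => ?_⟩
        · refine Pool.Agent.Y890.HE.slit_of_re ?_
          rw [sub_re, ofReal_re]
          have : a i ≤ a (Fin.last n) := ha.monotone (Fin.le_last i)
          linarith
        · exfalso
          rw [Fin.succ_last] at h
          have := Fin.castSucc_lt_last i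
          exact absurd h (not_le.2 this)
      have hall := eq_zero_of_open ha (Fin.last n).succ (diff_vl q fun i j => diff_Av ha hμ (Fin.last n) i j)
        (V := {w : ℂ | a (Fin.last n) < w.re}) (isOpen_lt continuous_const continuous_re)
        (z0 := ((a (Fin.last n) + 1 : ℝ) : ℂ)) (by simp) (hdm _ (by simp)) hv
      have hzero : ∀ w ∈ Dm a (Fin.last n).succ, ∀ Y, vl q w Y = 0 := fun w hw Y =>
        inc_ind ha hμ (dist_cst hσ h0 h1) hall hw Y
      have h2 : ∀ w, vl q w (fun i j => B (i, t0, j)) = 0 := by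
        intro w
        have h3 : AnalyticOnNhd ℂ (fun w => vl q w (fun i j => B (i, t0, j))) Set.univ :=
          (diff_vl (O := Set.univ) q (F := fun _ i j => B (i, t0, j)) fun i j =>
            differentiableOn_const _).analyticOnNhd isOpen_univ
        refine h3.eqOn_zero_of_preconnected_of_eventuallyEq_zero isPreconnected_univ (Set.mem_univ I) ?_
          (Set.mem_univ w)
        filter_upwards [(isOpen_lt continuous_const continuous_im).mem_nhds (show (0 : ℝ) < I.im by simp)] with z hz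
        exact hzero z (mem_Dm_of_im a _ (ne_of_gt hz)) _
      have h3 := h2 (b t0)
      rw [hq, vl_qq, hup, Function.update_eq_self] at h3
      rw [← h3]
      congr 1
      funext x
      rcases x with x | y
      · rfl
      · simp only [Sum.elim_inr]
        by_cases h : y.2.1 = t0
        · rw [if_pos h, ← h]
        · rw [if_neg h]
  exact key Finset.univ b (fun t ht => absurd (Finset.mem_univ t) ht) B fun y hy => absurd (Finset.mem_univ _) hy

end Pool.Agent.Run7.h659.MX
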