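import Pool.Agent.Run7.h659.MX3

/-!
# Periods and incomplete integrals of several families of cyclic covers
-/

set_option autoImplicit false
set_option linter.unusedSectionVars false

open Complex

namespace Pool.Agent.Run7.h659.MX

open Pool.Agent.Run7.h659.SE
open Pool.Agent.Run7.h659.CC (fn FM fn_an Adm orb_fib Orb cur_top)
open Pool.Agent.Run7.h659.CD (irr_of_curves)
open Pool.Agent.Y118.HP (seg ee Dm isOpen_Dm InGap mem_Dm_of_im ee_self ee_succAbove eq_zero_of_open)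
open Pool.Agent.Y890.HE (Ord Ord_open Ord_convex Ord_real Ord_nonempty real_zero)
open Pool.Agent.Y890.MV (evM evX evM_an evM_eq pj USig USig_open USig_convex USig_nonempty fSig_an)
open Pool.Agent.N207.GS (Irr Fib)
open Pool.Agent.N121.AH (inv_sig)

/-! ## one family -/

section one

variable {n r : ℕ} {ι ι' : Type}

/-- the indices of the functions -/
abbrev JJ (ι ι' : Type) (n r : ℕ) := (ι × Fin n × Fin n) ⊕ (ι' × Fin r × Fin n)

/-- the functions -/
noncomputable def mf (ρ : ι → ℚ) (σ : ι' → ℚ) (x : JJ ι ι' n r) (z : XX n r → ℂ) : ℂ :=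
  Sum.elim (fun x => fn ρ x fun i => z (Sum.inl i))
    (fun y : ι' × Fin r × Fin n => inc (σ y.1 : ℂ) (fun i => z (Sum.inl i)) (z (Sum.inr y.2.1)) y.2.2) x

theorem mf_an {ρ : ι → ℚ} {σ : ι' → ℚ} (hρ : ∀ i, ρ i < 1) (hσ : ∀ i, σ i < 1) (x : JJ ι ι' n r) :
    AnalyticOnNhd ℂ (mf ρ σ x) (DD n r) := by
  rcases x with x | y
  · intro z hz
    have h1 := fn_an hρ x (fun i => z (Sum.inl i)) hz.1
    let L : (XX n r → ℂ) →L[ℂ] (Fin (n + 1) → ℂ) :=
      ContinuousLinearMap.pi fun i => ContinuousLinearMap.proj (R := ℂ) (φ := fun _ : XX n r => ℂ) (Sum.inl i)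
    exact AnalyticAt.comp (g := fn ρ x) (f := fun z => L z) h1 (L.analyticAt z)
  · exact inc_an (hσ y.1) y.2.1 y.2.2

/-- the transformation of the values -/
noncomputable def tf (g : ι → Matrix (Fin n) (Fin n) ℂ) (B : ι' × Fin r × Fin n → ℂ) (Z : JJ ι ι' n r → ℂ) :
    JJ ι ι' n r → ℂ :=
  Sum.elim (fun x => ∑ k, g x.1 x.2.1 k * Z (Sum.inl (x.1, k, x.2.2))) B

/-- the polynomial in the points -/
noncomputable def pb {J : Type} (b : Fin r → ℂ) (B : ι' × Fin r × Fin n → ℂ)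
    (p : MvPolynomial (J ⊕ (ι' × Fin r × Fin n)) (MvPolynomial (XX n r) ℂ)) :
    MvPolynomial J (MvPolynomial (Fin (n + 1)) ℂ) :=
  p.eval₂ ((MvPolynomial.C : _ →+* MvPolynomial J (MvPolynomial (Fin (n + 1)) ℂ)).comp
    (MvPolynomial.aeval (Sum.elim MvPolynomial.X fun t => MvPolynomial.C (b t)) :
      MvPolynomial (XX n r) ℂ →ₐ[ℂ] MvPolynomial (Fin (n + 1)) ℂ).toRingHom)
    (Sum.elim MvPolynomial.X fun y => MvPolynomial.C (MvPolynomial.C (B y)))

theorem ev_pb {J : Type} (b : Fin r → ℂ) (B : ι' × Fin r × Fin n → ℂ)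
    (p : MvPolynomial (J ⊕ (ι' × Fin r × Fin n)) (MvPolynomial (XX n r) ℂ)) (e : Fin (n + 1) → ℂ) (A : J → ℂ) :
    evX e A (pb b B p) = evX (Sum.elim e b) (Sum.elim A B) p := by
  unfold evX pb
  have h1 := MvPolynomial.eval₂_comp_left (MvPolynomial.eval₂Hom (MvPolynomial.eval e) A)
    ((MvPolynomial.C : _ →+* MvPolynomial J (MvPolynomial (Fin (n + 1)) ℂ)).comp
    (MvPolynomial.aeval (Sum.elim MvPolynomial.X fun t => MvPolynomial.C (b t)) :
      MvPolynomial (XX n r) ℂ →ₐ[ℂ] MvPolynomial (Fin (n + 1)) ℂ).toRingHom)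
    (Sum.elim MvPolynomial.X fun y : ι' × Fin r × Fin n => MvPolynomial.C (MvPolynomial.C (B y))) p
  refine Eq.trans h1 ?_
  congr 1
  · refine MvPolynomial.ringHom_ext (fun r => ?_) fun x => ?_
    · simp
    · rcases x with x | x
      · simp
      · simp
  · funext x
    rcases x with x | x
    · simp
    · simp

/-- **invariance** -/
theorem inv_one [Fintype ι] [DecidableEq ι] [Fintype ι'] [DecidableEq ι'] {ρ : ι → ℚ} (h : Adm n ρ) {σ : ι' → ℚ}
    (hσ : Function.Injective σ) (h0 : ∀ i, 0 < σ i) (h1 : ∀ i, σ i < 1) {g : ι → Matrix (Fin n) (Fin n) ℂ}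
    (hg : ∀ s, (g s).det = 1) (B : ι' × Fin r × Fin n → ℂ)
    (p : MvPolynomial (JJ ι ι' n r) (MvPolynomial (XX n r) ℂ))
    (hp : ∀ z ∈ DD n r, evX z (fun x => mf ρ σ x z) p = 0) :
    ∀ z ∈ DD n r, evX z (tf g B fun x => mf ρ σ x z) p = 0 := by
  intro z hz
  have hρ : ∀ i, ρ i < 1 := fun i => by have := h.lt i; linarith
  set b : Fin r → ℂ := fun t => z (Sum.inr t) with hb
  have hrel : ∀ e ∈ Pool.Agent.Y890.HE.Ord n, evM (fn ρ) e (pb b B p) = 0 := by
    obtain ⟨x0, hx0⟩ : ∃ x0 : Fin (n + 1) → ℝ, (fun i => (x0 i : ℂ)) ∈ Pool.Agent.Y890.HE.Ord n :=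
      ⟨fun i => ((i : ℕ) : ℝ), Ord_real fun i k h => by
        show ((i : ℕ) : ℝ) < ((k : ℕ) : ℝ)
        exact_mod_cast h⟩
    refine real_zero (Ord_open n) (Ord_convex n).isPreconnected hx0 (evM_an (fn_an hρ) _) fun e he => ?_
    have he' : StrictMono e := by
      intro i k hik
      have := he i k hik
      simpa using this
    rw [evM_eq, ev_pb]
    refine marked hσ h0 h1 he' (fun x => fn ρ x fun k => (e k : ℂ)) p (fun b' hb' => ?_) b B
    have h3 : (Sum.elim (fun k => (e k : ℂ)) b' : XX n r → ℂ) ∈ DD n r := ⟨he, fun t => by simpa using hb' t⟩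
    rw [← hp _ h3]
    congr 1
  have h2 := orb_fib h hz.1 ⟨g, hg, rfl⟩ (pb b B p) hrel
  rw [ev_pb] at h2
  have e1 : (Sum.elim (fun i => z (Sum.inl i)) b : XX n r → ℂ) = z := by
    funext x
    rcases x with x | x <;> rfl
  rw [e1] at h2
  rw [← h2]
  congr 1

end one

/-! ## several families -/

section sig

variable {N : Type} {n r : N → ℕ} {κ κ' : N → Type}

/-- the indices of the functions -/
abbrev JS (n r : N → ℕ) (κ κ' : N → Type) : Type := Σ j, JJ (κ j) (κ' j) (n j) (r j)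

/-- the indices of the coordinates -/
abbrev XS (n r : N → ℕ) : Type := Σ j, XX (n j) (r j)

/-- the functions -/
noncomputable def ms (ρ : ∀ j, κ j → ℚ) (σ : ∀ j, κ' j → ℚ) (x : JS n r κ κ') (z : XS n r → ℂ) : ℂ :=
  mf (ρ x.1) (σ x.1) x.2 (pj z x.1)

/-- the domain -/
def DS (n r : N → ℕ) : Set (XS n r → ℂ) := USig fun j => DD (n j) (r j)

/-- the torsor -/
def TS (Z : JS n r κ κ' → ℂ) : Set (JS n r κ κ' → ℂ) :=
  {Y | ∃ g : ∀ j, κ j → Matrix (Fin (n j)) (Fin (n j)) ℂ, (∀ j s, (g j s).det = 1) ∧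
    ∀ j (x : κ j × Fin (n j) × Fin (n j)), Y ⟨j, Sum.inl x⟩ = ∑ k, g j x.1 x.2.1 k * Z ⟨j, Sum.inl (x.1, k, x.2.2)⟩}

theorem TS_self [∀ j, DecidableEq (κ j)] (Z : JS n r κ κ' → ℂ) : Z ∈ TS Z := by
  refine ⟨fun _ _ => 1, fun _ _ => Matrix.det_one, fun j x => ?_⟩
  show _ = ∑ k, (1 : Matrix (Fin (n j)) (Fin (n j)) ℂ) x.2.1 k * Z ⟨j, Sum.inl (x.1, k, x.2.2)⟩
  rw [Finset.sum_eq_single x.2.1]
  · rw [Matrix.one_apply_eq, one_mul]
  · intro b _ hb
    rw [Matrix.one_apply_ne hb.symm, zero_mul]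
  · intro h
    exact absurd (Finset.mem_univ _) h

theorem irr_TS [∀ j, Fintype (κ j)] [∀ j, DecidableEq (κ j)] (Z : JS n r κ κ' → ℂ) : Irr (TS Z) := by
  refine irr_of_curves ?_
  rintro a ⟨g, hg, ha⟩ b ⟨g', hg', hb⟩
  have h1 : ∀ j, ∃ A : κ j → Matrix (Fin (n j)) (Fin (n j)) (Polynomial ℂ), (∀ s, (A s).det = 1) ∧
      (∀ s, (A s).map (Polynomial.eval 0) = 1) ∧ ∀ s, (A s).map (Polynomial.eval 1) = g' j s * (g j s)⁻¹ := fun j =>
    cur_top (fun s => g' j s * (g j s)⁻¹) (fun s => by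
      rw [Matrix.det_mul, hg', Matrix.det_nonsing_inv, hg]
      simp)
  choose A h1 h2 h3 using h1
  have hdet : ∀ (t : ℂ) j s, ((A j s).map (Polynomial.eval t)).det = 1 := by
    intro t j s
    have e1 := RingHom.map_det (Polynomial.evalRingHom t) (A j s)
    rw [h1, map_one] at e1
    exact e1.symm
  have key : ∀ (t : ℂ) j (x : κ j × Fin (n j) × Fin (n j)),
      (∑ k, A j x.1 x.2.1 k * Polynomial.C (a ⟨j, Sum.inl (x.1, k, x.2.2)⟩)).eval t =
      ∑ k, ((A j x.1).map (Polynomial.eval t) * g j x.1) x.2.1 k * Z ⟨j, Sum.inl (x.1, k, x.2.2)⟩ := by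
    intro t j x
    rw [Polynomial.eval_finsetSum]
    simp only [Polynomial.eval_mul, Polynomial.eval_C, ha, Matrix.mul_apply, Matrix.map_apply, Finset.sum_mul,
      Finset.mul_sum]
    rw [Finset.sum_comm]
    refine Finset.sum_congr rfl fun a _ => Finset.sum_congr rfl fun b _ => ?_
    ring
  refine ⟨fun s => match s with
    | ⟨j, Sum.inl x⟩ => ∑ k, A j x.1 x.2.1 k * Polynomial.C (a ⟨j, Sum.inl (x.1, k, x.2.2)⟩)
    | ⟨j, Sum.inr y⟩ => Polynomial.C (a ⟨j, Sum.inr y⟩) +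
        Polynomial.X * Polynomial.C (b ⟨j, Sum.inr y⟩ - a ⟨j, Sum.inr y⟩), ?_, ?_, ?_⟩
  · rintro ⟨j, x | y⟩
    · simp only []
      rw [key, ha]
      refine Finset.sum_congr rfl fun k _ => ?_
      rw [h2, one_mul]
    · simp
  · rintro ⟨j, x | y⟩
    · simp only []
      rw [key, hb]
      refine Finset.sum_congr rfl fun k _ => ?_
      rw [h3, mul_assoc, Matrix.nonsing_inv_mul _ (by rw [hg]; exact isUnit_one), mul_one]
    · simp
  · intro t
    refine ⟨fun j s => (A j s).map (Polynomial.eval t) * g j s, fun j s => ?_, fun j x => ?_⟩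
    · rw [Matrix.det_mul, hdet, hg, one_mul]
    · simp only []
      rw [key]

variable [Fintype N] [DecidableEq N] [∀ j, Fintype (κ j)] [∀ j, DecidableEq (κ j)] [∀ j, Fintype (κ' j)]
  [∀ j, DecidableEq (κ' j)]

theorem DS_open : IsOpen (DS n r) := USig_open fun j => DD_open (n j) (r j)

theorem DS_conn : IsPreconnected (DS n r) := (USig_convex fun j => DD_convex (n j) (r j)).isPreconnected

theorem DS_nonempty : (DS n r).Nonempty := USig_nonempty fun j => DD_nonempty (n j) (r j)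

theorem ms_an {ρ : ∀ j, κ j → ℚ} {σ : ∀ j, κ' j → ℚ} (hρ : ∀ j i, ρ j i < 1) (hσ : ∀ j i, σ j i < 1)
    (x : JS n r κ κ') : AnalyticOnNhd ℂ (ms (r := r) ρ σ x) (DS n r) :=
  fSig_an (f' := fun j (x : JJ (κ j) (κ' j) (n j) (r j)) => mf (ρ j) (σ j) x)
    (U' := fun j => DD (n j) (r j)) (fun j x => mf_an (hρ j) (hσ j) x) x

/-- **the torsor lies in the fibre** -/
theorem TS_fib {ρ : ∀ j, κ j → ℚ} (h : ∀ j, Adm (n j) (ρ j)) {σ : ∀ j, κ' j → ℚ}
    (hσ : ∀ j, Function.Injective (σ j)) (h0 : ∀ j i, 0 < σ j i) (h1 : ∀ j i, σ j i < 1) {z : XS n r → ℂ}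
    (hz : z ∈ DS n r) : TS (fun x => ms (r := r) ρ σ x z) ⊆ Fib (DS n r) (ms ρ σ) z := by
  rintro Y ⟨g, hg, hY⟩ p hp
  have h2 := inv_sig (U' := fun j => DD (n j) (r j))
    (f' := fun j z (x : JJ (κ j) (κ' j) (n j) (r j)) => mf (ρ j) (σ j) x z)
    (A := fun j => tf (g j) fun y => Y ⟨j, Sum.inr y⟩)
    (fun j p hp z hz => inv_one (h j) (hσ j) (h0 j) (h1 j) (hg j) (fun y => Y ⟨j, Sum.inr y⟩) p hp z hz) p hp z hz
  rw [← h2]
  congr 1
  funext ⟨j, x⟩
  rcases x with x | y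
  · exact hY j x
  · rfl

end sig

end Pool.Agent.Run7.h659.MX
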