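import Pool.Agent.Y118.HP.Mono
import Pool.Agent.HopfPinch.AnS1
import Pool.Agent.Y785.MV.Osg

/-!
# Integrals of `x ^ j ∏ (x - e i) ^ (- ν i)` between consecutive points: analyticity in `ν` and `e`
-/

set_option autoImplicit false
set_option linter.unusedSectionVars false

open Complex Set MeasureTheory Filter Topology

namespace Pool.Agent.Run7.h659.SE

open Pool.Agent.Y118.HP (seg)

variable {n : ℕ}

/-- the integrand over the gap `l` -/
noncomputable def full (ν e : Fin (n + 1) → ℂ) (l : Fin n) (j : ℕ) (x : ℂ) : ℂ :=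
  x ^ j * ∏ i, (if i ≤ l.castSucc then x - e i else e i - x) ^ (-ν i)

/-- the integral over the gap `l` -/
noncomputable def per (ν e : Fin (n + 1) → ℂ) (l : Fin n) (j : ℕ) : ℂ :=
  ∫ u in (0 : ℝ)..1, (e l.succ - e l.castSucc) * full ν e l j (seg (e l.castSucc) (e l.succ) u)

/-- the factor at the point `e i`, if it is not an end point of the gap `l` -/
noncomputable def fac (ν e : Fin (n + 1) → ℂ) (l : Fin n) (i : Fin (n + 1)) (x : ℂ) : ℂ :=
  if i < l.castSucc then (x - e i) ^ (-ν i)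
  else if l.succ < i then (e i - x) ^ (-ν i) else 1

noncomputable def ker (ν e : Fin (n + 1) → ℂ) (l : Fin n) (j : ℕ) (x : ℂ) : ℂ :=
  x ^ j * ∏ i, fac ν e l i x

theorem prod_full (ν e : Fin (n + 1) → ℂ) (l : Fin n) (x : ℂ) :
    ∏ i, (if i ≤ l.castSucc then x - e i else e i - x) ^ (-ν i) =
      (∏ i, fac ν e l i x) * (x - e l.castSucc) ^ (-ν l.castSucc) * (e l.succ - x) ^ (-ν l.succ) := by
  classical
  have h : ∀ i, (if i ≤ l.castSucc then x - e i else e i - x) ^ (-ν i) =
      fac ν e l i x * (if i = l.castSucc then (x - e l.castSucc) ^ (-ν l.castSucc) else 1) *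
        (if i = l.succ then (e l.succ - x) ^ (-ν l.succ) else 1) := by
    intro i
    unfold fac
    rcases lt_trichotomy i l.castSucc with h1 | h1 | h1
    · have h2 : i ≠ l.succ := (h1.trans Fin.castSucc_lt_succ).ne
      simp [h1, h1.le, h1.ne, h2]
    · subst h1
      have h2 : l.castSucc ≠ l.succ := (Fin.castSucc_lt_succ).ne
      have h3 : ¬ l.succ < l.castSucc := not_lt.2 (Fin.castSucc_lt_succ).le
      simp [h2, h3]
    · have h2 : ¬ i < l.castSucc := not_lt.2 h1.le
      have h3 : ¬ i ≤ l.castSucc := not_le.2 h1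
      have h4 : i ≠ l.castSucc := h1.ne'
      rcases eq_or_ne i l.succ with h5 | h5
      · subst h5
        simp [h2, h3, h4]
      · have h6 : l.succ < i := lt_of_le_of_ne (Fin.castSucc_lt_iff_succ_le.1 h1) (Ne.symm h5)
        simp [h2, h3, h4, h5, h6]
  simp only [h, Finset.prod_mul_distrib, Finset.prod_ite_eq', Finset.mem_univ, if_true]

theorem ofReal_mul_cpow {s : ℝ} (hs : 0 < s) {δ : ℂ} (hδ : δ ≠ 0) (c : ℂ) :
    (δ * (s : ℂ)) ^ c = (s : ℂ) ^ c * δ ^ c := by
  have hs3 : (s : ℂ) ≠ 0 := by exact_mod_cast hs.ne'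
  rw [mul_comm, cpow_def_of_ne_zero (mul_ne_zero hs3 hδ), log_ofReal_mul hs hδ,
    cpow_def_of_ne_zero hδ, cpow_def_of_ne_zero hs3, add_mul, exp_add, ofReal_log hs.le]

theorem seg_sub_left (p q : ℂ) (u : ℝ) : seg p q u - p = (q - p) * ((u : ℝ) : ℂ) := by
  unfold seg; ring

theorem sub_seg_right (p q : ℂ) (u : ℝ) : q - seg p q u = (q - p) * ((1 - u : ℝ) : ℂ) := by
  unfold seg; push_cast; ring

/-- the integral with the factors of the end points -/
theorem per_eq (ν e : Fin (n + 1) → ℂ) (l : Fin n) (j : ℕ) (hδ : e l.succ - e l.castSucc ≠ 0) :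
    per ν e l j = ((e l.succ - e l.castSucc) * ((e l.succ - e l.castSucc) ^ (-ν l.castSucc) *
      (e l.succ - e l.castSucc) ^ (-ν l.succ))) * ∫ u in Ioo (0 : ℝ) 1,
        ((u : ℝ) : ℂ) ^ (-ν l.castSucc) * ((1 - u : ℝ) : ℂ) ^ (-ν l.succ) *
          ker ν e l j (seg (e l.castSucc) (e l.succ) u) := by
  unfold per
  rw [intervalIntegral.integral_of_le zero_le_one, integral_Ioc_eq_integral_Ioo, ← integral_const_mul]
  refine setIntegral_congr_fun measurableSet_Ioo fun u hu => ?_
  simp only [full]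
  rw [prod_full, seg_sub_left, sub_seg_right, ofReal_mul_cpow hu.1 hδ,
    ofReal_mul_cpow (sub_pos.2 hu.2) hδ]
  unfold ker
  ring

/-- integrals of beta type depend analytically on parameters -/
theorem diff_beta {E : Type} [NormedAddCommGroup E] [NormedSpace ℂ E] [FiniteDimensional ℂ E]
    {O : Set E} (hO : IsOpen O) (α β : E → ℂ) (hα : DifferentiableOn ℂ α O) (hβ : DifferentiableOn ℂ β O)
    (h1 : ∀ z ∈ O, (α z).re < 1) (h2 : ∀ z ∈ O, (β z).re < 1) (H : ℝ → E → ℂ)
    (hc : ContinuousOn (fun p : ℝ × E => H p.1 p.2) (Icc 0 1 ×ˢ O))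
    (hd : ∀ u ∈ Icc (0 : ℝ) 1, DifferentiableOn ℂ (H u) O) :
    DifferentiableOn ℂ (fun z => ∫ u in Ioo (0 : ℝ) 1,
      ((u : ℝ) : ℂ) ^ (-α z) * ((1 - u : ℝ) : ℂ) ^ (-β z) * H u z) O := by
  haveI : ProperSpace E := FiniteDimensional.proper ℂ E
  intro z0 hz0
  obtain ⟨r, hr, hball⟩ := Metric.nhds_basis_closedBall.mem_iff.1 (hO.mem_nhds hz0)
  have hK : IsCompact (Metric.closedBall z0 r) := isCompact_closedBall z0 r
  have hKn : (Metric.closedBall z0 r).Nonempty := ⟨z0, Metric.mem_closedBall_self hr.le⟩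
  obtain ⟨za, hza, hma⟩ := hK.exists_isMaxOn hKn
    (continuous_re.comp_continuousOn (hα.continuousOn.mono hball))
  obtain ⟨zb, hzb, hmb⟩ := hK.exists_isMaxOn hKn
    (continuous_re.comp_continuousOn (hβ.continuousOn.mono hball))
  set a : ℝ := (α za).re with ha
  set b : ℝ := (β zb).re with hb
  have ha1 : a < 1 := h1 za (hball hza)
  have hb1 : b < 1 := h2 zb (hball hzb)
  obtain ⟨M, hM⟩ := (isCompact_Icc.prod hK).exists_bound_of_continuousOn (hc.mono (prod_mono le_rfl hball))
  have hint : Integrable (fun u : ℝ => ‖((u : ℝ) : ℂ) ^ ((((1 - a : ℝ) : ℂ)) - 1) *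
      (1 - (u : ℂ)) ^ ((((1 - b : ℝ) : ℂ)) - 1)‖ * M) (volume.restrict (Ioo 0 1)) := by
    have h3 := betaIntegral_convergent (u := ((1 - a : ℝ) : ℂ)) (v := ((1 - b : ℝ) : ℂ))
      (by rw [ofReal_re]; linarith) (by rw [ofReal_re]; linarith)
    rw [intervalIntegrable_iff_integrableOn_Ioo_of_le zero_le_one] at h3
    exact h3.norm.mul_const M
  have hM0 : 0 ≤ M := (norm_nonneg _).trans (hM (0, z0) ⟨⟨le_rfl, zero_le_one⟩, Metric.mem_closedBall_self hr.le⟩)
  set Φ : ℝ → E → ℂ := fun u z => (Ioo (0 : ℝ) 1).indicator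
    (fun u => ((u : ℝ) : ℂ) ^ (-α z) * ((1 - u : ℝ) : ℂ) ^ (-β z) * H u z) u with hΦ
  have hin : ∀ u ∈ Ioo (0 : ℝ) 1, ∀ z, Φ u z = ((u : ℝ) : ℂ) ^ (-α z) * ((1 - u : ℝ) : ℂ) ^ (-β z) * H u z := by
    intro u hu z
    simp only [hΦ, indicator_of_mem hu]
  have hout : ∀ u, u ∉ Ioo (0 : ℝ) 1 → ∀ z, Φ u z = 0 := by
    intro u hu z
    simp only [hΦ, indicator_of_notMem hu]
  have hbs : Metric.ball z0 r ⊆ O := Metric.ball_subset_closedBall.trans hball
  have key := Pool.Agent.HP.differentiableOn_integral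
    (volume.restrict (Ioo 0 1)) Φ (Metric.ball z0 r) Metric.isOpen_ball
    (by
      intro z hz
      have hz' := hbs hz
      have h4 : ContinuousOn (fun u : ℝ => ((u : ℝ) : ℂ) ^ (-α z) * ((1 - u : ℝ) : ℂ) ^ (-β z) * H u z)
          (Ioo 0 1) := by
        refine ContinuousOn.mul (ContinuousOn.mul ?_ ?_) ?_
        · intro u hu
          refine ContinuousAt.continuousWithinAt ?_
          refine ContinuousAt.cpow continuous_ofReal.continuousAt continuousAt_const ?_
          rw [ofReal_mem_slitPlane]; exact hu.1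
        · intro u hu
          refine ContinuousAt.continuousWithinAt ?_
          refine ContinuousAt.cpow (by fun_prop) continuousAt_const ?_
          rw [ofReal_mem_slitPlane]; exact sub_pos.2 hu.2
        · have h5 : ContinuousOn (fun u : ℝ => ((u, z) : ℝ × E)) (Ioo 0 1) := by fun_prop
          exact hc.comp h5 fun u hu => ⟨Ioo_subset_Icc_self hu, hz'⟩
      exact (h4.aestronglyMeasurable measurableSet_Ioo).congr
        ((ae_restrict_iff' measurableSet_Ioo).2 (Eventually.of_forall fun u hu => (hin u hu z).symm)))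
    (by
      intro u
      by_cases hu : u ∈ Ioo (0 : ℝ) 1
      · have e1 : Φ u = fun z => ((u : ℝ) : ℂ) ^ (-α z) * ((1 - u : ℝ) : ℂ) ^ (-β z) * H u z := by
          funext z; exact hin u hu z
        rw [e1]
        have n1 : ((u : ℝ) : ℂ) ≠ 0 := by exact_mod_cast hu.1.ne'
        have n2 : ((1 - u : ℝ) : ℂ) ≠ 0 := by exact_mod_cast (sub_pos.2 hu.2).ne'
        refine ((DifferentiableOn.const_cpow (hα.mono hbs).neg (Or.inl n1)).mul
          (DifferentiableOn.const_cpow (hβ.mono hbs).neg (Or.inl n2))).mul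
          ((hd u (Ioo_subset_Icc_self hu)).mono hbs)
      · have e1 : Φ u = fun _ => 0 := by
          funext z; exact hout u hu z
        rw [e1]
        exact differentiableOn_const _)
    (fun u : ℝ => ‖((u : ℝ) : ℂ) ^ ((((1 - a : ℝ) : ℂ)) - 1) *
      (1 - (u : ℂ)) ^ ((((1 - b : ℝ) : ℂ)) - 1)‖ * M) hint
    (by
      intro u z hz
      have hz' := Metric.ball_subset_closedBall hz
      by_cases hu : u ∈ Ioo (0 : ℝ) 1
      · rw [hin u hu, norm_mul]
        have hu1 : 0 < 1 - u := sub_pos.2 hu.2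
        refine mul_le_mul ?_ (hM (u, z) ⟨Ioo_subset_Icc_self hu, hz'⟩) (norm_nonneg _) (norm_nonneg _)
        have e2 : (1 - (u : ℂ)) = ((1 - u : ℝ) : ℂ) := by push_cast; ring
        rw [e2, norm_mul, norm_mul, norm_cpow_eq_rpow_re_of_pos hu.1, norm_cpow_eq_rpow_re_of_pos hu1,
          norm_cpow_eq_rpow_re_of_pos hu.1, norm_cpow_eq_rpow_re_of_pos hu1]
        have e3 : ((((1 - a : ℝ) : ℂ)) - 1).re = -a := by simp
        have e4 : ((((1 - b : ℝ) : ℂ)) - 1).re = -b := by simp
        rw [e3, e4, neg_re, neg_re]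
        have m1 : (α z).re ≤ a := hma hz'
        have m2 : (β z).re ≤ b := hmb hz'
        exact mul_le_mul (Real.rpow_le_rpow_of_exponent_ge hu.1 hu.2.le (by linarith))
          (Real.rpow_le_rpow_of_exponent_ge hu1 (by linarith [hu.1]) (by linarith))
          (Real.rpow_nonneg hu1.le _) (Real.rpow_nonneg hu.1.le _)
      · rw [hout u hu, norm_zero]
        exact mul_nonneg (norm_nonneg _) hM0)
  have h3 : (fun z => ∫ u in Ioo (0 : ℝ) 1, ((u : ℝ) : ℂ) ^ (-α z) * ((1 - u : ℝ) : ℂ) ^ (-β z) * H u z) =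
      fun z => ∫ u in Ioo (0 : ℝ) 1, Φ u z := by
    funext z
    exact setIntegral_congr_fun measurableSet_Ioo fun u hu => (hin u hu z).symm
  rw [h3]
  exact ((key z0 (Metric.mem_ball_self hr)).differentiableAt
    (Metric.isOpen_ball.mem_nhds (Metric.mem_ball_self hr))).differentiableWithinAt

theorem diff_prod {E ι : Type} [NormedAddCommGroup E] [NormedSpace ℂ E] {O : Set E} (s : Finset ι)
    (f : ι → E → ℂ) (h : ∀ i ∈ s, DifferentiableOn ℂ (f i) O) :
    DifferentiableOn ℂ (fun z => ∏ i ∈ s, f i z) O := by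
  classical
  induction s using Finset.induction_on with
  | empty => simp only [Finset.prod_empty]; exact differentiableOn_const _
  | insert a s ha ih =>
    simp only [Finset.prod_insert ha]
    exact (h a (Finset.mem_insert_self _ _)).mul (ih fun i hi => h i (Finset.mem_insert_of_mem hi))

/-- the integrals depend analytically on parameters -/
theorem diff_per {E : Type} [NormedAddCommGroup E] [NormedSpace ℂ E] [FiniteDimensional ℂ E]
    {O : Set E} (hO : IsOpen O) (ν e : E → Fin (n + 1) → ℂ) (hν : ∀ i, DifferentiableOn ℂ (fun z => ν z i) O)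
    (he : ∀ i, DifferentiableOn ℂ (fun z => e z i) O) (l : Fin n) (j : ℕ)
    (h1 : ∀ z ∈ O, (ν z l.castSucc).re < 1) (h2 : ∀ z ∈ O, (ν z l.succ).re < 1)
    (hδ : ∀ z ∈ O, e z l.succ - e z l.castSucc ∈ slitPlane)
    (hlt : ∀ z ∈ O, ∀ i, i < l.castSucc → ∀ u : ℝ, 0 ≤ u → u ≤ 1 →
      seg (e z l.castSucc) (e z l.succ) u - e z i ∈ slitPlane)
    (hgt : ∀ z ∈ O, ∀ i, l.succ < i → ∀ u : ℝ, 0 ≤ u → u ≤ 1 →
      e z i - seg (e z l.castSucc) (e z l.succ) u ∈ slitPlane) :
    DifferentiableOn ℂ (fun z => per (ν z) (e z) l j) O := by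
  have key := diff_beta hO (fun z => ν z l.castSucc) (fun z => ν z l.succ) (hν _) (hν _) h1 h2
    (fun u z => ker (ν z) (e z) l j (seg (e z l.castSucc) (e z l.succ) u))
    (by
      unfold ker
      have hec : ∀ i, ContinuousOn (fun p : ℝ × E => e p.2 i) (Icc 0 1 ×ˢ O) := fun i =>
        (he i).continuousOn.comp continuous_snd.continuousOn fun p hp => hp.2
      have hnc : ∀ i, ContinuousOn (fun p : ℝ × E => ν p.2 i) (Icc 0 1 ×ˢ O) := fun i =>
        (hν i).continuousOn.comp continuous_snd.continuousOn fun p hp => hp.2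
      have hseg : ContinuousOn (fun p : ℝ × E => seg (e p.2 l.castSucc) (e p.2 l.succ) p.1) (Icc 0 1 ×ˢ O) := by
        unfold seg
        have h3 : ContinuousOn (fun p : ℝ × E => (p.1 : ℂ)) (Icc 0 1 ×ˢ O) :=
          (continuous_ofReal.comp continuous_fst).continuousOn
        exact ((continuousOn_const.sub h3).mul (hec _)).add (h3.mul (hec _))
      refine (hseg.pow j).mul ?_
      refine continuousOn_finsetProd _ fun i _ => ?_
      unfold fac
      split_ifs with h3 h4
      · exact ContinuousOn.cpow (hseg.sub (hec i)) (hnc i).neg fun p hp => hlt _ hp.2 i h3 _ hp.1.1 hp.1.2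
      · exact ContinuousOn.cpow ((hec i).sub hseg) (hnc i).neg fun p hp => hgt _ hp.2 i h4 _ hp.1.1 hp.1.2
      · exact continuousOn_const)
    (by
      intro u hu
      unfold ker
      have hseg : DifferentiableOn ℂ (fun z : E => seg (e z l.castSucc) (e z l.succ) u) O := by
        unfold seg
        exact ((he _).const_mul _).add ((he _).const_mul _)
      refine (hseg.pow j).mul (diff_prod _ _ fun i _ => ?_)
      unfold fac
      split_ifs with h3 h4
      · intro z hz
        exact DifferentiableWithinAt.cpow ((hseg z hz).sub (he i z hz)) (hν i z hz).neg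
          (hlt z hz i h3 u hu.1 hu.2)
      · intro z hz
        exact DifferentiableWithinAt.cpow ((he i z hz).sub (hseg z hz)) (hν i z hz).neg
          (hgt z hz i h4 u hu.1 hu.2)
      · exact differentiableOn_const _)
  have h5 : DifferentiableOn ℂ (fun z => (e z l.succ - e z l.castSucc) *
      ((e z l.succ - e z l.castSucc) ^ (-ν z l.castSucc) * (e z l.succ - e z l.castSucc) ^ (-ν z l.succ))) O := by
    intro z hz
    have hd := (he l.succ z hz).sub (he l.castSucc z hz)
    exact hd.mul ((DifferentiableWithinAt.cpow hd (hν _ z hz).neg (hδ z hz)).mul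
      (DifferentiableWithinAt.cpow hd (hν _ z hz).neg (hδ z hz)))
  exact (h5.mul key).congr fun z hz => per_eq _ _ _ _ (slitPlane_ne_zero (hδ z hz))

end Pool.Agent.Run7.h659.SE
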