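import Pool.Agent.Run7.h659.SE1

/-!
# Integrals between consecutive points: a moving point and the connection formulas
-/

set_option autoImplicit false
set_option linter.unusedSectionVars false

open Complex Set MeasureTheory Filter Topology

namespace Pool.Agent.Run7.h659.SE

open Pool.Agent.Y118.HP (seg ee Dm isOpen_Dm InGap mem_Dm_of_im ee_self ee_succAbove ee_im ee_slit seg_slit_lt
  seg_slit_gt differentiable_ee strip convex_strip isOpen_strip sh sh_mem sh_seg tendsto_sh sh_sub_norm_le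
  norm_sh_sub ee_im_mem ee_im_or seg_im_mem ee_castSucc_castSucc ee_castSucc_succ ee_succ_castSucc ee_succ_succ
  ee_other)

variable {n : ℕ}

/-- the real vector with an entry inserted -/
noncomputable def er (μ : Fin n → ℝ) (m : Fin (n + 1)) (κ : ℝ) : Fin (n + 1) → ℝ :=
  Fin.insertNth (α := fun _ => ℝ) m κ μ

theorem er_coe (μ : Fin n → ℝ) (m : Fin (n + 1)) (κ : ℝ) (i : Fin (n + 1)) :
    ee μ m (κ : ℂ) i = ((er μ m κ i : ℝ) : ℂ) := by
  rcases Fin.eq_self_or_eq_succAbove m i with rfl | ⟨i', rfl⟩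
  · rw [ee_self]; simp [er]
  · rw [ee_succAbove]; simp [er]

theorem er_mem {μ : Fin n → ℝ} {κ : ℝ} {S : Set ℝ} (hμ : ∀ i, μ i ∈ S) (hκ : κ ∈ S) (m : Fin (n + 1))
    (i : Fin (n + 1)) : er μ m κ i ∈ S := by
  rcases Fin.eq_self_or_eq_succAbove m i with rfl | ⟨i', rfl⟩
  · simpa [er] using hκ
  · simpa [er] using hμ i'

/-- analyticity in the moving point -/
theorem diff_move {a : Fin n → ℝ} (ha : StrictMono a) (m : Fin (n + 1)) (ν : Fin (n + 1) → ℂ)
    (hν : ∀ i, (ν i).re < 1) (l : Fin n) (j : ℕ) :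
    DifferentiableOn ℂ (fun z => per ν (ee a m z) l j) (Dm a m) :=
  diff_per (isOpen_Dm a m) (fun _ => ν) (fun z => ee a m z) (fun _ => differentiableOn_const _)
    (fun i => (differentiable_ee a m i).differentiableOn) l j (fun _ _ => hν _) (fun _ _ => hν _)
    (fun _ hz => ee_slit ha hz Fin.castSucc_lt_succ)
    (fun _ hz _ hi _ h0 h1 => seg_slit_lt ha hz hi h0 h1)
    (fun _ hz _ hi _ h0 h1 => seg_slit_gt ha hz hi h0 h1)

/-- the function which is integrated -/
noncomputable def g0 (μ : Fin n → ℝ) (κ : ℝ) (a : Fin n → ℝ) (t : ℂ) (j : ℕ) (x : ℂ) : ℂ :=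
  x ^ j * ((x - t) ^ (-(κ : ℂ)) * ∏ i, (x - a i) ^ (-(μ i : ℂ)))

theorem g0_eq (μ : Fin n → ℝ) (κ : ℝ) (a : Fin n → ℝ) (m : Fin (n + 1)) (t : ℂ) (j : ℕ) (x : ℂ) :
    g0 μ κ a t j x = x ^ j * ∏ i, (x - ee a m t i) ^ (-ee μ m κ i) := by
  unfold g0
  rw [Fin.prod_univ_succAbove _ m]
  simp only [ee_self, ee_succAbove]

theorem diff_g0 (μ : Fin n → ℝ) (κ : ℝ) (a : Fin n → ℝ) (t : ℂ) (j : ℕ) :
    DifferentiableOn ℂ (g0 μ κ a t j) (strip t) := by
  intro x hx
  refine DifferentiableAt.differentiableWithinAt ?_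
  unfold g0
  refine (differentiableAt_id.pow j).mul ((DifferentiableAt.cpow_const ?_ ?_).mul
    (DifferentiableAt.fun_finsetProd fun i _ => DifferentiableAt.cpow_const ?_ ?_))
  · fun_prop
  · rw [mem_slitPlane_iff]; right
    rw [sub_im]
    have := hx.2
    exact (sub_neg.2 this).ne
  · fun_prop
  · rw [mem_slitPlane_iff]; right
    rw [sub_im, ofReal_im, sub_zero]
    exact hx.1.ne'

theorem exists_primitive (μ : Fin n → ℝ) (κ : ℝ) (a : Fin n → ℝ) (t : ℂ) (j : ℕ) :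
    ∃ G : ℂ → ℂ, ∀ x ∈ strip t, HasDerivAt G (g0 μ κ a t j x) x := by
  obtain ⟨G, hG⟩ := (convex_strip t).exists_forall_hasDerivWithinAt (diff_g0 μ κ a t j)
  exact ⟨G, fun x hx => (hG x hx).hasDerivAt ((isOpen_strip t).mem_nhds hx)⟩

theorem neg_cpow_pos {w : ℂ} (hw : 0 < w.im) (c : ℂ) : (-w) ^ (-c) = exp (Real.pi * c * I) * w ^ (-c) := by
  have h0 : w ≠ 0 := by rintro rfl; simp at hw
  have hl : log (-w) = log w - Real.pi * I := by
    unfold log
    rw [norm_neg, arg_neg_eq_arg_sub_pi_of_im_pos hw]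
    push_cast; ring
  rw [cpow_def_of_ne_zero (neg_ne_zero.2 h0), cpow_def_of_ne_zero h0, hl, ← exp_add]
  congr 1
  ring

theorem neg_cpow_neg {w : ℂ} (hw : w.im < 0) (c : ℂ) : (-w) ^ (-c) = exp (-(Real.pi * c * I)) * w ^ (-c) := by
  have h := neg_cpow_pos (w := -w) (by simpa using hw) c
  rw [neg_neg] at h
  rw [h, ← mul_assoc, ← exp_add]
  simp

/-- the factors which change the branch -/
noncomputable def cc (μ : Fin n → ℝ) (κ : ℝ) (m i : Fin (n + 1)) : ℂ :=
  if i = m then exp (-(Real.pi * κ * I)) else exp (Real.pi * ee μ m κ i * I)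

/-- the phase of the gap `l` -/
noncomputable def ph (μ : Fin n → ℝ) (κ : ℝ) (m : Fin (n + 1)) (l : Fin n) : ℂ :=
  ∏ i, if i ≤ l.castSucc then 1 else cc μ κ m i

theorem norm_ph (μ : Fin n → ℝ) (κ : ℝ) (m : Fin (n + 1)) (l : Fin n) : ‖ph μ κ m l‖ = 1 := by
  unfold ph cc
  rw [norm_prod]
  refine Finset.prod_eq_one fun i _ => ?_
  split_ifs
  · simp
  · rw [norm_exp]; simp
  · rw [norm_exp, er_coe]; simp

theorem full_eq (μ : Fin n → ℝ) (κ : ℝ) (a : Fin n → ℝ) (m : Fin (n + 1)) (t : ℂ) (l : Fin n) (j : ℕ) {x : ℂ}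
    (hx : x ∈ strip t) :
    full (ee μ m κ) (ee a m t) l j x = ph μ κ m l * g0 μ κ a t j x := by
  rw [g0_eq μ κ a m]
  unfold full ph
  rw [mul_left_comm, ← Finset.prod_mul_distrib]
  congr 1
  refine Finset.prod_congr rfl fun i _ => ?_
  by_cases h1 : i ≤ l.castSucc
  · simp [h1]
  · simp only [h1, if_false]
    unfold cc
    by_cases h2 : i = m
    · subst h2
      rw [if_pos rfl, ee_self, ee_self, ← neg_sub x t]
      exact neg_cpow_neg (by rw [sub_im]; exact sub_neg.2 hx.2) _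
    · rw [if_neg h2, ← neg_sub x]
      refine neg_cpow_pos ?_ _
      rw [sub_im, ee_im h2, sub_zero]
      exact hx.1

theorem norm_cpow_neg_real (w : ℂ) (r : ℝ) : ‖w ^ (-(r : ℂ))‖ = ‖w‖ ^ (-r) := by
  have : (-(r : ℂ)) = ((-r : ℝ) : ℂ) := by push_cast; ring
  rw [this, norm_cpow_real]

/-- The integral over the gap `l` is the limit of differences of the primitive. -/
theorem tendsto_period {a : Fin n → ℝ} (ha : StrictMono a) {μ : Fin n → ℝ} (hμ : ∀ i, μ i ∈ Ico (0 : ℝ) 1)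
    {κ : ℝ} (hκ : κ ∈ Ico (0 : ℝ) 1) (m : Fin (n + 1)) {t : ℂ} (ht : 0 < t.im)
    (j : ℕ) {G : ℂ → ℂ} (hG : ∀ x ∈ strip t, HasDerivAt G (g0 μ κ a t j x) x) (l : Fin n) :
    Tendsto (fun ε : ℝ => ph μ κ m l * (G (sh t ε (ee a m t l.succ)) - G (sh t ε (ee a m t l.castSucc))))
      (𝓝[>] (0 : ℝ)) (𝓝 (per (ee μ m κ) (ee a m t) l j)) := by
  have htD : t ∈ Dm a m := mem_Dm_of_im a m ht.ne'
  have hν : ∀ i, er μ m κ i ∈ Ico (0 : ℝ) 1 := er_mem hμ hκ m
  set e := ee a m t with he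
  set p := e l.castSucc with hp
  set q := e l.succ with hq
  set δ := q - p with hδ
  have hδs : δ ∈ slitPlane := ee_slit ha htD Fin.castSucc_lt_succ
  have hδ0 : δ ≠ 0 := slitPlane_ne_zero hδs
  have hpim := ee_im_mem (a := a) (m := m) ht l.castSucc
  have hqim := ee_im_mem (a := a) (m := m) ht l.succ
  -- the integrand
  set Φ : ℝ → ℝ → ℂ := fun ε u => ph μ κ m l * (g0 μ κ a t j (sh t ε (seg p q u)) *
    (sh t ε q - sh t ε p)) with hΦ
  have hxim : ∀ u ∈ Icc (0 : ℝ) 1, 0 ≤ (seg p q u).im ∧ (seg p q u).im ≤ t.im :=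
    fun u hu => seg_im_mem hpim hqim hu.1 hu.2
  have hmem : ∀ ε : ℝ, 0 < ε → ε ≤ 1 → ∀ u ∈ Icc (0 : ℝ) 1, sh t ε (seg p q u) ∈ strip t :=
    fun ε h0 h1 u hu => sh_mem ht h0 h1 (hxim u hu).1 (hxim u hu).2
  have hg0c : ContinuousOn (g0 μ κ a t j) (strip t) := (diff_g0 μ κ a t j).continuousOn
  have hpath : ∀ ε : ℝ, Continuous fun u : ℝ => sh t ε (seg p q u) := by
    intro ε
    have : (fun u : ℝ => sh t ε (seg p q u)) = fun u : ℝ => seg (sh t ε p) (sh t ε q) u := by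
      funext u; rw [sh_seg]
    rw [this]
    unfold seg
    fun_prop
  have hΦc : ∀ ε : ℝ, 0 < ε → ε ≤ 1 → ContinuousOn (Φ ε) (Icc 0 1) := by
    intro ε h0 h1
    simp only [hΦ]
    refine continuousOn_const.mul (ContinuousOn.mul ?_ continuousOn_const)
    exact hg0c.comp (hpath ε).continuousOn (hmem ε h0 h1)
  -- FTC
  have hFTC : ∀ ε : ℝ, 0 < ε → ε ≤ 1 → ∫ u in (0 : ℝ)..1, Φ ε u =
      ph μ κ m l * (G (sh t ε q) - G (sh t ε p)) := by
    intro ε h0 h1
    have hder : ∀ u ∈ uIcc (0 : ℝ) 1,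
        HasDerivAt (fun u : ℝ => ph μ κ m l * G (sh t ε (seg p q u))) (Φ ε u) u := by
      intro u hu
      rw [uIcc_of_le zero_le_one] at hu
      have h2 : HasDerivAt (fun u : ℝ => sh t ε (seg p q u)) (sh t ε q - sh t ε p) u := by
        have : (fun u : ℝ => sh t ε (seg p q u)) =
            fun u : ℝ => sh t ε p + (u : ℂ) * (sh t ε q - sh t ε p) := by
          funext u; rw [sh_seg]; unfold seg; ring
        rw [this]
        have h4 := (hasDerivAt_id u).ofReal_comp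
        have h5 := (h4.mul_const (sh t ε q - sh t ε p)).const_add (sh t ε p)
        refine h5.congr_deriv ?_
        push_cast; ring
      have h6 := (hG _ (hmem ε h0 h1 u hu)).comp u h2
      exact h6.const_mul (ph μ κ m l)
    rw [intervalIntegral.integral_eq_sub_of_hasDerivAt hder
      (ContinuousOn.intervalIntegrable (by rw [uIcc_of_le zero_le_one]; exact hΦc ε h0 h1))]
    simp [seg]
    ring
  -- bounds
  obtain ⟨M, hM⟩ : ∃ M, ∀ u ∈ Icc (0 : ℝ) 1, ‖∏ i, fac (ee μ m κ) e l i (seg p q u)‖ ≤ M := by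
    have hc : ContinuousOn (fun u : ℝ => ∏ i, fac (ee μ m κ) e l i (seg p q u)) (Icc 0 1) := by
      intro u hu
      refine ContinuousAt.continuousWithinAt (tendsto_finsetProd _ fun i _ => ?_)
      have hseg : Continuous fun u : ℝ => seg p q u := by unfold seg; fun_prop
      unfold fac
      split_ifs with h1 h2
      · exact ContinuousAt.cpow (hseg.continuousAt.sub continuousAt_const) continuousAt_const
          (seg_slit_lt ha htD h1 hu.1 hu.2)
      · exact ContinuousAt.cpow (continuousAt_const.sub hseg.continuousAt) continuousAt_const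
          (seg_slit_gt ha htD h2 hu.1 hu.2)
      · exact continuousAt_const
    exact isCompact_Icc.exists_bound_of_continuousOn hc
  obtain ⟨R, hR0, hR⟩ : ∃ R : ℝ, 0 ≤ R ∧ ∀ ε : ℝ, 0 < ε → ε ≤ 1 → ∀ u ∈ Icc (0 : ℝ) 1,
      ‖sh t ε (seg p q u)‖ ≤ R := by
    refine ⟨‖p‖ + ‖q‖ + ‖t‖, by positivity, fun ε h0 h1 u hu => ?_⟩
    obtain ⟨hu0, hu1⟩ := hu
    set x := seg p q u with hx
    have h3 : ‖x‖ ≤ ‖p‖ + ‖q‖ := by
      rw [hx]; unfold seg
      refine (norm_add_le _ _).trans ?_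
      rw [norm_mul, norm_mul]
      have h4 : ‖(1 - (u : ℂ))‖ = 1 - u := by
        rw [← ofReal_one, ← ofReal_sub, norm_real, Real.norm_eq_abs, abs_of_nonneg (by linarith)]
      have h5 : ‖(u : ℂ)‖ = u := by
        rw [norm_real, Real.norm_eq_abs, abs_of_nonneg hu0]
      rw [h4, h5]
      nlinarith [norm_nonneg p, norm_nonneg q]
    have h6 : sh t ε x = (x.re : ℂ) + (((1 - ε) * x.im + ε * (t.im / 2) : ℝ) : ℂ) * I := by
      unfold sh; rw [mk_eq_add_mul_I]
    have hxi := hxim u ⟨hu0, hu1⟩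
    have h7 : ‖sh t ε x‖ ≤ |x.re| + |(1 - ε) * x.im + ε * (t.im / 2)| := by
      rw [h6]
      refine (norm_add_le _ _).trans ?_
      rw [norm_mul, norm_I, mul_one, norm_real, norm_real, Real.norm_eq_abs, Real.norm_eq_abs]
    have h8 : |(1 - ε) * x.im + ε * (t.im / 2)| ≤ t.im := by
      have h9 : 0 ≤ (1 - ε) * x.im := mul_nonneg (by linarith) hxi.1
      have h10 : 0 ≤ ε * (t.im / 2) := by positivity
      have h11 : (1 - ε) * x.im ≤ (1 - ε) * t.im := mul_le_mul_of_nonneg_left hxi.2 (by linarith)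
      rw [abs_of_nonneg (by linarith)]
      nlinarith
    have h9 := abs_re_le_norm x
    have h10 := (le_abs_self _).trans (abs_im_le_norm t)
    linarith
  have hxp : ∀ u : ℝ, seg p q u - p = δ * (u : ℂ) := fun u => seg_sub_left p q u
  have hqx : ∀ u : ℝ, q - seg p q u = δ * ((1 - u : ℝ) : ℂ) := fun u => sub_seg_right p q u
  have hfac0 : ∀ u ∈ Ioo (0 : ℝ) 1, ∀ i, seg p q u - e i ≠ 0 := by
    intro u hu i
    rcases lt_trichotomy i l.castSucc with h1 | h1 | h1
    · exact slitPlane_ne_zero (seg_slit_lt ha htD h1 hu.1.le hu.2.le)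
    · rw [h1, ← hp, hxp]
      exact mul_ne_zero hδ0 (by exact_mod_cast hu.1.ne')
    · rcases eq_or_ne i l.succ with h5 | h5
      · rw [h5, ← hq, ← neg_ne_zero, neg_sub, hqx]
        exact mul_ne_zero hδ0 (by exact_mod_cast (sub_pos.2 hu.2).ne')
      · have h6 : l.succ < i := lt_of_le_of_ne (Fin.castSucc_lt_iff_succ_le.1 h1) (Ne.symm h5)
        rw [← neg_ne_zero, neg_sub]
        exact slitPlane_ne_zero (seg_slit_gt ha htD h6 hu.1.le hu.2.le)
  set B : ℝ → ℝ := fun u => R ^ j * (2 ^ (n + 1) * (M * (‖δ ^ (-ee μ m κ l.castSucc)‖ *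
    ‖δ ^ (-ee μ m κ l.succ)‖ * ‖((u : ℝ) : ℂ) ^ (((1 - er μ m κ l.castSucc : ℝ) : ℂ) - 1) *
      (1 - (u : ℂ)) ^ (((1 - er μ m κ l.succ : ℝ) : ℂ) - 1)‖))) * ‖δ‖ with hB
  have hBint : IntervalIntegrable B volume 0 1 := by
    have h3 := (betaIntegral_convergent (u := ((1 - er μ m κ l.castSucc : ℝ) : ℂ))
      (v := ((1 - er μ m κ l.succ : ℝ) : ℂ))
      (by rw [ofReal_re]; linarith [(hν l.castSucc).2]) (by rw [ofReal_re]; linarith [(hν l.succ).2])).norm
    exact ((((h3.const_mul _).const_mul _).const_mul _).const_mul _).mul_const _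
  have hbound : ∀ ε : ℝ, 0 < ε → ε ≤ 1 / 2 → ∀ u ∈ Ioo (0 : ℝ) 1, ‖Φ ε u‖ ≤ B u := by
    intro ε h0 h1 u hu
    have hu' := Ioo_subset_Icc_self hu
    set x := seg p q u with hx
    have hxi := hxim u hu'
    -- the product of the norms
    have hprod : ∏ i, ‖x - e i‖ ^ (-er μ m κ i) = ‖∏ i, fac (ee μ m κ) e l i x‖ *
        (‖δ ^ (-ee μ m κ l.castSucc)‖ *
    ‖δ ^ (-ee μ m κ l.succ)‖ * ‖((u : ℝ) : ℂ) ^ (((1 - er μ m κ l.castSucc : ℝ) : ℂ) - 1) *
      (1 - (u : ℂ)) ^ (((1 - er μ m κ l.succ : ℝ) : ℂ) - 1)‖) := by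
      have h2 := congrArg (fun z => ‖z‖) (prod_full (ee μ m κ) e l x)
      simp only [norm_mul, norm_prod] at h2
      have h3 : ∏ i, ‖(if i ≤ l.castSucc then x - e i else e i - x) ^ (-ee μ m κ i)‖ =
          ∏ i, ‖x - e i‖ ^ (-er μ m κ i) := by
        refine Finset.prod_congr rfl fun i _ => ?_
        rw [er_coe, norm_cpow_neg_real]
        split_ifs
        · rfl
        · rw [norm_sub_rev]
      rw [h3, ← norm_prod] at h2
      rw [h2, ← hp, ← hq, hxp, hqx, ofReal_mul_cpow hu.1 hδ0, ofReal_mul_cpow (sub_pos.2 hu.2) hδ0]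
      have e1 : (((1 - er μ m κ l.castSucc : ℝ) : ℂ) - 1) = -ee μ m κ l.castSucc := by
        rw [er_coe]; push_cast; ring
      have e2 : (((1 - er μ m κ l.succ : ℝ) : ℂ) - 1) = -ee μ m κ l.succ := by
        rw [er_coe]; push_cast; ring
      have e3 : (1 - (u : ℂ)) = ((1 - u : ℝ) : ℂ) := by push_cast; ring
      rw [e1, e2, e3, norm_mul, norm_mul, norm_mul]
      ring
    have h5 : ‖g0 μ κ a t j (sh t ε x)‖ ≤ R ^ j * (2 ^ (n + 1) * ∏ i, ‖x - e i‖ ^ (-er μ m κ i)) := by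
      rw [g0_eq μ κ a m, norm_mul, norm_pow, norm_prod]
      refine mul_le_mul (pow_le_pow_left₀ (norm_nonneg _) (hR ε h0 (by linarith) u hu') j) ?_
        (Finset.prod_nonneg fun i _ => norm_nonneg _) (by positivity)
      have h6 : (2 : ℝ) ^ (n + 1) = ∏ _i : Fin (n + 1), (2 : ℝ) := by simp
      rw [h6, ← Finset.prod_mul_distrib]
      refine Finset.prod_le_prod (fun i _ => norm_nonneg _) fun i _ => ?_
      rw [er_coe, norm_cpow_neg_real]
      have h7 := norm_sh_sub h0.le (by linarith : ε ≤ 1) hxi.1 hxi.2 (ee_im_or a m t i)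
      have h8 : 0 < ‖x - e i‖ := norm_pos_iff.2 (hfac0 u hu i)
      have h9 : (1 / 2) * ‖x - e i‖ ≤ ‖sh t ε x - e i‖ := by
        refine le_trans ?_ h7
        exact mul_le_mul_of_nonneg_right (by linarith) (norm_nonneg _)
      have h10 := Real.rpow_le_rpow_of_nonpos (by positivity : 0 < (1 / 2) * ‖x - e i‖) h9
        (by linarith [(hν i).1] : (-er μ m κ i) ≤ 0)
      refine h10.trans ?_
      rw [Real.mul_rpow (by norm_num) (norm_nonneg _)]
      refine mul_le_mul_of_nonneg_right ?_ (Real.rpow_nonneg (norm_nonneg _) _)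
      rw [one_div, Real.inv_rpow (by norm_num), Real.rpow_neg (by norm_num), inv_inv]
      calc (2 : ℝ) ^ (er μ m κ i) ≤ 2 ^ (1 : ℝ) :=
            Real.rpow_le_rpow_of_exponent_le (by norm_num) (hν i).2.le
        _ = 2 := Real.rpow_one 2
    have h11 : ‖sh t ε q - sh t ε p‖ ≤ ‖δ‖ := sh_sub_norm_le t h0.le (by linarith) p q
    simp only [hΦ]
    rw [norm_mul, norm_ph, one_mul, norm_mul]
    refine (mul_le_mul h5 h11 (norm_nonneg _) (by positivity)).trans ?_
    rw [hprod]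
    have hM' := hM u hu'
    simp only [hB]
    refine mul_le_mul_of_nonneg_right ?_ (norm_nonneg _)
    refine mul_le_mul_of_nonneg_left ?_ (by positivity)
    refine mul_le_mul_of_nonneg_left ?_ (by positivity)
    exact mul_le_mul_of_nonneg_right hM' (by positivity)
  have hlim : ∀ u ∈ Ioo (0 : ℝ) 1, Tendsto (fun ε => Φ ε u) (𝓝[>] (0 : ℝ))
      (𝓝 ((q - p) * full (ee μ m κ) e l j (seg p q u))) := by
    intro u hu
    have hu' := Ioo_subset_Icc_self hu
    set x := seg p q u with hx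
    have hsm : ∀ {r : ℝ}, 0 < r → δ * (r : ℂ) ∈ slitPlane := by
      intro r hr
      rw [mem_slitPlane_iff] at hδs ⊢
      rw [re_mul_ofReal, im_mul_ofReal]
      rcases hδs with h | h
      · left; positivity
      · right; exact mul_ne_zero h hr.ne'
    have hxps : x - p ∈ slitPlane := by rw [hxp]; exact hsm hu.1
    have hqxs : q - x ∈ slitPlane := by rw [hqx]; exact hsm (sub_pos.2 hu.2)
    -- the integrand as a function of the point
    have hpt : Tendsto (fun y : ℂ => full (ee μ m κ) e l j y) (𝓝 x) (𝓝 (full (ee μ m κ) e l j x)) := by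
      unfold full
      refine (continuousAt_id.pow j).mul (tendsto_finsetProd _ fun i _ => ?_)
      by_cases h1 : i ≤ l.castSucc
      · simp only [h1, if_true]
        refine ContinuousAt.cpow (continuousAt_id.sub continuousAt_const) continuousAt_const ?_
        rcases eq_or_lt_of_le h1 with h2 | h2
        · rw [h2]; exact hxps
        · exact seg_slit_lt ha htD h2 hu'.1 hu'.2
      · simp only [h1, if_false]
        refine ContinuousAt.cpow (continuousAt_const.sub continuousAt_id) continuousAt_const ?_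
        rcases eq_or_ne i l.succ with h5 | h5
        · rw [h5]; exact hqxs
        · have h6 : l.succ < i := lt_of_le_of_ne (Fin.castSucc_lt_iff_succ_le.1 (not_le.1 h1)) (Ne.symm h5)
          exact seg_slit_gt ha htD h6 hu'.1 hu'.2
    have h4 : Tendsto (fun ε : ℝ => full (ee μ m κ) e l j (sh t ε x) * (sh t ε q - sh t ε p)) (𝓝[>] (0 : ℝ))
        (𝓝 (full (ee μ m κ) e l j x * (q - p))) := by
      refine (hpt.comp (tendsto_sh t x)).mul ?_
      exact (tendsto_sh t q).sub (tendsto_sh t p)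
    rw [mul_comm] at h4
    refine h4.congr' ?_
    filter_upwards [Ioc_mem_nhdsGT (show (0 : ℝ) < 1 / 2 by norm_num)] with ε hε
    have h7 := hmem ε hε.1 (by linarith [hε.2]) u hu'
    have h8 := full_eq μ κ a m t l j h7
    rw [← he] at h8
    simp only [hΦ]
    rw [h8]
    ring
  have hfin : Tendsto (fun ε : ℝ => ∫ u in (0 : ℝ)..1, Φ ε u) (𝓝[>] (0 : ℝ))
      (𝓝 (per (ee μ m κ) e l j)) := by
    unfold per
    have hne : ∀ᵐ u : ℝ, u ≠ 1 := by
      rw [ae_iff]; simp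
    refine intervalIntegral.tendsto_integral_filter_of_dominated_convergence B ?_ ?_ hBint ?_
    · filter_upwards [Ioc_mem_nhdsGT (show (0 : ℝ) < 1 / 2 by norm_num)] with ε hε
      rw [uIoc_of_le zero_le_one]
      exact ((hΦc ε hε.1 (by linarith [hε.2])).mono Ioc_subset_Icc_self).aestronglyMeasurable measurableSet_Ioc
    · filter_upwards [Ioc_mem_nhdsGT (show (0 : ℝ) < 1 / 2 by norm_num)] with ε hε
      filter_upwards [hne] with u h1 hu
      rw [uIoc_of_le zero_le_one] at hu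
      exact hbound ε hε.1 hε.2 u ⟨hu.1, lt_of_le_of_ne hu.2 h1⟩
    · filter_upwards [hne] with u h1 hu
      rw [uIoc_of_le zero_le_one] at hu
      exact hlim u ⟨hu.1, lt_of_le_of_ne hu.2 h1⟩
  refine hfin.congr' ?_
  filter_upwards [Ioc_mem_nhdsGT (show (0 : ℝ) < 1 / 2 by norm_num)] with ε hε
  exact hFTC ε hε.1 (by linarith [hε.2])

end Pool.Agent.Run7.h659.SE
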