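import Pool.Agent.Run7.h659.SE2

/-!
# Integrals between consecutive points: the connection formulas
-/

set_option autoImplicit false
set_option linter.unusedSectionVars false

open Complex Set MeasureTheory Filter Topology

namespace Pool.Agent.Run7.h659.SE

open Pool.Agent.Y118.HP (seg ee Dm isOpen_Dm InGap mem_Dm_of_im ee_self ee_succAbove ee_im ee_slit seg_slit_lt
  seg_slit_gt differentiable_ee strip convex_strip isOpen_strip sh sh_mem sh_seg tendsto_sh sh_sub_norm_le
  norm_sh_sub ee_im_mem ee_im_or seg_im_mem ee_castSucc_castSucc ee_castSucc_succ ee_succ_castSucc ee_succ_succ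
  ee_other)

variable {n : ℕ}

/-- the product of the phases to the right of `i` -/
noncomputable def phs (μ : Fin n → ℝ) (κ : ℝ) (m i : Fin (n + 1)) : ℂ :=
  ∏ i', if i' ≤ i then 1 else cc μ κ m i'

theorem ph_eq (μ : Fin n → ℝ) (κ : ℝ) (m : Fin (n + 1)) (l : Fin n) : ph μ κ m l = phs μ κ m l.castSucc := rfl

theorem phs_castSucc (μ : Fin n → ℝ) (κ : ℝ) (m : Fin (n + 1)) (l : Fin n) :
    phs μ κ m l.castSucc = cc μ κ m l.succ * phs μ κ m l.succ := by
  classical
  unfold phs
  have h : ∀ i', (if i' ≤ l.castSucc then (1 : ℂ) else cc μ κ m i') =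
      (if i' = l.succ then cc μ κ m l.succ else 1) * (if i' ≤ l.succ then 1 else cc μ κ m i') := by
    intro i'
    rcases lt_trichotomy i' l.succ with h1 | h1 | h1
    · have h2 : i' ≤ l.castSucc := Fin.le_castSucc_iff.2 h1
      simp [h2, h1.ne, h1.le]
    · subst h1
      have h2 : ¬ l.succ ≤ l.castSucc := not_le.2 Fin.castSucc_lt_succ
      simp [h2]
    · have h2 : ¬ i' ≤ l.castSucc := not_le.2 (Fin.castSucc_lt_succ.trans h1)
      simp [h2, h1.ne', not_le.2 h1]
  simp only [h, Finset.prod_mul_distrib, Finset.prod_ite_eq', Finset.mem_univ, if_true]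

theorem cc_castSucc_self (μ : Fin n → ℝ) (κ : ℝ) (k : Fin n) :
    cc μ κ k.castSucc k.castSucc = exp (-(Real.pi * κ * I)) := if_pos rfl

theorem cc_succ_self (μ : Fin n → ℝ) (κ : ℝ) (k : Fin n) :
    cc μ κ k.succ k.succ = exp (-(Real.pi * κ * I)) := if_pos rfl

theorem cc_castSucc_succ (μ : Fin n → ℝ) (κ : ℝ) (k : Fin n) :
    cc μ κ k.castSucc k.succ = exp (Real.pi * μ k * I) := by
  unfold cc
  rw [if_neg Fin.castSucc_lt_succ.ne', ee_castSucc_succ]

theorem cc_succ_castSucc (μ : Fin n → ℝ) (κ : ℝ) (k : Fin n) :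
    cc μ κ k.succ k.castSucc = exp (Real.pi * μ k * I) := by
  unfold cc
  rw [if_neg Fin.castSucc_lt_succ.ne, ee_succ_castSucc]

theorem cc_swap (μ : Fin n → ℝ) (κ : ℝ) (k : Fin n) (i : Fin (n + 1)) :
    cc μ κ k.succ i = cc μ κ k.castSucc (Equiv.swap k.castSucc k.succ i) := by
  by_cases h1 : i = k.castSucc
  · rw [h1, Equiv.swap_apply_left, cc_castSucc_succ, cc_succ_castSucc]
  · by_cases h2 : i = k.succ
    · rw [h2, Equiv.swap_apply_right, cc_castSucc_self, cc_succ_self]
    · rw [Equiv.swap_apply_of_ne_of_ne h1 h2]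
      unfold cc
      rw [if_neg h1, if_neg h2, ee_other μ k κ h1 h2]

theorem phs_swap (μ : Fin n → ℝ) (κ : ℝ) (k : Fin n) {i : Fin (n + 1)} (hi : i ≠ k.castSucc) :
    phs μ κ k.succ i = phs μ κ k.castSucc i := by
  unfold phs
  refine Fintype.prod_equiv (Equiv.swap k.castSucc k.succ) _ _ fun i' => ?_
  rw [cc_swap]
  have h : (Equiv.swap k.castSucc k.succ i' ≤ i) ↔ i' ≤ i := by
    have h3 : k.castSucc ≤ i ↔ k.succ ≤ i := by
      constructor
      · intro h
        exact Fin.castSucc_lt_iff_succ_le.1 (lt_of_le_of_ne h (Ne.symm hi))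
      · intro h
        exact Fin.castSucc_lt_succ.le.trans h
    by_cases h1 : i' = k.castSucc
    · rw [h1, Equiv.swap_apply_left, h3]
    · by_cases h2 : i' = k.succ
      · rw [h2, Equiv.swap_apply_right, h3]
      · rw [Equiv.swap_apply_of_ne_of_ne h1 h2]
  simp only [h]

/-- the vector of the connection formula -/
noncomputable def Uv (x y : ℂ) (k l : Fin n) : ℂ :=
  if (l : ℕ) + 1 = k then x else if l = k then -(x * y) - 1 else if (l : ℕ) = k + 1 then y else 0

/-- `a k` is passed by the moving point in the upper half-plane -/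
theorem conn_upper {a : Fin n → ℝ} (ha : StrictMono a) {μ : Fin n → ℝ} (hμ : ∀ i, μ i ∈ Ico (0 : ℝ) 1)
    {κ : ℝ} (hκ : κ ∈ Ico (0 : ℝ) 1) (k : Fin n) {t : ℂ} (ht : 0 < t.im) (j : ℕ) (l : Fin n) :
    per (ee μ k.succ κ) (ee a k.succ t) l j = per (ee μ k.castSucc κ) (ee a k.castSucc t) l j +
      Uv (exp (-(Real.pi * κ * I))) (exp (-(Real.pi * μ k * I))) k l *
        per (ee μ k.castSucc κ) (ee a k.castSucc t) k j := by
  obtain ⟨G, hG⟩ := exists_primitive μ κ a t j
  have h1 := tendsto_period ha hμ hκ k.succ ht j hG l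
  have h2 := tendsto_period ha hμ hκ k.castSucc ht j hG l
  have h3 := tendsto_period ha hμ hκ k.castSucc ht j hG k
  set x := exp (-(Real.pi * κ * I)) with hx
  set y := exp (-(Real.pi * μ k * I)) with hy
  have hyi : exp (Real.pi * μ k * I) = y⁻¹ := by rw [hy, exp_neg, inv_inv]
  have hy0 : y ≠ 0 := exp_ne_zero _
  have hρ : phs μ κ k.succ k.succ = phs μ κ k.castSucc k.succ := phs_swap μ κ k Fin.castSucc_lt_succ.ne'
  refine tendsto_nhds_unique (h1.congr fun ε => ?_)
    (h2.add (h3.const_mul (Uv x y k l)))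
  rw [ph_eq, ph_eq, ph_eq]
  rw [ee_castSucc_castSucc, ee_castSucc_succ, phs_castSucc μ κ k.castSucc k, cc_castSucc_succ, hyi]
  unfold Uv
  by_cases c1 : (l : ℕ) + 1 = k
  · rw [if_pos c1]
    have e1 : l.succ = k.castSucc := Fin.ext (by simpa using c1)
    have e2 : l.castSucc ≠ k.castSucc := by
      intro hh; have := congrArg Fin.val hh; simp at this; omega
    have e3 : l.castSucc ≠ k.succ := by
      intro hh; have := congrArg Fin.val hh; simp at this; omega
    rw [phs_swap μ κ k e2, phs_castSucc μ κ k.castSucc l, e1, ee_succ_castSucc, ee_castSucc_castSucc,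
      ee_other a k t e2 e3, cc_castSucc_self, ← hx, phs_castSucc μ κ k.castSucc k, cc_castSucc_succ, hyi]
    ring
  · rw [if_neg c1]
    by_cases c2 : l = k
    · subst c2
      rw [if_pos rfl, ee_castSucc_castSucc, ee_castSucc_succ, ee_succ_succ, ee_succ_castSucc,
        phs_castSucc μ κ l.castSucc l, cc_castSucc_succ, hyi, phs_castSucc μ κ l.succ l, cc_succ_self, hρ, ← hx]
      field_simp
      ring
    · rw [if_neg c2]
      by_cases c3 : (l : ℕ) = k + 1
      · rw [if_pos c3]
        have e1 : l.castSucc = k.succ := Fin.ext (by simpa using c3)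
        have e2 : l.succ ≠ k.castSucc := by
          intro hh; have := congrArg Fin.val hh; simp at this; omega
        have e3 : l.succ ≠ k.succ := by
          intro hh; have := congrArg Fin.val hh; simp at this; omega
        rw [e1, ee_succ_succ, ee_castSucc_succ, ee_other a k t e2 e3, hρ]
        field_simp
        ring
      · rw [if_neg c3, zero_mul, add_zero]
        have hne : (l : ℕ) ≠ k := fun hh => c2 (Fin.ext hh)
        have e2 : l.castSucc ≠ k.castSucc := by
          intro hh; have := congrArg Fin.val hh; simp at this; omega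
        have e3 : l.castSucc ≠ k.succ := by
          intro hh; have := congrArg Fin.val hh; simp at this; omega
        have e4 : l.succ ≠ k.castSucc := by
          intro hh; have := congrArg Fin.val hh; simp at this; omega
        have e5 : l.succ ≠ k.succ := by
          intro hh; have := congrArg Fin.val hh; simp at this; omega
        rw [ee_other a k t e2 e3, ee_other a k t e4 e5, phs_swap μ κ k e2]

/-- reflection -/
theorem per_conj {a : Fin n → ℝ} (ha : StrictMono a) (m : Fin (n + 1)) (μ : Fin n → ℝ) (m' : Fin (n + 1)) (κ : ℝ)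
    (l : Fin n) (j : ℕ) {z : ℂ} (hz : z ∈ Dm a m) :
    per (ee μ m' κ) (ee a m ((starRingEnd ℂ) z)) l j = (starRingEnd ℂ) (per (ee μ m' κ) (ee a m z) l j) := by
  unfold per
  rw [intervalIntegral.integral_of_le zero_le_one, intervalIntegral.integral_of_le zero_le_one,
    integral_Ioc_eq_integral_Ioo, integral_Ioc_eq_integral_Ioo, ← integral_conj]
  refine setIntegral_congr_fun measurableSet_Ioo fun u hu => ?_
  have he : ∀ k, ee a m ((starRingEnd ℂ) z) k = (starRingEnd ℂ) (ee a m z k) := by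
    intro k
    rcases Fin.eq_self_or_eq_succAbove m k with rfl | ⟨i', rfl⟩
    · simp only [ee_self]
    · simp only [ee_succAbove, conj_ofReal]
  have hs : seg (ee a m ((starRingEnd ℂ) z) l.castSucc) (ee a m ((starRingEnd ℂ) z) l.succ) u =
      (starRingEnd ℂ) (seg (ee a m z l.castSucc) (ee a m z l.succ) u) := by
    unfold seg
    simp only [he, map_add, map_mul, map_sub, map_one, conj_ofReal]
  have hsl : ∀ w : ℂ, w ∈ slitPlane → ∀ i, ((starRingEnd ℂ) w) ^ (-ee μ m' κ i) =
      (starRingEnd ℂ) (w ^ (-ee μ m' κ i)) := by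
    intro w hw i
    rw [conj_cpow _ _ (mem_slitPlane_iff_arg.1 hw).1, er_coe, map_neg, conj_ofReal]
  have hδs := ee_slit ha hz (i := l.castSucc) (k := l.succ) Fin.castSucc_lt_succ
  have hsm : ∀ {r : ℝ}, 0 < r → (ee a m z l.succ - ee a m z l.castSucc) * (r : ℂ) ∈ slitPlane := by
    intro r hr
    rw [mem_slitPlane_iff] at hδs ⊢
    rw [re_mul_ofReal, im_mul_ofReal]
    rcases hδs with h | h
    · left; positivity
    · right; exact mul_ne_zero h hr.ne'
  simp only [full]
  rw [map_mul, map_mul, map_pow, map_prod, hs, he, he, ← map_sub]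
  congr 2
  refine Finset.prod_congr rfl fun i _ => ?_
  rw [he]
  by_cases h1 : i ≤ l.castSucc
  · simp only [h1, if_true]
    rw [← map_sub]
    refine hsl _ ?_ i
    rcases eq_or_lt_of_le h1 with h2 | h2
    · rw [h2, seg_sub_left]; exact hsm hu.1
    · exact seg_slit_lt ha hz h2 hu.1.le hu.2.le
  · simp only [h1, if_false]
    rw [← map_sub]
    refine hsl _ ?_ i
    rcases eq_or_ne i l.succ with h5 | h5
    · rw [h5, sub_seg_right]; exact hsm (sub_pos.2 hu.2)
    · have h6 : l.succ < i := lt_of_le_of_ne (Fin.castSucc_lt_iff_succ_le.1 (not_le.1 h1)) (Ne.symm h5)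
      exact seg_slit_gt ha hz h6 hu.1.le hu.2.le

theorem conj_expo (r : ℝ) : (starRingEnd ℂ) (exp (-(Real.pi * r * I))) = exp (Real.pi * r * I) := by
  rw [← exp_conj]
  simp

theorem Uv_conj (x y : ℂ) (k l : Fin n) :
    (starRingEnd ℂ) (Uv x y k l) = Uv ((starRingEnd ℂ) x) ((starRingEnd ℂ) y) k l := by
  unfold Uv
  split_ifs <;> simp

/-- the same in the lower half-plane -/
theorem conn_lower {a : Fin n → ℝ} (ha : StrictMono a) {μ : Fin n → ℝ} (hμ : ∀ i, μ i ∈ Ico (0 : ℝ) 1)
    {κ : ℝ} (hκ : κ ∈ Ico (0 : ℝ) 1) (k : Fin n) {t : ℂ} (ht : t.im < 0) (j : ℕ) (l : Fin n) :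
    per (ee μ k.succ κ) (ee a k.succ t) l j = per (ee μ k.castSucc κ) (ee a k.castSucc t) l j +
      Uv (exp (Real.pi * κ * I)) (exp (Real.pi * μ k * I)) k l *
        per (ee μ k.castSucc κ) (ee a k.castSucc t) k j := by
  have ht' : 0 < ((starRingEnd ℂ) t).im := by rw [conj_im]; linarith
  have h := conn_upper ha hμ hκ k ht' j l
  have hD1 := mem_Dm_of_im a k.succ ht.ne
  have hD2 := mem_Dm_of_im a k.castSucc ht.ne
  rw [per_conj ha _ _ _ _ _ _ hD1, per_conj ha _ _ _ _ _ _ hD2, per_conj ha _ _ _ _ _ _ hD2] at h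
  have h2 := congrArg (starRingEnd ℂ) h
  rw [map_add, map_mul, conj_conj, conj_conj, conj_conj, Uv_conj, conj_expo, conj_expo] at h2
  exact h2

end Pool.Agent.Run7.h659.SE
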