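import Pool.Agent.Run7.h659.SE3

/-!
# Integrals between consecutive points: relations and monodromy
-/

set_option autoImplicit false
set_option linter.unusedSectionVars false

open Complex Set MeasureTheory Filter Topology

namespace Pool.Agent.Run7.h659.SE

open Pool.Agent.Y118.HP (seg ee Dm isOpen_Dm InGap mem_Dm_of_im ee_self ee_succAbove ee_im ee_slit
  differentiable_ee differentiableOn_eval isPreconnected_Dm eq_zero_of_open)

variable {n : ℕ} {ι : Type}

/-! ## matrices -/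

/-- the matrix with column `k` equal to `U` and other columns zero -/
def Ek (k : Fin n) (U : Fin n → ℂ) : Matrix (Fin n) (Fin n) ℂ := Matrix.of fun l c => if c = k then U l else 0

theorem Ek_mul (k : Fin n) (U : Fin n → ℂ) (X : Matrix (Fin n) (Fin n) ℂ) (l j : Fin n) :
    (Ek k U * X) l j = U l * X k j := by
  rw [Matrix.mul_apply]
  simp [Ek]

theorem Ek_mul_Ek (k k' : Fin n) (U V : Fin n → ℂ) : Ek k U * Ek k' V = Ek k' fun l => V k * U l := by
  ext l j
  rw [Ek_mul]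
  unfold Ek
  simp only [Matrix.of_apply]
  split_ifs
  · ring
  · ring

theorem Ek_add (k : Fin n) (U V : Fin n → ℂ) : Ek k U + Ek k V = Ek k fun l => U l + V l := by
  ext l j
  unfold Ek
  simp only [Matrix.add_apply, Matrix.of_apply]
  split_ifs <;> simp

/-- the matrix `1 + Ek k U` -/
def Tk (k : Fin n) (U : Fin n → ℂ) : Matrix (Fin n) (Fin n) ℂ := 1 + Ek k U

theorem Tk_mul (k : Fin n) (U V : Fin n → ℂ) : Tk k U * Tk k V = Tk k fun l => U l + V l + V k * U l := by
  unfold Tk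
  rw [mul_add, add_mul, add_mul, one_mul, mul_one, one_mul, Ek_mul_Ek, add_assoc, Ek_add, Ek_add]
  congr 2
  funext l
  ring

theorem Tk_zero (k : Fin n) : Tk k (fun _ => 0) = 1 := by
  unfold Tk
  have : Ek k (fun _ => (0 : ℂ)) = 0 := by
    ext l j
    simp [Ek]
  rw [this, add_zero]

/-! ## polynomial relations -/

/-- the matrix of the integrals -/
noncomputable def PM (ν e : Fin (n + 1) → ℂ) : Matrix (Fin n) (Fin n) ℂ := Matrix.of fun l j => per ν e l (j : ℕ)

/-- evaluation of a polynomial in the points and in the entries of matrices -/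
noncomputable def ev (P : MvPolynomial (Fin (n + 1) ⊕ (ι × Fin n × Fin n)) ℂ) (e : Fin (n + 1) → ℂ)
    (X : ι → Matrix (Fin n) (Fin n) ℂ) : ℂ :=
  MvPolynomial.eval (Sum.elim e fun x => X x.1 x.2.1 x.2.2) P

/-- substitution `X ↦ g X` -/
noncomputable def sb (g : ι → Matrix (Fin n) (Fin n) ℂ) (P : MvPolynomial (Fin (n + 1) ⊕ (ι × Fin n × Fin n)) ℂ) :
    MvPolynomial (Fin (n + 1) ⊕ (ι × Fin n × Fin n)) ℂ :=
  MvPolynomial.bind₁ (Sum.elim (fun i => MvPolynomial.X (Sum.inl i)) fun x =>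
    ∑ k, MvPolynomial.C (g x.1 x.2.1 k) * MvPolynomial.X (Sum.inr (x.1, k, x.2.2))) P

theorem ev_sb (g : ι → Matrix (Fin n) (Fin n) ℂ) (P : MvPolynomial (Fin (n + 1) ⊕ (ι × Fin n × Fin n)) ℂ)
    (e : Fin (n + 1) → ℂ) (X : ι → Matrix (Fin n) (Fin n) ℂ) : ev (sb g P) e X = ev P e (g * X) := by
  unfold ev sb
  rw [← MvPolynomial.coe_aeval_eq_eval, ← MvPolynomial.coe_aeval_eq_eval]
  simp only [RingHom.coe_coe]
  rw [MvPolynomial.aeval_bind₁]
  congr 2
  funext o
  rcases o with i | x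
  · simp
  · simp [Matrix.mul_apply]

/-- the matrices of integrals for real exponents and points -/
noncomputable def FF (ν : ι → Fin (n + 1) → ℝ) (e : Fin (n + 1) → ℝ) : ι → Matrix (Fin n) (Fin n) ℂ :=
  fun i => PM (fun k => (ν i k : ℂ)) fun k => (e k : ℂ)

/-- the relations for fixed exponents -/
def Rel (ν : ι → Fin (n + 1) → ℝ) : Set (MvPolynomial (Fin (n + 1) ⊕ (ι × Fin n × Fin n)) ℂ) :=
  {P | ∀ e : Fin (n + 1) → ℝ, StrictMono e → ev P (fun k => (e k : ℂ)) (FF ν e) = 0}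

/-- the matrices which preserve the relations -/
def Mon (ν : ι → Fin (n + 1) → ℝ) : Submonoid (ι → Matrix (Fin n) (Fin n) ℂ) where
  carrier := {g | ∀ P ∈ Rel ν, ∀ e : Fin (n + 1) → ℝ, StrictMono e →
    ev P (fun k => (e k : ℂ)) (g * FF ν e) = 0}
  one_mem' := by
    intro P hP e he
    rw [one_mul]
    exact hP e he
  mul_mem' := by
    intro g h hg hh P hP e he
    have h1 : sb g P ∈ Rel ν := by
      intro e' he'
      rw [ev_sb]
      exact hg P hP e' he'
    have h2 := hh (sb g P) h1 e he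
    rwa [ev_sb, ← mul_assoc] at h2

theorem mem_Mon {ν : ι → Fin (n + 1) → ℝ} {g : ι → Matrix (Fin n) (Fin n) ℂ} :
    g ∈ Mon ν ↔ ∀ P ∈ Rel ν, ∀ e : Fin (n + 1) → ℝ, StrictMono e →
      ev P (fun k => (e k : ℂ)) (g * FF ν e) = 0 := Iff.rfl

/-- evaluation at a family of matrices -/
noncomputable def ev0 (p : MvPolynomial (ι × Fin n × Fin n) ℂ) (X : ι → Matrix (Fin n) (Fin n) ℂ) : ℂ :=
  MvPolynomial.eval (fun x => X x.1 x.2.1 x.2.2) p

/-- Zariski closed sets of families of matrices -/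
def Zcl (S : Set (ι → Matrix (Fin n) (Fin n) ℂ)) : Prop :=
  ∀ g, (∀ p : MvPolynomial (ι × Fin n × Fin n) ℂ, (∀ h ∈ S, ev0 p h = 0) → ev0 p g = 0) → g ∈ S

theorem zcl_Mon (ν : ι → Fin (n + 1) → ℝ) : Zcl (Mon ν : Set (ι → Matrix (Fin n) (Fin n) ℂ)) := by
  intro g hg
  show g ∈ Mon ν
  intro P hP e he
  set p : MvPolynomial (ι × Fin n × Fin n) ℂ :=
    MvPolynomial.bind₁ (Sum.elim (fun i => MvPolynomial.C ((e i : ℝ) : ℂ)) fun x =>
      ∑ k, MvPolynomial.X (x.1, x.2.1, k) * MvPolynomial.C (FF ν e x.1 k x.2.2)) P with hp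
  have hev : ∀ h, ev0 p h = ev P (fun k => (e k : ℂ)) (h * FF ν e) := by
    intro h
    unfold ev0 ev
    rw [hp, ← MvPolynomial.coe_aeval_eq_eval, ← MvPolynomial.coe_aeval_eq_eval]
    simp only [RingHom.coe_coe]
    rw [MvPolynomial.aeval_bind₁]
    congr 2
    funext o
    rcases o with i | x
    · simp
    · simp [Matrix.mul_apply]
  rw [← hev]
  exact hg p fun h hh => by rw [hev]; exact hh P hP e he

/-- polynomial families of matrices in Zariski closed sets -/
theorem Zcl.family {τ : Type} {S : Set (ι → Matrix (Fin n) (Fin n) ℂ)} (hS : Zcl S)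
    (M : ι → Matrix (Fin n) (Fin n) (MvPolynomial τ ℂ)) {D : Set (τ → ℂ)}
    (hD : ∀ p : MvPolynomial τ ℂ, (∀ s ∈ D, MvPolynomial.eval s p = 0) → p = 0)
    (h : ∀ s ∈ D, (fun i => (M i).map (MvPolynomial.eval s)) ∈ S) (s : τ → ℂ) :
    (fun i => (M i).map (MvPolynomial.eval s)) ∈ S := by
  refine hS _ fun p hp => ?_
  have hev : ∀ s, MvPolynomial.eval s (MvPolynomial.aeval (fun x : ι × Fin n × Fin n => M x.1 x.2.1 x.2.2) p) =
      ev0 p (fun i => (M i).map (MvPolynomial.eval s)) := by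
    intro s
    unfold ev0
    have h1 : ((MvPolynomial.aeval (fun x : ι × Fin n × Fin n => M x.1 x.2.1 x.2.2)) p) =
        MvPolynomial.eval₂ MvPolynomial.C (fun x : ι × Fin n × Fin n => M x.1 x.2.1 x.2.2) p := rfl
    have h2 := MvPolynomial.eval₂_comp_left (MvPolynomial.eval s) (MvPolynomial.C)
      (fun x : ι × Fin n × Fin n => M x.1 x.2.1 x.2.2) p
    rw [h1, h2]
    rw [MvPolynomial.eval]
    congr 1
    ext c
    simp
  have h0 := hD _ fun s hs => by rw [hev]; exact hp _ (h s hs)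
  rw [← hev, h0, map_zero]

theorem Zcl.family1 {S : Set (ι → Matrix (Fin n) (Fin n) ℂ)} (hS : Zcl S)
    (M : ι → Matrix (Fin n) (Fin n) (Polynomial ℂ)) {D : Set ℂ} (hD : D.Infinite)
    (h : ∀ s ∈ D, (fun i => (M i).map (Polynomial.eval s)) ∈ S) (s : ℂ) :
    (fun i => (M i).map (Polynomial.eval s)) ∈ S := by
  refine hS _ fun p hp => ?_
  have hev : ∀ s, Polynomial.eval s (MvPolynomial.aeval (fun x : ι × Fin n × Fin n => M x.1 x.2.1 x.2.2) p) =
      ev0 p (fun i => (M i).map (Polynomial.eval s)) := by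
    intro s
    unfold ev0
    have h1 : ((MvPolynomial.aeval (fun x : ι × Fin n × Fin n => M x.1 x.2.1 x.2.2)) p) =
        MvPolynomial.eval₂ Polynomial.C (fun x : ι × Fin n × Fin n => M x.1 x.2.1 x.2.2) p := rfl
    have h2 := MvPolynomial.eval₂_comp_left (Polynomial.evalRingHom s) (Polynomial.C)
      (fun x : ι × Fin n × Fin n => M x.1 x.2.1 x.2.2) p
    rw [h1]
    have h3 : ∀ q : Polynomial ℂ, Polynomial.eval s q = Polynomial.evalRingHom s q := fun q => rfl
    rw [h3, h2]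
    rw [MvPolynomial.eval]
    congr 1
    ext c
    simp
  have h0 : MvPolynomial.aeval (fun x : ι × Fin n × Fin n => M x.1 x.2.1 x.2.2) p = (0 : Polynomial ℂ) := by
    apply Polynomial.eq_zero_of_infinite_isRoot
    refine hD.mono fun s hs => ?_
    show Polynomial.eval s _ = 0
    rw [hev]
    exact hp _ (h s hs)
  rw [← hev, h0, Polynomial.eval_zero]

/-! ## monodromy -/

/-- the vector of the monodromy -/
noncomputable def vv (x y : ℂ) (k l : Fin n) : ℂ :=
  if (l : ℕ) + 1 = k then x * (1 - y ^ 2) else if l = k then (x * y) ^ 2 - 1 else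
    if (l : ℕ) = k + 1 then y * (1 - x ^ 2) else 0

theorem Uv_self (x y : ℂ) (k : Fin n) : Uv x y k k = -(x * y) - 1 := by
  unfold Uv
  have h : ¬ ((k : ℕ) + 1 = k) := by omega
  rw [if_neg h, if_pos rfl]

theorem vv_self (x y : ℂ) (k : Fin n) : vv x y k k = (x * y) ^ 2 - 1 := by
  unfold vv
  have h : ¬ ((k : ℕ) + 1 = k) := by omega
  rw [if_neg h, if_pos rfl]

/-- the inverse of the matrix of the connection formula -/
theorem Tk_inv {x y : ℂ} (hx : x ≠ 0) (hy : y ≠ 0) (k : Fin n) :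
    Tk k (fun l => Uv x y k l / (x * y)) * Tk k (Uv x y k) = 1 := by
  rw [Tk_mul, ← Tk_zero k]
  congr 1
  funext l
  rw [Uv_self]
  field_simp
  ring

theorem Tk_vv {x y : ℂ} (hx : x ≠ 0) (hy : y ≠ 0) (k : Fin n) :
    Tk k (fun l => Uv x⁻¹ y⁻¹ k l / (x⁻¹ * y⁻¹)) * Tk k (Uv x y k) = Tk k (vv x y k) := by
  rw [Tk_mul]
  congr 1
  funext l
  rw [Uv_self]
  unfold Uv vv
  split_ifs
  · field_simp
    ring
  · field_simp
    ring
  · field_simp
    ring
  · simp

theorem ee_eta (e : Fin (n + 1) → ℝ) (m : Fin (n + 1)) :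
    ee (fun i => e (m.succAbove i)) m ((e m : ℝ) : ℂ) = fun k => ((e k : ℝ) : ℂ) := by
  funext k
  rcases Fin.eq_self_or_eq_succAbove m k with rfl | ⟨i', rfl⟩
  · rw [ee_self]
  · rw [ee_succAbove]

theorem strictMono_ins {a : Fin n → ℝ} (ha : StrictMono a) {m : Fin (n + 1)} {t : ℝ} (h : InGap a m t) :
    StrictMono (Fin.insertNth (α := fun _ => ℝ) m t a) := by
  intro i k hik
  have h2 := ee_slit ha h.mem_Dm hik
  have e1 : ∀ i, ee a m (t : ℂ) i = ((Fin.insertNth (α := fun _ => ℝ) m t a i : ℝ) : ℂ) := fun i => er_coe a m t i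
  rw [e1, e1, ← ofReal_sub, ofReal_mem_slitPlane] at h2
  linarith

/-- the relation along the moving point -/
noncomputable def hh (P : MvPolynomial (Fin (n + 1) ⊕ (ι × Fin n × Fin n)) ℂ) (a : Fin n → ℝ) (k : Fin n)
    (μ : ι → Fin n → ℝ) (κ : ι → ℝ) (m : Fin (n + 1)) (g : ι → Matrix (Fin n) (Fin n) ℂ) (z : ℂ) : ℂ :=
  ev P (ee a k.castSucc z) fun i => g i * PM (ee (μ i) m (κ i)) (ee a m z)

theorem diff_hh (P : MvPolynomial (Fin (n + 1) ⊕ (ι × Fin n × Fin n)) ℂ) {a : Fin n → ℝ} (ha : StrictMono a)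
    (k : Fin n) {μ : ι → Fin n → ℝ} {κ : ι → ℝ} (hμ : ∀ i k, μ i k ∈ Ico (0 : ℝ) 1)
    (hκ : ∀ i, κ i ∈ Ico (0 : ℝ) 1) (m : Fin (n + 1)) (g : ι → Matrix (Fin n) (Fin n) ℂ) :
    DifferentiableOn ℂ (hh P a k μ κ m g) (Dm a m) := by
  unfold hh ev
  refine differentiableOn_eval (fun (o : Fin (n + 1) ⊕ (ι × Fin n × Fin n)) z =>
    Sum.elim (ee a k.castSucc z) (fun x : ι × Fin n × Fin n =>
      (g x.1 * PM (ee (μ x.1) m (κ x.1)) (ee a m z)) x.2.1 x.2.2) o) ?_ P
  rintro (i | x)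
  · exact (differentiable_ee a k.castSucc i).differentiableOn
  · simp only [Sum.elim_inr, Matrix.mul_apply]
    refine DifferentiableOn.fun_sum fun c _ => ?_
    refine (diff_move ha m _ ?_ c x.2.2).const_mul _
    intro i'
    rw [er_coe, ofReal_re]
    exact (er_mem (hμ x.1) (hκ x.1) m i').2

theorem exI_ne (r : ℝ) : exp (Real.pi * r * I) ≠ 0 := exp_ne_zero _

theorem exI_inv (r : ℝ) : exp (-(Real.pi * r * I)) = (exp (Real.pi * r * I))⁻¹ := exp_neg _

/-- the monodromy preserves the relations -/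
theorem mono_mem {ν : ι → Fin (n + 1) → ℝ} (hν : ∀ i k, ν i k ∈ Ico (0 : ℝ) 1) (k : Fin n) :
    (fun i => Tk k (vv (exp (Real.pi * ν i k.castSucc * I)) (exp (Real.pi * ν i k.succ * I)) k)) ∈ Mon ν := by
  intro P hP e he
  set a : Fin n → ℝ := fun i' => e (k.castSucc.succAbove i') with ha'
  have ha : StrictMono a := he.comp (Fin.strictMono_succAbove _)
  set μ : ι → Fin n → ℝ := fun i i' => ν i (k.castSucc.succAbove i') with hμ'
  set κ : ι → ℝ := fun i => ν i k.castSucc with hκ'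
  have hμ : ∀ i k, μ i k ∈ Ico (0 : ℝ) 1 := fun i k' => hν _ _
  have hκ : ∀ i, κ i ∈ Ico (0 : ℝ) 1 := fun i => hν _ _
  have hμk : ∀ i, μ i k = ν i k.succ := fun i => by
    simp only [hμ']
    rw [Fin.succAbove_castSucc_self]
  have hee : ee a k.castSucc ((e k.castSucc : ℝ) : ℂ) = fun k' => ((e k' : ℝ) : ℂ) := ee_eta e k.castSucc
  have heν : ∀ i, ee (μ i) k.castSucc (κ i : ℂ) = fun k' => ((ν i k' : ℝ) : ℂ) := fun i => ee_eta (ν i) k.castSucc
  have hgap : InGap a k.castSucc (e k.castSucc) := by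
    intro i
    refine ⟨fun h => ?_, fun h => ?_⟩
    · have : k.castSucc.succAbove i < k.castSucc := (Fin.succAbove_lt_iff_castSucc_lt _ _).2 h
      exact he this
    · have : k.castSucc < k.castSucc.succAbove i := (Fin.lt_succAbove_iff_le_castSucc _ _).2 h
      exact he this
  set X : ι → ℂ := fun i => exp (Real.pi * ν i k.castSucc * I) with hX
  set Y : ι → ℂ := fun i => exp (Real.pi * ν i k.succ * I) with hY
  have hX0 : ∀ i, X i ≠ 0 := fun i => exp_ne_zero _
  have hY0 : ∀ i, Y i ≠ 0 := fun i => exp_ne_zero _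
  have hXi : ∀ i, exp (-(Real.pi * κ i * I)) = (X i)⁻¹ := fun i => exp_neg _
  have hYi : ∀ i, exp (-(Real.pi * μ i k * I)) = (Y i)⁻¹ := fun i => by rw [hμk]; exact exp_neg _
  -- step 0: the relation holds near the point
  have h0 : ∀ z ∈ Dm a k.castSucc, hh P a k μ κ k.castSucc (fun _ => 1) z = 0 := by
    have h1 := (diff_hh P ha k hμ hκ k.castSucc (fun _ => 1)).analyticOnNhd (isOpen_Dm a k.castSucc)
    refine h1.eqOn_zero_of_preconnected_of_frequently_eq_zero (isPreconnected_Dm ha k.castSucc) hgap.mem_Dm ?_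
    have hz : ∀ t : ℝ, InGap a k.castSucc t → hh P a k μ κ k.castSucc (fun _ => 1) (t : ℂ) = 0 := by
      intro t ht
      have h2 := hP _ (strictMono_ins ha ht)
      unfold hh
      have e1 : ee a k.castSucc (t : ℂ) =
          fun i => ((Fin.insertNth (α := fun _ => ℝ) k.castSucc t a i : ℝ) : ℂ) := by
        funext i
        exact er_coe a k.castSucc t i
      have e2 : (fun i => (1 : Matrix (Fin n) (Fin n) ℂ) * PM (ee (μ i) k.castSucc (κ i : ℂ)) (ee a k.castSucc (t : ℂ))) =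
          FF ν (Fin.insertNth (α := fun _ => ℝ) k.castSucc t a) := by
        funext i
        rw [one_mul, heν, e1]
        rfl
      rw [e2, e1]
      exact h2
    have hev : ∀ᶠ t : ℝ in 𝓝 (e k.castSucc), InGap a k.castSucc t := by
      have h3 : ∀ i : Fin n, ∀ᶠ t : ℝ in 𝓝 (e k.castSucc),
          (i.castSucc < k.castSucc → a i < t) ∧ (k.castSucc ≤ i.castSucc → t < a i) := by
        intro i
        by_cases h : i.castSucc < k.castSucc
        · have h' : ¬ k.castSucc ≤ i.castSucc := not_le.2 h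
          filter_upwards [lt_mem_nhds ((hgap i).1 h)] with t ht
          exact ⟨fun _ => ht, fun h2 => absurd h2 h'⟩
        · have h' : k.castSucc ≤ i.castSucc := not_lt.1 h
          filter_upwards [gt_mem_nhds ((hgap i).2 h')] with t ht
          exact ⟨fun h2 => absurd h2 h, fun _ => ht⟩
      exact eventually_all.2 h3
    have h4 : ∃ᶠ t : ℝ in 𝓝[≠] (e k.castSucc), hh P a k μ κ k.castSucc (fun _ => 1) (t : ℂ) = 0 := by
      refine (Filter.Eventually.frequently ?_)
      filter_upwards [nhdsWithin_le_nhds hev] with t ht using hz t ht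
    have h5 : Tendsto (fun t : ℝ => (t : ℂ)) (𝓝[≠] (e k.castSucc)) (𝓝[≠] ((e k.castSucc : ℝ) : ℂ)) := by
      refine tendsto_nhdsWithin_iff.2 ⟨(continuous_ofReal.tendsto _).mono_left nhdsWithin_le_nhds, ?_⟩
      filter_upwards [self_mem_nhdsWithin] with t ht
      simpa using ht
    exact h5.frequently h4
  -- step 1: upper half-plane
  set g1 : ι → Matrix (Fin n) (Fin n) ℂ := fun i => Tk k (fun l => Uv (X i)⁻¹ (Y i)⁻¹ k l / ((X i)⁻¹ * (Y i)⁻¹))
    with hg1
  have h1 : ∀ z ∈ Dm a k.succ, hh P a k μ κ k.succ g1 z = 0 := by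
    refine eq_zero_of_open ha k.succ (diff_hh P ha k hμ hκ k.succ g1) (V := {z : ℂ | 0 < z.im})
      (isOpen_lt continuous_const continuous_im) (z0 := I) (by simp) (mem_Dm_of_im a k.succ (by simp)) ?_
    intro z hz
    have hz' : 0 < z.im := hz
    have h2 := h0 z (mem_Dm_of_im a k.castSucc hz'.ne')
    unfold hh at h2 ⊢
    rw [← h2]
    congr 1
    funext i
    rw [one_mul]
    have h3 : PM (ee (μ i) k.succ (κ i : ℂ)) (ee a k.succ z) =
        Tk k (Uv (X i)⁻¹ (Y i)⁻¹ k) * PM (ee (μ i) k.castSucc (κ i : ℂ)) (ee a k.castSucc z) := by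
      ext l j
      unfold Tk
      rw [add_mul, one_mul, Matrix.add_apply, Ek_mul]
      unfold PM
      simp only [Matrix.of_apply]
      rw [conn_upper ha (hμ i) (hκ i) k hz', hXi, hYi]
    rw [h3, ← mul_assoc, hg1, Tk_inv (inv_ne_zero (hX0 i)) (inv_ne_zero (hY0 i)), one_mul]
  -- step 2: lower half-plane
  have h2 : ∀ z ∈ Dm a k.castSucc, hh P a k μ κ k.castSucc (fun i => Tk k (vv (X i) (Y i) k)) z = 0 := by
    refine eq_zero_of_open ha k.castSucc (diff_hh P ha k hμ hκ k.castSucc _) (V := {z : ℂ | z.im < 0})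
      (isOpen_lt continuous_im continuous_const) (z0 := -I) (by simp) (mem_Dm_of_im a k.castSucc (by simp)) ?_
    intro z hz
    have hz' : z.im < 0 := hz
    have h2 := h1 z (mem_Dm_of_im a k.succ hz'.ne)
    unfold hh at h2 ⊢
    rw [← h2]
    congr 1
    funext i
    have h3 : PM (ee (μ i) k.succ (κ i : ℂ)) (ee a k.succ z) =
        Tk k (Uv (X i) (Y i) k) * PM (ee (μ i) k.castSucc (κ i : ℂ)) (ee a k.castSucc z) := by
      ext l j
      unfold Tk
      rw [add_mul, one_mul, Matrix.add_apply, Ek_mul]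
      unfold PM
      simp only [Matrix.of_apply]
      rw [conn_lower ha (hμ i) (hκ i) k hz', hμk]
    rw [h3, ← mul_assoc, hg1, Tk_vv (hX0 i) (hY0 i)]
  have h3 := h2 _ hgap.mem_Dm
  unfold hh at h3
  rw [hee] at h3
  have e2 : (fun i => Tk k (vv (X i) (Y i) k) * PM (ee (μ i) k.castSucc (κ i : ℂ)) (fun k' => ((e k' : ℝ) : ℂ))) =
      (fun i => Tk k (vv (X i) (Y i) k)) * FF ν e := by
    funext i
    rw [heν]
    rfl
  rw [e2] at h3
  exact h3

end Pool.Agent.Run7.h659.SE
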