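import Pool.Agent.Run7.h659.SE4

/-!
# Integrals between consecutive points: real exponents and points, nondegeneracy
-/

set_option autoImplicit false
set_option linter.unusedSectionVars false

open Complex Set MeasureTheory Filter Topology

namespace Pool.Agent.Run7.h659.SE

open Pool.Agent.Y118.HP (seg)

variable {n : ℕ} {ι : Type}

/-- the weight for real exponents and points -/
noncomputable def wt (ν e : Fin (n + 1) → ℝ) (l : Fin n) (x : ℝ) : ℝ :=
  ∏ i, (if i ≤ l.castSucc then x - e i else e i - x) ^ (-ν i)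

theorem fac_pos {e : Fin (n + 1) → ℝ} (he : StrictMono e) (l : Fin n) {x : ℝ}
    (hx : x ∈ Ioo (e l.castSucc) (e l.succ)) (i : Fin (n + 1)) :
    0 < (if i ≤ l.castSucc then x - e i else e i - x) := by
  by_cases h : i ≤ l.castSucc
  · rw [if_pos h]
    have := he.monotone h
    linarith [hx.1]
  · rw [if_neg h]
    have := he.monotone (Fin.castSucc_lt_iff_succ_le.1 (not_le.1 h))
    linarith [hx.2]

theorem wt_pos {ν e : Fin (n + 1) → ℝ} (he : StrictMono e) (l : Fin n) {x : ℝ}
    (hx : x ∈ Ioo (e l.castSucc) (e l.succ)) : 0 < wt ν e l x :=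
  Finset.prod_pos fun i _ => Real.rpow_pos_of_pos (fac_pos he l hx i) _

theorem full_real {ν e : Fin (n + 1) → ℝ} (he : StrictMono e) (l : Fin n) (j : ℕ) {x : ℝ}
    (hx : x ∈ Ioo (e l.castSucc) (e l.succ)) :
    full (fun k => (ν k : ℂ)) (fun k => (e k : ℂ)) l j (x : ℂ) = ((x ^ j * wt ν e l x : ℝ) : ℂ) := by
  unfold full wt
  push_cast
  congr 1
  refine Finset.prod_congr rfl fun i _ => ?_
  rw [ofReal_cpow (fac_pos he l hx i).le]
  split_ifs
  · push_cast; rfl
  · push_cast; rfl

theorem seg_real (p q u : ℝ) : seg (p : ℂ) (q : ℂ) u = (((q - p) * u + p : ℝ) : ℂ) := by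
  unfold seg; push_cast; ring

theorem seg_mem {p q u : ℝ} (h : p < q) (hu : u ∈ Ioo (0 : ℝ) 1) : (q - p) * u + p ∈ Ioo p q := by
  have h1 := mul_pos (sub_pos.2 h) hu.1
  have h2 := mul_pos (sub_pos.2 h) (sub_pos.2 hu.2)
  constructor
  · linarith
  · nlinarith

/-- the integrals for real exponents and points -/
theorem per_real {ν e : Fin (n + 1) → ℝ} (he : StrictMono e) (l : Fin n) (j : ℕ) :
    per (fun k => (ν k : ℂ)) (fun k => (e k : ℂ)) l j =
      ((∫ x in (e l.castSucc)..(e l.succ), x ^ j * wt ν e l x : ℝ) : ℂ) := by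
  have hlt : e l.castSucc < e l.succ := he Fin.castSucc_lt_succ
  have h1 := intervalIntegral.smul_integral_comp_mul_add (a := (0 : ℝ)) (b := 1)
    (fun x => x ^ j * wt ν e l x) (e l.succ - e l.castSucc) (e l.castSucc)
  rw [mul_zero, zero_add, mul_one, sub_add_cancel, smul_eq_mul, ← intervalIntegral.integral_const_mul] at h1
  rw [← h1, ← intervalIntegral.integral_ofReal]
  unfold per
  rw [intervalIntegral.integral_of_le zero_le_one, intervalIntegral.integral_of_le zero_le_one,
    integral_Ioc_eq_integral_Ioo, integral_Ioc_eq_integral_Ioo]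
  refine setIntegral_congr_fun measurableSet_Ioo fun u hu => ?_
  simp only []
  rw [seg_real, full_real he l j (seg_mem hlt hu)]
  push_cast
  ring

/-- integrability -/
theorem int_full {ν e : Fin (n + 1) → ℝ} (he : StrictMono e) (hν : ∀ k, ν k < 1) (l : Fin n) (j : ℕ) :
    IntervalIntegrable (fun u : ℝ => (e l.succ - e l.castSucc) *
      (((e l.succ - e l.castSucc) * u + e l.castSucc) ^ j *
        wt ν e l ((e l.succ - e l.castSucc) * u + e l.castSucc))) volume 0 1 := by
  have hlt : e l.castSucc < e l.succ := he Fin.castSucc_lt_succ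
  have hδ : ((e l.succ : ℝ) : ℂ) - ((e l.castSucc : ℝ) : ℂ) ≠ 0 := by
    rw [← ofReal_sub]
    exact_mod_cast (sub_pos.2 hlt).ne'
  have h3 := betaIntegral_convergent (u := ((1 - ν l.castSucc : ℝ) : ℂ)) (v := ((1 - ν l.succ : ℝ) : ℂ))
    (by rw [ofReal_re]; linarith [hν l.castSucc]) (by rw [ofReal_re]; linarith [hν l.succ])
  have hc : ContinuousOn (fun u : ℝ => ker (fun k => (ν k : ℂ)) (fun k => (e k : ℂ)) l j
      (seg (e l.castSucc : ℂ) (e l.succ : ℂ) u)) (uIcc 0 1) := by
    rw [uIcc_of_le zero_le_one]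
    unfold ker
    have hseg : Continuous fun u : ℝ => seg (e l.castSucc : ℂ) (e l.succ : ℂ) u := by unfold seg; fun_prop
    refine (hseg.continuousOn.pow j).mul (continuousOn_finsetProd _ fun i _ => ?_)
    have hin : ∀ u ∈ Icc (0 : ℝ) 1, e l.castSucc ≤ (e l.succ - e l.castSucc) * u + e l.castSucc ∧
        (e l.succ - e l.castSucc) * u + e l.castSucc ≤ e l.succ := by
      intro u hu
      have h1 := mul_nonneg (sub_pos.2 hlt).le hu.1
      have h2 := mul_nonneg (sub_pos.2 hlt).le (sub_nonneg.2 hu.2)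
      constructor
      · linarith
      · nlinarith
    unfold fac
    split_ifs with h1 h2
    · refine ContinuousOn.cpow (hseg.continuousOn.sub continuousOn_const) continuousOn_const fun u hu => ?_
      rw [seg_real, ← ofReal_sub, ofReal_mem_slitPlane]
      have := he h1
      linarith [(hin u hu).1]
    · refine ContinuousOn.cpow (continuousOn_const.sub hseg.continuousOn) continuousOn_const fun u hu => ?_
      rw [seg_real, ← ofReal_sub, ofReal_mem_slitPlane]
      have := he h2
      linarith [(hin u hu).2]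
    · exact continuousOn_const
  have h4 := (h3.mul_continuousOn hc).const_mul ((((e l.succ : ℝ) : ℂ) - ((e l.castSucc : ℝ) : ℂ)) *
    ((((e l.succ : ℝ) : ℂ) - ((e l.castSucc : ℝ) : ℂ)) ^ (-(ν l.castSucc : ℂ)) *
      (((e l.succ : ℝ) : ℂ) - ((e l.castSucc : ℝ) : ℂ)) ^ (-(ν l.succ : ℂ))))
  rw [intervalIntegrable_iff_integrableOn_Ioo_of_le zero_le_one] at h4 ⊢
  have h5 := h4.re
  refine h5.congr ((ae_restrict_iff' measurableSet_Ioo).2 (Eventually.of_forall fun u hu => ?_))
  have h6 := full_real (ν := ν) he l j (seg_mem hlt hu)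
  rw [← seg_real] at h6
  unfold full at h6
  rw [prod_full, seg_sub_left, sub_seg_right, ofReal_mul_cpow hu.1 hδ, ofReal_mul_cpow (sub_pos.2 hu.2) hδ] at h6
  have e1 : (((1 - ν l.castSucc : ℝ) : ℂ) - 1) = -(ν l.castSucc : ℂ) := by push_cast; ring
  have e2 : (((1 - ν l.succ : ℝ) : ℂ) - 1) = -(ν l.succ : ℂ) := by push_cast; ring
  have e3 : (1 - (u : ℂ)) = ((1 - u : ℝ) : ℂ) := by push_cast; ring
  have h7 : (((e l.succ - e l.castSucc) * (((e l.succ - e l.castSucc) * u + e l.castSucc) ^ j *
        wt ν e l ((e l.succ - e l.castSucc) * u + e l.castSucc)) : ℝ) : ℂ) =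
      ((((e l.succ : ℝ) : ℂ) - ((e l.castSucc : ℝ) : ℂ)) *
    ((((e l.succ : ℝ) : ℂ) - ((e l.castSucc : ℝ) : ℂ)) ^ (-(ν l.castSucc : ℂ)) *
      (((e l.succ : ℝ) : ℂ) - ((e l.castSucc : ℝ) : ℂ)) ^ (-(ν l.succ : ℂ)))) *
      (((u : ℂ) ^ (((1 - ν l.castSucc : ℝ) : ℂ) - 1) * (1 - (u : ℂ)) ^ (((1 - ν l.succ : ℝ) : ℂ) - 1)) *
        ker (fun k => (ν k : ℂ)) (fun k => (e k : ℂ)) l j (seg (e l.castSucc : ℂ) (e l.succ : ℂ) u)) := by
    rw [ofReal_mul, ← h6, e1, e2, e3]
    unfold ker
    push_cast
    ring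
  have h8 := congrArg Complex.re h7
  rw [ofReal_re] at h8
  exact h8.symm

/-- the real matrix of integrals -/
noncomputable def RM (ν e : Fin (n + 1) → ℝ) : Matrix (Fin n) (Fin n) ℝ :=
  Matrix.of fun l j => ∫ x in (e l.castSucc)..(e l.succ), x ^ (j : ℕ) * wt ν e l x

theorem PM_real {ν e : Fin (n + 1) → ℝ} (he : StrictMono e) :
    PM (fun k => (ν k : ℂ)) (fun k => (e k : ℂ)) = (RM ν e).map Complex.ofRealHom := by
  ext l j
  unfold PM RM
  simp only [Matrix.of_apply, Matrix.map_apply]
  exact per_real he l j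

theorem int_wt {ν e : Fin (n + 1) → ℝ} (he : StrictMono e) (hν : ∀ k, ν k < 1) (l : Fin n) (j : ℕ) :
    IntervalIntegrable (fun x : ℝ => x ^ j * wt ν e l x) volume (e l.castSucc) (e l.succ) := by
  have hlt : e l.castSucc < e l.succ := he Fin.castSucc_lt_succ
  have hδ : e l.succ - e l.castSucc ≠ 0 := (sub_pos.2 hlt).ne'
  have h1 := (int_full he hν l j).const_mul (e l.succ - e l.castSucc)⁻¹
  have h2 : (fun u : ℝ => (e l.succ - e l.castSucc)⁻¹ * ((e l.succ - e l.castSucc) *
      (((e l.succ - e l.castSucc) * u + e l.castSucc) ^ j *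
        wt ν e l ((e l.succ - e l.castSucc) * u + e l.castSucc)))) =
      fun u => (fun x => x ^ j * wt ν e l x) ((e l.succ - e l.castSucc) * u + e l.castSucc) := by
    funext u
    rw [inv_mul_cancel_left₀ hδ]
  rw [h2] at h1
  have h3 := (IntervalIntegrable.comp_mul_left_iff (f := fun x => (fun x => x ^ j * wt ν e l x) (x + e l.castSucc))
    (a := 0) (b := e l.succ - e l.castSucc) hδ enorm_ne_top).1 (by
      rw [zero_div, div_self hδ]
      exact h1)
  have h4 := h3.comp_sub_right (e l.castSucc)
  simp only [sub_add_cancel, zero_add] at h4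
  exact h4

/-- a polynomial of degree less than `n` with zero integrals is zero -/
theorem det_RM {ν e : Fin (n + 1) → ℝ} (he : StrictMono e) (hν : ∀ k, ν k < 1) : (RM ν e).det ≠ 0 := by
  intro hdet
  obtain ⟨c, hc0, hc⟩ := Matrix.exists_mulVec_eq_zero_iff.2 hdet
  set p : Polynomial ℝ := ∑ j : Fin n, Polynomial.C (c j) * Polynomial.X ^ (j : ℕ) with hp
  have hpe : ∀ x, p.eval x = ∑ j : Fin n, c j * x ^ (j : ℕ) := by
    intro x
    rw [hp, Polynomial.eval_finsetSum]
    simp
  have hcoef : ∀ j : Fin n, p.coeff (j : ℕ) = c j := by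
    intro j
    rw [hp, Polynomial.finsetSum_coeff]
    rw [Finset.sum_eq_single j]
    · simp
    · intro j' _ hj'
      rw [Polynomial.coeff_C_mul, Polynomial.coeff_X_pow, if_neg, mul_zero]
      intro h; exact hj' (Fin.ext h.symm)
    · intro h; exact absurd (Finset.mem_univ j) h
  have hp0 : p ≠ 0 := by
    intro h
    apply hc0
    funext j
    rw [← hcoef, h]; simp
  have hdeg : p.natDegree < n := by
    have hn : 0 < n := by
      rcases Nat.eq_zero_or_pos n with h | h
      · subst h
        exfalso; apply hc0; funext j; exact j.elim0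
      · exact h
    refine (Polynomial.natDegree_lt_iff_degree_lt hp0).2 ?_
    refine (Polynomial.degree_sum_le _ _).trans_lt ((Finset.sup_lt_iff (WithBot.bot_lt_coe n)).2 fun j _ => ?_)
    refine (Polynomial.degree_C_mul_X_pow_le _ _).trans_lt ?_
    exact Nat.cast_lt.2 j.2
  -- a root in each gap
  have hroot : ∀ l : Fin n, ∃ x ∈ Ioo (e l.castSucc) (e l.succ), p.eval x = 0 := by
    intro l
    have hlt : e l.castSucc < e l.succ := he Fin.castSucc_lt_succ
    by_contra hno
    push Not at hno
    have hint : ∫ x in (e l.castSucc)..(e l.succ), p.eval x * wt ν e l x = 0 := by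
      have h1 : (fun x => p.eval x * wt ν e l x) = fun x => ∑ j : Fin n, c j * (x ^ (j : ℕ) * wt ν e l x) := by
        funext x
        rw [hpe, Finset.sum_mul]
        refine Finset.sum_congr rfl fun j _ => by ring
      rw [h1, intervalIntegral.integral_finsetSum
        (f := fun (j : Fin n) x => c j * (x ^ (j : ℕ) * wt ν e l x)) fun j _ => (int_wt he hν l (j : ℕ)).const_mul _]
      have h2 := congrFun hc l
      simp only [Matrix.mulVec, dotProduct, Pi.zero_apply] at h2
      rw [← h2]
      refine Finset.sum_congr rfl fun j _ => ?_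
      rw [intervalIntegral.integral_const_mul]
      unfold RM
      simp only [Matrix.of_apply]
      ring
    have hii : IntervalIntegrable (fun x => p.eval x * wt ν e l x) volume (e l.castSucc) (e l.succ) := by
      have h1 : (fun x => p.eval x * wt ν e l x) = fun x => ∑ j : Fin n, c j * (x ^ (j : ℕ) * wt ν e l x) := by
        funext x
        rw [hpe, Finset.sum_mul]
        refine Finset.sum_congr rfl fun j _ => by ring
      rw [h1]
      have h3 := IntervalIntegrable.sum (Finset.univ)
        (f := fun (j : Fin n) x => c j * (x ^ (j : ℕ) * wt ν e l x)) fun j _ =>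
          (int_wt he hν l (j : ℕ)).const_mul (c j)
      have h4 : (∑ j : Fin n, fun x => c j * (x ^ (j : ℕ) * wt ν e l x)) =
          fun x => ∑ j : Fin n, c j * (x ^ (j : ℕ) * wt ν e l x) := by
        funext x
        rw [Finset.sum_apply]
      rw [h4] at h3
      exact h3
    have hsign : (∀ x ∈ Ioo (e l.castSucc) (e l.succ), 0 < p.eval x) ∨
        (∀ x ∈ Ioo (e l.castSucc) (e l.succ), p.eval x < 0) := by
      by_contra hcon
      push Not at hcon
      obtain ⟨⟨x, hx, hx0⟩, ⟨y, hy, hy0⟩⟩ := hcon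
      have h1 := isPreconnected_Ioo.intermediate_value hx hy p.continuous.continuousOn
      obtain ⟨z, hz, hz0⟩ := h1 ⟨hx0, hy0⟩
      exact hno z hz hz0
    rcases hsign with h | h
    · have := intervalIntegral.intervalIntegral_pos_of_pos_on hii
        (fun x hx => mul_pos (h x hx) (wt_pos he l hx)) hlt
      linarith
    · have h2 := intervalIntegral.intervalIntegral_pos_of_pos_on hii.neg
        (fun x hx => by
          have h3 := mul_pos (neg_pos.2 (h x hx)) (wt_pos (ν := ν) he l hx)
          have h4 : (-fun x => Polynomial.eval x p * wt ν e l x) x = -Polynomial.eval x p * wt ν e l x := by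
            simp
          rw [h4]; exact h3) hlt
      have h5 : ∫ x in (e l.castSucc)..(e l.succ), (-fun x => Polynomial.eval x p * wt ν e l x) x =
          -∫ x in (e l.castSucc)..(e l.succ), p.eval x * wt ν e l x := by
        rw [← intervalIntegral.integral_neg]; rfl
      rw [h5, hint] at h2
      simp at h2
  choose r hr hr0 using hroot
  have hinj : Function.Injective r := by
    have hmono : StrictMono r := by
      intro l l' hl
      have h1 := (hr l).2
      have h2 := (hr l').1
      have h3 : e l.succ ≤ e l'.castSucc := he.monotone (by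
        rw [Fin.le_def]; simp; exact hl)
      linarith
    exact hmono.injective
  have h6 : (Finset.univ.image r).card ≤ p.natDegree := by
    refine (Finset.card_le_card (t := p.roots.toFinset) fun x hx => ?_).trans
      ((Multiset.toFinset_card_le _).trans (Polynomial.card_roots' p))
    obtain ⟨l, _, rfl⟩ := Finset.mem_image.1 hx
    rw [Multiset.mem_toFinset, Polynomial.mem_roots hp0]
    exact hr0 l
  rw [Finset.card_image_of_injective _ hinj, Finset.card_univ, Fintype.card_fin] at h6
  omega

theorem det_FF {ν : ι → Fin (n + 1) → ℝ} (hν : ∀ i k, ν i k ∈ Ico (0 : ℝ) 1) {e : Fin (n + 1) → ℝ}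
    (he : StrictMono e) (i : ι) : (FF ν e i).det ≠ 0 := by
  unfold FF
  rw [PM_real he]
  have h1 : ((RM (ν i) e).map Complex.ofRealHom).det = Complex.ofRealHom (RM (ν i) e).det :=
    (RingHom.map_det _ _).symm
  rw [h1]
  have h2 := det_RM he fun k => (hν i k).2
  simpa using h2

end Pool.Agent.Run7.h659.SE
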