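import Pool.Agent.Run7.h659.SE8

/-!
# Integrals between consecutive points: the exceptional points with rational exponents
-/

set_option autoImplicit false
set_option linter.unusedSectionVars false

open Complex Filter Topology NumberField

namespace Pool.Agent.Run7.h659.SE

open Pool.Agent.Y124 (Cov)
open MvPolynomial (eval)

/-- zeros in a grid -/
theorem card_grid {X : Type} [Fintype X] [DecidableEq X] (S : X → Finset ℂ) {N : ℕ} (hN0 : 0 < N)
    (hN : ∀ x, N ≤ (S x).card) (P : MvPolynomial X ℂ) (hP : P ≠ 0) :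
    ((Fintype.piFinset S).filter fun t => eval t P = 0).card * N ≤ P.totalDegree * ∏ x, (S x).card := by
  classical
  set e := Fintype.equivFin X with he
  set P' := MvPolynomial.rename e P with hP'
  have hP'0 : P' ≠ 0 := by
    intro h
    apply hP
    exact MvPolynomial.rename_injective e e.injective (by rw [← hP', h, map_zero])
  have h1 := MvPolynomial.schwartz_zippel_sup_sum hP'0 fun i => S (e.symm i)
  have h2 : (((Fintype.piFinset S).filter fun t => eval t P = 0).card : ℚ≥0) =
      ((Fintype.piFinset fun i => S (e.symm i)).filter fun t => eval t P' = 0).card := by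
    congr 1
    refine Finset.card_bij (fun t _ i => t (e.symm i)) ?_ ?_ ?_
    · intro t ht
      rw [Finset.mem_filter, Fintype.mem_piFinset] at ht ⊢
      refine ⟨fun i => ht.1 _, ?_⟩
      rw [hP', MvPolynomial.eval_rename]
      have : (fun i => t (e.symm i)) ∘ e = t := by funext x; simp
      rw [this]
      exact ht.2
    · intro t _ t' _ h
      funext x
      have := congrFun h (e x)
      simpa using this
    · intro t ht
      rw [Finset.mem_filter, Fintype.mem_piFinset] at ht
      refine ⟨fun x => t (e x), ?_, by funext i; simp⟩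
      rw [Finset.mem_filter, Fintype.mem_piFinset]
      refine ⟨fun x => by simpa using ht.1 (e x), ?_⟩
      rw [hP', MvPolynomial.eval_rename] at ht
      exact ht.2
  have hN' : (0 : ℚ≥0) < N := by exact_mod_cast hN0
  have h3 : (P'.support.sup fun s => ∑ i, (s i / (S (e.symm i)).card : ℚ≥0)) ≤ (P.totalDegree : ℚ≥0) / N := by
    refine Finset.sup_le fun s hs => ?_
    have h4 : (∑ i, (s i / (S (e.symm i)).card : ℚ≥0)) ≤ ∑ i, (s i / N : ℚ≥0) := by
      refine Finset.sum_le_sum fun i _ => ?_
      refine div_le_div_of_nonneg_left (by positivity) hN' ?_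
      exact_mod_cast hN _
    refine h4.trans ?_
    rw [← Finset.sum_div]
    refine div_le_div_of_nonneg_right ?_ hN'.le
    have h5 := MvPolynomial.le_totalDegree hs
    have h6 : P'.totalDegree ≤ P.totalDegree := MvPolynomial.totalDegree_rename_le _ _
    have h7 : (s.sum fun _ e => e) = ∑ i, s i := by
      rw [Finsupp.sum_fintype]
      intro i; rfl
    rw [h7] at h5
    exact_mod_cast h5.trans h6
  have h8 : (0 : ℚ≥0) < ∏ i, ((S (e.symm i)).card : ℚ≥0) := by
    refine Finset.prod_pos fun i _ => ?_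
    exact lt_of_lt_of_le hN' (by exact_mod_cast hN _)
  have h9 := h1.trans h3
  rw [← h2, div_le_div_iff₀ h8 hN'] at h9
  have h10 : ∏ i, ((S (e.symm i)).card : ℚ≥0) = ∏ x, ((S x).card : ℚ≥0) :=
    Fintype.prod_equiv e.symm _ _ fun i => rfl
  rw [h10] at h9
  exact_mod_cast h9

theorem count_grid {X : Type} [Fintype X] [DecidableEq X] (S : X → Finset ℂ) {N : ℕ} (hN0 : 0 < N)
    (hN : ∀ x, N ≤ (S x).card) {D m : ℕ} {E : Set (X → ℂ)} (hE : ∀ t ∈ E, ∀ x, t x ∈ S x) (hcov : Cov D m E) :
    E.Finite ∧ E.ncard * N ≤ m * (D * ∏ x, (S x).card) := by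
  classical
  obtain ⟨Φ, h1, h2, h3⟩ := hcov
  have hsub : E ⊆ (Φ.biUnion fun P => (Fintype.piFinset S).filter fun t => eval t P = 0 : Finset (X → ℂ)) := by
    intro t ht
    obtain ⟨P, hP, h⟩ := h3 t ht
    rw [Finset.mem_coe, Finset.mem_biUnion]
    exact ⟨P, hP, Finset.mem_filter.2 ⟨Fintype.mem_piFinset.2 (hE t ht), h⟩⟩
  refine ⟨(Finset.finite_toSet _).subset hsub, ?_⟩
  have h4 := Set.ncard_le_ncard hsub (Finset.finite_toSet _)
  rw [Set.ncard_coe_finset] at h4
  calc E.ncard * N ≤ (∑ P ∈ Φ, ((Fintype.piFinset S).filter fun t => eval t P = 0).card) * N :=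
        Nat.mul_le_mul_right _ (h4.trans Finset.card_biUnion_le)
    _ = ∑ P ∈ Φ, ((Fintype.piFinset S).filter fun t => eval t P = 0).card * N := Finset.sum_mul _ _ _
    _ ≤ ∑ P ∈ Φ, D * ∏ x, (S x).card := by
        refine Finset.sum_le_sum fun P hP => (card_grid S hN0 hN P (h2 P hP).1).trans ?_
        exact Nat.mul_le_mul_right _ (h2 P hP).2
    _ = Φ.card * (D * ∏ x, (S x).card) := by rw [Finset.sum_const, smul_eq_mul]
    _ ≤ m * (D * ∏ x, (S x).card) := Nat.mul_le_mul_right _ h1

end Pool.Agent.Run7.h659.SE
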