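import Pool.Agent.Y921.DB.Res

/-!
# Relations between the values at all tuples of points: the core
-/

set_option autoImplicit false

open PowerSeries

namespace Pool.Agent.Run7.h659.TT

open Pool.Agent.Y113 Pool.Agent.Y113.GG Pool.Agent.Y37.GF Pool.Agent.Y118.HG Pool.Agent.Y921.DB

variable {n δ : ℕ}

section one

variable {ι : Type} {Z : Fin n → Fin n → ℚ⟦X⟧} (b : Bas Z δ) (mu : ι → Option (Fin n × Fin n) → ℂ)

/-- the coefficients of the words at one place -/
noncomputable def c1 (h : Fin δ → Option ι) (g : Fin δ → Option (Fin n × Fin n)) : ℂ :=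
  ∏ a, (h a).elim (if g a = none then 1 else 0) fun i => mu i (g a)

/-- the coefficients in terms of the basis words -/
noncomputable def a1 (h : Fin δ → Option ι) (e : b.s) : Polynomial ℂ :=
  ∑ g, Polynomial.C (c1 mu h g) * (b.N g e).map (Int.castRingHom ℂ)

/-- the functions at one place -/
noncomputable def p1 (Z : Fin n → Fin n → ℚ⟦X⟧) (z : ℂ) (i : ι) : ℂ := ∑ q, mu i q * q.elim 1 (zc Z z)

lemma dw1 {C : ℝ} (hC : 1 ≤ C) (hZ : ∀ i j m, |((coeff m (Z i j) : ℚ) : ℝ)| ≤ C ^ (m + 1))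
    (h : Fin δ → Option ι) {z : ℂ} (hz : ‖z‖ < 1 / C) :
    Polynomial.aeval z b.D * wv (p1 mu Z z) h =
      ∑ e, (a1 b mu h e).eval z * wv (zc Z z) (e : Fin δ → Option (Fin n × Fin n)) := by
  classical
  have h2 : wv (p1 mu Z z) h = _ := wv_lin mu (zc Z z) h
  rw [h2, Finset.mul_sum]
  have h3 : ∀ g : Fin δ → Option (Fin n × Fin n), Polynomial.aeval z b.D *
      ((∏ a, (h a).elim (if g a = none then 1 else 0) fun i => mu i (g a)) * wv (zc Z z) g) =
      ∑ j : b.s, c1 mu h g * Polynomial.aeval z (b.N g j) *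
        wv (zc Z z) (j : Fin δ → Option (Fin n × Fin n)) := by
    intro g
    have h4 := red_vc hC hZ b g hz
    calc _ = c1 mu h g * (Polynomial.aeval z b.D * wv (zc Z z) g) := by
          unfold c1; ring
      _ = _ := by
          rw [h4, Finset.mul_sum]
          exact Finset.sum_congr rfl fun j _ => by ring
  rw [Finset.sum_congr rfl fun g _ => h3 g, Finset.sum_comm]
  refine Finset.sum_congr rfl fun e _ => ?_
  unfold a1
  rw [Polynomial.eval_finsetSum, Finset.sum_mul]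
  refine Finset.sum_congr rfl fun g _ => ?_
  rw [Polynomial.eval_mul, Polynomial.eval_C, Polynomial.eval_map, Polynomial.aeval_def]
  rfl

lemma a1_none_ne (a : Polynomial ℂ) (ha : a • a1 b mu (fun _ => none) = 0) : a = 0 := by
  classical
  by_contra ha0
  have h1 : ∀ e, a1 b mu (fun _ => none) e = (b.N (fun _ => none) e).map (Int.castRingHom ℂ) := by
    intro e
    unfold a1
    rw [Finset.sum_eq_single (fun _ => none)]
    · have : c1 mu (fun _ : Fin δ => (none : Option ι)) (fun _ => none) = 1 := by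
        unfold c1
        simp
      rw [this, map_one, one_mul]
    · intro g _ hg
      have : c1 mu (fun _ : Fin δ => (none : Option ι)) g = 0 := by
        obtain ⟨a, ha⟩ := Function.ne_iff.1 hg
        exact Finset.prod_eq_zero (Finset.mem_univ a) (by simp [ha])
      rw [this, map_zero, zero_mul]
    · intro hh; exact absurd (Finset.mem_univ _) hh
  have h2 : ∀ e, b.N (fun _ => none) e = 0 := by
    intro e
    have h3 := congrFun ha e
    rw [Pi.smul_apply, smul_eq_mul, Pi.zero_apply, h1] at h3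
    exact (Polynomial.map_eq_zero_iff (RingHom.injective_int _)).1 ((mul_eq_zero.1 h3).resolve_left ha0)
  have h4 := b.red (fun _ => none)
  have h5 : wd Z (fun _ : Fin δ => (none : Option (Fin n × Fin n))) = 1 := by
    unfold wd lt
    simp
  rw [h5, mul_one] at h4
  have h6 : ps b.D = 0 := by
    rw [h4]
    refine Finset.sum_eq_zero fun k _ => ?_
    rw [h2]
    unfold ps
    simp
  unfold ps at h6
  rw [Polynomial.coe_eq_zero_iff] at h6
  exact b.hD ((Polynomial.map_eq_zero_iff (RingHom.injective_int _)).1 h6)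

/-- the rows: a basis over the rational functions, independent at almost all points -/
lemma rows [Fintype ι] : ∃ (s : Finset (Fin δ → Option ι)) (D₁ : Polynomial ℂ)
    (N₁ : (Fin δ → Option ι) → s → Polynomial ℂ) (Δ : Polynomial ℂ) (C₁ : b.s → s → Polynomial ℂ), D₁ ≠ 0 ∧ Δ ≠ 0 ∧
    (∀ h e, D₁ * a1 b mu h e = ∑ k : s, N₁ h k * a1 b mu k e) ∧
    (∀ i : s, ∑ e, a1 b mu i e * C₁ e i = Δ) ∧ ∀ i i' : s, i ≠ i' → ∑ e, a1 b mu i e * C₁ e i' = 0 := by
  classical
  obtain ⟨s, -, hli, D, N, hD, hN⟩ := exists_basis (R := Polynomial ℂ) (fun h => a1 b mu h) (fun _ => none)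
    (a1_none_ne b mu)
  obtain ⟨Δ, C, hΔ, hC⟩ := exists_right (fun k : s => a1 b mu k) hli
  refine ⟨s, D, N, Δ, C, hD, hΔ, fun h e => ?_, fun i => ?_, fun i i' hii => ?_⟩
  · have := congrFun (hN h) e
    simpa [Finset.sum_apply] using this
  · rw [hC i i, if_pos rfl]
  · rw [hC i i', if_neg hii]

end one

lemma eval_ne {Δ : Polynomial ℂ} (h : Δ ≠ 0) : ∃ x₀ : ℕ, ∀ m : ℕ, x₀ ≤ m → Δ.eval (1 / (m : ℂ)) ≠ 0 := by
  have h1 : {m : ℕ | Δ.eval (1 / (m : ℂ)) = 0}.Finite := by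
    refine Set.Finite.of_finite_image (f := fun m : ℕ => (1 / (m : ℂ))) ?_ ?_
    · refine (Δ.roots.toFinset.finite_toSet).subset ?_
      rintro _ ⟨m, hm, rfl⟩
      rw [Finset.mem_coe, Multiset.mem_toFinset, Polynomial.mem_roots h]
      exact hm
    · intro a _ b _ hab
      simp only [one_div, inv_inj] at hab
      exact_mod_cast hab
  obtain ⟨B, hB⟩ := h1.bddAbove
  refine ⟨B + 1, fun m hm h0 => ?_⟩
  have := hB h0
  omega

section words

variable {k : ℕ} {κ : Fin k → Type} [∀ j, Fintype (κ j)]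

/-- the words of the monomials of a polynomial -/
lemma exists_Hd (P : MvPolynomial (Σ j, κ j) ℂ) (hP : P.totalDegree ≤ δ) :
    ∃ H : ((Σ j, κ j) →₀ ℕ) → ∀ j, Fin δ → Option (κ j), ∀ μ ∈ P.support, ∀ j, ∀ (M : Type) [CommMonoid M]
      (z : κ j → M), wv z (H μ j) = ∏ i, z i ^ μ ⟨j, i⟩ := by
  classical
  have h : ∀ (μ : (Σ j, κ j) →₀ ℕ) (j : Fin k), ∃ h : Fin δ → Option (κ j),
      μ ∈ P.support → ∀ (M : Type) [CommMonoid M] (z : κ j → M), wv z h = ∏ i, z i ^ μ ⟨j, i⟩ := by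
    intro μ j
    by_cases hμ : μ ∈ P.support
    · have h1 := (MvPolynomial.le_totalDegree hμ).trans hP
      rw [Finsupp.sum_fintype _ _ (fun _ => rfl), Fintype.sum_sigma] at h1
      have h2 : ∑ i, μ ⟨j, i⟩ ≤ ∑ j, ∑ i, μ ⟨j, i⟩ :=
        Finset.single_le_sum (f := fun j => ∑ i, μ ⟨j, i⟩) (fun _ _ => Nat.zero_le _) (Finset.mem_univ j)
      obtain ⟨h, hh⟩ := exists_wv δ (fun i => μ ⟨j, i⟩) (h2.trans h1)
      exact ⟨h, fun _ => hh⟩
    · exact ⟨fun _ => none, fun h => absurd h hμ⟩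
  choose H hH using h
  exact ⟨H, fun μ hμ l => hH μ l hμ⟩

lemma aeval_wd {P : MvPolynomial (Σ j, κ j) ℂ} {H : ((Σ j, κ j) →₀ ℕ) → ∀ j, Fin δ → Option (κ j)}
    (hH : ∀ μ ∈ P.support, ∀ j, ∀ (M : Type) [CommMonoid M] (z : κ j → M), wv z (H μ j) = ∏ i, z i ^ μ ⟨j, i⟩)
    {R : Type} [CommRing R] [Algebra ℂ R] (y : (Σ j, κ j) → R) :
    MvPolynomial.aeval y P = ∑ μ ∈ P.support, algebraMap ℂ R (P.coeff μ) * ∏ j, wv (fun i => y ⟨j, i⟩) (H μ j) := by
  rw [MvPolynomial.aeval_def, MvPolynomial.eval₂_eq']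
  refine Finset.sum_congr rfl fun μ hμ => ?_
  rw [Fintype.prod_sigma]
  congr 1
  refine Finset.prod_congr rfl fun l _ => ?_
  rw [hH μ hμ l]

/-- the space of the coefficients -/
noncomputable def WW (δ : ℕ) (lam : ∀ j, κ j → Option (Fin n × Fin n) → ℂ) : Submodule ℚ ℂ :=
  sp (fun x : ∀ j, (Fin δ → Option (κ j)) × (Fin δ → Option (Fin n × Fin n)) => ∏ j, c1 (lam j) (x j).1 (x j).2)

section core

variable {Z : Fin n → Fin n → ℚ⟦X⟧} (b : Bas Z δ) (lam : ∀ j, κ j → Option (Fin n × Fin n) → ℂ)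

/-- the coefficients belong to the space -/
lemma coef_mem (h : ∀ j, Fin δ → Option (κ j)) (e : Fin k → b.s) (m : Fin k → ℕ) :
    ∏ j, (a1 b (lam j) (h j) (e j)).eval (1 / (m j : ℂ)) ∈ WW δ lam := by
  classical
  have h1 : ∀ j, (a1 b (lam j) (h j) (e j)).eval (1 / (m j : ℂ)) =
      ∑ g, c1 (lam j) (h j) g * ((Polynomial.aeval (1 / (m j : ℚ)) (b.N g (e j)) : ℚ) : ℂ) := by
    intro j
    unfold a1
    rw [Polynomial.eval_finsetSum]
    refine Finset.sum_congr rfl fun g _ => ?_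
    rw [Polynomial.eval_mul, Polynomial.eval_C, Polynomial.eval_map, Polynomial.aeval_def]
    congr 1
    have h2 := Polynomial.hom_eval₂ (b.N g (e j)) (algebraMap ℤ ℚ) (algebraMap ℚ ℂ) (1 / (m j : ℚ))
    have h3 : algebraMap ℚ ℂ (1 / (m j : ℚ)) = 1 / (m j : ℂ) := by simp
    rw [h3] at h2
    have h4 : (algebraMap ℚ ℂ).comp (algebraMap ℤ ℚ) = Int.castRingHom ℂ := RingHom.ext_int _ _
    rw [h4] at h2
    rw [← h2]
    rfl
  rw [Finset.prod_congr rfl fun j _ => h1 j, Finset.prod_univ_sum, Fintype.piFinset_univ]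
  refine Submodule.sum_mem _ fun g _ => ?_
  rw [Finset.prod_mul_distrib]
  have h5 : ∏ j, ((Polynomial.aeval (1 / (m j : ℚ)) (b.N (g j) (e j)) : ℚ) : ℂ) =
      ((∏ j, Polynomial.aeval (1 / (m j : ℚ)) (b.N (g j) (e j)) : ℚ) : ℂ) := by push_cast; rfl
  rw [h5, mul_comm, ← Rat.smul_def]
  exact Submodule.smul_mem _ _ (sp_mem (fun x : ∀ j, (Fin δ → Option (κ j)) × (Fin δ → Option (Fin n × Fin n)) =>
    ∏ j, c1 (lam j) (x j).1 (x j).2) fun j => (h j, g j))

/-- a polynomial in one variable as a polynomial in several variables -/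
noncomputable def lft (j : Fin k) (Q : Polynomial ℂ) : MvPolynomial (Fin k) ℂ := Polynomial.aeval (MvPolynomial.X j) Q

lemma aeval_lft (j : Fin k) (Q : Polynomial ℂ) (z : Fin k → ℂ) : MvPolynomial.aeval z (lft j Q) = Q.eval (z j) := by
  unfold lft
  rw [← Polynomial.aeval_algHom_apply, MvPolynomial.aeval_X, Polynomial.coe_aeval_eq_eval]

lemma eval_lft (j : Fin k) (Q : Polynomial ℂ) (z : Fin k → ℂ) : MvPolynomial.eval z (lft j Q) = Q.eval (z j) :=
  aeval_lft j Q z

end core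

end words

end Pool.Agent.Run7.h659.TT
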