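import Pool.Agent.Run7.h659.TT1

/-!
# Relations between the values at all tuples of points: the main lemma
-/

set_option autoImplicit false

open PowerSeries

namespace Pool.Agent.Run7.h659.TT

open Pool.Agent.Y113 Pool.Agent.Y113.GG Pool.Agent.Y37.GF Pool.Agent.Y118.HG Pool.Agent.Y921.DB

variable {n δ k : ℕ} {κ : Fin k → Type} [∀ j, Fintype (κ j)] {Z : Fin n → Fin n → ℚ⟦X⟧} (b : Bas Z δ)
  (lam : ∀ j, κ j → Option (Fin n × Fin n) → ℂ)

/-- the linear relations at the point -/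
lemma rel_pt {C : ℝ} (hC : 1 ≤ C) (hZ : ∀ i j m, |((coeff m (Z i j) : ℚ) : ℝ)| ≤ C ^ (m + 1))
    {V : Submodule ℚ ℂ} {m : Fin k → ℕ} (hm : ∀ j, C < m j) (hN : Nd b (V * WW δ lam) m)
    {P : MvPolynomial (Σ j, κ j) ℂ} (hV : ∀ s, P.coeff s ∈ V)
    {H : ((Σ j, κ j) →₀ ℕ) → ∀ j, Fin δ → Option (κ j)}
    (hH : ∀ μ ∈ P.support, ∀ j, ∀ (M : Type) [CommMonoid M] (z : κ j → M), wv z (H μ j) = ∏ i, z i ^ μ ⟨j, i⟩)
    (h0 : MvPolynomial.aeval (fun v : Σ j, κ j => p1 (lam v.1) Z (1 / (m v.1 : ℂ)) v.2) P = 0) (e : Fin k → b.s) :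
    ∑ μ ∈ P.support, P.coeff μ * ∏ j, (a1 b (lam j) (H μ j) (e j)).eval (1 / (m j : ℂ)) = 0 := by
  classical
  have hm0 : ∀ l, (0 : ℝ) < m l := fun l => lt_trans (by linarith) (hm l)
  have hzC : ∀ l, ‖(1 / (m l : ℂ))‖ < 1 / C := by
    intro l
    simp only [norm_div, norm_one, Complex.norm_natCast]
    exact one_div_lt_one_div_of_lt (by linarith) (hm l)
  have hsum : ∑ e : Fin k → b.s, (∑ μ ∈ P.support, P.coeff μ *
      ∏ j, (a1 b (lam j) (H μ j) (e j)).eval (1 / (m j : ℂ))) *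
      ∏ l, wv (zv Z (m l)) (e l : Fin δ → Option (Fin n × Fin n)) = 0 := by
    have h1 : (∏ j, Polynomial.aeval (1 / (m j : ℂ)) b.D) *
        MvPolynomial.aeval (fun v : Σ j, κ j => p1 (lam v.1) Z (1 / (m v.1 : ℂ)) v.2) P = 0 := by
      rw [h0, mul_zero]
    rw [aeval_wd hH, Finset.mul_sum] at h1
    rw [← h1]
    simp only [Finset.sum_mul]
    rw [Finset.sum_comm]
    refine Finset.sum_congr rfl fun μ _ => ?_
    have h2 : (∏ j, Polynomial.aeval (1 / (m j : ℂ)) b.D) * (algebraMap ℂ ℂ (P.coeff μ) *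
        ∏ j, wv (fun i => p1 (lam j) Z (1 / (m j : ℂ)) i) (H μ j)) =
        P.coeff μ * ∏ j, (Polynomial.aeval (1 / (m j : ℂ)) b.D * wv (p1 (lam j) Z (1 / (m j : ℂ))) (H μ j)) := by
      rw [Finset.prod_mul_distrib, Algebra.algebraMap_self, RingHom.id_apply]
      ring
    rw [h2, Finset.prod_congr rfl fun j _ => dw1 b (lam j) hC hZ (H μ j) (hzC j), Finset.prod_univ_sum,
      Fintype.piFinset_univ, Finset.mul_sum]
    refine Finset.sum_congr rfl fun e _ => ?_
    rw [Finset.prod_mul_distrib, mul_assoc]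
    congr 2
    refine Finset.prod_congr rfl fun l _ => ?_
    have h3 : zv Z (m l) = zc Z (1 / (m l : ℂ)) := by
      funext p
      rw [zv_eq]
      simp
    rw [h3]
  have h4 := hN _ (fun e => by
    refine Submodule.sum_mem _ fun μ _ => ?_
    exact Submodule.mul_mem_mul (hV μ) (coef_mem b lam (H μ) e m)) hsum
  exact congrFun h4 e

/-- **The main lemma.** -/
theorem core {C : ℝ} (hC : 1 ≤ C) (hZ : ∀ i j m, |((coeff m (Z i j) : ℚ) : ℝ)| ≤ C ^ (m + 1)) :
    ∃ x₀ : ℕ, (∀ m : ℕ, x₀ ≤ m → C < m) ∧ ∀ (V : Submodule ℚ ℂ) (m : Fin k → ℕ), (∀ j, x₀ ≤ m j) → Nd b (V * WW δ lam) m →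
      ∀ P : MvPolynomial (Σ j, κ j) ℂ, P.totalDegree ≤ δ → (∀ s, P.coeff s ∈ V) →
        MvPolynomial.aeval (fun v : Σ j, κ j => p1 (lam v.1) Z (1 / (m v.1 : ℂ)) v.2) P = 0 →
        ∃ G : MvPolynomial (Σ j, κ j) (MvPolynomial (Fin k) ℂ),
          (∀ z : Fin k → ℂ, (∀ j, ‖z j‖ < 1 / C) →
            G.eval₂ (MvPolynomial.aeval z : MvPolynomial (Fin k) ℂ →ₐ[ℂ] ℂ).toRingHom
              (fun v : Σ j, κ j => p1 (lam v.1) Z (z v.1) v.2) = 0) ∧
          G.map (MvPolynomial.eval fun j => 1 / (m j : ℂ)) = P := by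
  classical
  choose s D₁ N₁ Δ C₁ hD₁ hΔ hN₁ hR hR' using fun j => rows b (lam j)
  set bD : Polynomial ℂ := b.D.map (Int.castRingHom ℂ) with hbD
  have hbD0 : bD ≠ 0 := by
    rw [hbD, Ne, Polynomial.map_eq_zero_iff (RingHom.injective_int _)]
    exact b.hD
  have hbDe : ∀ z : ℂ, bD.eval z = Polynomial.aeval z b.D := by
    intro z
    rw [hbD, Polynomial.eval_map, Polynomial.aeval_def]
    rfl
  choose x hx using fun j => eval_ne (mul_ne_zero (mul_ne_zero hbD0 (hD₁ j)) (hΔ j))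
  obtain ⟨C₀, hC₀⟩ := exists_nat_gt C
  have hxle : ∀ j, x j ≤ ∑ j, x j := fun j => Finset.single_le_sum (fun _ _ => Nat.zero_le _) (Finset.mem_univ j)
  refine ⟨C₀ + ∑ j, x j, fun m hm => hC₀.trans_le (by exact_mod_cast (by omega : C₀ ≤ m)), ?_⟩
  intro V m hm hNd P hP hV h0
  set z : Fin k → ℂ := fun j => 1 / (m j : ℂ) with hz
  have hmC : ∀ j, C < m j := fun j => hC₀.trans_le (by exact_mod_cast (by have := hm j; omega : C₀ ≤ m j))
  have hne : ∀ j, bD.eval (z j) ≠ 0 ∧ (D₁ j).eval (z j) ≠ 0 ∧ (Δ j).eval (z j) ≠ 0 := by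
    intro j
    have h1 := hx j (m j) (by have := hm j; have := hxle j; omega)
    rw [Polynomial.eval_mul, Polynomial.eval_mul] at h1
    exact ⟨left_ne_zero_of_mul (left_ne_zero_of_mul h1), right_ne_zero_of_mul (left_ne_zero_of_mul h1),
      right_ne_zero_of_mul h1⟩
  obtain ⟨H, hH⟩ := exists_Hd P hP
  have hc := rel_pt b lam hC hZ hmC hNd hV hH h0
  -- the relations between the coefficients in the basis of the rows
  set B : (∀ j, s j) → ℂ := fun κ' => ∑ μ ∈ P.support, P.coeff μ * ∏ j, (N₁ j (H μ j) (κ' j)).eval (z j) with hB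
  have hB1 : ∀ e : Fin k → b.s, ∑ κ' : ∀ j, s j, B κ' * ∏ j, (a1 b (lam j) (κ' j) (e j)).eval (z j) = 0 := by
    intro e
    have h1 : ∑ κ' : ∀ j, s j, B κ' * ∏ j, (a1 b (lam j) (κ' j) (e j)).eval (z j) =
        (∏ j, (D₁ j).eval (z j)) * ∑ μ ∈ P.support, P.coeff μ * ∏ j, (a1 b (lam j) (H μ j) (e j)).eval (z j) := by
      rw [Finset.mul_sum]
      simp only [hB, Finset.sum_mul]
      rw [Finset.sum_comm]
      refine Finset.sum_congr rfl fun μ _ => ?_
      have h2 : (∏ j, (D₁ j).eval (z j)) * (P.coeff μ * ∏ j, (a1 b (lam j) (H μ j) (e j)).eval (z j)) =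
          P.coeff μ * ∏ j, ((D₁ j * a1 b (lam j) (H μ j) (e j)).eval (z j)) := by
        simp only [Polynomial.eval_mul]
        rw [Finset.prod_mul_distrib]
        ring
      rw [h2]
      have h3 : ∀ j, (D₁ j * a1 b (lam j) (H μ j) (e j)).eval (z j) =
          ∑ κ' : s j, (N₁ j (H μ j) κ').eval (z j) * (a1 b (lam j) κ' (e j)).eval (z j) := by
        intro j
        rw [hN₁, Polynomial.eval_finsetSum]
        simp only [Polynomial.eval_mul]
      rw [Finset.prod_congr rfl fun j _ => h3 j, Finset.prod_univ_sum, Fintype.piFinset_univ, Finset.mul_sum]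
      refine Finset.sum_congr rfl fun κ' _ => ?_
      rw [Finset.prod_mul_distrib, mul_assoc]
    rw [h1, hc e, mul_zero]
  have hB0 : ∀ κ₀ : ∀ j, s j, B κ₀ = 0 := by
    intro κ₀
    have h1 : ∑ e : Fin k → b.s, (∑ κ' : ∀ j, s j, B κ' * ∏ j, (a1 b (lam j) (κ' j) (e j)).eval (z j)) *
        ∏ j, (C₁ j (e j) (κ₀ j)).eval (z j) = 0 :=
      Finset.sum_eq_zero fun e _ => by rw [hB1 e, zero_mul]
    have h2 : ∑ e : Fin k → b.s, (∑ κ' : ∀ j, s j, B κ' * ∏ j, (a1 b (lam j) (κ' j) (e j)).eval (z j)) *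
        ∏ j, (C₁ j (e j) (κ₀ j)).eval (z j) = B κ₀ * ∏ j, (Δ j).eval (z j) := by
      simp only [Finset.sum_mul]
      rw [Finset.sum_comm]
      have h3 : ∀ κ' : ∀ j, s j, ∑ e : Fin k → b.s, B κ' * (∏ j, (a1 b (lam j) (κ' j) (e j)).eval (z j)) *
          ∏ j, (C₁ j (e j) (κ₀ j)).eval (z j) =
          B κ' * ∏ j, ((∑ e : b.s, a1 b (lam j) (κ' j) e * C₁ j e (κ₀ j)).eval (z j)) := by
        intro κ'
        have h4 : ∀ j, (∑ e : b.s, a1 b (lam j) (κ' j) e * C₁ j e (κ₀ j)).eval (z j) =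
            ∑ e : b.s, (a1 b (lam j) (κ' j) e).eval (z j) * (C₁ j e (κ₀ j)).eval (z j) := by
          intro j
          rw [Polynomial.eval_finsetSum]
          simp only [Polynomial.eval_mul]
        rw [Finset.prod_congr rfl fun j _ => h4 j, Finset.prod_univ_sum, Fintype.piFinset_univ, Finset.mul_sum]
        refine Finset.sum_congr rfl fun e _ => ?_
        rw [Finset.prod_mul_distrib, mul_assoc]
      rw [Finset.sum_congr rfl fun κ' _ => h3 κ', Finset.sum_eq_single κ₀]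
      · congr 1
        refine Finset.prod_congr rfl fun j _ => ?_
        rw [hR]
      · intro κ' _ hκ
        obtain ⟨j, hj⟩ := Function.ne_iff.1 hκ
        rw [Finset.prod_eq_zero (Finset.mem_univ j), mul_zero]
        rw [hR' j _ _ hj, Polynomial.eval_zero]
      · intro hh; exact absurd (Finset.mem_univ _) hh
    rw [h1] at h2
    exact (mul_eq_zero.1 h2.symm).resolve_right (Finset.prod_ne_zero_iff.2 fun j _ => (hne j).2.2)
  -- the functional relation
  set ρ : ℂ := ∏ j, (bD * D₁ j).eval (z j) with hρ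
  have hρ0 : ρ ≠ 0 := by
    refine Finset.prod_ne_zero_iff.2 fun j _ => ?_
    rw [Polynomial.eval_mul]
    exact mul_ne_zero (hne j).1 (hne j).2.1
  set G : MvPolynomial (Σ j, κ j) (MvPolynomial (Fin k) ℂ) := ∑ μ ∈ P.support,
    MvPolynomial.C (MvPolynomial.C (ρ⁻¹ * P.coeff μ)) *
      ((∏ j, (MvPolynomial.C (lft j (bD * D₁ j)) * wv (fun i => MvPolynomial.X ⟨j, i⟩) (H μ j))) -
        ∏ j, ∑ κ' : s j, MvPolynomial.C (lft j (bD * N₁ j (H μ j) κ')) *
          wv (fun i => MvPolynomial.X ⟨j, i⟩) (κ' : Fin δ → Option (κ j))) with hG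
  have hid : ∀ (j : Fin k) (w : ℂ), ‖w‖ < 1 / C → ∀ h : Fin δ → Option (κ j),
      (bD * D₁ j).eval w * wv (p1 (lam j) Z w) h =
        ∑ κ' : s j, (bD * N₁ j h κ').eval w * wv (p1 (lam j) Z w) (κ' : Fin δ → Option (κ j)) := by
    intro j w hw h
    calc (bD * D₁ j).eval w * wv (p1 (lam j) Z w) h
        = (D₁ j).eval w * (Polynomial.aeval w b.D * wv (p1 (lam j) Z w) h) := by
          rw [Polynomial.eval_mul, hbDe]; ring
      _ = ∑ e, (D₁ j * a1 b (lam j) h e).eval w * wv (zc Z w) (e : Fin δ → Option (Fin n × Fin n)) := by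
          rw [dw1 b (lam j) hC hZ h hw, Finset.mul_sum]
          refine Finset.sum_congr rfl fun e _ => ?_
          rw [Polynomial.eval_mul]; ring
      _ = ∑ e, ∑ κ' : s j, (N₁ j h κ').eval w * ((a1 b (lam j) κ' e).eval w *
            wv (zc Z w) (e : Fin δ → Option (Fin n × Fin n))) := by
          refine Finset.sum_congr rfl fun e _ => ?_
          rw [hN₁, Polynomial.eval_finsetSum, Finset.sum_mul]
          refine Finset.sum_congr rfl fun κ' _ => ?_
          rw [Polynomial.eval_mul]; ring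
      _ = ∑ κ' : s j, (N₁ j h κ').eval w * (Polynomial.aeval w b.D *
            wv (p1 (lam j) Z w) (κ' : Fin δ → Option (κ j))) := by
          rw [Finset.sum_comm]
          refine Finset.sum_congr rfl fun κ' _ => ?_
          rw [dw1 b (lam j) hC hZ κ' hw, Finset.mul_sum]
      _ = _ := by
          refine Finset.sum_congr rfl fun κ' _ => ?_
          rw [Polynomial.eval_mul, hbDe]; ring
  refine ⟨G, fun w hw => ?_, ?_⟩
  · set Φ := MvPolynomial.eval₂Hom (MvPolynomial.aeval w : MvPolynomial (Fin k) ℂ →ₐ[ℂ] ℂ).toRingHom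
      (fun v : Σ j, κ j => p1 (lam v.1) Z (w v.1) v.2) with hΦ
    have hΦC : ∀ q, Φ (MvPolynomial.C q) = MvPolynomial.aeval w q := fun q => MvPolynomial.eval₂Hom_C _ _ _
    have hΦX : ∀ v, Φ (MvPolynomial.X v) = p1 (lam v.1) Z (w v.1) v.2 := fun v => MvPolynomial.eval₂Hom_X' _ _ _
    show Φ G = 0
    rw [hG, map_sum]
    refine Finset.sum_eq_zero fun μ _ => ?_
    rw [map_mul, map_sub, map_prod, map_prod]
    simp only [map_mul, map_sum, hΦC, aeval_lft, map_wv, hΦX]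
    rw [sub_eq_zero.2, mul_zero]
    refine Finset.prod_congr rfl fun j _ => ?_
    exact hid j (w j) (hw j) (H μ j)
  · set Ψ := MvPolynomial.map (σ := Σ j, κ j) (MvPolynomial.eval z) with hΨ
    have hΨC : ∀ q, Ψ (MvPolynomial.C q) = MvPolynomial.C (MvPolynomial.eval z q) := fun q => MvPolynomial.map_C _ _
    have hΨX : ∀ v, Ψ (MvPolynomial.X v) = MvPolynomial.X v := fun v => MvPolynomial.map_X _ _
    have hPX : P = ∑ μ ∈ P.support, MvPolynomial.C (P.coeff μ) *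
        ∏ j, wv (fun i => (MvPolynomial.X ⟨j, i⟩ : MvPolynomial (Σ j, κ j) ℂ)) (H μ j) := by
      have h1 := aeval_wd hH (R := MvPolynomial (Σ j, κ j) ℂ) MvPolynomial.X
      rw [MvPolynomial.aeval_X_left_apply] at h1
      exact h1
    show Ψ G = P
    rw [hG, map_sum]
    have h1 : ∀ μ ∈ P.support, Ψ (MvPolynomial.C (MvPolynomial.C (ρ⁻¹ * P.coeff μ)) *
      ((∏ j, (MvPolynomial.C (lft j (bD * D₁ j)) * wv (fun i => MvPolynomial.X ⟨j, i⟩) (H μ j))) -
        ∏ j, ∑ κ' : s j, MvPolynomial.C (lft j (bD * N₁ j (H μ j) κ')) *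
          wv (fun i => MvPolynomial.X ⟨j, i⟩) (κ' : Fin δ → Option (κ j)))) =
        MvPolynomial.C (P.coeff μ) * ∏ j, wv (fun i => (MvPolynomial.X ⟨j, i⟩ : MvPolynomial (Σ j, κ j) ℂ)) (H μ j) -
        ∑ κ' : ∀ j, s j, MvPolynomial.C (ρ⁻¹ * (∏ j, bD.eval (z j)) * (P.coeff μ * ∏ j, (N₁ j (H μ j) (κ' j)).eval (z j))) *
          ∏ j, wv (fun i => (MvPolynomial.X ⟨j, i⟩ : MvPolynomial (Σ j, κ j) ℂ)) (κ' j : Fin δ → Option (κ j)) := by
      intro μ _
      rw [map_mul, map_sub, map_prod, map_prod]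
      simp only [map_mul, map_sum, hΨC, eval_lft, map_wv, hΨX, MvPolynomial.eval_C]
      rw [mul_sub]
      congr 1
      · rw [Finset.prod_mul_distrib, ← map_prod, ← mul_assoc]
        congr 1
        rw [← map_mul, ← map_mul, ← hρ]
        congr 1
        field_simp
      · rw [Finset.prod_univ_sum, Fintype.piFinset_univ, Finset.mul_sum]
        refine Finset.sum_congr rfl fun κ' _ => ?_
        rw [Finset.prod_mul_distrib, ← map_prod, ← mul_assoc]
        congr 1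
        simp only [Polynomial.eval_mul]
        rw [Finset.prod_mul_distrib]
        simp only [map_mul]
        ring
    rw [Finset.sum_congr rfl h1, Finset.sum_sub_distrib, ← hPX, Finset.sum_comm, Finset.sum_eq_zero, sub_zero]
    intro κ' _
    rw [← Finset.sum_mul, ← map_sum, ← Finset.mul_sum]
    have h2 : ∑ μ ∈ P.support, P.coeff μ * ∏ j, (N₁ j (H μ j) (κ' j)).eval (z j) = 0 := hB0 κ'
    rw [h2, mul_zero, map_zero, zero_mul]

end Pool.Agent.Run7.h659.TT
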