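import Pool.Agent.Run7.h659.VA7

/-!
# Relations between the periods of families of cyclic covers at the points `1 / t`
-/

set_option autoImplicit false
set_option linter.unusedSectionVars false

open Complex PowerSeries

namespace Pool.Agent.Run7.h659.VA

open Pool.Agent.Run7.h659.SE Pool.Agent.Run7.h659.CC
open Pool.Agent.Y118.HP (ee Dm isOpen_Dm InGap mem_Dm_of_im ee_self ee_succAbove
  differentiable_ee differentiableOn_eval isPreconnected_Dm eq_zero_of_open)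
open Pool.Agent.Y921.DB (SpecK ptL specL_count specL_win)

variable {p s : ℕ} (F : Fin p → Cfam)

/-- the relations of degree at most `δ` at the values are invariant -/
def Inv (K : Type) [Field K] [Algebra K ℂ] (ξ : Fin s → ℂ) (δ : ℕ) (z : Fin p → ℂ) : Prop :=
  ∀ P : MvPolynomial (Vx F s) K, P.totalDegree ≤ δ → MvPolynomial.aeval (cv F ξ (QQ F z)) P = 0 →
    ∀ g : MM F ℂ, (∀ l i, (g l i).det = 1) → MvPolynomial.aeval (cv F ξ fun l => g l * QQ F z l) P = 0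

section

variable (K : Type) [Field K] [NumberField K] [Algebra K ℂ]

lemma spec_of {L : Type} [Field L] [NumberField L] [Algebra L ℂ] {M : ℕ} {Z : Fin M → Fin M → L⟦X⟧}
    {lam : Fin p → Vx F s → Option (Fin M × Fin M) → ℂ} {pl : Vx F s → Fin p} {r₀ r : ℝ} (hr : r ≤ r₀) {ξ : Fin s → ℂ}
    (h : ∀ z : Fin p → ℂ, (∀ l, ‖z l‖ < r₀) → ∀ v, cv F ξ (QQ F z) v = ptL lam Z z (pl v, v)) {δ : ℕ} {m : Fin p → ℕ}
    (h0 : ∀ v l, pl v ≠ l → ∀ q, lam l v q = 0)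
    (hm : ∀ l, 1 / (m l : ℝ) < r) (hs : SpecK K (ptL lam Z) r δ m) :
    SpecK K (fun z v => cv F ξ (QQ F z) v) r δ m := by
  have h1 : SpecK K (fun z v => ptL lam Z z (pl v, v)) r δ m := by
    refine Pool.Agent.Y921.DB.SpecK.rename (g := fun v : Vx F s => (pl v, v))
      (fun v v' hv => (Prod.ext_iff.1 hv).2) (fun z t => rfl) (fun z t' ht' => ?_) hs
    unfold ptL
    refine Finset.sum_eq_zero fun q _ => ?_
    rw [h0 t'.2 t'.1 (fun hh => ht' ⟨t'.2, Prod.ext hh rfl⟩), zero_mul]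
  exact Pool.Agent.Y921.DB.SpecK.congr (fun z hz => funext fun v => h z (fun l => (hz l).trans_le hr) v) hm h1

open Classical in
/-- **Products of families, counting.** -/
theorem prod_count (l0 : Fin p) (ξ : Fin s → ℂ) (δ : ℕ) : ∃ r : ℝ, 0 < r ∧
    (∀ l, Metric.ball (0 : ℂ) r ⊆ Dm (F l).a (F l).m) ∧ ∃ c : ℝ, 0 < c ∧ ∃ C : ℝ, ∀ T : ℕ, 1 ≤ T →
    (((Fintype.piFinset fun _ : Fin p => Finset.Icc 2 T).filter fun m =>
      ¬ ((∀ l, 1 / (m l : ℝ) < r) ∧ Inv F K ξ δ fun l => 1 / (m l : ℂ))).card : ℝ) ≤ C * (T : ℝ) ^ ((p : ℝ) - c) := by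
  obtain ⟨L, _, _, _, M, f, A, Z, W, lam, pl, r₀, hD, hr₀, hball, hl0, hrep⟩ := rep F l0 ξ
  obtain ⟨r, hr, hrr, c, hc, C, hC⟩ := specL_count hD lam K δ hr₀
  refine ⟨r, hr, fun l => (Metric.ball_subset_ball hrr).trans (hball l), c, hc, C, fun T hT => le_trans ?_ (hC T hT)⟩
  refine Nat.cast_le.2 (Finset.card_le_card fun m hm => ?_)
  obtain ⟨hm1, hm2⟩ := Finset.mem_filter.1 hm
  refine Finset.mem_filter.2 ⟨hm1, fun hh => hm2 ⟨hh.1, ?_⟩⟩
  have hs := spec_of F K hrr hrep hl0 hh.1 hh.2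
  intro P hP h0 g hg
  exact spec_inv F ξ hr (fun l => (Metric.ball_subset_ball hrr).trans (hball l)) hh.1 hs P hP h0 g hg

/-- **One family, windows.** -/
theorem one_win (F : Fin 1 → Cfam) (ξ : Fin s → ℂ) (δ : ℕ) : ∃ r : ℝ, 0 < r ∧
    (∀ l, Metric.ball (0 : ℂ) r ⊆ Dm (F l).a (F l).m) ∧ ∃ c : ℝ, 0 < c ∧ ∃ M : ℕ, ∀ N : ℕ, 1 ≤ N →
    ∃ S : Finset ℕ, S.card ≤ M ∧ ∀ m : ℕ, N ≤ m → (m : ℝ) ≤ N + (N : ℝ) ^ c → m ∉ S →
      1 / (m : ℝ) < r ∧ Inv F K ξ δ (fun _ => 1 / (m : ℂ)) := by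
  obtain ⟨L, _, _, _, M, f, A, Z, W, lam, pl, r₀, hD, hr₀, hball, hl0, hrep⟩ := rep F 0 ξ
  obtain ⟨r, hr, hrr, c, hc, M', hM⟩ := specL_win hD lam K δ hr₀
  refine ⟨r, hr, fun l => (Metric.ball_subset_ball hrr).trans (hball l), c, hc, M', fun N hN => ?_⟩
  obtain ⟨S, hS, hS'⟩ := hM N hN
  refine ⟨S, hS, fun m h1 h2 h3 => ?_⟩
  obtain ⟨h4, h5⟩ := hS' m h1 h2 h3
  have hs := spec_of F K hrr hrep hl0 (fun _ => h4) h5
  refine ⟨h4, ?_⟩
  intro P hP h0 g hg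
  exact spec_inv F ξ hr (fun l => (Metric.ball_subset_ball hrr).trans (hball l)) (m := fun _ => m) (fun _ => h4) hs P hP
    h0 g hg

end

/-! ## real form -/

/-- the real matrix of integrals -/
noncomputable def Rp {n : ℕ} (ρ : ℚ) (e : Fin (n + 1) → ℝ) : Matrix (Fin n) (Fin n) ℝ :=
  Matrix.of fun l j => ∫ x in (e l.castSucc)..(e l.succ), x ^ (j : ℕ) / ∏ i, |x - e i| ^ (ρ : ℝ)

theorem wt_abs {n : ℕ} {e : Fin (n + 1) → ℝ} (he : StrictMono e) (r : ℝ) (l : Fin n) {x : ℝ}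
    (hx : x ∈ Set.Ioo (e l.castSucc) (e l.succ)) : wt (fun _ => r) e l x = (∏ i, |x - e i| ^ r)⁻¹ := by
  unfold wt
  rw [← Finset.prod_inv_distrib]
  refine Finset.prod_congr rfl fun i _ => ?_
  have hp := fac_pos he l hx i
  rw [Real.rpow_neg hp.le]
  congr 2
  split_ifs with h
  · rw [if_pos h] at hp
    rw [abs_of_pos hp]
  · rw [if_neg h] at hp
    rw [abs_of_neg (by linarith)]
    ring

theorem Rp_eq {n : ℕ} {e : Fin (n + 1) → ℝ} (he : StrictMono e) (ρ : ℚ) :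
    PM (fun _ => ((ρ : ℝ) : ℂ)) (fun k => (e k : ℂ)) = (Rp ρ e).map Complex.ofRealHom := by
  rw [PM_real (ν := fun _ => (ρ : ℝ)) he]
  congr 1
  ext l j
  unfold RM Rp
  rw [Matrix.of_apply, Matrix.of_apply]
  have hlt : e l.castSucc < e l.succ := he Fin.castSucc_lt_succ
  rw [intervalIntegral.integral_of_le hlt.le, intervalIntegral.integral_of_le hlt.le,
    MeasureTheory.integral_Ioc_eq_integral_Ioo, MeasureTheory.integral_Ioc_eq_integral_Ioo]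
  refine MeasureTheory.setIntegral_congr_fun measurableSet_Ioo fun x hx => ?_
  rw [wt_abs he _ l hx, div_eq_mul_inv]

theorem PF_real {n : ℕ} {ι : Type} (ρ : ι → ℚ) {a : Fin n → ℝ} (ha : StrictMono a) {m : Fin (n + 1)} {t : ℝ}
    (ht : InGap a m t) (i : ι) : PF ρ a m (t : ℂ) i =
      (Rp (ρ i) (Fin.insertNth (α := fun _ => ℝ) m t a)).map Complex.ofRealHom := by
  unfold PF
  have h1 : ee a m (t : ℂ) = fun k => ((Fin.insertNth (α := fun _ => ℝ) m t a k : ℝ) : ℂ) := by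
    funext k
    exact er_coe a m t k
  rw [h1, Rp_eq (strictMono_ins ha ht)]

theorem det_Rp {n : ℕ} {e : Fin (n + 1) → ℝ} (he : StrictMono e) {ρ : ℚ} (h : ρ < 1) : (Rp ρ e).det ≠ 0 := by
  have h1 := det_RM (ν := fun _ => (ρ : ℝ)) he (fun _ => by exact_mod_cast h)
  have h2 := Rp_eq he ρ
  rw [PM_real (ν := fun _ => (ρ : ℝ)) he] at h2
  have h3 : RM (fun _ => (ρ : ℝ)) e = Rp ρ e := by
    ext l j
    have h4 := congrFun (congrFun h2 l) j
    rw [Matrix.map_apply, Matrix.map_apply] at h4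
    exact Complex.ofReal_injective h4
  rwa [h3] at h1

theorem gap_of_ball {n : ℕ} {a : Fin n → ℝ} {m : Fin (n + 1)} {r : ℝ}
    (h : Metric.ball (0 : ℂ) r ⊆ Dm a m) {t : ℕ} (ht : 1 / (t : ℝ) < r) : InGap a m (1 / (t : ℝ)) := by
  have h1 : (((1 / (t : ℝ) : ℝ)) : ℂ) ∈ Dm a m := by
    apply h
    rw [mem_ball_zero_iff, Complex.norm_real, Real.norm_eq_abs, abs_of_nonneg (by positivity)]
    exact ht
  intro i
  refine ⟨fun h2 => ?_, fun h2 => ?_⟩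
  · have h3 := (h1 i).1 h2
    rw [← ofReal_sub, ofReal_mem_slitPlane] at h3
    linarith
  · have h3 := (h1 i).2 h2
    rw [← ofReal_sub, ofReal_mem_slitPlane] at h3
    linarith

end Pool.Agent.Run7.h659.VA
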