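import Pool.Agent.Run7.h659.TT3
import Pool.Agent.Run7.h659.VA8

/-!
# Relations between the periods of all tuples of fibres of families of cyclic covers
-/

set_option autoImplicit false
set_option linter.unusedSectionVars false

open Complex PowerSeries

namespace Pool.Agent.Run7.h659.TT

open Pool.Agent.Run7.h659.VA
open Pool.Agent.Y118.HP (Dm)
open Pool.Agent.Y118.HG (SepN)

/-- the names of the periods -/
abbrev Nm {k : ℕ} (F : Fin k → Cfam) : Type := Σ l : Fin k, Fin (F l).k × Fin ((F l).n + 2) × Fin ((F l).n + 2)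

/-- the values of the variables -/
def nv {k : ℕ} (F : Fin k → Cfam) (Y : MM F ℂ) (v : Nm F) : ℂ := Y v.1 v.2.1 v.2.2.1 v.2.2.2

/-- the relations of degree at most `δ` with coefficients in `V` at the values are invariant -/
def InvV {k : ℕ} (F : Fin k → Cfam) (V : Submodule ℚ ℂ) (δ : ℕ) (z : Fin k → ℂ) : Prop :=
  ∀ P : MvPolynomial (Nm F) ℂ, P.totalDegree ≤ δ → (∀ s, P.coeff s ∈ V) → MvPolynomial.aeval (nv F (QQ F z)) P = 0 →
    ∀ g : MM F ℂ, (∀ l i, (g l i).det = 1) → MvPolynomial.aeval (nv F fun l => g l * QQ F z l) P = 0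

/-- from functional relations to invariance -/
theorem inv_of_spec {k : ℕ} (F : Fin k → Cfam) {V : Submodule ℚ ℂ} {δ : ℕ} {r : ℝ} (hr : 0 < r)
    (hball : ∀ l, Metric.ball (0 : ℂ) r ⊆ Dm (F l).a (F l).m) {m : Fin k → ℕ} (hm : ∀ l, 1 / (m l : ℝ) < r)
    (hs : SpecV V (fun z => nv F (QQ F z)) r δ m) : InvV F V δ fun l => 1 / (m l : ℂ) := by
  intro P hP hPV h0 g hg
  obtain ⟨G, hG1, hG2⟩ := hs P hP hPV h0
  set G' : MvPolynomial (Vx F 0) (MvPolynomial (Fin k) ℂ) := MvPolynomial.rename Sum.inr G with hG'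
  set ξ : Fin 0 → ℂ := fun i => i.elim0 with hξ
  have hEV : ∀ (z : Fin k → ℂ) (Y : MM F ℂ), EV F G' z ξ Y =
      G.eval₂ (MvPolynomial.aeval z : MvPolynomial (Fin k) ℂ →ₐ[ℂ] ℂ).toRingHom (nv F Y) := by
    intro z Y
    unfold EV
    rw [hG', MvPolynomial.eval₂_rename]
    rfl
  have hz : ∀ l, ‖(1 / (m l : ℂ))‖ < r := by
    intro l
    have := hm l
    rwa [norm_div, norm_one, Complex.norm_natCast]
  have h4 := all_inv F G' ξ hr hball (fun z hz => by rw [hEV]; exact hG1 z hz) g hg (fun l => 1 / (m l : ℂ)) hz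
  rw [← hG2, MvPolynomial.aeval_def, MvPolynomial.eval₂_map, ← h4, hEV]
  congr 1

variable {q : ℕ} (F : Fin q → Cfam)

/-- **All tuples of separated integers of windows.** -/
theorem tup_win (l0 : Fin q) : ∃ r : ℝ, 0 < r ∧ (∀ l, Metric.ball (0 : ℂ) r ⊆ Dm (F l).a (F l).m) ∧
    ∃ G₀ : ℕ, 0 < G₀ ∧ ∀ (k : ℕ) (σ : Fin k → Fin q) (δ D : ℕ), ∃ M : ℕ, ∃ c : ℝ, 0 < c ∧
      ∀ V : Submodule ℚ ℂ, Module.Finite ℚ V → Module.finrank ℚ V ≤ D → ∀ N : ℕ, 1 ≤ N →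
        ∃ S : Finset ℕ, S.card ≤ M ∧ ∀ m : Fin k → ℕ, SepN G₀ m →
          (∀ j, N ≤ m j ∧ (m j : ℝ) ≤ N + (N : ℝ) ^ c ∧ m j ∉ S) → (∀ j, 1 / (m j : ℝ) < r) ∧
            InvV (fun j => F (σ j)) V δ fun j => 1 / (m j : ℂ) := by
  obtain ⟨L, _, _, _, M, f, A, Z, W, lam, pl, r₁, hD, hr₁, hball, hl0, hrep⟩ := rep F l0 (s := 0) (fun i => i.elim0)
  obtain ⟨n', F', B, Z', W', c', r₂, hD', hr₂, hc'⟩ := res_one hD
    (fun (v : Nm F) q => lam (pl (Sum.inr v)) (Sum.inr v) q)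
  obtain ⟨r, hr, hrr, G₀, hG₀, hwin⟩ := win_all hD' (lt_min hr₁ hr₂)
    (p := fun (z : ℂ) (v : Nm F) => PF (F v.1).ρ (F v.1).a (F v.1).m z v.2.1 v.2.2.1 v.2.2.2) (c' := c')
    (fun z hz v => by
      rw [← hc' z (hz.trans_le (min_le_right _ _)) v]
      exact hrep (fun _ => z) (fun _ => hz.trans_le (min_le_left _ _)) (Sum.inr v))
  refine ⟨r, hr, fun l => (Metric.ball_subset_ball (hrr.trans (min_le_left _ _))).trans (hball l), G₀, hG₀, ?_⟩
  intro k σ δ D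
  obtain ⟨M, c, hc, hM⟩ := hwin k (fun j => Fin (F (σ j)).k × Fin ((F (σ j)).n + 2) × Fin ((F (σ j)).n + 2))
    (fun j x => ⟨σ j, x⟩) δ D
  refine ⟨M, c, hc, fun V hV hVD N hN => ?_⟩
  obtain ⟨S, hS, hS'⟩ := hM V hV hVD N hN
  refine ⟨S, hS, fun m hm hmS => ?_⟩
  obtain ⟨h1, h2⟩ := hS' m hm hmS
  exact ⟨h1, inv_of_spec (fun j => F (σ j)) hr
    (fun l => (Metric.ball_subset_ball (hrr.trans (min_le_left _ _))).trans (hball (σ l))) h1 h2⟩

end Pool.Agent.Run7.h659.TT
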