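import Mathlib

/-!
# Linear independence of real radicals
-/

set_option autoImplicit false
set_option linter.unusedSectionVars false
set_option linter.unusedVariables false

namespace Pool.Agent.Run7.h659.UL

open Polynomial

variable (F : IntermediateField ℚ ℝ)

/-- the minimal polynomial of a real radical -/
theorem minpoly_radical {u : ℝ} (hu : 0 < u) {N : ℕ} (hN : 1 ≤ N) (hF : u ^ N ∈ F) (huF : u ∉ F) :
    (minpoly F u).nextCoeff = 0 := by
  have hint : IsIntegral F u := by
    refine ⟨X ^ N - C (⟨u ^ N, hF⟩ : F), monic_X_pow_sub_C _ (by omega), ?_⟩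
    rw [← aeval_def, map_sub, map_pow, aeval_X, aeval_C]
    exact sub_self _
  set p := minpoly F u with hp
  have hpm : p.Monic := minpoly.monic hint
  set d := p.natDegree with hd
  have hdiv : p ∣ X ^ N - C (⟨u ^ N, hF⟩ : F) := by
    apply minpoly.dvd
    rw [map_sub, map_pow, aeval_X, aeval_C]
    exact sub_self _
  have hd2 : 2 ≤ d := by
    by_contra hlt
    have h1 : d ≠ 0 := (minpoly.natDegree_pos hint).ne'
    have h2 : p.natDegree = 1 := by omega
    obtain ⟨w, hw⟩ := (minpoly.natDegree_eq_one_iff.1 h2 : u ∈ (algebraMap F ℝ).range)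
    apply huF
    rw [← hw]
    exact w.2
  -- the complex roots
  let i : F →+* ℂ := Complex.ofRealHom.comp (algebraMap F ℝ)
  have hi : ∀ x : F, i x = ((x : ℝ) : ℂ) := fun x => rfl
  set P : ℂ[X] := p.map i with hP
  have hPm : P.Monic := hpm.map i
  have hPd : P.natDegree = d := hpm.natDegree_map i
  have hroots : ∀ z ∈ P.roots, ‖z‖ = u := by
    intro z hz
    have h1 : P.eval z = 0 := (mem_roots'.1 hz).2
    have h2 : ((X ^ N - C (⟨u ^ N, hF⟩ : F)).map i).eval z = 0 := by
      obtain ⟨Q, hQ⟩ := hdiv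
      rw [hQ, Polynomial.map_mul, eval_mul, ← hP, h1, zero_mul]
    rw [Polynomial.map_sub, Polynomial.map_pow, map_X, map_C, eval_sub, eval_pow, eval_X, eval_C,
      hi, sub_eq_zero] at h2
    have h3 : ‖z‖ ^ N = u ^ N := by
      rw [← norm_pow, h2]
      simp [abs_of_pos hu]
    exact (pow_left_inj₀ (norm_nonneg _) hu.le (by omega)).1 h3
  have hcard : P.roots.card = d := by
    rw [← hPd]
    exact (IsAlgClosed.splits P).natDegree_eq_card_roots.symm
  have hnorm : ‖P.coeff 0‖ = u ^ d := by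
    have h1 := (IsAlgClosed.splits P).coeff_zero_eq_prod_roots_of_monic hPm
    rw [h1, norm_mul, norm_pow, norm_neg, norm_one, one_pow, one_mul, ← hcard]
    have h2 : ∀ s : Multiset ℂ, (∀ z ∈ s, ‖z‖ = u) → ‖s.prod‖ = u ^ s.card := by
      intro s
      induction s using Multiset.induction_on with
      | empty => simp
      | cons a s ih =>
        intro h
        rw [Multiset.prod_cons, norm_mul, h a (Multiset.mem_cons_self _ _),
          ih (fun z hz => h z (Multiset.mem_cons_of_mem hz)), Multiset.card_cons, pow_succ]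
        ring
    exact h2 _ hroots
  have hud : u ^ d ∈ F := by
    rw [hP, coeff_map, hi, Complex.norm_real, Real.norm_eq_abs] at hnorm
    rcases abs_choice ((p.coeff 0 : F) : ℝ) with h | h
    · rw [← hnorm, h]
      exact (p.coeff 0).2
    · rw [← hnorm, h]
      exact F.neg_mem (p.coeff 0).2
  have hq : p = X ^ d - C (⟨u ^ d, hud⟩ : F) := by
    have hqm : (X ^ d - C (⟨u ^ d, hud⟩ : F) : F[X]).Monic := monic_X_pow_sub_C _ (by omega)
    have hqd : (X ^ d - C (⟨u ^ d, hud⟩ : F) : F[X]).natDegree = d := natDegree_X_pow_sub_C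
    have h1 : p ∣ X ^ d - C (⟨u ^ d, hud⟩ : F) := by
      apply minpoly.dvd
      rw [map_sub, map_pow, aeval_X, aeval_C]
      exact sub_self _
    exact (eq_of_monic_of_dvd_of_natDegree_le hpm hqm h1 (by rw [hqd])).symm
  rw [nextCoeff_of_natDegree_pos (by omega), ← hd, hq, coeff_sub, coeff_X_pow, coeff_C,
    if_neg (by omega), if_neg (by omega), sub_zero]

/-- **Linear independence of real radicals.** -/
theorem radicals {ι : Type*} [Fintype ι] [DecidableEq ι] (u c : ι → ℝ) (hu : ∀ i, 0 < u i)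
    (hF : ∀ i, ∃ N : ℕ, 1 ≤ N ∧ u i ^ N ∈ F) (hc : ∀ i, c i ∈ F) (h : ∑ i, c i * u i = 0)
    (i₀ : ι) (hi₀ : c i₀ ≠ 0) : ∃ j, j ≠ i₀ ∧ u j / u i₀ ∈ F := by
  by_contra hcon
  push Not at hcon
  set U : ι → ℝ := fun i => u i / u i₀ with hU
  have hUpos : ∀ i, 0 < U i := fun i => div_pos (hu i) (hu i₀)
  have hUF : ∀ i, ∃ N : ℕ, 1 ≤ N ∧ U i ^ N ∈ F := by
    intro i
    obtain ⟨N, hN, h1⟩ := hF i
    obtain ⟨M, hM, h2⟩ := hF i₀
    refine ⟨N * M, Nat.mul_pos hN hM, ?_⟩
    rw [hU]
    simp only
    rw [div_pow, pow_mul, mul_comm N M, pow_mul]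
    exact F.div_mem (pow_mem h1 M) (pow_mem h2 N)
  have hint : ∀ i, IsIntegral F (U i) := by
    intro i
    obtain ⟨N, hN, h1⟩ := hUF i
    refine ⟨X ^ N - C (⟨U i ^ N, h1⟩ : F), monic_X_pow_sub_C _ (by omega), ?_⟩
    rw [← aeval_def, map_sub, map_pow, aeval_X, aeval_C]
    exact sub_self _
  let E : IntermediateField F ℝ := IntermediateField.adjoin F (Set.range U)
  have hEfin : FiniteDimensional F E := by
    apply IntermediateField.finiteDimensional_adjoin
    rintro x ⟨i, rfl⟩
    exact hint i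
  let V : ι → E := fun i => ⟨U i, IntermediateField.subset_adjoin F _ ⟨i, rfl⟩⟩
  have hV0 : V i₀ = 1 := by
    apply Subtype.ext
    change u i₀ / u i₀ = 1
    exact div_self (hu i₀).ne'
  have hsum : ∑ i, (⟨c i, hc i⟩ : F) • V i = 0 := by
    apply Subtype.ext
    have h1 : ((∑ i, (⟨c i, hc i⟩ : F) • V i : E) : ℝ) = ∑ i, c i * U i := by
      rw [AddSubmonoidClass.coe_finsetSum]
      rfl
    rw [h1]
    have h2 : ∑ i, c i * U i = (∑ i, c i * u i) / u i₀ := by
      rw [Finset.sum_div]
      refine Finset.sum_congr rfl fun i _ => ?_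
      rw [hU]
      ring
    rw [h2, h, zero_div]
    rfl
  have htr := congrArg (Algebra.trace F E) hsum
  rw [map_sum, map_zero, Finset.sum_eq_single i₀] at htr
  · rw [map_smul, hV0, ← map_one (algebraMap F E), Algebra.trace_algebraMap, smul_eq_mul,
      nsmul_eq_mul, mul_one] at htr
    rcases mul_eq_zero.1 htr with h1 | h1
    · exact hi₀ (congrArg Subtype.val h1)
    · have h2 : (Module.finrank F E : F) ≠ 0 := by
        exact_mod_cast (Module.finrank_pos (R := F) (M := E)).ne'
      exact h2 h1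
  · intro j _ hj
    rw [map_smul]
    have h1 : Algebra.trace F E (V j) = 0 := by
      rw [trace_eq_finrank_mul_minpoly_nextCoeff]
      have h2 : minpoly F (V j) = minpoly F (U j) := by
        have := minpoly.algebraMap_eq (A := F) (algebraMap E ℝ).injective (V j)
        exact this.symm
      rw [h2]
      obtain ⟨N, hN, h3⟩ := hUF j
      rw [minpoly_radical F (hUpos j) hN h3 (hcon j hj), neg_zero, mul_zero]
    rw [h1, smul_zero]
  · intro h1
    exact absurd (Finset.mem_univ _) h1

end Pool.Agent.Run7.h659.UL
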