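import Pool.Agent.Run7.h659.CC9

/-!
# Relations on arbitrary sets of points and matrices
-/

set_option autoImplicit false
set_option linter.unusedSectionVars false

open Complex

namespace Pool.Agent.Run7.h659.VA

open Pool.Agent.Run7.h659.SE Pool.Agent.Run7.h659.CC

variable {n : ℕ} {ι : Type}

/-- sets of points and families of matrices -/
abbrev DS (ι : Type) (n : ℕ) := Set ((Fin (n + 1) → ℂ) × (ι → Matrix (Fin n) (Fin n) ℂ))

/-- the relations -/
def Rel (S : DS ι n) : Set (MvPolynomial (Sg ι n) ℂ) := {P | ∀ p ∈ S, ev P p.1 p.2 = 0}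

/-- the matrices which map the relations on one set to relations on another one -/
def Tra (S S' : DS ι n) : Set (ι → Matrix (Fin n) (Fin n) ℂ) := {g | ∀ P ∈ Rel S, sb g P ∈ Rel S'}

theorem Tra.mul {S S' S'' : DS ι n} {g h : ι → Matrix (Fin n) (Fin n) ℂ} (hg : g ∈ Tra S S') (hh : h ∈ Tra S' S'') :
    g * h ∈ Tra S S'' := by
  intro P hP p hp
  have h1 := hh _ (hg P hP) p hp
  rw [ev_sb, ev_sb] at h1
  rw [ev_sb, mul_assoc]
  exact h1

/-- the matrices which preserve the relations -/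
def Mon (S : DS ι n) : Submonoid (ι → Matrix (Fin n) (Fin n) ℂ) where
  carrier := {g | ∀ P ∈ Rel S, ∀ p ∈ S, ev P p.1 (g * p.2) = 0}
  one_mem' := by
    intro P hP p hp
    rw [one_mul]
    exact hP p hp
  mul_mem' := by
    intro g h hg hh P hP p hp
    have h1 : sb g P ∈ Rel S := by
      intro p' hp'
      rw [ev_sb]
      exact hg P hP p' hp'
    have h2 := hh (sb g P) h1 p hp
    rwa [ev_sb, ← mul_assoc] at h2

theorem mem_Mon_of_Tra {S : DS ι n} {g : ι → Matrix (Fin n) (Fin n) ℂ} (h : g ∈ Tra S S) : g ∈ Mon S := by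
  intro P hP p hp
  rw [← ev_sb]
  exact h P hP p hp

theorem Rel_add {S : DS ι n} {P Q : MvPolynomial (Sg ι n) ℂ} (hP : P ∈ Rel S) (hQ : Q ∈ Rel S) :
    P + Q ∈ Rel S := by
  intro pt hpt
  have h1 := hP pt hpt
  have h2 := hQ pt hpt
  rw [← eva_apply] at h1 h2 ⊢
  rw [map_add, h1, h2, add_zero]

theorem Rel_smul {S : DS ι n} {P : MvPolynomial (Sg ι n) ℂ} (hP : P ∈ Rel S) (c : ℂ) :
    c • P ∈ Rel S := by
  intro pt hpt
  have h1 := hP pt hpt
  rw [← eva_apply] at h1 ⊢
  rw [map_smul, h1, smul_zero]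

/-- the Lie algebra -/
def LieS (S : DS ι n) : Submodule ℂ (ι → Matrix (Fin n) (Fin n) ℂ) where
  carrier := {X | ∀ P ∈ Rel S, DX X P ∈ Rel S}
  zero_mem' := by
    intro P _ pt _
    have h1 : DX (0 : ι → Matrix (Fin n) (Fin n) ℂ) = 0 := by
      have := DX_smul 0 (0 : ι → Matrix (Fin n) (Fin n) ℂ)
      rwa [zero_smul, zero_smul] at this
    rw [h1, ← eva_apply]
    simp
  add_mem' := by
    intro X Y hX hY P hP
    rw [DX_add]
    exact Rel_add (hX P hP) (hY P hP)
  smul_mem' := by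
    intro c X hX P hP
    rw [DX_smul]
    exact Rel_smul (hX P hP) c

theorem mem_LieS {S : DS ι n} {X : ι → Matrix (Fin n) (Fin n) ℂ} :
    X ∈ LieS S ↔ ∀ P ∈ Rel S, DX X P ∈ Rel S := Iff.rfl

theorem LieS_bracket {S : DS ι n} {X Y : ι → Matrix (Fin n) (Fin n) ℂ} (hX : X ∈ LieS S)
    (hY : Y ∈ LieS S) : X * Y - Y * X ∈ LieS S := by
  intro P hP
  rw [DX_bracket, Derivation.commutator_apply, sub_eq_add_neg, ← neg_one_smul ℂ (DX X ((DX Y) P))]
  exact Rel_add (hY _ (hX P hP)) (Rel_smul (hX _ (hY P hP)) _)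

theorem sb_mem {S : DS ι n} {g : ι → Matrix (Fin n) (Fin n) ℂ} (hg : g ∈ Mon S)
    {P : MvPolynomial (Sg ι n) ℂ} (hP : P ∈ Rel S) : sb g P ∈ Rel S := by
  intro pt hpt
  rw [ev_sb]
  exact hg P hP pt hpt

/-- conjugation by elements of the monoid -/
theorem LieS_tr {S S' : DS ι n} {g g' X : ι → Matrix (Fin n) (Fin n) ℂ} (hg : g ∈ Tra S S')
    (hg' : g' ∈ Tra S' S) (h : g * g' = 1) (h' : g' * g = 1) (hX : X ∈ LieS S) : g' * X * g ∈ LieS S' := by
  intro P hP
  have h1 := hg _ (hX _ (hg' P hP))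
  have h2 : ∀ Q : MvPolynomial (Sg ι n) ℂ, DX (g' * X * g) (sba g Q) = sba g (DX X Q) := by
    intro Q
    refine der_uniq (sba g) (((DX (g' * X * g)).toLinearMap).comp (sba g).toLinearMap)
      ((sba g).toLinearMap.comp (DX X).toLinearMap) ?_ ?_ ?_ Q
    · intro p q
      change DX (g' * X * g) (sba g (p * q)) =
        DX (g' * X * g) (sba g p) * sba g q + sba g p * DX (g' * X * g) (sba g q)
      rw [map_mul, Derivation.leibniz, smul_eq_mul, smul_eq_mul]
      ring
    · intro p q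
      change sba g (DX X (p * q)) = sba g (DX X p) * sba g q + sba g p * sba g (DX X q)
      rw [Derivation.leibniz, smul_eq_mul, smul_eq_mul, map_add, map_mul, map_mul]
      ring
    · rintro (k | x)
      · change DX (g' * X * g) (sba g (MvPolynomial.X (Sum.inl k))) = sba g (DX X (MvPolynomial.X (Sum.inl k)))
        rw [sba_inl, DX_inl, DX_inl, map_zero]
      · change DX (g' * X * g) (sba g (MvPolynomial.X (Sum.inr x))) = sba g (DX X (MvPolynomial.X (Sum.inr x)))
        rw [sba_inr, DX_inr]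
        have e1 := lin_sum (DX (g' * X * g)).toLinearMap g (g' * X * g) (fun x => DX_inr _ x) x
        have e2 := lin_sum (sba g).toLinearMap X g (fun x => sba_inr _ x) x
        rw [show g * (g' * X * g) = X * g by rw [← mul_assoc, ← mul_assoc, h, one_mul]] at e1
        exact e1.trans e2.symm
  have h3 : P = sba g (sb g' P) := by
    have h4 : (sba g).comp (sba g') = AlgHom.id ℂ _ := by
      refine MvPolynomial.algHom_ext fun i => ?_
      rcases i with k | x
      · rw [AlgHom.comp_apply, sba_inl, sba_inl]; rfl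
      · rw [AlgHom.comp_apply, sba_inr]
        have e2 := lin_sum (sba g).toLinearMap g' g (fun x => sba_inr _ x) x
        refine e2.trans ?_
        rw [h', AlgHom.id_apply]
        rw [Finset.sum_eq_single x.2.1]
        · simp
        · intro k _ hk
          rw [Pi.one_apply, Matrix.one_apply_ne (Ne.symm hk)]
          simp
        · intro h; exact absurd (Finset.mem_univ _) h
    have h5 := AlgHom.congr_fun h4 P
    exact h5.symm
  have h4 := h2 (sb g' P)
  rw [← h3] at h4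
  rw [h4]
  exact h1

theorem LieS_Ad {S : DS ι n} {g g' X : ι → Matrix (Fin n) (Fin n) ℂ} (hg : g ∈ Mon S)
    (hg' : g' ∈ Mon S) (h : g * g' = 1) (h' : g' * g = 1) (hX : X ∈ LieS S) : g' * X * g ∈ LieS S :=
  LieS_tr (fun _ hP => sb_mem hg hP) (fun _ hP => sb_mem hg' hP) h h' hX

/-- unipotent one-parameter groups -/
theorem exp_mem {S : DS ι n} {X : ι → Matrix (Fin n) (Fin n) ℂ} (hX : X ∈ LieS S) (hX2 : X * X = 0)
    (s : ℂ) : 1 + s • X ∈ Mon S := by
  intro P hP pt hpt
  set F := pt.2 with hF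
  set Ψ : MvPolynomial (Sg ι n) ℂ →ₐ[ℂ] Polynomial ℂ := MvPolynomial.aeval
    (Sum.elim (fun k => Polynomial.C (pt.1 k)) fun x => Polynomial.C (F x.1 x.2.1 x.2.2) +
      Polynomial.X * Polynomial.C ((X * F) x.1 x.2.1 x.2.2)) with hΨ
  have hev : ∀ (s : ℂ) (P : MvPolynomial (Sg ι n) ℂ), (Ψ P).eval s = ev P pt.1 ((1 + s • X) * F) := by
    intro s P
    have h1 : ((Polynomial.aeval s).comp Ψ : MvPolynomial (Sg ι n) ℂ →ₐ[ℂ] ℂ) =
        eva pt.1 ((1 + s • X) * F) := by
      refine MvPolynomial.algHom_ext fun i => ?_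
      rw [AlgHom.comp_apply, hΨ, MvPolynomial.aeval_X, eva, MvPolynomial.aeval_X]
      rcases i with k | x
      · simp
      · simp only [Sum.elim_inr, map_add, map_mul, Polynomial.aeval_C, Polynomial.aeval_X]
        rw [add_mul, one_mul, smul_mul_assoc, Pi.add_apply, Matrix.add_apply, Pi.smul_apply, Matrix.smul_apply,
          smul_eq_mul]
        rfl
    have h2 := AlgHom.congr_fun h1 P
    rw [eva_apply] at h2
    rw [← h2, AlgHom.comp_apply, Polynomial.coe_aeval_eq_eval]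
  have hder : ∀ P, Polynomial.derivative (Ψ P) = Ψ (DX X P) := by
    intro P
    refine der_uniq Ψ (Polynomial.derivative.comp Ψ.toLinearMap) (Ψ.toLinearMap.comp (DX X).toLinearMap) ?_ ?_ ?_ P
    · intro p q
      simp only [LinearMap.comp_apply, AlgHom.toLinearMap_apply, map_mul, Polynomial.derivative_mul]
    · intro p q
      change Ψ (DX X (p * q)) = Ψ (DX X p) * Ψ q + Ψ p * Ψ (DX X q)
      rw [Derivation.leibniz, smul_eq_mul, smul_eq_mul, map_add, map_mul, map_mul]
      ring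
    · rintro (k | x)
      · change Polynomial.derivative (Ψ (MvPolynomial.X (Sum.inl k))) = Ψ (DX X (MvPolynomial.X (Sum.inl k)))
        rw [DX_inl, map_zero, hΨ, MvPolynomial.aeval_X]
        simp
      · change Polynomial.derivative (Ψ (MvPolynomial.X (Sum.inr x))) = Ψ (DX X (MvPolynomial.X (Sum.inr x)))
        rw [DX_inr, map_sum]
        have h1 : ∀ k, Ψ (MvPolynomial.C (X x.1 x.2.1 k) * MvPolynomial.X (Sum.inr (x.1, k, x.2.2))) =
            Polynomial.C (X x.1 x.2.1 k * F x.1 k x.2.2) +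
              Polynomial.X * Polynomial.C (X x.1 x.2.1 k * (X * F) x.1 k x.2.2) := by
          intro k
          rw [map_mul, hΨ, MvPolynomial.aeval_X, MvPolynomial.aeval_C]
          simp only [Sum.elim_inr, Polynomial.algebraMap_eq, Polynomial.C_mul]
          ring
        simp only [h1]
        rw [Finset.sum_add_distrib, ← Finset.mul_sum, ← map_sum, ← map_sum, hΨ, MvPolynomial.aeval_X]
        have h2 : ∑ k, X x.1 x.2.1 k * (X * F) x.1 k x.2.2 = (X * X * F) x.1 x.2.1 x.2.2 := by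
          rw [mul_assoc]
          exact (Matrix.mul_apply).symm
        have h3 : ∑ k, X x.1 x.2.1 k * F x.1 k x.2.2 = (X * F) x.1 x.2.1 x.2.2 := (Matrix.mul_apply).symm
        rw [h2, h3, hX2, zero_mul]
        simp
  have hall : ∀ (k : ℕ) (P : MvPolynomial (Sg ι n) ℂ), P ∈ Rel S → (Polynomial.derivative^[k] (Ψ P)).eval 0 = 0 := by
    intro k
    induction k with
    | zero =>
      intro P hP
      rw [Function.iterate_zero, id_eq, hev, zero_smul, add_zero, one_mul]
      exact hP pt hpt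
    | succ k ih =>
      intro P hP
      rw [Function.iterate_succ_apply, hder]
      exact ih _ (hX P hP)
  have h0 : Ψ P = 0 := by
    ext k
    have h1 := hall k P hP
    rw [← Polynomial.coeff_zero_eq_eval_zero, Polynomial.coeff_iterate_derivative, zero_add,
      Nat.descFactorial_self, nsmul_eq_mul] at h1
    rw [Polynomial.coeff_zero]
    exact (mul_eq_zero.1 h1).resolve_left (by exact_mod_cast Nat.factorial_ne_zero k)
  rw [← hev, h0, Polynomial.eval_zero]

/-- logarithms of semisimple elements -/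
theorem torus_mem [Fintype ι] [DecidableEq ι] {S : DS ι n} {A : Type} [Field A] (j : A →+* ℂ)
    (c : ι → A) (hc : ∀ i, c i ≠ 0) (α : A → ℂ) (hα : ∀ x y, x ≠ 0 → y ≠ 0 → α (x * y) = α x + α y)
    (Ap Am A0 : ι → Matrix (Fin n) (Fin n) ℂ) (h1 : ∀ i, Ap i + Am i + A0 i = 1)
    (h : ∀ m : ℕ, (fun i => j (c i) ^ m • Ap i + (j (c i))⁻¹ ^ m • Am i + A0 i) ∈ Mon S) :
    (fun i => α (c i) • (Ap i - Am i)) ∈ LieS S := by
  intro P hP pt hpt
  set F := pt.2 with hF
  set X : ι → Matrix (Fin n) (Fin n) ℂ := fun i => α (c i) • (Ap i - Am i) with hX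
  set c' : ι × Bool → A := fun s => if s.2 then c s.1 else (c s.1)⁻¹ with hc'
  have hc'0 : ∀ s, c' s ≠ 0 := by
    intro s
    simp only [hc']
    split_ifs
    · exact hc _
    · exact inv_ne_zero (hc _)
  have hα1 : α 1 = 0 := by
    have := hα 1 1 one_ne_zero one_ne_zero
    rw [mul_one] at this
    exact add_eq_left.1 this.symm
  have hαinv : ∀ i, α (c i)⁻¹ = -α (c i) := by
    intro i
    have h2 := hα (c i) (c i)⁻¹ (hc i) (inv_ne_zero (hc i))
    rw [mul_inv_cancel₀ (hc i), hα1] at h2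
    linear_combination -h2
  set Ψ : MvPolynomial (Sg ι n) ℂ →ₐ[ℂ] MvPolynomial (ι × Bool) ℂ := MvPolynomial.aeval
    (Sum.elim (fun k => MvPolynomial.C (pt.1 k)) fun x =>
      MvPolynomial.C ((Ap x.1 * F x.1) x.2.1 x.2.2) * MvPolynomial.X (x.1, true) +
      MvPolynomial.C ((Am x.1 * F x.1) x.2.1 x.2.2) * MvPolynomial.X (x.1, false) +
      MvPolynomial.C ((A0 x.1 * F x.1) x.2.1 x.2.2)) with hΨ
  have hev : ∀ (m : ℕ) (P : MvPolynomial (Sg ι n) ℂ), MvPolynomial.eval (fun s => j (c' s) ^ m) (Ψ P) =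
      ev P pt.1 ((fun i => j (c i) ^ m • Ap i + (j (c i))⁻¹ ^ m • Am i + A0 i) * F) := by
    intro m P
    have h2 : ((MvPolynomial.aeval (fun s => j (c' s) ^ m)).comp Ψ : MvPolynomial (Sg ι n) ℂ →ₐ[ℂ] ℂ) =
        eva pt.1 ((fun i => j (c i) ^ m • Ap i + (j (c i))⁻¹ ^ m • Am i + A0 i) * F) := by
      refine MvPolynomial.algHom_ext fun i => ?_
      rw [AlgHom.comp_apply, hΨ, MvPolynomial.aeval_X, eva, MvPolynomial.aeval_X]
      rcases i with k | x
      · simp
      · simp only [Sum.elim_inr, map_add, map_mul, MvPolynomial.aeval_C, MvPolynomial.aeval_X]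
        rw [Pi.mul_apply, add_mul, add_mul, smul_mul_assoc, smul_mul_assoc]
        simp only [Matrix.add_apply, Matrix.smul_apply, smul_eq_mul, hc', if_true, Bool.false_eq_true,
          if_false, map_inv₀]
        simp only [Algebra.algebraMap_self, RingHom.id_apply]
        ring
    have h3 := AlgHom.congr_fun h2 P
    rw [eva_apply] at h3
    rw [← h3, AlgHom.comp_apply, ← MvPolynomial.coe_aeval_eq_eval]
    rfl
  have hQ := exp_der j c' hc'0 α hα (Ψ P) fun m => by
    rw [hev]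
    exact h m P hP pt hpt
  set L : MvPolynomial (Sg ι n) ℂ →ₗ[ℂ] ℂ := ∑ s, α (c' s) •
    ((MvPolynomial.aeval (fun _ => (1 : ℂ))).toLinearMap.comp
      ((MvPolynomial.pderiv s).toLinearMap.comp Ψ.toLinearMap)) with hL
  have hLa : ∀ P, L P = ∑ s, α (c' s) * MvPolynomial.eval (fun _ => 1) (MvPolynomial.pderiv s (Ψ P)) := by
    intro P
    rw [hL, LinearMap.sum_apply]
    rfl
  have h1F : ((1 : ι → Matrix (Fin n) (Fin n) ℂ)) * F = F := one_mul F
  have hev1 : ∀ P, MvPolynomial.eval (fun _ => (1 : ℂ)) (Ψ P) = eva pt.1 F P := by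
    intro P
    have h2 := hev 0 P
    simp only [pow_zero, one_smul] at h2
    rw [h2, eva_apply]
    congr 1
    funext i
    rw [Pi.mul_apply, h1, one_mul]
  have key := der_uniq (eva pt.1 F) L
    ((eva pt.1 F).toLinearMap.comp (DX X).toLinearMap) (by
      intro p q
      rw [hLa, hLa, hLa, ← hev1, ← hev1, Finset.sum_mul, Finset.mul_sum, ← Finset.sum_add_distrib]
      refine Finset.sum_congr rfl fun s _ => ?_
      rw [map_mul, Derivation.leibniz, smul_eq_mul, smul_eq_mul, map_add, map_mul, map_mul]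
      ring) (by
      intro p q
      change eva _ F (DX X (p * q)) = eva _ F (DX X p) * eva _ F q + eva _ F p * eva _ F (DX X q)
      rw [Derivation.leibniz, smul_eq_mul, smul_eq_mul, map_add, map_mul, map_mul]
      ring) (by
      rintro (k | x)
      · change L _ = eva _ F (DX X (MvPolynomial.X (Sum.inl k)))
        rw [hLa, DX_inl, map_zero]
        refine Finset.sum_eq_zero fun s _ => ?_
        rw [hΨ, MvPolynomial.aeval_X]
        simp
      · change L _ = eva _ F (DX X (MvPolynomial.X (Sum.inr x)))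
        rw [hLa, DX_inr, map_sum]
        have e1 : ∀ s : ι × Bool, MvPolynomial.eval (fun _ => (1 : ℂ)) (MvPolynomial.pderiv s
            (Ψ (MvPolynomial.X (Sum.inr x)))) =
            (if (x.1, true) = s then (Ap x.1 * F x.1) x.2.1 x.2.2 else 0) +
            (if (x.1, false) = s then (Am x.1 * F x.1) x.2.1 x.2.2 else 0) := by
          intro s
          rw [hΨ, MvPolynomial.aeval_X]
          simp only [Sum.elim_inr, map_add, MvPolynomial.pderiv_C, MvPolynomial.pderiv_C_mul,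
            MvPolynomial.pderiv_X, add_zero]
          congr 1
          · by_cases h2 : (x.1, true) = s
            · rw [if_pos h2, h2]
              simp
            · rw [if_neg h2, Pi.single_eq_of_ne h2]
              simp
          · by_cases h2 : (x.1, false) = s
            · rw [if_pos h2, h2]
              simp
            · rw [if_neg h2, Pi.single_eq_of_ne h2]
              simp
        simp only [e1, mul_add, mul_ite, mul_zero, Finset.sum_add_distrib, Finset.sum_ite_eq, Finset.mem_univ,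
          if_true]
        simp only [hc', if_true, Bool.false_eq_true, if_false]
        rw [hαinv]
        have e2 : ∀ k, eva pt.1 F (MvPolynomial.C (X x.1 x.2.1 k) *
            MvPolynomial.X (Sum.inr (x.1, k, x.2.2))) = X x.1 x.2.1 k * F x.1 k x.2.2 := by
          intro k
          rw [map_mul, eva, MvPolynomial.aeval_X, MvPolynomial.aeval_C]
          rfl
        simp only [e2]
        rw [← Matrix.mul_apply, hX]
        simp only []
        rw [smul_mul_assoc, sub_mul, Matrix.smul_apply, Matrix.sub_apply, smul_eq_mul]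
        ring) P
  rw [hLa, hQ] at key
  have h5 : eva pt.1 F (DX X P) = 0 := key.symm
  rwa [eva_apply] at h5

section

variable [Fintype ι] [DecidableEq ι]

theorem avg_mem {S : DS ι n} {P : ι → Matrix (Fin n) (Fin n) ℂ} (hP : ∀ i, P i * P i = P i)
    {q : ι → ℂ} {L : ℕ} (hL : 0 < L) (hq : ∀ i, q i ^ L = 1)
    (hM : (fun i => 1 + (q i - 1) • P i) ∈ Mon S) {X : ι → Matrix (Fin n) (Fin n) ℂ} (hX : X ∈ LieS S) (ω : ℂ) :
    (fun i => (∑ m ∈ Finset.range L, ω ^ m) • (X i - P i * X i - X i * P i + (2 : ℂ) • (P i * X i * P i)) +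
      (∑ m ∈ Finset.range L, (ω * q i ^ (L - 1)) ^ m) • (P i * X i - P i * X i * P i) +
      (∑ m ∈ Finset.range L, (ω * q i) ^ m) • (X i * P i - P i * X i * P i)) ∈ LieS S := by
  have hpow : ∀ m : ℕ, (fun i => 1 + (q i ^ m - 1) • P i) ∈ Mon S := by
    intro m
    have h1 := (Mon S).pow_mem hM m
    have h2 : (fun i => 1 + (q i - 1) • P i) ^ m = fun i => 1 + (q i ^ m - 1) • P i := by
      funext i
      rw [Pi.pow_apply]
      exact idem_pow (hP i) (q i) m
    rwa [h2] at h1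
  have hinv : ∀ i m, (q i ^ (L - 1)) ^ m * q i ^ m = 1 := by
    intro i m
    rw [← mul_pow, ← pow_succ, Nat.sub_add_cancel hL, hq, one_pow]
  have hmul : ∀ (p p' : ι → ℂ), (∀ i, p' i * p i = 1) →
      (fun i => 1 + (p i - 1) • P i) * (fun i => 1 + (p' i - 1) • P i) = 1 := by
    intro p p' hp
    funext i
    rw [Pi.mul_apply, mul_add, mul_one, add_mul, one_mul, smul_mul_smul_comm, hP, Pi.one_apply]
    have h3 : (p i - 1) * (p' i - 1) = 2 - p i - p' i := by linear_combination hp i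
    rw [h3]
    module
  have h1 : ∀ m : ℕ, (fun i => (X i - P i * X i - X i * P i + (2 : ℂ) • (P i * X i * P i)) +
      (q i ^ (L - 1)) ^ m • (P i * X i - P i * X i * P i) + q i ^ m • (X i * P i - P i * X i * P i)) ∈ LieS S := by
    intro m
    have h2 : (fun i => 1 + ((q i ^ (L - 1)) ^ m - 1) • P i) ∈ Mon S := by
      have h3 := hpow ((L - 1) * m)
      simpa only [pow_mul] using h3
    have h3 := LieS_Ad (hpow m) h2 (hmul _ _ fun i => hinv i m) (hmul _ _ fun i => by
      rw [mul_comm]; exact hinv i m) hX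
    convert h3 using 1
    funext i
    rw [Pi.mul_apply, Pi.mul_apply]
    exact (conj_expand (X i) (hinv i m)).symm
  have h2 := Submodule.sum_mem (LieS S) (fun m (_ : m ∈ Finset.range L) => (LieS S).smul_mem (ω ^ m) (h1 m))
  convert h2 using 1
  funext i
  rw [Finset.sum_apply]
  simp only [Pi.smul_apply, smul_add, smul_smul, Finset.sum_add_distrib, ← Finset.sum_smul, mul_pow, Finset.sum_mul]

/-- the elements with one component -/
theorem ext_PQ {S : DS ι n} {P : ι → Matrix (Fin n) (Fin n) ℂ} (hP : ∀ i, P i * P i = P i)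
    {q : ι → ℂ} {L : ℕ} (hL : 0 < L) (hq : ∀ i, q i ^ L = 1) (hq1 : ∀ i, q i ≠ 1)
    (hq3 : ∀ i j, i ≠ j → q i ≠ q j)
    (hM : (fun i => 1 + (q i - 1) • P i) ∈ Mon S) {X : ι → Matrix (Fin n) (Fin n) ℂ} (hX : X ∈ LieS S) (s : ι)
    (h0 : ∀ i, q s * q i = 1 → X i = 0) :
    (Pi.single s (P s * X s - P s * X s * P s) : ι → Matrix (Fin n) (Fin n) ℂ) ∈ LieS S := by
  have h1 := avg_mem hP hL hq hM hX (q s)
  have h2 := (LieS S).smul_mem ((L : ℂ)⁻¹) h1
  have hL0 : (L : ℂ) ≠ 0 := by exact_mod_cast hL.ne'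
  convert h2 using 1
  funext i
  have h5 : (∑ m ∈ Finset.range L, (q s * q i) ^ m) • (X i * P i - P i * X i * P i) = 0 := by
    by_cases h6 : q s * q i = 1
    · rw [h0 i h6]
      simp
    · rw [geom_zero (by rw [mul_pow, hq, hq, one_mul]) h6, zero_smul]
  rw [Pi.smul_apply, geom_zero (hq s) (hq1 s), h5]
  by_cases h : i = s
  · subst h
    rw [Pi.single_eq_same, ← pow_succ', Nat.sub_add_cancel hL, hq]
    simp only [one_pow, Finset.sum_const, Finset.card_range, nsmul_eq_mul, mul_one, zero_smul, zero_add, add_zero,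
      smul_smul]
    rw [inv_mul_cancel₀ hL0, one_smul]
  · rw [Pi.single_eq_of_ne h, geom_zero (z := q s * q i ^ (L - 1)), zero_smul, zero_smul]
    · simp
    · rw [mul_pow, hq, one_mul, ← pow_mul, mul_comm, pow_mul, hq, one_pow]
    · intro h3
      apply hq3 i s h
      have h4 : q i ^ (L - 1) * q i = 1 := by rw [← pow_succ, Nat.sub_add_cancel hL, hq]
      calc q i = (q s * q i ^ (L - 1)) * q i := by rw [h3, one_mul]
        _ = q s := by rw [mul_assoc, h4, mul_one]

theorem ext_QP {S : DS ι n} {P : ι → Matrix (Fin n) (Fin n) ℂ} (hP : ∀ i, P i * P i = P i)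
    {q : ι → ℂ} {L : ℕ} (hL : 0 < L) (hq : ∀ i, q i ^ L = 1) (hq1 : ∀ i, q i ≠ 1)
    (hq3 : ∀ i j, i ≠ j → q i ≠ q j)
    (hM : (fun i => 1 + (q i - 1) • P i) ∈ Mon S) {X : ι → Matrix (Fin n) (Fin n) ℂ} (hX : X ∈ LieS S) (s : ι)
    (h0 : ∀ i, q s * q i = 1 → X i = 0) :
    (Pi.single s (X s * P s - P s * X s * P s) : ι → Matrix (Fin n) (Fin n) ℂ) ∈ LieS S := by
  have hinv : ∀ i, q i ^ (L - 1) * q i = 1 := fun i => by rw [← pow_succ, Nat.sub_add_cancel hL, hq]
  have hqL : ∀ i, (q i ^ (L - 1)) ^ L = 1 := fun i => by rw [← pow_mul, mul_comm, pow_mul, hq, one_pow]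
  have h1 := avg_mem hP hL hq hM hX (q s ^ (L - 1))
  have h2 := (LieS S).smul_mem ((L : ℂ)⁻¹) h1
  have hL0 : (L : ℂ) ≠ 0 := by exact_mod_cast hL.ne'
  convert h2 using 1
  funext i
  have h5 : (∑ m ∈ Finset.range L, (q s ^ (L - 1) * q i ^ (L - 1)) ^ m) • (P i * X i - P i * X i * P i) = 0 := by
    by_cases h6 : q s * q i = 1
    · rw [h0 i h6]
      simp
    · rw [geom_zero (by rw [mul_pow, hqL, hqL, one_mul]) (by
        intro h3
        apply h6
        have h4 := hinv s
        have h5 := hinv i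
        calc q s * q i = (q s ^ (L - 1) * q i ^ (L - 1)) * (q s * q i) := by rw [h3, one_mul]
          _ = (q s ^ (L - 1) * q s) * (q i ^ (L - 1) * q i) := by ring
          _ = 1 := by rw [h4, h5, one_mul]), zero_smul]
  rw [Pi.smul_apply, geom_zero (hqL s) (by
      intro h3
      have h4 := hinv s
      rw [h3, one_mul] at h4
      exact hq1 s h4), h5]
  by_cases h : i = s
  · subst h
    rw [Pi.single_eq_same, hinv]
    simp only [one_pow, Finset.sum_const, Finset.card_range, nsmul_eq_mul, mul_one, zero_smul, zero_add, add_zero,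
      smul_smul]
    rw [inv_mul_cancel₀ hL0, one_smul]
  · rw [Pi.single_eq_of_ne h, geom_zero (z := q s ^ (L - 1) * q i), zero_smul, zero_smul]
    · simp
    · rw [mul_pow, hq, mul_one, hqL]
    · intro h3
      apply hq3 i s h
      have h4 := hinv s
      calc q i = (q s ^ (L - 1) * q s) * q i := by rw [h4, one_mul]
        _ = (q s ^ (L - 1) * q i) * q s := by ring
        _ = q s := by rw [h3, one_mul]

/-- the component of the Lie algebra -/
def Gs (S : DS ι n) (s : ι) : Submodule ℂ (Matrix (Fin n) (Fin n) ℂ) where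
  carrier := {Y | (Pi.single s Y : ι → Matrix (Fin n) (Fin n) ℂ) ∈ LieS S}
  zero_mem' := by
    show (Pi.single s 0 : ι → Matrix (Fin n) (Fin n) ℂ) ∈ LieS S
    rw [Pi.single_zero]
    exact (LieS S).zero_mem
  add_mem' := by
    intro X Y hX hY
    show (Pi.single s (X + Y) : ι → Matrix (Fin n) (Fin n) ℂ) ∈ LieS S
    rw [Pi.single_add]
    exact (LieS S).add_mem hX hY
  smul_mem' := by
    intro c X hX
    show (Pi.single s (c • X) : ι → Matrix (Fin n) (Fin n) ℂ) ∈ LieS S
    rw [Pi.single_smul]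
    exact (LieS S).smul_mem c hX

theorem mem_Gs {S : DS ι n} {s : ι} {Y : Matrix (Fin n) (Fin n) ℂ} :
    Y ∈ Gs S s ↔ (Pi.single s Y : ι → Matrix (Fin n) (Fin n) ℂ) ∈ LieS S := Iff.rfl

theorem Gs_bracket {S : DS ι n} {s : ι} {X Y : Matrix (Fin n) (Fin n) ℂ} (hX : X ∈ Gs S s)
    (hY : Y ∈ Gs S s) : X * Y - Y * X ∈ Gs S s := by
  rw [mem_Gs] at *
  have h1 := LieS_bracket hX hY
  convert h1 using 1
  funext i
  by_cases h : i = s
  · subst h
    simp
  · simp [Pi.single_eq_of_ne h]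

end

/-- tangent vectors of polynomial families -/
theorem unip_mem {S : DS ι n} (B C : ι → Matrix (Fin n) (Fin n) ℂ)
    (h : ∀ m : ℕ, (fun i => 1 + (m : ℂ) • B i + (m : ℂ) ^ 2 • C i) ∈ Mon S) : B ∈ LieS S := by
  intro P hP pt hpt
  set F := pt.2 with hF
  set Ψ : MvPolynomial (Sg ι n) ℂ →ₐ[ℂ] Polynomial ℂ := MvPolynomial.aeval
    (Sum.elim (fun k => Polynomial.C (pt.1 k)) fun x => Polynomial.C (F x.1 x.2.1 x.2.2) +
      Polynomial.X * Polynomial.C ((B * F) x.1 x.2.1 x.2.2) +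
      Polynomial.X ^ 2 * Polynomial.C ((C * F) x.1 x.2.1 x.2.2)) with hΨ
  have hev : ∀ (s : ℂ) (P : MvPolynomial (Sg ι n) ℂ), (Ψ P).eval s =
      eva pt.1 ((fun i => 1 + s • B i + s ^ 2 • C i) * F) P := by
    intro s P
    have h1 : ((Polynomial.aeval s).comp Ψ : MvPolynomial (Sg ι n) ℂ →ₐ[ℂ] ℂ) =
        eva pt.1 ((fun i => 1 + s • B i + s ^ 2 • C i) * F) := by
      refine MvPolynomial.algHom_ext fun i => ?_
      rw [AlgHom.comp_apply, hΨ, MvPolynomial.aeval_X, eva, MvPolynomial.aeval_X]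
      rcases i with k | x
      · simp
      · simp only [Sum.elim_inr, map_add, map_mul, map_pow, Polynomial.aeval_C, Polynomial.aeval_X]
        change _ = ((1 + s • B x.1 + s ^ 2 • C x.1) * F x.1) x.2.1 x.2.2
        rw [add_mul, add_mul, one_mul, smul_mul_assoc, smul_mul_assoc, Matrix.add_apply,
          Matrix.add_apply, Matrix.smul_apply, Matrix.smul_apply, smul_eq_mul, smul_eq_mul]
        rfl
    have h2 := AlgHom.congr_fun h1 P
    rw [← h2, AlgHom.comp_apply, Polynomial.coe_aeval_eq_eval]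
  have h0 : Ψ P = 0 := by
    refine Polynomial.eq_zero_of_infinite_isRoot _ (Set.Infinite.mono (s := Set.range fun m : ℕ => (m : ℂ)) ?_
      (Set.infinite_range_of_injective Nat.cast_injective))
    rintro _ ⟨m, rfl⟩
    rw [Set.mem_ofPred_eq, Polynomial.IsRoot.def, hev, eva_apply]
    exact h m P hP pt hpt
  have hev0 : ∀ P, (Ψ P).eval 0 = eva pt.1 F P := by
    intro P
    rw [hev]
    congr 2
    funext i
    rw [Pi.mul_apply]
    simp
  set L : MvPolynomial (Sg ι n) ℂ →ₗ[ℂ] ℂ := (Polynomial.aeval (0 : ℂ)).toLinearMap.comp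
    (Polynomial.derivative.comp Ψ.toLinearMap) with hL
  have hLa : ∀ P, L P = (Polynomial.derivative (Ψ P)).eval 0 := by
    intro P
    rw [hL, ← Polynomial.coe_aeval_eq_eval]
    rfl
  have key := der_uniq (eva pt.1 F) L
    ((eva pt.1 F).toLinearMap.comp (DX B).toLinearMap) (by
      intro p q
      rw [hLa, hLa, hLa, ← hev0, ← hev0, map_mul, Polynomial.derivative_mul, Polynomial.eval_add,
        Polynomial.eval_mul, Polynomial.eval_mul]) (by
      intro p q
      change eva _ F (DX B (p * q)) = eva _ F (DX B p) * eva _ F q + eva _ F p * eva _ F (DX B q)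
      rw [Derivation.leibniz, smul_eq_mul, smul_eq_mul, map_add, map_mul, map_mul]
      ring) (by
      rintro (k | x)
      · change L _ = eva _ F (DX B (MvPolynomial.X (Sum.inl k)))
        rw [hLa, DX_inl, map_zero, hΨ, MvPolynomial.aeval_X]
        simp
      · change L _ = eva _ F (DX B (MvPolynomial.X (Sum.inr x)))
        rw [hLa, DX_inr, map_sum, hΨ, MvPolynomial.aeval_X]
        have e2 : ∀ k, eva pt.1 F (MvPolynomial.C (B x.1 x.2.1 k) *
            MvPolynomial.X (Sum.inr (x.1, k, x.2.2))) = B x.1 x.2.1 k * F x.1 k x.2.2 := by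
          intro k
          rw [map_mul, eva, MvPolynomial.aeval_X, MvPolynomial.aeval_C]
          rfl
        simp only [e2, Sum.elim_inr]
        rw [← Matrix.mul_apply]
        simp) P
  rw [hLa, h0] at key
  have h5 : eva pt.1 F (DX B P) = 0 := by
    rw [Polynomial.derivative_zero, Polynomial.eval_zero] at key
    exact key.symm
  rwa [eva_apply] at h5

section

variable [Fintype ι] [DecidableEq ι]

/-- from one element to the differences of the projections -/
theorem adj_of {S : DS ι n} {τ : ι → ℂ} (hτ : ∀ i, τ i ≠ 0)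
    {q : ι → ℂ} {L : ℕ} (hL : 0 < L) (hq : ∀ i, q i ^ L = 1) (hq1 : ∀ i, q i ≠ 1)
    (hq3 : ∀ i j, i ≠ j → q i ≠ q j)
    {k l : Fin n} (hMk : (fun i => 1 + (q i - 1) • Pk (τ i) k) ∈ Mon S)
    (hMl : (fun i => 1 + (q i - 1) • Pk (τ i) l) ∈ Mon S) {X : ι → Matrix (Fin n) (Fin n) ℂ}
    (hX : X ∈ LieS S) (s : ι) (h0 : ∀ i, q s * q i = 1 → X i = 0) (hkl : (k : ℕ) + 1 = l)
    {a b c : ℂ} (ha : a ≠ 0) (hc : c ≠ 0) (hab : a * b = -(a + b))
    (hXs : X s = c • ((1 + a • Pk (τ s) k) * (1 + b • Pk (τ s) l) - (1 + a • Pk (τ s) l) * (1 + b • Pk (τ s) k))) :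
    Pk (τ s) k - Pk (τ s) l ∈ Gs S s ∧ Pk (τ s) k * Pk (τ s) l - ((τ s)⁻¹) ^ 2 • Pk (τ s) k ∈ Gs S s := by
  have hb : b ≠ 0 := by
    intro hb
    rw [hb] at hab
    apply ha
    linear_combination hab
  have h1 := ext_PQ (P := fun i => Pk (τ i) k) (fun i => Pk_idem (hτ i) k) hL hq hq1 hq3 hMk hX s h0
  have h2 := ext_QP (P := fun i => Pk (τ i) l) (fun i => Pk_idem (hτ i) l) hL hq hq1 hq3 hMl hX s h0
  have hPQP := Pk_mul_mul (τ := τ s) (k := k) (l := l) (Or.inr hkl)
  have hQPQ := Pk_mul_mul (τ := τ s) (k := l) (l := k) (Or.inl hkl)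
  have e1 := two_PQ (Pk_idem (hτ s) k) hPQP hab
  have e2 := two_QP (Pk_idem (hτ s) l) hQPQ hab
  have h3 : Pk (τ s) k * Pk (τ s) l - ((τ s)⁻¹) ^ 2 • Pk (τ s) k ∈ Gs S s := by
    have h4 : Pk (τ s) k * X s - Pk (τ s) k * X s * Pk (τ s) k ∈ Gs S s := h1
    rw [hXs, mul_smul_comm, smul_mul_assoc, ← smul_sub, e1, smul_smul] at h4
    have h5 := (Gs S s).smul_mem (c * -(2 * a))⁻¹ h4
    rwa [smul_smul, inv_mul_cancel₀ (mul_ne_zero hc (neg_ne_zero.2 (mul_ne_zero two_ne_zero ha))), one_smul] at h5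
  have h4 : Pk (τ s) k * Pk (τ s) l - ((τ s)⁻¹) ^ 2 • Pk (τ s) l ∈ Gs S s := by
    have h4 : X s * Pk (τ s) l - Pk (τ s) l * X s * Pk (τ s) l ∈ Gs S s := h2
    rw [hXs, mul_smul_comm, smul_mul_assoc, smul_mul_assoc, ← smul_sub, e2, smul_smul] at h4
    have h5 := (Gs S s).smul_mem (c * -(2 * b))⁻¹ h4
    rwa [smul_smul, inv_mul_cancel₀ (mul_ne_zero hc (neg_ne_zero.2 (mul_ne_zero two_ne_zero hb))), one_smul] at h5
  refine ⟨?_, h3⟩
  have hγ : ((τ s)⁻¹) ^ 2 ≠ 0 := pow_ne_zero _ (inv_ne_zero (hτ s))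
  have h5 := (Gs S s).smul_mem (((τ s)⁻¹) ^ 2)⁻¹ ((Gs S s).sub_mem h4 h3)
  have e3 : Pk (τ s) k * Pk (τ s) l - ((τ s)⁻¹) ^ 2 • Pk (τ s) l -
      (Pk (τ s) k * Pk (τ s) l - ((τ s)⁻¹) ^ 2 • Pk (τ s) k) = ((τ s)⁻¹) ^ 2 • (Pk (τ s) k - Pk (τ s) l) := by
    module
  rwa [e3, smul_smul, inv_mul_cancel₀ hγ, one_smul] at h5

/-- the matrix units off the diagonal -/
theorem single_mem {S : DS ι n} {τ : ι → ℂ} (hτ : ∀ i, τ i ≠ 0)
    {q : ι → ℂ} {L : ℕ} (hL : 0 < L) (hq : ∀ i, q i ^ L = 1) (hq1 : ∀ i, q i ≠ 1)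
    (hq3 : ∀ i j, i ≠ j → q i ≠ q j)
    (hM : ∀ k : Fin n, (k : ℕ) = 0 → (fun i => 1 + (q i - 1) • Pk (τ i) k) ∈ Mon S) (s : ι) (hs : q s * q s ≠ 1)
    (hspan : Submodule.span ℂ (Set.range (aV (n := n) (τ s))) = ⊤)
    (hadj : ∀ k l : Fin n, (k : ℕ) + 1 = l → Pk (τ s) k - Pk (τ s) l ∈ Gs S s ∧
      Pk (τ s) k * Pk (τ s) l - ((τ s)⁻¹) ^ 2 • Pk (τ s) k ∈ Gs S s)
    (i j : Fin n) (hij : i ≠ j) : Matrix.single i j (1 : ℂ) ∈ Gs S s := by
  have hn : 0 < n := lt_of_le_of_lt (Nat.zero_le _) i.2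
  refine all_single (hτ s) hspan (Gs S s) (fun X hX Y hY => Gs_bracket hX hY) ⟨0, hn⟩ rfl ?_ hadj i j hij
  intro X hX
  have h0 : ∀ i, q s * q i = 1 → (Pi.single s X : ι → Matrix (Fin n) (Fin n) ℂ) i = 0 := by
    intro i hi
    by_cases h : i = s
    · subst h
      exact absurd hi hs
    · rw [Pi.single_eq_of_ne h]
  have h1 := ext_PQ (P := fun i => Pk (τ i) ⟨0, hn⟩) (fun i => Pk_idem (hτ i) _) hL hq hq1 hq3 (hM _ rfl)
    (mem_Gs.1 hX) s h0
  have h2 := ext_QP (P := fun i => Pk (τ i) ⟨0, hn⟩) (fun i => Pk_idem (hτ i) _) hL hq hq1 hq3 (hM _ rfl)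
    (mem_Gs.1 hX) s h0
  rw [Pi.single_eq_same] at h1 h2
  have h3 := (Gs S s).sub_mem h1 h2
  rwa [sub_sub_sub_cancel_right] at h3

end

end Pool.Agent.Run7.h659.VA
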