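import Pool.Agent.Run7.h659.VA1

/-!
# Chains of sets of points related by half-twists
-/

set_option autoImplicit false
set_option linter.unusedSectionVars false

open Complex

namespace Pool.Agent.Run7.h659.VA

open Pool.Agent.Run7.h659.SE hiding hh
open Pool.Agent.Run7.h659.CC

variable {n : ℕ} {ι : Type}

section

variable [Fintype ι] [DecidableEq ι]

theorem tr_of_single {S : DS ι n} (s : ι) {i j : Fin n} (hij : i ≠ j)
    (h : Matrix.single i j (1 : ℂ) ∈ Gs S s) (c : ℂ) :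
    (Pi.mulSingle s (1 + c • Matrix.single i j (1 : ℂ)) : ι → Matrix (Fin n) (Fin n) ℂ) ∈ Mon S := by
  have h1 := exp_mem (mem_Gs.1 h) (by
    funext t
    rw [Pi.mul_apply]
    by_cases ht : t = s
    · subst ht
      rw [Pi.single_eq_same, Matrix.single_mul_single_of_ne _ _ _ _ hij.symm]
      rfl
    · rw [Pi.single_eq_of_ne ht, zero_mul]
      rfl) c
  convert h1 using 1
  funext t
  by_cases ht : t = s
  · subst ht
    rw [Pi.mulSingle_eq_same, Pi.add_apply, Pi.one_apply, Pi.smul_apply, Pi.single_eq_same]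
  · rw [Pi.mulSingle_eq_of_ne ht, Pi.add_apply, Pi.one_apply, Pi.smul_apply, Pi.single_eq_of_ne ht, smul_zero,
      add_zero]

theorem hh_mem {S : DS ι n} {ρ : ι → ℚ} (h : Adm n ρ) (e : ℕ) {k l : Fin n}
    (hMk : (fun i => 1 + (qu ρ i - 1) • Pk (tu ρ i) k) ∈ Mon S)
    (hMl : (fun i => 1 + (qu ρ i - 1) • Pk (tu ρ i) l) ∈ Mon S) : hh ρ e k l ∈ Mon S := by
  have h1 := (Mon S).pow_mem hMk e
  have h2 := (Mon S).pow_mem hMl ((LL ρ - 1) * e)
  have h3 := (Mon S).mul_mem h1 h2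
  convert h3 using 1
  funext i
  rw [Pi.mul_apply, Pi.pow_apply, Pi.pow_apply, idem_pow (Pk_idem (tu_ne h i) k), idem_pow (Pk_idem (tu_ne h i) l)]
  unfold hh
  have h4 : qu ρ i ^ (LL ρ - 1) = (qu ρ i)⁻¹ := by
    apply eq_inv_of_mul_eq_one_left
    rw [← pow_succ, Nat.sub_add_cancel (LL_pos ρ), qu_pow]
  rw [pow_mul, h4]

/-- **The elements of the Lie algebra.** -/
theorem hyp_elem {S : DS ι n} {ρ : ι → ℚ} (h : Adm n ρ) (s : ι) (h3 : (ρ s).den ≠ 3) {k l : Fin n}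
    (hkl : (k : ℕ) + 1 = l) (hMk : (fun i => 1 + (qu ρ i - 1) • Pk (tu ρ i) k) ∈ Mon S)
    (hMl : (fun i => 1 + (qu ρ i - 1) • Pk (tu ρ i) l) ∈ Mon S) :
    ∃ X ∈ LieS S, (∀ i, qu ρ s * qu ρ i = 1 → X i = 0) ∧ ∃ c : ℂ, c ≠ 0 ∧
      X s = c • (hh ρ 3 k l s - hh ρ 3 l k s) := by
  -- the conjugate
  have hN5 : 5 ≤ (ρ s).den := by
    have h1 := (ρ s).den_pos
    have h2 := h.den s
    have hne1 : (ρ s).den ≠ 1 := by
      intro h4
      have h5 := Rat.mul_den_eq_num (ρ s)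
      rw [h4] at h5
      have a1 := h.pos s
      have a2 := h.lt s
      have a3 : (0 : ℚ) < (ρ s).num := by rw [← h5]; push_cast; linarith
      have a4 : (((ρ s).num : ℤ) : ℚ) < 1 := by rw [← h5]; push_cast; linarith
      have a5 : 0 < (ρ s).num := by exact_mod_cast a3
      have a6 : (ρ s).num < 1 := by exact_mod_cast a4
      omega
    have hne2 : (ρ s).den ≠ 2 := by
      intro h4
      have h5 := Rat.mul_den_eq_num (ρ s)
      rw [h4] at h5
      have a1 := h.pos s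
      have a2 := h.lt s
      have a3 : (0 : ℚ) < (ρ s).num := by rw [← h5]; push_cast; linarith
      have a4 : (((ρ s).num : ℤ) : ℚ) < 1 := by rw [← h5]; push_cast; linarith
      have a5 : 0 < (ρ s).num := by exact_mod_cast a3
      have a6 : (ρ s).num < 1 := by exact_mod_cast a4
      omega
    omega
  obtain ⟨r, hr, hr1, hr2⟩ := exists_r hN5 (h.den s).2.1 (h.den s).2.2
  obtain ⟨j, j', y, hy, hys⟩ := exists_emb ρ s hr
  have hyx : ∀ i, j (y i) = xx ρ i ^ 2 := by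
    intro i
    rw [hy, xx_sq]
    congr 1
    push_cast; ring
  have hy0 : ∀ i, y i ≠ 0 := by
    intro i h0
    have h1 := hyx i
    rw [h0, map_zero] at h1
    exact pow_ne_zero 2 (xx_ne ρ i) h1.symm
  -- the conjugate trace
  set U : ℝ := 2 * Real.cos (2 * Real.pi * ((r : ℝ) / ((ρ s).den : ℝ))) with hU
  have hUe : j' (y s) + (j' (y s))⁻¹ = ((U : ℝ) : ℂ) := by
    rw [hys, ← exp_neg, hU]
    push_cast
    rw [Complex.cos]
    have e1 : (-(2 * (Real.pi : ℂ) * I * ((r : ℂ) / ((ρ s).den : ℂ)))) =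
      -(2 * Real.pi * ((r : ℂ) / ((ρ s).den : ℂ))) * I := by ring
    have e2 : (2 * (Real.pi : ℂ) * I * ((r : ℂ) / ((ρ s).den : ℂ))) =
      (2 * Real.pi * ((r : ℂ) / ((ρ s).den : ℂ))) * I := by ring
    rw [e1, e2]
    ring
  have hden0 : (0 : ℝ) < (ρ s).den := by exact_mod_cast (ρ s).den_pos
  have hx1 : (1 / 3 : ℝ) < (r : ℝ) / ((ρ s).den : ℝ) := by
    rw [lt_div_iff₀ hden0]
    have : ((ρ s).den : ℝ) < 3 * r := by exact_mod_cast hr1
    linarith
  have hx2 : (r : ℝ) / ((ρ s).den : ℝ) < 1 / 2 := by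
    rw [div_lt_iff₀ hden0]
    have : 2 * (r : ℝ) < (ρ s).den := by exact_mod_cast hr2
    linarith
  have hπ := Real.pi_pos
  have hU1 : -2 < U := by
    have h4 := Real.cos_lt_cos_of_nonneg_of_le_pi (x := 2 * Real.pi * ((r : ℝ) / ((ρ s).den : ℝ))) (y := Real.pi)
      (by positivity) le_rfl (by nlinarith)
    rw [Real.cos_pi] at h4
    rw [hU]; linarith
  have hU2 : U < -1 := by
    have h4 := Real.cos_lt_cos_of_nonneg_of_le_pi (x := Real.pi - Real.pi / 3)
      (y := 2 * Real.pi * ((r : ℝ) / ((ρ s).den : ℝ)))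
      (by linarith) (by nlinarith) (by nlinarith)
    rw [Real.cos_pi_sub, Real.cos_pi_div_three] at h4
    rw [hU]; linarith
  -- the eigenvalues
  have hc : ∀ i, ∃ c : QA, c ≠ 0 ∧ c + c⁻¹ = tt (y i + (y i)⁻¹) := by
    intro i
    have hdeg : (Polynomial.X ^ 2 - Polynomial.C (tt (y i + (y i)⁻¹)) * Polynomial.X + 1 : Polynomial QA).degree ≠ 0 := by
      have : (Polynomial.X ^ 2 - Polynomial.C (tt (y i + (y i)⁻¹)) * Polynomial.X + 1 : Polynomial QA).degree = 2 := by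
        compute_degree!
      rw [this]; norm_num
    obtain ⟨c, hc⟩ := IsAlgClosed.exists_root _ hdeg
    rw [Polynomial.IsRoot.def] at hc
    simp only [Polynomial.eval_add, Polynomial.eval_sub, Polynomial.eval_pow, Polynomial.eval_X, Polynomial.eval_mul,
      Polynomial.eval_C, Polynomial.eval_one] at hc
    have hc0 : c ≠ 0 := by
      intro h0
      rw [h0] at hc
      norm_num at hc
    refine ⟨c, hc0, ?_⟩
    have h4 : c * (c + c⁻¹) = c * tt (y i + (y i)⁻¹) := by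
      rw [mul_add, mul_inv_cancel₀ hc0]
      linear_combination hc
    exact mul_left_cancel₀ hc0 h4
  choose c hc0 hc using hc
  have hjc : ∀ i, j (c i) + (j (c i))⁻¹ = tt (xx ρ i ^ 2 + (xx ρ i ^ 2)⁻¹) := by
    intro i
    rw [← map_inv₀, ← map_add, hc, tt_map, map_add, map_inv₀, hyx]
  -- the decompositions
  have hdec : ∀ i, ∃ Ap Am A0 : Matrix (Fin n) (Fin n) ℂ, Ap + Am + A0 = 1 ∧
      (∀ m : ℕ, hh ρ 3 k l i ^ m = j (c i) ^ m • Ap + (j (c i))⁻¹ ^ m • Am + A0) ∧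
      ∃ d : ℂ, d ≠ 0 ∧ Ap - Am = d • (hh ρ 3 k l i - hh ρ 3 l k i) := by
    intro i
    by_cases hi : (ρ i).den = 3
    · have hq3 : qu ρ i ^ 3 = 1 := by
        unfold qu
        rw [← pow_mul, show 4 * 3 = 2 * 6 by norm_num, xx_pow, exp_eq_one_iff]
        refine ⟨2 * (ρ i).num, ?_⟩
        have h4 := Rat.mul_den_eq_num (ρ i)
        rw [hi] at h4
        have h5 : ((ρ i : ℝ)) * 3 = ((ρ i).num : ℝ) := by exact_mod_cast h4
        have h6 : (((6 : ℕ) : ℝ) * (ρ i : ℝ) : ℝ) = 2 * ((ρ i).num : ℝ) := by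
          rw [← h5]; push_cast; ring
        rw [h6]
        push_cast
        ring
      have h1 : ∀ k l : Fin n, hh ρ 3 k l i = 1 := by
        intro k l
        unfold hh
        rw [inv_pow, hq3]
        simp
      refine ⟨0, 0, 1, by simp, fun m => by rw [h1]; simp, 1, one_ne_zero, by rw [h1, h1]; simp⟩
    · have h4 : j (c i) ≠ 0 := (map_ne_zero j).2 (hc0 i)
      have h5 := tt_ne h i hi h4 (hjc i)
      obtain ⟨Ap, Am, A0, e1, e2, e3⟩ := spec (hh_inv h 3 i) h4 h5 (by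
        have h6 := hh_cub h 3 hkl i
        rw [tr_eq h, ← hjc] at h6
        exact h6)
      refine ⟨Ap, Am, A0, e1, e2, _, ?_, e3⟩
      apply inv_ne_zero
      intro h6
      apply h5
      rw [sub_eq_zero] at h6
      rw [pow_two]
      nth_rewrite 2 [h6]
      exact mul_inv_cancel₀ h4
  choose Ap Am A0 e1 e2 d hd e3 using hdec
  set α : QA → ℂ := fun z => ((Real.log ‖j' z‖ : ℝ) : ℂ) with hα
  have hαm : ∀ x y : QA, x ≠ 0 → y ≠ 0 → α (x * y) = α x + α y := by
    intro x y hx hy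
    simp only [hα]
    rw [map_mul, norm_mul, Real.log_mul]
    · push_cast; rfl
    · rw [norm_ne_zero_iff]; exact (map_ne_zero j').2 hx
    · rw [norm_ne_zero_iff]; exact (map_ne_zero j').2 hy
  have hX := torus_mem (S := S) j c hc0 α hαm Ap Am A0 e1 (by
    intro m
    have h4 := (Mon S).pow_mem (hh_mem h 3 hMk hMl) m
    convert h4 using 1
    funext i
    exact (e2 i m).symm)
  have hj'c : ∀ i, j' (c i) + (j' (c i))⁻¹ = tt (j' (y i) + (j' (y i))⁻¹) := by
    intro i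
    rw [← map_inv₀, ← map_add, hc, tt_map, map_add, map_inv₀]
  refine ⟨_, hX, ?_, α (c s) * d s, ?_, ?_⟩
  · intro i hi
    have h4 := qu_mul h s i hi
    have h5 : y i = -(y s)⁻¹ := by
      apply j.injective
      rw [map_neg, map_inv₀, hy, hy, ← exp_neg]
      have h6 : (ρ i : ℂ) = 1 / 2 - (ρ s : ℂ) := by
        have h7 : ρ i = 1 / 2 - ρ s := by linarith
        rw [h7]
        push_cast; ring
      rw [h6, show (2 * Real.pi * I * (1 / 2 - (ρ s : ℂ)) : ℂ) = Real.pi * I + -(2 * Real.pi * I * (ρ s : ℂ)) by ring,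
        exp_add, exp_pi_mul_I]
      ring
    have h6 : j' (y i) + (j' (y i))⁻¹ = ((-U : ℝ) : ℂ) := by
      rw [h5, map_neg, map_inv₀]
      push_cast
      rw [← hUe, inv_neg, inv_inv]
      ring
    have h7 := hj'c i
    rw [h6] at h7
    have e5 : tt (((-U : ℝ) : ℂ)) = ((tt (-U) : ℝ) : ℂ) := (tt_map Complex.ofRealHom (-U)).symm
    rw [e5] at h7
    have h8 := norm_of_lt ((map_ne_zero j').2 (hc0 i)) h7 (tt_lt (by linarith) (by linarith))
      (tt_lt2 (by linarith) (by linarith) (by linarith))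
    simp only [hα]
    rw [h8, Real.log_one]
    simp
  · refine mul_ne_zero ?_ (hd s)
    simp only [hα]
    have h7 := hj'c s
    rw [hUe] at h7
    have e5 : tt (((U : ℝ) : ℂ)) = ((tt U : ℝ) : ℂ) := (tt_map Complex.ofRealHom U).symm
    rw [e5] at h7
    have h8 := norm_of_gt h7 (tt_gt hU2)
    have h9 : 0 < ‖j' (c s)‖ := norm_pos_iff.2 ((map_ne_zero j').2 (hc0 s))
    have h10 : Real.log ‖j' (c s)‖ ≠ 0 := by
      intro h11
      rcases Real.log_eq_zero.1 h11 with h12 | h12 | h12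
      · linarith
      · exact h8 h12
      · linarith
    exact_mod_cast h10
  · change α (c s) • (Ap s - Am s) = _
    rw [e3, smul_smul]

/-- the eigenvalues of the half-twists -/
noncomputable def hw (ρ : ι → ℚ) (i : ι) : ℂ := -(xx ρ i) ^ 2

theorem hw_ne (ρ : ι → ℚ) (i : ι) : hw ρ i ≠ 0 := neg_ne_zero.2 (pow_ne_zero _ (xx_ne ρ i))

theorem hw_sq (ρ : ι → ℚ) (i : ι) : hw ρ i * hw ρ i = qu ρ i := by
  unfold hw qu
  ring

/-- a chain of sets related by half-twists -/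
structure Chain (ρ : ι → ℚ) (Sm : Fin (n + 1) → DS ι n) : Prop where
  up : ∀ k : Fin n, (fun i => 1 + (hw ρ i - 1) • Pk (tu ρ i) k) ∈ Tra (Sm k.castSucc) (Sm k.succ)
  up' : ∀ k : Fin n, (fun i => 1 + ((hw ρ i)⁻¹ - 1) • Pk (tu ρ i) k) ∈ Tra (Sm k.castSucc) (Sm k.succ)
  dn : ∀ k : Fin n, (fun i => 1 + (hw ρ i - 1) • Pk (tu ρ i) k) ∈ Tra (Sm k.succ) (Sm k.castSucc)
  dn' : ∀ k : Fin n, (fun i => 1 + ((hw ρ i)⁻¹ - 1) • Pk (tu ρ i) k) ∈ Tra (Sm k.succ) (Sm k.castSucc)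

theorem proj_mul {R : Type} [Ring R] [Algebra ℂ R] {P : R} (hP : P * P = P) (a b : ℂ) :
    (1 + (a - 1) • P) * (1 + (b - 1) • P) = 1 + (a * b - 1) • P := by
  rw [mul_add, mul_one, add_mul, one_mul, smul_mul_smul_comm, hP]
  module

theorem Chain.refl_cast {ρ : ι → ℚ} (h : Adm n ρ) {Sm : Fin (n + 1) → DS ι n} (C : Chain ρ Sm) (k : Fin n) :
    (fun i => 1 + (qu ρ i - 1) • Pk (tu ρ i) k) ∈ Mon (Sm k.castSucc) := by
  refine mem_Mon_of_Tra ?_
  have h1 := Tra.mul (C.up k) (C.dn k)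
  convert h1 using 1
  funext i
  rw [Pi.mul_apply, proj_mul (Pk_idem (tu_ne h i) k), hw_sq]

theorem Chain.refl_succ {ρ : ι → ℚ} (h : Adm n ρ) {Sm : Fin (n + 1) → DS ι n} (C : Chain ρ Sm) (k : Fin n) :
    (fun i => 1 + (qu ρ i - 1) • Pk (tu ρ i) k) ∈ Mon (Sm k.succ) := by
  refine mem_Mon_of_Tra ?_
  have h1 := Tra.mul (C.dn k) (C.up k)
  convert h1 using 1
  funext i
  rw [Pi.mul_apply, proj_mul (Pk_idem (tu_ne h i) k), hw_sq]

/-- one inclusion -/
theorem Gs_le {ρ : ι → ℚ} (h : Adm n ρ) {S S' : DS ι n} (k : Fin n)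
    (hup : (fun i => 1 + ((hw ρ i)⁻¹ - 1) • Pk (tu ρ i) k) ∈ Tra S S')
    (hdn : (fun i => 1 + (hw ρ i - 1) • Pk (tu ρ i) k) ∈ Tra S' S)
    (hM : (fun i => 1 + (qu ρ i - 1) • Pk (tu ρ i) k) ∈ Mon S') (s : ι) : Gs S s ≤ Gs S' s := by
  intro Y hY
  have hP : ∀ i, Pk (tu ρ i) k * Pk (tu ρ i) k = Pk (tu ρ i) k := fun i => Pk_idem (tu_ne h i) k
  have h1 := LieS_tr hup hdn (by
    funext i
    rw [Pi.mul_apply, proj_mul (hP i), inv_mul_cancel₀ (hw_ne ρ i), sub_self, zero_smul, add_zero]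
    rfl) (by
    funext i
    rw [Pi.mul_apply, proj_mul (hP i), mul_inv_cancel₀ (hw_ne ρ i), sub_self, zero_smul, add_zero]
    rfl) (mem_Gs.1 hY)
  set P := Pk (tu ρ s) k with hPd
  set Z : Matrix (Fin n) (Fin n) ℂ := (1 + (hw ρ s - 1) • P) * Y * (1 + ((hw ρ s)⁻¹ - 1) • P) with hZ
  have h2 : (Pi.single s Z : ι → Matrix (Fin n) (Fin n) ℂ) ∈ LieS S' := by
    convert h1 using 1
    funext i
    by_cases hi : i = s
    · subst hi
      rw [Pi.single_eq_same, Pi.mul_apply, Pi.mul_apply, Pi.single_eq_same]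
    · rw [Pi.single_eq_of_ne hi, Pi.mul_apply, Pi.mul_apply, Pi.single_eq_of_ne hi, mul_zero, zero_mul]
  have hZe : Z = (Y - P * Y - Y * P + (2 : ℂ) • (P * Y * P)) + hw ρ s • (P * Y - P * Y * P) +
      (hw ρ s)⁻¹ • (Y * P - P * Y * P) := conj_expand Y (mul_inv_cancel₀ (hw_ne ρ s))
  have h0 : ∀ i, qu ρ s * qu ρ i = 1 → (Pi.single s Z : ι → Matrix (Fin n) (Fin n) ℂ) i = 0 := by
    intro i hi
    by_cases hh : i = s
    · subst hh
      exact absurd hi (qu_self h i)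
    · rw [Pi.single_eq_of_ne hh]
  have h3 := ext_PQ (P := fun i => Pk (tu ρ i) k) hP (LL_pos ρ) (qu_pow ρ) (qu_ne_one h) (qu_inj h) hM h2 s h0
  have h4 := ext_QP (P := fun i => Pk (tu ρ i) k) hP (LL_pos ρ) (qu_pow ρ) (qu_ne_one h) (qu_inj h) hM h2 s h0
  rw [Pi.single_eq_same] at h3 h4
  have hPP := hP s
  rw [← hPd] at hPP h3 h4
  have e1 : P * (P * Y) = P * Y := by rw [← mul_assoc, hPP]
  have e2 : Y * P * P = Y * P := by rw [mul_assoc, hPP]
  have e3 : P * Z - P * Z * P = hw ρ s • (P * Y - P * Y * P) := by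
    rw [hZe]
    simp only [mul_add, add_mul, mul_sub, sub_mul, mul_smul_comm, smul_mul_assoc, ← mul_assoc, hPP]
    simp only [mul_assoc, hPP]
    module
  have e4 : Z * P - P * Z * P = (hw ρ s)⁻¹ • (Y * P - P * Y * P) := by
    rw [hZe]
    simp only [mul_add, add_mul, mul_sub, sub_mul, mul_smul_comm, smul_mul_assoc, ← mul_assoc, hPP]
    simp only [mul_assoc, hPP]
    module
  rw [e3] at h3
  rw [e4] at h4
  have h5 : hw ρ s • (P * Y - P * Y * P) ∈ Gs S' s := h3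
  have h6 : (hw ρ s)⁻¹ • (Y * P - P * Y * P) ∈ Gs S' s := h4
  have h7 := (Gs S' s).smul_mem (hw ρ s)⁻¹ h5
  have h8 := (Gs S' s).smul_mem (hw ρ s) h6
  rw [smul_smul, inv_mul_cancel₀ (hw_ne ρ s), one_smul] at h7
  rw [smul_smul, mul_inv_cancel₀ (hw_ne ρ s), one_smul] at h8
  have h9 : Z ∈ Gs S' s := h2
  have h10 := (Gs S' s).add_mem ((Gs S' s).sub_mem ((Gs S' s).sub_mem h9 h5) h6) ((Gs S' s).add_mem h7 h8)
  convert h10 using 1
  rw [hZe]
  module

theorem Chain.step {ρ : ι → ℚ} (h : Adm n ρ) {Sm : Fin (n + 1) → DS ι n} (C : Chain ρ Sm) (k : Fin n) (s : ι) :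
    Gs (Sm k.castSucc) s = Gs (Sm k.succ) s :=
  le_antisymm (Gs_le h k (C.up' k) (C.dn k) (C.refl_succ h k) s)
    (Gs_le h k (C.dn' k) (C.up k) (C.refl_cast h k) s)

theorem Chain.all {ρ : ι → ℚ} (h : Adm n ρ) {Sm : Fin (n + 1) → DS ι n} (C : Chain ρ Sm) (m : Fin (n + 1)) (s : ι) :
    Gs (Sm m) s = Gs (Sm 0) s := by
  refine Fin.induction (motive := fun m => Gs (Sm m) s = Gs (Sm 0) s) rfl (fun k ih => ?_) m
  rw [← C.step h k s, ih]

/-- the matrix units -/
theorem Chain.single {ρ : ι → ℚ} (h : Adm n ρ) {Sm : Fin (n + 1) → DS ι n} (C : Chain ρ Sm) (m : Fin (n + 1)) (s : ι)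
    (hadj : ∀ k l : Fin n, (k : ℕ) + 1 = l → Pk (tu ρ s) k - Pk (tu ρ s) l ∈ Gs (Sm k.succ) s ∧
      Pk (tu ρ s) k * Pk (tu ρ s) l - ((tu ρ s)⁻¹) ^ 2 • Pk (tu ρ s) k ∈ Gs (Sm k.succ) s)
    (i j : Fin n) (hij : i ≠ j) : Matrix.single i j (1 : ℂ) ∈ Gs (Sm m) s := by
  rw [C.all h]
  refine single_mem (tu_ne h) (LL_pos ρ) (qu_pow ρ) (qu_ne_one h) (qu_inj h) (fun k hk => ?_) s (qu_self h s)
    (aV_span h s) (fun k l hkl => ?_) i j hij
  · have h1 := C.refl_cast h k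
    have h2 : k.castSucc = 0 := Fin.ext (by simpa using hk)
    rwa [h2] at h1
  · have h1 := hadj k l hkl
    rwa [C.all h] at h1

/-- orders different from three -/
theorem Chain.ne_three {ρ : ι → ℚ} (h : Adm n ρ) {Sm : Fin (n + 1) → DS ι n} (C : Chain ρ Sm) (m : Fin (n + 1))
    (s : ι) (h3 : (ρ s).den ≠ 3) (g : Matrix (Fin n) (Fin n) ℂ)
    (hg : g.det = 1) : (Pi.mulSingle s g : ι → Matrix (Fin n) (Fin n) ℂ) ∈ Mon (Sm m) := by
  refine single_sl _ s (fun i j hij c => tr_of_single s hij ?_ c) g hg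
  refine C.single h m s (fun k l hkl => ?_) i j hij
  have hMk := C.refl_succ h k
  have hMl : (fun i => 1 + (qu ρ i - 1) • Pk (tu ρ i) l) ∈ Mon (Sm k.succ) := by
    have h1 := C.refl_cast h l
    have h2 : l.castSucc = k.succ := Fin.ext (by simpa using hkl.symm)
    rwa [h2] at h1
  obtain ⟨X, hX, h0, c, hc, hXs⟩ := hyp_elem h s h3 hkl hMk hMl
  refine adj_of (tu_ne h) (LL_pos ρ) (qu_pow ρ) (qu_ne_one h) (qu_inj h) hMk hMl hX s h0 hkl
    (a := qu ρ s ^ 3 - 1) (b := (qu ρ s)⁻¹ ^ 3 - 1) ?_ hc (ab_rel ρ 3 s) hXs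
  -- the cube is not one
  intro h4
  have h5 : xx ρ s ^ (2 * 6) = 1 := by
    have h6 : qu ρ s ^ 3 = 1 := by linear_combination h4
    unfold qu at h6
    rw [← pow_mul] at h6
    exact h6
  have hy := xx_ne ρ s
  rw [xx_pow] at h5
  obtain ⟨b, hb⟩ := exp_eq_one_real h5
  have h2 : (6 : ℚ) * ρ s = b := by exact_mod_cast hb
  have a1 := h.pos s
  have a2 := h.lt s
  have h5 : (0 : ℚ) < b := by linarith
  have h6 : (b : ℚ) < 3 := by linarith
  have h7 : 0 < b := by exact_mod_cast h5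
  have h8 : b < 3 := by exact_mod_cast h6
  have h9 : b = 1 ∨ b = 2 := by omega
  rcases h9 with h9 | h9
  · rw [h9] at h2
    push_cast at h2
    have h10 : ρ s = 1 / 6 := by linarith
    apply (h.den s).2.1
    rw [h10]; norm_num
  · rw [h9] at h2
    push_cast at h2
    have h10 : ρ s = 1 / 3 := by linarith
    apply h3
    rw [h10]; norm_num

/-- order three -/
theorem Chain.three {ρ : ι → ℚ} (h : Adm n ρ) {Sm : Fin (n + 1) → DS ι n} (C : Chain ρ Sm) (m : Fin (n + 1))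
    (s : ι) (h3 : (ρ s).den = 3) (g : Matrix (Fin n) (Fin n) ℂ)
    (hg : g.det = 1) : (Pi.mulSingle s g : ι → Matrix (Fin n) (Fin n) ℂ) ∈ Mon (Sm m) := by
  have hρ := third h s h3
  have hother : ∀ i, i ≠ s → (ρ i).den ≠ 3 := by
    intro i hi h4
    exact hi (h.inj ((third h i h4).trans hρ.symm))
  refine single_sl _ s (fun i j hij c => tr_of_single s hij ?_ c) g hg
  refine C.single h m s (fun k l hkl => ?_) i j hij
  have hMk := C.refl_succ h k
  have hMl : (fun i => 1 + (qu ρ i - 1) • Pk (tu ρ i) l) ∈ Mon (Sm k.succ) := by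
    have h1 := C.refl_cast h l
    have h2 : l.castSucc = k.succ := Fin.ext (by simpa using hkl.symm)
    rwa [h2] at h1
  -- the other components
  have hsing : (Pi.mulSingle s (hh ρ 1 k l s) : ι → Matrix (Fin n) (Fin n) ℂ) ∈ Mon (Sm k.succ) := by
    have h4 : (fun i => if i = s then 1 else hh ρ 1 l k i) ∈ Mon (Sm k.succ) := by
      have h5 : ∀ t : Finset ι, s ∉ t → (fun i => if i ∈ t then hh ρ 1 l k i else 1) ∈ Mon (Sm k.succ) := by
        intro t
        induction t using Finset.induction_on with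
        | empty =>
          intro _
          simp only [Finset.notMem_empty, if_false]
          exact (Mon (Sm k.succ)).one_mem
        | insert a t ha ih =>
          intro hs
          rw [Finset.mem_insert, not_or] at hs
          have h2 := (Mon (Sm k.succ)).mul_mem (C.ne_three h k.succ a (hother a (Ne.symm hs.1)) (hh ρ 1 l k a)
            (det_hh h 1 l k a)) (ih hs.2)
          have h3 : ((Pi.mulSingle a (hh ρ 1 l k a) : ι → Matrix (Fin n) (Fin n) ℂ) *
              fun i => if i ∈ t then hh ρ 1 l k i else 1) =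
              fun i => if i ∈ insert a t then hh ρ 1 l k i else 1 := by
            funext i
            rw [Pi.mul_apply]
            by_cases h4 : i = a
            · subst h4
              simp [ha]
            · rw [Pi.mulSingle_eq_of_ne h4, one_mul]
              simp [h4]
          rw [← h3]
          exact h2
      have h6 := h5 (Finset.univ.erase s) (Finset.notMem_erase s _)
      convert h6 using 1
      funext i
      by_cases hi : i = s
      · simp [hi]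
      · simp [hi]
    have h7 := (Mon (Sm k.succ)).mul_mem (hh_mem h 1 hMk hMl) h4
    convert h7 using 1
    funext i
    rw [Pi.mul_apply]
    by_cases hi : i = s
    · subst hi
      rw [Pi.mulSingle_eq_same]
      simp
    · rw [Pi.mulSingle_eq_of_ne hi, if_neg hi, hh_inv h]
  have htr : 2 + ((qu ρ s ^ 1 - 1) + ((qu ρ s)⁻¹ ^ 1 - 1)) * (1 - ((tu ρ s)⁻¹) ^ 2) = (2 : ℂ) := by
    have h4 : (tu ρ s) ^ 2 = 1 := by
      have hx := xx_ne ρ s
      have h5 : (xx ρ s ^ 2) ^ 3 = 1 := by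
        rw [← pow_mul, xx_pow, hρ, exp_eq_one_iff]
        refine ⟨1, ?_⟩
        push_cast
        ring
      have h6 : xx ρ s ^ 2 ≠ 1 := by
        intro h1
        apply qu_ne_one h s
        unfold qu
        rw [show 4 = 2 * 2 by norm_num, pow_mul, h1, one_pow]
      have h7 : (xx ρ s ^ 2 - 1) * ((xx ρ s ^ 2) ^ 2 + xx ρ s ^ 2 + 1) = 0 := by linear_combination h5
      have h8 := (mul_eq_zero.1 h7).resolve_left (sub_ne_zero.2 h6)
      unfold tu
      field_simp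
      linear_combination h8
    have h5 : ((tu ρ s)⁻¹) ^ 2 = 1 := by rw [inv_pow, h4, inv_one]
    rw [h5, sub_self, mul_zero, add_zero]
  have hcub := hh_cub h 1 hkl s
  rw [htr] at hcub
  have hpow := unip_pow (hh_inv h 1 s) hcub
  have hB := unip_mem (S := Sm k.succ) (Pi.single s ((1 / 2 : ℂ) • (hh ρ 1 k l s - hh ρ 1 l k s)))
    (Pi.single s ((1 / 2 : ℂ) • (hh ρ 1 k l s + hh ρ 1 l k s - (2 : ℂ) • 1))) (by
      intro m
      have h4 := (Mon (Sm k.succ)).pow_mem hsing m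
      convert h4 using 1
      funext i
      rw [Pi.pow_apply]
      by_cases hi : i = s
      · subst hi
        rw [Pi.mulSingle_eq_same, Pi.single_eq_same, Pi.single_eq_same, hpow]
      · rw [Pi.mulSingle_eq_of_ne hi, Pi.single_eq_of_ne hi, Pi.single_eq_of_ne hi, one_pow]
        simp)
  refine adj_of (tu_ne h) (LL_pos ρ) (qu_pow ρ) (qu_ne_one h) (qu_inj h) hMk hMl hB s ?_ hkl
    (a := qu ρ s ^ 1 - 1) (b := (qu ρ s)⁻¹ ^ 1 - 1) (c := 1 / 2) ?_ (by norm_num) (ab_rel ρ 1 s) ?_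
  · intro i hi
    have hne : i ≠ s := by
      intro h4
      rw [h4] at hi
      exact qu_self h s hi
    rw [Pi.single_eq_of_ne hne]
  · rw [pow_one]
    exact sub_ne_zero.2 (qu_ne_one h s)
  · rw [Pi.single_eq_same]
    rfl

/-- **The product of the special linear groups preserves the relations.** -/
theorem Chain.sl_mem {ρ : ι → ℚ} (h : Adm n ρ) {Sm : Fin (n + 1) → DS ι n} (C : Chain ρ Sm) (m : Fin (n + 1))
    (g : ι → Matrix (Fin n) (Fin n) ℂ) (hg : ∀ s, (g s).det = 1) : g ∈ Mon (Sm m) := by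
  refine sl_pi _ (fun s g hg => ?_) g hg
  by_cases h3 : (ρ s).den = 3
  · exact C.three h m s h3 g hg
  · exact C.ne_three h m s h3 g hg

end

end Pool.Agent.Run7.h659.VA
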