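import Pool.Agent.Run7.h659.VA2

/-!
# The relations of the periods of a one-parameter family of cyclic covers
-/

set_option autoImplicit false
set_option linter.unusedSectionVars false

open Complex

namespace Pool.Agent.Run7.h659.VA

open Pool.Agent.Run7.h659.SE Pool.Agent.Run7.h659.CC
open Pool.Agent.Y118.HP (ee Dm isOpen_Dm InGap mem_Dm_of_im ee_self ee_succAbove
  differentiable_ee differentiableOn_eval isPreconnected_Dm eq_zero_of_open)

variable {n : ℕ} {ι : Type}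

theorem Tk_half {x : ℂ} (hx : x ≠ 0) (h : x + x⁻¹ ≠ 0) (k : Fin n) :
    Tk k (Uv x x k) = 1 + (-(x ^ 2) - 1) • Pk (x + x⁻¹) k := by
  have h1 : Uv x x k = fun l => x * aV (x + x⁻¹) k l := by
    funext l
    unfold Uv aV
    split_ifs
    · rw [mul_one]
    · field_simp
      ring
    · rw [mul_one]
    · rw [mul_zero]
  rw [h1, Tk_eq]
  unfold Pk Rr
  rw [smul_smul]
  congr 2
  have h2 : x ^ 2 + 1 ≠ 0 := by
    intro h3
    apply h
    have h4 : x + x⁻¹ = (x ^ 2 + 1) / x := by field_simp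
    rw [h4, h3, zero_div]
  field_simp
  ring

/-- the matrices of the integrals, with the moving point in position `m` -/
noncomputable def PF (ρ : ι → ℚ) (a : Fin n → ℝ) (m : Fin (n + 1)) (z : ℂ) : ι → Matrix (Fin n) (Fin n) ℂ :=
  fun i => PM (fun _ => ((ρ i : ℝ) : ℂ)) (ee a m z)

/-- their graph -/
def SS (ρ : ι → ℚ) (a : Fin n → ℝ) (m : Fin (n + 1)) : DS ι n := {p | ∃ z ∈ Dm a m, p = (ee a 0 z, PF ρ a m z)}

theorem SS_iff {ρ : ι → ℚ} {a : Fin n → ℝ} {m : Fin (n + 1)} {P : MvPolynomial (Sg ι n) ℂ} :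
    P ∈ Rel (SS ρ a m) ↔ ∀ z ∈ Dm a m, ev P (ee a 0 z) (PF ρ a m z) = 0 := by
  constructor
  · intro h z hz
    have h1 := h (ee a 0 z, PF ρ a m z) ⟨z, hz, rfl⟩
    exact h1
  · rintro h p ⟨z, hz, rfl⟩
    exact h z hz

theorem ee_const (c : ℂ) (d : ℝ) (hd : (d : ℂ) = c) (m : Fin (n + 1)) : ee (fun _ : Fin n => d) m c = fun _ => c := by
  funext k
  rcases Fin.eq_self_or_eq_succAbove m k with rfl | ⟨i', rfl⟩
  · rw [ee_self]
  · rw [ee_succAbove, hd]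

theorem PF_diff {ρ : ι → ℚ} (h : Adm n ρ) {a : Fin n → ℝ} (ha : StrictMono a) (m : Fin (n + 1)) (i : ι)
    (k l : Fin n) : DifferentiableOn ℂ (fun z => PF ρ a m z i k l) (Dm a m) := by
  unfold PF PM
  simp only [Matrix.of_apply]
  refine diff_move ha m _ (fun i' => ?_) k l
  rw [ofReal_re]
  have h1 := h.lt i
  have h2 : ((ρ i : ℚ) : ℝ) < ((1 / 2 : ℚ) : ℝ) := by exact_mod_cast h1
  push_cast at h2
  linarith

theorem tra_of {ρ : ι → ℚ} (h : Adm n ρ) {a : Fin n → ℝ} (ha : StrictMono a) (m m' : Fin (n + 1))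
    (g : ι → Matrix (Fin n) (Fin n) ℂ) {V : Set ℂ} (hV : IsOpen V) {z0 : ℂ} (hz0 : z0 ∈ V)
    (hVim : ∀ z ∈ V, z.im ≠ 0) (hg : ∀ z ∈ V, ∀ i, g i * PF ρ a m' z i = PF ρ a m z i) :
    g ∈ Tra (SS ρ a m) (SS ρ a m') := by
  intro P hP
  rw [SS_iff] at hP ⊢
  intro z hz
  rw [ev_sb]
  refine eq_zero_of_open ha m' (f := fun z => ev P (ee a 0 z) (g * PF ρ a m' z)) ?_ hV hz0
    (mem_Dm_of_im a m' (hVim z0 hz0)) ?_ z hz
  · unfold ev
    refine differentiableOn_eval (fun (o : Fin (n + 1) ⊕ (ι × Fin n × Fin n)) z =>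
      Sum.elim (ee a 0 z) (fun x : ι × Fin n × Fin n => (g * PF ρ a m' z) x.1 x.2.1 x.2.2) o) ?_ P
    rintro (i | x)
    · exact (differentiable_ee a 0 i).differentiableOn
    · simp only [Sum.elim_inr, Pi.mul_apply, Matrix.mul_apply]
      refine DifferentiableOn.fun_sum fun c _ => ?_
      exact (PF_diff h ha m' x.1 c x.2.2).const_mul _
  · intro z hz
    have h1 : g * PF ρ a m' z = PF ρ a m z := by
      funext i
      exact hg z hz i
    show ev P (ee a 0 z) (g * PF ρ a m' z) = 0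
    rw [h1]
    exact hP z (mem_Dm_of_im a m (hVim z hz))

theorem rho_mem {ρ : ι → ℚ} (h : Adm n ρ) (i : ι) : ((ρ i : ℚ) : ℝ) ∈ Set.Ico (0 : ℝ) 1 := by
  have h1 := h.lt i
  have h2 : ((ρ i : ℚ) : ℝ) < ((1 / 2 : ℚ) : ℝ) := by exact_mod_cast h1
  have h3 := h.pos i
  have h4 : (0 : ℝ) < ((ρ i : ℚ) : ℝ) := by exact_mod_cast h3
  push_cast at h2
  exact ⟨h4.le, by linarith⟩

theorem PF_upper {ρ : ι → ℚ} (h : Adm n ρ) {a : Fin n → ℝ} (ha : StrictMono a) (k : Fin n) {z : ℂ} (hz : 0 < z.im)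
    (i : ι) : PF ρ a k.succ z i = (1 + ((hw ρ i)⁻¹ - 1) • Pk (tu ρ i) k) * PF ρ a k.castSucc z i := by
  have hx := xx_ne ρ i
  have e1 := Tk_half (n := n) (inv_ne_zero hx) (by rw [inv_inv, add_comm]; exact tu_ne h i) k
  have e2 : (1 + ((hw ρ i)⁻¹ - 1) • Pk (tu ρ i) k) = Tk k (Uv (xx ρ i)⁻¹ (xx ρ i)⁻¹ k) := by
    rw [e1, inv_inv, add_comm (xx ρ i)⁻¹]
    unfold hw tu
    congr 3
    rw [inv_neg, inv_pow]
  rw [e2]
  ext l j
  unfold Tk
  rw [add_mul, one_mul, Matrix.add_apply, Ek_mul]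
  unfold PF PM
  simp only [Matrix.of_apply]
  have e3 := conn_upper ha (μ := fun _ => ((ρ i : ℚ) : ℝ)) (fun _ => rho_mem h i) (rho_mem h i) k hz j l
  rw [ee_const _ _ rfl, ee_const _ _ rfl] at e3
  rw [e3]
  have e4 : exp (-(Real.pi * ((ρ i : ℝ) : ℂ) * I)) = (xx ρ i)⁻¹ := by
    unfold xx
    exact exp_neg _
  rw [e4]

theorem PF_lower {ρ : ι → ℚ} (h : Adm n ρ) {a : Fin n → ℝ} (ha : StrictMono a) (k : Fin n) {z : ℂ} (hz : z.im < 0)
    (i : ι) : PF ρ a k.succ z i = (1 + (hw ρ i - 1) • Pk (tu ρ i) k) * PF ρ a k.castSucc z i := by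
  have hx := xx_ne ρ i
  have e1 := Tk_half (n := n) hx (tu_ne h i) k
  have e2 : (1 + (hw ρ i - 1) • Pk (tu ρ i) k) = Tk k (Uv (xx ρ i) (xx ρ i) k) := by
    rw [e1]
    rfl
  rw [e2]
  ext l j
  unfold Tk
  rw [add_mul, one_mul, Matrix.add_apply, Ek_mul]
  unfold PF PM
  simp only [Matrix.of_apply]
  have e3 := conn_lower ha (μ := fun _ => ((ρ i : ℚ) : ℝ)) (fun _ => rho_mem h i) (rho_mem h i) k hz j l
  rw [ee_const _ _ rfl, ee_const _ _ rfl] at e3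
  rw [e3]
  rfl

theorem PF_upper' {ρ : ι → ℚ} (h : Adm n ρ) {a : Fin n → ℝ} (ha : StrictMono a) (k : Fin n) {z : ℂ} (hz : 0 < z.im)
    (i : ι) : PF ρ a k.castSucc z i = (1 + (hw ρ i - 1) • Pk (tu ρ i) k) * PF ρ a k.succ z i := by
  have h1 : hw ρ i * (hw ρ i)⁻¹ = 1 := mul_inv_cancel₀ (neg_ne_zero.2 (pow_ne_zero _ (xx_ne ρ i)))
  rw [PF_upper h ha k hz i, ← mul_assoc, proj_mul (Pk_idem (tu_ne h i) k), h1, sub_self,
    zero_smul, add_zero, one_mul]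

theorem PF_lower' {ρ : ι → ℚ} (h : Adm n ρ) {a : Fin n → ℝ} (ha : StrictMono a) (k : Fin n) {z : ℂ} (hz : z.im < 0)
    (i : ι) : PF ρ a k.castSucc z i = (1 + ((hw ρ i)⁻¹ - 1) • Pk (tu ρ i) k) * PF ρ a k.succ z i := by
  have h1 : (hw ρ i)⁻¹ * hw ρ i = 1 := inv_mul_cancel₀ (neg_ne_zero.2 (pow_ne_zero _ (xx_ne ρ i)))
  rw [PF_lower h ha k hz i, ← mul_assoc, proj_mul (Pk_idem (tu_ne h i) k), h1, sub_self,
    zero_smul, add_zero, one_mul]

/-- **The half-twists map the relations to relations.** -/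
theorem chain {ρ : ι → ℚ} (h : Adm n ρ) {a : Fin n → ℝ} (ha : StrictMono a) : Chain ρ (SS ρ a) where
  up := fun k => tra_of h ha _ _ _ (V := {z : ℂ | 0 < z.im}) (isOpen_lt continuous_const continuous_im)
    (z0 := I) (by simp) (fun z hz => (ne_of_lt hz).symm) (fun z hz i => (PF_upper' h ha k hz i).symm)
  up' := fun k => tra_of h ha _ _ _ (V := {z : ℂ | z.im < 0}) (isOpen_lt continuous_im continuous_const)
    (z0 := -I) (by simp) (fun z hz => ne_of_lt hz) (fun z hz i => (PF_lower' h ha k hz i).symm)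
  dn := fun k => tra_of h ha _ _ _ (V := {z : ℂ | z.im < 0}) (isOpen_lt continuous_im continuous_const)
    (z0 := -I) (by simp) (fun z hz => ne_of_lt hz) (fun z hz i => (PF_lower h ha k hz i).symm)
  dn' := fun k => tra_of h ha _ _ _ (V := {z : ℂ | 0 < z.im}) (isOpen_lt continuous_const continuous_im)
    (z0 := I) (by simp) (fun z hz => (ne_of_lt hz).symm) (fun z hz i => (PF_upper h ha k hz i).symm)

/-- **Relations between the periods of the family are invariant.** -/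
theorem rel_inv [Fintype ι] [DecidableEq ι] {ρ : ι → ℚ} (h : Adm n ρ) {a : Fin n → ℝ} (ha : StrictMono a)
    (m : Fin (n + 1)) (P : MvPolynomial (Sg ι n) ℂ) (hP : ∀ z ∈ Dm a m, ev P (ee a 0 z) (PF ρ a m z) = 0)
    (g : ι → Matrix (Fin n) (Fin n) ℂ) (hg : ∀ s, (g s).det = 1) {z : ℂ} (hz : z ∈ Dm a m) :
    ev P (ee a 0 z) (g * PF ρ a m z) = 0 := by
  have h1 := (chain h ha).sl_mem h m g hg
  have h2 := h1 P (SS_iff.2 hP) (ee a 0 z, PF ρ a m z) ⟨z, hz, rfl⟩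
  exact h2

end Pool.Agent.Run7.h659.VA
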