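import Pool.Agent.Run7.h659.SE5

/-!
# Integrals over the gaps which are not adjacent to the moving point: the differential equation
-/

set_option autoImplicit false
set_option linter.unusedSectionVars false
set_option linter.deprecated false

open Complex Set MeasureTheory Filter Topology

namespace Pool.Agent.Run7.h659.VA

open Pool.Agent.Run7.h659.SE
open Pool.Agent.Y118.HP (seg ee ee_self ee_succAbove)

variable {n : ℕ}

theorem ee_zero_succ (a : Fin n → ℝ) (z : ℂ) (i : Fin n) : ee a 0 z i.succ = (a i : ℂ) := by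
  rw [← Fin.zero_succAbove i, ee_succAbove]

/-- the integral over a gap not adjacent to the moving point -/
theorem per_far {a : Fin (n + 1) → ℝ} (ha : StrictMono a) (r : ℝ) (z : ℂ) (l : Fin n) (j : ℕ) :
    per (fun _ => (r : ℂ)) (ee a 0 z) l.succ j =
      ∫ x in (a l.castSucc)..(a l.succ), ((wt (fun _ => r) a l x : ℝ) : ℂ) *
        (((x ^ j : ℝ) : ℂ) * ((x : ℂ) - z) ^ (-(r : ℂ))) := by
  have hlt : a l.castSucc < a l.succ := ha Fin.castSucc_lt_succ
  have h1 := intervalIntegral.smul_integral_comp_mul_add (a := (0 : ℝ)) (b := 1)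
    (fun x : ℝ => ((wt (fun _ => r) a l x : ℝ) : ℂ) *
        (((x ^ j : ℝ) : ℂ) * ((x : ℂ) - z) ^ (-(r : ℂ)))) (a l.succ - a l.castSucc) (a l.castSucc)
  rw [mul_zero, zero_add, mul_one, sub_add_cancel, Complex.real_smul, ← intervalIntegral.integral_const_mul] at h1
  rw [← h1]
  unfold per
  rw [intervalIntegral.integral_of_le zero_le_one, intervalIntegral.integral_of_le zero_le_one,
    integral_Ioc_eq_integral_Ioo, integral_Ioc_eq_integral_Ioo]
  refine setIntegral_congr_fun measurableSet_Ioo fun u hu => ?_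
  have e1 : ee a 0 z l.succ.castSucc = (a l.castSucc : ℂ) := by
    rw [← Fin.succ_castSucc, ee_zero_succ]
  have e2 : ee a 0 z l.succ.succ = (a l.succ : ℂ) := ee_zero_succ _ _ _
  rw [e1, e2, seg_real]
  have hxm := seg_mem hlt hu
  generalize (a l.succ - a l.castSucc) * u + a l.castSucc = x at hxm ⊢
  have e3 : full (fun _ => (r : ℂ)) (ee a 0 z) l.succ j (x : ℂ) =
      ((x : ℂ) - z) ^ (-(r : ℂ)) * full (fun _ => (r : ℂ)) (fun k => (a k : ℂ)) l j (x : ℂ) := by
    unfold full
    rw [Fin.prod_univ_succ]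
    have h2 : (0 : Fin (n + 2)) ≤ l.succ.castSucc := Fin.zero_le _
    rw [if_pos h2]
    have h3 : ee a 0 z 0 = z := ee_self _ _ _
    rw [h3]
    have h4 : ∀ i : Fin (n + 1), (if i.succ ≤ l.succ.castSucc then (x : ℂ) - ee a 0 z i.succ else
        ee a 0 z i.succ - (x : ℂ)) = if i ≤ l.castSucc then (x : ℂ) - (a i : ℂ) else (a i : ℂ) - (x : ℂ) := by
      intro i
      have h5 : (i.succ ≤ l.succ.castSucc) ↔ i ≤ l.castSucc := by
        rw [← Fin.succ_castSucc, Fin.succ_le_succ_iff]
      simp only [h5, ee_zero_succ]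
    simp only [h4]
    ring
  rw [e3, full_real (ν := fun _ => r) ha l j hxm]
  push_cast
  ring

/-- the product over the other points -/
noncomputable def La (a : Fin n → ℝ) (j : Fin n) (x : ℝ) : ℝ := ∏ i ∈ Finset.univ.erase j, (x - a i)

theorem La_mul (a : Fin n → ℝ) (j : Fin n) (x : ℝ) : (x - a j) * La a j x = ∏ i, (x - a i) :=
  Finset.mul_prod_erase Finset.univ (fun i => x - a i) (Finset.mem_univ j)

theorem La_cont (a : Fin n → ℝ) (j : Fin n) : Continuous (La a j) := by
  unfold La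
  exact continuous_finsetProd _ fun i _ => continuous_id.sub continuous_const

/-- the integrals with the polynomials `La` -/
noncomputable def uf (a : Fin (n + 1) → ℝ) (r : ℝ) (l : Fin n) (j : Fin (n + 1)) (z : ℂ) : ℂ :=
  ∫ x in (a l.castSucc)..(a l.succ), ((wt (fun _ => r) a l x : ℝ) : ℂ) *
    (((La a j x : ℝ) : ℂ) * ((x : ℂ) - z) ^ (-(r : ℂ)))

theorem sub_slit {z : ℂ} (hz : 0 < z.im) (x : ℝ) : (x : ℂ) - z ∈ slitPlane := by
  rw [mem_slitPlane_iff]
  right
  rw [sub_im, ofReal_im]
  intro h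
  linarith

theorem cpow_cont {z : ℂ} (hz : 0 < z.im) (c : ℂ) : Continuous fun x : ℝ => ((x : ℂ) - z) ^ c := by
  refine Continuous.cpow (by fun_prop) continuous_const fun x => sub_slit hz x

theorem int_w {a : Fin (n + 1) → ℝ} (ha : StrictMono a) {r : ℝ} (hr : r < 1) (l : Fin n) {h : ℝ → ℂ}
    (hh : Continuous h) : IntervalIntegrable (fun x => ((wt (fun _ => r) a l x : ℝ) : ℂ) * h x) volume
      (a l.castSucc) (a l.succ) := by
  have h1 := int_wt (ν := fun _ => r) ha (fun _ => hr) l 0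
  simp only [pow_zero, one_mul] at h1
  have h2 : IntervalIntegrable (fun x => ((wt (fun _ => r) a l x : ℝ) : ℂ)) volume
      (a l.castSucc) (a l.succ) := ⟨h1.1.ofReal, h1.2.ofReal⟩
  exact h2.mul_continuousOn hh.continuousOn

/-- the derivative under the integral -/
theorem uf_deriv {a : Fin (n + 1) → ℝ} (ha : StrictMono a) {r : ℝ} (h0 : 0 < r) (hr : r < 1) (l : Fin n)
    (j : Fin (n + 1)) {z : ℂ} (hz : 0 < z.im) :
    HasDerivAt (uf a r l j) (∫ x in (a l.castSucc)..(a l.succ), ((wt (fun _ => r) a l x : ℝ) : ℂ) *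
      (((La a j x : ℝ) : ℂ) * ((r : ℂ) * ((x : ℂ) - z) ^ (-(r : ℂ) - 1)))) z := by
  have hlt : a l.castSucc < a l.succ := ha Fin.castSucc_lt_succ
  have hcL : Continuous fun x : ℝ => ((La a j x : ℝ) : ℂ) := continuous_ofReal.comp (La_cont a j)
  have hs : {w : ℂ | z.im / 2 < w.im} ∈ 𝓝 z :=
    (isOpen_lt continuous_const continuous_im).mem_nhds (by simp only [mem_setOf_eq]; linarith)
  have hpos : ∀ w ∈ {w : ℂ | z.im / 2 < w.im}, 0 < w.im := fun w hw => by
    have : z.im / 2 < w.im := hw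
    linarith
  unfold uf
  refine (intervalIntegral.hasDerivAt_integral_of_dominated_loc_of_deriv_le
    (F := fun w x => ((wt (fun _ => r) a l x : ℝ) : ℂ) * (((La a j x : ℝ) : ℂ) * ((x : ℂ) - w) ^ (-(r : ℂ))))
    (F' := fun w x => ((wt (fun _ => r) a l x : ℝ) : ℂ) *
      (((La a j x : ℝ) : ℂ) * ((r : ℂ) * ((x : ℂ) - w) ^ (-(r : ℂ) - 1))))
    (bound := fun x => ‖((wt (fun _ => r) a l x : ℝ) : ℂ) * (((La a j x : ℝ) : ℂ) *
      ((r : ℂ) * (((z.im / 2) ^ (-r - 1) : ℝ) : ℂ)))‖) hs ?_ ?_ ?_ ?_ ?_ ?_).2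
  · filter_upwards [hs] with w hw
    exact (int_w ha hr l (hcL.mul (cpow_cont (hpos w hw) _))).aestronglyMeasurable_restrict_uIoc
  · exact int_w ha hr l (hcL.mul (cpow_cont hz _))
  · exact (int_w ha hr l (hcL.mul (continuous_const.mul (cpow_cont hz _)))).aestronglyMeasurable_restrict_uIoc
  · refine Eventually.of_forall fun x _ w hw => ?_
    rw [norm_mul, norm_mul, norm_mul, norm_mul, norm_mul, norm_mul]
    refine mul_le_mul_of_nonneg_left ?_ (norm_nonneg _)
    refine mul_le_mul_of_nonneg_left ?_ (norm_nonneg _)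
    refine mul_le_mul_of_nonneg_left ?_ (norm_nonneg _)
    have e1 : (-(r : ℂ) - 1) = ((-r - 1 : ℝ) : ℂ) := by push_cast; ring
    have hw' : z.im / 2 < w.im := hw
    have hz2 : 0 < z.im / 2 := by linarith
    rw [e1, norm_cpow_real, norm_real, Real.norm_eq_abs, abs_of_pos (Real.rpow_pos_of_pos hz2 _)]
    refine Real.rpow_le_rpow_of_nonpos hz2 ?_ (by linarith)
    have h3 := abs_im_le_norm ((x : ℂ) - w)
    rw [sub_im, ofReal_im, zero_sub, abs_neg] at h3
    have h4 := le_abs_self w.im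
    linarith
  · exact (int_w ha hr l (hcL.mul continuous_const)).norm
  · refine Eventually.of_forall fun x _ w hw => ?_
    refine HasDerivAt.const_mul _ (HasDerivAt.const_mul _ ?_)
    have h1 : HasDerivAt (fun w : ℂ => (x : ℂ) - w) (-1) w := by
      simpa using (hasDerivAt_id w).const_sub (x : ℂ)
    have h2 := h1.cpow_const (c := -(r : ℂ)) (sub_slit (hpos w hw) x)
    refine h2.congr_deriv ?_
    ring

/-- the boundary term -/
theorem uf_bdry {a : Fin (n + 1) → ℝ} (ha : StrictMono a) {r : ℝ} (h0 : 0 < r) (hr : r < 1) (l : Fin n)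
    {z : ℂ} (hz : 0 < z.im) :
    (∫ x in (a l.castSucc)..(a l.succ), ((wt (fun _ => r) a l x : ℝ) : ℂ) *
      (((∏ i, (x - a i) : ℝ) : ℂ) * ((r : ℂ) * ((x : ℂ) - z) ^ (-(r : ℂ) - 1)))) =
      (1 - (r : ℂ)) * ∑ i, uf a r l i z := by
  have hlt : a l.castSucc < a l.succ := ha Fin.castSucc_lt_succ
  have hcA : Continuous fun x : ℝ => ((∏ i, (x - a i) : ℝ) : ℂ) :=
    continuous_ofReal.comp (continuous_finsetProd _ fun i _ => continuous_id.sub continuous_const)
  have hcL : ∀ j, Continuous fun x : ℝ => ((La a j x : ℝ) : ℂ) := fun j => continuous_ofReal.comp (La_cont a j)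
  set f : ℝ → ℂ := fun x => (((∏ i, (x - a i)) * wt (fun _ => r) a l x : ℝ) : ℂ) * ((x : ℂ) - z) ^ (-(r : ℂ)) with hf
  set f' : ℝ → ℂ := fun x => (1 - (r : ℂ)) * ∑ i, ((wt (fun _ => r) a l x : ℝ) : ℂ) *
    (((La a i x : ℝ) : ℂ) * ((x : ℂ) - z) ^ (-(r : ℂ))) - ((wt (fun _ => r) a l x : ℝ) : ℂ) *
      (((∏ i, (x - a i) : ℝ) : ℂ) * ((r : ℂ) * ((x : ℂ) - z) ^ (-(r : ℂ) - 1))) with hf'
  have hi1 : ∀ i ∈ (Finset.univ : Finset (Fin (n + 1))), IntervalIntegrable (fun x => ((wt (fun _ => r) a l x : ℝ) : ℂ) *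
    (((La a i x : ℝ) : ℂ) * ((x : ℂ) - z) ^ (-(r : ℂ)))) volume (a l.castSucc) (a l.succ) :=
    fun i _ => int_w ha hr l ((hcL i).mul (cpow_cont hz _))
  have hi2 : IntervalIntegrable (fun x => ((wt (fun _ => r) a l x : ℝ) : ℂ) *
      (((∏ i, (x - a i) : ℝ) : ℂ) * ((r : ℂ) * ((x : ℂ) - z) ^ (-(r : ℂ) - 1)))) volume (a l.castSucc) (a l.succ) :=
    int_w ha hr l (hcA.mul (continuous_const.mul (cpow_cont hz _)))
  have hi3 : IntervalIntegrable (fun x => (1 - (r : ℂ)) * ∑ i, ((wt (fun _ => r) a l x : ℝ) : ℂ) *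
    (((La a i x : ℝ) : ℂ) * ((x : ℂ) - z) ^ (-(r : ℂ)))) volume (a l.castSucc) (a l.succ) := by
    refine IntervalIntegrable.const_mul ?_ _
    have h1 := IntervalIntegrable.sum (Finset.univ : Finset (Fin (n + 1))) hi1
    have h2 : (fun x : ℝ => ∑ i, ((wt (fun _ => r) a l x : ℝ) : ℂ) *
        (((La a i x : ℝ) : ℂ) * ((x : ℂ) - z) ^ (-(r : ℂ)))) =
        ∑ i, fun x : ℝ => ((wt (fun _ => r) a l x : ℝ) : ℂ) * (((La a i x : ℝ) : ℂ) * ((x : ℂ) - z) ^ (-(r : ℂ))) := by
      funext x
      rw [Finset.sum_apply]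
    rw [h2]
    exact h1
  -- the real factor
  have hwt : ∀ x, (∏ i, (x - a i)) * wt (fun _ => r) a l x =
      ∏ i, ((x - a i) * (if i ≤ l.castSucc then x - a i else a i - x) ^ (-r)) := by
    intro x
    unfold wt
    rw [Finset.prod_mul_distrib]
  have hcont : ContinuousOn f (Icc (a l.castSucc) (a l.succ)) := by
    have h1 : ContinuousOn (fun x => (∏ i, (x - a i)) * wt (fun _ => r) a l x) (Icc (a l.castSucc) (a l.succ)) := by
      simp only [hwt]
      refine continuousOn_finsetProd _ fun i _ => ?_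
      have h2 : ∀ x ∈ Icc (a l.castSucc) (a l.succ), (x - a i) * (if i ≤ l.castSucc then x - a i else a i - x) ^ (-r) =
          (if i ≤ l.castSucc then 1 else -1) * (if i ≤ l.castSucc then x - a i else a i - x) ^ (1 - r) := by
        intro x hx
        have key : ∀ y : ℝ, 0 ≤ y → y * y ^ (-r) = y ^ (1 - r) := by
          intro y hy
          rcases eq_or_lt_of_le hy with h | h
          · rw [← h, zero_mul, Real.zero_rpow (by linarith)]
          · rw [sub_eq_add_neg, Real.rpow_add h, Real.rpow_one]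
        by_cases h : i ≤ l.castSucc
        · rw [if_pos h, if_pos h]
          have h3 : 0 ≤ x - a i := by
            have := ha.monotone h
            linarith [hx.1]
          rw [key _ h3, one_mul]
        · rw [if_neg h, if_neg h]
          have h3 : 0 ≤ a i - x := by
            have := ha.monotone (Fin.castSucc_lt_iff_succ_le.1 (not_le.1 h))
            linarith [hx.2]
          rw [← key _ h3]
          ring
      refine ContinuousOn.congr ?_ h2
      refine continuousOn_const.mul (Continuous.continuousOn ?_)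
      by_cases h : i ≤ l.castSucc
      · simp only [h, if_true]
        exact Continuous.rpow_const (by fun_prop) fun x => Or.inr (by linarith)
      · simp only [h, if_false]
        exact Continuous.rpow_const (by fun_prop) fun x => Or.inr (by linarith)
    exact (continuous_ofReal.comp_continuousOn h1).mul (cpow_cont hz _).continuousOn
  have hder : ∀ x ∈ Ioo (a l.castSucc) (a l.succ), HasDerivAt f (f' x) x := by
    intro x hx
    have hp := fac_pos ha l hx
    have h1 : HasDerivAt (fun x => (∏ i, (x - a i)) * wt (fun _ => r) a l x)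
        ((1 - r) * ∑ i, wt (fun _ => r) a l x * La a i x) x := by
      have h2 : ∀ i ∈ (Finset.univ : Finset (Fin (n + 1))), HasDerivAt
          (fun x => (x - a i) * (if i ≤ l.castSucc then x - a i else a i - x) ^ (-r))
          ((1 - r) * (if i ≤ l.castSucc then x - a i else a i - x) ^ (-r)) x := by
        intro i _
        have hpi := hp i
        by_cases h : i ≤ l.castSucc
        · simp only [h, if_true] at hpi ⊢
          have h3 : HasDerivAt (fun x : ℝ => x - a i) 1 x := (hasDerivAt_id x).sub_const _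
          have h4 := h3.mul (h3.rpow_const (p := -r) (Or.inl hpi.ne'))
          refine h4.congr_deriv ?_
          have h5 : (x - a i) ^ (-r) = (x - a i) ^ (-r - 1) * (x - a i) := by
            rw [Real.rpow_sub_one hpi.ne', div_mul_cancel₀ _ hpi.ne']
          rw [h5]
          ring
        · simp only [h, if_false] at hpi ⊢
          have h3 : HasDerivAt (fun x : ℝ => x - a i) 1 x := (hasDerivAt_id x).sub_const _
          have h3' : HasDerivAt (fun x : ℝ => a i - x) (-1) x := by
            simpa using (hasDerivAt_id x).const_sub (a i)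
          have h4 := h3.mul (h3'.rpow_const (p := -r) (Or.inl hpi.ne'))
          refine h4.congr_deriv ?_
          have h5 : (a i - x) ^ (-r) = (a i - x) ^ (-r - 1) * (a i - x) := by
            rw [Real.rpow_sub_one hpi.ne', div_mul_cancel₀ _ hpi.ne']
          rw [h5]
          ring
      have h6 := HasDerivAt.fun_finsetProd h2
      have h7 : (fun x => (∏ i, (x - a i)) * wt (fun _ => r) a l x) = fun x =>
          ∏ i, ((x - a i) * (if i ≤ l.castSucc then x - a i else a i - x) ^ (-r)) := funext hwt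
      rw [h7]
      refine h6.congr_deriv ?_
      rw [Finset.mul_sum]
      refine Finset.sum_congr rfl fun i _ => ?_
      rw [smul_eq_mul, Finset.prod_mul_distrib]
      have h8 : wt (fun _ => r) a l x = (if i ≤ l.castSucc then x - a i else a i - x) ^ (-r) *
          ∏ k ∈ Finset.univ.erase i, (if k ≤ l.castSucc then x - a k else a k - x) ^ (-r) :=
        (Finset.mul_prod_erase Finset.univ (fun k => (if k ≤ l.castSucc then x - a k else a k - x) ^ (-r))
          (Finset.mem_univ i)).symm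
      rw [h8]
      unfold La
      ring
    have h9 : HasDerivAt (fun x : ℝ => ((x : ℂ) - z) ^ (-(r : ℂ))) (-(r : ℂ) * ((x : ℂ) - z) ^ (-(r : ℂ) - 1)) x := by
      have h10 : HasDerivAt (fun y : ℂ => y - z) 1 (x : ℂ) := (hasDerivAt_id _).sub_const _
      have h11 := (h10.cpow_const (c := -(r : ℂ)) (sub_slit hz x)).comp_ofReal
      refine h11.congr_deriv ?_
      ring
    have h12 := h1.ofReal_comp.mul h9
    refine h12.congr_deriv ?_
    simp only [hf']
    push_cast
    simp only [Finset.mul_sum, Finset.sum_mul]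
    have hs : ∑ i, (1 - (r : ℂ)) * (((wt (fun _ => r) a l x : ℝ) : ℂ) * ((La a i x : ℝ) : ℂ)) *
        ((x : ℂ) - z) ^ (-(r : ℂ)) = ∑ i, (1 - (r : ℂ)) * (((wt (fun _ => r) a l x : ℝ) : ℂ) *
          (((La a i x : ℝ) : ℂ) * ((x : ℂ) - z) ^ (-(r : ℂ)))) :=
      Finset.sum_congr rfl fun i _ => by ring
    rw [hs]
    ring
  have hfp : ∀ k, f (a k) = 0 := by
    intro k
    simp only [hf]
    rw [Finset.prod_eq_zero (Finset.mem_univ k) (sub_self _), zero_mul, ofReal_zero, zero_mul]
  have h1 := intervalIntegral.integral_eq_sub_of_hasDerivAt_of_le hlt.le hcont hder (hi3.sub hi2)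
  rw [hfp, hfp, sub_self] at h1
  simp only [hf'] at h1
  rw [intervalIntegral.integral_sub hi3 hi2, intervalIntegral.integral_const_mul,
    intervalIntegral.integral_finsetSum hi1] at h1
  rw [← sub_eq_zero.1 h1]
  rfl

/-- **The differential equation.** -/
theorem uf_ode {a : Fin (n + 1) → ℝ} (ha : StrictMono a) {r : ℝ} (h0 : 0 < r) (hr : r < 1) (l : Fin n)
    (j : Fin (n + 1)) {z : ℂ} (hz : 0 < z.im) :
    ∃ D : ℂ, HasDerivAt (uf a r l j) D z ∧
      (z - (a j : ℂ)) * D = (1 - (r : ℂ)) * ∑ i, uf a r l i z - (r : ℂ) * uf a r l j z := by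
  refine ⟨_, uf_deriv ha h0 hr l j hz, ?_⟩
  rw [← uf_bdry ha h0 hr l hz]
  have hcA : Continuous fun x : ℝ => ((∏ i, (x - a i) : ℝ) : ℂ) :=
    continuous_ofReal.comp (continuous_finsetProd _ fun i _ => continuous_id.sub continuous_const)
  have hcL : ∀ j, Continuous fun x : ℝ => ((La a j x : ℝ) : ℂ) := fun j => continuous_ofReal.comp (La_cont a j)
  have hi1 : IntervalIntegrable (fun x => ((wt (fun _ => r) a l x : ℝ) : ℂ) *
      (((La a j x : ℝ) : ℂ) * ((x : ℂ) - z) ^ (-(r : ℂ)))) volume (a l.castSucc) (a l.succ) :=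
    int_w ha hr l ((hcL j).mul (cpow_cont hz (-(r : ℂ))))
  have hi2 : IntervalIntegrable (fun x => ((wt (fun _ => r) a l x : ℝ) : ℂ) *
      (((∏ i, (x - a i) : ℝ) : ℂ) * ((r : ℂ) * ((x : ℂ) - z) ^ (-(r : ℂ) - 1)))) volume (a l.castSucc) (a l.succ) :=
    int_w ha hr l (hcA.mul (continuous_const.mul (cpow_cont hz _)))
  unfold uf
  rw [← intervalIntegral.integral_const_mul, ← intervalIntegral.integral_const_mul,
    ← intervalIntegral.integral_sub hi2 (hi1.const_mul _)]
  refine intervalIntegral.integral_congr fun x _ => ?_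
  have hne : (x : ℂ) - z ≠ 0 := slitPlane_ne_zero (sub_slit hz x)
  have e1 : ((x : ℂ) - z) ^ (-(r : ℂ)) = ((x : ℂ) - z) ^ (-(r : ℂ) - 1) * ((x : ℂ) - z) := by
    rw [cpow_sub _ _ hne, cpow_one, div_mul_cancel₀ _ hne]
  rw [e1, ← La_mul a j x]
  push_cast
  ring

end Pool.Agent.Run7.h659.VA
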