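import Pool.Agent.Run7.h659.VA3
import Pool.Agent.Run7.h659.VA4

/-!
# The differential equation for all integrals
-/

set_option autoImplicit false
set_option linter.unusedSectionVars false

open Complex Set Filter Topology

namespace Pool.Agent.Run7.h659.VA

open Pool.Agent.Run7.h659.SE Pool.Agent.Run7.h659.CC
open Pool.Agent.Y118.HP (ee Dm isOpen_Dm InGap mem_Dm_of_im ee_self ee_succAbove
  differentiable_ee differentiableOn_eval isPreconnected_Dm eq_zero_of_open)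

variable {n : ℕ} {ι : Type}

/-- the coefficients of the polynomials `La` -/
noncomputable def cf (a : Fin n → ℝ) (j : Fin n) (k : ℕ) : ℝ :=
  (∏ i ∈ Finset.univ.erase j, (Polynomial.X - Polynomial.C (a i))).coeff k

theorem La_sum (a : Fin n → ℝ) (j : Fin n) (x : ℝ) : La a j x = ∑ k : Fin n, cf a j k * x ^ (k : ℕ) := by
  have h1 : (∏ i ∈ Finset.univ.erase j, (Polynomial.X - Polynomial.C (a i))).natDegree < n := by
    rw [Polynomial.natDegree_prod_of_monic _ _ fun i _ => Polynomial.monic_X_sub_C _]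
    simp only [Polynomial.natDegree_X_sub_C, Finset.sum_const, smul_eq_mul, mul_one]
    rw [Finset.card_erase_of_mem (Finset.mem_univ j), Finset.card_univ, Fintype.card_fin]
    have := j.pos
    omega
  have h2 := Polynomial.eval_eq_sum_range' h1 x
  rw [Polynomial.eval_prod] at h2
  simp only [Polynomial.eval_sub, Polynomial.eval_X, Polynomial.eval_C] at h2
  unfold La cf
  rw [h2, Finset.sum_range]

/-- solutions of the differential equation -/
def Sol (a : Fin n → ℝ) (r : ℝ) (z : ℂ) (f : Fin n → ℂ → ℂ) : Prop :=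
  ∀ j, ∃ D : ℂ, HasDerivAt (f j) D z ∧ (z - (a j : ℂ)) * D = (1 - (r : ℂ)) * ∑ i, f i z - (r : ℂ) * f j z

theorem Sol.add {a : Fin n → ℝ} {r : ℝ} {z : ℂ} {f g : Fin n → ℂ → ℂ} (hf : Sol a r z f) (hg : Sol a r z g) :
    Sol a r z (fun j z => f j z + g j z) := by
  intro j
  obtain ⟨D, h1, h2⟩ := hf j
  obtain ⟨E, h3, h4⟩ := hg j
  refine ⟨D + E, h1.add h3, ?_⟩
  rw [Finset.sum_add_distrib]
  linear_combination h2 + h4

theorem Sol.smul {a : Fin n → ℝ} {r : ℝ} {z : ℂ} {f : Fin n → ℂ → ℂ} (hf : Sol a r z f) (c : ℂ) :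
    Sol a r z (fun j z => c * f j z) := by
  intro j
  obtain ⟨D, h1, h2⟩ := hf j
  refine ⟨c * D, h1.const_mul c, ?_⟩
  rw [← Finset.mul_sum]
  linear_combination c * h2

theorem Sol.zero (a : Fin n → ℝ) (r : ℝ) (z : ℂ) : Sol a r z (fun _ _ => 0) := by
  intro j
  refine ⟨0, hasDerivAt_const _ _, by simp⟩

theorem Sol.congr {a : Fin n → ℝ} {r : ℝ} {z : ℂ} {f g : Fin n → ℂ → ℂ} (hf : Sol a r z f) {V : Set ℂ}
    (hV : IsOpen V) (hz : z ∈ V) (h : ∀ w ∈ V, ∀ j, g j w = f j w) : Sol a r z g := by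
  intro j
  obtain ⟨D, h1, h2⟩ := hf j
  refine ⟨D, h1.congr_of_eventuallyEq ?_, ?_⟩
  · filter_upwards [hV.mem_nhds hz] with w hw using h w hw j
  · rw [h z hz j, Finset.sum_congr rfl fun i _ => h z hz i]
    exact h2

/-- the identity theorem -/
theorem Sol.of_open {a : Fin n → ℝ} (ha : StrictMono a) {r : ℝ} (m : Fin (n + 1)) {f : Fin n → ℂ → ℂ}
    (hf : ∀ j, DifferentiableOn ℂ (f j) (Dm a m)) {V : Set ℂ} (hV : IsOpen V) {z0 : ℂ} (hz0 : z0 ∈ V)
    (hz0D : z0 ∈ Dm a m) (h : ∀ z ∈ V, Sol a r z f) {z : ℂ} (hz : z ∈ Dm a m) : Sol a r z f := by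
  intro j
  have hd : DifferentiableOn ℂ (deriv (f j)) (Dm a m) := (hf j).deriv (isOpen_Dm a m)
  have h1 := eq_zero_of_open ha m
    (f := fun z => (z - (a j : ℂ)) * deriv (f j) z - ((1 - (r : ℂ)) * ∑ i, f i z - (r : ℂ) * f j z))
    (((differentiableOn_id.sub_const _).mul hd).sub
      (((DifferentiableOn.fun_sum fun i _ => hf i).const_mul _).sub ((hf j).const_mul _))) hV hz0 hz0D (by
      intro w hw
      obtain ⟨D, h2, h3⟩ := h w hw j
      simp only [h2.deriv]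
      rw [h3, sub_self]) z hz
  refine ⟨deriv (f j) z, ?_, sub_eq_zero.1 h1⟩
  exact ((hf j z hz).differentiableAt ((isOpen_Dm a m).mem_nhds hz)).hasDerivAt

/-- combinations of the rows -/
noncomputable def Fm (ρ : ι → ℚ) (a : Fin n → ℝ) (i : ι) (m : Fin (n + 1)) (v : Fin n → ℂ) (j : Fin n) (z : ℂ) : ℂ :=
  dotProduct (Matrix.vecMul v (PF ρ a m z i)) fun k => ((cf a j k : ℝ) : ℂ)

theorem Fm_sum (ρ : ι → ℚ) (a : Fin n → ℝ) (i : ι) (m : Fin (n + 1)) (v : Fin n → ℂ) (j : Fin n) (z : ℂ) :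
    Fm ρ a i m v j z = ∑ k, (∑ l, v l * PF ρ a m z i l k) * ((cf a j k : ℝ) : ℂ) := rfl

theorem Fm_diff {ρ : ι → ℚ} (h : Adm n ρ) {a : Fin n → ℝ} (ha : StrictMono a) (i : ι) (m : Fin (n + 1))
    (v : Fin n → ℂ) (j : Fin n) : DifferentiableOn ℂ (Fm ρ a i m v j) (Dm a m) := by
  have h1 : Fm ρ a i m v j = fun z => ∑ k, (∑ l, v l * PF ρ a m z i l k) * ((cf a j k : ℝ) : ℂ) := by
    funext z
    rw [Fm_sum]
  rw [h1]
  refine DifferentiableOn.fun_sum fun k _ => DifferentiableOn.mul_const ?_ _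
  exact DifferentiableOn.fun_sum fun l _ => (PF_diff h ha m i l k).const_mul _

/-- the combinations which satisfy the equation -/
def WS (ρ : ι → ℚ) (a : Fin n → ℝ) (i : ι) (m : Fin (n + 1)) : Submodule ℂ (Fin n → ℂ) where
  carrier := {v | ∀ z ∈ Dm a m, Sol a (ρ i : ℝ) z (Fm ρ a i m v)}
  zero_mem' := by
    intro z _
    have h1 : Fm ρ a i m 0 = fun _ _ => 0 := by
      funext j w
      unfold Fm
      rw [Matrix.zero_vecMul, zero_dotProduct]
    rw [h1]
    exact Sol.zero _ _ _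
  add_mem' := by
    intro v w hv hw z hz
    have h1 : Fm ρ a i m (v + w) = fun j z => Fm ρ a i m v j z + Fm ρ a i m w j z := by
      funext j z
      unfold Fm
      rw [Matrix.add_vecMul, add_dotProduct]
    rw [h1]
    exact (hv z hz).add (hw z hz)
  smul_mem' := by
    intro c v hv z hz
    have h1 : Fm ρ a i m (c • v) = fun j z => c * Fm ρ a i m v j z := by
      funext j z
      unfold Fm
      rw [Matrix.smul_vecMul, smul_dotProduct, smul_eq_mul]
    rw [h1]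
    exact (hv z hz).smul c

theorem mem_WS {ρ : ι → ℚ} {a : Fin n → ℝ} {i : ι} {m : Fin (n + 1)} {v : Fin n → ℂ} :
    v ∈ WS ρ a i m ↔ ∀ z ∈ Dm a m, Sol a (ρ i : ℝ) z (Fm ρ a i m v) := Iff.rfl

/-- continuation -/
theorem WS_tr {ρ : ι → ℚ} (h : Adm n ρ) {a : Fin n → ℝ} (ha : StrictMono a) {i : ι} {m m' : Fin (n + 1)}
    {V : Set ℂ} (hV : IsOpen V) {z0 : ℂ} (hz0 : z0 ∈ V) (hVim : ∀ z ∈ V, z.im ≠ 0)
    (g : Matrix (Fin n) (Fin n) ℂ) (hg : ∀ z ∈ V, PF ρ a m z i = g * PF ρ a m' z i) {v : Fin n → ℂ}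
    (hv : v ∈ WS ρ a i m) : Matrix.vecMul v g ∈ WS ρ a i m' := by
  intro z hz
  refine Sol.of_open ha m' (fun j => Fm_diff h ha i m' _ j) hV hz0 (mem_Dm_of_im a m' (hVim z0 hz0)) ?_ hz
  intro w hw
  refine Sol.congr (hv w (mem_Dm_of_im a m (hVim w hw))) hV hw ?_
  intro w' hw' j
  unfold Fm
  rw [hg w' hw', Matrix.vecMul_vecMul]

theorem WS_upper {ρ : ι → ℚ} (h : Adm n ρ) {a : Fin n → ℝ} (ha : StrictMono a) {i : ι} (k : Fin n)
    {v : Fin n → ℂ} (hv : v ∈ WS ρ a i k.castSucc) :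
    Matrix.vecMul v (1 + (hw ρ i - 1) • Pk (tu ρ i) k) ∈ WS ρ a i k.succ :=
  WS_tr h ha (V := {z : ℂ | 0 < z.im}) (isOpen_lt continuous_const continuous_im)
    (z0 := I) (by simp) (fun z hz => (ne_of_lt hz).symm) _ (fun z hz => PF_upper' h ha k hz i) hv

theorem WS_lower {ρ : ι → ℚ} (h : Adm n ρ) {a : Fin n → ℝ} (ha : StrictMono a) {i : ι} (k : Fin n)
    {v : Fin n → ℂ} (hv : v ∈ WS ρ a i k.succ) :
    Matrix.vecMul v (1 + (hw ρ i - 1) • Pk (tu ρ i) k) ∈ WS ρ a i k.castSucc :=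
  WS_tr h ha (V := {z : ℂ | z.im < 0}) (isOpen_lt continuous_im continuous_const)
    (z0 := -I) (by simp) (fun z hz => ne_of_lt hz) _ (fun z hz => PF_lower h ha k hz i) hv

theorem WS_lower' {ρ : ι → ℚ} (h : Adm n ρ) {a : Fin n → ℝ} (ha : StrictMono a) {i : ι} (k : Fin n)
    {v : Fin n → ℂ} (hv : v ∈ WS ρ a i k.castSucc) :
    Matrix.vecMul v (1 + ((hw ρ i)⁻¹ - 1) • Pk (tu ρ i) k) ∈ WS ρ a i k.succ :=
  WS_tr h ha (V := {z : ℂ | z.im < 0}) (isOpen_lt continuous_im continuous_const)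
    (z0 := -I) (by simp) (fun z hz => ne_of_lt hz) _ (fun z hz => PF_lower' h ha k hz i) hv

theorem WS_P [Fintype ι] {ρ : ι → ℚ} (h : Adm n ρ) {a : Fin n → ℝ} (ha : StrictMono a) {i : ι} (k : Fin n)
    {v : Fin n → ℂ} (hv : v ∈ WS ρ a i k.castSucc) :
    Matrix.vecMul v (Pk (tu ρ i) k) ∈ WS ρ a i k.castSucc := by
  have h1 := WS_lower h ha k (WS_upper h ha k hv)
  rw [Matrix.vecMul_vecMul, proj_mul (Pk_idem (tu_ne h i) k), Matrix.vecMul_add, Matrix.vecMul_one,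
    Matrix.vecMul_smul] at h1
  have h2 := (WS ρ a i k.castSucc).sub_mem h1 hv
  rw [add_sub_cancel_left] at h2
  have h3 : hw ρ i * hw ρ i - 1 ≠ 0 := by
    have h4 : hw ρ i * hw ρ i = qu ρ i := by unfold hw qu; ring
    rw [h4]
    exact sub_ne_zero.2 (qu_ne_one h i)
  have h5 := (WS ρ a i k.castSucc).smul_mem (hw ρ i * hw ρ i - 1)⁻¹ h2
  rwa [smul_smul, inv_mul_cancel₀ h3, one_smul] at h5

/-- the rows far from the moving point -/
theorem WS_far {ρ : ι → ℚ} (h : Adm (n + 1) ρ) {a : Fin (n + 1) → ℝ} (ha : StrictMono a) (i : ι) (l : Fin n) :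
    Pi.single l.succ 1 ∈ WS ρ a i 0 := by
  have hr := rho_mem h i
  have hr0 : (0 : ℝ) < ((ρ i : ℚ) : ℝ) := by exact_mod_cast h.pos i
  intro z hz
  refine Sol.of_open ha 0 (fun j => Fm_diff h ha i 0 _ j) (V := {z : ℂ | 0 < z.im})
    (isOpen_lt continuous_const continuous_im) (z0 := I) (by simp) (mem_Dm_of_im a 0 (by simp)) ?_ hz
  intro w hw
  have h1 : Sol a (ρ i : ℝ) w (uf a (ρ i : ℝ) l) := fun j => uf_ode ha hr0 hr.2 l j hw
  refine Sol.congr h1 (V := {z : ℂ | 0 < z.im}) (isOpen_lt continuous_const continuous_im) hw ?_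
  intro w' hw' j
  have hw'' : 0 < w'.im := hw'
  rw [Fm_sum]
  have h2 : ∀ k : Fin (n + 1), ∑ l', (Pi.single l.succ (1 : ℂ) : Fin (n + 1) → ℂ) l' * PF ρ a 0 w' i l' k =
      ∫ x in (a l.castSucc)..(a l.succ), ((wt (fun _ => ((ρ i : ℚ) : ℝ)) a l x : ℝ) : ℂ) *
        (((x ^ (k : ℕ) : ℝ) : ℂ) * ((x : ℂ) - w') ^ (-(((ρ i : ℚ) : ℝ) : ℂ))) := by
    intro k
    rw [Finset.sum_eq_single l.succ]
    · rw [Pi.single_eq_same, one_mul]
      unfold PF PM
      rw [Matrix.of_apply, per_far ha]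
    · intro l' _ hl'
      rw [Pi.single_eq_of_ne hl', zero_mul]
    · intro h3
      exact absurd (Finset.mem_univ _) h3
  simp only [h2, ← intervalIntegral.integral_mul_const]
  unfold uf
  rw [← intervalIntegral.integral_finsetSum]
  · refine intervalIntegral.integral_congr fun x _ => ?_
    simp only [La_sum]
    push_cast
    rw [Finset.sum_mul, Finset.mul_sum]
    refine Finset.sum_congr rfl fun k _ => ?_
    ring
  · intro k _
    refine IntervalIntegrable.mul_const ?_ _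
    exact int_w ha hr.2 l ((continuous_ofReal.comp (continuous_pow _)).mul (cpow_cont hw'' _))

/-- **All the integrals satisfy the differential equation.** -/
theorem WS_top [Fintype ι] {ρ : ι → ℚ} (h : Adm (n + 2) ρ) {a : Fin (n + 2) → ℝ} (ha : StrictMono a) (i : ι)
    (m : Fin (n + 3)) : WS ρ a i m = ⊤ := by
  have h0 : WS ρ a i 0 = ⊤ := by
    have h1 : ∀ l, (Pi.single l 1 : Fin (n + 2) → ℂ) ∈ WS ρ a i 0 := by
      intro l
      refine Fin.cases ?_ (fun l => WS_far h ha i l) l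
      have h2 := WS_P h ha (i := i) (k := 0) (WS_far h ha i 0)
      have h3 : Matrix.vecMul (Pi.single (Fin.succ 0) 1 : Fin (n + 2) → ℂ) (Pk (tu ρ i) 0) =
          (-(tu ρ i)⁻¹) • (Pi.single 0 1 : Fin (n + 2) → ℂ) := by
        funext c
        rw [Matrix.single_one_vecMul]
        unfold Pk Rr Rk
        rw [Matrix.row_apply, Matrix.smul_apply, Matrix.of_apply, Pi.smul_apply, smul_eq_mul, smul_eq_mul]
        rw [aV_adj (Or.inr (by simp)), one_mul]
      rw [h3] at h2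
      have h4 : (-(tu ρ i)⁻¹) ≠ 0 := neg_ne_zero.2 (inv_ne_zero (tu_ne h i))
      have h5 := (WS ρ a i (Fin.castSucc 0)).smul_mem (-(tu ρ i)⁻¹)⁻¹ h2
      rw [smul_smul, inv_mul_cancel₀ h4, one_smul] at h5
      exact h5
    rw [eq_top_iff]
    intro v _
    have h6 : v = ∑ l, v l • (Pi.single l 1 : Fin (n + 2) → ℂ) := by
      funext c
      rw [Finset.sum_apply, Finset.sum_eq_single c]
      · simp
      · intro b _ hb
        rw [Pi.smul_apply, Pi.single_eq_of_ne (Ne.symm hb), smul_zero]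
      · intro hc
        exact absurd (Finset.mem_univ _) hc
    rw [h6]
    exact (WS ρ a i 0).sum_mem fun l _ => (WS ρ a i 0).smul_mem _ (h1 l)
  refine Fin.induction (motive := fun m => WS ρ a i m = ⊤) h0 (fun k ih => ?_) m
  rw [eq_top_iff]
  intro v _
  have h1 : Matrix.vecMul v (1 + ((hw ρ i)⁻¹ - 1) • Pk (tu ρ i) k) ∈ WS ρ a i k.castSucc := by
    rw [ih]
    trivial
  have h2 := WS_upper h ha k h1
  have h3 : (hw ρ i)⁻¹ * hw ρ i = 1 := inv_mul_cancel₀ (neg_ne_zero.2 (pow_ne_zero _ (xx_ne ρ i)))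
  rw [Matrix.vecMul_vecMul, proj_mul (Pk_idem (tu_ne h i) k), h3, sub_self, zero_smul, add_zero,
    Matrix.vecMul_one] at h2
  exact h2

end Pool.Agent.Run7.h659.VA
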