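import Pool.Agent.Run7.h659.VA5
import Pool.Agent.Y921.DB.Fin

/-!
# Solutions of the differential equation in terms of the fundamental matrix at `0`
-/

set_option autoImplicit false
set_option linter.unusedSectionVars false

open Complex PowerSeries

namespace Pool.Agent.Run7.h659.VA

open Pool.Agent.Y921.DB

variable {n : ℕ}

theorem iter_diff {f : ℂ → ℂ} {U : Set ℂ} (hU : IsOpen U) (h : DifferentiableOn ℂ f U) (m : ℕ) :
    DifferentiableOn ℂ (iteratedDeriv m f) U := by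
  induction m with
  | zero => rw [iteratedDeriv_zero]; exact h
  | succ m ih => rw [iteratedDeriv_succ]; exact ih.deriv hU

theorem iter_has {f : ℂ → ℂ} {U : Set ℂ} (hU : IsOpen U) (h : DifferentiableOn ℂ f U) (m : ℕ) {z : ℂ} (hz : z ∈ U) :
    HasDerivAt (iteratedDeriv m f) (iteratedDeriv (m + 1) f z) z := by
  rw [iteratedDeriv_succ]
  exact ((iter_diff hU h m z hz).differentiableAt (hU.mem_nhds hz)).hasDerivAt

theorem Sol.diff {a : Fin n → ℝ} {r : ℝ} {f : Fin n → ℂ → ℂ} {U : Set ℂ} (h : ∀ z ∈ U, Sol a r z f) (j : Fin n) :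
    DifferentiableOn ℂ (f j) U := by
  intro z hz
  obtain ⟨D, h1, _⟩ := h z hz j
  exact h1.differentiableAt.differentiableWithinAt

/-- the equations of the derivatives -/
theorem Sol.iter {a : Fin n → ℝ} {r : ℝ} {f : Fin n → ℂ → ℂ} {U : Set ℂ} (hU : IsOpen U)
    (h : ∀ z ∈ U, Sol a r z f) (m : ℕ) : ∀ z ∈ U, ∀ j,
      (z - (a j : ℂ)) * iteratedDeriv (m + 1) (f j) z + m * iteratedDeriv m (f j) z =
        (1 - (r : ℂ)) * ∑ i, iteratedDeriv m (f i) z - (r : ℂ) * iteratedDeriv m (f j) z := by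
  have hd := fun j => Sol.diff h j
  induction m with
  | zero =>
    intro z hz j
    obtain ⟨D, h1, h2⟩ := h z hz j
    simp only [iteratedDeriv_zero, iteratedDeriv_succ, Nat.cast_zero, zero_mul, add_zero]
    rw [h1.deriv]
    exact h2
  | succ m ih =>
    intro z hz j
    set φ : ℂ → ℂ := fun z => ((z - (a j : ℂ)) * iteratedDeriv (m + 1) (f j) z + m * iteratedDeriv m (f j) z) -
      ((1 - (r : ℂ)) * ∑ i, iteratedDeriv m (f i) z - (r : ℂ) * iteratedDeriv m (f j) z) with hφ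
    have h1 : HasDerivAt φ ((1 * iteratedDeriv (m + 1) (f j) z + (z - (a j : ℂ)) * iteratedDeriv (m + 1 + 1) (f j) z +
        m * iteratedDeriv (m + 1) (f j) z) - ((1 - (r : ℂ)) * ∑ i, iteratedDeriv (m + 1) (f i) z -
          (r : ℂ) * iteratedDeriv (m + 1) (f j) z)) z := by
      refine HasDerivAt.sub (HasDerivAt.add (HasDerivAt.mul ?_ (iter_has hU (hd j) (m + 1) hz))
        ((iter_has hU (hd j) m hz).const_mul _)) (HasDerivAt.sub (HasDerivAt.const_mul _ ?_)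
          ((iter_has hU (hd j) m hz).const_mul _))
      · exact (hasDerivAt_id z).sub_const _
      · exact HasDerivAt.fun_sum fun i _ => iter_has hU (hd i) m hz
    have h2 : HasDerivAt φ 0 z := by
      refine (hasDerivAt_const z (0 : ℂ)).congr_of_eventuallyEq ?_
      filter_upwards [hU.mem_nhds hz] with w hw
      simp only [hφ]
      rw [ih w hw j, sub_self]
    have h3 := h1.unique h2
    push_cast
    linear_combination h3

variable {L : Type} [Field L] [NumberField L] [Algebra L ℂ]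

/-- the exponents -/
def mu1 (ρ : ℚ) : Fin n → ℚ := fun _ => 1 - ρ

theorem mu_ne {ρ : ℚ} (h : 0 < ρ) (m : ℕ) : (m : ℚ) ≠ -ρ := by
  have h2 : (0 : ℚ) ≤ m := Nat.cast_nonneg m
  intro h3
  linarith

/-- the coefficients -/
theorem Sol.coeff {a : Fin n → ℝ} {ρ : ℚ} (hρ : 0 < ρ) {f : Fin n → ℂ → ℂ} {U : Set ℂ} (hU : IsOpen U) (h0 : (0 : ℂ) ∈ U)
    (h : ∀ z ∈ U, Sol a (ρ : ℝ) z f) (α : Fin n → L) (hα : ∀ j, algebraMap L ℂ (α j) = (a j : ℂ))
    (hα0 : ∀ j, α j ≠ 0) (m : ℕ) (j : Fin n) :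
    iteratedDeriv m (f j) 0 = (m.factorial : ℂ) *
      ∑ l, f l 0 * algebraMap L ℂ (PowerSeries.coeff m (Zk α (mu1 ρ) (-ρ) l j)) := by
  induction m generalizing j with
  | zero =>
    rw [iteratedDeriv_zero, Nat.factorial_zero, Nat.cast_one, one_mul]
    simp only [coeff_zero_eq_constantCoeff_apply, Zk_zero]
    rw [Finset.sum_eq_single j]
    · rw [if_pos rfl, map_one, mul_one]
    · intro l _ hl
      rw [if_neg hl, map_zero, mul_zero]
    · intro hh
      exact absurd (Finset.mem_univ _) hh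
  | succ m ih =>
    have h1 := Sol.iter hU h m 0 h0 j
    have haj : (a j : ℂ) ≠ 0 := by
      rw [← hα]
      exact (map_ne_zero _).2 (hα0 j)
    have h2 : ∀ l, (a j : ℂ) * ((m : ℂ) + 1) * algebraMap L ℂ (PowerSeries.coeff (m + 1) (Zk α (mu1 ρ) (-ρ) l j)) =
        ((m : ℂ) + (ρ : ℂ)) * algebraMap L ℂ (PowerSeries.coeff m (Zk α (mu1 ρ) (-ρ) l j)) -
          (1 - (ρ : ℂ)) * ∑ i, algebraMap L ℂ (PowerSeries.coeff m (Zk α (mu1 ρ) (-ρ) l i)) := by
      intro l
      have h3 := congrArg (algebraMap L ℂ) (Zk_rec α (mu1 ρ) (-ρ) hα0 (mu_ne hρ) l j m)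
      simp only [map_mul, map_sub, map_add, map_one, map_natCast, hα, map_sum, mu1, map_ratCast] at h3
      rw [Finset.mul_sum]
      push_cast at h3
      rw [h3]
      ring
    have h4 : (a j : ℂ) * iteratedDeriv (m + 1) (f j) 0 = ((m : ℂ) + (ρ : ℂ)) * iteratedDeriv m (f j) 0 -
        (1 - (ρ : ℂ)) * ∑ i, iteratedDeriv m (f i) 0 := by
      push_cast at h1
      linear_combination -h1
    apply mul_left_cancel₀ haj
    rw [h4, ih j, Finset.sum_congr rfl fun i _ => ih i, Nat.factorial_succ]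
    have h5 : (a j : ℂ) * ((((m + 1) * m.factorial : ℕ) : ℂ) * ∑ l, f l 0 *
        algebraMap L ℂ (PowerSeries.coeff (m + 1) (Zk α (mu1 ρ) (-ρ) l j))) =
        (m.factorial : ℂ) * ∑ l, f l 0 * ((a j : ℂ) * ((m : ℂ) + 1) *
          algebraMap L ℂ (PowerSeries.coeff (m + 1) (Zk α (mu1 ρ) (-ρ) l j))) := by
      push_cast
      rw [Finset.mul_sum, Finset.mul_sum, Finset.mul_sum]
      refine Finset.sum_congr rfl fun l _ => ?_
      ring
    rw [h5]
    simp only [h2]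
    simp only [← Finset.mul_sum]
    simp only [mul_sub, Finset.sum_sub_distrib, Finset.mul_sum]
    congr 1
    · refine Finset.sum_congr rfl fun l _ => ?_
      ring
    · rw [Finset.sum_comm]
      refine Finset.sum_congr rfl fun l _ => Finset.sum_congr rfl fun i _ => ?_
      ring

/-- **Solutions in terms of the fundamental matrix.** -/
theorem Sol.series {a : Fin n → ℝ} {ρ : ℚ} (hρ : 0 < ρ) {f : Fin n → ℂ → ℂ} {U : Set ℂ} (hU : IsOpen U)
    (h0 : (0 : ℂ) ∈ U) (h : ∀ z ∈ U, Sol a (ρ : ℝ) z f) (α : Fin n → L)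
    (hα : ∀ j, algebraMap L ℂ (α j) = (a j : ℂ)) (hα0 : ∀ j, α j ≠ 0) :
    ∃ r : ℝ, 0 < r ∧ ∀ z : ℂ, ‖z‖ < r → ∀ j, f j z = ∑ l, f l 0 * VL (Zk α (mu1 ρ) (-ρ) l j) z := by
  choose A hA using fun l j => GFn_Zk α (mu1 ρ) (-ρ) (mu_ne hρ) l j
  obtain ⟨B, hB1, hB⟩ : ∃ B : ℝ, 1 ≤ B ∧ ∀ l j, A l j ≤ B := by
    refine ⟨1 + ∑ l, ∑ j, |A l j|, by
      have : 0 ≤ ∑ l, ∑ j, |A l j| := Finset.sum_nonneg fun _ _ => Finset.sum_nonneg fun _ _ => abs_nonneg _
      linarith, fun l j => ?_⟩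
    have h1 := Finset.single_le_sum (f := fun j => |A l j|) (fun _ _ => abs_nonneg _) (Finset.mem_univ j)
    have h2 := Finset.single_le_sum (f := fun l => ∑ j, |A l j|)
      (fun _ _ => Finset.sum_nonneg fun _ _ => abs_nonneg _) (Finset.mem_univ l)
    have h3 := le_abs_self (A l j)
    linarith
  obtain ⟨r₀, hr₀, hball⟩ := Metric.isOpen_iff.1 hU 0 h0
  refine ⟨min (1 / B) r₀, lt_min (by positivity) hr₀, fun z hz j => ?_⟩
  have hz1 : ‖z‖ * B < 1 := by
    have := hz.trans_le (min_le_left _ _)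
    rwa [lt_div_iff₀ (by linarith)] at this
  have hz2 : z ∈ Metric.ball (0 : ℂ) r₀ := by
    rw [mem_ball_zero_iff]
    exact hz.trans_le (min_le_right _ _)
  have hR : HasSum (fun m : ℕ => ∑ l, f l 0 * (algebraMap L ℂ (PowerSeries.coeff m (Zk α (mu1 ρ) (-ρ) l j)) * z ^ m))
      (∑ l, f l 0 * VL (Zk α (mu1 ρ) (-ρ) l j) z) := by
    refine hasSum_sum fun l _ => HasSum.mul_left _ ?_
    exact (summable_VL ((hA l j).mono (hB l j)) hz1).hasSum
  have hLs := hasSum_taylorSeries_on_ball ((Sol.diff h j).mono hball) hz2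
  have hterm : ∀ m : ℕ, ((m.factorial : ℂ))⁻¹ • (z - 0) ^ m • iteratedDeriv m (f j) 0 =
      ∑ l, f l 0 * (algebraMap L ℂ (PowerSeries.coeff m (Zk α (mu1 ρ) (-ρ) l j)) * z ^ m) := by
    intro m
    rw [Sol.coeff hρ hU h0 h α hα hα0 m j, sub_zero, smul_eq_mul, smul_eq_mul]
    have hm : (m.factorial : ℂ) ≠ 0 := by exact_mod_cast Nat.factorial_ne_zero m
    rw [show ((m.factorial : ℂ))⁻¹ * (z ^ m * ((m.factorial : ℂ) *
        ∑ l, f l 0 * algebraMap L ℂ (PowerSeries.coeff m (Zk α (mu1 ρ) (-ρ) l j)))) =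
        ((m.factorial : ℂ))⁻¹ * (m.factorial : ℂ) * (z ^ m *
        ∑ l, f l 0 * algebraMap L ℂ (PowerSeries.coeff m (Zk α (mu1 ρ) (-ρ) l j))) by ring, inv_mul_cancel₀ hm, one_mul,
      Finset.mul_sum]
    refine Finset.sum_congr rfl fun l _ => ?_
    ring
  have h5 : (fun m : ℕ => ((m.factorial : ℂ))⁻¹ • (z - 0) ^ m • iteratedDeriv m (f j) 0) = fun m : ℕ =>
      ∑ l, f l 0 * (algebraMap L ℂ (PowerSeries.coeff m (Zk α (mu1 ρ) (-ρ) l j)) * z ^ m) := funext hterm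
  rw [h5] at hLs
  exact hLs.unique hR

end Pool.Agent.Run7.h659.VA
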