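import Pool.Agent.Run7.h659.VA6

/-!
# Products of families of cyclic covers: invariance and representation by G-functions
-/

set_option autoImplicit false
set_option linter.unusedSectionVars false

open Complex PowerSeries

namespace Pool.Agent.Run7.h659.VA

open Pool.Agent.Run7.h659.SE Pool.Agent.Run7.h659.CC
open Pool.Agent.Y118.HP (ee Dm isOpen_Dm InGap mem_Dm_of_im ee_self ee_succAbove
  differentiable_ee differentiableOn_eval isPreconnected_Dm eq_zero_of_open)
open Pool.Agent.Y921.DB (Zk Wk fp Ak VL DatL SpecK ptL blk sx sz lag lag_sum datL_Zk blk_same exists_pos_le)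

/-- a family of cyclic covers with a moving branch point -/
structure Cfam where
  n : ℕ
  a : Fin (n + 2) → ℝ
  k : ℕ
  ρ : Fin k → ℚ
  m : Fin (n + 3)
  ha : StrictMono a
  alg : ∀ i, IsAlgebraic ℚ (a i)
  gap : InGap a m 0
  adm : Adm (n + 2) ρ

variable {p s : ℕ} (F : Fin p → Cfam)

/-- the names of the constants and of the periods -/
abbrev Vx (s : ℕ) : Type := Fin s ⊕ Σ l : Fin p, Fin (F l).k × Fin ((F l).n + 2) × Fin ((F l).n + 2)

/-- families of matrices -/
abbrev MM (R : Type) : Type := ∀ l : Fin p, Fin (F l).k → Matrix (Fin ((F l).n + 2)) (Fin ((F l).n + 2)) R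

/-- the values of the variables -/
def cv {R : Type} (ξ : Fin s → R) (Y : MM F R) : Vx F s → R := Sum.elim ξ fun v => Y v.1 v.2.1 v.2.2.1 v.2.2.2

/-- the matrices of periods -/
noncomputable def QQ (z : Fin p → ℂ) : MM F ℂ := fun l => PF (F l).ρ (F l).a (F l).m (z l)

section EV

variable {K : Type} [Field K] {R R' : Type} [CommRing R] [Algebra K R] [CommRing R'] [Algebra K R']

/-- evaluation -/
noncomputable def EV (G : MvPolynomial (Vx F s) (MvPolynomial (Fin p) K)) (z : Fin p → R) (ξ : Fin s → R)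
    (Y : MM F R) : R :=
  G.eval₂ (MvPolynomial.aeval z : MvPolynomial (Fin p) K →ₐ[K] R).toRingHom (cv F ξ Y)

theorem EV_map (φ : R →ₐ[K] R') (G : MvPolynomial (Vx F s) (MvPolynomial (Fin p) K)) (z : Fin p → R)
    (ξ : Fin s → R) (Y : MM F R) :
    φ (EV F G z ξ Y) = EV F G (fun l => φ (z l)) (fun i => φ (ξ i)) (fun l i => (Y l i).map φ) := by
  unfold EV
  have h1 := MvPolynomial.eval₂_comp_left φ.toRingHom
    (MvPolynomial.aeval z : MvPolynomial (Fin p) K →ₐ[K] R).toRingHom (cv F ξ Y) G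
  refine h1.trans ?_
  congr 1
  · have h2 : φ.comp (MvPolynomial.aeval z) = MvPolynomial.aeval fun l => φ (z l) := by
      refine MvPolynomial.algHom_ext fun i => ?_
      simp
    rw [← h2]
    rfl
  · funext v
    rcases v with v | v
    · rfl
    · rfl

end EV

theorem ev_diff {n : ℕ} {ι : Type} {ρ : ι → ℚ} (h : Adm n ρ) {a : Fin n → ℝ} (ha : StrictMono a) (m : Fin (n + 1))
    (P : MvPolynomial (Sg ι n) ℂ) : DifferentiableOn ℂ (fun z => ev P (ee a 0 z) (PF ρ a m z)) (Dm a m) := by
  unfold ev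
  refine differentiableOn_eval (fun (o : Fin (n + 1) ⊕ (ι × Fin n × Fin n)) z =>
    Sum.elim (ee a 0 z) (fun x : ι × Fin n × Fin n => PF ρ a m z x.1 x.2.1 x.2.2) o) ?_ P
  rintro (i | x)
  · exact (differentiable_ee a 0 i).differentiableOn
  · simp only [Sum.elim_inr]
    exact PF_diff h ha m x.1 _ _

variable {K : Type} [Field K] [Algebra K ℂ]

/-- one family -/
theorem step (G : MvPolynomial (Vx F s) (MvPolynomial (Fin p) K)) (ξ : Fin s → ℂ) {r : ℝ} (hr : 0 < r) (l : Fin p)
    (hball : Metric.ball (0 : ℂ) r ⊆ Dm (F l).a (F l).m) (z : Fin p → ℂ) (Y : MM F ℂ)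
    (h : ∀ w : ℂ, ‖w‖ < r → EV F G (Function.update z l w) ξ
      (Function.update Y l (PF (F l).ρ (F l).a (F l).m w)) = 0)
    (g : Fin (F l).k → Matrix (Fin ((F l).n + 2)) (Fin ((F l).n + 2)) ℂ) (hg : ∀ i, (g i).det = 1) {w : ℂ}
    (hw : ‖w‖ < r) : EV F G (Function.update z l w) ξ
      (Function.update Y l (g * PF (F l).ρ (F l).a (F l).m w)) = 0 := by
  classical
  set P : MvPolynomial (Sg (Fin (F l).k) ((F l).n + 2)) ℂ :=
    EV F G (R := MvPolynomial (Sg (Fin (F l).k) ((F l).n + 2)) ℂ)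
      (Function.update (fun l' => MvPolynomial.C (z l')) l (MvPolynomial.X (Sum.inl 0)))
      (fun i => MvPolynomial.C (ξ i))
      (Function.update (fun l' i => (Y l' i).map MvPolynomial.C) l
        (fun i => Matrix.of fun a b => MvPolynomial.X (Sum.inr (i, a, b)))) with hP
  have key : ∀ (e : Fin ((F l).n + 2 + 1) → ℂ) (X : Fin (F l).k → Matrix (Fin ((F l).n + 2)) (Fin ((F l).n + 2)) ℂ),
      ev P e X = EV F G (Function.update z l (e 0)) ξ (Function.update Y l X) := by
    intro e X
    rw [← eva_apply]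
    have h1 := EV_map F ((eva e X).restrictScalars K) G
      (Function.update (fun l' => MvPolynomial.C (z l')) l (MvPolynomial.X (Sum.inl 0)))
      (fun i => MvPolynomial.C (ξ i))
      (Function.update (fun l' i => (Y l' i).map MvPolynomial.C) l
        (fun i => Matrix.of fun a b => MvPolynomial.X (Sum.inr (i, a, b))))
    refine h1.trans ?_
    congr 1
    · funext l'
      by_cases hl : l' = l
      · subst hl
        rw [Function.update_self, Function.update_self]
        change eva e X (MvPolynomial.X (Sum.inl 0)) = e 0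
        unfold eva
        rw [MvPolynomial.aeval_X]
        rfl
      · rw [Function.update_of_ne hl, Function.update_of_ne hl]
        change eva e X (MvPolynomial.C (z l')) = z l'
        unfold eva
        rw [MvPolynomial.aeval_C]
        rfl
    · funext i
      change eva e X (MvPolynomial.C (ξ i)) = ξ i
      unfold eva
      rw [MvPolynomial.aeval_C]
      rfl
    · funext l' i
      by_cases hl : l' = l
      · subst hl
        rw [Function.update_self, Function.update_self]
        ext c d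
        rw [Matrix.map_apply, Matrix.of_apply]
        change eva e X (MvPolynomial.X (Sum.inr (i, c, d))) = X i c d
        unfold eva
        rw [MvPolynomial.aeval_X]
        rfl
      · rw [Function.update_of_ne hl, Function.update_of_ne hl]
        ext c d
        rw [Matrix.map_apply, Matrix.map_apply]
        change eva e X (MvPolynomial.C (Y l' i c d)) = Y l' i c d
        unfold eva
        rw [MvPolynomial.aeval_C]
        rfl
  have he : ∀ w : ℂ, ee (F l).a 0 w 0 = w := fun w => ee_self _ _ _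
  have h0 : ∀ w ∈ Dm (F l).a (F l).m, ev P (ee (F l).a 0 w) (PF (F l).ρ (F l).a (F l).m w) = 0 := by
    refine eq_zero_of_open (F l).ha (F l).m (ev_diff (F l).adm (F l).ha (F l).m P) Metric.isOpen_ball
      (Metric.mem_ball_self hr) (hball (Metric.mem_ball_self hr)) ?_
    intro w hw
    rw [key, he]
    exact h w (mem_ball_zero_iff.1 hw)
  have h1 := rel_inv (F l).adm (F l).ha (F l).m P h0 g hg (hball (mem_ball_zero_iff.2 hw))
  rw [key, he] at h1
  exact h1

/-- **Relations between the periods of a product of families are invariant.** -/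
theorem all_inv (G : MvPolynomial (Vx F s) (MvPolynomial (Fin p) K)) (ξ : Fin s → ℂ) {r : ℝ} (hr : 0 < r)
    (hball : ∀ l, Metric.ball (0 : ℂ) r ⊆ Dm (F l).a (F l).m)
    (h : ∀ z : Fin p → ℂ, (∀ l, ‖z l‖ < r) → EV F G z ξ (QQ F z) = 0) (g : MM F ℂ) (hg : ∀ l i, (g l i).det = 1)
    (z : Fin p → ℂ) (hz : ∀ l, ‖z l‖ < r) : EV F G z ξ (fun l => g l * QQ F z l) = 0 := by
  classical
  have key : ∀ (T : Finset (Fin p)) (z : Fin p → ℂ), (∀ l, ‖z l‖ < r) →
      EV F G z ξ (fun l => if l ∈ T then g l * QQ F z l else QQ F z l) = 0 := by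
    intro T
    induction T using Finset.induction_on with
    | empty =>
      intro z hz
      simp only [Finset.notMem_empty, if_false]
      exact h z hz
    | insert l T hl ih =>
      intro z hz
      have h1 := step F G ξ hr l (hball l) z (fun l' => if l' ∈ T then g l' * QQ F z l' else QQ F z l') (by
        intro w hw
        have h2 := ih (Function.update z l w) (by
          intro l'
          by_cases hll : l' = l
          · subst hll; rw [Function.update_self]; exact hw
          · rw [Function.update_of_ne hll]; exact hz l')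
        convert h2 using 2
        funext l'
        by_cases hll : l' = l
        · subst hll
          rw [Function.update_self, if_neg hl]
          unfold QQ
          rw [Function.update_self]
        · rw [Function.update_of_ne hll]
          unfold QQ
          rw [Function.update_of_ne hll]) (g l) (hg l) (hz l)
      rw [Function.update_eq_self] at h1
      convert h1 using 2
      funext l'
      by_cases hll : l' = l
      · subst hll
        rw [Function.update_self, if_pos (Finset.mem_insert_self _ _)]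
        rfl
      · rw [Function.update_of_ne hll]
        simp only [Finset.mem_insert, hll, false_or]
  have h1 := key Finset.univ z hz
  simp only [Finset.mem_univ, if_true] at h1
  exact h1

/-- from specialisations of functional relations to invariance -/
theorem spec_inv (ξ : Fin s → ℂ) {r : ℝ} (hr : 0 < r) (hball : ∀ l, Metric.ball (0 : ℂ) r ⊆ Dm (F l).a (F l).m)
    {δ : ℕ} {m : Fin p → ℕ} (hm : ∀ l, 1 / (m l : ℝ) < r)
    (hs : SpecK K (fun z v => cv F ξ (QQ F z) v) r δ m) (P : MvPolynomial (Vx F s) K) (hP : P.totalDegree ≤ δ)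
    (h0 : MvPolynomial.aeval (cv F ξ (QQ F fun l => 1 / (m l : ℂ))) P = 0) (g : MM F ℂ)
    (hg : ∀ l i, (g l i).det = 1) :
    MvPolynomial.aeval (cv F ξ fun l => g l * QQ F (fun l => 1 / (m l : ℂ)) l) P = 0 := by
  obtain ⟨G, _, h2, h3⟩ := hs P hP h0
  have hz : ∀ l, ‖(1 / (m l : ℂ))‖ < r := by
    intro l
    have := hm l
    rwa [norm_div, norm_one, Complex.norm_natCast]
  have h4 := all_inv F G ξ hr hball (fun z hz => h2 z hz) g hg (fun l => 1 / (m l : ℂ)) hz
  rw [← h3, MvPolynomial.aeval_def, MvPolynomial.eval₂_map, ← h4]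
  unfold EV
  congr 1
  refine MvPolynomial.ringHom_ext (fun a => ?_) fun i => ?_
  · simp
  · simp

/-! ## representation -/

theorem lag_cf {n : ℕ} {a : Fin n → ℝ} (ha : StrictMono a) (d k : Fin n) :
    ∑ j, lag (fun i => (a i : ℂ)) d j * ((cf a j k : ℝ) : ℂ) = if k = d then 1 else 0 := by
  have hinj : Function.Injective fun i => (a i : ℂ) := fun i j hij => by
    have h0 : (a i : ℂ) = (a j : ℂ) := hij
    exact ha.injective (by exact_mod_cast h0)
  have h1 : (Polynomial.X ^ (d : ℕ) : Polynomial ℂ) = ∑ j, Polynomial.C (lag (fun i => (a i : ℂ)) d j) *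
      (∏ i ∈ Finset.univ.erase j, (Polynomial.X - Polynomial.C (a i))).map (algebraMap ℝ ℂ) := by
    refine Polynomial.funext fun u => ?_
    rw [Polynomial.eval_pow, Polynomial.eval_X, lag_sum hinj d.2 u, Polynomial.eval_finsetSum]
    refine Finset.sum_congr rfl fun j _ => ?_
    rw [Polynomial.eval_mul, Polynomial.eval_C, Polynomial.map_prod, Polynomial.eval_prod]
    congr 1
    refine Finset.prod_congr rfl fun i _ => ?_
    simp
  have h2 := congrArg (fun q : Polynomial ℂ => q.coeff (k : ℕ)) h1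
  simp only [Polynomial.coeff_X_pow, Polynomial.finsetSum_coeff, Polynomial.coeff_C_mul, Polynomial.coeff_map] at h2
  have h3 : ((k : ℕ) = (d : ℕ)) ↔ k = d := Fin.ext_iff.symm
  simp only [h3] at h2
  exact h2.symm

/-- the periods in terms of the solutions -/
theorem PF_lag {n : ℕ} {ι : Type} (ρ : ι → ℚ) {a : Fin n → ℝ} (ha : StrictMono a) (m : Fin (n + 1)) (i : ι)
    (c d : Fin n) (z : ℂ) : PF ρ a m z i c d = ∑ j, lag (fun i => (a i : ℂ)) d j * Fm ρ a i m (Pi.single c 1) j z := by
  have h1 : ∀ j, Fm ρ a i m (Pi.single c 1) j z = ∑ k, PF ρ a m z i c k * ((cf a j k : ℝ) : ℂ) := by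
    intro j
    unfold Fm
    rw [Matrix.single_one_vecMul]
    rfl
  simp only [h1, Finset.mul_sum]
  rw [Finset.sum_comm]
  have h2 : ∀ k, ∑ j, lag (fun i => (a i : ℂ)) d j * (PF ρ a m z i c k * ((cf a j k : ℝ) : ℂ)) =
      if k = d then PF ρ a m z i c k else 0 := by
    intro k
    have h3 : ∀ j, lag (fun i => (a i : ℂ)) d j * (PF ρ a m z i c k * ((cf a j k : ℝ) : ℂ)) =
        PF ρ a m z i c k * (lag (fun i => (a i : ℂ)) d j * ((cf a j k : ℝ) : ℂ)) := fun j => by ring
    simp only [h3]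
    rw [← Finset.mul_sum, lag_cf ha]
    split_ifs
    · rw [mul_one]
    · rw [mul_zero]
  simp only [h2]
  rw [Finset.sum_ite_eq' Finset.univ d, if_pos (Finset.mem_univ d)]

theorem ne_zero_of_gap {n : ℕ} {a : Fin n → ℝ} {m : Fin (n + 1)} (h : InGap a m 0) (i : Fin n) : a i ≠ 0 := by
  rcases lt_or_ge i.castSucc m with h1 | h1
  · exact ((h i).1 h1).ne
  · exact ((h i).2 h1).ne'

/-- **The periods are combinations of G-functions over a number field.** -/
theorem rep (l0 : Fin p) (ξ : Fin s → ℂ) : ∃ (L : Type) (_ : Field L) (_ : NumberField L) (_ : Algebra L ℂ) (M : ℕ)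
    (f : Polynomial L) (A : Fin M → Fin M → Polynomial L) (Z W : Fin M → Fin M → L⟦X⟧)
    (lam : Fin p → Vx F s → Option (Fin M × Fin M) → ℂ) (pl : Vx F s → Fin p) (r : ℝ), DatL f A Z W ∧ 0 < r ∧
      (∀ l, Metric.ball (0 : ℂ) r ⊆ Dm (F l).a (F l).m) ∧ (∀ v l, pl v ≠ l → ∀ q, lam l v q = 0) ∧
      ∀ z : Fin p → ℂ, (∀ l, ‖z l‖ < r) → ∀ v, cv F ξ (QQ F z) v = ptL lam Z z (pl v, v) := by
  classical
  set S : Set ℂ := ⋃ l, Set.range (fun i => ((F l).a i : ℂ)) with hS
  have hSf : S.Finite := Set.finite_iUnion fun l => Set.finite_range _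
  have hSa : ∀ s ∈ S, IsIntegral ℚ s := by
    intro s hs
    obtain ⟨l, j, rfl⟩ := Set.mem_iUnion.1 hs
    exact (((F l).alg j).algebraMap (A := ℂ)).isIntegral
  set L := IntermediateField.adjoin ℚ S with hL
  have hfd : FiniteDimensional ℚ L := by
    have := hSf.to_subtype
    exact IntermediateField.finiteDimensional_adjoin hSa
  have hNF : NumberField L := ⟨⟩
  set α : ∀ l, Fin ((F l).n + 2) → L := fun l j => ⟨((F l).a j : ℂ), IntermediateField.subset_adjoin ℚ S
    (Set.mem_iUnion.2 ⟨l, j, rfl⟩)⟩ with hα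
  have hα0 : ∀ l j, α l j ≠ 0 := by
    intro l j h
    have h1 := congrArg Subtype.val h
    have h2 : ((F l).a j : ℂ) = 0 := h1
    exact ne_zero_of_gap (F l).gap j (by exact_mod_cast h2)
  have hαa : ∀ l j, algebraMap L ℂ (α l j) = ((F l).a j : ℂ) := fun l j => rfl
  set B : Type := Σ l : Fin p, Fin (F l).k with hB
  set μ : ∀ b : B, Fin ((F b.1).n + 2) → ℚ := fun b => mu1 ((F b.1).ρ b.2) with hμ
  set μ0 : B → ℚ := fun b => -(F b.1).ρ b.2 with hμ0
  have hμ0n : ∀ (b : B) (m : ℕ), (m : ℚ) ≠ μ0 b := fun b m => mu_ne ((F b.1).adm.pos b.2) m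
  set nn : B → ℕ := fun b => (F b.1).n + 2 with hnn
  obtain ⟨A', hA'⟩ := DatL.block (S := B) (n := nn) (f := fun b => fp (α b.1))
    (fun b => datL_Zk (α b.1) (μ b) (μ0 b) (hα0 _) (hμ0n b))
  set Z := blk (n := nn) fun b => Zk (α b.1) (μ b) (μ0 b) with hZ
  have hrep : ∀ v : (Σ l : Fin p, Fin (F l).k × Fin ((F l).n + 2) × Fin ((F l).n + 2)), ∃ r : ℝ, 0 < r ∧
      ∃ c : Option (Fin (sz nn) × Fin (sz nn)) → ℂ, ∀ z : ℂ, ‖z‖ < r →
      PF (F v.1).ρ (F v.1).a (F v.1).m z v.2.1 v.2.2.1 v.2.2.2 =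
        ∑ q, c q * q.elim 1 fun q => VL (Z q.1 q.2) z := by
    rintro ⟨l, i, c, d⟩
    have hD0 : (0 : ℂ) ∈ Dm (F l).a (F l).m := by
      have := (F l).gap.mem_Dm
      rwa [ofReal_zero] at this
    have hsol : ∀ z ∈ Dm (F l).a (F l).m, Sol (F l).a ((F l).ρ i : ℝ) z (Fm (F l).ρ (F l).a i (F l).m (Pi.single c 1)) := by
      have h1 : (Pi.single c 1 : Fin ((F l).n + 2) → ℂ) ∈ WS (F l).ρ (F l).a i (F l).m := by
        rw [WS_top (F l).adm (F l).ha i (F l).m]
        trivial
      exact mem_WS.1 h1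
    obtain ⟨r, hr, hser⟩ := Sol.series ((F l).adm.pos i) (isOpen_Dm (F l).a (F l).m) hD0 hsol (α l) (hαa l) (hα0 l)
    refine ⟨r, hr, fun q => ∑ j, ∑ l', if q = some ((sx nn).symm ⟨⟨l, i⟩, l'⟩,
      (sx nn).symm ⟨⟨l, i⟩, j⟩) then lag (fun i => ((F l).a i : ℂ)) d j *
        Fm (F l).ρ (F l).a i (F l).m (Pi.single c 1) l' 0 else 0, fun z hz => ?_⟩
    simp only
    rw [PF_lag (F l).ρ (F l).ha (F l).m i c d z]
    simp only [Finset.sum_mul]
    rw [Finset.sum_comm]
    refine Finset.sum_congr rfl fun j _ => ?_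
    rw [Finset.sum_comm, hser z hz j, Finset.mul_sum]
    refine Finset.sum_congr rfl fun l' _ => ?_
    rw [Finset.sum_eq_single (some ((sx nn).symm ⟨⟨l, i⟩, l'⟩, (sx nn).symm ⟨⟨l, i⟩, j⟩))]
    · rw [if_pos rfl]
      have h1 : Z ((sx nn).symm ⟨⟨l, i⟩, l'⟩) ((sx nn).symm ⟨⟨l, i⟩, j⟩) = Zk (α l) (μ ⟨l, i⟩) (μ0 ⟨l, i⟩) l' j :=
        blk_same (n := nn) (fun b => Zk (α b.1) (μ b) (μ0 b)) ⟨l, i⟩ l' j
      simp only [Option.elim_some]
      rw [h1, mul_assoc]
    · intro q _ hq
      rw [if_neg hq, zero_mul]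
    · intro hh
      exact absurd (Finset.mem_univ _) hh
  choose r hr c hc using hrep
  obtain ⟨r₀, hr₀, hr₁⟩ := exists_pos_le r hr
  have hb : ∀ l, ∃ r : ℝ, 0 < r ∧ Metric.ball (0 : ℂ) r ⊆ Dm (F l).a (F l).m := by
    intro l
    have hD0 : (0 : ℂ) ∈ Dm (F l).a (F l).m := by
      have := (F l).gap.mem_Dm
      rwa [ofReal_zero] at this
    obtain ⟨r, hr, h⟩ := Metric.isOpen_iff.1 (isOpen_Dm (F l).a (F l).m) 0 hD0
    exact ⟨r, hr, h⟩
  choose t ht hbt using hb
  obtain ⟨r₂, hr₂, hr₃⟩ := exists_pos_le t ht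
  refine ⟨L, inferInstance, hNF, inferInstance, sz nn, ∏ b : B, fp (α b.1), A', Z,
    blk (n := nn) (fun b => Wk (α b.1) (μ b) (μ0 b)),
    fun l v q => if Sum.elim (fun _ : Fin s => l0) (fun v => v.1) v = l then
      Sum.elim (fun i : Fin s => if q = none then ξ i else 0) (fun v => c v q) v else 0,
    Sum.elim (fun _ : Fin s => l0) (fun v => v.1), min r₀ r₂,
    hA', lt_min hr₀ hr₂, fun l => (Metric.ball_subset_ball ((min_le_right _ _).trans (hr₃ l))).trans (hbt l),
    fun v l hvl q => if_neg hvl, fun z hz v => ?_⟩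
  rcases v with i | v
  · unfold cv ptL
    simp only [Sum.elim_inl, if_true]
    rw [Finset.sum_eq_single none]
    · rw [if_pos rfl, Option.elim_none, mul_one]
    · intro q _ hq
      rw [if_neg hq, zero_mul]
    · intro hh
      exact absurd (Finset.mem_univ _) hh
  · unfold cv ptL QQ
    simp only [Sum.elim_inr, if_true]
    rw [hc v (z v.1) ((hz v.1).trans_le ((min_le_left _ _).trans (hr₁ v)))]

end Pool.Agent.Run7.h659.VA
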